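import Pool.Agent.H45.PN.Walk

/-! BL1: one sided ballot bound with logarithmic boundary and small slope. -/

namespace PN
open MeasureTheory ProbabilityTheory

namespace BL1

open W45

theorem integrable_one : Integrable (fun s : ℝ => s) (gaussianReal 0 1) := by
  have h : Integrable id (gaussianReal 0 1) :=
    memLp_one_iff_integrable.1 (memLp_id_gaussianReal' (μ := 0) (v := 1) 1 (by simp))
  exact h

theorem integrable_coord (n : ℕ) (i : Fin n) :
    Integrable (fun g : Fin n → ℝ => g i) (Ga (Fin n)) := by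
  have h := measurePreserving_eval (fun _ : Fin n => gaussianReal 0 1) i
  exact h.integrable_comp_of_integrable integrable_one

theorem integrable_ps (n j : ℕ) : Integrable (fun g : Fin n → ℝ => ps g j) (Ga (Fin n)) := by
  unfold ps
  refine integrable_finsetSum _ fun i _ => ?_
  split_ifs
  · exact integrable_coord n i
  · exact integrable_zero _ _ _

/-- mean of the negative part of a standard Gaussian -/
noncomputable def cg : ℝ := ∫ s : ℝ, max (-s) 0 ∂gaussianReal 0 1

theorem cg_pos : 0 < cg := by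
  have h2 : Integrable (fun s : ℝ => max (-s) 0) (gaussianReal 0 1) :=
    integrable_one.neg.pos_part
  unfold cg
  refine (integral_pos_iff_support_of_nonneg (f := fun s : ℝ => max (-s) 0)
    (fun s => le_max_right _ _) h2).2 ?_
  have hsub : Set.Iio (0 : ℝ) ⊆ Function.support (fun s : ℝ => max (-s) 0) := by
    intro s hs
    rw [Function.mem_support]
    have : 0 < -s := neg_pos.2 hs
    exact (lt_of_lt_of_le this (le_max_left _ _)).ne'
  refine lt_of_lt_of_le ?_ (measure_mono hsub)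
  rw [pos_iff_ne_zero]
  intro h
  have := gaussianReal_absolutelyContinuous' (0 : ℝ) (v := 1) one_ne_zero h
  simp at this

theorem neg_part (n : ℕ) : ∫ g : Fin n → ℝ, max (-ps g n) 0 ∂Ga (Fin n) = Real.sqrt n * cg := by
  have hm : Measurable (fun g : Fin n → ℝ => ∑ i, g i) := by fun_prop
  have h1 : ∫ g : Fin n → ℝ, max (-ps g n) 0 ∂Ga (Fin n) =
      ∫ s : ℝ, max (-s) 0 ∂((Ga (Fin n)).map (fun g => ∑ i, g i)) := by
    rw [integral_map hm.aemeasurable (by fun_prop)]
    refine integral_congr_ae (Filter.Eventually.of_forall fun g => ?_)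
    simp only [ps_eq g le_rfl]
  have h2 : gaussianReal 0 (n : NNReal) = (gaussianReal 0 1).map (Real.sqrt n * ·) := by
    rw [gaussianReal_map_const_mul]
    congr 1
    · simp
    · ext
      simp
  rw [h1, map_sum, h2, integral_map (by fun_prop) (by fun_prop), cg, ← integral_const_mul]
  refine integral_congr_ae (Filter.Eventually.of_forall fun s => ?_)
  have hs : 0 ≤ Real.sqrt n := Real.sqrt_nonneg _
  simp only
  rw [mul_max_of_nonneg _ _ hs]
  simp

/-- the basic inequality -/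
theorem basic (hH : S_HAR) {C0 : ℝ} (hO : ∀ (n : ℕ) (x : ℝ) (b : ℕ → ℝ), 0 ≤ x → 0 ≤ b 0 →
    Monotone b →
    ∫ g : Fin n → ℝ, Set.indicator (St n n x b) (fun g => x + b n - ps g n) g ∂Ga (Fin n) ≤
      x + b 0 + C0 + ∑ j ∈ Finset.range n, (b (j + 1) - b j) * (Ga (Fin n)).real (St n j x b))
    (n : ℕ) (hn : 1 ≤ n) (x : ℝ) (b : ℕ → ℝ) (hx : 0 ≤ x) (hb0 : 0 ≤ b 0) (hb : Monotone b) :
    cg * Real.sqrt n * (Ga (Fin n)).real (St n n x b) ≤
      x + b 0 + C0 + ∑ j ∈ Finset.range n, (b (j + 1) - b j) * (Ga (Fin j)).real (St j j x b) := by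
  have hy : 0 ≤ x + b n := add_nonneg hx (hb0.trans (hb (Nat.zero_le n)))
  have hint : Integrable (fun g : Fin n → ℝ => x + b n - ps g n) (Ga (Fin n)) :=
    (integrable_const _).sub (integrable_ps n n)
  have hint' : Integrable (fun g : Fin n → ℝ => max (x + b n - ps g n) 0) (Ga (Fin n)) :=
    hint.pos_part
  have h1 : Real.sqrt n * cg ≤ ∫ g : Fin n → ℝ, max (x + b n - ps g n) 0 ∂Ga (Fin n) := by
    rw [← neg_part]
    refine integral_mono ((integrable_ps n n).neg.pos_part) hint' fun g => ?_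
    simp only
    exact max_le_max (by linarith) le_rfl
  have hS := measurableSet_St n n x b
  have hH1 := hH n (fun g => max (x + b n - ps g n) 0) ((St n n x b).indicator 1)
    ((measurable_const.sub (measurable_ps n)).max measurable_const)
    (measurable_one.indicator hS)
    (fun g g' h => max_le_max (by have := ps_mono n h; linarith) le_rfl)
    (fun g g' h => by
      by_cases hg : g' ∈ St n n x b
      · have hg' : g ∈ St n n x b := fun j h1 h2 => (ps_mono j h).trans (hg j h1 h2)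
        rw [Set.indicator_of_mem hg, Set.indicator_of_mem hg']
        rfl
      · rw [Set.indicator_of_notMem hg]
        exact Set.indicator_nonneg (fun _ _ => zero_le_one) _)
    (fun g => le_max_right _ _)
    (fun g => Set.indicator_nonneg (fun _ _ => zero_le_one) _)
    (fun g => Set.indicator_le_self' (fun _ _ => zero_le_one) _) hint'
  have h2 : ∫ g, (St n n x b).indicator 1 g ∂Ga (Fin n) = (Ga (Fin n)).real (St n n x b) := by
    rw [integral_indicator_one hS]
  have h3 : ∫ g : Fin n → ℝ, max (x + b n - ps g n) 0 * (St n n x b).indicator 1 g ∂Ga (Fin n) =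
      ∫ g : Fin n → ℝ, Set.indicator (St n n x b) (fun g => x + b n - ps g n) g ∂Ga (Fin n) := by
    refine integral_congr_ae (Filter.Eventually.of_forall fun g => ?_)
    simp only
    by_cases hg : g ∈ St n n x b
    · have := hg n hn le_rfl
      rw [Set.indicator_of_mem hg, Set.indicator_of_mem hg, Pi.one_apply, mul_one,
        max_eq_left (by linarith)]
    · rw [Set.indicator_of_notMem hg, Set.indicator_of_notMem hg, mul_zero]
  rw [h2, h3] at hH1
  have h4 := hO n x b hx hb0 hb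
  have h5 : ∑ j ∈ Finset.range n, (b (j + 1) - b j) * (Ga (Fin n)).real (St n j x b) =
      ∑ j ∈ Finset.range n, (b (j + 1) - b j) * (Ga (Fin j)).real (St j j x b) := by
    refine Finset.sum_congr rfl fun j hj => ?_
    rw [real_St (Finset.mem_range.1 hj).le]
  rw [h5] at h4
  have h6 := mul_le_mul_of_nonneg_right h1 (measureReal_nonneg (μ := Ga (Fin n))
    (s := St n n x b))
  calc cg * Real.sqrt n * (Ga (Fin n)).real (St n n x b)
      = Real.sqrt n * cg * (Ga (Fin n)).real (St n n x b) := by ring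
    _ ≤ _ := h6.trans (hH1.trans h4)

theorem sum_inv_sqrt (n : ℕ) :
    ∑ j ∈ Finset.range (n + 1), (Real.sqrt j)⁻¹ ≤ 2 * Real.sqrt n := by
  induction n with
  | zero => simp
  | succ n ih =>
    rw [Finset.sum_range_succ]
    have h1 : 0 < Real.sqrt ((n + 1 : ℕ) : ℝ) := Real.sqrt_pos.2 (by positivity)
    have h2 := Real.sqrt_nonneg (n : ℝ)
    have h3 : Real.sqrt n ^ 2 = n := Real.sq_sqrt (by positivity)
    have h4 : Real.sqrt ((n + 1 : ℕ) : ℝ) ^ 2 = n + 1 := by
      rw [Real.sq_sqrt (by positivity)]; push_cast; ring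
    have h5 : (Real.sqrt ((n + 1 : ℕ) : ℝ))⁻¹ ≤
        2 * Real.sqrt ((n + 1 : ℕ) : ℝ) - 2 * Real.sqrt n := by
      rw [inv_le_iff_one_le_mul₀ h1]
      nlinarith [sq_nonneg (Real.sqrt ((n + 1 : ℕ) : ℝ) - Real.sqrt n)]
    linarith

theorem tail_step (j : ℕ) (hj : 1 ≤ j) : ((1 + (j : ℝ)) * Real.sqrt j)⁻¹ ≤
    2 * (Real.sqrt j)⁻¹ - 2 * (Real.sqrt ((j + 1 : ℕ) : ℝ))⁻¹ := by
  have hj' : (1 : ℝ) ≤ j := by exact_mod_cast hj
  obtain ⟨a, ha⟩ : ∃ a, a = Real.sqrt j := ⟨_, rfl⟩
  obtain ⟨c, hc⟩ : ∃ c, c = Real.sqrt ((j + 1 : ℕ) : ℝ) := ⟨_, rfl⟩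
  have h1 : 0 < a := by rw [ha]; exact Real.sqrt_pos.2 (by positivity)
  have h2 : 0 < c := by rw [hc]; exact Real.sqrt_pos.2 (by positivity)
  have h3 : a ^ 2 = j := by rw [ha]; exact Real.sq_sqrt (by positivity)
  have h4 : c ^ 2 = j + 1 := by
    rw [hc, Real.sq_sqrt (by positivity)]; push_cast; ring
  rw [← ha, ← hc]
  have h5 : 1 + (j : ℝ) = c ^ 2 := by rw [h4]; ring
  rw [h5]
  have h6 : 2 * a⁻¹ - 2 * c⁻¹ - (c ^ 2 * a)⁻¹ = (2 * c ^ 2 - 2 * a * c - 1) / (c ^ 2 * a) := by
    field_simp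
  have h7 : 0 ≤ 2 * c ^ 2 - 2 * a * c - 1 := by nlinarith [sq_nonneg (c - a)]
  have h8 : 0 ≤ 2 * a⁻¹ - 2 * c⁻¹ - (c ^ 2 * a)⁻¹ := by
    rw [h6]; positivity
  linarith

theorem sum_tail (J : ℕ) (hJ : 1 ≤ J) (n : ℕ) :
    ∑ j ∈ Finset.range n, (if j < J then 0 else ((1 + (j : ℝ)) * Real.sqrt j)⁻¹) ≤
      2 * (Real.sqrt J)⁻¹ - 2 * (Real.sqrt ((max n J : ℕ) : ℝ))⁻¹ := by
  induction n with
  | zero => simp
  | succ n ih =>
    rw [Finset.sum_range_succ]
    by_cases h : n < J
    · rw [if_pos h, add_zero]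
      have h1 : max (n + 1) J = max n J := by omega
      rw [h1]
      exact ih
    · rw [if_neg h]
      have h1 : max (n + 1) J = n + 1 := by omega
      have h2 : max n J = n := by omega
      rw [h2] at ih
      rw [h1]
      have h3 := tail_step n (by omega)
      linarith

theorem sum_tail' (J : ℕ) (hJ : 1 ≤ J) (n : ℕ) :
    ∑ j ∈ Finset.range n, (if j < J then 0 else ((1 + (j : ℝ)) * Real.sqrt j)⁻¹) ≤
      2 * (Real.sqrt J)⁻¹ := by
  have h := sum_tail J hJ n
  have h1 : 0 ≤ (Real.sqrt ((max n J : ℕ) : ℝ))⁻¹ := by positivity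
  linarith

theorem log_step (A : ℝ) (hA : 0 ≤ A) (j : ℕ) :
    A * Real.log (1 + ((j + 1 : ℕ) : ℝ)) - A * Real.log (1 + (j : ℝ)) ≤ A / (1 + j) := by
  have h1 : (0 : ℝ) < 1 + j := by positivity
  have h2 : (0 : ℝ) < 1 + ((j + 1 : ℕ) : ℝ) := by positivity
  rw [← mul_sub, ← Real.log_div h2.ne' h1.ne', div_eq_mul_inv A]
  refine mul_le_mul_of_nonneg_left ?_ hA
  have h3 := Real.log_le_sub_one_of_pos (div_pos h2 h1)
  refine h3.trans (le_of_eq ?_)
  push_cast
  field_simp
  ring

/-- the induction: small slope -/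
theorem small (hH : S_HAR) {C0 : ℝ} (hO : ∀ (n : ℕ) (x : ℝ) (b : ℕ → ℝ), 0 ≤ x → 0 ≤ b 0 →
    Monotone b →
    ∫ g : Fin n → ℝ, Set.indicator (St n n x b) (fun g => x + b n - ps g n) g ∂Ga (Fin n) ≤
      x + b 0 + C0 + ∑ j ∈ Finset.range n, (b (j + 1) - b j) * (Ga (Fin n)).real (St n j x b))
    (hC0 : 0 < C0) (A : ℝ) (hA : 0 ≤ A) : ∃ ε K : ℝ, 0 < ε ∧ ε ≤ 1 ∧ 0 < K ∧
    ∀ (x δ : ℝ), 0 ≤ x → 0 ≤ δ → ∀ n : ℕ, 1 ≤ n → δ * Real.sqrt n ≤ ε →
    (Ga (Fin n)).real (St n n x (fun j => δ * j + A * Real.log (1 + j))) ≤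
      K * (1 + x) * (Real.sqrt n)⁻¹ := by
  have hc := cg_pos
  obtain ⟨J, hJ1, hJ2⟩ : ∃ J : ℕ, 1 ≤ J ∧ 2 * A * (Real.sqrt J)⁻¹ ≤ cg / 4 := by
    obtain ⟨J, hJ⟩ := exists_nat_ge ((8 * A / cg) ^ 2 + 1)
    have hJ1 : (1 : ℝ) ≤ J := by nlinarith [sq_nonneg (8 * A / cg)]
    refine ⟨J, by exact_mod_cast hJ1, ?_⟩
    have h1 : 8 * A / cg ≤ Real.sqrt J := by
      apply Real.le_sqrt_of_sq_le
      linarith
    have h2 : 0 < Real.sqrt J := Real.sqrt_pos.2 (by linarith)
    rw [← div_eq_mul_inv, div_le_div_iff₀ h2 (by norm_num)]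
    rw [div_le_iff₀ hc] at h1
    nlinarith
  have hε : 0 < min 1 (cg / 8) := lt_min one_pos (by positivity)
  have hM : 0 < 2 + C0 + A * J := by positivity
  refine ⟨min 1 (cg / 8), 2 * (2 + C0 + A * J) / cg, hε, min_le_left _ _, by positivity, ?_⟩
  intro x δ hx hδ
  obtain ⟨K, hK⟩ : ∃ K, K = 2 * (2 + C0 + A * J) / cg := ⟨_, rfl⟩
  rw [← hK]
  have hK0 : 0 < K := by rw [hK]; positivity
  have hKc : cg * K = 2 * (2 + C0 + A * J) := by rw [hK]; field_simp
  obtain ⟨b, hb⟩ : ∃ b : ℕ → ℝ, b = fun j : ℕ => δ * (j : ℝ) + A * Real.log (1 + (j : ℝ)) :=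
    ⟨_, rfl⟩
  rw [← hb]
  have hb0 : b 0 = 0 := by simp [hb]
  have hbm : Monotone b := by
    rw [hb]
    intro i j hij
    have hij' : (i : ℝ) ≤ j := by exact_mod_cast hij
    have h1 : Real.log (1 + i) ≤ Real.log (1 + j) :=
      Real.log_le_log (by positivity) (by linarith)
    have h2 := mul_le_mul_of_nonneg_left hij' hδ
    have h3 := mul_le_mul_of_nonneg_left h1 hA
    simp only
    linarith
  have hbs : ∀ j : ℕ, b (j + 1) - b j ≤ δ + A / (1 + j) := by
    intro j
    have h := log_step A hA j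
    rw [hb]
    simp only
    push_cast at h ⊢
    linarith
  obtain ⟨p, hp⟩ : ∃ p : ℕ → ℝ, p = fun j => (Ga (Fin j)).real (St j j x b) := ⟨_, rfl⟩
  have hp0 : ∀ j, 0 ≤ p j := fun j => by rw [hp]; exact measureReal_nonneg
  have hp1 : ∀ j, p j ≤ 1 := fun j => by rw [hp]; exact measureReal_le_one
  intro n
  induction n using Nat.strong_induction_on with
  | _ n ih =>
    intro hn hdn
    have hsn : 0 < Real.sqrt n := Real.sqrt_pos.2 (by exact_mod_cast hn)
    have hsn1 : 1 ≤ Real.sqrt n := by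
      rw [← Real.sqrt_one]
      exact Real.sqrt_le_sqrt (by exact_mod_cast hn)
    have hB := basic hH hO n hn x b hx (le_of_eq hb0.symm) hbm
    rw [hb0] at hB
    have hpj : ∀ j, 1 ≤ j → j < n → p j ≤ K * (1 + x) * (Real.sqrt j)⁻¹ := by
      intro j h1 h2
      rw [hp]
      refine ih j h2 h1 (le_trans ?_ hdn)
      exact mul_le_mul_of_nonneg_left (Real.sqrt_le_sqrt (by exact_mod_cast h2.le)) hδ
    have hterm : ∀ j ∈ Finset.range n, (b (j + 1) - b j) * p j ≤
        (if j = 0 then δ else 0) + δ * (K * (1 + x)) * (Real.sqrt j)⁻¹ +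
          (if j < J then A else 0) + A * (K * (1 + x)) *
            (if j < J then 0 else ((1 + (j : ℝ)) * Real.sqrt j)⁻¹) := by
      intro j hj
      rw [Finset.mem_range] at hj
      have h1 : (b (j + 1) - b j) * p j ≤ (δ + A / (1 + j)) * p j :=
        mul_le_mul_of_nonneg_right (hbs j) (hp0 j)
      refine h1.trans ?_
      have hKx : 0 ≤ K * (1 + x) := by positivity
      rw [add_mul]
      rcases Nat.eq_zero_or_pos j with rfl | hj0
      · have h2 := hp1 0
        have h3 := hp0 0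
        rw [if_pos rfl, if_pos (by omega), if_pos (by omega)]
        simp only [CharP.cast_eq_zero, Real.sqrt_zero, inv_zero, mul_zero, add_zero, div_one]
        nlinarith
      · rw [if_neg (by omega)]
        have h2 := hpj j hj0 hj
        have h3 : δ * p j ≤ δ * (K * (1 + x)) * (Real.sqrt j)⁻¹ := by
          rw [mul_assoc]
          exact mul_le_mul_of_nonneg_left h2 hδ
        have hj1 : (0 : ℝ) < 1 + j := by positivity
        by_cases hjJ : j < J
        · rw [if_pos hjJ, if_pos hjJ]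
          have h4 : A / (1 + j) * p j ≤ A := by
            have h5 : A / (1 + j) ≤ A := by
              rw [div_le_iff₀ hj1]
              have : (0 : ℝ) ≤ j := by positivity
              nlinarith
            have h6 : 0 ≤ A / (1 + j) := by positivity
            nlinarith [hp1 j, hp0 j]
          linarith
        · rw [if_neg hjJ, if_neg hjJ]
          have h4 : A / (1 + j) * p j ≤ A * (K * (1 + x)) * ((1 + (j : ℝ)) * Real.sqrt j)⁻¹ := by
            have h6 : 0 ≤ A / (1 + j) := by positivity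
            refine (mul_le_mul_of_nonneg_left h2 h6).trans (le_of_eq ?_)
            rw [mul_inv, div_eq_mul_inv]
            ring
          linarith
    have hsum := Finset.sum_le_sum hterm
    simp only [Finset.sum_add_distrib, ← Finset.mul_sum] at hsum
    have hs1 : ∑ j ∈ Finset.range n, (if j = 0 then δ else 0) ≤ δ := by
      rw [Finset.sum_ite_eq' (Finset.range n) 0 (fun _ => δ)]
      split_ifs
      · exact le_rfl
      · exact hδ
    have hs2 : ∑ j ∈ Finset.range n, (Real.sqrt j)⁻¹ ≤ 2 * Real.sqrt n := by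
      refine le_trans ?_ (sum_inv_sqrt n)
      rw [Finset.sum_range_succ]
      have : 0 ≤ (Real.sqrt (n : ℝ))⁻¹ := by positivity
      linarith
    have hs3 : ∑ j ∈ Finset.range n, (if j < J then A else 0) ≤ A * J := by
      rw [← Finset.sum_filter, Finset.sum_const, nsmul_eq_mul, mul_comm]
      refine mul_le_mul_of_nonneg_left ?_ hA
      have : ((Finset.range n).filter (fun j => j < J)).card ≤ J := by
        refine (Finset.card_le_card (t := Finset.range J) ?_).trans (by simp)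
        intro j hj
        rw [Finset.mem_filter] at hj
        exact Finset.mem_range.2 hj.2
      exact_mod_cast this
    have hs4 := sum_tail' J hJ1 n
    have hKx : 0 ≤ K * (1 + x) := by positivity
    have hq : ∀ j, (Ga (Fin j)).real (St j j x b) = p j := fun j => by rw [hp]
    simp only [hq] at hB ⊢
    have hd1 : δ ≤ 1 := by
      have : δ ≤ δ * Real.sqrt n := by nlinarith
      exact this.trans (hdn.trans (min_le_left _ _))
    have hd2 : δ * Real.sqrt n ≤ cg / 8 := hdn.trans (min_le_right _ _)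
    have ht2 : δ * (K * (1 + x)) * ∑ j ∈ Finset.range n, (Real.sqrt j)⁻¹ ≤
        K * (1 + x) * (cg / 4) := by
      calc δ * (K * (1 + x)) * ∑ j ∈ Finset.range n, (Real.sqrt j)⁻¹
          ≤ δ * (K * (1 + x)) * (2 * Real.sqrt n) :=
            mul_le_mul_of_nonneg_left hs2 (by positivity)
        _ = K * (1 + x) * (2 * (δ * Real.sqrt n)) := by ring
        _ ≤ K * (1 + x) * (cg / 4) := mul_le_mul_of_nonneg_left (by linarith) hKx
    have ht4 : A * (K * (1 + x)) * ∑ j ∈ Finset.range n,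
        (if j < J then 0 else ((1 + (j : ℝ)) * Real.sqrt j)⁻¹) ≤ K * (1 + x) * (cg / 4) := by
      calc A * (K * (1 + x)) * ∑ j ∈ Finset.range n,
            (if j < J then 0 else ((1 + (j : ℝ)) * Real.sqrt j)⁻¹)
          ≤ A * (K * (1 + x)) * (2 * (Real.sqrt J)⁻¹) :=
            mul_le_mul_of_nonneg_left hs4 (by positivity)
        _ = K * (1 + x) * (2 * A * (Real.sqrt J)⁻¹) := by ring
        _ ≤ K * (1 + x) * (cg / 4) := mul_le_mul_of_nonneg_left hJ2 hKx
    have htot : cg * Real.sqrt n * p n ≤ (2 + C0 + A * J) * (1 + x) + K * (1 + x) * (cg / 2) := by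
      have hAJ : 0 ≤ A * J := by positivity
      nlinarith [mul_nonneg hAJ hx, mul_nonneg hC0.le hx]
    have hfin : cg * Real.sqrt n * p n ≤ cg * (K * (1 + x)) := by
      have : cg * (K * (1 + x)) = (2 + C0 + A * J) * (1 + x) + K * (1 + x) * (cg / 2) := by
        linear_combination (1 + x) / 2 * hKc
      rw [this]; exact htot
    rw [mul_assoc] at hfin
    have hfin' := le_of_mul_le_mul_left hfin hc
    rw [← div_eq_mul_inv, le_div_iff₀ hsn]
    linarith

end BL1

theorem BL1 (hH : S_HAR) (hO : S_OPT) : S_BL1 := by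
  obtain ⟨C0, hC0, hO⟩ := hO
  intro A hA
  obtain ⟨ε, K, hε, hε1, hK, hs⟩ := BL1.small hH hO hC0 A hA
  refine ⟨(1 + 2 * K) / ε, by positivity, ?_⟩
  intro n x δ hn hx hδ hdn
  have hn' : (1 : ℝ) ≤ n := by exact_mod_cast hn
  have hsn : 0 < Real.sqrt n := Real.sqrt_pos.2 (by linarith)
  have hsq : Real.sqrt n ^ 2 = n := Real.sq_sqrt (by linarith)
  by_cases hcase : ε ^ 2 * n < 1
  · have h1 : ε * Real.sqrt n ≤ 1 := by
      by_contra h
      rw [not_le] at h
      nlinarith
    refine measureReal_le_one.trans ?_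
    rw [le_div_iff₀ hsn, div_mul_eq_mul_div, le_div_iff₀ hε]
    nlinarith
  · rw [not_lt] at hcase
    obtain ⟨m, hm⟩ : ∃ m, m = ⌊ε ^ 2 * n⌋₊ := ⟨_, rfl⟩
    have hm1 : 1 ≤ m := by
      rw [hm]
      exact Nat.le_floor (by exact_mod_cast hcase)
    have hm2 : (m : ℝ) ≤ ε ^ 2 * n := by
      rw [hm]
      exact Nat.floor_le (by positivity)
    have hm3 : ε ^ 2 * n < m + 1 := by
      rw [hm]
      exact Nat.lt_floor_add_one _
    have hm1' : (1 : ℝ) ≤ m := by exact_mod_cast hm1
    have hmn : m ≤ n := by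
      have hε2 : ε ^ 2 ≤ 1 := pow_le_one₀ hε.le hε1
      have : (m : ℝ) ≤ n := by nlinarith
      exact_mod_cast this
    have hsm : Real.sqrt m ≤ ε * Real.sqrt n := by
      apply Real.sqrt_le_iff.2
      refine ⟨by positivity, ?_⟩
      rw [mul_pow, hsq]
      exact hm2
    have h1 := hs x δ hx hδ m hm1 (by
      calc δ * Real.sqrt m ≤ δ * (ε * Real.sqrt n) := mul_le_mul_of_nonneg_left hsm hδ
        _ = ε * (δ * Real.sqrt n) := by ring
        _ ≤ ε * 1 := mul_le_mul_of_nonneg_left hdn hε.le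
        _ = ε := mul_one _)
    have h2 : (Ga (Fin n)).real (St n n x (fun j => δ * j + A * Real.log (1 + j))) ≤
        (Ga (Fin m)).real (St m m x (fun j => δ * j + A * Real.log (1 + j))) := by
      rw [← W45.real_St hmn]
      refine measureReal_mono ?_ (measure_ne_top _ _)
      intro g hg j hj1 hj2
      exact hg j hj1 (hj2.trans hmn)
    refine h2.trans (h1.trans ?_)
    have hsm0 : 0 < Real.sqrt m := Real.sqrt_pos.2 (by linarith)
    have hsm2 : Real.sqrt m ^ 2 = m := Real.sq_sqrt (by linarith)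
    have h3 : ε * Real.sqrt n ≤ 2 * Real.sqrt m := by
      by_contra h
      rw [not_le] at h
      have : (2 * Real.sqrt m) ^ 2 < (ε * Real.sqrt n) ^ 2 :=
        pow_lt_pow_left₀ h (by positivity) (by norm_num)
      rw [mul_pow, mul_pow, hsq, hsm2] at this
      linarith
    rw [← div_eq_mul_inv, div_le_div_iff₀ hsm0 hsn, div_mul_eq_mul_div, div_mul_eq_mul_div,
      le_div_iff₀ hε]
    have h4 : K * (1 + x) * (ε * Real.sqrt n) ≤ K * (1 + x) * (2 * Real.sqrt m) :=
      mul_le_mul_of_nonneg_left h3 (by positivity)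
    nlinarith [mul_nonneg hx hsm0.le]

end PN
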