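import Pool.Agent.H33.PN.Tools

/-! Project PM part 2, module BLB: lower bound for the bridge below a line. -/

set_option autoImplicit false

namespace PN
open MeasureTheory Complex ProbabilityTheory PM

namespace BLBaux

/-- one end piece -/
def EP (m : ℕ) (x δ M D : ℝ) : Set (Fin m → ℝ) :=
  {g | (∀ j : ℕ, 1 ≤ j → j ≤ m → ps g j ≤ x + δ * j) ∧
    M * Real.sqrt m ≤ x + δ * m - ps g m ∧ x + δ * m - ps g m ≤ D * Real.sqrt m}

lemma meas_EP (m : ℕ) (x δ M D : ℝ) : MeasurableSet (EP m x δ M D) := by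
  have h1 : EP m x δ M D = (⋂ j : ℕ, ⋂ _ : 1 ≤ j, ⋂ _ : j ≤ m, {g | ps g j ≤ x + δ * j}) ∩
      ({g | M * Real.sqrt m ≤ x + δ * m - ps g m} ∩
        {g | x + δ * m - ps g m ≤ D * Real.sqrt m}) := by
    ext g
    simp only [EP, Set.mem_ofPred_eq, Set.mem_inter_iff, Set.mem_iInter]
  rw [h1]
  refine MeasurableSet.inter ?_ (MeasurableSet.inter ?_ ?_)
  · refine MeasurableSet.iInter fun j => MeasurableSet.iInter fun _ => MeasurableSet.iInter fun _ => ?_
    exact measurableSet_le (measurable_ps j) measurable_const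
  · exact measurableSet_le measurable_const (measurable_const.sub (measurable_ps m))
  · exact measurableSet_le (measurable_const.sub (measurable_ps m)) measurable_const

/-- the end pieces, with a slope -/
lemma end_piece (hBLO : S_BLO) (hCMS : S_CMS) (M : ℝ) (hM : 1 ≤ M) : ∃ c D : ℝ, ∃ n0 : ℕ,
    0 < c ∧ M ≤ D ∧ ∀ (m : ℕ) (x δ : ℝ), n0 ≤ m → 1 / M ≤ x → x ≤ M * Real.sqrt m →
    |δ| * Real.sqrt m ≤ M →
    ENNReal.ofReal (c * (1 + x) / Real.sqrt m) ≤ Ga (Fin m) (EP m x δ M D) := by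
  obtain ⟨c, D, n0, hc, hD, h⟩ := hBLO M hM
  refine ⟨c * Real.exp (-(M * (M + D)) - M ^ 2 / 2), D, n0, by positivity, hD, ?_⟩
  intro m x δ hm hx1 hx2 hδ
  have hx0 : 0 ≤ x := le_trans (by positivity) hx1
  have hs : 0 ≤ Real.sqrt m := Real.sqrt_nonneg _
  have hD0 : 0 ≤ D := by linarith
  set E' : Set (Fin m → ℝ) := St m m x (fun _ => 0) ∩
    {g | M * Real.sqrt m ≤ x - ps g m ∧ x - ps g m ≤ D * Real.sqrt m} with hE'
  have h1 := h m x hm hx1 hx2
  have h2 : ENNReal.ofReal (c * (1 + x) / Real.sqrt m) ≤ Ga (Fin m) E' := by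
    rw [← ENNReal.ofReal_toReal (measure_ne_top (Ga (Fin m)) E')]
    exact ENNReal.ofReal_le_ofReal h1
  have key : ∀ g : Fin m → ℝ, g ∈ E' ↔ (g + fun _ => δ) ∈ EP m x δ M D := by
    intro g
    have hps : ∀ j : ℕ, j ≤ m → ps (g + fun _ => δ) j = ps g j + δ * j := by
      intro j hj
      have := ps_add g (fun _ => δ) j
      rw [ps_const δ hj] at this
      rw [show (g + fun _ => δ) = fun i => g i + δ from rfl, this, mul_comm]
    simp only [hE', EP, St, Set.mem_inter_iff, Set.mem_ofPred_eq, add_zero]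
    constructor
    · rintro ⟨a1, a2, a3⟩
      refine ⟨fun j hj1 hj2 => ?_, ?_, ?_⟩
      · rw [hps j hj2]
        linarith [a1 j hj1 hj2]
      · rw [hps m le_rfl]
        linarith
      · rw [hps m le_rfl]
        linarith
    · rintro ⟨a1, a2, a3⟩
      rw [hps m le_rfl] at a2 a3
      refine ⟨fun j hj1 hj2 => ?_, ?_, ?_⟩
      · have := a1 j hj1 hj2
        rw [hps j hj2] at this
        linarith
      · linarith
      · linarith
  have hmE := meas_EP m x δ M D
  have h3 : Ga (Fin m) (EP m x δ M D) = ∫⁻ g, (EP m x δ M D).indicator (fun _ => 1) g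
      ∂Ga (Fin m) := by
    rw [lintegral_indicator_const hmE, one_mul]
  rw [h3, hCMS (Fin m) (fun _ => δ) ((EP m x δ M D).indicator (fun _ => 1))
    (measurable_const.indicator hmE)]
  calc ENNReal.ofReal (c * Real.exp (-(M * (M + D)) - M ^ 2 / 2) * (1 + x) / Real.sqrt m)
      = ENNReal.ofReal (Real.exp (-(M * (M + D)) - M ^ 2 / 2)) *
          ENNReal.ofReal (c * (1 + x) / Real.sqrt m) := by
        rw [← ENNReal.ofReal_mul (Real.exp_pos _).le]
        congr 1
        ring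
    _ ≤ ENNReal.ofReal (Real.exp (-(M * (M + D)) - M ^ 2 / 2)) * Ga (Fin m) E' := by gcongr
    _ ≤ ∫⁻ g in E', ENNReal.ofReal (Real.exp (-(M * (M + D)) - M ^ 2 / 2)) ∂Ga (Fin m) := by
        rw [setLIntegral_const]
    _ ≤ ∫⁻ g in E', (EP m x δ M D).indicator (fun _ => 1) (g + fun _ => δ) * ENNReal.ofReal
          (Real.exp (-(∑ k : Fin m, δ * g k) - (∑ _k : Fin m, δ ^ 2) / 2)) ∂Ga (Fin m) := by
        have hmE' : MeasurableSet E' := by
          have : E' = (fun g : Fin m → ℝ => g + fun _ => δ) ⁻¹' EP m x δ M D := by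
            ext g
            exact key g
          rw [this]
          exact (measurable_id.add_const _) hmE
        refine setLIntegral_mono' hmE' fun g hg => ?_
        rw [Set.indicator_of_mem ((key g).1 hg), one_mul]
        refine ENNReal.ofReal_le_ofReal (Real.exp_le_exp.2 ?_)
        obtain ⟨-, g2, g3⟩ := hg
        have e1 : ∑ k : Fin m, δ * g k = δ * ps g m := by
          rw [ps_total g le_rfl, Finset.mul_sum]
        have e2 : (∑ _k : Fin m, δ ^ 2) = m * δ ^ 2 := by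
          rw [Finset.sum_const, Finset.card_univ, Fintype.card_fin, nsmul_eq_mul]
        rw [e1, e2]
        have hss : Real.sqrt m * Real.sqrt m = m := Real.mul_self_sqrt (Nat.cast_nonneg m)
        have hps : |ps g m| ≤ (M + D) * Real.sqrt m := by
          rw [abs_le]
          constructor
          · nlinarith
          · have : 0 ≤ M * Real.sqrt m := by positivity
            nlinarith
        have h4 : δ * ps g m ≤ M * (M + D) := by
          calc δ * ps g m ≤ |δ * ps g m| := le_abs_self _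
            _ = |δ| * |ps g m| := abs_mul _ _
            _ ≤ |δ| * ((M + D) * Real.sqrt m) := by gcongr
            _ = (|δ| * Real.sqrt m) * (M + D) := by ring
            _ ≤ M * (M + D) := by gcongr
        have h5 : m * δ ^ 2 ≤ M ^ 2 := by
          calc m * δ ^ 2 = (|δ| * Real.sqrt m) ^ 2 := by
                rw [mul_pow, sq_abs, Real.sq_sqrt (Nat.cast_nonneg m)]
                ring
            _ ≤ M ^ 2 := by
                have : 0 ≤ |δ| * Real.sqrt m := by positivity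
                gcongr
        linarith
    _ ≤ _ := setLIntegral_le_lintegral _ _

/-- the middle piece -/
def MP (m : ℕ) (L : ℝ) : Set (Fin m → ℝ) :=
  {g | ∀ j : ℕ, j ≤ m → ps g j - (j : ℝ) / m * ps g m ≤ L}

lemma meas_MP (m : ℕ) (L : ℝ) : MeasurableSet (MP m L) := by
  have h1 : MP m L = ⋂ j : ℕ, ⋂ _ : j ≤ m, {g | ps g j - (j : ℝ) / m * ps g m ≤ L} := by
    ext g
    simp only [MP, Set.mem_ofPred_eq, Set.mem_iInter]
  rw [h1]
  refine MeasurableSet.iInter fun j => MeasurableSet.iInter fun _ => ?_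
  exact measurableSet_le ((measurable_ps j).sub ((measurable_ps m).const_mul _)) measurable_const

lemma middle (hBLO : S_BLO) : ∃ c D : ℝ, ∃ n0 : ℕ, 0 < c ∧ 1 ≤ D ∧ ∀ m : ℕ, n0 ≤ m → 1 ≤ m →
    ∀ L : ℝ, (1 + D) * Real.sqrt m ≤ L → ENNReal.ofReal c ≤ Ga (Fin m) (MP m L) := by
  obtain ⟨c, D, n0, hc, hD, h⟩ := hBLO 1 le_rfl
  refine ⟨c, D, n0, hc, hD, ?_⟩
  intro m hm hm1 L hL
  have hs1 : 1 ≤ Real.sqrt m := by
    rw [Real.one_le_sqrt]
    exact_mod_cast hm1
  have hs : 0 < Real.sqrt m := by linarith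
  have h1 := h m (Real.sqrt m) hm (by simpa using hs1) (by simp)
  have h2 : c ≤ c * (1 + Real.sqrt m) / Real.sqrt m := by
    rw [le_div_iff₀ hs]
    nlinarith
  have h3 := h2.trans h1
  rw [Measure.real] at h3
  have h4 := ENNReal.ofReal_le_ofReal h3
  rw [ENNReal.ofReal_toReal (measure_ne_top _ _)] at h4
  refine h4.trans (measure_mono ?_)
  rintro g ⟨g1, g2, g3⟩
  intro j hj
  have hjm : 0 ≤ (j : ℝ) / m := by positivity
  have hjm1 : (j : ℝ) / m ≤ 1 := by
    rw [div_le_one (by exact_mod_cast hm1)]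
    exact_mod_cast hj
  have e1 : ps g j ≤ Real.sqrt m := by
    rcases Nat.eq_zero_or_pos j with rfl | hj0
    · rw [ps_zero]
      exact hs.le
    · have := g1 j hj0 hj
      simpa using this
  have e2 : -(D * Real.sqrt m) ≤ (j : ℝ) / m * ps g m := by
    by_cases h0 : 0 ≤ ps g m
    · have : 0 ≤ (j : ℝ) / m * ps g m := by positivity
      have : 0 ≤ D * Real.sqrt m := by positivity
      linarith
    · have h5 : ps g m ≤ (j : ℝ) / m * ps g m := by
        nlinarith
      linarith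
  linarith

/-- three blocks, the last one reversed with a change of sign -/
def Psi (m N : ℕ) (p : (Fin m → ℝ) × ((Fin N → ℝ) × (Fin m → ℝ))) : Fin (m + (N + m)) → ℝ :=
  Fin.append p.1 (Fin.append p.2.1 (fun i => -p.2.2 (Fin.rev i)))

lemma mp_Psi (m N : ℕ) : MeasurePreserving (Psi m N)
    ((Ga (Fin m)).prod ((Ga (Fin N)).prod (Ga (Fin m)))) (Ga (Fin (m + (N + m)))) := by
  have h1 := (MeasurePreserving.id (Ga (Fin N))).prod (mp_negrev m)
  have h2 := (MeasurePreserving.id (Ga (Fin m))).prod ((mp_append N m).comp h1)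
  exact (mp_append m (N + m)).comp h2

/-- indices of the middle block -/
def JJ (m N : ℕ) : Finset (Fin (m + (N + m))) :=
  Finset.univ.filter (fun i => m ≤ (i : ℕ) ∧ (i : ℕ) < m + N)

lemma sum_JJ (m N : ℕ) (g1 g3 : Fin m → ℝ) (g2 : Fin N → ℝ) :
    ∑ j ∈ JJ m N, Fin.append g1 (Fin.append g2 g3) j = ∑ i, g2 i := by
  unfold JJ
  rw [Finset.sum_filter, Fin.sum_univ_add, Fin.sum_univ_add]
  have e1 : ∑ i : Fin m, (if m ≤ ((Fin.castAdd (N + m) i : Fin _) : ℕ) ∧
      ((Fin.castAdd (N + m) i : Fin _) : ℕ) < m + N then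
      Fin.append g1 (Fin.append g2 g3) (Fin.castAdd (N + m) i) else 0) = 0 := by
    refine Finset.sum_eq_zero fun i _ => ?_
    rw [if_neg]
    rw [Fin.val_castAdd]
    have := i.2
    omega
  have e3 : ∑ i : Fin m, (if m ≤ ((Fin.natAdd m (Fin.natAdd N i) : Fin _) : ℕ) ∧
      ((Fin.natAdd m (Fin.natAdd N i) : Fin _) : ℕ) < m + N then
      Fin.append g1 (Fin.append g2 g3) (Fin.natAdd m (Fin.natAdd N i)) else 0) = 0 := by
    refine Finset.sum_eq_zero fun i _ => ?_
    rw [if_neg]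
    rw [Fin.val_natAdd, Fin.val_natAdd]
    omega
  rw [e1, e3, zero_add, add_zero]
  refine Finset.sum_congr rfl fun i _ => ?_
  rw [if_pos, Fin.append_right, Fin.append_left]
  rw [Fin.val_natAdd, Fin.val_castAdd]
  have := i.2
  omega

lemma sum_all (m N : ℕ) (g1 g3 : Fin m → ℝ) (g2 : Fin N → ℝ) :
    ∑ j, Fin.append g1 (Fin.append g2 g3) j = ∑ i, g1 i + (∑ i, g2 i + ∑ i, g3 i) := by
  rw [Fin.sum_univ_add, Fin.sum_univ_add]
  simp only [Fin.append_left, Fin.append_right]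

lemma card_JJ (m N : ℕ) : (JJ m N).card = N := by
  have h := sum_JJ m N (fun _ => 0) (fun _ => 0) (fun _ => 1)
  have h2 : ∑ j ∈ JJ m N, Fin.append (fun _ : Fin m => (0 : ℝ)) (Fin.append (fun _ : Fin N => 1)
      (fun _ : Fin m => 0)) j = ∑ j ∈ JJ m N, 1 := by
    refine Finset.sum_congr rfl fun j hj => ?_
    unfold JJ at hj
    rw [Finset.mem_filter] at hj
    obtain ⟨-, h1, h2⟩ := hj
    revert h1 h2
    refine Fin.addCases (fun i => ?_) (fun i => ?_) j
    · intro h1 _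
      rw [Fin.val_castAdd] at h1
      have := i.2
      omega
    · refine Fin.addCases (fun k => ?_) (fun k => ?_) i
      · intro _ _
        rw [Fin.append_right, Fin.append_left]
      · intro _ h2
        rw [Fin.val_natAdd, Fin.val_natAdd] at h2
        omega
  rw [h2] at h
  simp only [Finset.sum_const, nsmul_eq_mul, mul_one, Finset.card_univ, Fintype.card_fin] at h
  exact_mod_cast h

lemma yform (m N : ℕ) (g1 g3 : Fin m → ℝ) (g2 : Fin N → ℝ) (A B : ℝ) :
    (fun i => if i ∈ JJ m N then Fin.append g1 (Fin.append g2 g3) i - A - B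
      else Fin.append g1 (Fin.append g2 g3) i) =
    Fin.append g1 (Fin.append (fun i => g2 i - (A + B)) g3) := by
  funext j
  refine Fin.addCases (fun i => ?_) (fun i => ?_) j
  · rw [if_neg, Fin.append_left, Fin.append_left]
    unfold JJ
    rw [Finset.mem_filter, Fin.val_castAdd]
    have := i.2
    omega
  · refine Fin.addCases (fun k => ?_) (fun k => ?_) i
    · rw [if_pos, Fin.append_right, Fin.append_left, Fin.append_right, Fin.append_left]
      · ring
      · unfold JJ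
        rw [Finset.mem_filter, Fin.val_natAdd, Fin.val_castAdd]
        have := k.2
        refine ⟨Finset.mem_univ _, ?_, ?_⟩ <;> omega
    · rw [if_neg, Fin.append_right, Fin.append_right, Fin.append_right, Fin.append_right]
      unfold JJ
      rw [Finset.mem_filter, Fin.val_natAdd, Fin.val_natAdd]
      omega

lemma det (m N : ℕ) (hm : 1 ≤ m) (hN : 1 ≤ N) (x a M D δ L : ℝ)
    (hδ : δ = (a - x) / ((m + (N + m) : ℕ) : ℝ)) (g1 : Fin m → ℝ) (h3 : Fin m → ℝ)
    (g2 : Fin N → ℝ) (e1 : g1 ∈ EP m x δ M D) (e3 : h3 ∈ EP m a (-δ) M D) (e2 : g2 ∈ MP N L)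
    (hL : L ≤ M * Real.sqrt m) (j : ℕ) (hj1 : 1 ≤ j) (hj2 : j < m + (N + m)) :
    ps (Fin.append g1 (Fin.append (fun i => g2 i - ((∑ i, g2 i) / N +
      (∑ i, g1 i + ∑ i, (fun i => -h3 (Fin.rev i)) i) / N)) (fun i => -h3 (Fin.rev i)))) j ≤
      x * (1 - (j : ℝ) / ((m + (N + m) : ℕ) : ℝ)) + a * ((j : ℝ) / ((m + (N + m) : ℕ) : ℝ)) := by
  obtain ⟨a1, a2, -⟩ := e1
  obtain ⟨b1, b2, -⟩ := e3
  have hn : (0 : ℝ) < ((m + (N + m) : ℕ) : ℝ) := by positivity
  have hN0 : (0 : ℝ) < N := by exact_mod_cast hN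
  have hline : x * (1 - (j : ℝ) / ((m + (N + m) : ℕ) : ℝ)) +
      a * ((j : ℝ) / ((m + (N + m) : ℕ) : ℝ)) = x + δ * j := by
    rw [hδ]
    field_simp
    ring
  rw [hline]
  have hδn : δ * ((m : ℝ) + (N + m)) = a - x := by
    rw [hδ]
    push_cast at hn ⊢
    field_simp
  have t3 : ∑ i, (fun i => -h3 (Fin.rev i)) i = -ps h3 m := by
    rw [← ps_total (fun i => -h3 (Fin.rev i)) le_rfl, ps_rev h3 le_rfl, Nat.sub_self, ps_zero,
      sub_zero]
  have t1 : ∑ i, g1 i = ps g1 m := (ps_total g1 le_rfl).symm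
  have t2 : ∑ i, g2 i = ps g2 N := (ps_total g2 le_rfl).symm
  rw [t3, t1, t2, ps_append, ps_append]
  by_cases h1 : j ≤ m
  · rw [Nat.sub_eq_zero_of_le h1, ps_zero, Nat.zero_sub, ps_zero, add_zero, add_zero]
    exact a1 j hj1 h1
  · have h1' : m ≤ j := by omega
    have p1 : ps g1 j = ps g1 m := by rw [ps_total g1 h1', ps_total g1 le_rfl]
    rw [p1]
    by_cases h2 : j - m ≤ N
    · obtain ⟨k, rfl⟩ : ∃ k, j = m + k := ⟨j - m, by omega⟩
      rw [Nat.add_sub_cancel_left] at h2 ⊢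
      rw [Nat.sub_eq_zero_of_le h2, ps_zero, add_zero, ps_sub, ps_const _ h2]
      have b := e2 k h2
      have hk0 : (0 : ℝ) ≤ (k : ℝ) / N := by positivity
      have hk1 : (k : ℝ) / N ≤ 1 := by
        rw [div_le_one hN0]
        exact_mod_cast h2
      set θ : ℝ := (k : ℝ) / N with hθ
      have hkθ : (k : ℝ) = θ * N := by
        rw [hθ]
        field_simp
      have e : (k : ℝ) * (ps g2 N / N + (ps g1 m + -ps h3 m) / N) =
          θ * ps g2 N + θ * (ps g1 m - ps h3 m) := by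
        rw [hθ]
        field_simp
        ring
      rw [e]
      push_cast
      rw [hkθ]
      have c1 : ps g1 m ≤ x + δ * m - M * Real.sqrt m := by linarith
      have c2 : ps h3 m ≤ a + -δ * m - M * Real.sqrt m := by linarith
      have c3 : (1 - θ) * ps g1 m ≤ (1 - θ) * (x + δ * m - M * Real.sqrt m) :=
        mul_le_mul_of_nonneg_left c1 (by linarith)
      have c4 : θ * ps h3 m ≤ θ * (a + -δ * m - M * Real.sqrt m) :=
        mul_le_mul_of_nonneg_left c2 hk0
      have c5 : (1 - θ) * (x + δ * m - M * Real.sqrt m) + θ * (a + -δ * m - M * Real.sqrt m) +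
          M * Real.sqrt m = x + δ * (m + θ * N) := by
        linear_combination (-θ) * hδn
      nlinarith
    · obtain ⟨k, rfl⟩ : ∃ k, j = m + (N + k) := ⟨j - m - N, by omega⟩
      have hk : k ≤ m := by omega
      have hk1 : k < m := by omega
      rw [Nat.add_sub_cancel_left, Nat.add_sub_cancel_left]
      have p2 : ps (fun i => g2 i - (ps g2 N / N + (ps g1 m + -ps h3 m) / N)) (N + k) =
          ps g2 N - N * (ps g2 N / N + (ps g1 m + -ps h3 m) / N) := by
        rw [ps_total _ (by omega : N ≤ N + k), ← ps_total _ le_rfl, ps_sub, ps_const _ le_rfl]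
      rw [p2, ps_rev h3 hk]
      have b := b1 (m - k) (by omega) (by omega)
      rw [Nat.cast_sub hk] at b
      have e : (N : ℝ) * (ps g2 N / N + (ps g1 m + -ps h3 m) / N) =
          ps g2 N + (ps g1 m - ps h3 m) := by
        field_simp
        ring
      rw [e]
      push_cast
      linear_combination b - hδn

end BLBaux

open BLBaux in
/-- lower bound for the bridge below a line -/
theorem BLB (hBLO : S_BLO) (hRAT : S_RAT) (hCMS : S_CMS) : S_BLB := by
  intro M hM
  obtain ⟨c1, D1, n1, hc1, hD1, hmid⟩ := middle hBLO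
  -- parameters of the end pieces
  set M' : ℝ := 2 * (M + (1 + D1)) with hM'
  have hM'1 : 1 ≤ M' := by rw [hM']; linarith
  have hM'0 : 0 < M' := by linarith
  obtain ⟨c2, D2, n2, hc2, hD2, hend⟩ := end_piece hBLO hCMS M' hM'1
  have hD20 : 0 < D2 := by linarith
  set ρ : ℝ := Real.exp (-(6 * (M + M' + D2) ^ 2)) with hρ
  have hρ0 : 0 < ρ := Real.exp_pos _
  refine ⟨c1 * c2 ^ 2 * ρ, 4 * (n1 + n2 + 3), by positivity, by omega, ?_⟩
  intro n x a hn hx1 hx2 ha1 ha2
  obtain ⟨m, N, rfl, hm4, hN3, hNn1⟩ : ∃ m N : ℕ, n = m + (N + m) ∧ n ≤ 4 * m ∧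
      n ≤ 3 * N ∧ n1 ≤ N := ⟨n / 3, n - 2 * (n / 3), by omega, by omega, by omega, by omega⟩
  have hmn2 : n2 ≤ m := by omega
  have hm1 : 1 ≤ m := by omega
  have hN1 : 1 ≤ N := by omega
  obtain ⟨n, hnn⟩ : ∃ n : ℕ, n = m + (N + m) := ⟨_, rfl⟩
  rw [← hnn] at hm4 hN3 hx2 ha2 hn
  have hn1 : 1 ≤ n := by omega
  have hn0 : (0 : ℝ) < n := by exact_mod_cast hn1
  have hm0 : (0 : ℝ) < m := by exact_mod_cast hm1
  have hN0 : (0 : ℝ) < N := by exact_mod_cast hN1
  have hmn : (m : ℝ) ≤ n := by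
    rw [hnn]
    push_cast
    linarith
  have hNn : (N : ℝ) ≤ n := by
    rw [hnn]
    push_cast
    linarith
  have hsn : 0 < Real.sqrt n := Real.sqrt_pos.2 hn0
  have hsm : 0 < Real.sqrt m := Real.sqrt_pos.2 hm0
  have hsmn : Real.sqrt m ≤ Real.sqrt n := Real.sqrt_le_sqrt hmn
  have hsNn : Real.sqrt N ≤ Real.sqrt n := Real.sqrt_le_sqrt hNn
  have hsn2 : Real.sqrt n ≤ 2 * Real.sqrt m := by
    rw [show (2 : ℝ) * Real.sqrt m = Real.sqrt (4 * m) by
      rw [Real.sqrt_mul (by norm_num), show (4 : ℝ) = 2 ^ 2 by norm_num,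
        Real.sqrt_sq (by norm_num)]]
    apply Real.sqrt_le_sqrt
    exact_mod_cast hm4
  have hx0 : 0 < x := lt_of_lt_of_le (by positivity) hx1
  have ha0 : 0 < a := lt_of_lt_of_le (by positivity) ha1
  have hMM' : M ≤ M' := by rw [hM']; linarith
  have hinv : 1 / M' ≤ 1 / M := one_div_le_one_div_of_le (by linarith) hMM'
  have hxs : x ≤ M' * Real.sqrt m := by
    calc x ≤ M * Real.sqrt n := hx2
      _ ≤ M * (2 * Real.sqrt m) := by gcongr
      _ = (2 * M) * Real.sqrt m := by ring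
      _ ≤ M' * Real.sqrt m := by
        apply mul_le_mul_of_nonneg_right _ hsm.le
        rw [hM']; linarith
  have has : a ≤ M' * Real.sqrt m := by
    calc a ≤ M * Real.sqrt n := ha2
      _ ≤ M * (2 * Real.sqrt m) := by gcongr
      _ = (2 * M) * Real.sqrt m := by ring
      _ ≤ M' * Real.sqrt m := by
        apply mul_le_mul_of_nonneg_right _ hsm.le
        rw [hM']; linarith
  subst hnn
  set δ : ℝ := (a - x) / ((m + (N + m) : ℕ) : ℝ) with hδ
  have hax : |a - x| ≤ M * Real.sqrt ((m + (N + m) : ℕ) : ℝ) := by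
    rw [abs_le]
    constructor <;> linarith
  have hδs : |δ| * Real.sqrt ((m + (N + m) : ℕ) : ℝ) ≤ M := by
    rw [hδ, abs_div, abs_of_pos hn0, div_mul_eq_mul_div, div_le_iff₀ hn0]
    calc |a - x| * Real.sqrt ((m + (N + m) : ℕ) : ℝ) ≤ M * Real.sqrt ((m + (N + m) : ℕ) : ℝ) * Real.sqrt ((m + (N + m) : ℕ) : ℝ) := by gcongr
      _ = M * ((m + (N + m) : ℕ) : ℝ) := by rw [mul_assoc, Real.mul_self_sqrt hn0.le]
  have hδm : |δ| * Real.sqrt m ≤ M' :=
    (mul_le_mul_of_nonneg_left hsmn (abs_nonneg _)).trans (hδs.trans hMM')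
  have P1 := hend m x δ hmn2 (hinv.trans hx1) hxs hδm
  have P3 := hend m a (-δ) hmn2 (hinv.trans ha1) has (by rwa [abs_neg])
  have P2 := hmid N hNn1 hN1 ((1 + D1) * Real.sqrt ((m + (N + m) : ℕ) : ℝ)) (by gcongr)
  have hL : (1 + D1) * Real.sqrt ((m + (N + m) : ℕ) : ℝ) ≤ M' * Real.sqrt m := by
    calc (1 + D1) * Real.sqrt ((m + (N + m) : ℕ) : ℝ) ≤ (1 + D1) * (2 * Real.sqrt m) := by gcongr
      _ = (2 * (1 + D1)) * Real.sqrt m := by ring
      _ ≤ M' * Real.sqrt m := by
        apply mul_le_mul_of_nonneg_right _ hsm.le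
        rw [hM']; linarith
  -- the events
  set B : Set (Fin (m + (N + m)) → ℝ) := {y | ∀ j : ℕ, 1 ≤ j → j < m + (N + m) →
    ps y j ≤ x * (1 - (j : ℝ) / ((m + (N + m) : ℕ) : ℝ)) + a * ((j : ℝ) / ((m + (N + m) : ℕ) : ℝ))} with hB
  have hBm : MeasurableSet B := by
    have : B = ⋂ j : ℕ, ⋂ _ : 1 ≤ j, ⋂ _ : j < m + (N + m),
        {y | ps y j ≤ x * (1 - (j : ℝ) / ((m + (N + m) : ℕ) : ℝ)) + a * ((j : ℝ) / ((m + (N + m) : ℕ) : ℝ))} := by
      ext g
      simp only [hB, Set.mem_ofPred_eq, Set.mem_iInter]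
    rw [this]
    refine MeasurableSet.iInter fun j => MeasurableSet.iInter fun _ => MeasurableSet.iInter
      fun _ => measurableSet_le (measurable_ps j) measurable_const
  set S : Set ((Fin m → ℝ) × ((Fin N → ℝ) × (Fin m → ℝ))) :=
    EP m x δ M' D2 ×ˢ (MP N ((1 + D1) * Real.sqrt ((m + (N + m) : ℕ) : ℝ)) ×ˢ EP m a (-δ) M' D2) with hS
  have hSm : MeasurableSet S := (meas_EP _ _ _ _ _).prod ((meas_MP _ _).prod (meas_EP _ _ _ _ _))
  have hSP : ENNReal.ofReal (c2 * (1 + x) / Real.sqrt m) * (ENNReal.ofReal c1 *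
      ENNReal.ofReal (c2 * (1 + a) / Real.sqrt m)) ≤
      ((Ga (Fin m)).prod ((Ga (Fin N)).prod (Ga (Fin m)))) S := by
    rw [hS, Measure.prod_prod, Measure.prod_prod]
    gcongr
  have hLHS : Ga (Fin (m + (N + m))) {g | ∀ j : ℕ, 1 ≤ j → j < m + (N + m) →
      ps g j - (j : ℝ) / ((m + (N + m) : ℕ) : ℝ) * ps g (m + (N + m)) ≤ x * (1 - (j : ℝ) / ((m + (N + m) : ℕ) : ℝ)) + a * ((j : ℝ) / ((m + (N + m) : ℕ) : ℝ))} =
      ∫⁻ g, B.indicator (fun _ => 1) (fun i => g i - ps g (m + (N + m)) / ((m + (N + m) : ℕ) : ℝ)) ∂Ga (Fin (m + (N + m))) := by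
    have hpre : {g : Fin (m + (N + m)) → ℝ | ∀ j : ℕ, 1 ≤ j → j < m + (N + m) →
        ps g j - (j : ℝ) / ((m + (N + m) : ℕ) : ℝ) * ps g (m + (N + m)) ≤ x * (1 - (j : ℝ) / ((m + (N + m) : ℕ) : ℝ)) + a * ((j : ℝ) / ((m + (N + m) : ℕ) : ℝ))} =
        (fun (g : Fin (m + (N + m)) → ℝ) i => g i - ps g (m + (N + m)) / ((m + (N + m) : ℕ) : ℝ)) ⁻¹' B := by
      ext g
      simp only [hB, Set.mem_ofPred_eq, Set.mem_preimage]
      refine forall_congr' fun j => forall_congr' fun _ => forall_congr' fun hj => ?_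
      rw [ps_sub, ps_const _ (by omega)]
      rw [show (j : ℝ) * (ps g (m + (N + m)) / ((m + (N + m) : ℕ) : ℝ)) = (j : ℝ) / ((m + (N + m) : ℕ) : ℝ) * ps g (m + (N + m)) by ring]
    have hmeas : Measurable (fun (g : Fin (m + (N + m)) → ℝ) i => g i - ps g (m + (N + m)) / ((m + (N + m) : ℕ) : ℝ)) :=
      measurable_pi_lambda _ fun i => (measurable_pi_apply i).sub ((measurable_ps _).div_const _)
    rw [hpre, ← lintegral_indicator_one (hmeas hBm)]
    rfl
  have hJne : (JJ m N).Nonempty := by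
    rw [← Finset.card_pos, card_JJ]
    omega
  have hR := hRAT (m + (N + m)) (JJ m N) (B.indicator (fun _ => 1)) hJne
    (measurable_const.indicator hBm)
  rw [card_JJ] at hR
  have hfin : ENNReal.ofReal (c1 * c2 ^ 2 * ρ * (1 + x) * (1 + a) / ((m + (N + m) : ℕ) : ℝ)) ≤
      Ga (Fin (m + (N + m))) {g | ∀ j : ℕ, 1 ≤ j → j < m + (N + m) →
      ps g j - (j : ℝ) / ((m + (N + m) : ℕ) : ℝ) * ps g (m + (N + m)) ≤
        x * (1 - (j : ℝ) / ((m + (N + m) : ℕ) : ℝ)) + a * ((j : ℝ) / ((m + (N + m) : ℕ) : ℝ))} := by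
    rw [hLHS, hR]
    have hFm : Measurable (fun g : Fin (m + (N + m)) → ℝ => B.indicator (fun _ => (1 : ENNReal))
        (fun i => if i ∈ JJ m N then g i - (∑ j ∈ JJ m N, g j) / (N : ℝ) -
          (∑ j ∈ (JJ m N)ᶜ, g j) / (N : ℝ) else g i) *
        ENNReal.ofReal (Real.sqrt (((m + (N + m) : ℕ) : ℝ) / N) *
          Real.exp (-(∑ j ∈ (JJ m N)ᶜ, g j) ^ 2 / (2 * N)))) := by
      refine Measurable.mul ((measurable_const.indicator hBm).comp
        (measurable_pi_lambda _ fun i => ?_)) ?_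
      · split_ifs
        · fun_prop
        · fun_prop
      · fun_prop
    rw [← (mp_Psi m N).map_eq, lintegral_map hFm (mp_Psi m N).measurable]
    have hval : ∀ p ∈ S, ENNReal.ofReal ρ ≤ B.indicator (fun _ => (1 : ENNReal))
        (fun i => if i ∈ JJ m N then Psi m N p i - (∑ j ∈ JJ m N, Psi m N p j) / (N : ℝ) -
          (∑ j ∈ (JJ m N)ᶜ, Psi m N p j) / (N : ℝ) else Psi m N p i) *
        ENNReal.ofReal (Real.sqrt (((m + (N + m) : ℕ) : ℝ) / N) *
          Real.exp (-(∑ j ∈ (JJ m N)ᶜ, Psi m N p j) ^ 2 / (2 * N))) := by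
      rintro ⟨g1, g2, h3⟩ ⟨e1, e2, e3⟩
      have hsJ : ∑ j ∈ JJ m N, Psi m N (g1, g2, h3) j = ∑ i, g2 i := sum_JJ m N g1 _ g2
      have hsall : ∑ j, Psi m N (g1, g2, h3) j = ∑ i, g1 i + (∑ i, g2 i +
        ∑ i, (fun i => -h3 (Fin.rev i)) i) := sum_all m N g1 _ g2
      have hsC : ∑ j ∈ (JJ m N)ᶜ, Psi m N (g1, g2, h3) j = ∑ i, g1 i +
          ∑ i, (fun i => -h3 (Fin.rev i)) i := by
        have := Finset.sum_compl_add_sum (JJ m N) (fun j => Psi m N (g1, g2, h3) j)
        rw [hsJ, hsall] at this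
        linarith
      rw [hsJ, hsC]
      have hy : (fun i => if i ∈ JJ m N then Psi m N (g1, g2, h3) i - (∑ i, g2 i) / (N : ℝ) -
          (∑ i, g1 i + ∑ i, (fun i => -h3 (Fin.rev i)) i) / (N : ℝ)
          else Psi m N (g1, g2, h3) i) = Fin.append g1 (Fin.append (fun i => g2 i -
            ((∑ i, g2 i) / N + (∑ i, g1 i + ∑ i, (fun i => -h3 (Fin.rev i)) i) / N))
            (fun i => -h3 (Fin.rev i))) := yform m N g1 _ g2 _ _
      rw [hy, Set.indicator_of_mem, one_mul]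
      · refine ENNReal.ofReal_le_ofReal ?_
        obtain ⟨-, u2, u3⟩ := e1
        obtain ⟨-, v2, v3⟩ := e3
        have t3 : ∑ i, (fun i => -h3 (Fin.rev i)) i = -ps h3 m := by
          rw [← ps_total (fun i => -h3 (Fin.rev i)) le_rfl, ps_rev h3 le_rfl, Nat.sub_self,
            ps_zero, sub_zero]
        have t1 : ∑ i, g1 i = ps g1 m := (ps_total g1 le_rfl).symm
        rw [t3, t1]
        set s : ℝ := Real.sqrt ((m + (N + m) : ℕ) : ℝ) with hs
        have hss : s * s = ((m + (N + m) : ℕ) : ℝ) := Real.mul_self_sqrt (Nat.cast_nonneg _)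
        have hmm : Real.sqrt m * Real.sqrt m = m := Real.mul_self_sqrt (Nat.cast_nonneg m)
        have hδmm : |δ * m| ≤ M' * s := by
          calc |δ * m| = (|δ| * Real.sqrt m) * Real.sqrt m := by
                rw [abs_mul, abs_of_pos hm0, mul_assoc, hmm]
            _ ≤ M' * s := by gcongr
        rw [abs_le] at hδmm
        have hD2s : D2 * Real.sqrt m ≤ D2 * s := by gcongr
        have hD2s0 : 0 ≤ D2 * s := by positivity
        have hM's0 : 0 ≤ M' * Real.sqrt m := by positivity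
        have hMs0 : 0 ≤ M * s := by positivity
        have q1 : |ps g1 m| ≤ (M + M' + D2) * s := by
          rw [abs_le]
          constructor <;> nlinarith
        have q3 : |ps h3 m| ≤ (M + M' + D2) * s := by
          rw [abs_le]
          constructor <;> nlinarith
        have q : (ps g1 m + -ps h3 m) ^ 2 ≤ 12 * (M + M' + D2) ^ 2 * N := by
          have q4 : |ps g1 m + -ps h3 m| ≤ 2 * ((M + M' + D2) * s) := by
            calc |ps g1 m + -ps h3 m| ≤ |ps g1 m| + |-ps h3 m| := abs_add_le _ _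
              _ = |ps g1 m| + |ps h3 m| := by rw [abs_neg]
              _ ≤ 2 * ((M + M' + D2) * s) := by linarith
          calc (ps g1 m + -ps h3 m) ^ 2 = |ps g1 m + -ps h3 m| ^ 2 := (sq_abs _).symm
            _ ≤ (2 * ((M + M' + D2) * s)) ^ 2 := by gcongr
            _ = 4 * (M + M' + D2) ^ 2 * (s * s) := by ring
            _ = 4 * (M + M' + D2) ^ 2 * ((m + (N + m) : ℕ) : ℝ) := by rw [hss]
            _ ≤ 4 * (M + M' + D2) ^ 2 * (3 * N) := by
                have : ((m + (N + m) : ℕ) : ℝ) ≤ 3 * N := by exact_mod_cast hN3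
                gcongr
            _ = 12 * (M + M' + D2) ^ 2 * N := by ring
        have r1 : 1 ≤ Real.sqrt (((m + (N + m) : ℕ) : ℝ) / N) := by
          rw [Real.one_le_sqrt, one_le_div hN0]
          exact hNn
        have r2 : ρ ≤ Real.exp (-(ps g1 m + -ps h3 m) ^ 2 / (2 * N)) := by
          rw [hρ]
          refine Real.exp_le_exp.2 ?_
          rw [neg_div, neg_le_neg_iff, div_le_iff₀ (by positivity)]
          linarith
        calc ρ ≤ Real.exp (-(ps g1 m + -ps h3 m) ^ 2 / (2 * N)) := r2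
          _ = 1 * Real.exp (-(ps g1 m + -ps h3 m) ^ 2 / (2 * N)) := (one_mul _).symm
          _ ≤ _ := by gcongr
      · intro j hj1 hj2
        exact det m N hm1 hN1 x a M' D2 δ _ hδ g1 h3 g2 e1 e3 e2 hL j hj1 hj2
    calc ENNReal.ofReal (c1 * c2 ^ 2 * ρ * (1 + x) * (1 + a) / ((m + (N + m) : ℕ) : ℝ))
        ≤ ENNReal.ofReal ρ * (ENNReal.ofReal (c2 * (1 + x) / Real.sqrt m) * (ENNReal.ofReal c1 *
            ENNReal.ofReal (c2 * (1 + a) / Real.sqrt m))) := by
          rw [← ENNReal.ofReal_mul hc1.le, ← ENNReal.ofReal_mul (by positivity),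
            ← ENNReal.ofReal_mul hρ0.le]
          refine ENNReal.ofReal_le_ofReal ?_
          have e : ρ * (c2 * (1 + x) / Real.sqrt m * (c1 * (c2 * (1 + a) / Real.sqrt m))) =
              c1 * c2 ^ 2 * ρ * (1 + x) * (1 + a) / (m : ℝ) := by
            have hss : Real.sqrt m * Real.sqrt m = m := Real.mul_self_sqrt (Nat.cast_nonneg m)
            calc _ = c1 * c2 ^ 2 * ρ * (1 + x) * (1 + a) / (Real.sqrt m * Real.sqrt m) := by
                  field_simp
              _ = _ := by rw [hss]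
          rw [e]
          gcongr
      _ ≤ ENNReal.ofReal ρ * ((Ga (Fin m)).prod ((Ga (Fin N)).prod (Ga (Fin m)))) S := by gcongr
      _ = ∫⁻ _p in S, ENNReal.ofReal ρ ∂((Ga (Fin m)).prod ((Ga (Fin N)).prod (Ga (Fin m)))) := by
          rw [setLIntegral_const]
      _ ≤ _ := (setLIntegral_mono' hSm hval).trans (setLIntegral_le_lintegral _ _)
  have := ENNReal.toReal_mono (measure_ne_top _ _) hfin
  rw [ENNReal.toReal_ofReal (by positivity)] at this
  exact this

end PN
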