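import Pool.Agent.H88.PN.Util

/-! Module BLO: one sided lower ballot bound with position. -/

namespace PN
open MeasureTheory ProbabilityTheory PM

namespace BLOa

lemma memLp_ps (n j : ℕ) : MemLp (fun g : Fin n → ℝ => ps g j) 2 (Ga (Fin n)) := by
  unfold ps
  refine memLp_finsetSum _ fun i _ => ?_
  split_ifs
  · have h := (memLp_id_gaussianReal (μ := 0) (v := 1) 2).comp_measurePreserving
      (measurePreserving_eval (fun _ : Fin n => gaussianReal 0 1) i)
    exact h
  · exact MemLp.zero'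

lemma map_neg_ps (n : ℕ) (b : ℝ) :
    Ga (Fin n) {g | ps g n ≤ b} = Ga (Fin n) {g | -b ≤ ps g n} := by
  have h1 : Ga (Fin n) {g | ps g n ≤ b} = gaussianReal 0 n (Set.Iic b) := by
    rw [← map_ps n, Measure.map_apply (measurable_ps n) measurableSet_Iic]
    rfl
  have h2 : Ga (Fin n) {g | -b ≤ ps g n} = gaussianReal 0 n (Set.Ici (-b)) := by
    rw [← map_ps n, Measure.map_apply (measurable_ps n) measurableSet_Ici]
    rfl
  rw [h1, h2]
  have h3 := gaussianReal_map_neg (μ := 0) (v := (n : NNReal))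
  rw [neg_zero] at h3
  conv_lhs => rw [← h3]
  rw [Measure.map_apply measurable_neg measurableSet_Iic]
  congr 1
  ext x
  simp only [Set.mem_preimage, Set.mem_Iic, Set.mem_Ici]
  constructor <;> intro h <;> linarith

lemma measurableSet_ex (n : ℕ) (y b : ℝ) :
    MeasurableSet {g : Fin n → ℝ | (∃ j : ℕ, 1 ≤ j ∧ j ≤ n ∧ y < ps g j) ∧ ps g n ≤ b} := by
  have : {g : Fin n → ℝ | (∃ j : ℕ, 1 ≤ j ∧ j ≤ n ∧ y < ps g j) ∧ ps g n ≤ b} =
      (⋃ j : ℕ, ⋃ _ : 1 ≤ j, ⋃ _ : j ≤ n, {g : Fin n → ℝ | y < ps g j}) ∩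
        {g | ps g n ≤ b} := by
    ext g
    simp only [Set.mem_ofPred_eq, Set.mem_inter_iff, Set.mem_iUnion, exists_prop]
  rw [this]
  refine MeasurableSet.inter ?_ (measurableSet_le (measurable_ps n) measurable_const)
  exact MeasurableSet.iUnion fun j => MeasurableSet.iUnion fun _ => MeasurableSet.iUnion fun _ =>
    measurableSet_lt measurable_const (measurable_ps j)

/-- reflection inequality -/
lemma refl (n : ℕ) : ∀ (y b : ℝ), 0 ≤ y → b ≤ y →
    Ga (Fin n) {g | (∃ j : ℕ, 1 ≤ j ∧ j ≤ n ∧ y < ps g j) ∧ ps g n ≤ b} ≤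
      Ga (Fin n) {g | 2 * y - b ≤ ps g n} := by
  induction n with
  | zero =>
    intro y b _ _
    have : {g : Fin 0 → ℝ | (∃ j : ℕ, 1 ≤ j ∧ j ≤ 0 ∧ y < ps g j) ∧ ps g 0 ≤ b} = ∅ := by
      ext g
      simp only [Set.mem_ofPred_eq, Set.mem_empty_iff_false, iff_false]
      rintro ⟨⟨j, h1, h2, _⟩, _⟩
      omega
    rw [this]
    simp
  | succ n ih =>
    intro y b hy hb
    rw [Nat.add_comm n 1]
    have hE := measurableSet_ex (1 + n) y b
    have hF : MeasurableSet {g : Fin (1 + n) → ℝ | 2 * y - b ≤ ps g (1 + n)} :=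
      measurableSet_le measurable_const (measurable_ps _)
    rw [← (mp_append 1 n).measure_preimage hE.nullMeasurableSet,
      ← (mp_append 1 n).measure_preimage hF.nullMeasurableSet,
      Measure.prod_apply (measurable_app 1 n hE), Measure.prod_apply (measurable_app 1 n hF)]
    refine lintegral_mono fun a => ?_
    set s : ℝ := ps a 1 with hs
    have hR : Prod.mk a ⁻¹' ((fun p : (Fin 1 → ℝ) × (Fin n → ℝ) => Fin.append p.1 p.2) ⁻¹'
        {g | 2 * y - b ≤ ps g (1 + n)}) = {g | 2 * y - b - s ≤ ps g n} := by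
      ext c
      simp only [Set.mem_preimage, Set.mem_ofPred_eq]
      rw [ps_append_right]
      constructor <;> intro h <;> linarith
    rw [hR]
    rcases le_or_gt s y with h | h
    · have h2 := ih (y - s) (b - s) (by linarith) (by linarith)
      have e : 2 * (y - s) - (b - s) = 2 * y - b - s := by ring
      rw [e] at h2
      refine le_trans (measure_mono ?_) h2
      intro c hc
      simp only [Set.mem_preimage, Set.mem_ofPred_eq] at hc ⊢
      rw [ps_append_right] at hc
      obtain ⟨⟨j, h3, h4, h5⟩, h6⟩ := hc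
      refine ⟨?_, by linarith⟩
      rcases Nat.lt_or_ge j 2 with hj | hj
      · have hj1 : j = 1 := by omega
        subst hj1
        rw [ps_append_left _ _ (le_refl 1)] at h5
        linarith
      · obtain ⟨i, rfl⟩ := Nat.exists_eq_add_of_le h3
        rw [ps_append_right] at h5
        exact ⟨i, by omega, by omega, by linarith⟩
    · refine le_trans (measure_mono (t := {g : Fin n → ℝ | ps g n ≤ b - s}) ?_) ?_
      · intro c hc
        simp only [Set.mem_preimage, Set.mem_ofPred_eq] at hc ⊢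
        rw [ps_append_right] at hc
        linarith [hc.2]
      · rw [map_neg_ps]
        refine measure_mono ?_
        intro c hc
        simp only [Set.mem_ofPred_eq] at hc ⊢
        linarith

/-- Gaussian tail, any variance -/
lemma tail (k : ℕ) (hk : 1 ≤ k) {t : ℝ} (ht : 0 ≤ t) :
    (gaussianReal 0 k).real (Set.Ici t) ≤ Real.exp (-t ^ 2 / (2 * k)) := by
  have hk0 : (0 : ℝ) < k := by exact_mod_cast hk
  have h := measure_ge_le_exp_mul_mgf (μ := gaussianReal 0 k) (X := fun x : ℝ => x) (t := t / k) t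
    (by positivity) (by
      have := integrable_exp_mul_gaussianReal (μ := 0) (v := (k : NNReal)) (t / k)
      exact this)
  have h2 : mgf (fun x : ℝ => x) (gaussianReal 0 k) (t / k) =
      Real.exp (k * (t / k) ^ 2 / 2) := by
    have := mgf_gaussianReal (p := gaussianReal 0 k) (X := fun x : ℝ => x) (μ := 0)
      (v := (k : NNReal)) (by exact Measure.map_id) (t / k)
    rw [this]
    simp
  rw [h2, ← Real.exp_add] at h
  have h3 : Measure.real (gaussianReal 0 k) {ω : ℝ | t ≤ ω} ≤ Real.exp (-t ^ 2 / (2 * k)) := by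
    refine h.trans (le_of_eq ?_)
    congr 1
    field_simp
    ring
  exact h3

/-- Gaussian lower bound -/
lemma lowmass (n k : ℕ) (hk : 1 ≤ k) (hkn : k ≤ n) (hn : n ≤ 2 * k) (M d : ℝ) (hM : 0 ≤ M)
    (hd : 0 < d) :
    2 * d / Real.sqrt (2 * Real.pi) * Real.exp (-(M + 2 * d) ^ 2) ≤
      (gaussianReal 0 k).real (Set.Ico (M * Real.sqrt n) ((M + 2 * d) * Real.sqrt n)) := by
  have hk0 : (0 : ℝ) < k := by exact_mod_cast hk
  have hn0 : (0 : ℝ) < n := by exact_mod_cast (lt_of_lt_of_le hk hkn)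
  have hkn' : (k : ℝ) ≤ n := by exact_mod_cast hkn
  have hn' : (n : ℝ) ≤ 2 * k := by exact_mod_cast hn
  have hv : (k : NNReal) ≠ 0 := by
    have : k ≠ 0 := by omega
    exact_mod_cast this
  have hsn : 0 < Real.sqrt n := Real.sqrt_pos.2 hn0
  rw [Measure.real, gaussianReal_apply_eq_integral 0 hv, ENNReal.toReal_ofReal
    (integral_nonneg fun x => gaussianPDFReal_nonneg _ _ _)]
  set c : ℝ := (Real.sqrt (2 * Real.pi * n))⁻¹ * Real.exp (-(M + 2 * d) ^ 2) with hc
  have h1 : ∀ x ∈ Set.Ico (M * Real.sqrt n) ((M + 2 * d) * Real.sqrt n),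
      c ≤ gaussianPDFReal 0 k x := by
    intro x hx
    rw [gaussianPDFReal]
    have hx0 : 0 ≤ x := le_trans (by positivity) hx.1
    have hx2 : x ^ 2 ≤ (M + 2 * d) ^ 2 * n := by
      have h := pow_le_pow_left₀ hx0 hx.2.le 2
      rwa [mul_pow, Real.sq_sqrt hn0.le] at h
    have e1 : (Real.sqrt (2 * Real.pi * n))⁻¹ ≤ (Real.sqrt (2 * Real.pi * ((k : NNReal) : ℝ)))⁻¹ := by
      refine inv_anti₀ ?_ ?_
      · rw [NNReal.coe_natCast]
        positivity
      · rw [NNReal.coe_natCast]
        exact Real.sqrt_le_sqrt (by nlinarith [Real.pi_pos])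
    have e2 : Real.exp (-(M + 2 * d) ^ 2) ≤
        Real.exp (-(x - 0) ^ 2 / (2 * ((k : NNReal) : ℝ))) := by
      refine Real.exp_le_exp.2 ?_
      rw [NNReal.coe_natCast, sub_zero, neg_div, neg_le_neg_iff, div_le_iff₀ (by positivity)]
      nlinarith [sq_nonneg (M + 2 * d)]
    exact mul_le_mul e1 e2 (Real.exp_pos _).le (by positivity)
  have h2 : ∫ x in Set.Ico (M * Real.sqrt n) ((M + 2 * d) * Real.sqrt n), c ≤
      ∫ x in Set.Ico (M * Real.sqrt n) ((M + 2 * d) * Real.sqrt n), gaussianPDFReal 0 k x := by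
    refine setIntegral_mono_on ?_ (integrable_gaussianPDFReal _ _).integrableOn
      measurableSet_Ico h1
    rw [integrableOn_const_iff]
    right
    simp [Real.volume_Ico]
  refine le_trans (le_of_eq ?_) h2
  rw [setIntegral_const, Measure.real, Real.volume_Ico, ENNReal.toReal_ofReal (by nlinarith),
    smul_eq_mul, hc]
  have e3 : Real.sqrt (2 * Real.pi * n) = Real.sqrt (2 * Real.pi) * Real.sqrt n :=
    Real.sqrt_mul (by positivity) _
  have hs2 : 0 < Real.sqrt (2 * Real.pi) := Real.sqrt_pos.2 (by positivity)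
  rw [e3]
  field_simp
  ring

/-- second phase -/
lemma phase2 (M d : ℝ) (hM : 0 ≤ M) (hd : 0 < d) : ∃ c D : ℝ, 0 < c ∧ 0 < D ∧
    ∀ (n k : ℕ), 1 ≤ k → k ≤ n → n ≤ 2 * k →
    c ≤ (Ga (Fin k)).real {g | (∀ j : ℕ, 1 ≤ j → j ≤ k → ps g j ≤ d * Real.sqrt n) ∧
      -(D * Real.sqrt n) ≤ ps g k ∧ ps g k ≤ -(M * Real.sqrt n)} := by
  set c : ℝ := d / Real.sqrt (2 * Real.pi) * Real.exp (-(M + 2 * d) ^ 2) with hc
  have hc0 : 0 < c := by positivity
  refine ⟨c, Real.sqrt (2 / c), hc0, by positivity, ?_⟩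
  intro n k hk hkn hn
  set D : ℝ := Real.sqrt (2 / c) with hD
  have hD2 : D ^ 2 = 2 / c := Real.sq_sqrt (by positivity)
  have hk0 : (0 : ℝ) < k := by exact_mod_cast hk
  have hn0 : (0 : ℝ) < n := by exact_mod_cast (lt_of_lt_of_le hk hkn)
  have hkn' : (k : ℝ) ≤ n := by exact_mod_cast hkn
  have hsn : 0 < Real.sqrt n := Real.sqrt_pos.2 hn0
  set μ := Ga (Fin k)
  set h : ℝ := d * Real.sqrt n with hh
  set a : ℝ := M * Real.sqrt n with ha
  have hh0 : 0 < h := by positivity
  have ha0 : 0 ≤ a := by positivity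
  set T : Set (Fin k → ℝ) := {g | (∀ j : ℕ, 1 ≤ j → j ≤ k → ps g j ≤ h) ∧
      -(D * Real.sqrt n) ≤ ps g k ∧ ps g k ≤ -a} with hT
  -- the event ps <= -a is covered
  have hcov : {g : Fin k → ℝ | ps g k ≤ -a} ⊆ T ∪
      ({g | (∃ j : ℕ, 1 ≤ j ∧ j ≤ k ∧ h < ps g j) ∧ ps g k ≤ -a} ∪
        {g | ps g k ≤ -(D * Real.sqrt n)}) := by
    intro g hg
    simp only [Set.mem_ofPred_eq] at hg
    by_cases h1 : ∃ j : ℕ, 1 ≤ j ∧ j ≤ k ∧ h < ps g j
    · exact Or.inr (Or.inl ⟨h1, hg⟩)
    · rcases le_or_gt (ps g k) (-(D * Real.sqrt n)) with h2 | h2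
      · exact Or.inr (Or.inr h2)
      · left
        push Not at h1
        exact ⟨h1, h2.le, hg⟩
  have h1 : μ.real {g : Fin k → ℝ | ps g k ≤ -a} ≤ μ.real T +
      (μ.real {g | (∃ j : ℕ, 1 ≤ j ∧ j ≤ k ∧ h < ps g j) ∧ ps g k ≤ -a} +
        μ.real {g | ps g k ≤ -(D * Real.sqrt n)}) := by
    refine (measureReal_mono hcov).trans ?_
    refine (measureReal_union_le _ _).trans ?_
    gcongr
    exact measureReal_union_le _ _
  have hreal : ∀ b : ℝ, μ.real {g : Fin k → ℝ | ps g k ≤ b} =
      (gaussianReal 0 k).real (Set.Ici (-b)) := by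
    intro b
    rw [Measure.real, map_neg_ps, Measure.real, ← map_ps k,
      Measure.map_apply (measurable_ps k) measurableSet_Ici]
    rfl
  have h2 : μ.real {g | (∃ j : ℕ, 1 ≤ j ∧ j ≤ k ∧ h < ps g j) ∧ ps g k ≤ -a} ≤
      (gaussianReal 0 k).real (Set.Ici (2 * h + a)) := by
    have := refl k h (-a) hh0.le (by linarith)
    have e : 2 * h - -a = 2 * h + a := by ring
    rw [e] at this
    have h3 : Ga (Fin k) {g | 2 * h + a ≤ ps g k} = gaussianReal 0 k (Set.Ici (2 * h + a)) := by
      rw [← map_ps k, Measure.map_apply (measurable_ps k) measurableSet_Ici]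
      rfl
    rw [h3] at this
    exact ENNReal.toReal_mono (measure_ne_top _ _) this
  rw [hreal, hreal, neg_neg, neg_neg] at h1
  have h3 : (gaussianReal 0 k).real (Set.Ici (D * Real.sqrt n)) ≤ c := by
    refine (tail k hk (by positivity)).trans ?_
    have e1 : 1 / c ≤ (D * Real.sqrt n) ^ 2 / (2 * k) := by
      rw [mul_pow, Real.sq_sqrt hn0.le, hD2, le_div_iff₀ (by positivity)]
      have : 1 / c * (2 * k) = 2 / c * k := by ring
      rw [this]
      exact mul_le_mul_of_nonneg_left hkn' (by positivity)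
    have e2 : Real.exp (-(D * Real.sqrt n) ^ 2 / (2 * k)) ≤ Real.exp (-(1 / c)) := by
      refine Real.exp_le_exp.2 ?_
      rw [neg_div]
      linarith
    refine e2.trans ?_
    rw [Real.exp_neg]
    have e3 : 1 / c ≤ Real.exp (1 / c) := by
      have := Real.add_one_le_exp (1 / c)
      linarith
    calc (Real.exp (1 / c))⁻¹ ≤ (1 / c)⁻¹ := inv_anti₀ (by positivity) e3
      _ = c := by simp
  have h4 : 2 * c ≤ (gaussianReal 0 k).real (Set.Ici a) -
      (gaussianReal 0 k).real (Set.Ici (2 * h + a)) := by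
    have e1 := lowmass n k hk hkn hn M d hM hd
    have e2 : Set.Ico (M * Real.sqrt n) ((M + 2 * d) * Real.sqrt n) = Set.Ici a \ Set.Ici (2 * h + a) := by
      ext x
      simp only [Set.mem_Ico, Set.mem_sdiff, Set.mem_Ici, not_le, ha, hh]
      constructor
      · rintro ⟨h1, h2⟩
        exact ⟨h1, by linarith⟩
      · rintro ⟨h1, h2⟩
        exact ⟨h1, by linarith⟩
    rw [e2, measureReal_sdiff (Set.Ici_subset_Ici.2 (by linarith)) measurableSet_Ici] at e1
    refine le_trans (le_of_eq ?_) e1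
    rw [hc]
    ring
  linarith

lemma sum_inv_sqrt (m : ℕ) : ∑ j ∈ Finset.range (m + 1), 1 / Real.sqrt j ≤ 2 * Real.sqrt m := by
  induction m with
  | zero => simp
  | succ m ih =>
    rw [Finset.sum_range_succ]
    have h0 : (0 : ℝ) ≤ m := Nat.cast_nonneg m
    have h1 : 0 < Real.sqrt ((m + 1 : ℕ) : ℝ) := Real.sqrt_pos.2 (by push_cast; linarith)
    have h2 : 0 ≤ Real.sqrt m := Real.sqrt_nonneg _
    have h3 : Real.sqrt m ≤ Real.sqrt ((m + 1 : ℕ) : ℝ) := Real.sqrt_le_sqrt (by push_cast; linarith)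
    have h4 : Real.sqrt ((m + 1 : ℕ) : ℝ) ^ 2 = m + 1 := by
      rw [Real.sq_sqrt (by positivity)]
      push_cast
      ring
    have h5 : Real.sqrt m ^ 2 = m := Real.sq_sqrt h0
    have h6 : 1 / Real.sqrt ((m + 1 : ℕ) : ℝ) ≤
        2 * Real.sqrt ((m + 1 : ℕ) : ℝ) - 2 * Real.sqrt m := by
      rw [div_le_iff₀ h1]
      nlinarith
    linarith

/-- first phase -/
lemma phase1 (hO : S_OPL) (hB : S_BL1) (M : ℝ) (hM : 1 ≤ M) : ∃ c d K : ℝ, 0 < c ∧ 0 < d ∧
    0 < K ∧ ∀ (n m : ℕ) (x : ℝ), 1 ≤ m → m ≤ n → n ≤ 4 * m → 1 / M ≤ x → x ≤ M * Real.sqrt n →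
    c * (1 + x) / Real.sqrt n ≤ (Ga (Fin m)).real (St m m x (fun _ => 0) ∩
      {g | d * Real.sqrt n ≤ x - ps g m ∧ x - ps g m ≤ K * Real.sqrt n}) := by
  obtain ⟨C, hC, hBL⟩ := hB 0 le_rfl
  have hM0 : 0 < M := by linarith
  have hzero : (fun j : ℕ => (0 : ℝ) * (j : ℝ) + 0 * Real.log (1 + j)) = fun _ => 0 := by
    funext j
    simp
  have hBL' : ∀ (n : ℕ) (x : ℝ), 1 ≤ n → 0 ≤ x →
      (Ga (Fin n)).real (St n n x (fun _ => 0)) ≤ C * (1 + x) / Real.sqrt n := by
    intro n x hn hx
    have := hBL n x 0 hn hx le_rfl (by simp)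
    rwa [hzero] at this
  set d : ℝ := 1 / (8 * C * (1 + M)) with hd
  set K : ℝ := 4 * (1 + M) * (M + 1 + 2 * C) with hK
  have hd0 : 0 < d := by positivity
  have hK0 : 0 < K := by positivity
  clear_value d K
  refine ⟨1 / (2 * (1 + M) * K), d, K, by positivity, hd0, hK0, ?_⟩
  intro n m x hm hmn hn hx1 hx2
  have hm0 : (0 : ℝ) < m := by exact_mod_cast hm
  have hn0 : (0 : ℝ) < n := by exact_mod_cast (lt_of_lt_of_le hm hmn)
  have hmn' : (m : ℝ) ≤ n := by exact_mod_cast hmn
  have hn' : (n : ℝ) ≤ 4 * m := by exact_mod_cast hn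
  have hn1 : (1 : ℝ) ≤ n := by exact_mod_cast (le_trans hm hmn)
  have hsn : 0 < Real.sqrt n := Real.sqrt_pos.2 hn0
  have hsn1 : 1 ≤ Real.sqrt n := by
    rw [show (1 : ℝ) = Real.sqrt 1 by simp]
    exact Real.sqrt_le_sqrt hn1
  have hsm : 0 < Real.sqrt m := Real.sqrt_pos.2 hm0
  have hsmn : Real.sqrt m ≤ Real.sqrt n := Real.sqrt_le_sqrt hmn'
  have hsnm : Real.sqrt n ≤ 2 * Real.sqrt m := by
    have : Real.sqrt n ≤ Real.sqrt (4 * m) := Real.sqrt_le_sqrt hn'
    rwa [Real.sqrt_mul (by norm_num), show (4 : ℝ) = 2 ^ 2 by norm_num,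
      Real.sqrt_sq (by norm_num)] at this
  have hx0 : 0 < x := lt_of_lt_of_le (by positivity) hx1
  obtain ⟨hO1, hO2⟩ := hO m x hx0.le
  set μ := Ga (Fin m)
  set S : Set (Fin m → ℝ) := St m m x (fun _ => 0) with hS
  have hSm : MeasurableSet S := measurableSet_St _ _ _ _
  set T : Set (Fin m → ℝ) := S ∩ {g | d * Real.sqrt n ≤ x - ps g m ∧
    x - ps g m ≤ K * Real.sqrt n} with hT
  have hTm : MeasurableSet T := by
    refine hSm.inter (MeasurableSet.inter ?_ ?_)
    · exact measurableSet_le measurable_const (measurable_const.sub (measurable_ps m))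
    · exact measurableSet_le (measurable_const.sub (measurable_ps m)) measurable_const
  -- bound for the second moment
  have hsum : ∑ j ∈ Finset.range m, μ.real (St m j x (fun _ => 0)) ≤
      1 + 2 * C * (1 + x) * Real.sqrt n := by
    obtain ⟨m', rfl⟩ : ∃ m', m = m' + 1 := ⟨m - 1, by omega⟩
    have e1 : ∀ j ∈ Finset.range (m' + 1), μ.real (St (m' + 1) j x (fun _ => 0)) ≤
        (if j = 0 then 1 else 0) + C * (1 + x) * (1 / Real.sqrt j) := by
      intro j hj
      have hj' : j ≤ m' + 1 := by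
        have := Finset.mem_range.1 hj
        omega
      rcases Nat.eq_zero_or_pos j with h | h
      · subst h
        have := measureReal_le_one (μ := μ) (s := St (m' + 1) 0 x (fun _ => 0))
        simp [this]
      · rw [St_real hj']
        have := hBL' j x h hx0.le
        rw [if_neg (by omega)]
        refine this.trans (le_of_eq ?_)
        ring
    refine (Finset.sum_le_sum e1).trans ?_
    rw [Finset.sum_add_distrib, ← Finset.mul_sum]
    have e2 := sum_inv_sqrt m'
    have e3 : Real.sqrt m' ≤ Real.sqrt n := by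
      refine Real.sqrt_le_sqrt ?_
      push_cast at hmn'
      linarith
    have e4 : (∑ j ∈ Finset.range (m' + 1), if j = 0 then (1 : ℝ) else 0) = 1 := by
      rw [Finset.sum_ite_eq']
      simp
    rw [e4]
    have e5 : C * (1 + x) * ∑ j ∈ Finset.range (m' + 1), 1 / Real.sqrt j ≤
        C * (1 + x) * (2 * Real.sqrt n) := by
      refine mul_le_mul_of_nonneg_left ?_ (by positivity)
      linarith
    linarith
  -- integrability
  have hLp : MemLp (fun g : Fin m → ℝ => x - ps g m) 2 μ := (memLp_const x).sub (memLp_ps m m)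
  have hi1 : Integrable (fun g : Fin m → ℝ => x - ps g m) μ := hLp.integrable (by norm_num)
  have hi2 : Integrable (fun g : Fin m → ℝ => (x - ps g m) ^ 2) μ := hLp.integrable_sq
  -- pointwise inequality
  have hpt : ∀ g : Fin m → ℝ, S.indicator (fun g => x - ps g m) g ≤
      T.indicator (fun _ => K * Real.sqrt n) g + (S.indicator (fun _ => d * Real.sqrt n) g +
        S.indicator (fun g => (x - ps g m) ^ 2) g * (1 / (K * Real.sqrt n))) := by
    intro g
    have hKn : 0 < K * Real.sqrt n := by positivity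
    have hdn : 0 < d * Real.sqrt n := by positivity
    have hTn : 0 ≤ T.indicator (fun _ => K * Real.sqrt n) g :=
      Set.indicator_nonneg (fun _ _ => hKn.le) g
    by_cases hg : g ∈ S
    · rw [Set.indicator_of_mem hg, Set.indicator_of_mem hg, Set.indicator_of_mem hg]
      have hy : 0 ≤ x - ps g m := by
        have := hg m hm le_rfl
        simp only [add_zero] at this
        linarith
      rcases lt_or_ge (x - ps g m) (d * Real.sqrt n) with h1 | h1
      · have : 0 ≤ (x - ps g m) ^ 2 * (1 / (K * Real.sqrt n)) := by positivity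
        linarith
      · rcases le_or_gt (x - ps g m) (K * Real.sqrt n) with h2 | h2
        · have hgT : g ∈ T := ⟨hg, h1, h2⟩
          rw [Set.indicator_of_mem hgT]
          have : 0 ≤ (x - ps g m) ^ 2 * (1 / (K * Real.sqrt n)) := by positivity
          linarith
        · have : x - ps g m ≤ (x - ps g m) ^ 2 * (1 / (K * Real.sqrt n)) := by
            rw [mul_one_div, le_div_iff₀ hKn]
            nlinarith
          linarith
    · rw [Set.indicator_of_notMem hg, Set.indicator_of_notMem hg, Set.indicator_of_notMem hg]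
      linarith
  have i1 : Integrable (fun g : Fin m → ℝ => T.indicator (fun _ => K * Real.sqrt n) g) μ :=
    (integrable_const (K * Real.sqrt n)).indicator hTm
  have i2 : Integrable (fun g : Fin m → ℝ => S.indicator (fun _ => d * Real.sqrt n) g) μ :=
    (integrable_const (d * Real.sqrt n)).indicator hSm
  have i3 : Integrable (fun g : Fin m → ℝ => S.indicator (fun g => (x - ps g m) ^ 2) g *
      (1 / (K * Real.sqrt n))) μ := (hi2.indicator hSm).mul_const _
  have i23 : Integrable (fun g : Fin m → ℝ => S.indicator (fun _ => d * Real.sqrt n) g +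
      S.indicator (fun g => (x - ps g m) ^ 2) g * (1 / (K * Real.sqrt n))) μ := i2.add i3
  have hint := integral_mono (μ := μ) (hi1.indicator hSm) (i1.add i23) hpt
  have hint2 : ∫ g : Fin m → ℝ, S.indicator (fun g => x - ps g m) g ∂μ ≤
      μ.real T * (K * Real.sqrt n) + (μ.real S * (d * Real.sqrt n) +
        (∫ g : Fin m → ℝ, S.indicator (fun g => (x - ps g m) ^ 2) g ∂μ) *
          (1 / (K * Real.sqrt n))) := by
    refine hint.trans (le_of_eq ?_)
    have e1 : ∫ g : Fin m → ℝ, ((fun g : Fin m → ℝ => T.indicator (fun _ => K * Real.sqrt n) g) +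
        (fun g : Fin m → ℝ => S.indicator (fun _ => d * Real.sqrt n) g +
      S.indicator (fun g => (x - ps g m) ^ 2) g * (1 / (K * Real.sqrt n)))) g ∂μ =
      ∫ g : Fin m → ℝ, T.indicator (fun _ => K * Real.sqrt n) g ∂μ +
        ∫ g : Fin m → ℝ, (S.indicator (fun _ => d * Real.sqrt n) g +
      S.indicator (fun g => (x - ps g m) ^ 2) g * (1 / (K * Real.sqrt n))) ∂μ :=
      integral_add i1 i23
    have e2 : ∫ g : Fin m → ℝ, (S.indicator (fun _ => d * Real.sqrt n) g +
      S.indicator (fun g => (x - ps g m) ^ 2) g * (1 / (K * Real.sqrt n))) ∂μ =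
      ∫ g : Fin m → ℝ, S.indicator (fun _ => d * Real.sqrt n) g ∂μ +
        ∫ g : Fin m → ℝ, S.indicator (fun g => (x - ps g m) ^ 2) g *
          (1 / (K * Real.sqrt n)) ∂μ := integral_add i2 i3
    rw [e1, e2, integral_indicator_const _ hTm, integral_indicator_const _ hSm, integral_mul_const,
      smul_eq_mul, smul_eq_mul]
  have hPS : μ.real S ≤ C * (1 + x) / Real.sqrt m := hBL' m x hm hx0.le
  have hE2 : ∫ g : Fin m → ℝ, S.indicator (fun g => (x - ps g m) ^ 2) g ∂μ ≤
      x ^ 2 + (1 + 2 * C * (1 + x) * Real.sqrt n) := hO2.trans (by linarith)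
  have hb1 : μ.real S * (d * Real.sqrt n) ≤ (1 + x) / (4 * (1 + M)) := by
    calc μ.real S * (d * Real.sqrt n) ≤ C * (1 + x) / Real.sqrt m * (d * (2 * Real.sqrt m)) := by
          refine mul_le_mul hPS ?_ (by positivity) (by positivity)
          exact mul_le_mul_of_nonneg_left hsnm hd0.le
      _ = (1 + x) / (4 * (1 + M)) := by
          rw [hd]
          field_simp
          ring
  have hb2 : (∫ g : Fin m → ℝ, S.indicator (fun g => (x - ps g m) ^ 2) g ∂μ) *
      (1 / (K * Real.sqrt n)) ≤ (1 + x) / (4 * (1 + M)) := by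
    calc (∫ g : Fin m → ℝ, S.indicator (fun g => (x - ps g m) ^ 2) g ∂μ) *
      (1 / (K * Real.sqrt n)) ≤ (x ^ 2 + (1 + 2 * C * (1 + x) * Real.sqrt n)) *
        (1 / (K * Real.sqrt n)) := mul_le_mul_of_nonneg_right hE2 (by positivity)
      _ ≤ ((1 + x) * (M + 1 + 2 * C) * Real.sqrt n) * (1 / (K * Real.sqrt n)) := by
          refine mul_le_mul_of_nonneg_right ?_ (by positivity)
          have e1 : x ^ 2 ≤ x * (M * Real.sqrt n) := by nlinarith
          have e2 : x * (M * Real.sqrt n) ≤ (1 + x) * M * Real.sqrt n := by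
            have : 0 ≤ M * Real.sqrt n := by positivity
            nlinarith
          have e3 : 1 ≤ (1 + x) * Real.sqrt n := by nlinarith
          nlinarith
      _ = (1 + x) / (4 * (1 + M)) := by
          rw [hK]
          have : M + 1 + 2 * C ≠ 0 := by positivity
          field_simp
  have hx3 : (1 + x) / (1 + M) ≤ x := by
    rw [div_le_iff₀ (by linarith)]
    have : 1 ≤ x * M := by
      rw [div_le_iff₀ hM0] at hx1
      exact hx1
    nlinarith
  have hfin : (1 + x) / (2 * (1 + M)) ≤ μ.real T * (K * Real.sqrt n) := by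
    have e : (1 + x) / (1 + M) - (1 + x) / (4 * (1 + M)) - (1 + x) / (4 * (1 + M)) =
        (1 + x) / (2 * (1 + M)) := by
      field_simp
      ring
    linarith
  have hM1 : (0 : ℝ) < 1 + M := by linarith
  have e1 : 1 / (2 * (1 + M) * K) * (1 + x) / Real.sqrt n =
      (1 + x) / (2 * (1 + M)) / (K * Real.sqrt n) := by
    rw [div_div, one_div, inv_mul_eq_div, div_div]
    congr 1
    ring
  rw [e1, div_le_iff₀ (by positivity)]
  exact hfin

end BLOa

open BLOa in
theorem BLO (hOPL : S_OPL) (hBL1 : S_BL1) : S_BLO := by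
  intro M hM
  obtain ⟨c1, d, K, hc1, hd, hK, h1⟩ := phase1 hOPL hBL1 M hM
  obtain ⟨c2, D, hc2, hD, h2⟩ := phase2 M d (by linarith) hd
  refine ⟨c1 * c2, K + D + M, 2, by positivity, by linarith, ?_⟩
  intro n x hn hx1 hx2
  set m : ℕ := n / 2 with hm
  obtain ⟨k, hk⟩ : ∃ k, n = m + k := ⟨n - m, by omega⟩
  have hm1 : 1 ≤ m := by omega
  have hmn : m ≤ n := by omega
  have hn4 : n ≤ 4 * m := by omega
  have hk1 : 1 ≤ k := by omega
  have hkn : k ≤ n := by omega
  have hn2 : n ≤ 2 * k := by omega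
  have p1 := h1 n m x hm1 hmn hn4 hx1 hx2
  have p2 := h2 n k hk1 hkn hn2
  have hsn : 0 < Real.sqrt n := Real.sqrt_pos.2 (by exact_mod_cast (by omega : 0 < n))
  set s : ℝ := Real.sqrt n with hs
  clear_value s
  clear hm
  clear_value m
  subst hk
  set A1 : Set (Fin m → ℝ) := St m m x (fun _ => 0) ∩
      {g | d * s ≤ x - ps g m ∧ x - ps g m ≤ K * s} with hA1
  set A2 : Set (Fin k → ℝ) := {g | (∀ j : ℕ, 1 ≤ j → j ≤ k → ps g j ≤ d * s) ∧
      -(D * s) ≤ ps g k ∧ ps g k ≤ -(M * s)} with hA2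
  set A : Set (Fin (m + k) → ℝ) := St (m + k) (m + k) x (fun _ => 0) ∩
    {g | M * s ≤ x - ps g (m + k) ∧ x - ps g (m + k) ≤ (K + D + M) * s} with hA
  have hAm : MeasurableSet A := by
    refine (measurableSet_St _ _ _ _).inter (MeasurableSet.inter ?_ ?_)
    · exact measurableSet_le measurable_const (measurable_const.sub (measurable_ps _))
    · exact measurableSet_le (measurable_const.sub (measurable_ps _)) measurable_const
  have hsub : A1 ×ˢ A2 ⊆ (fun p : (Fin m → ℝ) × (Fin k → ℝ) => Fin.append p.1 p.2) ⁻¹' A := by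
    rintro ⟨a, b⟩ ⟨⟨ha1, ha2, ha3⟩, hb1, hb2, hb3⟩
    simp only at ha2 ha3 hb1 hb2 hb3
    simp only [Set.mem_preimage]
    have hMs : 0 ≤ M * s := by
      have : 0 ≤ M := by linarith
      positivity
    have hds : 0 ≤ d * s := by positivity
    refine ⟨?_, ?_, ?_⟩
    · intro j hj1 hj2
      rcases le_or_gt j m with h | h
      · rw [ps_append_left _ _ h]
        exact ha1 j hj1 h
      · obtain ⟨i, rfl⟩ := Nat.exists_eq_add_of_le h.le
        rw [ps_append_right]
        have := hb1 i (by omega) (by omega)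
        simp only [add_zero]
        linarith
    · simp only [ps_append_right]
      linarith
    · simp only [ps_append_right]
      have : (K + D + M) * s = K * s + D * s + M * s := by ring
      rw [this]
      linarith
  have hP : (Ga (Fin m)).real A1 * (Ga (Fin k)).real A2 ≤ (Ga (Fin (m + k))).real A := by
    unfold Measure.real
    rw [← ENNReal.toReal_mul, ← Measure.prod_prod]
    refine ENNReal.toReal_mono (measure_ne_top _ _) ?_
    refine (measure_mono hsub).trans (le_of_eq ?_)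
    exact (mp_append m k).measure_preimage hAm.nullMeasurableSet
  refine le_trans ?_ hP
  have hx0 : 0 ≤ x := le_trans (by positivity) hx1
  calc c1 * c2 * (1 + x) / s = c1 * (1 + x) / s * c2 := by ring
    _ ≤ (Ga (Fin m)).real A1 * (Ga (Fin k)).real A2 := mul_le_mul p1 p2 hc2.le measureReal_nonneg

end PN
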