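import Pool.Agent.H45.PN.Walk

/-! BRB: the bridge, upper bound. -/

namespace PN
open MeasureTheory ProbabilityTheory

namespace BRB

open W45

theorem mp_pair {κ κ1 κ2 : Type} [Fintype κ] [Fintype κ1] [Fintype κ2] (e1 : κ1 → κ)
    (e2 : κ2 → κ) (h1 : Function.Injective e1) (h2 : Function.Injective e2)
    (h12 : ∀ i j, e1 i ≠ e2 j) :
    MeasurePreserving (fun g : κ → ℝ => ((fun i => g (e1 i)), (fun i => g (e2 i))))
      (Ga κ) ((Ga κ1).prod (Ga κ2)) := by
  have he : Function.Injective (Sum.elim e1 e2) := h1.sumElim h2 h12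
  have a := mp_comp (Sum.elim e1 e2) he
  have b := measurePreserving_sumPiEquivProdPi (X := fun _ : κ1 ⊕ κ2 => ℝ)
    (fun _ => gaussianReal 0 1)
  exact b.comp a

theorem mp_neg (κ : Type) [Fintype κ] :
    MeasurePreserving (fun (g : κ → ℝ) (i : κ) => -g i) (Ga κ) (Ga κ) := by
  have h : MeasurePreserving (fun s : ℝ => -s) (gaussianReal 0 1) (gaussianReal 0 1) :=
    ⟨measurable_neg, by rw [gaussianReal_map_neg, neg_zero]⟩
  exact measurePreserving_pi (fun _ => gaussianReal 0 1) (fun _ => gaussianReal 0 1)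
    (fun _ => h)

theorem ps_rev {n : ℕ} (y : Fin n → ℝ) {k : ℕ} (hk : k ≤ n) :
    ps (fun i => y (Fin.rev i)) k = ∑ i, y i - ps y (n - k) := by
  unfold ps
  rw [← Finset.sum_sub_distrib,
    ← Equiv.sum_comp Fin.revPerm (fun i : Fin n => y i - if (i : ℕ) < n - k then y i else 0)]
  refine Finset.sum_congr rfl fun i _ => ?_
  simp only [Fin.revPerm_apply, Fin.val_rev]
  have hi := i.2
  by_cases h : (i : ℕ) < k
  · rw [if_pos h, if_neg (by omega), sub_zero]
  · rw [if_neg h, if_pos (by omega), sub_self]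

/-- one end of the bridge -/
theorem factor (hB : S_BL1) (A : ℝ) (hA : 0 ≤ A) : ∃ C : ℝ, 0 < C ∧ ∀ (n m : ℕ) (x a : ℝ),
    1 ≤ m → m ≤ n → n ≤ 6 * m → 0 ≤ x → 0 ≤ a →
    (Ga (Fin m)).real (St m m x (fun j => max (a - x) 0 / n * j + A * Real.log (1 + j))) ≤
      C * (1 + x) * (1 / Real.sqrt n + a / n) := by
  obtain ⟨C, hC, hB⟩ := hB A hA
  refine ⟨3 * C + 1, by positivity, ?_⟩
  intro n m x a hm hmn hnm hx ha
  have hm' : (1 : ℝ) ≤ m := by exact_mod_cast hm
  have hmn' : (m : ℝ) ≤ n := by exact_mod_cast hmn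
  have hnm' : (n : ℝ) ≤ 6 * m := by exact_mod_cast hnm
  have hn' : (1 : ℝ) ≤ n := hm'.trans hmn'
  have hsn : 0 < Real.sqrt n := Real.sqrt_pos.2 (by linarith)
  have hsm : 0 < Real.sqrt m := Real.sqrt_pos.2 (by linarith)
  have hsn2 : Real.sqrt n ^ 2 = n := Real.sq_sqrt (by linarith)
  have hsm2 : Real.sqrt m ^ 2 = m := Real.sq_sqrt (by linarith)
  obtain ⟨δ, hδ⟩ : ∃ δ, δ = max (a - x) 0 / n := ⟨_, rfl⟩
  rw [← hδ]
  have hδ0 : 0 ≤ δ := by rw [hδ]; exact div_nonneg (le_max_right _ _) (by linarith)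
  have hδa : δ ≤ a / n := by
    rw [hδ]
    exact div_le_div_of_nonneg_right (max_le (by linarith) ha) (by linarith)
  have hC3 : 0 ≤ (3 * C + 1) * (1 + x) := by positivity
  by_cases h1 : δ * Real.sqrt m ≤ 1
  · have h := hB m x δ hm hx hδ0 h1
    refine h.trans ?_
    have h2 : C * (1 + x) / Real.sqrt m ≤ (3 * C + 1) * (1 + x) * (1 / Real.sqrt n) := by
      rw [mul_one_div, div_le_div_iff₀ hsm hsn]
      have h3 : Real.sqrt n ≤ 3 * Real.sqrt m := by
        by_contra h
        rw [not_le] at h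
        have := pow_lt_pow_left₀ h (by positivity) (two_ne_zero)
        rw [mul_pow, hsn2, hsm2] at this
        linarith
      have h4 : C * (1 + x) * Real.sqrt n ≤ C * (1 + x) * (3 * Real.sqrt m) :=
        mul_le_mul_of_nonneg_left h3 (by positivity)
      have h5 : 0 ≤ (1 + x) * Real.sqrt m := by positivity
      nlinarith
    refine h2.trans (mul_le_mul_of_nonneg_left ?_ hC3)
    have : 0 ≤ a / n := by positivity
    linarith
  · rw [not_le] at h1
    have hδpos : 0 < δ := by
      rcases hδ0.eq_or_lt with h | h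
      · rw [← h] at h1; simp at h1; linarith
      · exact h
    have h6 : 0 ≤ 1 / Real.sqrt n := by positivity
    by_cases h2 : 1 < δ
    · refine measureReal_le_one.trans ?_
      have h3 : 1 ≤ a / n := h2.le.trans hδa
      have h4 : 1 ≤ (3 * C + 1) * (1 + x) := by nlinarith
      nlinarith
    · rw [not_lt] at h2
      obtain ⟨k, hk⟩ : ∃ k, k = ⌊(δ⁻¹) ^ 2⌋₊ := ⟨_, rfl⟩
      have hinv : 1 ≤ δ⁻¹ := (one_le_inv₀ hδpos).2 h2
      have hk1 : 1 ≤ k := by
        rw [hk]
        refine Nat.le_floor ?_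
        push_cast
        nlinarith
      have hk2 : (k : ℝ) ≤ (δ⁻¹) ^ 2 := by rw [hk]; exact Nat.floor_le (by positivity)
      have hk3 : (δ⁻¹) ^ 2 < k + 1 := by rw [hk]; exact Nat.lt_floor_add_one _
      have hk1' : (1 : ℝ) ≤ k := by exact_mod_cast hk1
      have hsk : 0 < Real.sqrt k := Real.sqrt_pos.2 (by linarith)
      have hsk2 : Real.sqrt k ^ 2 = k := Real.sq_sqrt (by linarith)
      have hδδ : δ * δ⁻¹ = 1 := mul_inv_cancel₀ hδpos.ne'
      have hkm : k ≤ m := by
        have h3 : δ⁻¹ < Real.sqrt m := by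
          rw [inv_lt_iff_one_lt_mul₀ hδpos]
          linarith
        have h4 : (k : ℝ) ≤ m := by
          rw [← hsm2]
          exact hk2.trans (pow_le_pow_left₀ (by positivity) h3.le 2)
        exact_mod_cast h4
      have h3 : δ * Real.sqrt k ≤ 1 := by
        have h4 : Real.sqrt k ≤ δ⁻¹ := by
          rw [Real.sqrt_le_left (by positivity)]
          exact hk2
        calc δ * Real.sqrt k ≤ δ * δ⁻¹ := mul_le_mul_of_nonneg_left h4 hδ0
          _ = 1 := hδδ
      have h := hB k x δ hk1 hx hδ0 h3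
      have h4 : (Ga (Fin m)).real (St m m x (fun j => δ * j + A * Real.log (1 + j))) ≤
          (Ga (Fin k)).real (St k k x (fun j => δ * j + A * Real.log (1 + j))) := by
        rw [← real_St hkm]
        refine measureReal_mono ?_ (measure_ne_top _ _)
        intro g hg j hj1 hj2
        exact hg j hj1 (hj2.trans hkm)
      refine h4.trans (h.trans ?_)
      have h5 : C * (1 + x) / Real.sqrt k ≤ C * (1 + x) * (2 * δ) := by
        rw [div_eq_mul_inv]
        refine mul_le_mul_of_nonneg_left ?_ (by positivity)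
        rw [inv_le_iff_one_le_mul₀ hsk]
        have h7 : δ⁻¹ ≤ 2 * Real.sqrt k := by
          by_contra h
          rw [not_le] at h
          have := pow_lt_pow_left₀ h (by positivity) (two_ne_zero)
          rw [mul_pow, hsk2] at this
          linarith
        have h8 := mul_le_mul_of_nonneg_left h7 hδ0
        rw [hδδ] at h8
        linarith
      refine h5.trans ?_
      have h7 : C * (1 + x) * (2 * δ) ≤ (3 * C + 1) * (1 + x) * (a / n) := by
        have h8 : 0 ≤ a / n := by positivity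
        calc C * (1 + x) * (2 * δ) ≤ C * (1 + x) * (2 * (a / n)) :=
              mul_le_mul_of_nonneg_left (by linarith) (by positivity)
          _ ≤ (3 * C + 1) * (1 + x) * (a / n) := by
              have : 0 ≤ (1 + x) * (a / n) := by positivity
              nlinarith
      refine h7.trans (mul_le_mul_of_nonneg_left (by linarith) hC3)

/-- the bridge event in terms of the centred increments -/
def EB (n : ℕ) (x a A : ℝ) : Set (Fin n → ℝ) :=
  {y | ∀ j : ℕ, 1 ≤ j → j < n → ps y j ≤ x * (1 - (j : ℝ) / n) + a * ((j : ℝ) / n) +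
      A * Real.log (1 + min (j : ℝ) (n - j))}

theorem measurableSet_EB (n : ℕ) (x a A : ℝ) : MeasurableSet (EB n x a A) := by
  have : EB n x a A = ⋂ j : ℕ, {y : Fin n → ℝ | 1 ≤ j → j < n → ps y j ≤
      x * (1 - (j : ℝ) / n) + a * ((j : ℝ) / n) + A * Real.log (1 + min (j : ℝ) (n - j))} := by
    ext g
    simp [EB]
  rw [this]
  refine MeasurableSet.iInter fun j => ?_
  by_cases h1 : 1 ≤ j
  · by_cases h2 : j < n
    · simp only [h1, h2, true_implies]
      exact measurableSet_le (measurable_ps j) measurable_const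
    · simp [h2]
  · simp [h1]

theorem ps_centred {n : ℕ} (hn : 1 ≤ n) (g : Fin n → ℝ) {j : ℕ} (hj : j ≤ n) :
    ps (fun i => g i - ps g n / n) j = ps g j - (j : ℝ) / n * ps g n := by
  have hn' : (n : ℝ) ≠ 0 := by
    have : (1 : ℝ) ≤ n := by exact_mod_cast hn
    linarith
  have h1 : ps (fun _ : Fin n => (1 : ℝ)) j = j := by
    unfold ps
    rw [← Finset.sum_filter, Finset.sum_const, nsmul_eq_mul, mul_one]
    have : (Finset.univ.filter (fun i : Fin n => (i : ℕ) < j)).card = j := by
      rw [Fin.card_filter_val_lt, min_eq_right hj]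
    rw [this]
  have h2 : ps (fun i => g i - ps g n / n) j = ps g j - ps g n / n *
      ps (fun _ : Fin n => (1 : ℝ)) j := by
    unfold ps
    rw [Finset.mul_sum, ← Finset.sum_sub_distrib]
    refine Finset.sum_congr rfl fun i _ => ?_
    split_ifs <;> simp
  rw [h2, h1]
  ring

open Classical in
/-- the transformed path of RAT -/
noncomputable def TT {n : ℕ} (J : Finset (Fin n)) (g : Fin n → ℝ) : Fin n → ℝ :=
  fun i => if i ∈ J then g i - (∑ j ∈ J, g j) / J.card - (∑ j ∈ Jᶜ, g j) / J.card else g i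

theorem sum_TT {n : ℕ} (J : Finset (Fin n)) (hJ : J.Nonempty) (g : Fin n → ℝ) :
    ∑ i, TT J g i = 0 := by
  classical
  have hc : (J.card : ℝ) ≠ 0 := by
    have := Finset.card_pos.2 hJ
    positivity
  rw [← Finset.sum_add_sum_compl J]
  have h1 : ∑ i ∈ J, TT J g i = - ∑ j ∈ Jᶜ, g j := by
    have : ∑ i ∈ J, TT J g i = ∑ i ∈ J, (g i - (∑ j ∈ J, g j) / J.card -
        (∑ j ∈ Jᶜ, g j) / J.card) :=
      Finset.sum_congr rfl fun i hi => by unfold TT; rw [if_pos hi]
    rw [this, Finset.sum_sub_distrib, Finset.sum_sub_distrib, Finset.sum_const, Finset.sum_const,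
      nsmul_eq_mul, nsmul_eq_mul, mul_div_cancel₀ _ hc, mul_div_cancel₀ _ hc]
    ring
  have h2 : ∑ i ∈ Jᶜ, TT J g i = ∑ j ∈ Jᶜ, g j :=
    Finset.sum_congr rfl fun i hi => by unfold TT; rw [if_neg (Finset.mem_compl.1 hi)]
  rw [h1, h2]
  ring

theorem ps_congr {n : ℕ} {y z : Fin n → ℝ} {j : ℕ} (h : ∀ i : Fin n, (i : ℕ) < j → y i = z i) :
    ps y j = ps z j := by
  unfold ps
  refine Finset.sum_congr rfl fun i _ => ?_
  split_ifs with hi
  · exact h i hi
  · rfl

/-- containment of the event -/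
theorem contain {n m : ℕ} (hm : 1 ≤ m) (hmn : 3 * m ≤ n) (x a A : ℝ)
    (J : Finset (Fin n)) (hJ : ∀ i : Fin n, i ∈ J ↔ m ≤ (i : ℕ) ∧ (i : ℕ) < n - m)
    (hJn : J.Nonempty) (g : Fin n → ℝ) (hg : TT J g ∈ EB n x a A) :
    (fun i : Fin m => g (Fin.castLE (by omega : m ≤ n) i)) ∈
        St m m x (fun j => max (a - x) 0 / n * j + A * Real.log (1 + j)) ∧
      (fun i : Fin m => -g (Fin.rev (Fin.castLE (by omega : m ≤ n) i))) ∈
        St m m a (fun j => max (x - a) 0 / n * j + A * Real.log (1 + j)) := by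
  have hn' : (0 : ℝ) < n := by
    have : 0 < n := by omega
    exact_mod_cast this
  have hmn' : m ≤ n := by omega
  have out : ∀ i : Fin n, ¬ (m ≤ (i : ℕ) ∧ (i : ℕ) < n - m) → TT J g i = g i := by
    intro i hi
    unfold TT
    rw [if_neg (fun h => hi ((hJ i).1 h))]
  constructor
  · intro j hj1 hj2
    rw [ps_castLE hmn' g hj2]
    have h1 : ps g j = ps (TT J g) j :=
      ps_congr fun i hi => (out i (by omega)).symm
    rw [h1]
    have h2 := hg j hj1 (by omega)
    refine h2.trans ?_
    have h3 : min (j : ℝ) (n - j) = j := by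
      apply min_eq_left
      have : ((2 * j : ℕ) : ℝ) ≤ n := by exact_mod_cast (by omega : 2 * j ≤ n)
      push_cast at this
      linarith
    rw [h3]
    have h4 : (a - x) * ((j : ℝ) / n) ≤ max (a - x) 0 * ((j : ℝ) / n) :=
      mul_le_mul_of_nonneg_right (le_max_left _ _) (by positivity)
    have h5 : max (a - x) 0 / n * (j : ℝ) = max (a - x) 0 * ((j : ℝ) / n) := by ring
    show _ ≤ x + (max (a - x) 0 / n * (j : ℝ) + A * Real.log (1 + j))
    rw [h5]
    linarith
  · intro k hk1 hk2
    have hkn : k ≤ n := by omega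
    rw [ps_castLE hmn' (fun i => -g (Fin.rev i)) hk2]
    have h1 : ps (fun i => -g (Fin.rev i)) k = ps (fun i => -TT J g (Fin.rev i)) k := by
      refine ps_congr fun i hi => ?_
      rw [out (Fin.rev i) (by rw [Fin.val_rev]; omega)]
    rw [h1, ps_rev (fun i => -TT J g i) hkn, Finset.sum_neg_distrib, sum_TT J hJn, neg_zero]
    have h2 : ps (fun i => -TT J g i) (n - k) = -ps (TT J g) (n - k) := by
      unfold ps
      rw [← Finset.sum_neg_distrib]
      refine Finset.sum_congr rfl fun i _ => ?_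
      split_ifs <;> simp
    rw [h2, zero_sub, neg_neg]
    have h3 := hg (n - k) (by omega) (by omega)
    refine h3.trans ?_
    have h4 : ((n - k : ℕ) : ℝ) = n - k := by push_cast [hkn]; ring
    rw [h4]
    have h5 : min ((n : ℝ) - k) (n - (n - k)) = k := by
      have : ((2 * k : ℕ) : ℝ) ≤ n := by exact_mod_cast (by omega : 2 * k ≤ n)
      push_cast at this
      rw [sub_sub_cancel]
      exact min_eq_right (by linarith)
    rw [h5]
    have h6 : ((n : ℝ) - k) / n = 1 - (k : ℝ) / n := by field_simp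
    rw [h6]
    have h7 : (x - a) * ((k : ℝ) / n) ≤ max (x - a) 0 * ((k : ℝ) / n) :=
      mul_le_mul_of_nonneg_right (le_max_left _ _) (by positivity)
    have h8 : max (x - a) 0 / n * (k : ℝ) = max (x - a) 0 * ((k : ℝ) / n) := by ring
    show _ ≤ a + (max (x - a) 0 / n * (k : ℝ) + A * Real.log (1 + k))
    rw [h8]
    linarith

/-- the bridge probability is at most twice the product of the two ends -/
theorem product (hR : S_RAT) {n m : ℕ} (hm : 1 ≤ m) (hmn : 3 * m ≤ n) (hnm : n ≤ 6 * m)
    (x a A : ℝ) :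
    (Ga (Fin n)).real {g | ∀ j : ℕ, 1 ≤ j → j < n →
      ps g j - (j : ℝ) / n * ps g n ≤ x * (1 - (j : ℝ) / n) + a * ((j : ℝ) / n) +
        A * Real.log (1 + min (j : ℝ) (n - j))} ≤
      3 * ((Ga (Fin m)).real (St m m x (fun j => max (a - x) 0 / n * j + A * Real.log (1 + j))) *
        (Ga (Fin m)).real (St m m a (fun j => max (x - a) 0 / n * j + A * Real.log (1 + j)))) := by
  classical
  have hn1 : 1 ≤ n := by omega
  have hmn' : m ≤ n := by omega
  obtain ⟨J, hJ⟩ : ∃ J : Finset (Fin n), J = Finset.univ.filter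
    (fun i : Fin n => m ≤ (i : ℕ) ∧ (i : ℕ) < n - m) := ⟨_, rfl⟩
  have hJm : ∀ i : Fin n, i ∈ J ↔ m ≤ (i : ℕ) ∧ (i : ℕ) < n - m := by
    intro i; rw [hJ]; simp
  have hJn : J.Nonempty := ⟨⟨m, by omega⟩, by rw [hJm]; simp; omega⟩
  have hJc : m ≤ J.card := by
    have : (Finset.univ.map ⟨fun i : Fin m => (⟨m + i, by omega⟩ : Fin n), fun i j h => by
        simp at h; ext; omega⟩ : Finset (Fin n)) ⊆ J := by
      intro i hi
      rw [Finset.mem_map] at hi
      obtain ⟨k, -, rfl⟩ := hi
      rw [hJm]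
      have := k.2
      simp
      omega
    have h := Finset.card_le_card this
    simpa using h
  have hE : {g : Fin n → ℝ | ∀ j : ℕ, 1 ≤ j → j < n →
      ps g j - (j : ℝ) / n * ps g n ≤ x * (1 - (j : ℝ) / n) + a * ((j : ℝ) / n) +
        A * Real.log (1 + min (j : ℝ) (n - j))} =
      {g : Fin n → ℝ | (fun i => g i - ps g n / n) ∈ EB n x a A} := by
    ext g
    simp only [EB, Set.mem_ofPred_eq]
    refine forall_congr' fun j => forall_congr' fun _ => forall_congr' fun hj => ?_
    rw [ps_centred hn1 g hj.le]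
  rw [hE]
  obtain ⟨S1, hS1⟩ : ∃ S1, S1 = St m m x (fun j => max (a - x) 0 / n * j + A * Real.log (1 + j)) :=
    ⟨_, rfl⟩
  obtain ⟨S2, hS2⟩ : ∃ S2, S2 = St m m a (fun j => max (x - a) 0 / n * j + A * Real.log (1 + j)) :=
    ⟨_, rfl⟩
  have mS1 : MeasurableSet S1 := by rw [hS1]; exact measurableSet_St _ _ _ _
  have mS2 : MeasurableSet S2 := by rw [hS2]; exact measurableSet_St _ _ _ _
  have hcen : Measurable (fun (g : Fin n → ℝ) (i : Fin n) => g i - ps g n / n) := by
    refine measurable_pi_lambda _ fun i => ?_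
    exact (measurable_pi_apply i).sub ((measurable_ps n).div_const _)
  have hmeasE : MeasurableSet {g : Fin n → ℝ | (fun i => g i - ps g n / n) ∈ EB n x a A} :=
    hcen (measurableSet_EB n x a A)
  have h1 : (Ga (Fin n)) {g : Fin n → ℝ | (fun i => g i - ps g n / n) ∈ EB n x a A} =
      ∫⁻ g : Fin n → ℝ, (EB n x a A).indicator 1 (fun i => g i - ps g n / n) ∂Ga (Fin n) := by
    rw [← lintegral_indicator_one hmeasE]
    rfl
  have h2 := hR n J ((EB n x a A).indicator 1) hJn
    (measurable_one.indicator (measurableSet_EB n x a A))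
  have h3 : ∀ g : Fin n → ℝ, (EB n x a A).indicator (1 : (Fin n → ℝ) → ENNReal) (TT J g) *
      ENNReal.ofReal (Real.sqrt ((n : ℝ) / J.card) *
        Real.exp (-(∑ j ∈ Jᶜ, g j) ^ 2 / (2 * J.card))) ≤
      ENNReal.ofReal 3 * ((fun g : Fin n → ℝ =>
        ((fun i : Fin m => g (Fin.castLE hmn' i)),
          (fun i : Fin m => g (Fin.rev (Fin.castLE hmn' i))))) ⁻¹'
        (S1 ×ˢ ((fun (g : Fin m → ℝ) (i : Fin m) => -g i) ⁻¹' S2))).indicator 1 g := by
    intro g
    by_cases hg : TT J g ∈ EB n x a A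
    · have hc := contain hm hmn x a A J hJm hJn g hg
      rw [← hS1, ← hS2] at hc
      rw [Set.indicator_of_mem hg, Set.indicator_of_mem (by exact hc), Pi.one_apply, one_mul,
        Pi.one_apply, mul_one]
      refine ENNReal.ofReal_le_ofReal ?_
      have hc0 : (0 : ℝ) < J.card := by
        have := Finset.card_pos.2 hJn
        positivity
      have h4 : Real.sqrt ((n : ℝ) / J.card) ≤ 3 := by
        rw [Real.sqrt_le_left (by norm_num), div_le_iff₀ hc0]
        have h5 : (m : ℝ) ≤ J.card := by exact_mod_cast hJc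
        have h6 : (n : ℝ) ≤ 6 * m := by exact_mod_cast hnm
        linarith
      have h5 : Real.exp (-(∑ j ∈ Jᶜ, g j) ^ 2 / (2 * J.card)) ≤ 1 := by
        rw [Real.exp_le_one_iff]
        apply div_nonpos_of_nonpos_of_nonneg
        · nlinarith [sq_nonneg (∑ j ∈ Jᶜ, g j)]
        · positivity
      calc Real.sqrt ((n : ℝ) / J.card) * Real.exp (-(∑ j ∈ Jᶜ, g j) ^ 2 / (2 * J.card))
          ≤ 3 * 1 := mul_le_mul h4 h5 (Real.exp_pos _).le (by norm_num)
        _ = 3 := mul_one _
    · rw [Set.indicator_of_notMem hg, zero_mul]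
      exact bot_le
  have hpair := mp_pair (κ := Fin n) (κ1 := Fin m) (κ2 := Fin m) (Fin.castLE hmn')
    (fun i => Fin.rev (Fin.castLE hmn' i)) (Fin.castLE_injective hmn')
    (fun i j h => Fin.castLE_injective hmn' (Fin.rev_injective h))
    (fun i j h => by
      have h' := congrArg (fun k : Fin n => (k : ℕ)) h
      simp only [Fin.val_rev, Fin.val_castLE] at h'
      have := i.2
      have := j.2
      omega)
  have mprod : MeasurableSet (S1 ×ˢ ((fun (g : Fin m → ℝ) (i : Fin m) => -g i) ⁻¹' S2)) :=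
    mS1.prod ((mp_neg (Fin m)).measurable mS2)
  have h4 : (Ga (Fin n)) {g : Fin n → ℝ | (fun i => g i - ps g n / n) ∈ EB n x a A} ≤
      ENNReal.ofReal 3 * ((Ga (Fin m)) S1 * (Ga (Fin m)) S2) := by
    rw [h1, h2]
    refine (lintegral_mono h3).trans ?_
    rw [lintegral_const_mul _ (measurable_one.indicator (hpair.measurable mprod)),
      lintegral_indicator_one (hpair.measurable mprod),
      hpair.measure_preimage mprod.nullMeasurableSet, Measure.prod_prod,
      (mp_neg (Fin m)).measure_preimage mS2.nullMeasurableSet]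
  have h5 := ENNReal.toReal_mono (by finiteness) h4
  rw [ENNReal.toReal_mul, ENNReal.toReal_mul, ENNReal.toReal_ofReal (by norm_num)] at h5
  rw [← hS1, ← hS2]
  exact h5

end BRB

theorem BRB (hB : S_BL1) (hR : S_RAT) : S_BRB := by
  intro A hA
  obtain ⟨C, hC, hF⟩ := BRB.factor hB A hA
  refine ⟨12 * C ^ 2 + 6 * C + 3, by positivity, ?_⟩
  intro n x a hn hx ha
  have hn' : (1 : ℝ) ≤ n := by exact_mod_cast hn
  have hn0 : (0 : ℝ) < n := by linarith
  by_cases hn3 : n < 3
  · refine measureReal_le_one.trans ?_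
    have h1 : (n : ℝ) ≤ 3 := by exact_mod_cast hn3.le
    rw [le_div_iff₀ hn0]
    have h2 : 1 ≤ (1 + x) * (1 + a) := by nlinarith
    nlinarith [sq_nonneg C]
  · have hm1 : 1 ≤ n / 3 := by omega
    have hm2 : 3 * (n / 3) ≤ n := by omega
    have hm3 : n ≤ 6 * (n / 3) := by omega
    have hP := BRB.product hR hm1 hm2 hm3 x a A
    have h1 := hF n (n / 3) x a hm1 (by omega) hm3 hx ha
    have h2 := hF n (n / 3) a x hm1 (by omega) hm3 ha hx
    refine hP.trans ?_
    obtain ⟨p, hp⟩ : ∃ p, p = (Ga (Fin (n / 3))).real (St (n / 3) (n / 3) x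
      (fun j => max (a - x) 0 / n * j + A * Real.log (1 + j))) := ⟨_, rfl⟩
    obtain ⟨q, hq⟩ : ∃ q, q = (Ga (Fin (n / 3))).real (St (n / 3) (n / 3) a
      (fun j => max (x - a) 0 / n * j + A * Real.log (1 + j))) := ⟨_, rfl⟩
    rw [← hp] at h1 ⊢
    rw [← hq] at h2 ⊢
    have hp0 : 0 ≤ p := by rw [hp]; exact measureReal_nonneg
    have hq0 : 0 ≤ q := by rw [hq]; exact measureReal_nonneg
    have hp1 : p ≤ 1 := by rw [hp]; exact measureReal_le_one
    have hq1 : q ≤ 1 := by rw [hq]; exact measureReal_le_one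
    have hsn : 0 < Real.sqrt n := Real.sqrt_pos.2 hn0
    have hsq : Real.sqrt n * Real.sqrt n = n := Real.mul_self_sqrt hn0.le
    have hinv : 1 / Real.sqrt n = Real.sqrt n / n := by
      rw [div_eq_div_iff hsn.ne' hn0.ne', one_mul, hsq]
    rw [hinv, ← add_div] at h1 h2
    have hXA : 1 ≤ (1 + x) * (1 + a) := by nlinarith
    rw [le_div_iff₀ hn0]
    by_cases hxs : Real.sqrt n < x
    · have h3 : q * n ≤ C * (1 + a) * (Real.sqrt n + x) := by
        rw [mul_div_assoc', le_div_iff₀ hn0] at h2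
        exact h2
      have h4 : q * n ≤ C * (1 + a) * (2 * (1 + x)) :=
        h3.trans (mul_le_mul_of_nonneg_left (by linarith) (by positivity))
      have h5 : p * q * n ≤ q * n := by
        have : 0 ≤ q * n := by positivity
        nlinarith
      have h6 : 0 ≤ (1 + x) * (1 + a) := by linarith
      nlinarith [mul_nonneg (sq_nonneg C) h6]
    · rw [not_lt] at hxs
      by_cases has : Real.sqrt n < a
      · have h3 : p * n ≤ C * (1 + x) * (Real.sqrt n + a) := by
          rw [mul_div_assoc', le_div_iff₀ hn0] at h1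
          exact h1
        have h4 : p * n ≤ C * (1 + x) * (2 * (1 + a)) :=
          h3.trans (mul_le_mul_of_nonneg_left (by linarith) (by positivity))
        have h5 : p * q * n ≤ p * n := by
          have : 0 ≤ p * n := by positivity
          nlinarith
        have h6 : 0 ≤ (1 + x) * (1 + a) := by linarith
        nlinarith [mul_nonneg (sq_nonneg C) h6]
      · rw [not_lt] at has
        have h3 : p ≤ C * (1 + x) * (2 * (Real.sqrt n / n)) := by
          refine h1.trans (mul_le_mul_of_nonneg_left ?_ (by positivity))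
          rw [← mul_div_assoc]
          exact div_le_div_of_nonneg_right (by linarith) hn0.le
        have h4 : q ≤ C * (1 + a) * (2 * (Real.sqrt n / n)) := by
          refine h2.trans (mul_le_mul_of_nonneg_left ?_ (by positivity))
          rw [← mul_div_assoc]
          exact div_le_div_of_nonneg_right (by linarith) hn0.le
        have h5 : p * q ≤ C * (1 + x) * (2 * (Real.sqrt n / n)) *
            (C * (1 + a) * (2 * (Real.sqrt n / n))) :=
          mul_le_mul h3 h4 hq0 (by positivity)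
        have h6 : C * (1 + x) * (2 * (Real.sqrt n / n)) *
            (C * (1 + a) * (2 * (Real.sqrt n / n))) * n = 4 * C ^ 2 * ((1 + x) * (1 + a)) := by
          have : Real.sqrt n / n * (Real.sqrt n / n) * n = 1 := by
            rw [div_mul_div_comm, hsq]
            field_simp
          linear_combination 4 * C ^ 2 * ((1 + x) * (1 + a)) * this
        have h7 : p * q * n ≤ 4 * C ^ 2 * ((1 + x) * (1 + a)) := by
          rw [← h6]
          exact mul_le_mul_of_nonneg_right h5 hn0.le
        have h8 : 0 ≤ (1 + x) * (1 + a) := by linarith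
        nlinarith [mul_nonneg hC.le h8]

end PN
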