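import Pool.Agent.H24.PN.Stmts

/-! Project PM, part 2, modules BRG and BLW: ballot bounds with end point from bridges. -/

namespace PN
open MeasureTheory Complex ProbabilityTheory PM

theorem brg_card (n j : ℕ) (hj : j ≤ n) :
    ∑ i : Fin n, (if (i : ℕ) < j then (1 : ℝ) else 0) = j := by
  rw [Fin.sum_univ_eq_sum_range (fun i => if i < j then (1 : ℝ) else 0) n, ← Finset.sum_filter,
    Finset.sum_const, nsmul_eq_mul, mul_one]
  congr 1
  have h : (Finset.range n).filter (fun i => i < j) = Finset.range j := by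
    ext i
    simp only [Finset.mem_filter, Finset.mem_range]
    omega
  rw [h, Finset.card_range]

theorem brg_ps {n : ℕ} (g : Fin n → ℝ) (s : ℝ) (j : ℕ) (hj : j ≤ n) :
    ps (fun i => g i - ps g n / n + s / n) j =
      ps g j - (j : ℝ) / n * ps g n + (j : ℝ) / n * s := by
  have h : ps (fun i => g i - ps g n / n + s / n) j = ps g j +
      (-(ps g n / n) + s / n) * ∑ i : Fin n, (if (i : ℕ) < j then (1 : ℝ) else 0) := by
    show ∑ i : Fin n, (if (i : ℕ) < j then (g i - ps g n / n + s / n) else 0) =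
      ∑ i : Fin n, (if (i : ℕ) < j then g i else 0) + _
    rw [Finset.mul_sum, ← Finset.sum_add_distrib]
    apply Finset.sum_congr rfl
    intro i _
    by_cases hi : (i : ℕ) < j
    · rw [if_pos hi, if_pos hi, if_pos hi]
      ring
    · rw [if_neg hi, if_neg hi, if_neg hi]
      ring
  rw [h, brg_card n j hj]
  ring

theorem brg_meas {n : ℕ} (j : ℕ) : Measurable (fun g : Fin n → ℝ => ps g j) := by
  unfold ps
  apply Finset.measurable_sum
  intro i _
  by_cases hi : (i : ℕ) < j
  · simp only [if_pos hi]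
    exact measurable_pi_apply i
  · simp only [if_neg hi]
    exact measurable_const

theorem brg_main (hPIN : S_PIN) (n : ℕ) (x : ℝ) (ψ : ℕ → ℝ) (hn : 1 ≤ n) (h : ℝ → ENNReal)
    (hh : Measurable h) :
    ∫⁻ g : Fin n → ℝ, Set.indicator {g : Fin n → ℝ | ∀ j : ℕ, 1 ≤ j → j ≤ n → ps g j ≤ x - ψ j}
      (fun g => h (ps g n)) g ∂Ga (Fin n) =
    ∫⁻ s : ℝ, h s * (Ga (Fin n)) {g : Fin n → ℝ | ∀ j : ℕ, 1 ≤ j → j ≤ n →
      ps g j - (j : ℝ) / n * ps g n + (j : ℝ) / n * s ≤ x - ψ j} ∂gaussianReal 0 n := by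
  have hn0 : (n : ℝ) ≠ 0 := by
    have : n ≠ 0 := by omega
    exact_mod_cast this
  have hset : MeasurableSet {g : Fin n → ℝ | ∀ j : ℕ, 1 ≤ j → j ≤ n → ps g j ≤ x - ψ j} := by
    simp only [Set.ofPred_forall]
    refine MeasurableSet.iInter fun j => MeasurableSet.iInter fun _ => MeasurableSet.iInter fun _ => ?_
    exact measurableSet_le (brg_meas j) measurable_const
  have hset2 : ∀ s : ℝ, MeasurableSet {g : Fin n → ℝ | ∀ j : ℕ, 1 ≤ j → j ≤ n →
      ps g j - (j : ℝ) / n * ps g n + (j : ℝ) / n * s ≤ x - ψ j} := by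
    intro s
    simp only [Set.ofPred_forall]
    refine MeasurableSet.iInter fun j => MeasurableSet.iInter fun _ => MeasurableSet.iInter fun _ => ?_
    exact measurableSet_le (((brg_meas j).sub ((brg_meas n).const_mul _)).add_const _)
      measurable_const
  refine (hPIN n _ hn ((hh.comp (brg_meas n)).indicator hset)).trans ?_
  apply lintegral_congr
  intro s
  rw [← lintegral_indicator_const (hset2 s)]
  apply lintegral_congr
  intro g
  have hpn : ps (fun i => g i - ps g n / n + s / n) n = s := by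
    rw [brg_ps g s n le_rfl, div_self hn0]
    ring
  by_cases hg : ∀ j : ℕ, 1 ≤ j → j ≤ n →
      ps g j - (j : ℝ) / n * ps g n + (j : ℝ) / n * s ≤ x - ψ j
  · rw [Set.indicator_of_mem, Set.indicator_of_mem]
    · show h (ps (fun i => g i - ps g n / n + s / n) n) = h s
      rw [hpn]
    · exact hg
    · intro j h1 h2
      rw [brg_ps g s j h2]
      exact hg j h1 h2
  · rw [Set.indicator_of_notMem, Set.indicator_of_notMem]
    · exact hg
    · intro h'
      apply hg
      intro j h1 h2
      have := h' j h1 h2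
      rw [brg_ps g s j h2] at this
      exact this

theorem BRG (hPIN : S_PIN) (hBRB : S_BRB) : S_BRG := by
  intro A hA
  obtain ⟨C, hC, hB⟩ := hBRB A hA
  refine ⟨C, hC, ?_⟩
  intro n x ψ hn hx hψ h hh
  rw [brg_main hPIN n x ψ hn h hh, ← lintegral_indicator measurableSet_Iic]
  have hn0 : (0 : ℝ) < n := by
    have : 0 < n := by omega
    exact_mod_cast this
  apply lintegral_mono
  intro s
  by_cases hs : s ∈ Set.Iic (x - ψ n)
  · rw [Set.indicator_of_mem hs]
    beta_reduce
    rw [mul_comm (ENNReal.ofReal _) (h s)]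
    refine mul_le_mul_right ?_ _
    have hs' : s ≤ x - ψ n := hs
    have h1 := hB n x (x - ψ n - s) hn hx (by linarith)
    refine le_trans (measure_mono ?_) ((ENNReal.le_ofReal_iff_toReal_le (measure_ne_top _ _)
      ?_).2 h1)
    · intro g hg j h1 h2
      have h3 := hg j h1 h2.le
      have h4 := hψ j h1 h2.le
      have e : x * (1 - (j : ℝ) / n) + (x - ψ n - s) * ((j : ℝ) / n) =
        x - (j : ℝ) / n * ψ n - (j : ℝ) / n * s := by ring
      rw [e]
      linarith
    · have : 0 ≤ x - ψ n - s := by linarith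
      positivity
  · rw [Set.indicator_of_notMem hs]
    have he : {g : Fin n → ℝ | ∀ j : ℕ, 1 ≤ j → j ≤ n →
      ps g j - (j : ℝ) / n * ps g n + (j : ℝ) / n * s ≤ x - ψ j} = ∅ := by
      ext g
      simp only [Set.mem_ofPred_eq, Set.mem_empty_iff_false, iff_false]
      intro h'
      apply hs
      have := h' n hn le_rfl
      rw [div_self hn0.ne'] at this
      show s ≤ x - ψ n
      linarith
    beta_reduce
    rw [he, measure_empty, mul_zero]

theorem BLW (hPIN : S_PIN) (hBLB : S_BLB) : S_BLW := by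
  intro M hM
  obtain ⟨c, n0, hc, hn0, hB⟩ := hBLB M hM
  refine ⟨c, n0, hc, hn0, ?_⟩
  intro n x ψ hn hx hx2 h hh
  have hn1 : 1 ≤ n := hn0.trans hn
  have hM0 : 0 < M := by linarith
  have hnr : (0 : ℝ) < n := by
    have : 0 < n := by omega
    exact_mod_cast this
  rw [brg_main hPIN n x (fun j => (j : ℝ) / n * ψ) hn1 h hh,
    ← lintegral_indicator measurableSet_Icc]
  apply lintegral_mono
  intro s
  by_cases hs : s ∈ Set.Icc (x - ψ - M * Real.sqrt n) (x - ψ - 1 / M)
  · rw [Set.indicator_of_mem hs]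
    beta_reduce
    rw [mul_comm (ENNReal.ofReal _) (h s)]
    refine mul_le_mul_right ?_ _
    obtain ⟨hs1, hs2⟩ := hs
    have h1 := hB n x (x - ψ - s) hn hx hx2 (by linarith) (by linarith)
    have hinv : 0 < 1 / M := by positivity
    refine le_trans (ENNReal.ofReal_le_ofReal h1) ?_
    rw [measureReal_def, ENNReal.ofReal_toReal (measure_ne_top _ _)]
    apply measure_mono
    intro g hg j h1 h2
    rcases lt_or_eq_of_le h2 with h3 | h3
    · have h4 := hg j h1 h3
      have e : x * (1 - (j : ℝ) / n) + (x - ψ - s) * ((j : ℝ) / n) =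
        x - (j : ℝ) / n * ψ - (j : ℝ) / n * s := by ring
      rw [e] at h4
      linarith
    · subst h3
      rw [div_self hnr.ne']
      linarith
  · rw [Set.indicator_of_notMem hs]
    exact zero_le

end PN
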