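import Pool.Agent.H24.PN.Stmts

/-! Module CLW: lower bound for the moment of the mean square in the open window. -/

namespace PN
open MeasureTheory Complex ProbabilityTheory PM

lemma CLW_ft (lam z q : ℝ) (hl : 0 < lam) (hz : 0 ≤ z) (hq : 0 < q) (hq1 : q ≤ 1) :
    0 ≤ ft lam z ∧ ft lam z ≤ (z / lam) ^ q := by
  unfold ft
  refine ⟨by positivity, ?_⟩
  have hzl : 0 ≤ z / lam := by positivity
  rcases le_total (z / lam) 1 with h | h
  · calc z / (z + lam) ≤ z / lam := by
          apply div_le_div_of_nonneg_left hz hl; linarith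
      _ = (z / lam) ^ (1 : ℝ) := (Real.rpow_one _).symm
      _ ≤ (z / lam) ^ q := by
          rcases eq_or_lt_of_le hzl with h0 | h0
          · rw [← h0, Real.zero_rpow one_ne_zero, Real.zero_rpow hq.ne']
          · exact Real.rpow_le_rpow_of_exponent_ge h0 h hq1
  · calc z / (z + lam) ≤ 1 := by
          rw [div_le_one (by linarith)]; linarith
      _ ≤ (z / lam) ^ q := Real.one_le_rpow h hq.le

/-- bounds for the depth -/
lemma CLW_K (lp Y : ℝ) (hlp : 16 < lp) (hY : lp ≤ Y) (K : ℕ)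
    (hK : K = ⌊Real.log (Y / lp) / vv⌋₊) :
    (2 : ℝ) ^ K ≤ Y / lp ∧ Y / (2 * lp) ≤ 2 ^ K ∧ (K : ℝ) + 1 ≤ 3 * Real.log Y := by
  have hlp0 : 0 < lp := by linarith
  have hY0 : 0 < Y := by linarith
  have hr : 1 ≤ Y / lp := by rw [one_le_div hlp0]; exact hY
  have hr0 : 0 < Y / lp := by positivity
  have hv : 0 < vv := by unfold vv; exact Real.log_pos (by norm_num)
  have hlr : 0 ≤ Real.log (Y / lp) := Real.log_nonneg hr
  have h1 : (K : ℝ) ≤ Real.log (Y / lp) / vv := by
    rw [hK]; exact Nat.floor_le (by positivity)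
  have h2 : Real.log (Y / lp) / vv < (K : ℝ) + 1 := by
    rw [hK]; exact Nat.lt_floor_add_one _
  have h1' : (K : ℝ) * vv ≤ Real.log (Y / lp) := by
    rwa [le_div_iff₀ hv] at h1
  have h2' : Real.log (Y / lp) < ((K : ℝ) + 1) * vv := by
    rwa [div_lt_iff₀ hv] at h2
  have hpow : ∀ n : ℕ, Real.exp ((n : ℝ) * vv) = 2 ^ n := by
    intro n
    unfold vv
    rw [Real.exp_nat_mul, Real.exp_log (by norm_num)]
  refine ⟨?_, ?_, ?_⟩
  · rw [← hpow, ← Real.exp_log hr0]
    exact Real.exp_le_exp.mpr h1'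
  · have h3 : Y / lp < 2 ^ (K + 1) := by
      rw [← hpow, ← Real.exp_log hr0]
      apply Real.exp_lt_exp.mpr
      push_cast
      exact h2'
    have h4 : Y / (2 * lp) = Y / lp / 2 := by field_simp
    rw [h4, div_le_iff₀ (by norm_num)]
    rw [pow_succ] at h3
    exact h3.le
  · have h16 : Real.log 16 ≤ Real.log lp := Real.log_le_log (by norm_num) hlp.le
    have h16' : Real.log 16 = 4 * vv := by
      unfold vv
      rw [show (16 : ℝ) = 2 ^ 4 by norm_num, Real.log_pow]; norm_num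
    have hv2 : 0.69 < vv := by unfold vv; have := Real.log_two_gt_d9; linarith
    have hlogr : Real.log (Y / lp) = Real.log Y - Real.log lp := Real.log_div hY0.ne' hlp0.ne'
    rw [hlogr] at h1'
    have hLL : 0 ≤ Real.log Y := Real.log_nonneg (by linarith)
    have hK0 : (0 : ℝ) ≤ K := Nat.cast_nonneg K
    have h5 : (K : ℝ) * vv ≤ Real.log Y - 4 * vv := by linarith
    nlinarith

/-- module CLW -/
theorem CLW (hPLB : S_PLB) (hJM : PM.S_JM) : S_CLW := by
  intro γ p p0 hG hα hp hp1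
  obtain ⟨c, K0, A0, hc, H⟩ := hPLB γ p0 hG hα
  have hp0 : 4 * Real.exp 16 ≤ (p0 : ℝ) := hG.1
  have he16 : 0 < Real.exp 16 := Real.exp_pos _
  have hp0' : (0 : ℝ) < p0 := by linarith
  set lp := Real.log p0 with hlpdef
  have hlp : 16 < lp := by
    have h1 : Real.log (4 * Real.exp 16) ≤ lp := Real.log_le_log (by positivity) hp0
    rw [Real.log_mul (by norm_num) he16.ne', Real.log_exp] at h1
    have h2 : 0 < Real.log 4 := Real.log_pos (by norm_num)
    linarith
  have hlp0 : 0 < lp := by linarith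
  set α := al γ with hαdef
  have hα0 : 0 < α := by linarith
  have hsq2 : Real.sqrt 2 * Real.sqrt 2 = 2 := Real.mul_self_sqrt (by norm_num)
  have hsq2p : 0 < Real.sqrt 2 := Real.sqrt_pos.mpr (by norm_num)
  set c1 : ℝ := 1 / 5 * (2 * lp) ^ (-(2 * α)) * 3 ^ (-(3 * α / 2)) with hc1
  have hc1p : 0 < c1 := by
    rw [hc1]; positivity
  refine ⟨c * c1 ^ (p / 2), max (Real.exp 3) (Real.exp (lp * 2 ^ K0)), by positivity,
    le_max_left _ _, ?_⟩
  intro y hy
  have hy3 : Real.exp 3 ≤ y := le_trans (le_max_left _ _) hy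
  have hyK : Real.exp (lp * 2 ^ K0) ≤ y := le_trans (le_max_right _ _) hy
  have hy0 : 0 < y := lt_of_lt_of_le (Real.exp_pos _) hy3
  set Y := Real.log y with hYdef
  have hY3 : 3 ≤ Y := by
    have := Real.log_le_log (Real.exp_pos _) hy3
    rwa [Real.log_exp] at this
  have hYK : lp * 2 ^ K0 ≤ Y := by
    have := Real.log_le_log (Real.exp_pos _) hyK
    rwa [Real.log_exp] at this
  have h2K0 : (1 : ℝ) ≤ 2 ^ K0 := one_le_pow₀ (by norm_num)
  have hYlp : lp ≤ Y := by nlinarith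
  have hY0 : 0 < Y := by linarith
  have hp0y : (p0 : ℝ) ≤ y := by
    have h1 : Real.exp lp ≤ Real.exp Y := Real.exp_le_exp.mpr hYlp
    rwa [hlpdef, hYdef, Real.exp_log hp0', Real.exp_log hy0] at h1
  have hLL1 : 1 ≤ Real.log Y := by
    have h1 : Real.exp 1 ≤ Y := by
      have := Real.exp_one_lt_d9; linarith
    have := Real.log_le_log (Real.exp_pos _) h1
    rwa [Real.log_exp] at this
  set LL := Real.log Y with hLLdef
  have hLL0 : 0 < LL := by linarith
  -- the depth
  set K := Kd (p0 : ℝ) y with hKdef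
  obtain ⟨hK1, hK2, hK3⟩ := CLW_K lp Y hlp hYlp K hKdef
  have hv : 0 < vv := by unfold vv; exact Real.log_pos (by norm_num)
  have hK0K : K0 ≤ K := by
    rw [hKdef]
    unfold Kd
    apply Nat.le_floor
    rw [le_div_iff₀ hv]
    have h1 : (2 : ℝ) ^ K0 ≤ Y / lp := by
      rw [le_div_iff₀ hlp0]; linarith
    have h2 := Real.log_le_log (by positivity) h1
    rw [Real.log_pow] at h2
    exact h2
  -- the threshold
  set lam : ℝ := c1 * Y ^ (2 * α - 1) * LL ^ (-(3 * α / 2)) with hlam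
  have hlamp : 0 < lam := by rw [hlam]; positivity
  set σ : ℝ := 1 / Y with hσ
  have hσ0 : 0 < σ := by rw [hσ]; positivity
  have hσ1 : σ ≤ 1 := by rw [hσ, div_le_one hY0]; linarith
  let w : ℝ → ℝ := fun t => 1 / (σ ^ 2 + t ^ 2)
  have hwpos : ∀ t, 0 < σ ^ 2 + t ^ 2 := fun t => by positivity
  have hwc : Continuous w := by
    refine continuous_const.div (by fun_prop) (fun t => (hwpos t).ne')
  have hw0 : ∀ t, 0 ≤ w t := fun t => by
    have := hwpos t
    show 0 ≤ 1 / (σ ^ 2 + t ^ 2)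
    positivity
  have hM := H (p0 : ℝ) y σ lam 1 (fun _ => 1) w Finset.univ (fun _ => 0) le_rfl hp0y
    (by rw [abs_of_pos hσ0, hσ]; show 1 / Y * Y ≤ 8
        rw [one_div, inv_mul_cancel₀ hY0.ne']; norm_num) hK0K hlamp hwc hw0
    (by intro b b' hb; exact absurd (Subsingleton.elim b b') hb)
    (by
      intro i _
      refine ⟨le_rfl, Real.sqrt_nonneg _, ?_⟩
      rw [mul_zero, Real.exp_zero, mul_one]
      have h2K : (0 : ℝ) < 2 ^ K := by positivity
      set h : ℝ := 1 / lp / 2 ^ K with hh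
      have hh0 : 0 < h := by rw [hh]; positivity
      have hi : ((i.2 : ℕ) : ℝ) + 1 ≤ 2 ^ K := by
        have := i.2.2
        exact_mod_cast this
      have hi0 : (0 : ℝ) ≤ ((i.2 : ℕ) : ℝ) := Nat.cast_nonneg _
      -- the cell
      have hcell : 1 / (5 * Y) ≤ ∫ t in Set.Ioc (1 + ((i.2 : ℕ) : ℝ) * h)
          (1 + (((i.2 : ℕ) : ℝ) + 1) * h), w t := by
        have hend : 1 + (((i.2 : ℕ) : ℝ) + 1) * h ≤ 2 := by
          have : (((i.2 : ℕ) : ℝ) + 1) * h ≤ 2 ^ K * h := mul_le_mul_of_nonneg_right hi hh0.le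
          have h2 : 2 ^ K * h = 1 / lp := by rw [hh]; field_simp
          have h3 : 1 / lp ≤ 1 := by rw [div_le_one hlp0]; linarith
          linarith
        have hlow : ∀ t ∈ Set.Ioc (1 + ((i.2 : ℕ) : ℝ) * h) (1 + (((i.2 : ℕ) : ℝ) + 1) * h),
            (1 / 5 : ℝ) ≤ w t := by
          intro t ht
          have ht1 : 1 < t := by have := ht.1; nlinarith [mul_nonneg hi0 hh0.le]
          have ht2 : t ≤ 2 := le_trans ht.2 hend
          show (1 / 5 : ℝ) ≤ 1 / (σ ^ 2 + t ^ 2)
          apply one_div_le_one_div_of_le (hwpos t)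
          nlinarith
        have hint : IntegrableOn w (Set.Ioc (1 + ((i.2 : ℕ) : ℝ) * h)
            (1 + (((i.2 : ℕ) : ℝ) + 1) * h)) :=
          (hwc.integrableOn_Icc).mono_set Set.Ioc_subset_Icc_self
        have hge := setIntegral_mono_on (μ := volume) (f := fun _ => (1 / 5 : ℝ)) (g := w)
          (s := Set.Ioc (1 + ((i.2 : ℕ) : ℝ) * h) (1 + (((i.2 : ℕ) : ℝ) + 1) * h))
          (integrableOn_const (by simp) (by simp)) hint measurableSet_Ioc hlow
        rw [setIntegral_const, smul_eq_mul, Measure.real, Real.volume_Ioc,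
          ENNReal.toReal_ofReal (by nlinarith)] at hge
        refine le_trans ?_ hge
        have e1 : 1 + (((i.2 : ℕ) : ℝ) + 1) * h - (1 + ((i.2 : ℕ) : ℝ) * h) = h := by ring
        rw [e1]
        have h5 : 1 / Y ≤ h := by
          rw [hh, div_div]
          apply one_div_le_one_div_of_le (by positivity)
          rw [le_div_iff₀ hlp0] at hK1
          linarith
        calc 1 / (5 * Y) = 1 / Y * (1 / 5) := by field_simp
          _ ≤ h * (1 / 5) := by
            apply mul_le_mul_of_nonneg_right h5; norm_num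
      -- the typical size
      have htyp : (Y / (2 * lp)) ^ (2 * α) * (3 * LL) ^ (-(3 * α / 2)) ≤
          typ (Real.sqrt 2 * al γ) K := by
        unfold typ
        have hc0 : Real.sqrt 2 * c0 = 3 / 2 := by
          unfold c0; field_simp
        have e1 : Real.sqrt 2 * al γ * (Real.sqrt 2 * (K : ℝ) * vv - c0 * Real.log ((K : ℝ) + 1)) =
            (2 * α) * ((K : ℝ) * vv) + (-(3 * α / 2)) * Real.log ((K : ℝ) + 1) := by
          calc Real.sqrt 2 * al γ * (Real.sqrt 2 * (K : ℝ) * vv - c0 * Real.log ((K : ℝ) + 1)) =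
              (Real.sqrt 2 * Real.sqrt 2) * α * ((K : ℝ) * vv) -
                (Real.sqrt 2 * c0) * α * Real.log ((K : ℝ) + 1) := by ring
            _ = _ := by rw [hsq2, hc0]; ring
        have hK10 : (0 : ℝ) < (K : ℝ) + 1 := by positivity
        rw [e1, Real.exp_add]
        have e2 : Real.exp (2 * α * ((K : ℝ) * vv)) = ((2 : ℝ) ^ K) ^ (2 * α) := by
          rw [Real.rpow_def_of_pos h2K, Real.log_pow]
          congr 1
          unfold vv
          ring
        have e3 : Real.exp (-(3 * α / 2) * Real.log ((K : ℝ) + 1)) =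
            ((K : ℝ) + 1) ^ (-(3 * α / 2)) := by
          rw [Real.rpow_def_of_pos hK10]; congr 1; ring
        rw [e2, e3]
        apply mul_le_mul
        · exact Real.rpow_le_rpow (by positivity) hK2 (by positivity)
        · exact Real.rpow_le_rpow_of_nonpos hK10 hK3 (by linarith)
        · positivity
        · positivity
      have hfin : lam = 1 / (5 * Y) *
          ((Y / (2 * lp)) ^ (2 * α) * (3 * LL) ^ (-(3 * α / 2))) := by
        rw [hlam, hc1, Real.div_rpow hY0.le (by positivity),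
          Real.mul_rpow (by norm_num) hLL0.le, Real.rpow_sub hY0, Real.rpow_one,
          Real.rpow_neg (by positivity : (0 : ℝ) ≤ 2 * lp)]
        field_simp
      rw [hfin]
      apply mul_le_mul hcell htyp
      · positivity
      · exact le_trans (by positivity) hcell)
  -- the sum is one
  have hsum : ∑ i ∈ (Finset.univ : Finset (Fin 1 × Fin (2 ^ K))),
      ((1 : ℝ) + 0) * Real.exp (-(Real.sqrt 2 * 0)) / 2 ^ K = 1 := by
    rw [Finset.sum_const, Finset.card_univ, Fintype.card_prod, Fintype.card_fin, Fintype.card_fin,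
      mul_zero, neg_zero, Real.exp_zero, nsmul_eq_mul]
    push_cast
    field_simp
    ring
  have hM' : c ≤ ∫ ω : Om, ft lam (∑ b : Fin 1, ∫ t in Set.Ioc (1 : ℝ) (1 + 1 / lp),
      w t * ‖F γ (PrS p0 y) σ t ω‖ ^ 2) ∂P := by
    have h1 : c * min 1 (∑ i ∈ (Finset.univ : Finset (Fin 1 × Fin (2 ^ K))),
      ((1 : ℝ) + 0) * Real.exp (-(Real.sqrt 2 * 0)) / 2 ^ K) = c := by
      rw [hsum, min_self, mul_one]
    calc c = _ := h1.symm
      _ ≤ _ := hM
  -- the functional
  have hprime : ∀ l ∈ PrS (p0 : ℝ) y, l.Prime := by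
    intro l hl
    unfold PrS at hl
    exact (Finset.mem_filter.mp hl).2.1
  obtain ⟨hJmeas, ⟨B, hB⟩, hJint, _⟩ := hJM γ (PrS p0 y) σ hprime (by linarith) hσ0.ne'
  have hZ : ∀ ω : Om, 0 ≤ (∑ b : Fin 1, ∫ t in Set.Ioc (1 : ℝ) (1 + 1 / lp),
      w t * ‖F γ (PrS p0 y) σ t ω‖ ^ 2) ∧
      (∑ b : Fin 1, ∫ t in Set.Ioc (1 : ℝ) (1 + 1 / lp),
      w t * ‖F γ (PrS p0 y) σ t ω‖ ^ 2) ≤ JF γ (PrS p0 y) σ ω := by
    intro ω
    rw [Fin.sum_univ_one]
    have e : ∀ t, w t * ‖F γ (PrS p0 y) σ t ω‖ ^ 2 =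
        ‖F γ (PrS p0 y) σ t ω‖ ^ 2 / (σ ^ 2 + t ^ 2) := by
      intro t; show 1 / (σ ^ 2 + t ^ 2) * _ = _; ring
    have hnn : ∀ t, 0 ≤ ‖F γ (PrS p0 y) σ t ω‖ ^ 2 / (σ ^ 2 + t ^ 2) := fun t => by
      have := hwpos t; positivity
    simp_rw [e]
    refine ⟨integral_nonneg hnn, ?_⟩
    unfold JF
    exact setIntegral_le_integral (hJint ω) (Filter.Eventually.of_forall hnn)
  set q := p / 2 with hq
  have hq0 : 0 < q := by rw [hq]; linarith
  have hq1 : q ≤ 1 := by rw [hq]; linarith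
  have hJint2 : Integrable (fun ω : Om => (JF γ (PrS p0 y) σ ω / Y) ^ q) P := by
    refine Integrable.of_bound (C := (B / Y) ^ q) ?_ ?_
    · exact ((hJmeas.div_const Y).pow_const q).aestronglyMeasurable
    · refine Filter.Eventually.of_forall (fun ω => ?_)
      have h1 := (hB ω).1
      have h2 := (hB ω).2
      rw [Real.norm_of_nonneg (by positivity)]
      apply Real.rpow_le_rpow (by positivity) _ hq0.le
      gcongr
  have hcmp : ∫ ω : Om, ft lam (∑ b : Fin 1, ∫ t in Set.Ioc (1 : ℝ) (1 + 1 / lp),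
      w t * ‖F γ (PrS p0 y) σ t ω‖ ^ 2) ∂P ≤
      ∫ ω : Om, (Y / lam) ^ q * (JF γ (PrS p0 y) σ ω / Y) ^ q ∂P := by
    apply integral_mono_of_nonneg
    · exact Filter.Eventually.of_forall (fun ω => (CLW_ft lam _ q hlamp (hZ ω).1 hq0 hq1).1)
    · exact hJint2.const_mul _
    · refine Filter.Eventually.of_forall (fun ω => ?_)
      refine le_trans (CLW_ft lam _ q hlamp (hZ ω).1 hq0 hq1).2 ?_
      have hJ0 := (hB ω).1
      show _ ≤ (Y / lam) ^ q * (JF γ (PrS (p0 : ℝ) y) σ ω / Y) ^ q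
      rw [← Real.mul_rpow (by positivity) (by positivity)]
      apply Real.rpow_le_rpow
      · exact div_nonneg (hZ ω).1 hlamp.le
      · have e : Y / lam * (JF γ (PrS p0 y) σ ω / Y) = JF γ (PrS p0 y) σ ω / lam := by
          field_simp
        rw [e]
        exact div_le_div_of_nonneg_right (hZ ω).2 hlamp.le
      · exact hq0.le
  rw [integral_const_mul] at hcmp
  have hfin : c * (lam / Y) ^ q ≤ ∫ ω : Om, (JF γ (PrS p0 y) σ ω / Y) ^ q ∂P := by
    have h1 := le_trans hM' hcmp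
    have h2 : (lam / Y) ^ q * (Y / lam) ^ q = 1 := by
      rw [← Real.mul_rpow (by positivity) (by positivity)]
      have : lam / Y * (Y / lam) = 1 := by field_simp
      rw [this, Real.one_rpow]
    have h3 : 0 ≤ (lam / Y) ^ q := by positivity
    calc c * (lam / Y) ^ q ≤ ((Y / lam) ^ q * ∫ ω : Om, (JF γ (PrS p0 y) σ ω / Y) ^ q ∂P) *
          (lam / Y) ^ q := mul_le_mul_of_nonneg_right h1 h3
      _ = ((lam / Y) ^ q * (Y / lam) ^ q) * ∫ ω : Om, (JF γ (PrS p0 y) σ ω / Y) ^ q ∂P := by ring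
      _ = _ := by rw [h2, one_mul]
  refine le_trans (le_of_eq ?_) hfin
  have e1 : lam / Y = c1 * Y ^ (2 * α - 2) * LL ^ (-(3 * α / 2)) := by
    rw [hlam]
    have : Y ^ (2 * α - 1) = Y ^ (2 * α - 2) * Y := by
      rw [← Real.rpow_add_one hY0.ne']; congr 1; ring
    rw [this]; field_simp
  rw [e1, Real.mul_rpow (mul_nonneg hc1p.le (Real.rpow_nonneg hY0.le _))
    (Real.rpow_nonneg hLL0.le _), Real.mul_rpow (x := c1) hc1p.le (Real.rpow_nonneg hY0.le _),
    ← Real.rpow_mul hY0.le, ← Real.rpow_mul hLL0.le]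
  have e2 : (2 * α - 2) * q = p * (α - 1) := by rw [hq]; ring
  have e3 : -(3 * α / 2) * q = -(3 * α * p / 4) := by rw [hq]; ring
  rw [e2, e3]
  ring

end PN
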