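import Pool.Agent.H24.PN.Stmts

/-! Module CMS: shift of a Gaussian vector. -/

namespace PN
open MeasureTheory Complex ProbabilityTheory PM

/-- one factor of the density -/
noncomputable def cmsd (v x : ℝ) : ENNReal := ENNReal.ofReal (Real.exp (-(v * x) - v ^ 2 / 2))

theorem cmsd_meas (v : ℝ) : Measurable (cmsd v) := by unfold cmsd; fun_prop

theorem cmsd_set (v : ℝ) {t : Set ℝ} (ht : MeasurableSet t) :
    ∫⁻ x, t.indicator (cmsd v) x ∂(gaussianReal 0 1) = gaussianReal (-v) 1 t := by
  rw [lintegral_indicator ht, gaussianReal_apply (-v) one_ne_zero t,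
    gaussianReal_of_var_ne_zero 0 (one_ne_zero : (1 : NNReal) ≠ 0), restrict_withDensity ht,
    lintegral_withDensity_eq_lintegral_mul _ (measurable_gaussianPDF _ _) (cmsd_meas v)]
  refine lintegral_congr fun x => ?_
  simp only [Pi.mul_apply, gaussianPDF, cmsd, gaussianPDFReal_def]
  rw [← ENNReal.ofReal_mul (by positivity)]
  congr 1
  rw [mul_assoc, ← Real.exp_add]
  congr 2
  simp
  ring

theorem cms_pi (κ : Type) [Fintype κ] (a : κ → ℝ) :
    (Ga κ).withDensity (fun g => ∏ k, cmsd (a k) (g k)) =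
      Measure.pi (fun k => gaussianReal (-(a k)) 1) := by
  symm
  refine Measure.pi_eq fun t ht => ?_
  have hm : MeasurableSet (Set.univ.pi t) := MeasurableSet.univ_pi ht
  rw [withDensity_apply _ hm, ← lintegral_indicator hm]
  have e1 : ∀ g : κ → ℝ, (Set.univ.pi t).indicator (fun g => ∏ k, cmsd (a k) (g k)) g =
      ∏ k, (t k).indicator (cmsd (a k)) (g k) := by
    intro g
    by_cases hg : g ∈ Set.univ.pi t
    · rw [Set.indicator_of_mem hg]
      refine Finset.prod_congr rfl fun k _ => ?_
      rw [Set.indicator_of_mem (hg k (Set.mem_univ k))]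
    · rw [Set.indicator_of_notMem hg]
      simp only [Set.mem_pi, Set.mem_univ, true_implies, not_forall] at hg
      obtain ⟨k, hk⟩ := hg
      rw [Finset.prod_eq_zero (Finset.mem_univ k)]
      rw [Set.indicator_of_notMem hk]
  simp_rw [e1]
  have hind : iIndepFun (fun (k : κ) (g : κ → ℝ) => (t k).indicator (cmsd (a k)) (g k)) (Ga κ) := by
    unfold Ga
    exact iIndepFun_pi (μ := fun _ : κ => gaussianReal 0 1)
      (X := fun k => (t k).indicator (cmsd (a k)))
      (fun k => ((cmsd_meas (a k)).indicator (ht k)).aemeasurable)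
  have h2 := lintegral_prod_eq_prod_lintegral_of_indepFun Finset.univ
    (fun (k : κ) (g : κ → ℝ) => (t k).indicator (cmsd (a k)) (g k)) hind
    (fun k => ((cmsd_meas (a k)).indicator (ht k)).comp (measurable_pi_apply k))
  rw [h2]
  refine Finset.prod_congr rfl fun k _ => ?_
  have hmp : MeasurePreserving (Function.eval k) (Ga κ) (gaussianReal 0 1) :=
    measurePreserving_eval (fun _ : κ => gaussianReal 0 1) k
  have h3 := hmp.lintegral_comp ((cmsd_meas (a k)).indicator (ht k))
  rw [cmsd_set (a k) (ht k)] at h3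
  exact h3

theorem cms_shift (κ : Type) [Fintype κ] (a : κ → ℝ) :
    (Measure.pi (fun k => gaussianReal (-(a k)) 1)).map (fun g : κ → ℝ => g + a) = Ga κ := by
  have h := Measure.pi_map_pi (μ := fun k : κ => gaussianReal (-(a k)) 1)
    (f := fun k (x : ℝ) => x + a k) (fun k => (by fun_prop : Measurable fun x : ℝ => x + a k).aemeasurable)
  have h2 : (fun g : κ → ℝ => g + a) = (fun g k => g k + a k) := rfl
  rw [h2, h]
  unfold Ga
  congr 1
  funext k
  rw [gaussianReal_map_add_const]
  simp

theorem CMS : S_CMS := by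
  intro κ _ a h hh
  have h1 : ∫⁻ g : κ → ℝ, h g ∂Ga κ =
      ∫⁻ g : κ → ℝ, h (g + a) ∂Measure.pi (fun k => gaussianReal (-(a k)) 1) := by
    conv_lhs => rw [← cms_shift κ a]
    rw [lintegral_map hh (measurable_add_const a)]
  rw [h1, ← cms_pi κ a]
  have hd : Measurable (fun g : κ → ℝ => ∏ k, cmsd (a k) (g k)) :=
    Finset.measurable_fun_prod _ fun k _ => (cmsd_meas (a k)).comp (measurable_pi_apply k)
  have hha : Measurable (fun g : κ → ℝ => h (g + a)) := hh.comp (measurable_add_const a)
  rw [lintegral_withDensity_eq_lintegral_mul _ hd hha]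
  refine lintegral_congr fun g => ?_
  simp only [Pi.mul_apply, Function.comp_apply]
  rw [mul_comm]
  congr 1
  unfold cmsd
  rw [← ENNReal.ofReal_prod_of_nonneg (fun k _ => (Real.exp_pos _).le), ← Real.exp_sum]
  congr 2
  rw [Finset.sum_sub_distrib, Finset.sum_neg_distrib, Finset.sum_div]

end PN
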