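import Pool.Agent.H24.PN.Stmts

/-! Module COV: covariance of the Gaussian coefficients of the prime field. -/

namespace PN
open MeasureTheory Complex ProbabilityTheory PM

theorem cov_w (l : ℕ) (hl : 0 < l) (σ t : ℝ) :
    ((l : ℂ) ^ (-(1 / 2 + σ + t * I) : ℂ)).re =
        (l : ℝ) ^ (-(1 / 2 + σ)) * Real.cos (t * Real.log l) ∧
      ((l : ℂ) ^ (-(1 / 2 + σ + t * I) : ℂ)).im =
        -((l : ℝ) ^ (-(1 / 2 + σ)) * Real.sin (t * Real.log l)) := by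
  have hl0 : (l : ℂ) ≠ 0 := by exact_mod_cast hl.ne'
  have hlr : (0 : ℝ) < l := by exact_mod_cast hl
  have hlog : Complex.log (l : ℂ) = ((Real.log l : ℝ) : ℂ) := by
    rw [Complex.ofReal_log hlr.le]
    simp
  have hexp : (l : ℂ) ^ (-(1 / 2 + σ + t * I) : ℂ) =
      (((l : ℝ) ^ (-(1 / 2 + σ)) : ℝ) : ℂ) * Complex.exp (((-(t * Real.log l) : ℝ) : ℂ) * I) := by
    rw [Complex.cpow_def_of_ne_zero hl0, hlog, Real.rpow_def_of_pos hlr]
    rw [Complex.ofReal_exp, ← Complex.exp_add]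
    congr 1
    push_cast
    ring
  rw [hexp]
  constructor
  · rw [Complex.re_ofReal_mul, Complex.exp_ofReal_mul_I_re, Real.cos_neg]
  · rw [Complex.im_ofReal_mul, Complex.exp_ofReal_mul_I_im, Real.sin_neg, mul_neg]

theorem COV : S_COV := by
  intro γ A σ hA ι t i j
  unfold CS
  rw [Fintype.sum_prod_type, Finset.mul_sum]
  rw [← Finset.sum_coe_sort A (fun l : ℕ => 2 * (al γ) ^ 2 *
    ((l : ℝ) ^ (-(1 + 2 * σ)) * Real.cos ((t i - t j) * Real.log l)))]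
  refine Finset.sum_congr rfl fun l _ => ?_
  have hl : 0 < (l : ℕ) := (hA l l.2).pos
  have hlr : (0 : ℝ) < (l : ℕ) := by exact_mod_cast hl
  obtain ⟨h1, h2⟩ := cov_w (l : ℕ) hl σ (t i)
  obtain ⟨h3, h4⟩ := cov_w (l : ℕ) hl σ (t j)
  simp only [Fin.sum_univ_two, aP]
  simp only [if_true, one_ne_zero, if_false]
  rw [h1, h2, h3, h4]
  have hp : ((l : ℕ) : ℝ) ^ (-(1 + 2 * σ)) =
      ((l : ℕ) : ℝ) ^ (-(1 / 2 + σ)) * ((l : ℕ) : ℝ) ^ (-(1 / 2 + σ)) := by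
    rw [← Real.rpow_add hlr]
    congr 1
    ring
  rw [hp, sub_mul, Real.cos_sub]
  have h5 : Real.sqrt 2 * Real.sqrt 2 = 2 := Real.mul_self_sqrt (by norm_num)
  linear_combination ((al γ) ^ 2 * (((l : ℕ) : ℝ) ^ (-(1 / 2 + σ))) ^ 2 *
    (Real.cos (t i * Real.log (l : ℕ)) * Real.cos (t j * Real.log (l : ℕ)) +
      Real.sin (t i * Real.log (l : ℕ)) * Real.sin (t j * Real.log (l : ℕ)))) * h5

end PN
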