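import Pool.Agent.H24.PN.Stmts

/-! Project PM, part 2, module CVB: covariance of the branching random walk. -/

namespace PN
open MeasureTheory Complex ProbabilityTheory PM

theorem cvb_row (be : ℝ) (K : ℕ) (c c' : Fin (2 ^ K)) (r : Fin K) :
    ∑ i : Fin (2 ^ K), mBn be K c r i * mBn be K c' r i =
      if (c : ℕ) / 2 ^ (K - 1 - (r : ℕ)) = (c' : ℕ) / 2 ^ (K - 1 - (r : ℕ)) then be ^ 2 * vv
      else 0 := by
  have hsv : sv * sv = vv := by
    unfold sv vv
    exact Real.mul_self_sqrt (Real.log_nonneg (by norm_num))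
  have hlt : (c : ℕ) / 2 ^ (K - 1 - (r : ℕ)) < 2 ^ K :=
    lt_of_le_of_lt (Nat.div_le_self _ _) c.2
  rw [Finset.sum_eq_single (⟨(c : ℕ) / 2 ^ (K - 1 - (r : ℕ)), hlt⟩ : Fin (2 ^ K))]
  · unfold mBn
    rw [if_pos ⟨r.2, rfl⟩]
    by_cases h : (c : ℕ) / 2 ^ (K - 1 - (r : ℕ)) = (c' : ℕ) / 2 ^ (K - 1 - (r : ℕ))
    · rw [if_pos ⟨r.2, h⟩, if_pos h]
      linear_combination be ^ 2 * hsv
    · rw [if_neg (fun h' => h h'.2), if_neg h, mul_zero]
  · intro i _ hi
    unfold mBn
    rw [if_neg, zero_mul]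
    rintro ⟨-, h⟩
    exact hi (Fin.ext h)
  · intro h
    exact absurd (Finset.mem_univ _) h

theorem cvb_sum (be : ℝ) (K : ℕ) (c c' : Fin (2 ^ K)) :
    ∑ k, mB be K c k * mB be K c' k = be ^ 2 * vv *
      ((Finset.univ.filter (fun r : Fin K => (c : ℕ) / 2 ^ (K - 1 - (r : ℕ)) =
        (c' : ℕ) / 2 ^ (K - 1 - (r : ℕ)))).card : ℝ) := by
  rw [Fintype.sum_prod_type]
  have h : ∀ r : Fin K, ∑ i : Fin (2 ^ K), mB be K c (r, i) * mB be K c' (r, i) =
      if (c : ℕ) / 2 ^ (K - 1 - (r : ℕ)) = (c' : ℕ) / 2 ^ (K - 1 - (r : ℕ)) then be ^ 2 * vv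
      else 0 := fun r => cvb_row be K c c' r
  rw [Finset.sum_congr rfl (fun r _ => h r), ← Finset.sum_filter, Finset.sum_const, nsmul_eq_mul]
  ring

theorem CVB : S_CVB := by
  intro be K
  constructor
  · intro c c'
    rw [cvb_sum]
    set S := Finset.univ.filter (fun r : Fin K => (c : ℕ) / 2 ^ (K - 1 - (r : ℕ)) =
        (c' : ℕ) / 2 ^ (K - 1 - (r : ℕ))) with hS
    have hcard : S.card ≤ K := by
      calc S.card ≤ (Finset.univ : Finset (Fin K)).card := Finset.card_le_card (Finset.subset_univ _)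
        _ = K := by simp
    have key : dl c c' ≤ 2 ^ (K - S.card) := by
      unfold dl
      apply max_le (one_le_pow₀ (by norm_num))
      rcases S.eq_empty_or_nonempty with h | h
      · rw [h, Finset.card_empty, Nat.sub_zero]
        have h1 : ((c : ℕ) : ℝ) < 2 ^ K := by exact_mod_cast c.2
        have h2 : ((c' : ℕ) : ℝ) < 2 ^ K := by exact_mod_cast c'.2
        have h3 : (0 : ℝ) ≤ ((c : ℕ) : ℝ) := Nat.cast_nonneg _
        have h4 : (0 : ℝ) ≤ ((c' : ℕ) : ℝ) := Nat.cast_nonneg _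
        rw [abs_le]
        constructor <;> linarith
      · obtain ⟨r, hr, hmax⟩ := S.exists_max_image (fun r => (r : ℕ)) h
        have hcd : S.card ≤ (r : ℕ) + 1 := by
          have hsub : S.image (fun r : Fin K => (r : ℕ)) ⊆ Finset.range ((r : ℕ) + 1) := by
            intro s hs
            rw [Finset.mem_image] at hs
            obtain ⟨r', hr', rfl⟩ := hs
            rw [Finset.mem_range]
            have := hmax r' hr'
            omega
          have h1 := Finset.card_le_card hsub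
          rw [Finset.card_range, Finset.card_image_of_injective _ Fin.val_injective] at h1
          exact h1
        have hr2 := r.2
        have he : (c : ℕ) / 2 ^ (K - 1 - (r : ℕ)) = (c' : ℕ) / 2 ^ (K - 1 - (r : ℕ)) := by
          rw [hS, Finset.mem_filter] at hr
          exact hr.2
        have hle : 2 ^ (K - 1 - (r : ℕ)) ≤ 2 ^ (K - S.card) :=
          Nat.pow_le_pow_right (by norm_num) (by omega)
        have hpos : 0 < 2 ^ (K - 1 - (r : ℕ)) := by positivity
        have h1 := Nat.div_add_mod (c : ℕ) (2 ^ (K - 1 - (r : ℕ)))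
        have h2 := Nat.div_add_mod (c' : ℕ) (2 ^ (K - 1 - (r : ℕ)))
        have h3 := Nat.mod_lt (c : ℕ) hpos
        have h4 := Nat.mod_lt (c' : ℕ) hpos
        rw [he] at h1
        have h5 : (c : ℕ) ≤ (c' : ℕ) + 2 ^ (K - S.card) := by omega
        have h6 : (c' : ℕ) ≤ (c : ℕ) + 2 ^ (K - S.card) := by omega
        have h5' : ((c : ℕ) : ℝ) ≤ ((c' : ℕ) : ℝ) + 2 ^ (K - S.card) := by exact_mod_cast h5
        have h6' : ((c' : ℕ) : ℝ) ≤ ((c : ℕ) : ℝ) + 2 ^ (K - S.card) := by exact_mod_cast h6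
        rw [abs_le]
        constructor <;> linarith
    have hdl : 0 < dl c c' := lt_of_lt_of_le one_pos (le_max_left _ _)
    have hlog := Real.log_le_log hdl key
    rw [Real.log_pow, Nat.cast_sub hcard] at hlog
    have hb := sq_nonneg be
    have h1 : vv * (S.card : ℝ) ≤ (K : ℝ) * vv - Real.log (dl c c') := by
      unfold vv
      nlinarith
    calc be ^ 2 * vv * (S.card : ℝ) = be ^ 2 * (vv * (S.card : ℝ)) := by ring
      _ ≤ be ^ 2 * ((K : ℝ) * vv - Real.log (dl c c')) := mul_le_mul_of_nonneg_left h1 hb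
  · intro c
    have h : ∀ k, mB be K c k ^ 2 = mB be K c k * mB be K c k := fun k => sq _
    rw [Finset.sum_congr rfl (fun k _ => h k), cvb_sum, Finset.filter_true_of_mem]
    · rw [Finset.card_univ, Fintype.card_fin]
      ring
    · intro r _
      rfl

end PN
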