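import Pool.Agent.H24.PN.DLWa

/-! Module DLW of project PM part 2: lower bound for gamma = 1, p < 1. -/

namespace PN
open MeasureTheory Complex ProbabilityTheory PM PM.T31

theorem dlw_mom (hCONT : S_CONT) (hM1 : S_M1) (hDSM : S_DSM) (p0 : ℕ) (hg : Good 1 p0) :
    ∃ cR CD C1 : ℝ, 0 < cR ∧ 0 < CD ∧ 0 < C1 ∧ ∀ (u σ U : ℝ) (n b0 B : ℕ),
    (p0 : ℝ) + 1 ≤ u → Real.log u = U → 0 < σ → σ ≤ 1 → σ * U ≤ 8 → 1 ≤ U → 1 ≤ b0 →
    Real.exp n ≤ dsb U b0 0 → dsb U b0 B ≤ Real.exp ((2 * n : ℕ) : ℝ) → Real.log U ≤ n →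
    cR * U * (Real.log ((b0 : ℝ) + B) - Real.log b0) ≤
      ∫ ω, (∑ b ∈ Finset.range B, ∫ t in Set.Ioc (dsb U b0 b) (dsb U b0 b + 1 / U),
        ‖F 1 (PrS p0 u) σ t ω‖ / max 1 |t|) ∂P ∧
    ∫ ω, (∑ b ∈ Finset.range B, ∫ t in Set.Ioc (dsb U b0 b) (dsb U b0 b + 1 / U),
        ‖F 1 (PrS p0 u) σ t ω‖ / max 1 |t|) ^ 2 ∂P ≤ CD * (n : ℝ) ^ 2 * U ^ 2 ∧
    ∫ ω, (∑ b ∈ Finset.range B, ∫ t in Set.Ioc (dsb U b0 b) (dsb U b0 b + 1 / U),
        ‖F 1 (PrS p0 u) σ t ω‖ ^ 2 / (σ ^ 2 + t ^ 2)) ∂P ≤ C1 * U ^ 4 * Real.exp (-(n : ℝ)) := by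
  obtain ⟨c1, C1, hc1, hC1, hM⟩ := hM1 1 p0 hg 2
  obtain ⟨CD, hCD, hD⟩ := hDSM p0 hg
  have hp0' : 4 * Real.exp 16 ≤ (p0 : ℝ) := hg.1
  have he16 := Real.exp_pos 16
  have hp00 : 0 < (p0 : ℝ) := by linarith
  have hL16 : 16 < Real.log p0 := by
    rw [Real.lt_log_iff_exp_lt hp00]
    linarith
  obtain ⟨L0, hL0e⟩ : ∃ l : ℝ, l = Real.log p0 := ⟨_, rfl⟩
  rw [← hL0e] at hL16
  have hL0 : 0 < L0 := by linarith
  refine ⟨c1 / (3 * L0), CD, C1, by positivity, hCD, hC1, ?_⟩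
  intro u σ U n b0 B hu hlu hσ0 hσ1 hσU hU1 hb0 hlow hupp hLn
  have hU0 : 0 < U := by linarith
  have hu0 : 0 < u := by linarith
  have hprime : ∀ l ∈ PrS p0 u, l.Prime := fun l hl => (mem_prs hl hu0.le).1
  have hFc := F_cont hCONT 1 (PrS p0 u) hprime (σ := σ) (by linarith)
  have hd : ∀ t : ℝ, 0 < σ ^ 2 + t ^ 2 := fun t => by positivity
  have hmax : ∀ t : ℝ, 0 < max 1 |t| := fun t => lt_of_lt_of_le one_pos (le_max_left _ _)
  obtain ⟨g, hgd⟩ : ∃ g : Om → ℝ → ℝ, g = fun ω t => ‖F 1 (PrS p0 u) σ t ω‖ / max 1 |t| :=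
    ⟨_, rfl⟩
  obtain ⟨w, hwd⟩ : ∃ w : Om → ℝ → ℝ, w = fun ω t => ‖F 1 (PrS p0 u) σ t ω‖ ^ 2 /
    (σ ^ 2 + t ^ 2) := ⟨_, rfl⟩
  have hgc : Continuous (fun q : Om × ℝ => g q.1 q.2) := by
    rw [hgd]
    exact hFc.norm.div (by fun_prop) (fun q => (hmax q.2).ne')
  have hwc : Continuous (fun q : Om × ℝ => w q.1 q.2) := by
    rw [hwd]
    exact (hFc.norm.pow 2).div (by fun_prop) (fun q => (hd q.2).ne')
  have hg0 : ∀ ω t, 0 ≤ g ω t := fun ω t => by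
    rw [hgd]; have := hmax t; positivity
  have hslice : ∀ {h : Om → ℝ → ℝ}, Continuous (fun q : Om × ℝ => h q.1 q.2) → ∀ ω,
      Continuous (h ω) := by
    intro h hc ω
    have k0 : Continuous (fun t : ℝ => ((ω, t) : Om × ℝ)) := by fun_prop
    exact hc.comp k0
  have hFt : ∀ t : ℝ, Continuous (fun ω : Om => ‖F 1 (PrS p0 u) σ t ω‖) := by
    intro t
    have k0 : Continuous (fun ω : Om => ((ω, t) : Om × ℝ)) := by fun_prop
    exact (hFc.comp k0).norm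
  have hdsb : ∀ b : ℕ, Real.exp n ≤ dsb U b0 b := by
    intro b
    refine hlow.trans ?_
    unfold dsb
    have : (0 : ℝ) ≤ b := Nat.cast_nonneg b
    refine div_le_div_of_nonneg_right ?_ hU0.le
    push_cast
    linarith
  have hen : 1 ≤ Real.exp (n : ℝ) := Real.one_le_exp (Nat.cast_nonneg n)
  have hUL : U / L0 ≤ U := by rw [div_le_iff₀ hL0]; nlinarith
  have hb0' : (1 : ℝ) ≤ b0 := by exact_mod_cast hb0
  have h1U : 0 < 1 / U := by positivity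
  have hσa : |σ| * Real.log u ≤ 8 := by rw [abs_of_pos hσ0, hlu]; exact hσU
  refine ⟨?_, ?_, ?_⟩
  · -- first moment
    have e1 : ∫ ω, (∑ b ∈ Finset.range B, ∫ t in Set.Ioc (dsb U b0 b) (dsb U b0 b + 1 / U),
        ‖F 1 (PrS p0 u) σ t ω‖ / max 1 |t|) ∂P =
        ∑ b ∈ Finset.range B, ∫ t in Set.Ioc (dsb U b0 b) (dsb U b0 b + 1 / U),
          ∫ ω, g ω t ∂P := by
      have e2 : ∀ ω, ∑ b ∈ Finset.range B, ∫ t in Set.Ioc (dsb U b0 b) (dsb U b0 b + 1 / U),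
        ‖F 1 (PrS p0 u) σ t ω‖ / max 1 |t| = ∑ b ∈ Finset.range B,
          ∫ t in Set.Ioc (dsb U b0 b) (dsb U b0 b + 1 / U), g ω t := fun ω => by rw [hgd]
      simp_rw [e2]
      rw [integral_finsetSum _ (fun b _ => dlw_cont_int (dlw_cint hgc _ _))]
      exact Finset.sum_congr rfl fun b _ => dlw_swap hgc _ _
    rw [e1]
    have h1 := dlw_log_sum b0 hb0 B
    have h2 : c1 / (3 * L0) * U * (Real.log ((b0 : ℝ) + B) - Real.log b0) =
        c1 * (U / L0) * (1 / 3 * (Real.log ((b0 : ℝ) + B) - Real.log b0)) := by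
      field_simp
    rw [h2]
    refine (mul_le_mul_of_nonneg_left h1 (by positivity)).trans ?_
    rw [Finset.mul_sum]
    refine Finset.sum_le_sum fun b _ => ?_
    have hb : (0 : ℝ) ≤ b := Nat.cast_nonneg b
    have hle : dsb U b0 b ≤ dsb U b0 b + 1 / U := by linarith
    have hpt : ∀ t ∈ Set.Ioc (dsb U b0 b) (dsb U b0 b + 1 / U),
        c1 * (U / L0) / (dsb U b0 b + 1 / U) ≤ ∫ ω, g ω t ∂P := by
      intro t ht
      have ht1 : 1 ≤ t := (hen.trans (hdsb b)).trans ht.1.le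
      have hmt : max 1 |t| = t := by
        rw [abs_of_pos (by linarith), max_eq_right ht1]
      rw [hgd]
      simp only
      rw [integral_div, hmt]
      have h3 := (hM p0 u σ t 1 le_rfl (by linarith) hσa zero_le_one (by norm_num)).1
      simp only [Real.rpow_one] at h3
      rw [hlu, ← hL0e] at h3
      have h4 : (al 1) ^ 2 * 1 ^ 2 / 4 = (1 : ℝ) := by rw [dlw_al]; norm_num
      rw [h4, Real.rpow_one] at h3
      have hA0 : 0 ≤ c1 * (U / L0) := by positivity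
      calc c1 * (U / L0) / (dsb U b0 b + 1 / U) ≤ c1 * (U / L0) / t :=
            div_le_div_of_nonneg_left hA0 (by linarith) ht.2
        _ ≤ _ := div_le_div_of_nonneg_right h3 (by linarith)
    have hci : ContinuousOn (fun t => ∫ ω, g ω t ∂P) Set.univ := by
      have hc2 : Continuous (fun q : ℝ × Om => g q.2 q.1) := hgc.comp continuous_swap
      have := continuous_parametric_integral_of_continuous (f := fun (t : ℝ) (ω : Om) => g ω t)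
        hc2 (isCompact_univ (X := Om)) (μ := P)
      simpa only [Measure.restrict_univ, continuousOn_univ] using this
    rw [continuousOn_univ] at hci
    have h5 : ∫ _ in Set.Ioc (dsb U b0 b) (dsb U b0 b + 1 / U),
        c1 * (U / L0) / (dsb U b0 b + 1 / U) ≤
        ∫ t in Set.Ioc (dsb U b0 b) (dsb U b0 b + 1 / U), ∫ ω, g ω t ∂P := by
      refine setIntegral_mono_on (integrable_const _) ?_ measurableSet_Ioc hpt
      exact (hci.integrableOn_Icc).mono_set Set.Ioc_subset_Icc_self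
    refine le_trans (le_of_eq ?_) h5
    rw [setIntegral_const, smul_eq_mul]
    unfold Measure.real
    rw [Real.volume_Ioc, ENNReal.toReal_ofReal (by linarith)]
    unfold dsb
    field_simp
    ring
  · -- second moment
    obtain ⟨X, hX⟩ : ∃ X : ℕ → Om → ℝ, X = fun k ω =>
      ∫ t in Set.Ioc (Real.exp ((n + k : ℕ) : ℝ)) (Real.exp (((n + k : ℕ) : ℝ) + 1)), g ω t :=
      ⟨_, rfl⟩
    have hXc : ∀ k, Continuous (X k) := fun k => by rw [hX]; exact dlw_cint hgc _ _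
    have hR : ∀ ω, ∑ b ∈ Finset.range B, ∫ t in Set.Ioc (dsb U b0 b) (dsb U b0 b + 1 / U),
        ‖F 1 (PrS p0 u) σ t ω‖ / max 1 |t| ≤ ∑ k ∈ Finset.range n, X k ω := by
      intro ω
      have h1 := dlw_blocks_le (hslice hgc ω) (hg0 ω) hU0 b0 B
      have h2 := dlw_windows (hslice hgc ω) n
      have h3 : ∫ t in (dsb U b0 0)..(dsb U b0 B), g ω t ≤
          ∫ t in (Real.exp (n : ℝ))..(Real.exp ((2 * n : ℕ) : ℝ)), g ω t := by
        refine intervalIntegral.integral_mono_interval hlow ?_ hupp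
          (Filter.Eventually.of_forall (hg0 ω)) ((hslice hgc ω).intervalIntegrable _ _)
        unfold dsb
        refine div_le_div_of_nonneg_right ?_ hU0.le
        have : (0 : ℝ) ≤ B := Nat.cast_nonneg B
        push_cast
        linarith
      rw [h2] at h3
      have h4 := h1.trans h3
      rw [hX]
      rw [hgd] at h4 ⊢
      exact h4
    have hR0 : ∀ ω, 0 ≤ ∑ b ∈ Finset.range B,
        ∫ t in Set.Ioc (dsb U b0 b) (dsb U b0 b + 1 / U),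
        ‖F 1 (PrS p0 u) σ t ω‖ / max 1 |t| := by
      intro ω
      refine Finset.sum_nonneg fun b _ => integral_nonneg fun t => ?_
      have := hmax t
      positivity
    have h5 : ∫ ω, (∑ b ∈ Finset.range B, ∫ t in Set.Ioc (dsb U b0 b) (dsb U b0 b + 1 / U),
        ‖F 1 (PrS p0 u) σ t ω‖ / max 1 |t|) ^ 2 ∂P ≤
        ∫ ω, ∑ k ∈ Finset.range n, ∑ k' ∈ Finset.range n, X k ω * X k' ω ∂P := by
      refine integral_mono_of_nonneg (Filter.Eventually.of_forall fun ω => sq_nonneg _)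
        (dlw_cont_int (continuous_finsetSum _ fun k _ => continuous_finsetSum _ fun k' _ =>
          (hXc k).mul (hXc k'))) (Filter.Eventually.of_forall fun ω => ?_)
      simp only
      rw [← Finset.sum_mul_sum, ← sq]
      exact pow_le_pow_left₀ (hR0 ω) (hR ω) 2
    refine h5.trans ?_
    have hXX : ∀ k k', Continuous (fun ω => X k ω * X k' ω) := fun k k' => (hXc k).mul (hXc k')
    have hXs : ∀ k, Continuous (fun ω => ∑ k' ∈ Finset.range n, X k ω * X k' ω) := fun k =>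
      continuous_finsetSum _ fun k' _ => hXX k k'
    rw [integral_finsetSum _ (fun k _ => dlw_cont_int (hXs k))]
    have h6 : ∀ k ∈ Finset.range n, ∀ k' ∈ Finset.range n, ∫ ω, X k ω * X k' ω ∂P ≤
        CD * U ^ 2 := by
      intro k _ k' _
      rw [hX]
      simp only
      rw [dlw_mulint hgc]
      have h7 := hD u σ (n + k) (n + k') hu hσa (by
        rw [hlu]; push_cast; have : (0 : ℝ) ≤ k := Nat.cast_nonneg k; linarith) (by
        rw [hlu]; push_cast; have : (0 : ℝ) ≤ k' := Nat.cast_nonneg k'; linarith)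
      rw [hlu] at h7
      refine le_trans (le_of_eq ?_) h7
      have hone : ∀ (k : ℕ) (t : ℝ), t ∈ Set.Ioc (Real.exp ((n + k : ℕ) : ℝ))
          (Real.exp (((n + k : ℕ) : ℝ) + 1)) → max 1 |t| = t := by
        intro k t ht
        have h8 : 1 ≤ Real.exp ((n + k : ℕ) : ℝ) := Real.one_le_exp (Nat.cast_nonneg _)
        have h9 : 1 ≤ t := h8.trans ht.1.le
        rw [abs_of_pos (by linarith), max_eq_right h9]
      refine setIntegral_congr_fun measurableSet_Ioc fun t ht => ?_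
      refine setIntegral_congr_fun measurableSet_Ioc fun t' ht' => ?_
      rw [← integral_div]
      refine integral_congr_ae (Filter.Eventually.of_forall fun ω => ?_)
      rw [hgd]
      simp only
      rw [hone k t ht, hone k' t' ht', div_mul_div_comm]
    have h7 : ∀ k ∈ Finset.range n, ∫ ω, ∑ k' ∈ Finset.range n, X k ω * X k' ω ∂P ≤
        n * (CD * U ^ 2) := by
      intro k hk
      rw [integral_finsetSum _ (fun k' _ => dlw_cont_int (hXX k k'))]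
      refine (Finset.sum_le_card_nsmul _ _ _ (h6 k hk)).trans (le_of_eq ?_)
      rw [Finset.card_range, nsmul_eq_mul]
    refine (Finset.sum_le_card_nsmul _ _ _ h7).trans (le_of_eq ?_)
    rw [Finset.card_range, nsmul_eq_mul]
    ring
  · -- mean of the mass
    have e1 : ∫ ω, (∑ b ∈ Finset.range B, ∫ t in Set.Ioc (dsb U b0 b) (dsb U b0 b + 1 / U),
        ‖F 1 (PrS p0 u) σ t ω‖ ^ 2 / (σ ^ 2 + t ^ 2)) ∂P =
        ∑ b ∈ Finset.range B, ∫ t in Set.Ioc (dsb U b0 b) (dsb U b0 b + 1 / U),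
          ∫ ω, w ω t ∂P := by
      have e2 : ∀ ω, ∑ b ∈ Finset.range B, ∫ t in Set.Ioc (dsb U b0 b) (dsb U b0 b + 1 / U),
        ‖F 1 (PrS p0 u) σ t ω‖ ^ 2 / (σ ^ 2 + t ^ 2) = ∑ b ∈ Finset.range B,
          ∫ t in Set.Ioc (dsb U b0 b) (dsb U b0 b + 1 / U), w ω t := fun ω => by rw [hwd]
      simp_rw [e2]
      rw [integral_finsetSum _ (fun b _ => dlw_cont_int (dlw_cint hwc _ _))]
      exact Finset.sum_congr rfl fun b _ => dlw_swap hwc _ _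
    rw [e1]
    have h1 := dlw_sq_sum b0 hb0 B
    have hterm : ∀ b ∈ Finset.range B, ∫ t in Set.Ioc (dsb U b0 b) (dsb U b0 b + 1 / U),
        ∫ ω, w ω t ∂P ≤ C1 * U ^ 4 * (U / 4) * (1 / ((b0 : ℝ) + b) ^ 2) := by
      intro b _
      have hb : (0 : ℝ) ≤ b := Nat.cast_nonneg b
      have hds0 : 0 < dsb U b0 b := by unfold dsb; positivity
      have hpt : ∀ t ∈ Set.Ioc (dsb U b0 b) (dsb U b0 b + 1 / U),
          ∫ ω, w ω t ∂P ≤ C1 * U ^ 4 / (dsb U b0 b) ^ 2 := by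
        intro t ht
        rw [hwd]
        simp only
        rw [integral_div]
        have h3 := (hM p0 u σ t 2 le_rfl (by linarith) hσa zero_le_two le_rfl).2
        simp only [Real.rpow_two] at h3
        rw [hlu, ← hL0e] at h3
        have h4 : (al 1) ^ 2 * 2 ^ 2 / 4 = ((4 : ℕ) : ℝ) := by rw [dlw_al]; norm_num
        rw [h4, Real.rpow_natCast] at h3
        have h5 : (U / L0) ^ 4 ≤ U ^ 4 := pow_le_pow_left₀ (by positivity) hUL 4
        have h6 : ∫ ω, ‖F 1 (PrS p0 u) σ t ω‖ ^ 2 ∂P ≤ C1 * U ^ 4 :=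
          h3.trans (mul_le_mul_of_nonneg_left h5 hC1.le)
        have h7 : (dsb U b0 b) ^ 2 ≤ σ ^ 2 + t ^ 2 := by
          have := pow_le_pow_left₀ hds0.le ht.1.le 2
          nlinarith [sq_nonneg σ]
        calc (∫ ω, ‖F 1 (PrS p0 u) σ t ω‖ ^ 2 ∂P) / (σ ^ 2 + t ^ 2) ≤
              C1 * U ^ 4 / (σ ^ 2 + t ^ 2) := div_le_div_of_nonneg_right h6 (hd t).le
          _ ≤ _ := div_le_div_of_nonneg_left (by positivity) (by positivity) h7
      have h5 : ∫ t in Set.Ioc (dsb U b0 b) (dsb U b0 b + 1 / U), ∫ ω, w ω t ∂P ≤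
          ∫ _ in Set.Ioc (dsb U b0 b) (dsb U b0 b + 1 / U), C1 * U ^ 4 / (dsb U b0 b) ^ 2 := by
        refine integral_mono_of_nonneg (Filter.Eventually.of_forall fun t =>
          integral_nonneg fun ω => ?_) (integrable_const _)
          ((ae_restrict_iff' measurableSet_Ioc).2 (Filter.Eventually.of_forall hpt))
        rw [hwd]
        have := hd t
        positivity
      refine h5.trans (le_of_eq ?_)
      rw [setIntegral_const, smul_eq_mul]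
      unfold Measure.real
      rw [Real.volume_Ioc, ENNReal.toReal_ofReal (by linarith)]
      unfold dsb
      field_simp
      norm_num
    refine (Finset.sum_le_sum hterm).trans ?_
    rw [← Finset.mul_sum]
    refine (mul_le_mul_of_nonneg_left h1 (by positivity)).trans ?_
    have h8 : Real.exp n ≤ 2 * (b0 : ℝ) / U := by
      have := hlow
      unfold dsb at this
      simpa using this
    have h9 : U / (2 * b0) ≤ Real.exp (-(n : ℝ)) := by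
      rw [Real.exp_neg, ← one_div, div_le_div_iff₀ (by positivity) (Real.exp_pos _), one_mul]
      rw [le_div_iff₀ hU0] at h8
      linarith
    calc C1 * U ^ 4 * (U / 4) * (2 / (b0 : ℝ)) = C1 * U ^ 4 * (U / (2 * b0)) := by
          field_simp; norm_num
      _ ≤ _ := mul_le_mul_of_nonneg_left h9 (by positivity)

/-- choice of the blocks -/
theorem dlw_choice (n : ℕ) (U : ℝ) (hn : 4 ≤ n) (hU1 : 1 ≤ U) : ∃ b0 B : ℕ, 1 ≤ b0 ∧
    Real.exp n ≤ dsb U b0 0 ∧ dsb U b0 B ≤ Real.exp ((2 * n : ℕ) : ℝ) ∧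
    (n : ℝ) / 2 ≤ Real.log ((b0 : ℝ) + B) - Real.log b0 ∧
    (B : ℝ) ≤ Real.exp ((2 * n : ℕ) : ℝ) * U / 2 := by
  have hU0 : 0 < U := by linarith
  have hn4' : (4 : ℝ) ≤ n := by exact_mod_cast hn
  obtain ⟨E, hE⟩ : ∃ E : ℝ, E = Real.exp n := ⟨_, rfl⟩
  obtain ⟨b0, hb0⟩ : ∃ b0 : ℕ, b0 = ⌈E * U / 2⌉₊ := ⟨_, rfl⟩
  obtain ⟨b1, hb1⟩ : ∃ b1 : ℕ, b1 = ⌊E * E * U / 2⌋₊ := ⟨_, rfl⟩
  have hen4 : 5 ≤ E := by
    rw [hE]
    have := Real.add_one_le_exp (n : ℝ)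
    linarith
  have hE0 : 0 < E := by linarith
  have he2n : Real.exp ((2 * n : ℕ) : ℝ) = E * E := by
    rw [hE, ← Real.exp_add]; congr 1; push_cast; ring
  have hEU : 5 ≤ E * U := by nlinarith
  have hb0l : E * U / 2 ≤ b0 := by rw [hb0]; exact Nat.le_ceil _
  have hb0u : (b0 : ℝ) ≤ E * U := by
    have := (Nat.ceil_lt_add_one (show 0 ≤ E * U / 2 by positivity)).le
    rw [hb0]
    linarith
  have hb0' : (1 : ℝ) ≤ b0 := by linarith
  have hb0pos : 1 ≤ b0 := by exact_mod_cast hb0'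
  have hb1u : (b1 : ℝ) ≤ E * E * U / 2 := by
    rw [hb1]; exact Nat.floor_le (by positivity)
  have hb1l : E * (E * U) / 4 ≤ b1 := by
    have h1 : E * E * U / 2 - 1 ≤ b1 := by
      rw [hb1]; exact (Nat.sub_one_lt_floor _).le
    have h2 : E * E * U = E * (E * U) := by ring
    rw [h2] at h1
    have h3 : 5 * 5 ≤ E * (E * U) := mul_le_mul hen4 hEU (by norm_num) hE0.le
    linarith
  have hEEU : 5 * (E * U) ≤ E * (E * U) := mul_le_mul_of_nonneg_right hen4 (by linarith)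
  have hb01' : (b0 : ℝ) ≤ b1 := by linarith
  have hb01 : b0 ≤ b1 := by exact_mod_cast hb01'
  have hB1 : (b0 : ℝ) + ((b1 - b0 : ℕ) : ℝ) = b1 := by
    rw [Nat.cast_sub hb01]; ring
  have hb1p : (0 : ℝ) < b1 := by linarith
  refine ⟨b0, b1 - b0, hb0pos, ?_, ?_, ?_, ?_⟩
  · rw [← hE]
    unfold dsb
    rw [le_div_iff₀ hU0]
    push_cast
    linarith
  · unfold dsb
    rw [div_le_iff₀ hU0, hB1, he2n]
    linarith
  · rw [hB1, ← Real.log_div hb1p.ne' (by linarith), Real.le_log_iff_exp_le (by positivity),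
      le_div_iff₀ (by linarith)]
    obtain ⟨e, he⟩ : ∃ e : ℝ, e = Real.exp ((n : ℝ) / 2) := ⟨_, rfl⟩
    rw [← he]
    have h1 : e * e = E := by
      rw [he, hE, ← Real.exp_add]; congr 1; ring
    have h2 : 4 ≤ e := by
      have h3 := Real.exp_one_gt_d9
      have h4 : Real.exp 1 * Real.exp 1 ≤ e := by
        rw [he, ← Real.exp_add]
        exact Real.exp_le_exp.2 (by linarith)
      nlinarith
    have h5 : 0 < e := by linarith
    have h6 : e ≤ E / 4 := by rw [← h1]; nlinarith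
    calc e * b0 ≤ e * (E * U) := mul_le_mul_of_nonneg_left hb0u h5.le
      _ ≤ E / 4 * (E * U) := mul_le_mul_of_nonneg_right h6 (by linarith)
      _ = E * (E * U) / 4 := by ring
      _ ≤ b1 := hb1l
  · rw [he2n]
    have h1 : ((b1 - b0 : ℕ) : ℝ) ≤ b1 := by rw [← hB1]; linarith
    linarith

/-- separation of the blocks -/
theorem dlw_sep (n b0 B A0 s0 p0 : ℕ) (U m : ℝ) (hU : U = Real.exp s0)
    (hs0 : s0 = ⌈(A0 : ℝ) * Real.log (Real.sqrt m + 5)⌉₊ + (p0 + 1))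
    (hupp : dsb U b0 B ≤ Real.exp ((2 * n : ℕ) : ℝ)) (hnup : (n : ℝ) ≤ Real.sqrt m / 2)
    (b b' : Fin B) (hbb : b ≠ b') :
    2 / U ≤ |dsb U b0 (b : ℕ) - dsb U b0 (b' : ℕ)| ∧
    (Real.log (|dsb U b0 (b : ℕ) - dsb U b0 (b' : ℕ)| + 4)) ^ A0 ≤ U := by
  have hU0 : 0 < U := by rw [hU]; exact Real.exp_pos _
  have hsm : 0 ≤ Real.sqrt m := Real.sqrt_nonneg m
  have hne : ((b : ℕ) : ℝ) ≠ ((b' : ℕ) : ℝ) := by
    intro h
    apply hbb
    ext
    exact_mod_cast h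
  have hdiff : dsb U b0 (b : ℕ) - dsb U b0 (b' : ℕ) =
      2 * (((b : ℕ) : ℝ) - ((b' : ℕ) : ℝ)) / U := by unfold dsb; ring
  have h1 : (1 : ℝ) ≤ |((b : ℕ) : ℝ) - ((b' : ℕ) : ℝ)| := by
    have h2 : ((b : ℕ) : ℤ) - ((b' : ℕ) : ℤ) ≠ 0 := by
      intro h
      apply hne
      have : ((b : ℕ) : ℤ) = ((b' : ℕ) : ℤ) := by linarith
      exact_mod_cast this
    have h3 := Int.one_le_abs h2
    exact_mod_cast h3
  constructor
  · rw [hdiff, abs_div, abs_mul, abs_of_pos hU0, abs_of_pos (by norm_num : (0 : ℝ) < 2)]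
    refine div_le_div_of_nonneg_right ?_ hU0.le
    linarith
  · have hrange : ∀ c : Fin B, 0 ≤ dsb U b0 (c : ℕ) ∧
        dsb U b0 (c : ℕ) ≤ Real.exp ((2 * n : ℕ) : ℝ) := by
      intro c
      constructor
      · unfold dsb; positivity
      · refine le_trans ?_ hupp
        unfold dsb
        refine div_le_div_of_nonneg_right ?_ hU0.le
        have : ((c : ℕ) : ℝ) ≤ B := by exact_mod_cast c.2.le
        linarith
    obtain ⟨D, hD⟩ : ∃ D : ℝ, D = |dsb U b0 (b : ℕ) - dsb U b0 (b' : ℕ)| := ⟨_, rfl⟩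
    have hD0 : 0 ≤ D := by rw [hD]; exact abs_nonneg _
    have h2 : D ≤ Real.exp ((2 * n : ℕ) : ℝ) := by
      rw [hD, abs_le]
      obtain ⟨a1, a2⟩ := hrange b
      obtain ⟨a3, a4⟩ := hrange b'
      constructor <;> linarith
    rw [← hD]
    have h3 : Real.log (D + 4) ≤ Real.sqrt m + 5 := by
      have h4 : D + 4 ≤ Real.exp ((2 * n : ℕ) : ℝ) * 5 := by
        have : 1 ≤ Real.exp ((2 * n : ℕ) : ℝ) := Real.one_le_exp (Nat.cast_nonneg _)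
        linarith
      have h5 : Real.log (D + 4) ≤ Real.log (Real.exp ((2 * n : ℕ) : ℝ) * 5) :=
        Real.log_le_log (by positivity) h4
      rw [Real.log_mul (Real.exp_pos _).ne' (by norm_num), Real.log_exp] at h5
      have h6 : Real.log 5 ≤ 5 - 1 := Real.log_le_sub_one_of_pos (by norm_num)
      push_cast at h5
      linarith
    have h7 : 0 ≤ Real.log (D + 4) := Real.log_nonneg (by linarith)
    refine (pow_le_pow_left₀ h7 h3 A0).trans ?_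
    have h8 : 0 < Real.sqrt m + 5 := by linarith
    rw [hU, ← Real.exp_log (pow_pos h8 A0), Real.log_pow]
    refine Real.exp_le_exp.2 ?_
    have h9 := Nat.le_ceil ((A0 : ℝ) * Real.log (Real.sqrt m + 5))
    rw [hs0]
    push_cast
    have : (0 : ℝ) ≤ (p0 : ℝ) := Nat.cast_nonneg _
    linarith

/-- the mean square of the full field dominates the blocks -/
theorem dlw_comp (hCONT : S_CONT) (p0 : ℕ) (u y σ U : ℝ) (b0 B : ℕ) (hp : 0 < (p0 : ℝ))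
    (hpu : (p0 : ℝ) + 1 ≤ u) (huy : u ≤ y) (hσ0 : 0 < σ) (hU0 : 0 < U)
    (hJi : ∀ ω : Om, Integrable (fun t : ℝ => ‖F 1 (PrS p0 y) σ t ω‖ ^ 2 / (σ ^ 2 + t ^ 2)))
    (ω1 ω2 : Om) :
    ∑ b : Fin B, ∫ t in Set.Ioc (dsb U b0 (b : ℕ))
        (dsb U b0 (b : ℕ) + 1 / U), ‖F 1 (PrS p0 u) σ t ω1‖ ^ 2 / (σ ^ 2 + t ^ 2) *
          ‖F 1 (PrS u y) σ t ω2‖ ^ 2 ≤ JF 1 (PrS p0 y) σ (mix {l : ℕ | (l : ℝ) ≤ u} (ω1, ω2)) := by
  have hu0 : 0 < u := by linarith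
  have hy0 : 0 < y := by linarith
  have hprime : ∀ l ∈ PrS p0 y, l.Prime := fun l hl => (mem_prs hl hy0.le).1
  have hF := F_cont hCONT 1 (PrS p0 y) hprime (σ := σ) (by linarith)
  have hd : ∀ t : ℝ, 0 < σ ^ 2 + t ^ 2 := fun t => by positivity
  have hprod : ∀ t : ℝ, F 1 (PrS p0 y) σ t (mix {l : ℕ | (l : ℝ) ≤ u} (ω1, ω2)) =
      F 1 (PrS p0 u) σ t ω1 * F 1 (PrS u y) σ t ω2 := by
    intro t
    rw [F_split 1 hp.le (by linarith : (p0 : ℝ) ≤ u) huy]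
    congr 1
    · refine F_dep 1 _ σ t _ _ fun l hl => ?_
      have h1 := (mem_prs hl hu0.le).2.2
      unfold mix
      have h2 : l ∈ {l : ℕ | (l : ℝ) ≤ u} := h1
      simp only [h2, if_true]
    · refine F_dep 1 _ σ t _ _ fun l hl => ?_
      have h1 := (mem_prs hl hy0.le).2.1
      unfold mix
      have h2 : l ∉ {l : ℕ | (l : ℝ) ≤ u} := by
        rw [Set.mem_ofPred_eq, not_le]; exact h1
      simp only [h2, if_false]
  have hkk : ∀ t : ℝ, ‖F 1 (PrS p0 u) σ t ω1‖ ^ 2 / (σ ^ 2 + t ^ 2) *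
      ‖F 1 (PrS u y) σ t ω2‖ ^ 2 =
      ‖F 1 (PrS p0 y) σ t (mix {l : ℕ | (l : ℝ) ≤ u} (ω1, ω2))‖ ^ 2 / (σ ^ 2 + t ^ 2) := by
    intro t
    rw [hprod t, norm_mul]
    ring
  simp only [hkk]
  obtain ⟨ω, hω⟩ : ∃ ω : Om, ω = mix {l : ℕ | (l : ℝ) ≤ u} (ω1, ω2) := ⟨_, rfl⟩
  rw [← hω]
  have k3 : Continuous (fun t : ℝ => ((ω, t) : Om × ℝ)) := by fun_prop
  have hhc : Continuous (fun t => ‖F 1 (PrS p0 y) σ t ω‖ ^ 2 /
      (σ ^ 2 + t ^ 2)) := ((hF.comp k3).norm.pow 2).div (by fun_prop) (fun t => (hd t).ne')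
  have hh0 : ∀ t, 0 ≤ ‖F 1 (PrS p0 y) σ t ω‖ ^ 2 / (σ ^ 2 + t ^ 2) :=
    fun t => by have := hd t; positivity
  rw [Fin.sum_univ_eq_sum_range (fun b : ℕ => ∫ t in Set.Ioc (dsb U b0 b)
    (dsb U b0 b + 1 / U), ‖F 1 (PrS p0 y) σ t ω‖ ^ 2 / (σ ^ 2 + t ^ 2)) B]
  refine (dlw_blocks_le hhc hh0 hU0 b0 B).trans ?_
  unfold JF
  rw [intervalIntegral.integral_of_le (by
    unfold dsb
    refine div_le_div_of_nonneg_right ?_ hU0.le
    have : (0 : ℝ) ≤ B := Nat.cast_nonneg B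
    push_cast
    linarith)]
  exact setIntegral_le_integral (hJi _) (Filter.Eventually.of_forall hh0)

/-- the inner inequality for one realisation of the small primes -/
theorem dlw_inner (hCONT : S_CONT) (hMIX : S_MIX) (hJM : S_JM) {c0 : ℝ} {K0 A0 : ℕ} (hc0 : 0 < c0)
    (p0 : ℕ) (hp : 0 < (p0 : ℝ))
    (hP : ∀ (u y σ lam : ℝ) (B : ℕ) (s : Fin B → ℝ) (w : ℝ → ℝ)
      (L : Finset (Fin B × Fin (2 ^ Kd u y))) (x : Fin B × Fin (2 ^ Kd u y) → ℝ),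
      (p0 : ℝ) ≤ u → u ≤ y → |σ| * Real.log y ≤ 8 → K0 ≤ Kd u y → 0 < lam → Continuous w →
      (∀ t, 0 ≤ w t) →
      (∀ b b' : Fin B, b ≠ b' → 2 / Real.log u ≤ |s b - s b'| ∧
        (Real.log (|s b - s b'| + 4)) ^ A0 ≤ Real.log u) →
      (∀ i ∈ L, 0 ≤ x i ∧ x i ≤ Real.sqrt (Kd u y) ∧
        lam ≤ (∫ t in Set.Ioc (s i.1 + ((i.2 : ℕ) : ℝ) * (1 / Real.log u / 2 ^ Kd u y))
            (s i.1 + (((i.2 : ℕ) : ℝ) + 1) * (1 / Real.log u / 2 ^ Kd u y)), w t) *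
          (typ (Real.sqrt 2 * al 1) (Kd u y) * Real.exp (Real.sqrt 2 * al 1 * x i))) →
      c0 * min 1 (∑ i ∈ L, (1 + x i) * Real.exp (-(Real.sqrt 2 * x i)) / 2 ^ Kd u y) ≤
        ∫ ω : Om, ft lam (∑ b : Fin B, ∫ t in Set.Ioc (s b) (s b + 1 / Real.log u),
          w t * ‖F 1 (PrS u y) σ t ω‖ ^ 2) ∂P)
    (u y σ U κ lam : ℝ) (n b0 B K : ℕ) (hpu : (p0 : ℝ) + 1 ≤ u) (huy : u ≤ y)
    (hlu : Real.log u = U) (hKd : Kd u y = K) (hK0 : K0 ≤ K) (hσ0 : 0 < σ) (hσ1 : σ ≤ 1)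
    (hσy : σ * Real.log y ≤ 8) (hU1 : 1 ≤ U) (hκ1 : 1 ≤ κ)
    (hlam : lam = κ ^ 2 * ((2 : ℝ) ^ K) ^ 3 * U ^ 3 / (2 * ((K : ℝ) + 1)))
    (hsep : ∀ b b' : Fin B, b ≠ b' → 2 / U ≤ |dsb U b0 (b : ℕ) - dsb U b0 (b' : ℕ)| ∧
      (Real.log (|dsb U b0 (b : ℕ) - dsb U b0 (b' : ℕ)| + 4)) ^ A0 ≤ U) (ω1 : Om) :
    c0 * ((n : ℝ) / (4 * κ * ((K : ℝ) + 1) * U) * (∑ b ∈ Finset.range B,
          ∫ t in Set.Ioc (dsb U b0 b) (dsb U b0 b + 1 / U),
            ‖F 1 (PrS p0 u) σ t ω1‖ / max 1 |t|) -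
        ((n : ℝ) / (4 * κ * ((K : ℝ) + 1) * U) * (∑ b ∈ Finset.range B,
          ∫ t in Set.Ioc (dsb U b0 b) (dsb U b0 b + 1 / U),
            ‖F 1 (PrS p0 u) σ t ω1‖ / max 1 |t|)) ^ 2 / 4 -
        (n : ℝ) / 4 * B * Real.exp (-(Real.sqrt 2 * Real.sqrt K)) -
        (n : ℝ) / 2 * Real.exp ((n : ℝ) / 2) / U ^ 3 * (∑ b ∈ Finset.range B,
          ∫ t in Set.Ioc (dsb U b0 b) (dsb U b0 b + 1 / U),
            ‖F 1 (PrS p0 u) σ t ω1‖ ^ 2 / (σ ^ 2 + t ^ 2))) ≤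
      ∫ ω2 : Om, ft lam (JF 1 (PrS p0 y) σ (mix {l : ℕ | (l : ℝ) ≤ u} (ω1, ω2))) ∂P := by
  have hu0 : 0 < u := by linarith
  have hy0 : 0 < y := by linarith
  have hU0 : 0 < U := by linarith
  have hl0 : 0 < lam := by rw [hlam]; positivity
  have hprime1 : ∀ l ∈ PrS p0 u, l.Prime := fun l hl => (mem_prs hl hu0.le).1
  have hprime : ∀ l ∈ PrS p0 y, l.Prime := fun l hl => (mem_prs hl hy0.le).1
  have hF1 := F_cont hCONT 1 (PrS p0 u) hprime1 (σ := σ) (by linarith)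
  have hd : ∀ t : ℝ, 0 < σ ^ 2 + t ^ 2 := fun t => by positivity
  obtain ⟨hJm, ⟨BJ, hBJ⟩, hJi, -⟩ := hJM 1 (PrS p0 y) σ hprime (by linarith) hσ0.ne'
  have k0 : Continuous (fun t : ℝ => ((ω1, t) : Om × ℝ)) := by fun_prop
  have hfc : Continuous (fun t => ‖F 1 (PrS p0 u) σ t ω1‖) := (hF1.comp k0).norm
  obtain ⟨L, x, hLx, hsum⟩ := dlw_sel (fun t => ‖F 1 (PrS p0 u) σ t ω1‖) hfc
    (fun t => norm_nonneg _) σ U κ K b0 B n hσ0 hσ1 hU1 hκ1
  rw [← hlam] at hLx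
  have hwc : Continuous (fun t => ‖F 1 (PrS p0 u) σ t ω1‖ ^ 2 / (σ ^ 2 + t ^ 2)) :=
    (hfc.pow 2).div (by fun_prop) (fun t => (hd t).ne')
  have hw0 : ∀ t, 0 ≤ ‖F 1 (PrS p0 u) σ t ω1‖ ^ 2 / (σ ^ 2 + t ^ 2) := fun t => by
    have := hd t; positivity
  have hPc := hP u y σ lam B (fun b => dsb U b0 (b : ℕ))
    (fun t => ‖F 1 (PrS p0 u) σ t ω1‖ ^ 2 / (σ ^ 2 + t ^ 2))
  rw [hKd, hlu] at hPc
  have hP2 := hPc L x (by linarith) huy (by rw [abs_of_pos hσ0]; exact hσy) hK0 hl0 hwc hw0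
    hsep hLx
  have hnn : ∀ ω2 : Om, 0 ≤ ∑ b : Fin B, ∫ t in Set.Ioc (dsb U b0 (b : ℕ))
      (dsb U b0 (b : ℕ) + 1 / U), ‖F 1 (PrS p0 u) σ t ω1‖ ^ 2 / (σ ^ 2 + t ^ 2) *
        ‖F 1 (PrS u y) σ t ω2‖ ^ 2 := fun ω2 => by
    refine Finset.sum_nonneg fun b _ => integral_nonneg fun t => ?_
    have := hd t
    positivity
  have hJ0 : ∀ ω, 0 ≤ JF 1 (PrS p0 y) σ ω := fun ω => (hBJ ω).1
  have hmono : ∫ ω2 : Om, ft lam (∑ b : Fin B, ∫ t in Set.Ioc (dsb U b0 (b : ℕ))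
      (dsb U b0 (b : ℕ) + 1 / U), ‖F 1 (PrS p0 u) σ t ω1‖ ^ 2 / (σ ^ 2 + t ^ 2) *
        ‖F 1 (PrS u y) σ t ω2‖ ^ 2) ∂P ≤
      ∫ ω2 : Om, ft lam (JF 1 (PrS p0 y) σ (mix {l : ℕ | (l : ℝ) ≤ u} (ω1, ω2))) ∂P := by
    refine integral_mono_of_nonneg (Filter.Eventually.of_forall fun ω2 => ?_) ?_
      (Filter.Eventually.of_forall fun ω2 => ?_)
    · have := hnn ω2
      unfold ft
      positivity
    · have hmm : Measurable (fun ω2 : Om => JF 1 (PrS p0 y) σ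
          (mix {l : ℕ | (l : ℝ) ≤ u} (ω1, ω2))) :=
        hJm.comp ((hMIX _).measurable.comp measurable_prodMk_left)
      refine int_of_bd (B := 1) ?_ (fun ω2 => ?_) (fun ω2 => ?_)
      · unfold ft
        exact hmm.div (hmm.add_const _)
      · have := hJ0 (mix {l : ℕ | (l : ℝ) ≤ u} (ω1, ω2))
        unfold ft
        positivity
      · have := hJ0 (mix {l : ℕ | (l : ℝ) ≤ u} (ω1, ω2))
        unfold ft
        rw [div_le_one (by linarith)]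
        linarith
    · have h1 := hnn ω2
      have h2 := dlw_comp hCONT p0 u y σ U b0 B hp hpu huy hσ0 hU0 hJi ω1 ω2
      unfold ft
      rw [div_le_div_iff₀ (by linarith) (by linarith)]
      nlinarith
  refine le_trans ?_ (hP2.trans hmono)
  refine mul_le_mul_of_nonneg_left ?_ hc0.le
  obtain ⟨S, hS⟩ : ∃ S : ℝ, S = (n : ℝ) / (4 * κ * ((K : ℝ) + 1) * U) * (∑ b ∈ Finset.range B,
          ∫ t in Set.Ioc (dsb U b0 b) (dsb U b0 b + 1 / U),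
            ‖F 1 (PrS p0 u) σ t ω1‖ / max 1 |t|) := ⟨_, rfl⟩
  obtain ⟨E1, hE1⟩ : ∃ c : ℝ, c = (n : ℝ) / 4 * B * Real.exp (-(Real.sqrt 2 * Real.sqrt K)) :=
    ⟨_, rfl⟩
  obtain ⟨E2, hE2⟩ : ∃ c : ℝ, c = (n : ℝ) / 2 * Real.exp ((n : ℝ) / 2) / U ^ 3 *
      (∑ b ∈ Finset.range B, ∫ t in Set.Ioc (dsb U b0 b) (dsb U b0 b + 1 / U),
            ‖F 1 (PrS p0 u) σ t ω1‖ ^ 2 / (σ ^ 2 + t ^ 2)) := ⟨_, rfl⟩
  rw [← hS, ← hE1, ← hE2] at hsum ⊢
  have hE10 : 0 ≤ E1 := by rw [hE1]; positivity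
  have hE20 : 0 ≤ E2 := by
    rw [hE2]
    refine mul_nonneg (by positivity) (Finset.sum_nonneg fun b _ => integral_nonneg fun t => ?_)
    exact hw0 t
  refine le_min ?_ ?_
  · nlinarith [sq_nonneg (S - 2)]
  · nlinarith [sq_nonneg S]

/-- Fubini with the mixed point -/
theorem dlw_full (hMIX : S_MIX) (A : Set ℕ) {Z : Om → ℝ} (hZm : Measurable Z)
    (hZ0 : ∀ ω, 0 ≤ Z ω) {lam : ℝ} (hl0 : 0 < lam) :
    ∫ ω : Om, ft lam (Z ω) ∂P = ∫ ω1 : Om, (∫ ω2 : Om, ft lam (Z (mix A (ω1, ω2))) ∂P) ∂P ∧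
    Integrable (fun ω1 : Om => ∫ ω2 : Om, ft lam (Z (mix A (ω1, ω2))) ∂P) P := by
  have hftm : Measurable (fun ω : Om => ft lam (Z ω)) := by
    unfold ft
    exact hZm.div (hZm.add_const _)
  have hmp := hMIX A
  have hint : Integrable (fun q : Om × Om => ft lam (Z (mix A q))) (P.prod P) := by
    refine Integrable.of_bound (hftm.comp hmp.measurable).aestronglyMeasurable 1
      (Filter.Eventually.of_forall fun q => ?_)
    have := hZ0 (mix A q)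
    rw [Real.norm_eq_abs]
    unfold ft
    rw [abs_of_nonneg (by positivity), div_le_one (by linarith)]
    linarith
  refine ⟨?_, hint.integral_prod_left⟩
  have h1 : ∫ ω : Om, ft lam (Z ω) ∂P =
      ∫ q : Om × Om, ft lam (Z (mix A q)) ∂(P.prod P) := by
    conv_lhs => rw [← hmp.map_eq]
    exact integral_map hmp.measurable.aemeasurable hftm.aestronglyMeasurable
  rw [h1]
  exact integral_prod _ hint

/-- the numerical end of the second moment argument -/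
theorem dlw_numbers {cR CD C1 κ η U m ER ER2 EW : ℝ} {n B K s0 : ℕ} (hcR : 0 < cR)
    (hCD : 0 < CD) (hC1 : 0 < C1) (hκ1 : 1 ≤ κ) (hκ2 : CD ≤ cR * κ) (hη : η = cR / (1024 * κ))
    (hU : U = Real.exp s0) (hm : 2 ≤ m) (hmK : m ≤ K) (hK2m : (K : ℝ) + 1 ≤ 2 * m)
    (hsmall : (n : ℝ) * Real.exp s0 * Real.exp (-((n : ℝ) / 2)) ≤ η / (1 + C1))
    (hnlow : Real.sqrt m / 4 ≤ n) (hnup : (n : ℝ) ≤ Real.sqrt m / 2)
    (hBU : (B : ℝ) ≤ Real.exp ((2 * n : ℕ) : ℝ) * U / 2)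
    (hMa : cR * U * ((n : ℝ) / 2) ≤ ER) (hMb : ER2 ≤ CD * (n : ℝ) ^ 2 * U ^ 2)
    (hMc : EW ≤ C1 * U ^ 4 * Real.exp (-(n : ℝ))) :
    η ≤ (n : ℝ) / (4 * κ * ((K : ℝ) + 1) * U) * ER -
      ((n : ℝ) / (4 * κ * ((K : ℝ) + 1) * U)) ^ 2 / 4 * ER2 -
      (n : ℝ) / 4 * B * Real.exp (-(Real.sqrt 2 * Real.sqrt K)) -
      (n : ℝ) / 2 * Real.exp ((n : ℝ) / 2) / U ^ 3 * EW := by
  have hκ0 : 0 < κ := by linarith
  have hU0 : 0 < U := by rw [hU]; exact Real.exp_pos _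
  have hK1 : (0 : ℝ) < (K : ℝ) + 1 := by positivity
  obtain ⟨cS, hcS⟩ : ∃ c : ℝ, c = (n : ℝ) / (4 * κ * ((K : ℝ) + 1) * U) := ⟨_, rfl⟩
  have hcS0 : 0 ≤ cS := by rw [hcS]; positivity
  rw [← hcS]
  obtain ⟨ρ, hρ⟩ : ∃ ρ : ℝ, ρ = (n : ℝ) ^ 2 / ((K : ℝ) + 1) := ⟨_, rfl⟩
  have hn0 : (0 : ℝ) ≤ n := Nat.cast_nonneg _
  have hsm : 0 ≤ Real.sqrt m := Real.sqrt_nonneg m
  have hsqm : Real.sqrt m ^ 2 = m := Real.sq_sqrt (by linarith)
  have hρ1 : ρ ≤ 1 := by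
    rw [hρ, div_le_one hK1]
    have h2 : (n : ℝ) ^ 2 ≤ (Real.sqrt m / 2) ^ 2 := pow_le_pow_left₀ hn0 hnup 2
    have h3 : (Real.sqrt m / 2) ^ 2 = m / 4 := by rw [div_pow, hsqm]; norm_num
    linarith
  have hρ2 : 1 / 32 ≤ ρ := by
    rw [hρ, div_le_div_iff₀ (by norm_num) hK1]
    have h2 : (Real.sqrt m / 4) ^ 2 ≤ (n : ℝ) ^ 2 :=
      pow_le_pow_left₀ (by positivity) hnlow 2
    have h3 : (Real.sqrt m / 4) ^ 2 = m / 16 := by rw [div_pow, hsqm]; norm_num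
    linarith
  have hρ0 : 0 ≤ ρ := by linarith
  have g1 : cR * ρ / (8 * κ) ≤ cS * ER := by
    refine le_trans (le_of_eq ?_) (mul_le_mul_of_nonneg_left hMa hcS0)
    rw [hcS, hρ]
    field_simp
    ring
  have g2 : cS ^ 2 / 4 * ER2 ≤ CD * ρ ^ 2 / (64 * κ ^ 2) := by
    refine (mul_le_mul_of_nonneg_left hMb (by positivity)).trans (le_of_eq ?_)
    rw [hcS, hρ]
    field_simp
    norm_num
  have g3 : CD * ρ ^ 2 / (64 * κ ^ 2) ≤ cR * ρ / (16 * κ) := by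
    rw [div_le_div_iff₀ (by positivity) (by positivity)]
    have h2 : CD * ρ ^ 2 ≤ cR * κ * ρ := by
      have h3 : CD * ρ ^ 2 ≤ CD * ρ := mul_le_mul_of_nonneg_left (by nlinarith) hCD.le
      have h4 : CD * ρ ≤ cR * κ * ρ := mul_le_mul_of_nonneg_right hκ2 hρ0
      linarith
    have h5 := mul_le_mul_of_nonneg_right h2 (show 0 ≤ 16 * κ by positivity)
    have h6 : 0 ≤ cR * κ * ρ * (16 * κ) := by positivity
    have h7 : cR * ρ * (64 * κ ^ 2) = 4 * (cR * κ * ρ * (16 * κ)) := by ring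
    linarith
  have g4 : 2 * η ≤ cR * ρ / (16 * κ) := by
    rw [hη]
    have h2 : 2 * (cR / (1024 * κ)) = cR * (1 / 32) / (16 * κ) := by field_simp; norm_num
    rw [h2]
    refine div_le_div_of_nonneg_right ?_ (by positivity)
    exact mul_le_mul_of_nonneg_left hρ2 hcR.le
  have g5 : cR * ρ / (8 * κ) = cR * ρ / (16 * κ) + cR * ρ / (16 * κ) := by field_simp; norm_num
  obtain ⟨X, hX⟩ : ∃ X : ℝ, X = (n : ℝ) * Real.exp s0 * Real.exp (-((n : ℝ) / 2)) := ⟨_, rfl⟩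
  rw [← hX] at hsmall
  have hX0 : 0 ≤ X := by rw [hX]; positivity
  have g6 : (n : ℝ) / 4 * B * Real.exp (-(Real.sqrt 2 * Real.sqrt K)) ≤ X / 8 := by
    have h2 : Real.exp (-(Real.sqrt 2 * Real.sqrt K)) ≤ Real.exp (-(5 / 2 * (n : ℝ))) := by
      refine Real.exp_le_exp.2 ?_
      have h3 : 5 / 4 ≤ Real.sqrt 2 := Real.le_sqrt_of_sq_le (by norm_num)
      have h4 : Real.sqrt m ≤ Real.sqrt K := Real.sqrt_le_sqrt hmK
      have h5 : 2 * (n : ℝ) ≤ Real.sqrt K := by linarith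
      have h6 : 5 / 4 * (2 * (n : ℝ)) ≤ Real.sqrt 2 * Real.sqrt K :=
        mul_le_mul h3 h5 (by positivity) (by positivity)
      linarith
    rw [hX]
    calc (n : ℝ) / 4 * B * Real.exp (-(Real.sqrt 2 * Real.sqrt K))
        ≤ (n : ℝ) / 4 * (Real.exp ((2 * n : ℕ) : ℝ) * U / 2) * Real.exp (-(5 / 2 * (n : ℝ))) := by
          gcongr
      _ = (n : ℝ) * U * (Real.exp ((2 * n : ℕ) : ℝ) * Real.exp (-(5 / 2 * (n : ℝ)))) / 8 := by
          ring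
      _ = _ := by
          rw [← Real.exp_add, hU]
          congr 3
          push_cast; ring
  have g7 : (n : ℝ) / 2 * Real.exp ((n : ℝ) / 2) / U ^ 3 * EW ≤ C1 * X / 2 := by
    refine (mul_le_mul_of_nonneg_left hMc (by positivity)).trans (le_of_eq ?_)
    have h2 : Real.exp (-((n : ℝ) / 2)) = Real.exp ((n : ℝ) / 2) * Real.exp (-(n : ℝ)) := by
      rw [← Real.exp_add]; congr 1; ring
    rw [hX, h2, ← hU]
    field_simp
  have g8 : (1 + C1) * X ≤ η := by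
    have h2 := mul_le_mul_of_nonneg_left hsmall (show 0 ≤ 1 + C1 by positivity)
    have h3 : (1 + C1) * (η / (1 + C1)) = η := by field_simp
    linarith
  have h9 : 0 ≤ C1 * X := by positivity
  have h10 : (1 + C1) * X = X + C1 * X := by ring
  linarith

theorem DLW (hPLB : S_PLB) (hDSM : S_DSM) (hM1 : S_M1) (hMIX : S_MIX) (hCONT : S_CONT)
    (hJM : S_JM) : S_DLW := by
  intro p p0 hg hp0 hp1
  obtain ⟨c0, K0, A0, hc0, hP⟩ := hPLB 1 p0 hg (by rw [dlw_al]; norm_num)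
  obtain ⟨cR, CD, C1, hcR, hCD, hC1, hM⟩ := dlw_mom hCONT hM1 hDSM p0 hg
  obtain ⟨κ, hκ⟩ : ∃ κ : ℝ, κ = 1 + CD / cR := ⟨_, rfl⟩
  have hCR : 0 < CD / cR := by positivity
  have hκ1 : 1 ≤ κ := by rw [hκ]; linarith
  have hκ0 : 0 < κ := by linarith
  have hκ2 : CD ≤ cR * κ := by
    have : cR * κ = cR + CD := by rw [hκ]; field_simp
    rw [this]; linarith
  obtain ⟨η, hη⟩ : ∃ η : ℝ, η = cR / (1024 * κ) := ⟨_, rfl⟩
  have hη0 : 0 < η := by rw [hη]; positivity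
  obtain ⟨m0, hm0, hpar⟩ := dlw_params A0 (p0 + 1) K0 (η / (1 + C1)) (by positivity)
  have hp0' : 4 * Real.exp 16 ≤ (p0 : ℝ) := hg.1
  have he16 := Real.exp_pos (16 : ℝ)
  have hp00 : 0 < (p0 : ℝ) := by linarith
  obtain ⟨ε, hε⟩ : ∃ ε : ℝ, ε = c0 * η / 2 := ⟨_, rfl⟩
  have hε0 : 0 < ε := by rw [hε]; positivity
  refine ⟨ε * (ε * (κ ^ 2 / 32)) ^ (p / 2), Real.exp (Real.exp (max m0 2)), by positivity, ?_, ?_⟩
  · refine Real.exp_le_exp.2 ?_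
    have h1 := Real.add_one_le_exp (max m0 2)
    have h2 := le_max_right m0 2
    linarith
  intro y hy
  have hy0 : 0 < y := (Real.exp_pos _).trans_le hy
  obtain ⟨Y, hY⟩ : ∃ Y : ℝ, Y = Real.log y := ⟨_, rfl⟩
  have hYe : Real.exp (max m0 2) ≤ Y := by
    rw [hY, Real.le_log_iff_exp_le hy0]; exact hy
  have hY0 : 0 < Y := (Real.exp_pos _).trans_le hYe
  obtain ⟨m, hm⟩ : ∃ m : ℝ, m = Real.log Y := ⟨_, rfl⟩
  have hm2 : max m0 2 ≤ m := by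
    rw [hm, Real.le_log_iff_exp_le hY0]; exact hYe
  have hmm0 : m0 ≤ m := (le_max_left _ _).trans hm2
  have hm22 : 2 ≤ m := (le_max_right _ _).trans hm2
  have hYm : Real.exp m = Y := by rw [hm, Real.exp_log hY0]
  have hY1 : 1 ≤ Y := by
    rw [← hYm]; exact Real.one_le_exp (by linarith)
  obtain ⟨s0, hs0⟩ : ∃ s0 : ℕ, s0 = ⌈(A0 : ℝ) * Real.log (Real.sqrt m + 5)⌉₊ + (p0 + 1) := ⟨_, rfl⟩
  obtain ⟨n, hn⟩ : ∃ n : ℕ, n = ⌊Real.sqrt m / 2⌋₊ := ⟨_, rfl⟩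
  obtain ⟨K, hK⟩ : ∃ K : ℕ, K = ⌊(m - s0) / vv⌋₊ := ⟨_, rfl⟩
  obtain ⟨hn4, hs0n, hK0, hmK, hK2m, hsmall, hnlow, hnup⟩ := hpar m hmm0 s0 n K hs0 hn hK
  clear hpar hm2 hmm0 hYe hn
  rw [← hY, ← hm]
  -- the scale u
  obtain ⟨u, hu⟩ : ∃ u : ℝ, u = xs s0 := ⟨_, rfl⟩
  obtain ⟨U, hU⟩ : ∃ U : ℝ, U = Real.exp s0 := ⟨_, rfl⟩
  have hlu : Real.log u = U := by rw [hu, hU, h5_xs_log]
  have hU1 : 1 ≤ U := by rw [hU]; exact Real.one_le_exp (Nat.cast_nonneg _)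
  have hU0 : 0 < U := by linarith
  have hs0p : ((p0 : ℝ) + 1) ≤ s0 := by
    rw [hs0]; push_cast
    have : (0 : ℝ) ≤ (⌈(A0 : ℝ) * Real.log (Real.sqrt m + 5)⌉₊ : ℝ) := Nat.cast_nonneg _
    linarith
  have hpu : (p0 : ℝ) + 1 ≤ u := by
    rw [hu]
    unfold xs
    have h1 := Real.add_one_le_exp (s0 : ℝ)
    have h2 := Real.add_one_le_exp (Real.exp (s0 : ℝ))
    linarith
  have hu0 : 0 < u := by linarith
  have hsm : Real.sqrt m ≤ m := by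
    rw [Real.sqrt_le_left (by linarith)]
    nlinarith
  have hs0m : (s0 : ℝ) ≤ m := by
    have := Real.sqrt_nonneg m
    linarith
  have hUY : U ≤ Y := by rw [hU, ← hYm]; exact Real.exp_le_exp.2 hs0m
  have huy : u ≤ y := by
    rw [← Real.exp_log hu0, ← Real.exp_log hy0, hlu, ← hY]
    exact Real.exp_le_exp.2 hUY
  have hKd : Kd u y = K := by
    unfold Kd
    rw [hlu, ← hY, Real.log_div hY0.ne' hU0.ne', ← hm, hU, Real.log_exp, hK]
  -- sigma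
  obtain ⟨σ, hσ⟩ : ∃ σ : ℝ, σ = 1 / Y := ⟨_, rfl⟩
  have hσ0 : 0 < σ := by rw [hσ]; positivity
  have hσ1 : σ ≤ 1 := by rw [hσ, div_le_one hY0]; exact hY1
  have hσY : σ * Y = 1 := by rw [hσ]; field_simp
  have hσU : σ * U ≤ 8 := by
    have := mul_le_mul_of_nonneg_left hUY hσ0.le
    linarith
  rw [← hσ]
  obtain ⟨b0, B, hb0pos, hlow, hupp, hlogd, hBU⟩ := dlw_choice n U hn4 hU1
  have hlogU : Real.log U ≤ n := by rw [hU, Real.log_exp]; exact hs0n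
  obtain ⟨hMa, hMb, hMc⟩ := hM u σ U n b0 B hpu hlu hσ0 hσ1 hσU hU1 hb0pos hlow hupp hlogU
  clear hM
  have hprime1 : ∀ l ∈ PrS p0 u, l.Prime := fun l hl => (mem_prs hl hu0.le).1
  have hprime : ∀ l ∈ PrS p0 y, l.Prime := fun l hl => (mem_prs hl hy0.le).1
  have hF1 := F_cont hCONT 1 (PrS p0 u) hprime1 (σ := σ) (by linarith)
  have hd : ∀ t : ℝ, 0 < σ ^ 2 + t ^ 2 := fun t => by positivity
  have hmax : ∀ t : ℝ, 0 < max 1 |t| := fun t => lt_of_lt_of_le one_pos (le_max_left _ _)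
  obtain ⟨hJm, ⟨BJ, hBJ⟩, -, -⟩ := hJM 1 (PrS p0 y) σ hprime (by linarith) hσ0.ne'
  have hJ0 : ∀ ω, 0 ≤ JF 1 (PrS p0 y) σ ω := fun ω => (hBJ ω).1
  obtain ⟨lam, hlam⟩ : ∃ l : ℝ, l = κ ^ 2 * ((2 : ℝ) ^ K) ^ 3 * U ^ 3 / (2 * ((K : ℝ) + 1)) :=
    ⟨_, rfl⟩
  have hl0 : 0 < lam := by rw [hlam]; positivity
  have hin := fun ω1 => dlw_inner hCONT hMIX hJM hc0 p0 hp00 hP u y σ U κ lam n b0 B K hpu huy hlu
    hKd hK0 hσ0 hσ1 (by rw [← hY, hσY]; norm_num) hU1 hκ1 hlam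
    (fun b b' hbb => dlw_sep n b0 B A0 s0 p0 U m hU hs0 hupp hnup b b' hbb) ω1
  clear hP
  obtain ⟨R, hR⟩ : ∃ R : Om → ℝ, R = fun ω => ∑ b ∈ Finset.range B,
    ∫ t in Set.Ioc (dsb U b0 b) (dsb U b0 b + 1 / U), ‖F 1 (PrS p0 u) σ t ω‖ / max 1 |t| :=
    ⟨_, rfl⟩
  obtain ⟨W, hW⟩ : ∃ W : Om → ℝ, W = fun ω => ∑ b ∈ Finset.range B,
    ∫ t in Set.Ioc (dsb U b0 b) (dsb U b0 b + 1 / U),
      ‖F 1 (PrS p0 u) σ t ω‖ ^ 2 / (σ ^ 2 + t ^ 2) := ⟨_, rfl⟩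
  have hRc : Continuous R := by
    rw [hR]
    refine continuous_finsetSum _ fun b _ => ?_
    exact dlw_cint (h := fun ω t => ‖F 1 (PrS p0 u) σ t ω‖ / max 1 |t|)
      (hF1.norm.div (by fun_prop) (fun q => (hmax q.2).ne')) _ _
  have hWc : Continuous W := by
    rw [hW]
    refine continuous_finsetSum _ fun b _ => ?_
    exact dlw_cint (h := fun ω t => ‖F 1 (PrS p0 u) σ t ω‖ ^ 2 / (σ ^ 2 + t ^ 2))
      ((hF1.norm.pow 2).div (by fun_prop) (fun q => (hd q.2).ne')) _ _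
  have hMa' : cR * U * ((n : ℝ) / 2) ≤ ∫ ω, R ω ∂P := by
    refine (mul_le_mul_of_nonneg_left hlogd (by positivity)).trans ?_
    rw [hR]; exact hMa
  have hMb' : ∫ ω, R ω ^ 2 ∂P ≤ CD * (n : ℝ) ^ 2 * U ^ 2 := by
    rw [hR]; exact hMb
  have hMc' : ∫ ω, W ω ∂P ≤ C1 * U ^ 4 * Real.exp (-(n : ℝ)) := by
    rw [hW]; exact hMc
  have hnum := dlw_numbers hcR hCD hC1 hκ1 hκ2 hη hU hm22 hmK hK2m hsmall hnlow hnup hBU
    hMa' hMb' hMc'
  obtain ⟨cS, hcS⟩ : ∃ c : ℝ, c = (n : ℝ) / (4 * κ * ((K : ℝ) + 1) * U) := ⟨_, rfl⟩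
  obtain ⟨E1, hE1⟩ : ∃ c : ℝ, c = (n : ℝ) / 4 * B * Real.exp (-(Real.sqrt 2 * Real.sqrt K)) :=
    ⟨_, rfl⟩
  obtain ⟨cW, hcW⟩ : ∃ c : ℝ, c = (n : ℝ) / 2 * Real.exp ((n : ℝ) / 2) / U ^ 3 := ⟨_, rfl⟩
  have hRe : ∀ ω1, ∑ b ∈ Finset.range B,
      ∫ t in Set.Ioc (dsb U b0 b) (dsb U b0 b + 1 / U),
      ‖F 1 (PrS p0 u) σ t ω1‖ / max 1 |t| = R ω1 := by
    intro ω1; rw [hR]
  have hWe : ∀ ω1, ∑ b ∈ Finset.range B,
      ∫ t in Set.Ioc (dsb U b0 b) (dsb U b0 b + 1 / U),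
      ‖F 1 (PrS p0 u) σ t ω1‖ ^ 2 / (σ ^ 2 + t ^ 2) = W ω1 := by
    intro ω1; rw [hW]
  simp only [hRe, hWe, ← hcS, ← hE1, ← hcW] at hin hnum
  clear hRe hWe hMa hMb hMc hMa' hMb' hMc' hR hW hsmall hlogd hBU hupp hlow hlogU
  obtain ⟨hfull, hfi⟩ := dlw_full hMIX {l : ℕ | (l : ℝ) ≤ u} hJm hJ0 hl0
  have hmean : c0 * η ≤ ∫ ω : Om, ft lam (JF 1 (PrS p0 y) σ ω) ∂P := by
    have i1 : Integrable (fun ω => cS * R ω) P := (dlw_cont_int hRc).const_mul _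
    have i2 : Integrable (fun ω => (cS * R ω) ^ 2 / 4) P :=
      dlw_cont_int (((continuous_const.mul hRc).pow 2).div_const 4)
    have i3 : Integrable (fun ω => cW * W ω) P := (dlw_cont_int hWc).const_mul _
    have i4 : Integrable (fun ω => cS * R ω - (cS * R ω) ^ 2 / 4) P := i1.sub i2
    have i5 : Integrable (fun ω => cS * R ω - (cS * R ω) ^ 2 / 4 - E1) P :=
      i4.sub (integrable_const _)
    have i6 : Integrable (fun ω => c0 * (cS * R ω - (cS * R ω) ^ 2 / 4 - E1 - cW * W ω)) P :=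
      (i5.sub i3).const_mul _
    have hout := integral_mono i6 hfi hin
    rw [← hfull] at hout
    refine le_trans ?_ hout
    have h1 : ∫ ω1 : Om, c0 * (cS * R ω1 - (cS * R ω1) ^ 2 / 4 - E1 - cW * W ω1) ∂P =
        c0 * (cS * (∫ ω, R ω ∂P) - cS ^ 2 / 4 * (∫ ω, R ω ^ 2 ∂P) - E1 -
          cW * ∫ ω, W ω ∂P) := by
      have h2 : ∫ ω1 : Om, (cS * R ω1) ^ 2 / 4 ∂P = cS ^ 2 / 4 * (∫ ω, R ω ^ 2 ∂P) := by
        rw [← integral_const_mul]
        refine integral_congr_ae (Filter.Eventually.of_forall fun ω => ?_)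
        simp only
        ring
      rw [integral_const_mul, integral_sub i5 i3, integral_sub i4 (integrable_const _),
        integral_sub i1 i2, integral_const_mul, integral_const_mul, integral_const, probReal_univ,
        one_smul, h2]
    rw [h1]
    exact mul_le_mul_of_nonneg_left hnum hc0.le
  clear hnum hin hfull hfi hcS hE1 hcW
  -- conclusion
  have hfin := dlw_final (Z := fun ω => JF 1 (PrS p0 y) σ ω / Y) (hJm.div_const _)
    (B := BJ / Y) (fun ω => div_nonneg (hJ0 ω) hY0.le)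
    (fun ω => div_le_div_of_nonneg_right (hBJ ω).2 hY0.le) (lam := lam / Y) (ε := ε) (q := p / 2)
    (by positivity) hε0 (by positivity) (by
      have h1 : ∀ ω, ft (lam / Y) (JF 1 (PrS p0 y) σ ω / Y) = ft lam (JF 1 (PrS p0 y) σ ω) := by
        intro ω
        unfold ft
        rw [← add_div, div_div_div_cancel_right₀ hY0.ne']
      simp only [h1]
      rw [hε]
      linarith)
  refine le_trans ?_ hfin
  have hK1 : (0 : ℝ) < (K : ℝ) + 1 := by positivity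
  have hm00 : 0 < m := by linarith
  have h2KU : Y / 2 ≤ (2 : ℝ) ^ K * U := by
    have hv0 : 0 < vv := Real.log_pos (by norm_num)
    have h1 : (m - s0) / vv - 1 < K := by
      rw [hK]; exact Nat.sub_one_lt_floor _
    have h2 : m - s0 < (K + 1) * vv := by
      rw [← div_lt_iff₀ hv0]; linarith
    have h3 : Y / U ≤ (2 : ℝ) ^ (K + 1) := by
      have h4 : Y / U = Real.exp (m - s0) := by rw [Real.exp_sub, hYm, hU]
      have h5 : (2 : ℝ) ^ (K + 1) = Real.exp (((K + 1 : ℕ) : ℝ) * vv) := by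
        unfold vv
        rw [Real.exp_nat_mul, Real.exp_log (by norm_num)]
      rw [h4, h5]
      refine Real.exp_le_exp.2 ?_
      push_cast
      exact h2.le
    rw [div_le_iff₀ hU0, pow_succ] at h3
    linarith
  have hlamY : κ ^ 2 / 32 * (Y ^ 2 / m) ≤ lam / Y := by
    rw [hlam]
    have h1 : (Y / 2) ^ 3 ≤ ((2 : ℝ) ^ K * U) ^ 3 := pow_le_pow_left₀ (by positivity) h2KU 3
    have h2 : κ ^ 2 * ((2 : ℝ) ^ K) ^ 3 * U ^ 3 / (2 * ((K : ℝ) + 1)) / Y =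
        κ ^ 2 * ((2 : ℝ) ^ K * U) ^ 3 / (2 * ((K : ℝ) + 1) * Y) := by
      rw [mul_pow]; field_simp
    rw [h2]
    calc κ ^ 2 / 32 * (Y ^ 2 / m) = κ ^ 2 * (Y / 2) ^ 3 / (2 * (2 * m) * Y) := by
          field_simp; norm_num
      _ ≤ κ ^ 2 * ((2 : ℝ) ^ K * U) ^ 3 / (2 * ((K : ℝ) + 1) * Y) := by
          gcongr
  have h1 : (ε * (κ ^ 2 / 32)) ^ (p / 2) * Y ^ p * m ^ (-(p / 2)) =
      (ε * (κ ^ 2 / 32 * (Y ^ 2 / m))) ^ (p / 2) := by
    have h3 : ε * (κ ^ 2 / 32 * (Y ^ 2 / m)) = (ε * (κ ^ 2 / 32)) * (Y ^ 2 / m) := by ring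
    have h4 : (Y ^ 2 / m) ^ (p / 2) = Y ^ p * m ^ (-(p / 2)) := by
      have h5 : (Y ^ 2) ^ (p / 2) = Y ^ p := by
        rw [← Real.rpow_natCast Y 2, ← Real.rpow_mul hY0.le]
        congr 1
        push_cast; ring
      rw [Real.div_rpow (by positivity) hm00.le, h5, Real.rpow_neg hm00.le, div_eq_mul_inv]
    rw [h3, Real.mul_rpow (x := ε * (κ ^ 2 / 32)) (y := Y ^ 2 / m) (by positivity) (by positivity),
      h4, mul_assoc]
  calc ε * (ε * (κ ^ 2 / 32)) ^ (p / 2) * Y ^ p * m ^ (-(p / 2)) =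
      ε * ((ε * (κ ^ 2 / 32)) ^ (p / 2) * Y ^ p * m ^ (-(p / 2))) := by ring
    _ ≤ ε * (ε * (lam / Y)) ^ (p / 2) := by
        rw [h1]
        refine mul_le_mul_of_nonneg_left ?_ hε0.le
        refine Real.rpow_le_rpow (by positivity) ?_ (by positivity)
        exact mul_le_mul_of_nonneg_left hlamY hε0.le

end PN
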