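import Pool.Agent.H24.PN.Stmts
import Pool.Agent.H24.PM.FAR

/-! Module DSM of project PM part 2: second moment of the field of small primes, gamma = 1. -/

namespace PN
open MeasureTheory Complex ProbabilityTheory PM

attribute [local irreducible] PM.G PM.PrS PM.CS PM.F

/-- integral of the square of the truncated inverse -/
theorem dsm_near {U : ℝ} (hU : 1 ≤ U) :
    ∫ τ in (0 : ℝ)..1, (4 * U ^ 2 / (1 + U * τ) ^ 2) ≤ 4 * U := by
  have hd : ∀ τ ∈ Set.uIcc (0 : ℝ) 1,
      HasDerivAt (fun τ : ℝ => -(4 * U) / (1 + U * τ)) (4 * U ^ 2 / (1 + U * τ) ^ 2) τ := by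
    intro τ hτ
    rw [Set.uIcc_of_le zero_le_one] at hτ
    have h0 : 0 ≤ U * τ := mul_nonneg (by linarith) hτ.1
    have h1 : (1 + U * τ) ≠ 0 := by linarith
    have h2 : HasDerivAt (fun τ : ℝ => 1 + U * τ) U τ := by
      simpa using ((hasDerivAt_id τ).const_mul U).const_add 1
    have h3 := (hasDerivAt_const τ (-(4 * U))).div h2 h1
    refine h3.congr_deriv ?_
    field_simp
    ring
  rw [intervalIntegral.integral_eq_sub_of_hasDerivAt hd]
  · have h1 : 0 ≤ 4 * U / (1 + U * 1) := by positivity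
    have h2 : -(4 * U) / (1 + U * 1) - -(4 * U) / (1 + U * 0) = 4 * U - 4 * U / (1 + U * 1) := by
      rw [mul_zero, add_zero]; ring
    rw [h2]
    linarith
  · refine ContinuousOn.intervalIntegrable ?_
    refine ContinuousOn.div continuousOn_const (by fun_prop) ?_
    intro τ hτ
    rw [Set.uIcc_of_le zero_le_one] at hτ
    have h0 : 0 ≤ U * τ := mul_nonneg (by linarith) hτ.1
    positivity

theorem dsm_max {U x : ℝ} (hx : 0 ≤ x) :
    (U / max 1 x) ^ 2 ≤ 4 * U ^ 2 / (1 + x) ^ 2 := by
  have h1 : 1 + x ≤ 2 * max 1 x := by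
    have := le_max_left 1 x
    have := le_max_right 1 x
    linarith
  have h2 : 0 < max 1 x := lt_of_lt_of_le one_pos (le_max_left 1 x)
  rw [div_pow, div_le_div_iff₀ (by positivity) (by positivity)]
  have h3 : (1 + x) ^ 2 ≤ (2 * max 1 x) ^ 2 := pow_le_pow_left₀ (by linarith) h1 2
  have h4 := mul_le_mul_of_nonneg_left h3 (sq_nonneg U)
  calc U ^ 2 * (1 + x) ^ 2 ≤ U ^ 2 * (2 * max 1 x) ^ 2 := h4
    _ = 4 * U ^ 2 * max 1 x ^ 2 := by ring

/-- double integral of an even nonnegative function over two windows -/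
theorem dsm_two {g : ℝ → ℝ} (hgc : Continuous g) (hg0 : ∀ τ, 0 ≤ g τ) (hge : ∀ τ, g (-τ) = g τ)
    {C L : ℝ} (hC : 0 ≤ C) (hgT : ∀ T : ℝ, 1 ≤ T → L ≤ T → ∫ τ in (0 : ℝ)..T, g τ ≤ C * T)
    (k k' : ℕ) (hk : L ≤ Real.exp k) (hk' : L ≤ Real.exp k') :
    ∫ t in Set.Ioc (Real.exp k) (Real.exp (k + 1)),
      ∫ t' in Set.Ioc (Real.exp k') (Real.exp (k' + 1)), g (t - t') / (t * t') ≤ 12 * C := by
  -- ordered version
  have key : ∀ (a b : ℕ), a ≤ b → L ≤ Real.exp b →
      ∫ t in Set.Ioc (Real.exp a) (Real.exp (a + 1)),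
        ∫ t' in Set.Ioc (Real.exp b) (Real.exp (b + 1)), g (t - t') / (t * t') ≤ 12 * C := by
    intro a b hab hLb
    have hab' : (a : ℝ) ≤ b := by exact_mod_cast hab
    have hT : (1 : ℝ) ≤ Real.exp (b + 1) := Real.one_le_exp (by positivity)
    have hLT : L ≤ Real.exp (b + 1) := hLb.trans (Real.exp_le_exp.2 (by linarith))
    have e1 := Real.exp_one_lt_d9
    have hint : ∀ x y : ℝ, IntervalIntegrable g volume x y := fun x y =>
      hgc.intervalIntegrable x y
    have h0 : ∀ t ∈ Set.Ioc (Real.exp (a : ℝ)) (Real.exp (a + 1)),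
        ∫ t' in Set.Ioc (Real.exp b) (Real.exp (b + 1)), g (t - t') / (t * t') ≤
          6 * C * Real.exp (-(a : ℝ)) := by
      intro t ht
      have ht0 : 0 < t := lt_trans (Real.exp_pos _) ht.1
      have h1 : ∫ t' in Set.Ioc (Real.exp (b : ℝ)) (Real.exp (b + 1)), g (t - t') / (t * t') ≤
          ∫ t' in Set.Ioc (Real.exp (b : ℝ)) (Real.exp (b + 1)),
            (Real.exp (-(a : ℝ)) * Real.exp (-(b : ℝ))) * g (t - t') := by
        refine integral_mono_of_nonneg ((ae_restrict_iff' measurableSet_Ioc).2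
          (Filter.Eventually.of_forall fun t' ht' => ?_)) ?_
          ((ae_restrict_iff' measurableSet_Ioc).2
          (Filter.Eventually.of_forall fun t' ht' => ?_))
        · have : 0 < t' := lt_trans (Real.exp_pos _) ht'.1
          exact div_nonneg (hg0 _) (by positivity)
        · refine Integrable.const_mul ?_ _
          exact ((hgc.comp (continuous_const.sub continuous_id)).integrableOn_Icc).mono_set
            Set.Ioc_subset_Icc_self
        · have ht'0 : 0 < t' := lt_trans (Real.exp_pos _) ht'.1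
          have h2 : 1 / (t * t') ≤ Real.exp (-(a : ℝ)) * Real.exp (-(b : ℝ)) := by
            rw [Real.exp_neg, Real.exp_neg, ← mul_inv, one_div]
            refine inv_anti₀ (by positivity) ?_
            exact mul_le_mul ht.1.le ht'.1.le (Real.exp_pos _).le ht0.le
          have h3 := mul_le_mul_of_nonneg_right h2 (hg0 (t - t'))
          calc g (t - t') / (t * t') = 1 / (t * t') * g (t - t') := by ring
            _ ≤ _ := h3
      refine h1.trans ?_
      rw [integral_const_mul]
      have h4 : ∫ t' in Set.Ioc (Real.exp (b : ℝ)) (Real.exp (b + 1)), g (t - t') ≤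
          2 * (C * Real.exp (b + 1)) := by
        have hle : Real.exp (b : ℝ) ≤ Real.exp (b + 1) := Real.exp_le_exp.2 (by linarith)
        rw [← intervalIntegral.integral_of_le hle,
          intervalIntegral.integral_comp_sub_left (fun x => g x) t]
        have h5 : ∫ x in (t - Real.exp (b + 1))..(t - Real.exp b), g x ≤
            ∫ x in (-Real.exp (b + 1))..(Real.exp (b + 1)), g x := by
          refine intervalIntegral.integral_mono_interval ?_ ?_ ?_
            (Filter.Eventually.of_forall fun s => hg0 _) (hint _ _)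
          · linarith
          · linarith
          · have h6 : t ≤ Real.exp (b + 1) := ht.2.trans (Real.exp_le_exp.2 (by linarith))
            have := Real.exp_pos (b : ℝ)
            linarith
        refine h5.trans ?_
        have h6 : ∫ x in (-Real.exp (b + 1))..(Real.exp (b + 1)), g x =
            (∫ x in (-Real.exp (b + 1))..0, g x) + ∫ x in (0 : ℝ)..(Real.exp (b + 1)), g x :=
          (intervalIntegral.integral_add_adjacent_intervals (hint _ _) (hint _ _)).symm
        have h7 : ∫ x in (-Real.exp (b + 1))..0, g x =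
            ∫ x in (0 : ℝ)..(Real.exp (b + 1)), g x := by
          have := intervalIntegral.integral_comp_neg (a := 0) (b := Real.exp (b + 1))
            (fun x => g x)
          rw [neg_zero] at this
          rw [← this]
          exact intervalIntegral.integral_congr fun x _ => hge x
        rw [h6, h7]
        have := hgT _ hT hLT
        linarith
      have h8 := mul_le_mul_of_nonneg_left h4
        (show 0 ≤ Real.exp (-(a : ℝ)) * Real.exp (-(b : ℝ)) by positivity)
      refine h8.trans ?_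
      have h9 : Real.exp (-(b : ℝ)) * Real.exp (b + 1) = Real.exp 1 := by
        rw [← Real.exp_add]; congr 1; ring
      calc Real.exp (-(a : ℝ)) * Real.exp (-(b : ℝ)) * (2 * (C * Real.exp (b + 1)))
          = 2 * C * Real.exp (-(a : ℝ)) * (Real.exp (-(b : ℝ)) * Real.exp (b + 1)) := by ring
        _ = 2 * C * Real.exp (-(a : ℝ)) * Real.exp 1 := by rw [h9]
        _ ≤ 2 * C * Real.exp (-(a : ℝ)) * 3 :=
            mul_le_mul_of_nonneg_left (by linarith) (by positivity)
        _ = _ := by ring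
    have hsub : Real.exp (a : ℝ) ≤ Real.exp (a + 1) := Real.exp_le_exp.2 (by linarith)
    calc _ ≤ ∫ _ in Set.Ioc (Real.exp (a : ℝ)) (Real.exp (a + 1)), 6 * C * Real.exp (-(a : ℝ)) := by
          refine integral_mono_of_nonneg ((ae_restrict_iff' measurableSet_Ioc).2
            (Filter.Eventually.of_forall fun t ht => ?_))
            (integrable_const _) ((ae_restrict_iff' measurableSet_Ioc).2
              (Filter.Eventually.of_forall fun t1 ht1 => h0 t1 ht1))
          refine setIntegral_nonneg measurableSet_Ioc fun t' ht' => ?_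
          have : 0 < t' := lt_trans (Real.exp_pos _) ht'.1
          have : 0 < t := lt_trans (Real.exp_pos _) ht.1
          exact div_nonneg (hg0 _) (by positivity)
      _ = (Real.exp (a + 1) - Real.exp a) * (6 * C * Real.exp (-(a : ℝ))) := by
          rw [setIntegral_const, smul_eq_mul]
          unfold Measure.real
          rw [Real.volume_Ioc, ENNReal.toReal_ofReal (by linarith)]
      _ ≤ (2 * Real.exp a) * (6 * C * Real.exp (-(a : ℝ))) := by
          refine mul_le_mul_of_nonneg_right ?_ (by positivity)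
          rw [Real.exp_add]
          have h5 := Real.exp_pos (a : ℝ)
          nlinarith
      _ = 12 * C * (Real.exp a * Real.exp (-(a : ℝ))) := by ring
      _ = _ := by rw [← Real.exp_add, add_neg_cancel, Real.exp_zero, mul_one]
  rcases le_total k k' with h12 | h12
  · exact key k k' h12 hk'
  · have hswap : ∫ t in Set.Ioc (Real.exp (k : ℝ)) (Real.exp (k + 1)),
        ∫ t' in Set.Ioc (Real.exp k') (Real.exp (k' + 1)), g (t - t') / (t * t') =
        ∫ t' in Set.Ioc (Real.exp (k' : ℝ)) (Real.exp (k' + 1)),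
        ∫ t in Set.Ioc (Real.exp k) (Real.exp (k + 1)), g (t - t') / (t * t') := by
      refine integral_integral_swap (f := fun t t' => g (t - t') / (t * t')) ?_
      rw [Measure.prod_restrict]
      have hcc : ContinuousOn (Function.uncurry fun t t' => g (t - t') / (t * t'))
          (Set.Icc (Real.exp (k : ℝ)) (Real.exp (k + 1)) ×ˢ
            Set.Icc (Real.exp (k' : ℝ)) (Real.exp (k' + 1))) := by
        simp only [Function.uncurry_def]
        refine ContinuousOn.div ?_ (by fun_prop) ?_
        · exact (hgc.comp (continuous_fst.sub continuous_snd)).continuousOn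
        · intro q hq
          have h1 : 0 < q.1 := lt_of_lt_of_le (Real.exp_pos _) hq.1.1
          have h2 : 0 < q.2 := lt_of_lt_of_le (Real.exp_pos _) hq.2.1
          positivity
      exact (hcc.integrableOn_compact (isCompact_Icc.prod isCompact_Icc)).mono_set
        (Set.prod_mono Set.Ioc_subset_Icc_self Set.Ioc_subset_Icc_self)
    rw [hswap]
    have h10 := key k' k h12 hk
    refine le_trans (le_of_eq ?_) h10
    refine integral_congr_ae (Filter.Eventually.of_forall fun t2 => ?_)
    refine integral_congr_ae (Filter.Eventually.of_forall fun t1 => ?_)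
    simp only
    rw [← hge, neg_sub, mul_comm t1 t2]

theorem dsm_CSc (A : Finset ℕ) (σ : ℝ) : Continuous (fun τ : ℝ => CS A σ τ) := by
  unfold CS; fun_prop

theorem dsm_al : al 1 = 2 := by
  unfold al; rw [Real.rpow_one]

/-- the covariance part integrated -/
theorem dsm_g (hNTF : S_NTF) (hNTG : S_NTG) (p0 : ℕ) (hp : (2 : ℝ) ≤ p0) : ∃ C : ℝ, 0 < C ∧
    ∀ (u σ T : ℝ), (p0 : ℝ) + 1 ≤ u → 1 ≤ Real.log u → |σ| * Real.log u ≤ 16 → 1 ≤ T →
    Real.log u ≤ T → ∫ τ in (0 : ℝ)..T, Real.exp (2 * CS (PrS p0 u) σ τ) ≤ C * T := by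
  obtain ⟨C1, hC1, hL1⟩ := h5_low p0 hp
  obtain ⟨C2, hC2, hL2⟩ := h5_low 2 (by norm_num)
  obtain ⟨C3, hC3, hN⟩ := hNTF 2 (by norm_num)
  obtain ⟨C4, hC4, hG⟩ := hNTG
  have hl2 : 0 < Real.log 2 := Real.log_pos (by norm_num)
  set D : ℝ := Real.exp (2 * (C1 + C2 + C4)) * (1 / Real.log 2) ^ 2 with hD
  have hD0 : 0 < D := by rw [hD]; positivity
  refine ⟨4 * D + Real.exp (2 * C1) * C3, by positivity, fun u σ T hu hlu hσ hT hTu => ?_⟩
  have hu2 : 2 ≤ u := by linarith
  have hcont : Continuous (fun τ : ℝ => Real.exp (2 * CS (PrS p0 u) σ τ)) :=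
    Real.continuous_exp.comp (continuous_const.mul (dsm_CSc _ _))
  have hcont1 : Continuous (fun τ : ℝ => Real.exp (2 * CS (PrS 1 u) σ τ)) :=
    Real.continuous_exp.comp (continuous_const.mul (dsm_CSc _ _))
  rw [← intervalIntegral.integral_add_adjacent_intervals (hcont.intervalIntegrable 0 1)
    (hcont.intervalIntegrable 1 T)]
  have h1 : ∫ τ in (0 : ℝ)..1, Real.exp (2 * CS (PrS p0 u) σ τ) ≤ 4 * D * T := by
    have h2 : ∫ τ in (0 : ℝ)..1, Real.exp (2 * CS (PrS p0 u) σ τ) ≤
        ∫ τ in (0 : ℝ)..1, D * (4 * Real.log u ^ 2 / (1 + Real.log u * τ) ^ 2) := by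
      refine intervalIntegral.integral_mono_on zero_le_one (hcont.intervalIntegrable _ _) ?_ ?_
      · refine ContinuousOn.intervalIntegrable ?_
        refine continuousOn_const.mul (ContinuousOn.div continuousOn_const (by fun_prop) ?_)
        intro τ hτ
        rw [Set.uIcc_of_le zero_le_one] at hτ
        have h0 : 0 ≤ Real.log u * τ := mul_nonneg (by linarith) hτ.1
        positivity
      · intro τ hτ
        have hτ0 := hτ.1
        have e1 := hL1 u σ τ (by linarith) hσ
        have e2 := hL2 u σ τ (by norm_num; linarith) hσ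
        have e3 := hG 2 u σ τ (by norm_num) hu2 hσ (by rw [abs_of_nonneg hτ0]; exact hτ.2) (by
          rw [abs_of_nonneg hτ0]
          have h5 : Real.log 2 ≤ 1 := by have := Real.log_two_lt_d9; linarith
          have := hτ.2
          nlinarith)
        rw [abs_of_nonneg hτ0] at e3
        push_cast at e2
        rw [abs_le] at e1 e2 e3
        set M : ℝ := (Real.log u / Real.log 2) / max 1 (τ * Real.log u) with hM
        have hmax : 0 < max 1 (τ * Real.log u) := lt_of_lt_of_le one_pos (le_max_left _ _)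
        have hM0 : 0 < M := by rw [hM]; positivity
        have h6 : CS (PrS p0 u) σ τ ≤ Real.log M + (C1 + C2 + C4) := by
          linarith [e1.1, e1.2, e2.1, e2.2, e3.1, e3.2]
        calc Real.exp (2 * CS (PrS p0 u) σ τ) ≤
              Real.exp (2 * (Real.log M + (C1 + C2 + C4))) := Real.exp_le_exp.2 (by linarith)
          _ = M ^ 2 * Real.exp (2 * (C1 + C2 + C4)) := by
              rw [mul_add, Real.exp_add]
              congr 1
              rw [two_mul, Real.exp_add, Real.exp_log hM0, sq]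
          _ = D * (Real.log u / max 1 (Real.log u * τ)) ^ 2 := by
              rw [hM, hD, mul_comm τ]
              field_simp
          _ ≤ D * (4 * Real.log u ^ 2 / (1 + Real.log u * τ) ^ 2) :=
              mul_le_mul_of_nonneg_left (dsm_max (by
                exact mul_nonneg (by linarith) hτ0)) hD0.le
    refine h2.trans ?_
    rw [intervalIntegral.integral_const_mul]
    have h7 := mul_le_mul_of_nonneg_left (dsm_near hlu) hD0.le
    refine h7.trans ?_
    have h8 := mul_le_mul_of_nonneg_left hTu hD0.le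
    linarith
  have h2 : ∫ τ in (1 : ℝ)..T, Real.exp (2 * CS (PrS p0 u) σ τ) ≤
      Real.exp (2 * C1) * (C3 * T) := by
    have h3 : ∫ τ in (1 : ℝ)..T, Real.exp (2 * CS (PrS p0 u) σ τ) ≤
        ∫ τ in (1 : ℝ)..T, Real.exp (2 * C1) * Real.exp (2 * CS (PrS 1 u) σ τ) := by
      refine intervalIntegral.integral_mono_on hT (hcont.intervalIntegrable _ _)
        ((hcont1.const_mul _).intervalIntegrable _ _) fun τ _ => ?_
      have e1 := hL1 u σ τ (by linarith) hσ
      rw [abs_le] at e1
      rw [← Real.exp_add]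
      exact Real.exp_le_exp.2 (by linarith [e1.1, e1.2])
    refine h3.trans ?_
    rw [intervalIntegral.integral_const_mul]
    exact mul_le_mul_of_nonneg_left (hN T u σ hT hu2 hσ) (Real.exp_pos _).le
  calc _ ≤ 4 * D * T + Real.exp (2 * C1) * (C3 * T) := add_le_add h1 h2
    _ = _ := by ring

theorem DSM (hMOM : S_MOM) (hNTA : S_NTA) (hNTF : S_NTF) (hGC : S_GC) (hNTG : S_NTG) : S_DSM := by
  intro p0 hg
  have hp2 := h5_two_le hg
  obtain ⟨C1, hC1, hU⟩ := h5_MOM2 hMOM 1 p0 hg 1
  obtain ⟨C2, hC2, hL⟩ := h5_LLB hNTA p0 hp2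
  obtain ⟨C3, hC3, hI⟩ := dsm_g hNTF hNTG p0 hp2
  refine ⟨C1 * Real.exp (2 * C2) * (12 * C3), by positivity, fun u σ k k' hu hσ hk hk' => ?_⟩
  have hp16 : (4 : ℝ) * Real.exp 16 ≤ p0 := hg.1
  have e16 := Real.add_one_le_exp (16 : ℝ)
  have hu0 : 0 < u := by linarith
  have hlu : 1 ≤ Real.log u := by
    rw [Real.le_log_iff_exp_le hu0]
    have := Real.exp_one_lt_d9
    linarith
  have hue : Real.exp 1 ≤ u := by
    have := Real.exp_one_lt_d9
    linarith
  have hlk : Real.log u ≤ Real.exp k := by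
    rw [← Real.exp_log (by linarith : 0 < Real.log u)]
    exact Real.exp_le_exp.2 hk
  have hlk' : Real.log u ≤ Real.exp k' := by
    rw [← Real.exp_log (by linarith : 0 < Real.log u)]
    exact Real.exp_le_exp.2 hk'
  have h16 : |σ + σ| * Real.log u ≤ 16 := by
    rw [← two_mul, abs_mul, abs_of_pos (by norm_num : (0 : ℝ) < 2)]; linarith
  have hPA : PA p0 (PrS p0 u) := h5_PA le_rfl
  have hLn : Ln (PrS p0 u) σ := h5_Ln (by positivity) hu0.le hσ
  obtain ⟨hGcont, hexp, hbd⟩ := hGC 1 p0 hg (PrS p0 u) hPA σ hLn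
  have e1 := hL u (σ + σ) hue h16
  set g : ℝ → ℝ := fun τ => Real.exp (2 * CS (PrS p0 u) (σ + σ) τ) with hgdef
  have hgc : Continuous g := Real.continuous_exp.comp (continuous_const.mul (dsm_CSc _ _))
  have hg0 : ∀ τ, 0 ≤ g τ := fun τ => (Real.exp_pos _).le
  have hge : ∀ τ, g (-τ) = g τ := fun τ => by simp only [hgdef, h5_CS_neg]
  -- pointwise
  have hpt : ∀ t t' : ℝ, ∫ ω : Om, ‖F 1 (PrS p0 u) σ t ω‖ * ‖F 1 (PrS p0 u) σ t' ω‖ ∂P ≤
      C1 * Real.exp (2 * C2) * (Real.log u) ^ 2 * g (t - t') := by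
    intro t t'
    have h := hU 1 1 (PrS p0 u) (PrS p0 u) σ t t' (by simp) (by simp) hPA hPA hLn hLn
    have e2 : ∫ ω : Om, Complex.exp ((1 : ℂ) * (G 1 (PrS p0 u) σ t ω : ℂ) +
        (1 : ℂ) * (G 1 (PrS p0 u) σ t' ω : ℂ)) ∂P =
        ((∫ ω : Om, ‖F 1 (PrS p0 u) σ t ω‖ * ‖F 1 (PrS p0 u) σ t' ω‖ ∂P : ℝ) : ℂ) := by
      rw [← integral_complex_ofReal]
      refine integral_congr_ae (Filter.Eventually.of_forall fun ω => ?_)
      simp only
      rw [hexp t ω, hexp t' ω, ← Real.exp_add]
      push_cast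
      rw [one_mul, one_mul]
    rw [e2, Complex.norm_real, Real.norm_eq_abs, Finset.inter_self] at h
    refine (le_abs_self _).trans (h.trans ?_)
    have e3 : (((al 1 : ℂ)) ^ 2 / 4 * ((1 : ℂ) ^ 2 * (CS (PrS p0 u) (σ + σ) 0 : ℂ) +
        2 * 1 * 1 * (CS (PrS p0 u) (σ + σ) (t - t') : ℂ) +
        (1 : ℂ) ^ 2 * (CS (PrS p0 u) (σ + σ) 0 : ℂ))).re =
        2 * CS (PrS p0 u) (σ + σ) 0 + 2 * CS (PrS p0 u) (σ + σ) (t - t') := by
      have : (((al 1 : ℂ)) ^ 2 / 4 * ((1 : ℂ) ^ 2 * (CS (PrS p0 u) (σ + σ) 0 : ℂ) +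
        2 * 1 * 1 * (CS (PrS p0 u) (σ + σ) (t - t') : ℂ) +
        (1 : ℂ) ^ 2 * (CS (PrS p0 u) (σ + σ) 0 : ℂ))) =
        ((2 * CS (PrS p0 u) (σ + σ) 0 + 2 * CS (PrS p0 u) (σ + σ) (t - t') : ℝ) : ℂ) := by
        rw [dsm_al]; push_cast; ring
      rw [this, Complex.ofReal_re]
    rw [e3, Real.exp_add]
    rw [abs_le] at e1
    have e4 : Real.exp (2 * CS (PrS p0 u) (σ + σ) 0) ≤ Real.exp (2 * C2) * (Real.log u) ^ 2 := by
      have : (Real.log u) ^ 2 = Real.exp (2 * Real.log (Real.log u)) := by
        rw [two_mul, Real.exp_add, Real.exp_log (by linarith), sq]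
      rw [this, ← Real.exp_add]
      exact Real.exp_le_exp.2 (by linarith [e1.1, e1.2])
    calc C1 * (Real.exp (2 * CS (PrS p0 u) (σ + σ) 0) * g (t - t')) ≤
        C1 * ((Real.exp (2 * C2) * (Real.log u) ^ 2) * g (t - t')) :=
          mul_le_mul_of_nonneg_left (mul_le_mul_of_nonneg_right e4 (hg0 _)) hC1.le
      _ = _ := by ring
  have h2 := dsm_two hgc hg0 hge (L := Real.log u) hC3.le (fun T hT hTu =>
    hI u (σ + σ) T hu hlu h16 hT hTu) k k' hlk hlk'
  set D : ℝ := C1 * Real.exp (2 * C2) * (Real.log u) ^ 2 with hD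
  have hD0 : 0 ≤ D := by rw [hD]; positivity
  have hcc : ContinuousOn (Function.uncurry fun t t' => g (t - t') / (t * t'))
      (Set.Icc (Real.exp (k : ℝ)) (Real.exp (k + 1)) ×ˢ
        Set.Icc (Real.exp (k' : ℝ)) (Real.exp (k' + 1))) := by
    simp only [Function.uncurry_def]
    refine ContinuousOn.div ?_ (by fun_prop) ?_
    · exact (hgc.comp (continuous_fst.sub continuous_snd)).continuousOn
    · intro q hq
      have h1 : 0 < q.1 := lt_of_lt_of_le (Real.exp_pos _) hq.1.1
      have h2 : 0 < q.2 := lt_of_lt_of_le (Real.exp_pos _) hq.2.1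
      positivity
  have hprod : Integrable (Function.uncurry fun t t' => g (t - t') / (t * t'))
      ((volume.restrict (Set.Ioc (Real.exp (k : ℝ)) (Real.exp (k + 1)))).prod
        (volume.restrict (Set.Ioc (Real.exp (k' : ℝ)) (Real.exp (k' + 1))))) := by
    rw [Measure.prod_restrict]
    exact (hcc.integrableOn_compact (isCompact_Icc.prod isCompact_Icc)).mono_set
      (Set.prod_mono Set.Ioc_subset_Icc_self Set.Ioc_subset_Icc_self)
  have h3 : ∫ t in Set.Ioc (Real.exp (k : ℝ)) (Real.exp (k + 1)),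
      ∫ t' in Set.Ioc (Real.exp (k' : ℝ)) (Real.exp (k' + 1)),
      (∫ ω : Om, ‖F 1 (PrS p0 u) σ t ω‖ * ‖F 1 (PrS p0 u) σ t' ω‖ ∂P) / (t * t') ≤
      D * ∫ t in Set.Ioc (Real.exp (k : ℝ)) (Real.exp (k + 1)),
      ∫ t' in Set.Ioc (Real.exp (k' : ℝ)) (Real.exp (k' + 1)), g (t - t') / (t * t') := by
    rw [← integral_const_mul]
    refine integral_mono_of_nonneg ((ae_restrict_iff' measurableSet_Ioc).2
        (Filter.Eventually.of_forall fun t ht => ?_)) ?_ ((ae_restrict_iff' measurableSet_Ioc).2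
        (Filter.Eventually.of_forall fun t ht => ?_))
    · refine setIntegral_nonneg measurableSet_Ioc fun t' ht' => ?_
      have h4 : 0 < t := lt_trans (Real.exp_pos _) ht.1
      have h5 : 0 < t' := lt_trans (Real.exp_pos _) ht'.1
      refine div_nonneg (integral_nonneg fun ω => ?_) (by positivity)
      exact mul_nonneg (norm_nonneg _) (norm_nonneg _)
    · exact (hprod.integral_prod_left).const_mul D
    · simp only
      rw [← integral_const_mul]
      have ht0 : 0 < t := lt_trans (Real.exp_pos _) ht.1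
      refine integral_mono_of_nonneg ((ae_restrict_iff' measurableSet_Ioc).2
        (Filter.Eventually.of_forall fun t' ht' => ?_)) ?_ ((ae_restrict_iff' measurableSet_Ioc).2
        (Filter.Eventually.of_forall fun t' ht' => ?_))
      · have h5 : 0 < t' := lt_trans (Real.exp_pos _) ht'.1
        refine div_nonneg (integral_nonneg fun ω => ?_) (by positivity)
        exact mul_nonneg (norm_nonneg _) (norm_nonneg _)
      · refine Integrable.const_mul ?_ D
        refine (ContinuousOn.integrableOn_compact isCompact_Icc ?_).mono_set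
          (Set.Ioc_subset_Icc_self (a := Real.exp (k' : ℝ)) (b := Real.exp (k' + 1)))
        refine ContinuousOn.div ?_ (by fun_prop) ?_
        · exact (hgc.comp (continuous_const.sub continuous_id)).continuousOn
        · intro q hq
          have h2 : 0 < q := lt_of_lt_of_le (Real.exp_pos _) hq.1
          positivity
      · have h5 : 0 < t' := lt_trans (Real.exp_pos _) ht'.1
        simp only
        rw [← mul_div_assoc]
        exact div_le_div_of_nonneg_right (hpt t t') (by positivity)
  refine h3.trans ?_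
  calc _ ≤ D * (12 * C3) := mul_le_mul_of_nonneg_left h2 hD0
    _ = _ := by rw [hD]; ring

end PN
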