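import Pool.Agent.H24.PN.RL2
import Pool.Agent.H24.PM.ASM

/-! Assembly of part 2. -/

namespace PN
open MeasureTheory Complex PM

/-- all of part 1 which part 2 uses -/
structure Part1 : Prop where
  good : S_GOOD
  ured : S_URED
  m1 : S_M1
  smu : S_SMU
  lred : S_LRED
  plu : S_PLU
  jm : S_JM
  sml : S_SML
  bohr : S_BOHR
  sub : ∀ γ p : ℝ, 0 < p → p ≤ 1 → (2 : ℝ) ^ γ * (1 + Real.sqrt (1 - p)) < 2 →
    Order γ p (fun N => (Real.log N) ^ ((2 : ℝ) ^ (2 * γ) * p / 4))
  sup : ∀ γ p : ℝ, 0 < p → p < 1 → 1 < γ →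
    Order γ p (fun N => (Real.log N) ^ ((2 : ℝ) ^ (2 * γ) / 4))
  sup1 : ∀ γ : ℝ, 1 < γ →
    Order γ 1 (fun N => (Real.log N) ^ ((2 : ℝ) ^ (2 * γ) / 4) * Real.log (Real.log N))

/-- the exact order of the norm -/
noncomputable def gord (γ p : ℝ) (N : ℕ) : ℝ :=
  if (2 : ℝ) ^ γ * (1 + Real.sqrt (1 - p)) < 2 then (Real.log N) ^ ((2 : ℝ) ^ (2 * γ) * p / 4)
  else if 1 < γ then
    (Real.log N) ^ ((2 : ℝ) ^ (2 * γ) / 4) * (if p = 1 then Real.log (Real.log N) else 1)
  else if γ = 1 then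
    Real.log N * (Real.log (Real.log N)) ^ (if p = 1 then (1 / 2 : ℝ) else -(1 / 2 : ℝ))
  else if 2 < (2 : ℝ) ^ γ * (1 + Real.sqrt (1 - p)) then
    (Real.log N) ^ ((2 : ℝ) ^ γ - 1) * (Real.log (Real.log N)) ^ (-(3 * (2 : ℝ) ^ γ / 4))
  else (Real.log N) ^ ((2 : ℝ) ^ γ - 1) *
    (if p < 8 / 9 then (Real.log (Real.log N)) ^ ((1 - 3 * (2 : ℝ) ^ γ * p / 4) / p)
      else if p = 8 / 9 then (Real.log (Real.log (Real.log N))) ^ (9 / 8 : ℝ) else 1)

lemma slow_rpow (r : ℝ) : Slow (fun m => m ^ r) := by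
  refine ⟨fun m hm => by positivity, 1, ⌈|r|⌉₊, one_pos, ?_⟩
  intro m m' h1 h2
  have hm : 0 < m := by linarith
  have hm' : 0 < m' := by linarith
  have h3 : m ≤ (1 + (m - m')) * m' := by nlinarith
  have h4 : (1 : ℝ) ≤ 1 + (m - m') := by linarith
  have h5 : (1 + (m - m')) ^ |r| ≤ (1 + (m - m')) ^ ⌈|r|⌉₊ := by
    rw [← Real.rpow_natCast]
    exact Real.rpow_le_rpow_of_exponent_le h4 (Nat.le_ceil _)
  have h6 : (1 : ℝ) ≤ (1 + (m - m')) ^ |r| := Real.one_le_rpow h4 (abs_nonneg r)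
  simp only [one_mul]
  rcases le_total 0 r with hr | hr
  · rw [abs_of_nonneg hr] at *
    constructor
    · calc m' ^ r ≤ m ^ r := Real.rpow_le_rpow hm'.le h2 hr
        _ ≤ (1 + (m - m')) ^ ⌈r⌉₊ * m ^ r := by
          have : 0 < m ^ r := by positivity
          nlinarith [h6.trans h5]
    · calc m ^ r ≤ ((1 + (m - m')) * m') ^ r := Real.rpow_le_rpow hm.le h3 hr
        _ = (1 + (m - m')) ^ r * m' ^ r := Real.mul_rpow (by linarith) hm'.le
        _ ≤ _ := by gcongr
  · rw [abs_of_nonpos hr] at *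
    constructor
    · have h7 : ((1 + (m - m')) * m') ^ r ≤ m ^ r := Real.rpow_le_rpow_of_nonpos hm h3 hr
      rw [Real.mul_rpow (by linarith) hm'.le] at h7
      have h8 : (1 + (m - m')) ^ (-r) * (1 + (m - m')) ^ r = 1 := by
        rw [← Real.rpow_add (by linarith)]; simp
      calc m' ^ r = (1 + (m - m')) ^ (-r) * ((1 + (m - m')) ^ r * m' ^ r) := by
            rw [← mul_assoc, h8, one_mul]
        _ ≤ (1 + (m - m')) ^ (-r) * m ^ r := mul_le_mul_of_nonneg_left h7 (by positivity)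
        _ ≤ _ := mul_le_mul_of_nonneg_right h5 (by positivity)
    · calc m ^ r ≤ m' ^ r := Real.rpow_le_rpow_of_nonpos hm' h2 hr
        _ ≤ (1 + (m - m')) ^ ⌈-r⌉₊ * m' ^ r := by
          have : 0 < m' ^ r := by positivity
          nlinarith [h6.trans h5]

lemma slow_log : Slow (fun m => Real.log (m + 1)) := by
  refine ⟨fun m hm => Real.log_pos (by linarith), 1, 1, one_pos, ?_⟩
  intro m m' h1 h2
  have h3 : (1 / 2 : ℝ) ≤ Real.log (m' + 1) := by
    have : Real.log 2 ≤ Real.log (m' + 1) := Real.log_le_log (by norm_num) (by linarith)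
    linarith [Real.log_two_gt_d9]
  have h4 : Real.log (m' + 1) ≤ Real.log (m + 1) := Real.log_le_log (by linarith) (by linarith)
  have h5 : Real.log (m + 1) ≤ Real.log (m' + 1) + (m - m') / 2 := by
    have h6 : Real.log ((m + 1) / (m' + 1)) ≤ (m + 1) / (m' + 1) - 1 :=
      Real.log_le_sub_one_of_pos (by apply div_pos <;> linarith)
    rw [Real.log_div (by linarith) (by linarith)] at h6
    have h7 : (m + 1) / (m' + 1) - 1 = (m - m') / (m' + 1) := by field_simp; ring
    have h8 : (m - m') / (m' + 1) ≤ (m - m') / 2 := by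
      apply div_le_div_of_nonneg_left <;> linarith
    linarith
  simp only [one_mul, pow_one]
  constructor
  · nlinarith
  · nlinarith

lemma slow_one : Slow (fun _ => 1) := by
  refine ⟨fun _ _ => one_pos, 1, 0, one_pos, fun m m' _ _ => by simp⟩

/-- closed form of the sum -/
noncomputable def Hs (e m : ℝ) : ℝ :=
  if e < -1 then 1 else if e = -1 then Real.log (m + 1) else m ^ (e + 1)

lemma slow_Hs (e : ℝ) : Slow (Hs e) := by
  unfold Hs
  rcases lt_or_ge e (-1) with h | h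
  · simp only [h, if_true]; exact slow_one
  · simp only [not_lt.2 h, if_false]
    rcases eq_or_ne e (-1) with h' | h'
    · simp only [h', if_true]; exact slow_log
    · simp only [h', if_false]; exact slow_rpow _

lemma Hs_ge (e : ℝ) {m : ℝ} (hm : 1 ≤ m) : 1 / 2 ≤ Hs e m := by
  unfold Hs
  split_ifs with h h'
  · norm_num
  · have : Real.log 2 ≤ Real.log (m + 1) := Real.log_le_log (by norm_num) (by linarith)
    linarith [Real.log_two_gt_d9]
  · have : (1 : ℝ) ≤ m ^ (e + 1) := Real.one_le_rpow hm (by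
      rcases lt_or_eq_of_le (not_lt.1 h) with h1 | h1
      · linarith
      · exact absurd h1.symm h')
    linarith

/-- two sided bound for the moments -/
theorem mid (h1 : Part1) (γ p : ℝ) (hp : 0 < p) (hp1 : p ≤ 1) (p0 : ℕ) (hG : Good γ p0)
    (a : ℝ) (ha : 0 < a) (H : ℝ → ℝ) (hH : Slow H) (C2 : ℝ)
    (hF : ∀ y : ℝ, (p0 : ℝ) + 1 ≤ y → (Real.log y) ^ ((al γ) ^ 2 * p ^ 2 / 4) ≤
      C2 * ((Real.log y) ^ a * H (Real.log (Real.log y))))
    (hu : ∃ C1 : ℝ, 0 < C1 ∧ ∀ (y σ : ℝ), (p0 : ℝ) + 1 ≤ y → 1 ≤ 4 * |σ| * Real.log y →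
      |σ| * Real.log y ≤ 2 → ∫ ω : Om, (JF γ (PrS p0 y) σ ω / Real.log y) ^ (p / 2) ∂P ≤
        C1 * ((Real.log y) ^ a * H (Real.log (Real.log y))))
    (hl : ∃ c y0 : ℝ, 0 < c ∧ Real.exp 3 ≤ y0 ∧ ∀ y : ℝ, y0 ≤ y →
      c * ((Real.log y) ^ a * H (Real.log (Real.log y))) ≤
      ∫ ω : Om, (JF γ (PrS p0 y) (1 / Real.log y) ω / Real.log y) ^ (p / 2) ∂P) :
    ∃ c C : ℝ, 0 < c ∧ 0 < C ∧ ∀ N : ℕ, 16 ≤ N →
      c * ((Real.log N) ^ a * H (Real.log (Real.log N))) ≤ ∫ ω : Om, ‖D γ N ω‖ ^ p ∂P ∧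
      ∫ ω : Om, ‖D γ N ω‖ ^ p ∂P ≤ C * ((Real.log N) ^ a * H (Real.log (Real.log N))) := by
  obtain ⟨C1, hC1, hu⟩ := hu
  obtain ⟨c1, y0, hc1, hy0, hl⟩ := hl
  obtain ⟨hp04, hlp0⟩ := good_p0 hG
  have hlog : ∀ y : ℝ, (p0 : ℝ) + 1 ≤ y → 0 < Real.log y := fun y hy =>
    lt_of_lt_of_le one_pos (hlp0.trans (Real.log_le_log (by linarith) (by linarith)))
  obtain ⟨C, hC, hup⟩ := upper2 h1.ured h1.m1 h1.smu γ p hp hp1 p0 hG a ha H hH C2 hF C1
    (fun y hy => hu y _ hy (by
      have := hlog y hy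
      rw [abs_neg, abs_of_nonneg (by positivity)]
      field_simp
      norm_num) (by
      have := hlog y hy
      rw [abs_neg, abs_of_nonneg (by positivity)]
      field_simp
      norm_num))
  obtain ⟨c, hc, hlo⟩ := lower2 h1.lred h1.plu h1.jm h1.sml γ p hp hp1 p0 hG a ha H hH c1 y0 C1
    hc1 hC1.le hy0 hl (fun y hy => hu y _ hy (by
      have := hlog y hy
      rw [abs_of_nonneg (by positivity)]
      field_simp
      norm_num) (by
      have := hlog y hy
      rw [abs_of_nonneg (by positivity)]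
      field_simp
      norm_num))
  exact ⟨c, C, hc, hC, fun N hN => ⟨hlo N hN, hup N hN⟩⟩

lemma pow_dom (k : ℝ) {δ : ℝ} (hδ : 0 < δ) : ∃ C : ℝ, 0 < C ∧ ∀ Y : ℝ, Real.exp 1 ≤ Y →
    Y ^ (-δ) * (Real.log Y) ^ k ≤ C := by
  obtain ⟨C, hC, h⟩ := poly_exp_bound ⌈|k|⌉₊ hδ
  refine ⟨C, hC, fun Y hY => ?_⟩
  have hY0 : 0 < Y := lt_of_lt_of_le (Real.exp_pos 1) hY
  have hl : 1 ≤ Real.log Y := by rwa [Real.le_log_iff_exp_le hY0]
  refine le_trans ?_ (h (Real.log Y) (by linarith))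
  rw [mul_comm, Real.rpow_def_of_pos hY0]
  have h1 : (Real.log Y) ^ k ≤ (1 + Real.log Y) ^ ⌈|k|⌉₊ := by
    calc (Real.log Y) ^ k ≤ (Real.log Y) ^ |k| :=
          Real.rpow_le_rpow_of_exponent_le hl (le_abs_self k)
      _ ≤ (1 + Real.log Y) ^ |k| := Real.rpow_le_rpow (by linarith) (by linarith) (abs_nonneg k)
      _ ≤ (1 + Real.log Y) ^ ((⌈|k|⌉₊ : ℕ) : ℝ) :=
          Real.rpow_le_rpow_of_exponent_le (by linarith) (Nat.le_ceil _)
      _ = _ := Real.rpow_natCast _ _
  calc _ ≤ (1 + Real.log Y) ^ ⌈|k|⌉₊ * Real.exp (Real.log Y * -δ) :=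
        mul_le_mul_of_nonneg_right h1 (Real.exp_pos _).le
    _ = _ := by congr 2; ring

lemma log_y_ge {γ : ℝ} {p0 : ℕ} (hG : Good γ p0) {y : ℝ} (hy : (p0 : ℝ) + 1 ≤ y) :
    Real.exp 1 ≤ Real.log y := by
  have h1 := hG.1
  have h0 : 0 < (p0 : ℝ) := lt_of_lt_of_le (by positivity) h1
  have h2 : (16 : ℝ) ≤ Real.log p0 := by
    rw [Real.le_log_iff_exp_le h0]
    nlinarith [Real.exp_pos 16]
  have h3 : Real.log p0 ≤ Real.log y := Real.log_le_log h0 (by linarith)
  linarith [Real.exp_one_lt_d9]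

/-- data of N -/
lemma logN16 {N : ℕ} (hN : 16 ≤ N) : Real.exp 1 < Real.log N ∧ 1 < Real.log (Real.log N) ∧
    0 < Real.log (Real.log (Real.log N)) ∧ Real.log (Real.log 16) ≤ Real.log (Real.log N) ∧
    1 < Real.log (Real.log 16) := by
  have hN' : (16 : ℝ) ≤ N := by exact_mod_cast hN
  have h16 : Real.exp 1 < Real.log 16 := by
    have h5 : Real.log 16 = 4 * Real.log 2 := by
      rw [show (16 : ℝ) = 2 ^ (4 : ℕ) by norm_num, Real.log_pow]; norm_num
    rw [h5]
    linarith [Real.exp_one_lt_d9, Real.log_two_gt_d9]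
  have h1 : Real.log 16 ≤ Real.log N := Real.log_le_log (by norm_num) hN'
  have h160 : 0 < Real.log 16 := lt_trans (Real.exp_pos 1) h16
  have h2 : 1 < Real.log (Real.log 16) := by
    rw [Real.lt_log_iff_exp_lt h160]; exact h16
  have h3 : Real.log (Real.log 16) ≤ Real.log (Real.log N) := Real.log_le_log h160 h1
  exact ⟨lt_of_lt_of_le h16 h1, lt_of_lt_of_le h2 h3, Real.log_pos (lt_of_lt_of_le h2 h3), h3, h2⟩

/-- from moments to norms, up to a comparable function -/
theorem order_cmp (hB : S_BOHR) {γ p : ℝ} (hp : 0 < p) {g : ℕ → ℝ} {f : ℕ → ℝ}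
    (hg : ∀ N, 16 ≤ N → 0 ≤ g N) {c C c' C' : ℝ} (hc : 0 < c) (hC : 0 < C) (hc' : 0 < c')
    (hC' : 0 < C') (h1 : ∀ N, 16 ≤ N → c' * (g N) ^ p ≤ f N ∧ f N ≤ C' * (g N) ^ p)
    (h2 : ∀ N : ℕ, 16 ≤ N → c * f N ≤ ∫ ω : Om, ‖D γ N ω‖ ^ p ∂P ∧
      ∫ ω : Om, ‖D γ N ω‖ ^ p ∂P ≤ C * f N) : Order γ p g := by
  refine order_of hB hp hg (c := c * c') (C := C * C') (by positivity) (by positivity) ?_ ?_
  · intro N hN
    calc c * c' * (g N) ^ p = c * (c' * (g N) ^ p) := by ring
      _ ≤ c * f N := mul_le_mul_of_nonneg_left (h1 N hN).1 hc.le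
      _ ≤ _ := (h2 N hN).1
  · intro N hN
    calc _ ≤ C * f N := (h2 N hN).2
      _ ≤ C * (C' * (g N) ^ p) := mul_le_mul_of_nonneg_left (h1 N hN).2 hC.le
      _ = _ := by ring

lemma al_two_pow (γ : ℝ) : al γ = (2 : ℝ) ^ γ := rfl

/-- the open window -/
theorem case_open (h1 : Part1) (hC : S_CLW) (hJ : S_JUC) (γ p : ℝ) (hp : 0 < p) (hp1 : p ≤ 1)
    (ha1 : 1 < al γ) (ha2 : al γ < 2) (hlt : (al γ) ^ 2 * p / 4 < al γ - 1) :
    Order γ p (fun N => (Real.log N) ^ (al γ - 1) *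
      (Real.log (Real.log N)) ^ (-(3 * al γ / 4))) := by
  obtain ⟨p0, hG⟩ := h1.good γ
  have hapos : 0 < p * (al γ - 1) := mul_pos hp (by linarith)
  obtain ⟨C2, hC2, hdom⟩ := pow_dom (3 * al γ * p / 4)
    (show 0 < p * (al γ - 1) - (al γ) ^ 2 * p ^ 2 / 4 by nlinarith)
  obtain ⟨c, C, hc, hC', hN⟩ := mid h1 γ p hp hp1 p0 hG (p * (al γ - 1)) hapos
    (fun m => m ^ (-(3 * al γ * p / 4))) (slow_rpow _) C2 (by
      intro y hy
      have hY := log_y_ge hG hy
      have hY0 : 0 < Real.log y := lt_of_lt_of_le (Real.exp_pos 1) hY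
      have hL : 1 ≤ Real.log (Real.log y) := by rwa [Real.le_log_iff_exp_le hY0]
      have h3 := hdom _ hY
      have hL0 : 0 < Real.log (Real.log y) := by linarith
      have e1 : (Real.log (Real.log y)) ^ (-(3 * al γ * p / 4)) *
          (Real.log (Real.log y)) ^ (3 * al γ * p / 4) = 1 := by
        rw [← Real.rpow_add hL0]; simp
      have e2 : (Real.log y) ^ (p * (al γ - 1)) *
          (Real.log y) ^ (-(p * (al γ - 1) - (al γ) ^ 2 * p ^ 2 / 4)) =
          (Real.log y) ^ ((al γ) ^ 2 * p ^ 2 / 4) := by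
        rw [← Real.rpow_add hY0]; congr 1; ring
      have h4 := mul_le_mul_of_nonneg_left h3 (show 0 ≤ (Real.log y) ^ (p * (al γ - 1)) *
        (Real.log (Real.log y)) ^ (-(3 * al γ * p / 4)) by positivity)
      calc (Real.log y) ^ ((al γ) ^ 2 * p ^ 2 / 4) = (Real.log y) ^ (p * (al γ - 1)) *
            (Real.log (Real.log y)) ^ (-(3 * al γ * p / 4)) *
            ((Real.log y) ^ (-(p * (al γ - 1) - (al γ) ^ 2 * p ^ 2 / 4)) *
              (Real.log (Real.log y)) ^ (3 * al γ * p / 4)) := by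
            rw [← e2]
            linear_combination -(Real.log y) ^ (p * (al γ - 1)) *
              (Real.log y) ^ (-(p * (al γ - 1) - (al γ) ^ 2 * p ^ 2 / 4)) * e1
        _ ≤ _ := h4
        _ = _ := by ring) (by
      obtain ⟨C1, hC1, h⟩ := hJ γ p hp hp1 ha1 ha2 hlt p0 hG
      exact ⟨C1, hC1, fun y σ a b c => by rw [← mul_assoc]; exact h y σ a b c⟩) (by
      obtain ⟨c, y0, hc, hy0, h⟩ := hC γ p p0 hG ha1 hp hp1
      exact ⟨c, y0, hc, hy0, fun y a => by rw [← mul_assoc]; exact h y a⟩)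
  refine order_cmp h1.bohr hp (fun N hN => ?_) hc hC' one_pos one_pos (fun N hN => ?_) hN
  · obtain ⟨h3, h4, -, -, -⟩ := logN16 hN
    have : 0 < Real.log N := lt_trans (Real.exp_pos 1) h3
    positivity
  · obtain ⟨h3, h4, -, -, -⟩ := logN16 hN
    have h5 : 0 < Real.log N := lt_trans (Real.exp_pos 1) h3
    have h6 : 0 < Real.log (Real.log N) := by linarith
    have h7 : ((Real.log N) ^ (al γ - 1) * (Real.log (Real.log N)) ^ (-(3 * al γ / 4))) ^ p =
        (Real.log N) ^ (p * (al γ - 1)) * (Real.log (Real.log N)) ^ (-(3 * al γ * p / 4)) := by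
      rw [Real.mul_rpow (by positivity) (by positivity), ← Real.rpow_mul h5.le,
        ← Real.rpow_mul h6.le]
      congr 2 <;> ring
    simp only [one_mul]
    rw [h7]
    exact ⟨le_rfl, le_rfl⟩

/-- gamma = 1, p < 1 -/
theorem case_two (h1 : Part1) (hD : S_DLW) (hJ : S_JUD) (p : ℝ) (hp : 0 < p) (hp1 : p < 1) :
    Order 1 p (fun N => Real.log N * (Real.log (Real.log N)) ^ (-(1 / 2) : ℝ)) := by
  obtain ⟨p0, hG⟩ := h1.good 1
  have hal : al 1 = 2 := by unfold al; norm_num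
  obtain ⟨C2, hC2, hdom⟩ := pow_dom (p / 2) (show 0 < p - p ^ 2 by nlinarith)
  obtain ⟨c, C, hc, hC', hN⟩ := mid h1 1 p hp hp1.le p0 hG p hp
    (fun m => m ^ (-(p / 2))) (slow_rpow _) C2 (by
      intro y hy
      have hY := log_y_ge hG hy
      have hY0 : 0 < Real.log y := lt_of_lt_of_le (Real.exp_pos 1) hY
      have hL : 1 ≤ Real.log (Real.log y) := by rwa [Real.le_log_iff_exp_le hY0]
      have h3 := hdom _ hY
      have hL0 : 0 < Real.log (Real.log y) := by linarith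
      have e1 : (Real.log (Real.log y)) ^ (-(p / 2)) *
          (Real.log (Real.log y)) ^ (p / 2) = 1 := by
        rw [← Real.rpow_add hL0]; simp
      have e2 : (Real.log y) ^ p * (Real.log y) ^ (-(p - p ^ 2)) = (Real.log y) ^ (p ^ 2) := by
        rw [← Real.rpow_add hY0]; congr 1; ring
      have h4 := mul_le_mul_of_nonneg_left h3 (show 0 ≤ (Real.log y) ^ p *
        (Real.log (Real.log y)) ^ (-(p / 2)) by positivity)
      calc (Real.log y) ^ ((al 1) ^ 2 * p ^ 2 / 4) = (Real.log y) ^ p *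
            (Real.log (Real.log y)) ^ (-(p / 2)) *
            ((Real.log y) ^ (-(p - p ^ 2)) * (Real.log (Real.log y)) ^ (p / 2)) := by
            rw [hal, show (2 : ℝ) ^ 2 * p ^ 2 / 4 = p ^ 2 by ring, ← e2]
            linear_combination -(Real.log y) ^ p * (Real.log y) ^ (-(p - p ^ 2)) * e1
        _ ≤ _ := h4
        _ = _ := by ring) (by
      obtain ⟨C1, hC1, h⟩ := hJ p hp hp1 p0 hG
      exact ⟨C1, hC1, fun y σ a b c => by rw [← mul_assoc]; exact h y σ a b c⟩) (by
      obtain ⟨c, y0, hc, hy0, h⟩ := hD p p0 hG hp hp1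
      exact ⟨c, y0, hc, hy0, fun y a => by rw [← mul_assoc]; exact h y a⟩)
  refine order_cmp h1.bohr hp (fun N hN => ?_) hc hC' one_pos one_pos (fun N hN => ?_) hN
  · obtain ⟨h3, h4, -, -, -⟩ := logN16 hN
    have : 0 < Real.log N := lt_trans (Real.exp_pos 1) h3
    positivity
  · obtain ⟨h3, h4, -, -, -⟩ := logN16 hN
    have h5 : 0 < Real.log N := lt_trans (Real.exp_pos 1) h3
    have h6 : 0 < Real.log (Real.log N) := by linarith
    have h7 : (Real.log N * (Real.log (Real.log N)) ^ (-(1 / 2) : ℝ)) ^ p =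
        (Real.log N) ^ p * (Real.log (Real.log N)) ^ (-(p / 2)) := by
      rw [Real.mul_rpow (by positivity) (by positivity), ← Real.rpow_mul h6.le]
      congr 2; ring
    simp only [one_mul]
    rw [h7]
    exact ⟨le_rfl, le_rfl⟩

/-- the critical line, moments -/
theorem case_crit (h1 : Part1) (hT : S_TRP) (hJ : S_JUB) (hS : S_SUM) (γ p : ℝ) (hp : 0 < p)
    (hp1 : p ≤ 1) (ha1 : 1 < al γ) (ha2 : al γ * p ≤ 2) (heq : (al γ) ^ 2 * p / 4 = al γ - 1) :
    ∃ c C : ℝ, 0 < c ∧ 0 < C ∧ ∀ N : ℕ, 16 ≤ N →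
      c * ((Real.log N) ^ (p * (al γ - 1)) * Hs (ex (al γ) p) (Real.log (Real.log N))) ≤
        ∫ ω : Om, ‖D γ N ω‖ ^ p ∂P ∧
      ∫ ω : Om, ‖D γ N ω‖ ^ p ∂P ≤
        C * ((Real.log N) ^ (p * (al γ - 1)) * Hs (ex (al γ) p) (Real.log (Real.log N))) := by
  obtain ⟨p0, hG⟩ := h1.good γ
  have hapos : 0 < p * (al γ - 1) := mul_pos hp (by linarith)
  obtain ⟨cs, Cs, hcs, hCs, hsum⟩ := hS (ex (al γ) p)
  refine mid h1 γ p hp hp1 p0 hG (p * (al γ - 1)) hapos (Hs (ex (al γ) p)) (slow_Hs _) 2 (by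
      intro y hy
      have hY := log_y_ge hG hy
      have hY0 : 0 < Real.log y := lt_of_lt_of_le (Real.exp_pos 1) hY
      have hL : 1 ≤ Real.log (Real.log y) := by rwa [Real.le_log_iff_exp_le hY0]
      have h3 := Hs_ge (ex (al γ) p) hL
      rw [show (al γ) ^ 2 * p ^ 2 / 4 = p * (al γ - 1) by rw [← heq]; ring]
      have h4 : 0 < (Real.log y) ^ (p * (al γ - 1)) := by positivity
      nlinarith) ?_ ?_
  · obtain ⟨C1, hC1, h⟩ := hJ γ p hp hp1 ha1 ha2 heq p0 hG
    refine ⟨C1 * Cs, by positivity, fun y σ a b c => ?_⟩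
    have hY := log_y_ge hG a
    have hY0 : 0 < Real.log y := lt_of_lt_of_le (Real.exp_pos 1) hY
    have hL : 1 ≤ Real.log (Real.log y) := by rwa [Real.le_log_iff_exp_le hY0]
    refine (h y σ a b c).trans ?_
    have h5 := (hsum _ hL).2
    have h6 := mul_le_mul_of_nonneg_left h5
      (show 0 ≤ C1 * (Real.log y) ^ (p * (al γ - 1)) by positivity)
    calc _ ≤ _ := h6
      _ = _ := by unfold Hs; ring
  · obtain ⟨c, y0, hc, hy0, h⟩ := hT γ p p0 hG ha1 hp hp1 ha2 heq
    refine ⟨c * cs, y0, by positivity, hy0, fun y a => ?_⟩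
    have hY0 : 0 < y := lt_of_lt_of_le (Real.exp_pos 3) (hy0.trans a)
    have hY3 : 3 ≤ Real.log y := by
      rw [Real.le_log_iff_exp_le hY0]; exact hy0.trans a
    have hL : 1 ≤ Real.log (Real.log y) := by
      rw [Real.le_log_iff_exp_le (by linarith)]; linarith [Real.exp_one_lt_d9]
    refine le_trans ?_ (h y a)
    have h5 := (hsum _ hL).1
    have h6 := mul_le_mul_of_nonneg_left h5
      (show 0 ≤ c * (Real.log y) ^ (p * (al γ - 1)) by positivity)
    calc _ = _ := by unfold Hs; ring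
      _ ≤ _ := h6

lemma log_cmp : ∃ C : ℝ, 0 < C ∧ ∀ N : ℕ, 16 ≤ N →
    Real.log (Real.log (Real.log N) + 1) ≤ C * Real.log (Real.log (Real.log N)) := by
  have h16 : 0 < Real.log (Real.log (Real.log 16)) := Real.log_pos (logN16 (le_refl 16)).2.2.2.2
  refine ⟨Real.log 2 / Real.log (Real.log (Real.log 16)) + 1, by positivity, fun N hN => ?_⟩
  obtain ⟨-, h4, h5, h6, h7⟩ := logN16 hN
  have h8 : Real.log (Real.log (Real.log 16)) ≤ Real.log (Real.log (Real.log N)) :=
    Real.log_le_log (by linarith) h6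
  have h9 : Real.log (Real.log (Real.log N) + 1) ≤ Real.log 2 + Real.log (Real.log (Real.log N)) := by
    rw [← Real.log_mul (by norm_num) (by linarith)]
    exact Real.log_le_log (by linarith) (by linarith)
  have h10 : Real.log 2 ≤ Real.log 2 / Real.log (Real.log (Real.log 16)) *
      Real.log (Real.log (Real.log N)) := by
    rw [div_mul_eq_mul_div, le_div_iff₀ h16]
    exact mul_le_mul_of_nonneg_left h8 (Real.log_nonneg (by norm_num))
  linarith

theorem FIN (h1 : Part1) (hTRP : S_TRP) (hCLW : S_CLW) (hDLW : S_DLW) (hJUB : S_JUB)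
    (hJUC : S_JUC) (hJUD : S_JUD) (hSUM : S_SUM) (γ p : ℝ) (hp : 0 < p) (hp1 : p ≤ 1) :
    Order γ p (gord γ p) := by
  have hal : al γ = (2 : ℝ) ^ γ := rfl
  have hal0 : 0 < al γ := by unfold al; positivity
  set s := Real.sqrt (1 - p) with hs
  have hs0 : 0 ≤ s := Real.sqrt_nonneg _
  have hs2 : s ^ 2 = 1 - p := Real.sq_sqrt (by linarith)
  have hs1 : s < 1 := by nlinarith
  have key : (al γ) ^ 2 * p / 4 - al γ + 1 =
      (1 - al γ * (1 + s) / 2) * (1 - al γ * (1 - s) / 2) := by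
    have : p = 1 - s ^ 2 := by linarith
    rw [this]; ring
  rcases lt_or_ge ((2 : ℝ) ^ γ * (1 + Real.sqrt (1 - p))) 2 with hA | hA
  · have : gord γ p = fun N : ℕ => (Real.log N) ^ ((2 : ℝ) ^ (2 * γ) * p / 4) := by
      funext N; simp only [gord, hA, if_true]
    rw [this]
    exact h1.sub γ p hp hp1 hA
  have hA' : ¬ ((2 : ℝ) ^ γ * (1 + Real.sqrt (1 - p)) < 2) := not_lt.2 hA
  rcases lt_or_ge 1 γ with hγ | hγ
  · rcases eq_or_lt_of_le hp1 with hpe | hpl
    · subst hpe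
      have : gord γ 1 = fun N : ℕ => (Real.log N) ^ ((2 : ℝ) ^ (2 * γ) / 4) *
          Real.log (Real.log N) := by
        funext N; simp only [gord, hA', hγ, if_true, if_false]
      rw [this]
      exact h1.sup1 γ hγ
    · have : gord γ p = fun N : ℕ => (Real.log N) ^ ((2 : ℝ) ^ (2 * γ) / 4) := by
        funext N; simp only [gord, hA', hγ, hpl.ne, if_true, if_false, mul_one]
      rw [this]
      exact h1.sup γ p hp hpl hγ
  have hγ' : ¬ (1 < γ) := not_lt.2 hγ
  rcases eq_or_lt_of_le hγ with hγe | hγl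
  · subst hγe
    have hal2 : al 1 = 2 := by unfold al; norm_num
    rcases eq_or_lt_of_le hp1 with hpe | hpl
    · subst hpe
      have hg : gord 1 1 = fun N : ℕ => Real.log N * (Real.log (Real.log N)) ^ (1 / 2 : ℝ) := by
        funext N; simp only [gord, hA', hγ', if_true, if_false]
      rw [hg]
      obtain ⟨c, C, hc, hC, h⟩ := case_crit h1 hTRP hJUB hSUM 1 1 one_pos le_rfl
        (by rw [hal2]; norm_num) (by rw [hal2]; norm_num) (by rw [hal2]; norm_num)
      have hex : ex (al 1) 1 = -(1 / 2) := by rw [hal2]; unfold ex; norm_num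
      refine order_cmp h1.bohr one_pos (fun N hN => ?_) hc hC one_pos one_pos (fun N hN => ?_) h
      · obtain ⟨h3, h4, -, -, -⟩ := logN16 hN
        have : 0 < Real.log N := lt_trans (Real.exp_pos 1) h3
        positivity
      · have hH : Hs (ex (al 1) 1) (Real.log (Real.log N)) =
            (Real.log (Real.log N)) ^ (1 / 2 : ℝ) := by
          rw [hex]; unfold Hs; norm_num
        rw [hH, hal2]
        norm_num
    · have hg : gord 1 p = fun N : ℕ => Real.log N * (Real.log (Real.log N)) ^ (-(1 / 2) : ℝ) := by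
        funext N; simp only [gord, hA', hγ', hpl.ne, if_true, if_false]
      rw [hg]
      exact case_two h1 hDLW hJUD p hp hpl
  have hγn : γ ≠ 1 := hγl.ne
  have ha2 : al γ < 2 := by
    rw [hal]
    calc (2 : ℝ) ^ γ < (2 : ℝ) ^ (1 : ℝ) := Real.rpow_lt_rpow_of_exponent_lt (by norm_num) hγl
      _ = 2 := Real.rpow_one 2
  have ha1 : 1 < al γ := by
    rw [← hs, ← hal] at hA
    nlinarith
  have hsecond : 0 < 1 - al γ * (1 - s) / 2 := by nlinarith
  have hpl : p < 1 := by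
    rcases eq_or_lt_of_le hp1 with hpe | hpl
    · exfalso
      rw [hpe] at hs
      simp at hs
      rw [← hal] at hA
      have hs' : Real.sqrt (1 - p) = 0 := by rw [hpe]; simp
      rw [hs'] at hA
      linarith
    · exact hpl
  rcases lt_or_eq_of_le hA with hA2 | hA2
  · have hg : gord γ p = fun N : ℕ => (Real.log N) ^ (al γ - 1) *
      (Real.log (Real.log N)) ^ (-(3 * al γ / 4)) := by
      funext N; simp only [gord, hA', hγ', hγn, hA2, if_true, if_false, hal]
    rw [hg]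
    apply case_open h1 hCLW hJUC γ p hp hp1 ha1 ha2
    rw [← hs, ← hal] at hA2
    have : (1 - al γ * (1 + s) / 2) * (1 - al γ * (1 - s) / 2) < 0 :=
      mul_neg_of_neg_of_pos (by linarith) hsecond
    linarith
  -- the critical line
  have hA3 : ¬ (2 < (2 : ℝ) ^ γ * (1 + Real.sqrt (1 - p))) := not_lt.2 hA2.symm.le
  rw [← hs, ← hal] at hA2
  have heq : (al γ) ^ 2 * p / 4 = al γ - 1 := by
    have : (1 - al γ * (1 + s) / 2) = 0 := by linarith
    rw [this, zero_mul] at key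
    linarith
  have hap : al γ * p = 2 * (1 - s) := by
    have : p = (1 - s) * (1 + s) := by linarith [hs2, show (1 - s) * (1 + s) = 1 - s ^ 2 by ring]
    rw [this]
    linear_combination -(1 - s) * hA2
  have hsp : 0 < s := by
    rcases eq_or_lt_of_le hs0 with h | h
    · exfalso; rw [← h] at hs2; linarith
    · exact h
  have hex : ex (al γ) p = -(3 * (1 - s) / 2) := by
    have hne : al γ * p ≠ 2 := by rw [hap]; linarith
    unfold ex
    rw [if_neg hne]
    linear_combination -(3 / 4) * hap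
  obtain ⟨c, C, hc, hC, h⟩ := case_crit h1 hTRP hJUB hSUM γ p hp hp1 ha1 (by rw [hap]; linarith)
    heq
  rcases lt_trichotomy p (8 / 9) with h89 | h89 | h89
  · have hg : gord γ p = fun N : ℕ => (Real.log N) ^ (al γ - 1) *
        (Real.log (Real.log N)) ^ ((1 - 3 * al γ * p / 4) / p) := by
      funext N; simp only [gord, hA', hγ', hγn, hA3, h89, if_true, if_false, hal]
    rw [hg]
    refine order_cmp h1.bohr hp (fun N hN => ?_) hc hC one_pos one_pos (fun N hN => ?_) h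
    · obtain ⟨h3, h4, -, -, -⟩ := logN16 hN
      have : 0 < Real.log N := lt_trans (Real.exp_pos 1) h3
      positivity
    · obtain ⟨h3, h4, -, -, -⟩ := logN16 hN
      have h5 : 0 < Real.log N := lt_trans (Real.exp_pos 1) h3
      have h6 : 0 < Real.log (Real.log N) := by linarith
      have hs3 : 1 / 3 < s := by nlinarith
      have hH : Hs (ex (al γ) p) (Real.log (Real.log N)) =
          (Real.log (Real.log N)) ^ (1 - 3 * al γ * p / 4) := by
        unfold Hs
        rw [if_neg (by rw [hex]; linarith), if_neg (by rw [hex]; linarith)]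
        congr 1
        rw [hex]
        linear_combination (3 / 4) * hap
      have h7 : ((Real.log N) ^ (al γ - 1) *
          (Real.log (Real.log N)) ^ ((1 - 3 * al γ * p / 4) / p)) ^ p =
          (Real.log N) ^ (p * (al γ - 1)) * (Real.log (Real.log N)) ^ (1 - 3 * al γ * p / 4) := by
        rw [Real.mul_rpow (by positivity) (by positivity), ← Real.rpow_mul h5.le,
          ← Real.rpow_mul h6.le, div_mul_cancel₀ _ hp.ne', mul_comm (al γ - 1) p]
      simp only [one_mul]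
      rw [h7, hH]
      exact ⟨le_rfl, le_rfl⟩
  · have hnl : ¬ (p < 8 / 9) := by rw [h89]; exact lt_irrefl _
    have hg : gord γ p = fun N : ℕ => (Real.log N) ^ (al γ - 1) *
        (Real.log (Real.log (Real.log N))) ^ (9 / 8 : ℝ) := by
      funext N
      simp only [gord, hA', hγ', hγn, hA3, hnl, if_false, hal]
      rw [if_pos h89]
    rw [hg]
    obtain ⟨C3, hC3, hcmp⟩ := log_cmp
    have hs3 : s = 1 / 3 := by
      have : s ^ 2 = (1 / 3) ^ 2 := by rw [hs2, h89]; norm_num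
      exact (sq_eq_sq₀ hs0 (by norm_num)).1 this
    refine order_cmp h1.bohr hp (fun N hN => ?_) hc hC one_pos hC3 (fun N hN => ?_) h
    · obtain ⟨h3, h4, h5, -, -⟩ := logN16 hN
      have : 0 < Real.log N := lt_trans (Real.exp_pos 1) h3
      positivity
    · obtain ⟨h3, h4, h10, -, -⟩ := logN16 hN
      have h5 : 0 < Real.log N := lt_trans (Real.exp_pos 1) h3
      have h6 : 0 < Real.log (Real.log N) := by linarith
      have hH : Hs (ex (al γ) p) (Real.log (Real.log N)) =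
          Real.log (Real.log (Real.log N) + 1) := by
        unfold Hs
        rw [if_neg (by rw [hex, hs3]; norm_num), if_pos (by rw [hex, hs3]; norm_num)]
      have h7 : ((Real.log N) ^ (al γ - 1) *
          (Real.log (Real.log (Real.log N))) ^ (9 / 8 : ℝ)) ^ p =
          (Real.log N) ^ (p * (al γ - 1)) * Real.log (Real.log (Real.log N)) := by
        rw [Real.mul_rpow (by positivity) (by positivity), ← Real.rpow_mul h5.le,
          ← Real.rpow_mul h10.le, mul_comm (al γ - 1) p,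
          show (9 / 8 : ℝ) * p = 1 by rw [h89]; norm_num, Real.rpow_one]
      rw [h7, hH]
      have h8 : 0 < (Real.log N) ^ (p * (al γ - 1)) := by positivity
      constructor
      · rw [one_mul]
        exact mul_le_mul_of_nonneg_left (Real.log_le_log h6 (by linarith)) h8.le
      · calc _ ≤ (Real.log N) ^ (p * (al γ - 1)) * (C3 * Real.log (Real.log (Real.log N))) :=
              mul_le_mul_of_nonneg_left (hcmp N hN) h8.le
          _ = _ := by ring
  · have hnl : ¬ (p < 8 / 9) := not_lt.2 h89.le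
    have hne : ¬ (p = 8 / 9) := h89.ne'
    have hg : gord γ p = fun N : ℕ => (Real.log N) ^ (al γ - 1) := by
      funext N
      simp only [gord, hA', hγ', hγn, hA3, hnl, if_false, hal]
      rw [if_neg hne, mul_one]
    rw [hg]
    refine order_cmp h1.bohr hp (fun N hN => ?_) hc hC one_pos one_pos (fun N hN => ?_) h
    · obtain ⟨h3, h4, h5, -, -⟩ := logN16 hN
      have : 0 < Real.log N := lt_trans (Real.exp_pos 1) h3
      positivity
    · obtain ⟨h3, h4, h10, -, -⟩ := logN16 hN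
      have h5 : 0 < Real.log N := lt_trans (Real.exp_pos 1) h3
      have hs3 : s < 1 / 3 := by nlinarith
      have hH : Hs (ex (al γ) p) (Real.log (Real.log N)) = 1 := by
        unfold Hs
        rw [if_pos (by rw [hex]; linarith)]
      have h7 : ((Real.log N) ^ (al γ - 1)) ^ p = (Real.log N) ^ (p * (al γ - 1)) := by
        rw [← Real.rpow_mul h5.le, mul_comm (al γ - 1) p]
      simp only [one_mul]
      rw [h7, hH, mul_one]
      exact ⟨le_rfl, le_rfl⟩

end PN
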