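import Pool.Agent.H24.PN.JUC

/-! Upper bounds for the moments of the mean square on the critical line of parameters. -/

namespace PN
open MeasureTheory Complex PM

theorem JUB (hMNB : S_MNB) (hOUA : S_OUA) (hOUB : S_OUB) (hJM : PM.S_JM) (hGC : PM.S_GC) :
    S_JUB := by
  intro γ p hp0 hp1 hα1 hαp hδ p0 hgood
  have hδ' : (al γ) ^ 2 * p ^ 2 / 4 = p * (al γ - 1) := by
    have : (al γ) ^ 2 * p ^ 2 / 4 = p * ((al γ) ^ 2 * p / 4) := by ring
    rw [this, hδ]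
  have hα2 : al γ ≤ 2 := by nlinarith
  obtain ⟨C1, hC1, h1⟩ := hMNB γ p hp0 hp1 hα1 hαp p0 hgood
  -- the part above height 1
  obtain ⟨C2, hC2, h2⟩ : ∃ C : ℝ, 0 < C ∧ ∀ (y σ : ℝ),
      (p0 : ℝ) + 1 ≤ y → 1 ≤ 4 * |σ| * Real.log y → |σ| * Real.log y ≤ 2 →
      ∫ ω : Om, ((∫ t in {t : ℝ | 1 < |t|}, ‖F γ (PrS p0 y) σ t ω‖ ^ 2 / (σ ^ 2 + t ^ 2)) /
        Real.log y) ^ (p / 2) ∂P ≤ C * (Real.log y) ^ (p * (al γ - 1)) := by
    rcases hα2.lt_or_eq with hlt | heq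
    · obtain ⟨C, hC, h⟩ := hOUA γ p hp0 hp1 hα1 hlt p0 hgood
      refine ⟨C, hC, fun y σ hy h1 h2 => (h y σ hy h1 h2).trans ?_⟩
      obtain ⟨hY, hLL⟩ := LL_ge hgood hy
      have h3 : (Real.log (Real.log y)) ^ (-(3 * al γ * p / 4)) ≤ 1 :=
        Real.rpow_le_one_of_one_le_of_nonpos hLL (by
          have : 0 < al γ * p := by positivity
          nlinarith)
      have h4 : 0 ≤ C * (Real.log y) ^ (p * (al γ - 1)) := by positivity
      nlinarith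
    · have hγ : γ = 1 := by
        have h3 : (2 : ℝ) ^ γ = (2 : ℝ) ^ (1 : ℝ) := by
          rw [Real.rpow_one]; exact heq
        exact (Real.rpow_right_inj (by norm_num) (by norm_num)).1 h3
      have hp : p = 1 := by
        rw [heq] at hδ
        linarith
      subst hγ
      subst hp
      obtain ⟨C, hC, h⟩ := hOUB 1 hp0 hp1 p0 hgood
      refine ⟨C, hC, fun y σ hy h1 h2 => (h y σ hy h1 h2).trans (le_of_eq ?_)⟩
      rw [if_pos rfl, al_one]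
      norm_num
  refine ⟨16 ^ (p / 2) * C1 + C2, by positivity, ?_⟩
  intro y σ hy hσ1 hσ2
  obtain ⟨hY, hLL⟩ := LL_ge hgood hy
  have hY0 : 0 < Real.log y := by linarith
  refine (jred hJM hGC hp0 hp1 hgood hy hσ1 hσ2 _ _ (fun n hn => h1 y σ n hy hσ1 hσ2 hn)
    (h2 y σ hy hσ1 hσ2)).trans ?_
  have h4 : ∑ n ∈ Finset.range (⌊Real.log (Real.log y)⌋₊ + 1),
      C1 * (Real.log y * Real.exp (-n)) ^ ((al γ) ^ 2 * p ^ 2 / 4) *
      Real.exp (p * (al γ - 1) * n) * ((n : ℝ) + 1) ^ ex (al γ) p =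
      C1 * (Real.log y) ^ (p * (al γ - 1)) *
      ∑ n ∈ Finset.Icc 1 (⌊Real.log (Real.log y)⌋₊ + 1), (n : ℝ) ^ ex (al γ) p := by
    rw [Finset.mul_sum, Finset.range_eq_Ico, ← Finset.Ico_succ_right_eq_Icc]
    have := Finset.sum_Ico_add' (fun n : ℕ => C1 * (Real.log y) ^ (p * (al γ - 1)) *
      (n : ℝ) ^ ex (al γ) p) 0 (⌊Real.log (Real.log y)⌋₊ + 1) 1
    simp only [zero_add] at this
    rw [Order.succ_eq_add_one, ← this]
    apply Finset.sum_congr rfl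
    intro n _
    rw [an_eq hY0 n C1, hδ', sub_self, zero_mul, Real.exp_zero, one_mul]
    push_cast
    rfl
  rw [h4]
  have h5 : 1 ≤ ∑ n ∈ Finset.Icc 1 (⌊Real.log (Real.log y)⌋₊ + 1), (n : ℝ) ^ ex (al γ) p := by
    have h6 := Finset.single_le_sum (f := fun n : ℕ => (n : ℝ) ^ ex (al γ) p)
      (s := Finset.Icc 1 (⌊Real.log (Real.log y)⌋₊ + 1)) (fun n _ => by positivity)
      (Finset.mem_Icc.2 ⟨le_refl 1, by omega⟩)
    simpa using h6
  have h7 : 0 ≤ C2 * (Real.log y) ^ (p * (al γ - 1)) := by positivity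
  have h8 := mul_le_mul_of_nonneg_left h5 h7
  rw [mul_one] at h8
  calc _ ≤ 16 ^ (p / 2) * (C1 * (Real.log y) ^ (p * (al γ - 1)) *
      ∑ n ∈ Finset.Icc 1 (⌊Real.log (Real.log y)⌋₊ + 1), (n : ℝ) ^ ex (al γ) p) +
      C2 * (Real.log y) ^ (p * (al γ - 1)) *
      ∑ n ∈ Finset.Icc 1 (⌊Real.log (Real.log y)⌋₊ + 1), (n : ℝ) ^ ex (al γ) p := by linarith
    _ = _ := by ring

end PN
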