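import Pool.Agent.H24.PN.JUC

/-! Upper bounds for the moments of the mean square, gamma = 1, p < 1. -/

namespace PN
open MeasureTheory Complex PM

theorem JUD (hMNB : S_MNB) (hOUB : S_OUB) (hJM : PM.S_JM) (hGC : PM.S_GC) : S_JUD := by
  intro p hp0 hp1 p0 hgood
  have h := jsub (γ := 1) hMNB hJM hGC hp0 hp1.le (by rw [al_one]; norm_num)
    (by rw [al_one]; linarith) (by rw [al_one]; linarith) hgood (p / 2)
    (by rw [al_one]; linarith) (by
      obtain ⟨C, hC, h⟩ := hOUB p hp0 hp1.le p0 hgood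
      refine ⟨C, hC, fun y σ hy h1 h2 => (h y σ hy h1 h2).trans (le_of_eq ?_)⟩
      rw [if_neg hp1.ne, al_one]
      norm_num)
  obtain ⟨C, hC, h⟩ := h
  refine ⟨C, hC, fun y σ hy h1 h2 => (h y σ hy h1 h2).trans (le_of_eq ?_)⟩
  rw [al_one]
  norm_num

end PN
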