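import Pool.Agent.H24.PN.Stmts

/-! Module KAH: Kahane convexity inequality up to constants. -/

namespace PN
open MeasureTheory Complex ProbabilityTheory PM

theorem kah_sum (κ κ2 : Type) [Fintype κ] [Fintype κ2] :
    MeasurePreserving (fun q : (κ → ℝ) × (κ2 → ℝ) => (Sum.elim q.1 q.2 : κ ⊕ κ2 → ℝ))
      ((Ga κ).prod (Ga κ2)) (Ga (κ ⊕ κ2)) := by
  have h := measurePreserving_sumPiEquivProdPi_symm (X := fun _ : κ ⊕ κ2 => ℝ)
    (fun _ => gaussianReal 0 1)
  have he : (fun q : (κ → ℝ) × (κ2 → ℝ) => (Sum.elim q.1 q.2 : κ ⊕ κ2 → ℝ)) =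
      (MeasurableEquiv.sumPiEquivProdPi (fun _ : κ ⊕ κ2 => ℝ)).symm := by
    funext q
    funext i
    rcases i with i | i <;> rfl
  rw [he]
  exact h

theorem kft_nonneg (lam x : ℝ) (hl : 0 < lam) (hx : 0 ≤ x) : 0 ≤ ft lam x := by
  unfold ft; positivity

theorem kft_le_one (lam x : ℝ) (hl : 0 < lam) (hx : 0 ≤ x) : ft lam x ≤ 1 := by
  unfold ft
  rw [div_le_one (by positivity)]
  linarith

theorem kft_mono (lam x y : ℝ) (hl : 0 < lam) (hx : 0 ≤ x) (hxy : x ≤ y) :
    ft lam x ≤ ft lam y := by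
  unfold ft
  have hy : 0 ≤ y := hx.trans hxy
  rw [div_le_div_iff₀ (by positivity) (by positivity)]
  nlinarith

theorem kft_scale (lam c x : ℝ) (hl : 0 < lam) (hc : 1 ≤ c) (hx : 0 ≤ x) :
    ft lam (c * x) ≤ c * ft lam x := by
  unfold ft
  have hc0 : 0 ≤ c := by linarith
  rw [← mul_div_assoc]
  refine div_le_div_of_nonneg_left (by positivity) (by positivity) ?_
  nlinarith

theorem kft_tangent (lam x m : ℝ) (hl : 0 < lam) (hx : 0 ≤ x) (hm : 0 ≤ m) :
    ft lam x ≤ ft lam m + lam / (m + lam) ^ 2 * (x - m) := by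
  unfold ft
  have h1 : 0 < x + lam := by positivity
  have h2 : 0 < m + lam := by positivity
  have e : m / (m + lam) + lam / (m + lam) ^ 2 * (x - m) - x / (x + lam) =
      lam * (x - m) ^ 2 / ((m + lam) ^ 2 * (x + lam)) := by
    field_simp
    ring
  have h3 : 0 ≤ lam * (x - m) ^ 2 / ((m + lam) ^ 2 * (x + lam)) := by positivity
  linarith

theorem kZG_nonneg {ι κ : Type} [Fintype ι] [Fintype κ] (a : ι → κ → ℝ) (p : ι → ℝ)
    (hp : ∀ i, 0 ≤ p i) (g : κ → ℝ) : 0 ≤ ZG a p g := by
  unfold ZG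
  exact Finset.sum_nonneg fun i _ => mul_nonneg (hp i) (Real.exp_pos _).le

theorem kZG_cont {ι κ : Type} [Fintype ι] [Fintype κ] (a : ι → κ → ℝ) (p : ι → ℝ) :
    Continuous (fun g : κ → ℝ => ZG a p g) := by
  unfold ZG
  fun_prop

theorem kft_ZG_cont {ι κ : Type} [Fintype ι] [Fintype κ] (a : ι → κ → ℝ) (p : ι → ℝ) (lam : ℝ)
    (hl : 0 < lam) (hp : ∀ i, 0 ≤ p i) :
    Continuous (fun g : κ → ℝ => ft lam (ZG a p g)) := by
  unfold ft
  refine (kZG_cont a p).div ((kZG_cont a p).add continuous_const) fun g => ?_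
  have := kZG_nonneg a p hp g
  positivity

theorem kft_ZG_int {ι κ : Type} [Fintype ι] [Fintype κ] (a : ι → κ → ℝ) (p : ι → ℝ) (lam : ℝ)
    (hl : 0 < lam) (hp : ∀ i, 0 ≤ p i) :
    Integrable (fun g : κ → ℝ => ft lam (ZG a p g)) (Ga κ) := by
  refine Integrable.of_bound (kft_ZG_cont a p lam hl hp).aestronglyMeasurable 1
    (Filter.Eventually.of_forall fun g => ?_)
  have h0 := kZG_nonneg a p hp g
  rw [Real.norm_eq_abs, abs_of_nonneg (kft_nonneg lam _ hl h0)]
  exact kft_le_one lam _ hl h0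

theorem kTR_nonneg {ι κ : Type} [Fintype ι] [Fintype κ] (a : ι → κ → ℝ) (p : ι → ℝ) (lam : ℝ)
    (hl : 0 < lam) (hp : ∀ i, 0 ≤ p i) : 0 ≤ TR a p lam := by
  unfold TR
  exact integral_nonneg fun g => kft_nonneg lam _ hl (kZG_nonneg a p hp g)

/-- TR over a sum of coordinate sets as an iterated integral -/
theorem kTR_sum {ι κ κ2 : Type} [Fintype ι] [Fintype κ] [Fintype κ2] (a : ι → (κ ⊕ κ2) → ℝ)
    (p : ι → ℝ) (lam : ℝ) (hl : 0 < lam) (hp : ∀ i, 0 ≤ p i) :
    Integrable (fun q : (κ → ℝ) × (κ2 → ℝ) => ft lam (ZG a p (Sum.elim q.1 q.2)))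
      ((Ga κ).prod (Ga κ2)) ∧
    TR a p lam = ∫ g : κ → ℝ, ∫ h : κ2 → ℝ, ft lam (ZG a p (Sum.elim g h)) ∂Ga κ2 ∂Ga κ := by
  have hmp := kah_sum κ κ2
  have hI := kft_ZG_int a p lam hl hp
  have hI2 : Integrable (fun q : (κ → ℝ) × (κ2 → ℝ) => ft lam (ZG a p (Sum.elim q.1 q.2)))
      ((Ga κ).prod (Ga κ2)) := by
    have := (hmp.integrable_comp (kft_ZG_cont a p lam hl hp).aestronglyMeasurable).2 hI
    exact this
  refine ⟨hI2, ?_⟩
  unfold TR
  have h1 := integral_map (μ := (Ga κ).prod (Ga κ2)) hmp.measurable.aemeasurable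
    (f := fun g : κ ⊕ κ2 → ℝ => ft lam (ZG a p g))
    (by rw [hmp.map_eq]; exact (kft_ZG_cont a p lam hl hp).aestronglyMeasurable)
  rw [hmp.map_eq] at h1
  rw [h1, integral_prod _ hI2]

theorem kint_eval (κ : Type) [Fintype κ] (i : κ) (F : ℝ → ℝ) (hF : Continuous F) :
    ∫ h : κ → ℝ, F (h i) ∂Ga κ = ∫ s, F s ∂gaussianReal 0 1 := by
  have hmp : MeasurePreserving (Function.eval i) (Ga κ) (gaussianReal 0 1) :=
    measurePreserving_eval (fun _ : κ => gaussianReal 0 1) i
  have h1 := integral_map (μ := Ga κ) hmp.measurable.aemeasurable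
    (f := F) hF.aestronglyMeasurable
  rw [hmp.map_eq] at h1
  exact h1.symm

theorem kint_exp (κ : Type) [Fintype κ] (i : κ) (s : ℝ) :
    Integrable (fun h : κ → ℝ => Real.exp (s * h i)) (Ga κ) ∧
    ∫ h : κ → ℝ, Real.exp (s * h i) ∂Ga κ = Real.exp (s ^ 2 / 2) := by
  have hmp : MeasurePreserving (Function.eval i) (Ga κ) (gaussianReal 0 1) :=
    measurePreserving_eval (fun _ : κ => gaussianReal 0 1) i
  constructor
  · exact (hmp.integrable_comp (g := fun x : ℝ => Real.exp (s * x))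
      (by fun_prop : Continuous fun x : ℝ => Real.exp (s * x)).aestronglyMeasurable).2
      (integrable_exp_mul_gaussianReal s)
  · rw [kint_eval κ i (fun x => Real.exp (s * x)) (by fun_prop)]
    have := mgf_fun_id_gaussianReal (μ := 0) (v := 1)
    have h2 := congrFun this s
    simp only [mgf] at h2
    rw [h2]
    simp

theorem kgauss_symm (F : ℝ → ℝ) (hF : Continuous F) :
    ∫ s, F (-s) ∂gaussianReal 0 1 = ∫ s, F s ∂gaussianReal 0 1 := by
  have h1 := integral_map (μ := gaussianReal 0 1) (φ := fun s : ℝ => -s)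
    measurable_neg.aemeasurable (f := F) hF.aestronglyMeasurable
  rw [gaussianReal_map_neg, neg_zero] at h1
  exact h1.symm

/-- adding a common coordinate does not decrease the soft tail by more than a factor 2 -/
theorem kah_up {ι κ : Type} [Fintype ι] [Fintype κ] (b : ι → κ → ℝ) (p : ι → ℝ) (lam c : ℝ)
    (hl : 0 < lam) (hp : ∀ i, 0 ≤ p i) (hc : 0 ≤ c) :
    TR b p lam ≤ 2 * TR (fun i => (Sum.elim (b i) (fun _ : Unit => c) : κ ⊕ Unit → ℝ)) p lam := by
  obtain ⟨hI, hT⟩ := kTR_sum (fun i => (Sum.elim (b i) (fun _ : Unit => c) : κ ⊕ Unit → ℝ)) p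
    lam hl hp
  rw [hT, ← integral_const_mul]
  unfold TR
  refine integral_mono (kft_ZG_int b p lam hl hp) (hI.integral_prod_left.const_mul 2) fun g => ?_
  simp only
  have hZ : ∀ h : Unit → ℝ, ZG (fun i => (Sum.elim (b i) (fun _ : Unit => c) : κ ⊕ Unit → ℝ)) p
      (Sum.elim g h) = Real.exp (c * h ()) * ZG b p g := by
    intro h
    unfold ZG
    rw [Finset.mul_sum]
    refine Finset.sum_congr rfl fun i _ => ?_
    rw [Fintype.sum_sum_type]
    simp only [Sum.elim_inl, Sum.elim_inr, Finset.univ_unique, Finset.sum_singleton]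
    rw [Real.exp_add]
    simp only [PUnit.default_eq_unit]
    ring
  simp only [hZ]
  set Z := ZG b p g with hZdef
  have hZ0 : 0 ≤ Z := kZG_nonneg b p hp g
  have hFc : Continuous (fun s : ℝ => ft lam (Real.exp (c * s) * Z)) := by
    unfold ft
    refine Continuous.div (by fun_prop) (by fun_prop) fun s => ?_
    positivity
  have hFi : Integrable (fun s : ℝ => ft lam (Real.exp (c * s) * Z)) (gaussianReal 0 1) := by
    refine Integrable.of_bound hFc.aestronglyMeasurable 1 (Filter.Eventually.of_forall fun s => ?_)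
    rw [Real.norm_eq_abs, abs_of_nonneg (kft_nonneg lam _ hl (by positivity))]
    exact kft_le_one lam _ hl (by positivity)
  have hFn : Integrable (fun s : ℝ => ft lam (Real.exp (c * -s) * Z)) (gaussianReal 0 1) := by
    refine Integrable.of_bound (hFc.comp continuous_neg).aestronglyMeasurable 1
      (Filter.Eventually.of_forall fun s => ?_)
    rw [Real.norm_eq_abs, abs_of_nonneg (kft_nonneg lam _ hl (by positivity))]
    exact kft_le_one lam _ hl (by positivity)
  rw [kint_eval Unit () (fun s => ft lam (Real.exp (c * s) * Z)) hFc]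
  have hsym := kgauss_symm (fun s => ft lam (Real.exp (c * s) * Z)) hFc
  have h2 : 2 * ∫ s, ft lam (Real.exp (c * s) * Z) ∂gaussianReal 0 1 =
      ∫ s, (ft lam (Real.exp (c * s) * Z) + ft lam (Real.exp (c * -s) * Z)) ∂gaussianReal 0 1 := by
    rw [integral_add hFi hFn, hsym]
    ring
  rw [h2]
  have h3 : ft lam Z = ∫ _s : ℝ, ft lam Z ∂gaussianReal 0 1 := by simp
  rw [h3]
  refine integral_mono (integrable_const _) (hFi.add hFn) fun s => ?_
  simp only
  have hn1 := kft_nonneg lam (Real.exp (c * s) * Z) hl (by positivity)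
  have hn2 := kft_nonneg lam (Real.exp (c * -s) * Z) hl (by positivity)
  rcases le_total 0 s with hs | hs
  · have : Z ≤ Real.exp (c * s) * Z := le_mul_of_one_le_left hZ0 (Real.one_le_exp (by positivity))
    have := kft_mono lam _ _ hl hZ0 this
    linarith
  · have : Z ≤ Real.exp (c * -s) * Z :=
      le_mul_of_one_le_left hZ0 (Real.one_le_exp (mul_nonneg hc (by linarith)))
    have := kft_mono lam _ _ hl hZ0 this
    linarith

/-- independent noise with bounded variance: Jensen -/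
theorem kah_down {ι κ : Type} [Fintype ι] [Fintype κ] [DecidableEq ι] (a : ι → κ → ℝ)
    (p s : ι → ℝ) (lam C : ℝ) (hl : 0 < lam) (hp : ∀ i, 0 ≤ p i) (hC : 0 ≤ C)
    (hs : ∀ i, s i ^ 2 ≤ 2 * C) :
    TR (fun i => (Sum.elim (a i) (fun i' : ι => if i' = i then s i else 0) : κ ⊕ ι → ℝ)) p lam ≤
      Real.exp C * TR a p lam := by
  obtain ⟨hI, hT⟩ := kTR_sum
    (fun i => (Sum.elim (a i) (fun i' : ι => if i' = i then s i else 0) : κ ⊕ ι → ℝ)) p lam hl hp
  rw [hT]
  unfold TR
  rw [← integral_const_mul]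
  refine integral_mono hI.integral_prod_left ((kft_ZG_int a p lam hl hp).const_mul _) fun g => ?_
  simp only
  have hZ : ∀ h : ι → ℝ,
      ZG (fun i => (Sum.elim (a i) (fun i' : ι => if i' = i then s i else 0) : κ ⊕ ι → ℝ)) p
      (Sum.elim g h) = ∑ i, (p i * Real.exp (∑ k, a i k * g k)) * Real.exp (s i * h i) := by
    intro h
    unfold ZG
    refine Finset.sum_congr rfl fun i _ => ?_
    rw [Fintype.sum_sum_type]
    simp only [Sum.elim_inl, Sum.elim_inr, ite_mul, zero_mul, Finset.sum_ite_eq',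
      Finset.mem_univ, if_true]
    rw [Real.exp_add]
    ring
  simp only [hZ]
  set w : ι → ℝ := fun i => p i * Real.exp (∑ k, a i k * g k) with hw
  have hw0 : ∀ i, 0 ≤ w i := fun i => mul_nonneg (hp i) (Real.exp_pos _).le
  have hZg : ZG a p g = ∑ i, w i := rfl
  set m : ℝ := ∑ i, w i * Real.exp (s i ^ 2 / 2) with hm
  have hm0 : 0 ≤ m := Finset.sum_nonneg fun i _ => mul_nonneg (hw0 i) (Real.exp_pos _).le
  have hS0 : ∀ h : ι → ℝ, 0 ≤ ∑ i, w i * Real.exp (s i * h i) := fun h =>
    Finset.sum_nonneg fun i _ => mul_nonneg (hw0 i) (Real.exp_pos _).le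
  have hSc : Continuous (fun h : ι → ℝ => ∑ i, w i * Real.exp (s i * h i)) := by fun_prop
  have hfc : Continuous (fun h : ι → ℝ => ft lam (∑ i, w i * Real.exp (s i * h i))) := by
    unfold ft
    refine hSc.div (hSc.add continuous_const) fun h => ?_
    have := hS0 h
    positivity
  have hfi : Integrable (fun h : ι → ℝ => ft lam (∑ i, w i * Real.exp (s i * h i))) (Ga ι) := by
    refine Integrable.of_bound hfc.aestronglyMeasurable 1 (Filter.Eventually.of_forall fun h => ?_)
    rw [Real.norm_eq_abs, abs_of_nonneg (kft_nonneg lam _ hl (hS0 h))]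
    exact kft_le_one lam _ hl (hS0 h)
  have hSi : Integrable (fun h : ι → ℝ => ∑ i, w i * Real.exp (s i * h i)) (Ga ι) :=
    integrable_finsetSum _ fun i _ => ((kint_exp ι i (s i)).1).const_mul _
  have hSe : ∫ h : ι → ℝ, (∑ i, w i * Real.exp (s i * h i)) ∂Ga ι = m := by
    rw [integral_finsetSum _ fun i _ => ((kint_exp ι i (s i)).1).const_mul _]
    refine Finset.sum_congr rfl fun i _ => ?_
    rw [integral_const_mul, (kint_exp ι i (s i)).2]
  have h1 : ∫ h : ι → ℝ, ft lam (∑ i, w i * Real.exp (s i * h i)) ∂Ga ι ≤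
      ∫ h : ι → ℝ, (ft lam m + lam / (m + lam) ^ 2 * ((∑ i, w i * Real.exp (s i * h i)) - m))
        ∂Ga ι := by
    refine integral_mono hfi ?_ fun h => kft_tangent lam _ m hl (hS0 h) hm0
    exact (integrable_const _).add ((hSi.sub (integrable_const _)).const_mul _)
  have h2 : ∫ h : ι → ℝ, (ft lam m + lam / (m + lam) ^ 2 *
      ((∑ i, w i * Real.exp (s i * h i)) - m)) ∂Ga ι = ft lam m := by
    have hd : Integrable (fun h : ι → ℝ => (∑ i, w i * Real.exp (s i * h i)) - m) (Ga ι) :=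
      hSi.sub (integrable_const _)
    rw [integral_add (integrable_const _) (hd.const_mul _),
      integral_const_mul, integral_sub hSi (integrable_const _), hSe]
    simp
  have h3 : m ≤ Real.exp C * ZG a p g := by
    rw [hZg, Finset.mul_sum]
    refine Finset.sum_le_sum fun i _ => ?_
    rw [mul_comm (Real.exp C)]
    refine mul_le_mul_of_nonneg_left (Real.exp_le_exp.2 ?_) (hw0 i)
    have := hs i
    linarith
  calc _ ≤ ft lam m := h1.trans h2.le
    _ ≤ ft lam (Real.exp C * ZG a p g) := kft_mono lam _ _ hl hm0 h3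
    _ ≤ Real.exp C * ft lam (ZG a p g) :=
      kft_scale lam _ _ hl (Real.one_le_exp hC) (kZG_nonneg a p hp g)

theorem KAH (hK : S_KH0) : S_KAH := by
  intro C hC
  refine ⟨2 * Real.exp C, by positivity, ?_⟩
  intro ι κ κ' _ _ _ a b p lam hp hl h1 h2
  classical
  have hd : ∀ i, 0 ≤ (∑ k, b i k ^ 2) + C - ∑ k, a i k ^ 2 := by
    intro i
    have := h1 i i
    simp only [← pow_two] at this
    linarith
  set s : ι → ℝ := fun i => Real.sqrt ((∑ k, b i k ^ 2) + C - ∑ k, a i k ^ 2) with hs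
  have hs2 : ∀ i, s i ^ 2 = (∑ k, b i k ^ 2) + C - ∑ k, a i k ^ 2 := fun i => Real.sq_sqrt (hd i)
  have hup := kah_up b p lam (Real.sqrt C) hl hp (Real.sqrt_nonneg C)
  have hdown := kah_down a p s lam C hl hp hC (fun i => by
    rw [hs2 i]
    have := h2 i
    linarith)
  have hmid := hK ι (κ ⊕ ι) (κ' ⊕ Unit)
    (fun i => (Sum.elim (a i) (fun i' : ι => if i' = i then s i else 0) : κ ⊕ ι → ℝ))
    (fun i => (Sum.elim (b i) (fun _ : Unit => Real.sqrt C) : κ' ⊕ Unit → ℝ)) p lam hp hl
    (by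
      intro i
      rw [Fintype.sum_sum_type, Fintype.sum_sum_type]
      simp only [Sum.elim_inl, Sum.elim_inr, Finset.univ_unique, Finset.sum_singleton]
      rw [Finset.sum_eq_single i (by
        intro j _ hj
        simp [hj]) (by simp)]
      simp only [if_true]
      rw [hs2 i, Real.sq_sqrt hC]
      ring)
    (by
      intro i j
      rw [Fintype.sum_sum_type, Fintype.sum_sum_type]
      simp only [Sum.elim_inl, Sum.elim_inr, Finset.univ_unique, Finset.sum_singleton]
      rw [Real.mul_self_sqrt hC]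
      by_cases hij : i = j
      · subst hij
        rw [Finset.sum_eq_single i (by
          intro j _ hj
          simp [hj]) (by simp)]
        simp only [if_true, ← pow_two]
        rw [hs2 i]
        linarith
      · have h0 : ∑ x : ι, ((if x = i then s i else 0) * (if x = j then s j else 0)) = 0 := by
          refine Finset.sum_eq_zero fun x _ => ?_
          by_cases hx : x = i
          · subst hx
            simp [hij]
          · simp [hx]
        rw [h0, add_zero]
        exact h1 i j)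
  have ht := kTR_nonneg a p lam hl hp
  calc TR b p lam ≤ 2 * TR (fun i => (Sum.elim (b i) (fun _ : Unit => Real.sqrt C) :
        κ' ⊕ Unit → ℝ)) p lam := hup
    _ ≤ 2 * (Real.exp C * TR a p lam) := by
        have := hmid.trans hdown
        linarith
    _ = 2 * Real.exp C * TR a p lam := by ring

end PN
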