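import Pool.Agent.H24.PN.Stmts

/-! Module KH0: Kahane inequality for equal variances. -/

namespace PN
open MeasureTheory ProbabilityTheory PM

set_option linter.unusedSectionVars false

section
variable {ι κ : Type} [Fintype ι] [Fintype κ]

/-- the exponent -/
noncomputable def kh0L (c : ι → κ → ℝ) (i : ι) (g : κ → ℝ) : ℝ := ∑ k, c i k * g k

/-- the summand -/
noncomputable def kh0u (c : ι → κ → ℝ) (p : ι → ℝ) (i : ι) (g : κ → ℝ) : ℝ :=
  p i * Real.exp (kh0L c i g)

/-- first derivative of the soft tail in the coordinate i -/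
noncomputable def kh0F (c : ι → κ → ℝ) (p : ι → ℝ) (lam : ℝ) (i : ι) (g : κ → ℝ) : ℝ :=
  lam * kh0u c p i g / (ZG c p g + lam) ^ 2

/-- second derivative of the soft tail -/
noncomputable def kh0H (c : ι → κ → ℝ) (p : ι → ℝ) (lam : ℝ) (i j : ι) (g : κ → ℝ) : ℝ :=
  (open Classical in if i = j then lam * kh0u c p i g / (ZG c p g + lam) ^ 2 else 0) -
    2 * lam * kh0u c p i g * kh0u c p j g / (ZG c p g + lam) ^ 3

theorem kh0_ZG (c : ι → κ → ℝ) (p : ι → ℝ) (g : κ → ℝ) : ZG c p g = ∑ i, kh0u c p i g := rfl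

theorem kh0u_nonneg (c : ι → κ → ℝ) {p : ι → ℝ} (hp : ∀ i, 0 ≤ p i) (i : ι) (g : κ → ℝ) :
    0 ≤ kh0u c p i g := mul_nonneg (hp i) (Real.exp_pos _).le

theorem kh0u_le (c : ι → κ → ℝ) {p : ι → ℝ} (hp : ∀ i, 0 ≤ p i) (i : ι) (g : κ → ℝ) :
    kh0u c p i g ≤ ZG c p g := by
  rw [kh0_ZG]
  exact Finset.single_le_sum (f := fun i => kh0u c p i g) (fun j _ => kh0u_nonneg c hp j g)
    (Finset.mem_univ i)

theorem kh0Z_nonneg (c : ι → κ → ℝ) {p : ι → ℝ} (hp : ∀ i, 0 ≤ p i) (g : κ → ℝ) :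
    0 ≤ ZG c p g := by
  rw [kh0_ZG]
  exact Finset.sum_nonneg fun i _ => kh0u_nonneg c hp i g

theorem kh0L_cont (c : ι → κ → ℝ) (i : ι) : Continuous (kh0L c i) := by
  unfold kh0L
  fun_prop

theorem kh0u_cont (c : ι → κ → ℝ) (p : ι → ℝ) (i : ι) : Continuous (kh0u c p i) := by
  unfold kh0u
  exact continuous_const.mul (Real.continuous_exp.comp (kh0L_cont c i))

theorem kh0Z_cont (c : ι → κ → ℝ) (p : ι → ℝ) : Continuous (ZG c p) := by
  have : ZG c p = fun g => ∑ i, kh0u c p i g := by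
    ext g; exact kh0_ZG c p g
  rw [this]
  exact continuous_finsetSum _ fun i _ => kh0u_cont c p i

theorem kh0F_cont (c : ι → κ → ℝ) {p : ι → ℝ} (hp : ∀ i, 0 ≤ p i) {lam : ℝ} (hl : 0 < lam)
    (i : ι) : Continuous (kh0F c p lam i) := by
  unfold kh0F
  refine Continuous.div (continuous_const.mul (kh0u_cont c p i))
    (((kh0Z_cont c p).add continuous_const).pow 2) fun g => ?_
  have := kh0Z_nonneg c hp g
  positivity

theorem kh0H_cont (c : ι → κ → ℝ) {p : ι → ℝ} (hp : ∀ i, 0 ≤ p i) {lam : ℝ} (hl : 0 < lam)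
    (i j : ι) : Continuous (kh0H c p lam i j) := by
  unfold kh0H
  refine Continuous.sub ?_ ?_
  · split_ifs
    · exact kh0F_cont c hp hl i
    · exact continuous_const
  · refine Continuous.div ((continuous_const.mul (kh0u_cont c p i)).mul (kh0u_cont c p j))
      (((kh0Z_cont c p).add continuous_const).pow 3) fun g => ?_
    have := kh0Z_nonneg c hp g
    positivity

theorem kh0F_bound (c : ι → κ → ℝ) {p : ι → ℝ} (hp : ∀ i, 0 ≤ p i) {lam : ℝ} (hl : 0 < lam)
    (i : ι) (g : κ → ℝ) : 0 ≤ kh0F c p lam i g ∧ kh0F c p lam i g ≤ 1 := by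
  have h1 := kh0Z_nonneg c hp g
  have h2 := kh0u_nonneg c hp i g
  have h3 := kh0u_le c hp i g
  unfold kh0F
  refine ⟨by positivity, ?_⟩
  rw [div_le_one (by positivity)]
  nlinarith

theorem kh0H_bound (c : ι → κ → ℝ) {p : ι → ℝ} (hp : ∀ i, 0 ≤ p i) {lam : ℝ} (hl : 0 < lam)
    (i j : ι) (g : κ → ℝ) : |kh0H c p lam i j g| ≤ 3 := by
  have h1 := kh0Z_nonneg c hp g
  have h2 := kh0u_nonneg c hp i g
  have h3 := kh0u_le c hp i g
  have h4 := kh0u_nonneg c hp j g
  have h5 := kh0u_le c hp j g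
  have h6 := kh0F_bound c hp hl i g
  have h7 : 0 ≤ 2 * lam * kh0u c p i g * kh0u c p j g / (ZG c p g + lam) ^ 3 := by positivity
  have h8 : 2 * lam * kh0u c p i g * kh0u c p j g / (ZG c p g + lam) ^ 3 ≤ 2 := by
    rw [div_le_iff₀ (by positivity)]
    have h9 : lam ≤ ZG c p g + lam := by linarith
    have h10 : kh0u c p i g ≤ ZG c p g + lam := by linarith
    have h11 : kh0u c p j g ≤ ZG c p g + lam := by linarith
    have h12 : lam * kh0u c p i g ≤ (ZG c p g + lam) * (ZG c p g + lam) :=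
      mul_le_mul h9 h10 h2 (by linarith)
    have h13 : lam * kh0u c p i g * kh0u c p j g ≤
        (ZG c p g + lam) * (ZG c p g + lam) * (ZG c p g + lam) :=
      mul_le_mul h12 h11 h4 (by positivity)
    nlinarith
  unfold kh0H
  unfold kh0F at h6
  rw [abs_le]
  split_ifs
  · constructor <;> linarith [h6.1, h6.2]
  · constructor <;> linarith

theorem kh0L_update [DecidableEq κ] (c : ι → κ → ℝ) (i : ι) (k : κ) (g : κ → ℝ) :
    HasDerivAt (fun s : ℝ => kh0L c i (Function.update g k s)) (c i k) (g k) := by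
  unfold kh0L
  have h1 : HasDerivAt (fun s : ℝ => ∑ k', c i k' * Function.update g k s k')
      (∑ k', c i k' * (Pi.single k (1 : ℝ) : κ → ℝ) k') (g k) := by
    refine HasDerivAt.fun_sum fun k' _ => ?_
    exact ((hasDerivAt_pi.1 (hasDerivAt_update g k (g k))) k').const_mul (c i k')
  have h2 : ∑ k', c i k' * (Pi.single k (1 : ℝ) : κ → ℝ) k' = c i k := by
    rw [Finset.sum_eq_single k]
    · simp
    · intro b _ hb
      rw [Pi.single_eq_of_ne hb, mul_zero]
    · intro h; exact absurd (Finset.mem_univ k) h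
  rw [h2] at h1
  exact h1

theorem kh0u_update [DecidableEq κ] (c : ι → κ → ℝ) (p : ι → ℝ) (i : ι) (k : κ) (g : κ → ℝ) :
    HasDerivAt (fun s : ℝ => kh0u c p i (Function.update g k s)) (kh0u c p i g * c i k) (g k) := by
  have h1 := (kh0L_update c i k g).exp.const_mul (p i)
  rw [Function.update_eq_self] at h1
  unfold kh0u
  rw [mul_assoc]
  exact h1

theorem kh0Z_update [DecidableEq κ] (c : ι → κ → ℝ) (p : ι → ℝ) (k : κ) (g : κ → ℝ) :
    HasDerivAt (fun s : ℝ => ZG c p (Function.update g k s)) (∑ i, kh0u c p i g * c i k) (g k) := by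
  have h1 : (fun s : ℝ => ZG c p (Function.update g k s)) =
      fun s => ∑ i, kh0u c p i (Function.update g k s) := by
    ext s; exact kh0_ZG c p _
  rw [h1]
  exact HasDerivAt.fun_sum fun i _ => kh0u_update c p i k g

theorem kh0F_update [DecidableEq κ] (c : ι → κ → ℝ) {p : ι → ℝ} (hp : ∀ i, 0 ≤ p i) {lam : ℝ}
    (hl : 0 < lam) (i : ι) (k : κ) (g : κ → ℝ) :
    HasDerivAt (fun s : ℝ => kh0F c p lam i (Function.update g k s))
      (∑ j, kh0H c p lam i j g * c j k) (g k) := by
  have hZ := kh0Z_nonneg c hp g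
  have hZl : 0 < ZG c p g + lam := by linarith
  have h1 := (kh0u_update c p i k g).const_mul lam
  have h2 := ((kh0Z_update c p k g).add_const lam).fun_pow 2
  have h3 := h1.fun_div h2 (by
    simp only [Function.update_eq_self]
    positivity)
  simp only [Function.update_eq_self] at h3
  have h4 : ∑ j, kh0H c p lam i j g * c j k =
      lam * kh0u c p i g / (ZG c p g + lam) ^ 2 * c i k -
        2 * lam * kh0u c p i g / (ZG c p g + lam) ^ 3 * ∑ j, kh0u c p j g * c j k := by
    unfold kh0H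
    simp only [sub_mul]
    rw [Finset.sum_sub_distrib]
    congr 1
    · rw [Finset.sum_eq_single i]
      · rw [if_pos rfl]
      · intro b _ hb
        rw [if_neg (fun h => hb h.symm), zero_mul]
      · intro h; exact absurd (Finset.mem_univ i) h
    · rw [Finset.mul_sum]
      refine Finset.sum_congr rfl fun j _ => ?_
      field_simp
  rw [h4]
  unfold kh0F
  refine h3.congr_deriv ?_
  have h5 : ZG c p g + lam ≠ 0 := hZl.ne'
  simp only [Nat.cast_ofNat, Nat.add_one_sub_one, pow_one]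
  field_simp

theorem kh0_stein (hST : S_STN) (c : ι → κ → ℝ) {p : ι → ℝ} (hp : ∀ i, 0 ≤ p i) {lam : ℝ}
    (hl : 0 < lam) (i : ι) (k : κ) :
    ∫ g : κ → ℝ, g k * kh0F c p lam i g ∂Ga κ =
      ∑ j, (∫ g : κ → ℝ, kh0H c p lam i j g ∂Ga κ) * c j k := by
  classical
  have hint : ∀ j, Integrable (fun g : κ → ℝ => kh0H c p lam i j g * c j k) (Ga κ) := by
    intro j
    refine Integrable.mul_const ?_ _
    refine Integrable.of_bound (kh0H_cont c hp hl i j).aestronglyMeasurable 3
      (Filter.Eventually.of_forall fun g => ?_)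
    rw [Real.norm_eq_abs]
    exact kh0H_bound c hp hl i j g
  rw [hST κ k (kh0F c p lam i) (fun g => ∑ j, kh0H c p lam i j g * c j k) (kh0F_cont c hp hl i)
    (continuous_finsetSum _ fun j _ => (kh0H_cont c hp hl i j).mul continuous_const)
    ⟨1, fun g => ?_⟩ ⟨∑ j, 3 * |c j k|, fun g => ?_⟩ fun g => kh0F_update c hp hl i k g]
  · rw [integral_finsetSum _ fun j _ => hint j]
    exact Finset.sum_congr rfl fun j _ => integral_mul_const _ _
  · obtain ⟨h1, h2⟩ := kh0F_bound c hp hl i g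
    rw [abs_of_nonneg h1]
    exact h2
  · refine le_trans (Finset.abs_sum_le_sum_abs _ _) (Finset.sum_le_sum fun j _ => ?_)
    rw [abs_mul]
    exact mul_le_mul_of_nonneg_right (kh0H_bound c hp hl i j g) (abs_nonneg _)

end

theorem kh0_integrable_eval {κ : Type} [Fintype κ] (k : κ) :
    Integrable (fun g : κ → ℝ => g k) (Ga κ) := by
  have h1 : Integrable (id : ℝ → ℝ) (gaussianReal 0 1) := by
    have h2 := memLp_id_gaussianReal (μ := 0) (v := 1) 1
    exact memLp_one_iff_integrable.1 (by simpa using h2)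
  have h3 := measurePreserving_eval (fun _ : κ => gaussianReal 0 1) k
  exact h3.integrable_comp_of_integrable h1

section
variable {ι κ : Type} [Fintype ι] [Fintype κ]

/-- derivative of the soft tail along a differentiable family of coefficients -/
theorem kh0_deriv (c c' : ℝ → ι → κ → ℝ) (hc : ∀ θ i k, HasDerivAt (fun t => c t i k) (c' θ i k) θ)
    (M : ℝ) (hM : ∀ θ i k, |c' θ i k| ≤ M) {p : ι → ℝ} (hp : ∀ i, 0 ≤ p i) {lam : ℝ}
    (hl : 0 < lam) (θ : ℝ) :
    HasDerivAt (fun t => TR (c t) p lam)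
      (∑ i, ∑ k, c' θ i k * ∫ g : κ → ℝ, g k * kh0F (c θ) p lam i g ∂Ga κ) θ := by
  have hM0 : ∀ i k, |c' θ i k| ≤ M := hM θ
  -- pointwise derivative
  have hpt : ∀ g : κ → ℝ, ∀ t, HasDerivAt (fun t => ft lam (ZG (c t) p g))
      (∑ i, ∑ k, c' t i k * (g k * kh0F (c t) p lam i g)) t := by
    intro g t
    have hL : ∀ i, HasDerivAt (fun t => kh0L (c t) i g) (∑ k, c' t i k * g k) t := by
      intro i
      unfold kh0L
      exact HasDerivAt.fun_sum fun k _ => (hc t i k).mul_const (g k)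
    have hu : ∀ i, HasDerivAt (fun t => kh0u (c t) p i g)
        (kh0u (c t) p i g * ∑ k, c' t i k * g k) t := by
      intro i
      have h1 := (hL i).exp.const_mul (p i)
      unfold kh0u
      rw [mul_assoc]
      exact h1
    have hZ : HasDerivAt (fun t => ZG (c t) p g)
        (∑ i, kh0u (c t) p i g * ∑ k, c' t i k * g k) t := by
      have h1 : (fun t => ZG (c t) p g) = fun t => ∑ i, kh0u (c t) p i g := by
        ext s; exact kh0_ZG (c s) p g
      rw [h1]
      exact HasDerivAt.fun_sum fun i _ => hu i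
    have hZ0 := kh0Z_nonneg (c t) hp g
    have hZl : ZG (c t) p g + lam ≠ 0 := by positivity
    have h2 := hZ.fun_div (hZ.add_const lam) hZl
    have h3 : ∑ i, ∑ k, c' t i k * (g k * kh0F (c t) p lam i g) =
        lam / (ZG (c t) p g + lam) ^ 2 * ∑ i, kh0u (c t) p i g * ∑ k, c' t i k * g k := by
      rw [Finset.mul_sum]
      refine Finset.sum_congr rfl fun i _ => ?_
      rw [Finset.mul_sum, Finset.mul_sum]
      refine Finset.sum_congr rfl fun k _ => ?_
      unfold kh0F
      ring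
    rw [h3]
    unfold ft
    refine h2.congr_deriv ?_
    field_simp
    ring
  have hbd : ∀ g : κ → ℝ, ∀ t, ‖∑ i, ∑ k, c' t i k * (g k * kh0F (c t) p lam i g)‖ ≤
      ∑ _i : ι, ∑ k, M * |g k| := by
    intro g t
    refine le_trans (norm_sum_le _ _) (Finset.sum_le_sum fun i _ => ?_)
    refine le_trans (norm_sum_le _ _) (Finset.sum_le_sum fun k _ => ?_)
    rw [Real.norm_eq_abs, abs_mul, abs_mul]
    obtain ⟨h1, h2⟩ := kh0F_bound (c t) hp hl i g
    rw [abs_of_nonneg h1]
    have h3 := hM t i k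
    have h4 : |g k| * kh0F (c t) p lam i g ≤ |g k| * 1 :=
      mul_le_mul_of_nonneg_left h2 (abs_nonneg _)
    rw [mul_one] at h4
    exact mul_le_mul h3 h4 (by positivity) (le_trans (abs_nonneg _) h3)
  have hcf : ∀ t, Continuous (fun g : κ → ℝ => ft lam (ZG (c t) p g)) := by
    intro t
    unfold ft
    refine Continuous.div (kh0Z_cont _ _) ((kh0Z_cont _ _).add continuous_const) fun g => ?_
    have := kh0Z_nonneg (c t) hp g
    positivity
  have hcf' : Continuous (fun g : κ → ℝ => ∑ i, ∑ k, c' θ i k * (g k * kh0F (c θ) p lam i g)) := by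
    refine continuous_finsetSum _ fun i _ => continuous_finsetSum _ fun k _ => ?_
    exact continuous_const.mul ((continuous_apply k).mul (kh0F_cont (c θ) hp hl i))
  have hmain := hasDerivAt_integral_of_dominated_loc_of_deriv_le (μ := Ga κ)
    (F := fun t g => ft lam (ZG (c t) p g))
    (F' := fun t g => ∑ i, ∑ k, c' t i k * (g k * kh0F (c t) p lam i g))
    (bound := fun g => ∑ _i : ι, ∑ k, M * |g k|) (x₀ := θ) (s := Set.univ) Filter.univ_mem
    (Filter.Eventually.of_forall fun t => (hcf t).aestronglyMeasurable)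
    (Integrable.of_bound (hcf θ).aestronglyMeasurable 1 (Filter.Eventually.of_forall fun g => by
      have h1 := kh0Z_nonneg (c θ) hp g
      unfold ft
      rw [Real.norm_eq_abs, abs_of_nonneg (by positivity), div_le_one (by positivity)]
      linarith))
    hcf'.aestronglyMeasurable
    (Filter.Eventually.of_forall fun g t _ => hbd g t)
    (integrable_finsetSum _ fun i _ => integrable_finsetSum _ fun k _ =>
      (kh0_integrable_eval k).abs.const_mul M)
    (Filter.Eventually.of_forall fun g t _ => hpt g t)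
  have hint : ∀ i k, Integrable (fun g : κ → ℝ => c' θ i k * (g k * kh0F (c θ) p lam i g)) (Ga κ) := by
    intro i k
    refine Integrable.const_mul ?_ _
    refine Integrable.mono' (kh0_integrable_eval k).abs
      ((continuous_apply k).mul (kh0F_cont (c θ) hp hl i)).aestronglyMeasurable
      (Filter.Eventually.of_forall fun g => ?_)
    obtain ⟨h1, h2⟩ := kh0F_bound (c θ) hp hl i g
    rw [Real.norm_eq_abs, abs_mul, abs_of_nonneg h1]
    have h4 : |g k| * kh0F (c θ) p lam i g ≤ |g k| * 1 :=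
      mul_le_mul_of_nonneg_left h2 (abs_nonneg _)
    rw [mul_one] at h4
    exact h4
  have h5 : ∫ g : κ → ℝ, ∑ i, ∑ k, c' θ i k * (g k * kh0F (c θ) p lam i g) ∂Ga κ =
      ∑ i, ∑ k, c' θ i k * ∫ g : κ → ℝ, g k * kh0F (c θ) p lam i g ∂Ga κ := by
    rw [integral_finsetSum _ fun i _ => integrable_finsetSum _ fun k _ => hint i k]
    refine Finset.sum_congr rfl fun i _ => ?_
    rw [integral_finsetSum _ fun k _ => hint i k]
    exact Finset.sum_congr rfl fun k _ => integral_const_mul _ _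
  rw [← h5]
  exact hmain.2

end

theorem kh0_marg_left {ι κ κ' : Type} [Fintype ι] [Fintype κ] [Fintype κ'] (a : ι → κ → ℝ)
    (p : ι → ℝ) (lam : ℝ) :
    TR (fun i => Sum.elim (a i) (fun _ : κ' => 0)) p lam = TR a p lam := by
  unfold TR
  have h1 := measurePreserving_sumPiEquivProdPi (X := fun _ : κ ⊕ κ' => ℝ)
    (fun _ : κ ⊕ κ' => gaussianReal 0 1)
  have h2 : ∀ g : κ ⊕ κ' → ℝ, ft lam (ZG (fun i => Sum.elim (a i) (fun _ : κ' => 0)) p g) =
      (fun q : (κ → ℝ) × (κ' → ℝ) => ft lam (ZG a p q.1))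
        (MeasurableEquiv.sumPiEquivProdPi (fun _ : κ ⊕ κ' => ℝ) g) := by
    intro g
    unfold ZG
    simp only [Fintype.sum_sum_type, Sum.elim_inl, Sum.elim_inr, zero_mul,
      Finset.sum_const_zero, add_zero]
    rfl
  rw [integral_congr_ae (Filter.Eventually.of_forall h2)]
  have h3 : ∫ g : κ ⊕ κ' → ℝ, (fun q : (κ → ℝ) × (κ' → ℝ) => ft lam (ZG a p q.1))
        (MeasurableEquiv.sumPiEquivProdPi (fun _ : κ ⊕ κ' => ℝ) g) ∂Ga (κ ⊕ κ') =
      ∫ q : (κ → ℝ) × (κ' → ℝ), ft lam (ZG a p q.1) ∂((Ga κ).prod (Ga κ')) :=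
    h1.integral_comp (MeasurableEquiv.measurableEmbedding _)
      (fun q : (κ → ℝ) × (κ' → ℝ) => ft lam (ZG a p q.1))
  rw [h3]
  have h4 := integral_prod_mul (μ := Ga κ) (ν := Ga κ') (fun g => ft lam (ZG a p g)) (fun _ => (1 : ℝ))
  simp only [mul_one] at h4
  rw [h4]
  simp

theorem kh0_marg_right {ι κ κ' : Type} [Fintype ι] [Fintype κ] [Fintype κ'] (b : ι → κ' → ℝ)
    (p : ι → ℝ) (lam : ℝ) :
    TR (fun i => Sum.elim (fun _ : κ => 0) (b i)) p lam = TR b p lam := by
  unfold TR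
  have h1 := measurePreserving_sumPiEquivProdPi (X := fun _ : κ ⊕ κ' => ℝ)
    (fun _ : κ ⊕ κ' => gaussianReal 0 1)
  have h2 : ∀ g : κ ⊕ κ' → ℝ, ft lam (ZG (fun i => Sum.elim (fun _ : κ => 0) (b i)) p g) =
      (fun q : (κ → ℝ) × (κ' → ℝ) => ft lam (ZG b p q.2))
        (MeasurableEquiv.sumPiEquivProdPi (fun _ : κ ⊕ κ' => ℝ) g) := by
    intro g
    unfold ZG
    simp only [Fintype.sum_sum_type, Sum.elim_inl, Sum.elim_inr, zero_mul,
      Finset.sum_const_zero, zero_add]
    rfl
  rw [integral_congr_ae (Filter.Eventually.of_forall h2)]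
  have h3 : ∫ g : κ ⊕ κ' → ℝ, (fun q : (κ → ℝ) × (κ' → ℝ) => ft lam (ZG b p q.2))
        (MeasurableEquiv.sumPiEquivProdPi (fun _ : κ ⊕ κ' => ℝ) g) ∂Ga (κ ⊕ κ') =
      ∫ q : (κ → ℝ) × (κ' → ℝ), ft lam (ZG b p q.2) ∂((Ga κ).prod (Ga κ')) :=
    h1.integral_comp (MeasurableEquiv.measurableEmbedding _)
      (fun q : (κ → ℝ) × (κ' → ℝ) => ft lam (ZG b p q.2))
  rw [h3]
  have h4 := integral_prod_mul (μ := Ga κ) (ν := Ga κ') (fun _ => (1 : ℝ)) (fun g => ft lam (ZG b p g))
  simp only [one_mul] at h4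
  rw [h4]
  simp

theorem KH0 (hST : S_STN) : S_KH0 := by
  intro ι κ κ' _ _ _ a b p lam hp hl heq hle
  let c : ℝ → ι → (κ ⊕ κ') → ℝ := fun θ i => Sum.elim (fun k => Real.cos θ * a i k)
    (fun k => Real.sin θ * b i k)
  let c' : ℝ → ι → (κ ⊕ κ') → ℝ := fun θ i => Sum.elim (fun k => -Real.sin θ * a i k)
    (fun k => Real.cos θ * b i k)
  have hc : ∀ θ i k, HasDerivAt (fun t => c t i k) (c' θ i k) θ := by
    intro θ i k
    rcases k with k | k
    · exact (Real.hasDerivAt_cos θ).mul_const (a i k)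
    · exact (Real.hasDerivAt_sin θ).mul_const (b i k)
  obtain ⟨M, hM⟩ : ∃ M : ℝ, M = (∑ i, ∑ k, |a i k|) + ∑ i, ∑ k, |b i k| := ⟨_, rfl⟩
  have hMb : ∀ θ i k, |c' θ i k| ≤ M := by
    intro θ i k
    have ha : ∀ k, |a i k| ≤ ∑ i, ∑ k, |a i k| := fun k =>
      le_trans (Finset.single_le_sum (f := fun k => |a i k|) (fun _ _ => abs_nonneg _)
        (Finset.mem_univ k)) (Finset.single_le_sum (f := fun i => ∑ k, |a i k|)
          (fun _ _ => Finset.sum_nonneg fun _ _ => abs_nonneg _) (Finset.mem_univ i))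
    have hb : ∀ k, |b i k| ≤ ∑ i, ∑ k, |b i k| := fun k =>
      le_trans (Finset.single_le_sum (f := fun k => |b i k|) (fun _ _ => abs_nonneg _)
        (Finset.mem_univ k)) (Finset.single_le_sum (f := fun i => ∑ k, |b i k|)
          (fun _ _ => Finset.sum_nonneg fun _ _ => abs_nonneg _) (Finset.mem_univ i))
    have h0 : 0 ≤ ∑ i, ∑ k, |a i k| := Finset.sum_nonneg fun _ _ =>
      Finset.sum_nonneg fun _ _ => abs_nonneg _
    have h0' : 0 ≤ ∑ i, ∑ k, |b i k| := Finset.sum_nonneg fun _ _ =>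
      Finset.sum_nonneg fun _ _ => abs_nonneg _
    rcases k with k | k
    · have h1 : |c' θ i (Sum.inl k)| = |Real.sin θ| * |a i k| := by
        show |-Real.sin θ * a i k| = _
        rw [abs_mul, abs_neg]
      rw [h1, hM]
      have h2 : |Real.sin θ| * |a i k| ≤ 1 * |a i k| :=
        mul_le_mul_of_nonneg_right (Real.abs_sin_le_one θ) (abs_nonneg _)
      linarith [ha k]
    · have h1 : |c' θ i (Sum.inr k)| = |Real.cos θ| * |b i k| := by
        show |Real.cos θ * b i k| = _
        rw [abs_mul]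
      rw [h1, hM]
      have h2 : |Real.cos θ| * |b i k| ≤ 1 * |b i k| :=
        mul_le_mul_of_nonneg_right (Real.abs_cos_le_one θ) (abs_nonneg _)
      linarith [hb k]
  have hD := fun θ => kh0_deriv c c' hc M hMb hp hl θ
  have hneg : ∀ θ, 0 ≤ Real.sin θ → 0 ≤ Real.cos θ →
      ∑ i, ∑ k, c' θ i k * ∫ g : (κ ⊕ κ') → ℝ, g k * kh0F (c θ) p lam i g ∂Ga (κ ⊕ κ') ≤ 0 := by
    intro θ hs hco
    have h1 : ∀ i, ∑ k, c' θ i k * ∫ g : (κ ⊕ κ') → ℝ, g k * kh0F (c θ) p lam i g ∂Ga (κ ⊕ κ') =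
        ∑ j, (∫ g : (κ ⊕ κ') → ℝ, kh0H (c θ) p lam i j g ∂Ga (κ ⊕ κ')) *
          ∑ k, c' θ i k * c θ j k := by
      intro i
      simp only [kh0_stein hST (c θ) hp hl i, Finset.mul_sum]
      rw [Finset.sum_comm]
      refine Finset.sum_congr rfl fun j _ => Finset.sum_congr rfl fun k _ => ?_
      ring
    rw [Finset.sum_congr rfl fun i _ => h1 i]
    refine Finset.sum_nonpos fun i _ => Finset.sum_nonpos fun j _ => ?_
    have h2 : ∑ k, c' θ i k * c θ j k =
        Real.sin θ * Real.cos θ * ((∑ k, b i k * b j k) - ∑ k, a i k * a j k) := by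
      rw [Fintype.sum_sum_type]
      have e1 : ∑ k : κ, c' θ i (Sum.inl k) * c θ j (Sum.inl k) =
          -(Real.sin θ * Real.cos θ) * ∑ k, a i k * a j k := by
        rw [Finset.mul_sum]
        refine Finset.sum_congr rfl fun k _ => ?_
        show -Real.sin θ * a i k * (Real.cos θ * a j k) = _
        ring
      have e2 : ∑ k : κ', c' θ i (Sum.inr k) * c θ j (Sum.inr k) =
          (Real.sin θ * Real.cos θ) * ∑ k, b i k * b j k := by
        rw [Finset.mul_sum]
        refine Finset.sum_congr rfl fun k _ => ?_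
        show Real.cos θ * b i k * (Real.sin θ * b j k) = _
        ring
      rw [e1, e2]
      ring
    rw [h2]
    by_cases hij : i = j
    · subst hij
      have h3 : (∑ k, b i k * b i k) - ∑ k, a i k * a i k = 0 := by
        have := heq i
        simp only [pow_two] at this
        linarith
      rw [h3, mul_zero, mul_zero]
    · refine mul_nonpos_of_nonpos_of_nonneg ?_ ?_
      · refine integral_nonpos fun g => ?_
        have h4 := kh0Z_nonneg (c θ) hp g
        have h5 := kh0u_nonneg (c θ) hp i g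
        have h6 := kh0u_nonneg (c θ) hp j g
        show kh0H (c θ) p lam i j g ≤ 0
        unfold kh0H
        rw [if_neg hij, zero_sub]
        exact neg_nonpos.2 (by positivity)
      · exact mul_nonneg (mul_nonneg hs hco) (sub_nonneg.2 (hle i j))
  have hanti : AntitoneOn (fun θ => TR (c θ) p lam) (Set.Icc 0 (Real.pi / 2)) := by
    refine antitoneOn_of_deriv_nonpos (convex_Icc _ _)
      (fun θ _ => (hD θ).continuousAt.continuousWithinAt)
      (fun θ _ => (hD θ).differentiableAt.differentiableWithinAt) fun θ hθ => ?_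
    rw [interior_Icc] at hθ
    rw [(hD θ).deriv]
    exact hneg θ (Real.sin_nonneg_of_nonneg_of_le_pi hθ.1.le (by linarith [hθ.2, Real.pi_pos]))
      (Real.cos_nonneg_of_mem_Icc ⟨by linarith [hθ.1, Real.pi_pos], hθ.2.le⟩)
  have h := hanti (Set.left_mem_Icc.2 (by positivity)) (Set.right_mem_Icc.2 (by positivity))
    (by positivity)
  have e0 : TR (c 0) p lam = TR a p lam := by
    rw [← kh0_marg_left (κ' := κ') a p lam]
    congr 1
    ext i k
    rcases k with k | k
    · show Real.cos 0 * a i k = a i k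
      rw [Real.cos_zero, one_mul]
    · show Real.sin 0 * b i k = 0
      rw [Real.sin_zero, zero_mul]
  have e1 : TR (c (Real.pi / 2)) p lam = TR b p lam := by
    rw [← kh0_marg_right (κ := κ) b p lam]
    congr 1
    ext i k
    rcases k with k | k
    · show Real.cos (Real.pi / 2) * a i k = 0
      rw [Real.cos_pi_div_two, zero_mul]
    · show Real.sin (Real.pi / 2) * b i k = b i k
      rw [Real.sin_pi_div_two, one_mul]
  simp only at h
  rw [e0, e1] at h
  exact h

end PN
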