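import Pool.Agent.H24.PN.Stmts

/-! Module LFM: first moment of the leaf event. -/

namespace PN
open MeasureTheory Complex ProbabilityTheory PM

lemma LFM_vv_pos : 0 < vv := Real.log_pos (by norm_num)

lemma LFM_sv_sq : sv * sv = vv := Real.mul_self_sqrt LFM_vv_pos.le

lemma LFM_sv_pos : 0 < sv := Real.sqrt_pos.mpr LFM_vv_pos

lemma LFM_sv_lo : (4 / 5 : ℝ) ≤ sv := by
  unfold sv
  apply Real.le_sqrt_of_sq_le
  have := Real.log_two_gt_d9
  norm_num
  linarith

lemma LFM_sv_hi : sv ≤ 1 := by
  unfold sv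
  have := Real.log_two_lt_d9
  exact Real.sqrt_le_iff.mpr ⟨by norm_num, by linarith⟩

lemma LFM_ps_add {n : ℕ} (g : Fin n → ℝ) (a : ℝ) (j : ℕ) (hj : j ≤ n) :
    ps (g + fun _ => a) j = ps g j + j * a := by
  unfold ps
  have h1 : ∀ i : Fin n, (if (i : ℕ) < j then (g + fun _ => a : Fin n → ℝ) i else 0) =
      (if (i : ℕ) < j then g i else 0) + (fun i : ℕ => if i < j then a else 0) i := by
    intro i
    simp only [Pi.add_apply]
    split_ifs <;> simp
  have h2 : (Finset.range n).filter (fun i => i < j) = Finset.range j := by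
    ext i
    simp only [Finset.mem_filter, Finset.mem_range]
    omega
  have h3 : ∑ i ∈ Finset.range n, (if i < j then a else 0) = j * a := by
    rw [← Finset.sum_filter, h2, Finset.sum_const, Finset.card_range, nsmul_eq_mul]
  rw [Finset.sum_congr rfl (fun i _ => h1 i), Finset.sum_add_distrib,
    Fin.sum_univ_eq_sum_range (fun i : ℕ => if i < j then a else 0) n, h3]

lemma LFM_ps_meas {n : ℕ} (j : ℕ) : Measurable fun g : Fin n → ℝ => ps g j := by
  unfold ps
  apply Finset.measurable_sum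
  intro i _
  by_cases h : (i : ℕ) < j
  · simp only [if_pos h]
    fun_prop
  · simp only [if_neg h]
    fun_prop

lemma LFM_up (n : ℕ) (hn : 1 ≤ n) (a b : ℝ) :
    gaussianReal 0 n (Set.Icc a b) ≤ ENNReal.ofReal ((b - a) / Real.sqrt (2 * Real.pi * n)) := by
  have hn0 : (n : NNReal) ≠ 0 := by
    exact_mod_cast (by omega : n ≠ 0)
  have hnR : (0 : ℝ) < n := by exact_mod_cast hn
  rw [gaussianReal_apply 0 hn0]
  have h1 : ∀ x, gaussianPDF 0 (n : NNReal) x ≤
      ENNReal.ofReal ((Real.sqrt (2 * Real.pi * n))⁻¹) := by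
    intro x
    unfold gaussianPDF gaussianPDFReal
    apply ENNReal.ofReal_le_ofReal
    rw [NNReal.coe_natCast]
    have : Real.exp (-(x - 0) ^ 2 / (2 * n)) ≤ 1 := by
      rw [Real.exp_le_one_iff]
      apply div_nonpos_of_nonpos_of_nonneg
      · nlinarith [sq_nonneg (x - 0)]
      · positivity
    calc _ ≤ (Real.sqrt (2 * Real.pi * n))⁻¹ * 1 := by
          apply mul_le_mul_of_nonneg_left this (by positivity)
      _ = _ := mul_one _
  calc ∫⁻ x in Set.Icc a b, gaussianPDF 0 (n : NNReal) x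
      ≤ ∫⁻ _ in Set.Icc a b, ENNReal.ofReal ((Real.sqrt (2 * Real.pi * n))⁻¹) :=
        lintegral_mono fun x => h1 x
    _ = ENNReal.ofReal ((Real.sqrt (2 * Real.pi * n))⁻¹) * ENNReal.ofReal (b - a) := by
        rw [setLIntegral_const, Real.volume_Icc]
    _ = _ := by
        rw [← ENNReal.ofReal_mul (by positivity)]
        congr 1
        rw [div_eq_inv_mul]

lemma LFM_lo (n : ℕ) (hn : 1 ≤ n) (a b B : ℝ) (hB : ∀ s ∈ Set.Icc a b, |s| ≤ B) :
    ENNReal.ofReal ((b - a) / Real.sqrt (2 * Real.pi * n) * Real.exp (-B ^ 2 / (2 * n))) ≤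
      gaussianReal 0 n (Set.Icc a b) := by
  have hn0 : (n : NNReal) ≠ 0 := by
    exact_mod_cast (by omega : n ≠ 0)
  have hnR : (0 : ℝ) < n := by exact_mod_cast hn
  rw [gaussianReal_apply 0 hn0]
  have h1 : ∀ x ∈ Set.Icc a b, ENNReal.ofReal ((Real.sqrt (2 * Real.pi * n))⁻¹ *
      Real.exp (-B ^ 2 / (2 * n))) ≤ gaussianPDF 0 (n : NNReal) x := by
    intro x hx
    unfold gaussianPDF gaussianPDFReal
    apply ENNReal.ofReal_le_ofReal
    rw [NNReal.coe_natCast]
    apply mul_le_mul_of_nonneg_left _ (by positivity)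
    rw [Real.exp_le_exp]
    apply div_le_div_of_nonneg_right _ (by positivity)
    have := hB x hx
    have h2 : x ^ 2 ≤ B ^ 2 := by
      rw [← sq_abs x]
      exact pow_le_pow_left₀ (abs_nonneg x) this 2
    rw [sub_zero]
    linarith
  calc _ = ENNReal.ofReal ((Real.sqrt (2 * Real.pi * n))⁻¹ * Real.exp (-B ^ 2 / (2 * n))) *
        ENNReal.ofReal (b - a) := by
        rw [← ENNReal.ofReal_mul (by positivity)]
        congr 1
        rw [div_eq_inv_mul]
        ring
    _ = ∫⁻ _ in Set.Icc a b, ENNReal.ofReal ((Real.sqrt (2 * Real.pi * n))⁻¹ *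
        Real.exp (-B ^ 2 / (2 * n))) := by
        rw [setLIntegral_const, Real.volume_Icc]
    _ ≤ _ := setLIntegral_mono' measurableSet_Icc h1

/-- the shifted event -/
def LW (K : ℕ) (x : ℝ) : Set (Fin K → ℝ) :=
  {g | (∀ j : ℕ, 1 ≤ j → j ≤ K → ps g j ≤ (x + 2) / sv - (j : ℝ) / K * (psi K K / sv)) ∧
    ps g K ∈ Set.Icc ((x - psi K K) / sv) ((x - psi K K + 1) / sv)}

lemma LFM_shift (K : ℕ) (x : ℝ) (g : Fin K → ℝ) :
    (g + fun _ => Real.sqrt 2 * sv) ∈ Ek K x ↔ g ∈ LW K x := by
  have hs := LFM_sv_pos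
  have h1 : ∀ j : ℕ, j ≤ K → sv * ps (g + fun _ => Real.sqrt 2 * sv) j =
      sv * ps g j + Real.sqrt 2 * vv * j := by
    intro j hj
    rw [LFM_ps_add g _ j hj, ← LFM_sv_sq]
    ring
  unfold Ek LW
  rw [Set.mem_ofPred_eq, Set.mem_ofPred_eq, h1 K le_rfl, Set.mem_Icc, div_le_iff₀ hs,
    le_div_iff₀ hs]
  apply and_congr
  · apply forall_congr'
    intro j
    apply imp_congr_right
    intro _
    apply imp_congr_right
    intro hj
    rw [h1 j hj]
    have e : (x + 2) / sv - (j : ℝ) / K * (psi K K / sv) =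
        (x + 2 - (j : ℝ) / K * psi K K) / sv := by
      field_simp
    rw [e, le_div_iff₀ hs, mul_comm (ps g j) sv]
    constructor <;> intro h <;> linarith
  · rw [mul_comm (ps g K) sv]
    constructor
    · rintro ⟨h1, h2⟩
      exact ⟨by linarith, by linarith⟩
    · rintro ⟨h1, h2⟩
      exact ⟨by linarith, by linarith⟩

lemma LFM_Ek_meas (K : ℕ) (x : ℝ) : MeasurableSet (Ek K x) := by
  have h0 : ∀ j, Measurable fun g : Fin K → ℝ => sv * ps g j := fun j =>
    (LFM_ps_meas j).const_mul sv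
  have e : Ek K x = (⋂ j : ℕ, ⋂ _ : 1 ≤ j, ⋂ _ : j ≤ K, {g : Fin K → ℝ | sv * ps g j ≤
      Real.sqrt 2 * vv * j + x + 2 - (j : ℝ) / K * psi K K}) ∩
      ({g | Real.sqrt 2 * vv * K + x - psi K K ≤ sv * ps g K} ∩
      {g | sv * ps g K ≤ Real.sqrt 2 * vv * K + x - psi K K + 1}) := by
    ext g
    simp only [Ek, Set.mem_ofPred_eq, Set.mem_inter_iff, Set.mem_iInter]
  rw [e]
  apply MeasurableSet.inter
  · exact MeasurableSet.iInter fun j => MeasurableSet.iInter fun _ => MeasurableSet.iInter fun _ =>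
      measurableSet_le (h0 j) measurable_const
  · exact (measurableSet_le measurable_const (h0 K)).inter
      (measurableSet_le (h0 K) measurable_const)

lemma LFM_W1_meas (K : ℕ) (x' : ℝ) (ψ : ℕ → ℝ) : MeasurableSet {g : Fin K → ℝ |
    ∀ j : ℕ, 1 ≤ j → j ≤ K → ps g j ≤ x' - ψ j} := by
  have e : {g : Fin K → ℝ | ∀ j : ℕ, 1 ≤ j → j ≤ K → ps g j ≤ x' - ψ j} =
      (⋂ j : ℕ, ⋂ _ : 1 ≤ j, ⋂ _ : j ≤ K, {g : Fin K → ℝ | ps g j ≤ x' - ψ j}) := by
    ext g
    simp only [Set.mem_ofPred_eq, Set.mem_iInter]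
  rw [e]
  exact MeasurableSet.iInter fun j => MeasurableSet.iInter fun _ => MeasurableSet.iInter fun _ =>
    measurableSet_le (LFM_ps_meas j) measurable_const

lemma LFM_cms (hC : S_CMS) (K : ℕ) (x : ℝ) : (2 : ENNReal) ^ K * Ga (Fin K) (Ek K x) =
    ∫⁻ g, (LW K x).indicator (fun g => ENNReal.ofReal (Real.exp (-(Real.sqrt 2 * (sv * ps g K))))) g
      ∂Ga (Fin K) := by
  have h1 := hC (Fin K) (fun _ => Real.sqrt 2 * sv) ((Ek K x).indicator 1)
    (measurable_one.indicator (LFM_Ek_meas K x))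
  rw [lintegral_indicator_one (LFM_Ek_meas K x)] at h1
  rw [h1, ← lintegral_const_mul' _ _ (by simp)]
  congr 1
  ext g
  by_cases hg : g ∈ LW K x
  · rw [Set.indicator_of_mem hg, Set.indicator_of_mem ((LFM_shift K x g).mpr hg), Pi.one_apply,
      one_mul]
    have h2 : (2 : ENNReal) ^ K = ENNReal.ofReal (Real.exp (K * vv)) := by
      rw [mul_comm, Real.exp_mul]
      unfold vv
      rw [Real.exp_log (by norm_num), Real.rpow_natCast, ENNReal.ofReal_pow (by norm_num)]
      simp
    rw [h2, ← ENNReal.ofReal_mul (Real.exp_nonneg _), ← Real.exp_add]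
    congr 2
    have h3 : ∑ k : Fin K, Real.sqrt 2 * sv * g k = Real.sqrt 2 * sv * ps g K := by
      unfold ps
      rw [← Finset.mul_sum]
      congr 1
      apply Finset.sum_congr rfl
      intro i _
      rw [if_pos i.2]
    have h4 : ∑ _k : Fin K, (Real.sqrt 2 * sv) ^ 2 = K * (2 * vv) := by
      rw [Finset.sum_const, Finset.card_univ, Fintype.card_fin, nsmul_eq_mul, mul_pow,
        Real.sq_sqrt (by norm_num), pow_two sv, LFM_sv_sq]
    rw [h3, h4]
    ring
  · rw [Set.indicator_of_notMem hg, Set.indicator_of_notMem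
      (fun h => hg ((LFM_shift K x g).mp h)), zero_mul, mul_zero]

lemma LFM_psi (K : ℕ) : psi K K = c0 * Real.log (K + 1) := by
  unfold psi
  rw [sub_self, zero_add, div_one]

lemma LFM_c0 : Real.sqrt 2 * c0 = 3 / 2 := by
  unfold c0
  have : Real.sqrt 2 * Real.sqrt 2 = 2 := Real.mul_self_sqrt (by norm_num)
  have h2 : Real.sqrt 2 ≠ 0 := by positivity
  field_simp

lemma LFM_exppsi (K : ℕ) : Real.exp (Real.sqrt 2 * psi K K) = ((K : ℝ) + 1) ^ (3 / 2 : ℝ) := by
  rw [LFM_psi, ← mul_assoc, LFM_c0, Real.rpow_def_of_pos (by positivity), mul_comm]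

lemma LFM_c0_pos : 0 < c0 := by
  unfold c0
  positivity

lemma LFM_c0_hi : c0 ≤ 11 / 10 := by
  have h1 := LFM_c0
  have h2 : (1.41 : ℝ) ≤ Real.sqrt 2 := by
    apply Real.le_sqrt_of_sq_le
    norm_num
  have h3 := LFM_c0_pos
  nlinarith

/-- the measure of the shifted event as an integral -/
lemma LFM_LW (K : ℕ) (x : ℝ) : Ga (Fin K) (LW K x) =
    ∫⁻ g : Fin K → ℝ, Set.indicator {g : Fin K → ℝ | ∀ j : ℕ, 1 ≤ j → j ≤ K →
      ps g j ≤ (x + 2) / sv - (j : ℝ) / K * (psi K K / sv)}
      (fun g => (Set.Icc ((x - psi K K) / sv) ((x - psi K K + 1) / sv)).indicator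
        (fun _ => (1 : ENNReal)) (ps g K)) g ∂Ga (Fin K) := by
  have hm := LFM_W1_meas K ((x + 2) / sv) (fun j => (j : ℝ) / K * (psi K K / sv))
  have hI : MeasurableSet {g : Fin K → ℝ | ps g K ∈
      Set.Icc ((x - psi K K) / sv) ((x - psi K K + 1) / sv)} :=
    (LFM_ps_meas K) measurableSet_Icc
  have hLW : LW K x = {g : Fin K → ℝ | ∀ j : ℕ, 1 ≤ j → j ≤ K →
      ps g j ≤ (x + 2) / sv - (j : ℝ) / K * (psi K K / sv)} ∩ {g : Fin K → ℝ | ps g K ∈
      Set.Icc ((x - psi K K) / sv) ((x - psi K K + 1) / sv)} := rfl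
  rw [← lintegral_indicator_one (by rw [hLW]; exact hm.inter hI)]
  congr 1
  ext g
  by_cases h1 : g ∈ {g : Fin K → ℝ | ∀ j : ℕ, 1 ≤ j → j ≤ K →
      ps g j ≤ (x + 2) / sv - (j : ℝ) / K * (psi K K / sv)}
  · rw [Set.indicator_of_mem h1]
    by_cases h2 : ps g K ∈ Set.Icc ((x - psi K K) / sv) ((x - psi K K + 1) / sv)
    · rw [Set.indicator_of_mem h2, Set.indicator_of_mem (by rw [hLW]; exact ⟨h1, h2⟩)]
      rfl
    · rw [Set.indicator_of_notMem h2, Set.indicator_of_notMem
        (by rw [hLW]; exact fun h => h2 h.2)]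
  · rw [Set.indicator_of_notMem h1, Set.indicator_of_notMem (by rw [hLW]; exact fun h => h1 h.1)]

lemma LFM_LW_meas (K : ℕ) (x : ℝ) : MeasurableSet (LW K x) := by
  have hm := LFM_W1_meas K ((x + 2) / sv) (fun j => (j : ℝ) / K * (psi K K / sv))
  have hI : MeasurableSet {g : Fin K → ℝ | ps g K ∈
      Set.Icc ((x - psi K K) / sv) ((x - psi K K + 1) / sv)} :=
    (LFM_ps_meas K) measurableSet_Icc
  exact hm.inter hI

/-- module LFM -/
theorem LFM (hW : S_BLW) (hG : S_BRG) (hC : S_CMS) : S_LFM := by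
  obtain ⟨Cb, hCb, HG⟩ := hG 0 le_rfl
  obtain ⟨cb, n0, hcb, hn0, HW⟩ := hW 10 (by norm_num)
  have hs := LFM_sv_pos
  have hslo := LFM_sv_lo
  have hshi := LFM_sv_hi
  have hp : (0 : ℝ) < Real.sqrt (2 * Real.pi) := by positivity
  refine ⟨Real.exp (-Real.sqrt 2) * (cb * (1 / Real.sqrt (2 * Real.pi) * Real.exp (-18))),
    3 * (Cb * 4 * (1 + 2 / sv) * (1 / sv / Real.sqrt (2 * Real.pi))), max 1 n0, by positivity,
    by positivity, ?_⟩
  intro K x hK hx hxK
  have hK1 : 1 ≤ K := le_trans (le_max_left _ _) hK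
  have hKn : n0 ≤ K := le_trans (le_max_right _ _) hK
  have hKR : (1 : ℝ) ≤ K := by exact_mod_cast hK1
  have hK0 : (0 : ℝ) < K := by linarith
  have hsK : 1 ≤ Real.sqrt K := Real.one_le_sqrt.mpr hKR
  have hKK : Real.sqrt K * Real.sqrt K = K := Real.mul_self_sqrt hK0.le
  set ψ := psi K K with hψ
  have hψ0 : 0 ≤ ψ := by
    rw [hψ, LFM_psi]
    exact mul_nonneg LFM_c0_pos.le (Real.log_nonneg (by linarith))
  have hfin : Ga (Fin K) (Ek K x) ≠ ⊤ := measure_ne_top _ _
  -- the main quantity
  have main : ENNReal.ofReal (2 ^ K * (Ga (Fin K)).real (Ek K x)) =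
      ∫⁻ g, (LW K x).indicator
        (fun g => ENNReal.ofReal (Real.exp (-(Real.sqrt 2 * (sv * ps g K))))) g ∂Ga (Fin K) := by
    rw [← LFM_cms hC, ENNReal.ofReal_mul (by positivity), ofReal_measureReal hfin,
      ENNReal.ofReal_pow (by norm_num)]
    simp
  have hpow : ((K : ℝ) + 1) ^ (3 / 2 : ℝ) ≤ 3 * (K * Real.sqrt K) := by
    have h1 : ((K : ℝ) + 1) ^ (3 / 2 : ℝ) ≤ (2 * K : ℝ) ^ (3 / 2 : ℝ) :=
      Real.rpow_le_rpow (by positivity) (by linarith) (by norm_num)
    rw [Real.mul_rpow (by norm_num) hK0.le] at h1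
    have h2 : (K : ℝ) ^ (3 / 2 : ℝ) = K * Real.sqrt K := by
      rw [show (3 / 2 : ℝ) = 1 + 1 / 2 by norm_num, Real.rpow_add hK0, Real.rpow_one,
        ← Real.sqrt_eq_rpow]
    have h3 : (2 : ℝ) ^ (3 / 2 : ℝ) ≤ 3 := by
      rw [show (3 / 2 : ℝ) = 1 + 1 / 2 by norm_num, Real.rpow_add (by norm_num), Real.rpow_one,
        ← Real.sqrt_eq_rpow]
      have : Real.sqrt 2 ≤ 3 / 2 := by
        rw [Real.sqrt_le_left (by norm_num)]
        norm_num
      linarith
    rw [h2] at h1
    calc _ ≤ _ := h1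
      _ ≤ _ := by
        apply mul_le_mul_of_nonneg_right h3
        positivity
  have hpow' : K * Real.sqrt K ≤ ((K : ℝ) + 1) ^ (3 / 2 : ℝ) := by
    have h2 : (K : ℝ) ^ (3 / 2 : ℝ) = K * Real.sqrt K := by
      rw [show (3 / 2 : ℝ) = 1 + 1 / 2 by norm_num, Real.rpow_add hK0, Real.rpow_one,
        ← Real.sqrt_eq_rpow]
    rw [← h2]
    exact Real.rpow_le_rpow hK0.le (by linarith) (by norm_num)
  have hsq2 : Real.sqrt (2 * Real.pi * K) = Real.sqrt (2 * Real.pi) * Real.sqrt K :=
    Real.sqrt_mul (by positivity) _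
  set I := Set.Icc ((x - ψ) / sv) ((x - ψ + 1) / sv) with hI
  have hlen : (x - ψ + 1) / sv - (x - ψ) / sv = 1 / sv := by ring
  constructor
  · -- lower bound
    have L1 : ENNReal.ofReal (Real.exp (-(Real.sqrt 2 * (x - ψ + 1)))) * Ga (Fin K) (LW K x) ≤
        ENNReal.ofReal (2 ^ K * (Ga (Fin K)).real (Ek K x)) := by
      rw [main, ← lintegral_indicator_const (LFM_LW_meas K x)]
      apply lintegral_mono
      intro g
      by_cases hg : g ∈ LW K x
      · simp only [Set.indicator_of_mem hg]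
        apply ENNReal.ofReal_le_ofReal
        rw [Real.exp_le_exp, neg_le_neg_iff]
        apply mul_le_mul_of_nonneg_left _ (Real.sqrt_nonneg 2)
        have := hg.2.2
        rw [le_div_iff₀ hs] at this
        linarith
      · simp only [Set.indicator_of_notMem hg]
        exact le_rfl
    have L2 : ENNReal.ofReal (cb * (1 + x) / K * (1 / sv / Real.sqrt (2 * Real.pi * K) *
        Real.exp (-18))) ≤ Ga (Fin K) (LW K x) := by
      have h1 := HW K ((x + 2) / sv) (ψ / sv) hKn (by
        rw [le_div_iff₀ hs]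
        nlinarith) (by
        rw [div_le_iff₀ hs]
        nlinarith) (I.indicator (fun _ => 1)) (measurable_const.indicator measurableSet_Icc)
      rw [LFM_LW]
      refine le_trans ?_ h1
      -- lower bound of the Gaussian integral
      have hsub : I ⊆ Set.Icc ((x + 2) / sv - ψ / sv - 10 * Real.sqrt K)
          ((x + 2) / sv - ψ / sv - 1 / 10) := by
        intro s hs'
        rw [hI, Set.mem_Icc, div_le_iff₀ hs, le_div_iff₀ hs] at hs'
        rw [Set.mem_Icc, ← sub_div]
        constructor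
        · rw [sub_le_iff_le_add, div_le_iff₀ hs]
          nlinarith [hs'.1, hs'.2]
        · rw [le_sub_iff_add_le, le_div_iff₀ hs]
          nlinarith [hs'.1, hs'.2]
      have hB : ∀ s ∈ I, |s| ≤ 6 * Real.sqrt K := by
        intro s hs'
        rw [hI, Set.mem_Icc, div_le_iff₀ hs, le_div_iff₀ hs] at hs'
        have hlog : Real.log (K + 1) ≤ 2 * Real.sqrt K := by
          have h2 : Real.log (K + 1) ≤ 2 * Real.log (1 + Real.sqrt K) := by
            rw [← Real.log_rpow (by positivity)]
            apply Real.log_le_log (by positivity)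
            norm_num
            nlinarith
          have h3 := Real.log_le_sub_one_of_pos (show 0 < 1 + Real.sqrt K by positivity)
          linarith
        have hψ1 : ψ ≤ 11 / 10 * (2 * Real.sqrt K) := by
          rw [hψ, LFM_psi]
          exact mul_le_mul LFM_c0_hi hlog (Real.log_nonneg (by linarith)) (by norm_num)
        rw [abs_le]
        constructor
        · by_contra hcon
          rw [not_le] at hcon
          nlinarith [hs'.1]
        · by_contra hcon
          rw [not_le] at hcon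
          nlinarith [hs'.2]
      have hlo := LFM_lo K hK1 ((x - ψ) / sv) ((x - ψ + 1) / sv) (6 * Real.sqrt K) hB
      rw [hlen] at hlo
      have e8 : -(6 * Real.sqrt K) ^ 2 / (2 * (K : ℝ)) = -18 := by
        rw [mul_pow, Real.sq_sqrt hK0.le]
        field_simp
        norm_num
      rw [e8] at hlo
      calc ENNReal.ofReal (cb * (1 + x) / K * (1 / sv / Real.sqrt (2 * Real.pi * K) *
            Real.exp (-18)))
          = ENNReal.ofReal (cb * (1 + x) / K) * ENNReal.ofReal (1 / sv /
            Real.sqrt (2 * Real.pi * K) * Real.exp (-18)) := by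
            rw [← ENNReal.ofReal_mul (by positivity)]
        _ ≤ ENNReal.ofReal (cb * (1 + x) / K) * gaussianReal 0 K I := by gcongr
        _ = ∫⁻ s in Set.Icc ((x + 2) / sv - ψ / sv - 10 * Real.sqrt K)
            ((x + 2) / sv - ψ / sv - 1 / 10), ENNReal.ofReal (cb * (1 + x) / K) *
            I.indicator (fun _ => 1) s ∂gaussianReal 0 K := by
            rw [lintegral_const_mul _ (measurable_const.indicator measurableSet_Icc)]
            congr 1
            rw [lintegral_indicator measurableSet_Icc, setLIntegral_const, one_mul,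
              Measure.restrict_apply measurableSet_Icc, Set.inter_eq_left.mpr hsub]
        _ ≤ _ := by
            apply setLIntegral_mono' measurableSet_Icc
            intro s hs'
            have : x ≤ (x + 2) / sv := by
              rw [le_div_iff₀ hs]
              nlinarith
            have h5 : 0 ≤ (x + 2) / sv - ψ / sv - s := by linarith [hs'.2]
            have h6 : 0 ≤ (x + 2) / sv := by positivity
            have h7 : cb * (1 + x) ≤ cb * (1 + (x + 2) / sv) *
                (1 + ((x + 2) / sv - ψ / sv - s)) := by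
              calc cb * (1 + x) ≤ cb * (1 + (x + 2) / sv) := by gcongr
                _ = cb * (1 + (x + 2) / sv) * 1 := by ring
                _ ≤ cb * (1 + (x + 2) / sv) * (1 + ((x + 2) / sv - ψ / sv - s)) := by
                    apply mul_le_mul_of_nonneg_left _ (by positivity)
                    linarith
            have h8 : ENNReal.ofReal (cb * (1 + x) / K) ≤ ENNReal.ofReal
                (cb * (1 + (x + 2) / sv) * (1 + ((x + 2) / sv - ψ / sv - s)) / K) :=
              ENNReal.ofReal_le_ofReal (div_le_div_of_nonneg_right h7 hK0.le)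
            exact mul_le_mul_left h8 _
    have L3 := (mul_le_mul_right L2 (ENNReal.ofReal (Real.exp (-(Real.sqrt 2 * (x - ψ + 1)))))).trans
      L1
    rw [← ENNReal.ofReal_mul (Real.exp_nonneg _), ENNReal.ofReal_le_ofReal_iff (by positivity)] at L3
    refine le_trans ?_ L3
    have e1 : Real.exp (-(Real.sqrt 2 * (x - ψ + 1))) =
        ((K : ℝ) + 1) ^ (3 / 2 : ℝ) * Real.exp (-(Real.sqrt 2 * x)) * Real.exp (-Real.sqrt 2) := by
      rw [← LFM_exppsi, ← Real.exp_add, ← Real.exp_add]
      congr 1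
      ring
    rw [e1, hsq2]
    have e2 : 1 ≤ 1 / sv := by
      rw [le_div_iff₀ hs]
      linarith
    calc Real.exp (-Real.sqrt 2) * (cb * (1 / Real.sqrt (2 * Real.pi) * Real.exp (-18))) * (1 + x) *
          Real.exp (-(Real.sqrt 2 * x))
        = (K * Real.sqrt K) * Real.exp (-(Real.sqrt 2 * x)) * Real.exp (-Real.sqrt 2) *
          (cb * (1 + x) / K * (1 / (Real.sqrt (2 * Real.pi) * Real.sqrt K) * Real.exp (-18))) := by
          field_simp
      _ ≤ ((K : ℝ) + 1) ^ (3 / 2 : ℝ) * Real.exp (-(Real.sqrt 2 * x)) * Real.exp (-Real.sqrt 2) *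
          (cb * (1 + x) / K * (1 / sv / (Real.sqrt (2 * Real.pi) * Real.sqrt K) *
            Real.exp (-18))) := by
          gcongr
  · -- upper bound
    have U1 : ENNReal.ofReal (2 ^ K * (Ga (Fin K)).real (Ek K x)) ≤
        ENNReal.ofReal (Real.exp (-(Real.sqrt 2 * (x - ψ)))) * Ga (Fin K) (LW K x) := by
      rw [main, ← lintegral_indicator_const (LFM_LW_meas K x)]
      apply lintegral_mono
      intro g
      by_cases hg : g ∈ LW K x
      · simp only [Set.indicator_of_mem hg]
        apply ENNReal.ofReal_le_ofReal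
        rw [Real.exp_le_exp, neg_le_neg_iff]
        apply mul_le_mul_of_nonneg_left _ (Real.sqrt_nonneg 2)
        have := hg.2.1
        rw [div_le_iff₀ hs] at this
        linarith
      · simp only [Set.indicator_of_notMem hg]
        exact le_rfl
    have U2 : Ga (Fin K) (LW K x) ≤ ENNReal.ofReal (Cb * (1 + (x + 2) / sv) * (1 + 2 / sv) / K *
        (1 / sv / Real.sqrt (2 * Real.pi * K))) := by
      have h1 := HG K ((x + 2) / sv) (fun j => (j : ℝ) / K * (ψ / sv)) hK1 (by positivity) (by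
        intro j _ _
        rw [zero_mul, sub_zero, div_self hK0.ne', one_mul]) (I.indicator (fun _ => 1))
        (measurable_const.indicator measurableSet_Icc)
      rw [LFM_LW]
      refine h1.trans ?_
      simp only [div_self hK0.ne', one_mul]
      calc ∫⁻ s in Set.Iic ((x + 2) / sv - ψ / sv), ENNReal.ofReal (Cb * (1 + (x + 2) / sv) *
            (1 + ((x + 2) / sv - ψ / sv - s)) / K) * I.indicator (fun _ => 1) s ∂gaussianReal 0 K
          ≤ ∫⁻ s, ENNReal.ofReal (Cb * (1 + (x + 2) / sv) * (1 + 2 / sv) / K) *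
            I.indicator (fun _ => 1) s ∂gaussianReal 0 K := by
            refine le_trans (lintegral_mono' (Measure.restrict_le_self) (le_refl _)) ?_
            apply lintegral_mono_ae
            filter_upwards with s
            by_cases hs' : s ∈ I
            · simp only [Set.indicator_of_mem hs', mul_one]
              apply ENNReal.ofReal_le_ofReal
              have hx' : 0 ≤ (x + 2) / sv := by positivity
              apply div_le_div_of_nonneg_right _ hK0.le
              apply mul_le_mul_of_nonneg_left _ (by positivity)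
              have h7 := hs'.1
              have : (x + 2) / sv - ψ / sv - (x - ψ) / sv = 2 / sv := by ring
              linarith
            · simp only [Set.indicator_of_notMem hs', mul_zero]
              exact le_rfl
        _ = ENNReal.ofReal (Cb * (1 + (x + 2) / sv) * (1 + 2 / sv) / K) * gaussianReal 0 K I := by
            rw [lintegral_const_mul _ (measurable_const.indicator measurableSet_Icc)]
            congr 1
            rw [lintegral_indicator measurableSet_Icc, setLIntegral_const, one_mul]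
        _ ≤ ENNReal.ofReal (Cb * (1 + (x + 2) / sv) * (1 + 2 / sv) / K) *
            ENNReal.ofReal (1 / sv / Real.sqrt (2 * Real.pi * K)) := by
            have := LFM_up K hK1 ((x - ψ) / sv) ((x - ψ + 1) / sv)
            rw [hlen] at this
            gcongr
        _ = _ := by
            rw [← ENNReal.ofReal_mul]
            positivity
    have U3 := U1.trans (mul_le_mul_right U2 _)
    rw [← ENNReal.ofReal_mul (Real.exp_nonneg _), ENNReal.ofReal_le_ofReal_iff (by positivity)] at U3
    refine U3.trans ?_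
    have e1 : Real.exp (-(Real.sqrt 2 * (x - ψ))) =
        ((K : ℝ) + 1) ^ (3 / 2 : ℝ) * Real.exp (-(Real.sqrt 2 * x)) := by
      rw [← LFM_exppsi, ← Real.exp_add]
      congr 1
      ring
    rw [e1, hsq2]
    have e2 : 1 + (x + 2) / sv ≤ 4 * (1 + x) := by
      have : (x + 2) / sv ≤ (x + 2) / (4 / 5) := by gcongr
      linarith
    calc ((K : ℝ) + 1) ^ (3 / 2 : ℝ) * Real.exp (-(Real.sqrt 2 * x)) *
          (Cb * (1 + (x + 2) / sv) * (1 + 2 / sv) / K *
            (1 / sv / (Real.sqrt (2 * Real.pi) * Real.sqrt K)))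
        ≤ (3 * (K * Real.sqrt K)) * Real.exp (-(Real.sqrt 2 * x)) *
          (Cb * (4 * (1 + x)) * (1 + 2 / sv) / K *
            (1 / sv / (Real.sqrt (2 * Real.pi) * Real.sqrt K))) := by
          gcongr
      _ = _ := by
          field_simp

end PN
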