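import Pool.Agent.H24.PN.Stmts
import Pool.Agent.H24.PM.PhiAn

/-! Swap of all primes of A: from the Steinhaus field to the Gaussian field. -/

namespace PN
open MeasureTheory Complex ProbabilityTheory PM

namespace AuxLIN

theorem ft_nonneg {lam x : ℝ} (hl : 0 < lam) (hx : 0 ≤ x) : 0 ≤ ft lam x := by
  unfold ft; positivity

theorem ft_le_one {lam x : ℝ} (hl : 0 < lam) (hx : 0 ≤ x) : ft lam x ≤ 1 := by
  unfold ft
  rw [div_le_one (by positivity)]
  linarith

theorem ft_meas (lam : ℝ) : Measurable (ft lam) := by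
  unfold ft
  exact measurable_id.div (measurable_id.add_const lam)

/-- integrability of bounded soft tails -/
theorem ft_int {Ω : Type} [MeasurableSpace Ω] (μ : Measure Ω) [IsProbabilityMeasure μ] {lam : ℝ}
    (hl : 0 < lam) {Z : Ω → ℝ} (hZ : Measurable Z) (h0 : ∀ ω, 0 ≤ Z ω) :
    Integrable (fun ω => ft lam (Z ω)) μ := by
  refine Integrable.of_bound ((ft_meas lam).comp hZ).aestronglyMeasurable 1 ?_
  filter_upwards with ω
  rw [Real.norm_of_nonneg (ft_nonneg hl (h0 ω))]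
  exact ft_le_one hl (h0 ω)

/-- comparison of products over Fin n -/
theorem core {ι : Type} [Fintype ι] {X Y : Type} [MeasurableSpace X] [MeasurableSpace Y]
    (μ : Measure X) (ν : Measure Y) [IsProbabilityMeasure μ] [IsProbabilityMeasure ν] :
    ∀ (n : ℕ) (u : Fin n → ι → X → ℝ) (v : Fin n → ι → Y → ℝ) (c : Fin n → ℝ),
      (∀ k i, Measurable (u k i)) → (∀ k i, Measurable (v k i)) →
      (∀ k i x, 0 ≤ u k i x) → (∀ k i y, 0 ≤ v k i y) → (∀ k, 0 ≤ c k) →
      (∀ k (m : ι → ℝ) (lam : ℝ), (∀ i, 0 ≤ m i) → 0 < lam →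
        ∫ x, ft lam (∑ i, m i * u k i x) ∂μ ≤ c k * ∫ y, ft lam (∑ i, m i * v k i y) ∂ν) →
      ∀ (m : ι → ℝ) (lam : ℝ), (∀ i, 0 ≤ m i) → 0 < lam →
        ∫ x : Fin n → X, ft lam (∑ i, m i * ∏ k, u k i (x k)) ∂Measure.pi (fun _ => μ) ≤
          (∏ k, c k) * ∫ y : Fin n → Y, ft lam (∑ i, m i * ∏ k, v k i (y k))
            ∂Measure.pi (fun _ => ν) := by
  intro n
  induction n with
  | zero =>
    intro u v c _ _ _ _ _ _ m lam _ _
    simp
  | succ n ih =>
    intro u v c hu hv hu0 hv0 hc hk m lam hm hl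
    have hsplit : ∀ {Z : Type} [MeasurableSpace Z] (ρ : Measure Z) [IsProbabilityMeasure ρ]
        (w : Fin (n + 1) → ι → Z → ℝ), (∀ k i, Measurable (w k i)) → (∀ k i z, 0 ≤ w k i z) →
        ∫ z : Fin (n + 1) → Z, ft lam (∑ i, m i * ∏ k, w k i (z k)) ∂Measure.pi (fun _ => ρ) =
          ∫ q : Z × (Fin n → Z), ft lam (∑ i, m i * (w 0 i q.1 * ∏ k, w (Fin.succ k) i (q.2 k)))
            ∂(ρ.prod (Measure.pi (fun _ => ρ))) := by
      intro Z _ ρ _ w hw hw0
      have hmp := measurePreserving_piFinSuccAbove (fun _ : Fin (n + 1) => ρ) 0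
      rw [← hmp.map_eq, integral_map hmp.measurable.aemeasurable]
      · refine integral_congr_ae (Filter.Eventually.of_forall fun z => ?_)
        simp only [Fin.prod_univ_succ]
        rfl
      · apply Measurable.aestronglyMeasurable
        refine (ft_meas lam).comp (Finset.measurable_sum _ fun i _ => ?_)
        refine Measurable.const_mul ?_ _
        refine Measurable.mul ((hw 0 i).comp measurable_fst) ?_
        refine Finset.measurable_prod _ fun k _ => ?_
        exact (hw _ i).comp ((measurable_pi_apply k).comp measurable_snd)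
    rw [hsplit μ u hu hu0, hsplit ν v hv hv0]
    have hmeas : ∀ {Z Z' : Type} [MeasurableSpace Z] [MeasurableSpace Z']
        (w : ι → Z → ℝ) (w' : Fin n → ι → Z' → ℝ), (∀ i, Measurable (w i)) →
        (∀ k i, Measurable (w' k i)) →
        Measurable (fun q : Z × (Fin n → Z') => ∑ i, m i * (w i q.1 * ∏ k, w' k i (q.2 k))) := by
      intro Z Z' _ _ w w' hw hw'
      refine Finset.measurable_sum _ fun i _ => ?_
      refine Measurable.const_mul ?_ _
      refine Measurable.mul ((hw i).comp measurable_fst) ?_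
      refine Finset.measurable_prod _ fun k _ => ?_
      exact (hw' k i).comp ((measurable_pi_apply k).comp measurable_snd)
    have hnn : ∀ {Z Z' : Type} (w : ι → Z → ℝ) (w' : Fin n → ι → Z' → ℝ), (∀ i z, 0 ≤ w i z) →
        (∀ k i z, 0 ≤ w' k i z) → ∀ q : Z × (Fin n → Z'),
        0 ≤ ∑ i, m i * (w i q.1 * ∏ k, w' k i (q.2 k)) := by
      intro Z Z' w w' hw hw' q
      exact Finset.sum_nonneg fun i _ => mul_nonneg (hm i)
        (mul_nonneg (hw i _) (Finset.prod_nonneg fun k _ => hw' k i _))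
    have hP : 0 ≤ ∏ k : Fin n, c (Fin.succ k) := Finset.prod_nonneg fun k _ => hc _
    have mXX := hmeas (u 0) (fun k => u (Fin.succ k)) (hu 0) (fun k => hu _)
    have mXY := hmeas (u 0) (fun k => v (Fin.succ k)) (hu 0) (fun k => hv _)
    have mYY := hmeas (v 0) (fun k => v (Fin.succ k)) (hv 0) (fun k => hv _)
    have nXX := hnn (u 0) (fun k => u (Fin.succ k)) (hu0 0) (fun k => hu0 _)
    have nXY := hnn (u 0) (fun k => v (Fin.succ k)) (hu0 0) (fun k => hv0 _)
    have nYY := hnn (v 0) (fun k => v (Fin.succ k)) (hv0 0) (fun k => hv0 _)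
    have iXX := ft_int (μ.prod (Measure.pi (fun _ : Fin n => μ))) hl mXX nXX
    have iXY := ft_int (μ.prod (Measure.pi (fun _ : Fin n => ν))) hl mXY nXY
    have iYY := ft_int (ν.prod (Measure.pi (fun _ : Fin n => ν))) hl mYY nYY
    calc ∫ q : X × (Fin n → X), ft lam (∑ i, m i * (u 0 i q.1 * ∏ k, u (Fin.succ k) i (q.2 k)))
            ∂(μ.prod (Measure.pi (fun _ => μ)))
        = ∫ x0 : X, ∫ x : Fin n → X,
            ft lam (∑ i, m i * (u 0 i x0 * ∏ k, u (Fin.succ k) i (x k)))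
              ∂Measure.pi (fun _ => μ) ∂μ := integral_prod _ iXX
      _ ≤ ∫ x0 : X, (∏ k : Fin n, c (Fin.succ k)) * ∫ y : Fin n → Y,
            ft lam (∑ i, m i * (u 0 i x0 * ∏ k, v (Fin.succ k) i (y k)))
              ∂Measure.pi (fun _ => ν) ∂μ := by
          refine integral_mono iXX.integral_prod_left (iXY.integral_prod_left.const_mul _) ?_
          intro x0
          have := ih (fun k => u (Fin.succ k)) (fun k => v (Fin.succ k)) (fun k => c (Fin.succ k))
            (fun k => hu _) (fun k => hv _) (fun k => hu0 _) (fun k => hv0 _) (fun k => hc _)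
            (fun k => hk _) (fun i => m i * u 0 i x0) lam
            (fun i => mul_nonneg (hm i) (hu0 0 i x0)) hl
          simpa only [mul_assoc] using this
      _ = (∏ k : Fin n, c (Fin.succ k)) * ∫ x0 : X, ∫ y : Fin n → Y,
            ft lam (∑ i, m i * (u 0 i x0 * ∏ k, v (Fin.succ k) i (y k)))
              ∂Measure.pi (fun _ => ν) ∂μ := integral_const_mul _ _
      _ = (∏ k : Fin n, c (Fin.succ k)) * ∫ y : Fin n → Y, ∫ x0 : X,
            ft lam (∑ i, m i * (u 0 i x0 * ∏ k, v (Fin.succ k) i (y k)))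
              ∂μ ∂Measure.pi (fun _ => ν) := by
          congr 1
          exact integral_integral_swap iXY
      _ ≤ (∏ k : Fin n, c (Fin.succ k)) * ∫ y : Fin n → Y, c 0 * ∫ y0 : Y,
            ft lam (∑ i, m i * (v 0 i y0 * ∏ k, v (Fin.succ k) i (y k)))
              ∂ν ∂Measure.pi (fun _ => ν) := by
          refine mul_le_mul_of_nonneg_left ?_ hP
          refine integral_mono iXY.integral_prod_right (iYY.integral_prod_right.const_mul _) ?_
          intro y
          have := hk 0 (fun i => m i * ∏ k, v (Fin.succ k) i (y k)) lam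
            (fun i => mul_nonneg (hm i) (Finset.prod_nonneg fun k _ => hv0 _ i _)) hl
          have e1 : ∀ (i : ι) (a : ℝ), m i * (∏ k, v (Fin.succ k) i (y k)) * a =
              m i * (a * ∏ k, v (Fin.succ k) i (y k)) := fun i a => by ring
          simpa only [e1] using this
      _ = (∏ k, c k) * ∫ y : Fin n → Y, ∫ y0 : Y,
            ft lam (∑ i, m i * (v 0 i y0 * ∏ k, v (Fin.succ k) i (y k)))
              ∂ν ∂Measure.pi (fun _ => ν) := by
          rw [integral_const_mul, Fin.prod_univ_succ]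
          ring
      _ = _ := by
          congr 1
          rw [integral_prod _ iYY]
          exact (integral_integral_swap iYY).symm

/-- coordinates of A under P -/
theorem mpP (A : Finset ℕ) (n : ℕ) (e : Fin n ≃ A) :
    MeasurePreserving (fun (ω : Om) (k : Fin n) => ω (e k)) P
      (Measure.pi (fun _ : Fin n => (volume : Measure UnitAddCircle))) := by
  classical
  have hm : Measurable (fun (ω : Om) (k : Fin n) => ω (e k)) :=
    measurable_pi_lambda _ fun k => measurable_pi_apply _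
  refine ⟨hm, ?_⟩
  symm
  refine Measure.pi_eq (fun s hs => ?_)
  rw [Measure.map_apply hm (MeasurableSet.univ_pi hs)]
  have h1 : (fun (ω : Om) (k : Fin n) => ω (e k)) ⁻¹' (Set.pi Set.univ s) =
      Set.pi (A : Set ℕ) (fun l => if h : l ∈ A then s (e.symm ⟨l, h⟩) else Set.univ) := by
    ext ω
    simp only [Set.mem_preimage, Set.mem_pi, Set.mem_univ, true_implies, Finset.mem_coe]
    constructor
    · intro h l hl
      rw [dif_pos hl]
      have := h (e.symm ⟨l, hl⟩)
      simpa using this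
    · intro h k
      have := h (e k) (e k).2
      rw [dif_pos (e k).2] at this
      simpa using this
  rw [h1]
  unfold P
  rw [Measure.infinitePi_pi]
  · rw [← Finset.prod_coe_sort A, ← e.prod_comp]
    refine Finset.prod_congr rfl fun k _ => ?_
    simp
  · intro l hl
    rw [dif_pos hl]
    exact hs _

/-- blocks of two Gaussians -/
theorem mpG (A : Finset ℕ) (n : ℕ) (e : Fin n ≃ A) :
    MeasurePreserving (fun (h : Fin n → Fin 2 → ℝ) (k : A × Fin 2) => h (e.symm k.1) k.2)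
      (Measure.pi (fun _ : Fin n => Ga (Fin 2))) (Ga (A × Fin 2)) := by
  have hm : Measurable (fun (h : Fin n → Fin 2 → ℝ) (k : A × Fin 2) => h (e.symm k.1) k.2) :=
    measurable_pi_lambda _ fun k => (measurable_pi_apply _).comp (measurable_pi_apply _)
  refine ⟨hm, ?_⟩
  symm
  unfold Ga
  refine Measure.pi_eq (fun s hs => ?_)
  rw [Measure.map_apply hm (MeasurableSet.univ_pi hs)]
  have h1 : (fun (h : Fin n → Fin 2 → ℝ) (k : A × Fin 2) => h (e.symm k.1) k.2) ⁻¹'
      (Set.pi Set.univ s) =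
      Set.pi Set.univ (fun k : Fin n => Set.pi Set.univ (fun b : Fin 2 => s (e k, b))) := by
    ext h
    simp only [Set.mem_preimage, Set.mem_pi, Set.mem_univ, true_implies]
    constructor
    · intro hh k b
      have := hh (e k, b)
      simpa using this
    · intro hh k
      have := hh (e.symm k.1) k.2
      simpa using this
  rw [h1, Measure.pi_pi]
  simp_rw [Measure.pi_pi]
  rw [Fintype.prod_prod_type, ← e.prod_comp]

theorem line8 {l : ℕ} (hl : 0 < l) {σ : ℝ} (hσ : |σ| * Real.log l ≤ 8) :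
    (l : ℝ) ^ (-(1 / 2 + σ)) ≤ Real.exp 8 / Real.sqrt l := by
  have hlpos : (0 : ℝ) < l := by exact_mod_cast hl
  have hlog : 0 ≤ Real.log l := Real.log_nonneg (by exact_mod_cast hl)
  rw [Real.sqrt_eq_rpow, Real.rpow_def_of_pos hlpos, Real.rpow_def_of_pos hlpos,
    ← Real.exp_sub]
  apply Real.exp_le_exp.2
  have : -σ * Real.log l ≤ |σ| * Real.log l :=
    mul_le_mul_of_nonneg_right (neg_le_abs σ) hlog
  nlinarith

theorem LHSeq (γ : ℝ) (A : Finset ℕ) (σ : ℝ) (n : ℕ) (e : Fin n ≃ A) {ι : Type} [Fintype ι]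
    (t p : ι → ℝ) (lam : ℝ)
    (hu : ∀ (k : Fin n) (i : ι), Measurable (fun x : UnitAddCircle =>
      ‖phi γ (zc x * (((e k : ℕ) : ℂ) ^ (-(1 / 2 + σ + t i * I) : ℂ)))‖ ^ 2)) :
    ∫ ω : Om, ft lam (∑ i, p i * ‖F γ A σ (t i) ω‖ ^ 2) ∂P =
      ∫ x : Fin n → UnitAddCircle, ft lam (∑ i, p i * ∏ k,
        ‖phi γ (zc (x k) * (((e k : ℕ) : ℂ) ^ (-(1 / 2 + σ + t i * I) : ℂ)))‖ ^ 2)
        ∂Measure.pi (fun _ => (volume : Measure UnitAddCircle)) := by
  have hmp := mpP A n e
  rw [← hmp.map_eq, integral_map hmp.measurable.aemeasurable]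
  · refine integral_congr_ae (Filter.Eventually.of_forall fun ω => ?_)
    simp only
    congr 1
    refine Finset.sum_congr rfl fun i _ => ?_
    congr 1
    unfold F
    rw [norm_prod, ← Finset.prod_pow, ← Finset.prod_coe_sort A, ← e.prod_comp]
    rfl
  · apply Measurable.aestronglyMeasurable
    refine (ft_meas lam).comp (Finset.measurable_sum _ fun i _ => ?_)
    refine Measurable.const_mul ?_ _
    refine Finset.measurable_prod _ fun k _ => ?_
    exact (hu k i).comp (measurable_pi_apply k)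

theorem RHSeq (γ : ℝ) (A : Finset ℕ) (σ : ℝ) (n : ℕ) (e : Fin n ≃ A) {ι : Type} [Fintype ι]
    (t p : ι → ℝ) (lam : ℝ) :
    TR (aP γ A σ t) p lam =
      ∫ y : Fin n → Fin 2 → ℝ, ft lam (∑ i, p i * ∏ k, Real.exp (Real.sqrt 2 * al γ *
        (y k 0 * (((e k : ℕ) : ℂ) ^ (-(1 / 2 + σ + t i * I) : ℂ)).re -
          y k 1 * (((e k : ℕ) : ℂ) ^ (-(1 / 2 + σ + t i * I) : ℂ)).im)))
        ∂Measure.pi (fun _ => Ga (Fin 2)) := by
  have hmp := mpG A n e
  unfold TR
  rw [← hmp.map_eq, integral_map hmp.measurable.aemeasurable]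
  · refine integral_congr_ae (Filter.Eventually.of_forall fun y => ?_)
    simp only
    congr 1
    unfold ZG
    refine Finset.sum_congr rfl fun i _ => ?_
    congr 1
    rw [← Real.exp_sum]
    congr 1
    rw [Fintype.sum_prod_type, ← e.sum_comp]
    refine Finset.sum_congr rfl fun k _ => ?_
    rw [Fin.sum_univ_two]
    simp only [aP, Equiv.symm_apply_apply, if_true, one_ne_zero, if_false]
    ring
  · apply Measurable.aestronglyMeasurable
    refine (ft_meas lam).comp (Finset.measurable_sum _ fun i _ => ?_)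
    refine Measurable.const_mul ?_ _
    refine Real.measurable_exp.comp (Finset.measurable_sum _ fun k _ => ?_)
    exact (measurable_pi_apply k).const_mul _

end AuxLIN

open AuxLIN in
theorem LIN (h : S_LN1) : S_LIN := by
  intro γ p0 hG
  obtain ⟨C, hC, hL⟩ := h γ p0 hG
  have hsum : Summable (fun n : ℕ => (n : ℝ) ^ (-(3 / 2) : ℝ)) :=
    Real.summable_nat_rpow.2 (by norm_num)
  refine ⟨Real.exp (C * ∑' n : ℕ, (n : ℝ) ^ (-(3 / 2) : ℝ)), Real.exp_pos _, ?_⟩
  intro A σ hA hLn ι _ t p lam hp hlam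
  obtain ⟨n, ⟨e⟩⟩ : ∃ n : ℕ, Nonempty (Fin n ≃ A) := ⟨A.card, ⟨A.equivFin.symm⟩⟩
  have hpos : ∀ k : Fin n, 0 < (e k : ℕ) := fun k => (hA _ (e k).2).1.pos
  have hlt : ∀ k : Fin n, p0 < (e k : ℕ) := fun k => (hA _ (e k).2).2
  have hw8 : ∀ (k : Fin n) (i : ι), ‖((e k : ℕ) : ℂ) ^ (-(1 / 2 + σ + t i * I) : ℂ)‖ ≤
      Real.exp 8 / Real.sqrt (e k : ℕ) := fun k i => by
    rw [norm_cpow_line (hpos k)]
    exact line8 (hpos k) (hLn _ (e k).2)
  have hw1 : ∀ (k : Fin n) (i : ι), ‖((e k : ℕ) : ℂ) ^ (-(1 / 2 + σ + t i * I) : ℂ)‖ ≤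
      1 / 2 := fun k i => by
    rw [norm_cpow_line (hpos k)]
    exact (line_small hG.1 (hlt k) (hLn _ (e k).2)).2
  have hu : ∀ (k : Fin n) (i : ι), Measurable (fun x : UnitAddCircle =>
      ‖phi γ (zc x * (((e k : ℕ) : ℂ) ^ (-(1 / 2 + σ + t i * I) : ℂ)))‖ ^ 2) := by
    intro k i
    apply Continuous.measurable
    refine Continuous.pow (Continuous.norm ?_) 2
    rw [continuous_iff_continuousAt]
    intro x
    have h1 : ContinuousAt (phi γ) (zc x * (((e k : ℕ) : ℂ) ^ (-(1 / 2 + σ + t i * I) : ℂ))) := by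
      apply phi_contAt
      rw [norm_mul, norm_zc, one_mul]
      exact lt_of_le_of_lt (hw1 k i) (by norm_num)
    exact ContinuousAt.comp (f := fun x : UnitAddCircle =>
      zc x * (((e k : ℕ) : ℂ) ^ (-(1 / 2 + σ + t i * I) : ℂ))) h1
      (cont_zc.mul continuous_const).continuousAt
  have hv : ∀ (k : Fin n) (i : ι), Measurable (fun g : Fin 2 → ℝ => Real.exp (Real.sqrt 2 * al γ *
      (g 0 * (((e k : ℕ) : ℂ) ^ (-(1 / 2 + σ + t i * I) : ℂ)).re -
        g 1 * (((e k : ℕ) : ℂ) ^ (-(1 / 2 + σ + t i * I) : ℂ)).im))) := by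
    intro k i
    apply Continuous.measurable
    fun_prop
  have hc0 : ∀ k : Fin n, 0 ≤ 1 + C * (((e k : ℕ) : ℝ)) ^ (-(3 / 2) : ℝ) := fun k => by positivity
  have hcprod : ∏ k : Fin n, (1 + C * (((e k : ℕ) : ℝ)) ^ (-(3 / 2) : ℝ)) ≤
      Real.exp (C * ∑' n : ℕ, (n : ℝ) ^ (-(3 / 2) : ℝ)) := by
    calc ∏ k : Fin n, (1 + C * (((e k : ℕ) : ℝ)) ^ (-(3 / 2) : ℝ))
        ≤ ∏ k : Fin n, Real.exp (C * (((e k : ℕ) : ℝ)) ^ (-(3 / 2) : ℝ)) := by
          refine Finset.prod_le_prod (fun k _ => hc0 k) (fun k _ => ?_)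
          have := Real.add_one_le_exp (C * (((e k : ℕ) : ℝ)) ^ (-(3 / 2) : ℝ))
          linarith
      _ = Real.exp (C * ∑ l ∈ A, (l : ℝ) ^ (-(3 / 2) : ℝ)) := by
          rw [← Real.exp_sum, ← Finset.mul_sum, ← Finset.sum_coe_sort A, ← e.sum_comp]
      _ ≤ _ := by
          apply Real.exp_le_exp.2
          apply mul_le_mul_of_nonneg_left _ hC.le
          exact hsum.sum_le_tsum A (fun l _ => by positivity)
  have hunn : ∀ (k : Fin n) (i : ι) (x : UnitAddCircle), 0 ≤
      ‖phi γ (zc x * (((e k : ℕ) : ℂ) ^ (-(1 / 2 + σ + t i * I) : ℂ)))‖ ^ 2 :=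
    fun _ _ _ => by positivity
  have hvnn : ∀ (k : Fin n) (i : ι) (g : Fin 2 → ℝ), 0 ≤ Real.exp (Real.sqrt 2 * al γ *
      (g 0 * (((e k : ℕ) : ℂ) ^ (-(1 / 2 + σ + t i * I) : ℂ)).re -
        g 1 * (((e k : ℕ) : ℂ) ^ (-(1 / 2 + σ + t i * I) : ℂ)).im)) :=
    fun _ _ _ => (Real.exp_pos _).le
  have hLe := LHSeq γ A σ n e t p lam hu
  have hRe := RHSeq γ A σ n e t p lam
  have A1 := core (volume : Measure UnitAddCircle) (Ga (Fin 2)) n
    (fun k i x => ‖phi γ (zc x * (((e k : ℕ) : ℂ) ^ (-(1 / 2 + σ + t i * I) : ℂ)))‖ ^ 2)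
    (fun k i g => Real.exp (Real.sqrt 2 * al γ *
      (g 0 * (((e k : ℕ) : ℂ) ^ (-(1 / 2 + σ + t i * I) : ℂ)).re -
        g 1 * (((e k : ℕ) : ℂ) ^ (-(1 / 2 + σ + t i * I) : ℂ)).im)))
    (fun k => 1 + C * (((e k : ℕ) : ℝ)) ^ (-(3 / 2) : ℝ)) hu hv hunn hvnn hc0
    (fun k m lam hm hlam => (hL (e k) (hlt k) ι m _ lam hm hlam (hw8 k)).1) p lam hp hlam
  have A2 := core (Ga (Fin 2)) (volume : Measure UnitAddCircle) n
    (fun k i g => Real.exp (Real.sqrt 2 * al γ *
      (g 0 * (((e k : ℕ) : ℂ) ^ (-(1 / 2 + σ + t i * I) : ℂ)).re -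
        g 1 * (((e k : ℕ) : ℂ) ^ (-(1 / 2 + σ + t i * I) : ℂ)).im)))
    (fun k i x => ‖phi γ (zc x * (((e k : ℕ) : ℂ) ^ (-(1 / 2 + σ + t i * I) : ℂ)))‖ ^ 2)
    (fun k => 1 + C * (((e k : ℕ) : ℝ)) ^ (-(3 / 2) : ℝ)) hv hu hvnn hunn hc0
    (fun k m lam hm hlam => (hL (e k) (hlt k) ι m _ lam hm hlam (hw8 k)).2) p lam hp hlam
  rw [← hLe, ← hRe] at A1 A2
  have n1 : 0 ≤ TR (aP γ A σ t) p lam := by
    unfold TR
    refine integral_nonneg fun g => ft_nonneg hlam ?_
    unfold ZG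
    exact Finset.sum_nonneg fun i _ => mul_nonneg (hp i) (Real.exp_pos _).le
  have n2 : 0 ≤ ∫ ω : Om, ft lam (∑ i, p i * ‖F γ A σ (t i) ω‖ ^ 2) ∂P := by
    refine integral_nonneg fun g => ft_nonneg hlam ?_
    exact Finset.sum_nonneg fun i _ => mul_nonneg (hp i) (by positivity)
  exact ⟨A1.trans (mul_le_mul_of_nonneg_right hcprod n1),
    A2.trans (mul_le_mul_of_nonneg_right hcprod n2)⟩

end PN
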