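import Pool.Agent.H24.PN.KAH
import Pool.Agent.H24.PM.PhiAn

/-! Module LN1: swap of one prime, relative form. -/

namespace PN
open MeasureTheory Complex ProbabilityTheory PM

theorem ln1_symm (κ : Type) [Fintype κ] : (Ga κ).map (fun g : κ → ℝ => -g) = Ga κ := by
  have h := Measure.pi_map_pi (μ := fun _ : κ => gaussianReal 0 1)
    (f := fun _ (x : ℝ) => -x) (fun k => (by fun_prop : Measurable fun x : ℝ => -x).aemeasurable)
  have h2 : (fun g : κ → ℝ => -g) = (fun g k => -(g k)) := rfl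
  rw [h2]
  unfold Ga
  rw [h]
  congr 1
  funext k
  rw [gaussianReal_map_neg, neg_zero]

/-- Gaussian side: lower bound by half of the value without noise -/
theorem ln1_gauss {ι : Type} [Fintype ι] (κ : Type) [Fintype κ] (m : ι → ℝ)
    (L : ι → (κ → ℝ) → ℝ) (hLc : ∀ i, Continuous (L i)) (hLn : ∀ i g, L i (-g) = -(L i g))
    (lam : ℝ) (hm : ∀ i, 0 ≤ m i) (hl : 0 < lam) :
    ft lam (∑ i, m i) ≤ 2 * ∫ g : κ → ℝ, ft lam (∑ i, m i * Real.exp (L i g)) ∂Ga κ := by
  set Z : (κ → ℝ) → ℝ := fun g => ∑ i, m i * Real.exp (L i g) with hZ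
  have hZ0 : ∀ g, 0 ≤ Z g := fun g =>
    Finset.sum_nonneg fun i _ => mul_nonneg (hm i) (Real.exp_pos _).le
  have hM0 : 0 ≤ ∑ i, m i := Finset.sum_nonneg fun i _ => hm i
  have hZc : Continuous Z := by
    refine continuous_finsetSum _ fun i _ => continuous_const.mul ?_
    exact Real.continuous_exp.comp (hLc i)
  have hfc : Continuous (fun g => ft lam (Z g)) := by
    unfold ft
    refine hZc.div (hZc.add continuous_const) fun g => ?_
    have := hZ0 g
    positivity
  have hb : ∀ g, ‖ft lam (Z g)‖ ≤ 1 := fun g => by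
    rw [Real.norm_eq_abs, abs_of_nonneg (kft_nonneg lam _ hl (hZ0 g))]
    exact kft_le_one lam _ hl (hZ0 g)
  have hi : Integrable (fun g => ft lam (Z g)) (Ga κ) :=
    Integrable.of_bound hfc.aestronglyMeasurable 1 (Filter.Eventually.of_forall hb)
  have hin : Integrable (fun g => ft lam (Z (-g))) (Ga κ) :=
    Integrable.of_bound (hfc.comp continuous_neg).aestronglyMeasurable 1
      (Filter.Eventually.of_forall fun g => hb (-g))
  have hs : ∫ g : κ → ℝ, ft lam (Z (-g)) ∂Ga κ = ∫ g : κ → ℝ, ft lam (Z g) ∂Ga κ := by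
    have h1 := integral_map (μ := Ga κ) (φ := fun g : κ → ℝ => -g)
      measurable_neg.aemeasurable (f := fun g => ft lam (Z g)) hfc.aestronglyMeasurable
    rw [ln1_symm] at h1
    exact h1.symm
  have h2 : 2 * ∫ g : κ → ℝ, ft lam (Z g) ∂Ga κ =
      ∫ g : κ → ℝ, (ft lam (Z g) + ft lam (Z (-g))) ∂Ga κ := by
    rw [integral_add hi hin, hs]
    ring
  rw [h2]
  have h3 : ft lam (∑ i, m i) = ∫ _g : κ → ℝ, ft lam (∑ i, m i) ∂Ga κ := by simp
  rw [h3]
  refine integral_mono (integrable_const _) (hi.add hin) fun g => ?_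
  simp only
  have hsum : 2 * ∑ i, m i ≤ Z g + Z (-g) := by
    simp only [hZ]
    rw [← Finset.sum_add_distrib, Finset.mul_sum]
    refine Finset.sum_le_sum fun i _ => ?_
    rw [hLn i g]
    have h4 : 2 ≤ Real.exp (L i g) + Real.exp (-(L i g)) := by
      have := Real.add_one_le_exp (L i g)
      have := Real.add_one_le_exp (-(L i g))
      linarith
    have := mul_le_mul_of_nonneg_left h4 (hm i)
    linarith
  have hn1 := kft_nonneg lam (Z g) hl (hZ0 g)
  have hn2 := kft_nonneg lam (Z (-g)) hl (hZ0 (-g))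
  rcases le_total (∑ i, m i) (Z g) with h | h
  · have := kft_mono lam _ _ hl hM0 h
    linarith
  · have h5 : ∑ i, m i ≤ Z (-g) := by linarith
    have := kft_mono lam _ _ hl hM0 h5
    linarith

/-- circle side: lower bound by a quarter of the value without noise -/
theorem ln1_circle (γ : ℝ) (p0 : ℕ) (hG : Good γ p0) (l : ℕ) (hl0 : p0 < l)
    (ι : Type) [Fintype ι] (m : ι → ℝ) (w : ι → ℂ) (lam : ℝ) (hm : ∀ i, 0 ≤ m i) (hl : 0 < lam)
    (hw : ∀ i, ‖w i‖ ≤ Real.exp 8 / Real.sqrt l) :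
    ft lam (∑ i, m i) ≤ 4 * ∫ x : UnitAddCircle, ft lam (∑ i, m i * ‖phi γ (zc x * w i)‖ ^ 2) := by
  have hp0pos : (0 : ℝ) < p0 := lt_of_lt_of_le (by positivity) hG.1
  have hl' : (p0 : ℝ) < l := by exact_mod_cast hl0
  have hsq : 0 < Real.sqrt p0 := Real.sqrt_pos.2 hp0pos
  have hw2 : ∀ i, ‖w i‖ ≤ Real.exp 8 / Real.sqrt p0 := by
    intro i
    refine (hw i).trans ?_
    apply div_le_div_of_nonneg_left (Real.exp_pos _).le hsq
    exact Real.sqrt_le_sqrt hl'.le
  have e16 : Real.exp 16 = Real.exp 8 ^ 2 := by rw [← Real.exp_nat_mul]; norm_num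
  have hs1 : 2 * Real.exp 8 ≤ Real.sqrt p0 := by
    apply Real.le_sqrt_of_sq_le
    rw [mul_pow, ← e16]; linarith [hG.1]
  have h3 : Real.exp 8 / Real.sqrt p0 ≤ 1 / 2 := by
    rw [div_le_iff₀ hsq]; linarith
  have hnz : ∀ (i : ι) (x : UnitAddCircle), ‖zc x * w i‖ = ‖w i‖ := fun i x => by
    rw [norm_mul, norm_zc, one_mul]
  set Z : UnitAddCircle → ℝ := fun x => ∑ i, m i * ‖phi γ (zc x * w i)‖ ^ 2 with hZ
  have hZ0 : ∀ x, 0 ≤ Z x := fun x =>
    Finset.sum_nonneg fun i _ => mul_nonneg (hm i) (by positivity)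
  have hM0 : 0 ≤ ∑ i, m i := Finset.sum_nonneg fun i _ => hm i
  have hphic : ∀ i, Continuous (fun x : UnitAddCircle => phi γ (zc x * w i)) := by
    intro i
    rw [continuous_iff_continuousAt]
    intro x
    have hlt : ‖zc x * w i‖ < 1 := by
      rw [hnz]
      have := hw2 i
      linarith
    have hc : ContinuousAt (fun x : UnitAddCircle => zc x * w i) x :=
      (cont_zc.mul continuous_const).continuousAt
    exact ContinuousAt.comp (f := fun x : UnitAddCircle => zc x * w i) (phi_contAt γ hlt) hc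
  have hZc : Continuous Z := by
    refine continuous_finsetSum _ fun i _ => continuous_const.mul ?_
    exact ((hphic i).norm).pow 2
  have hfc : Continuous (fun x => ft lam (Z x)) := by
    unfold ft
    refine hZc.div (hZc.add continuous_const) fun g => ?_
    have := hZ0 g
    positivity
  have hb : ∀ x, ‖ft lam (Z x)‖ ≤ 1 := fun g => by
    rw [Real.norm_eq_abs, abs_of_nonneg (kft_nonneg lam _ hl (hZ0 g))]
    exact kft_le_one lam _ hl (hZ0 g)
  have hi : Integrable (fun x => ft lam (Z x)) (volume : Measure UnitAddCircle) :=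
    Integrable.of_bound hfc.aestronglyMeasurable 1 (Filter.Eventually.of_forall hb)
  have h4 : ft lam (∑ i, m i) = ∫ _x : UnitAddCircle, ft lam (∑ i, m i) := by simp
  rw [h4, ← integral_const_mul]
  refine integral_mono (integrable_const _) (hi.const_mul 4) fun x => ?_
  simp only
  have h5 : ∑ i, m i ≤ 4 * Z x := by
    simp only [hZ]
    rw [Finset.mul_sum]
    refine Finset.sum_le_sum fun i _ => ?_
    have h6 := hG.2 (zc x * w i) (by rw [hnz]; exact hw2 i)
    have h7 := (norm_ge_of_near h6).1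
    have h8 : 1 / 4 ≤ ‖phi γ (zc x * w i)‖ ^ 2 := by nlinarith
    have := mul_le_mul_of_nonneg_left h8 (hm i)
    linarith
  exact (kft_mono lam _ _ hl hM0 h5).trans (kft_scale lam 4 _ hl (by norm_num) (hZ0 x))

theorem LN1 (hC : S_LNC) (hN : S_LNG) : S_LN1 := by
  intro γ p0 hG
  obtain ⟨C1, hC1, hC⟩ := hC γ p0 hG
  obtain ⟨C2, hC2, hN⟩ := hN γ p0 hG
  refine ⟨4 * (C1 + C2), by positivity, ?_⟩
  intro l hl ι _ m w lam hm hlam hw
  have h1 := hC l hl ι m w lam hm hlam hw
  have h2 := hN l hl ι m w lam hm hlam hw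
  have h3 := ln1_circle γ p0 hG l hl ι m w lam hm hlam hw
  have h4 := ln1_gauss (Fin 2) m (fun i g => Real.sqrt 2 * al γ * (g 0 * (w i).re - g 1 * (w i).im))
    (fun i => by fun_prop) (fun i g => by simp only [Pi.neg_apply]; ring) lam hm hlam
  set A := ∫ x : UnitAddCircle, ft lam (∑ i, m i * ‖phi γ (zc x * w i)‖ ^ 2) with hA
  set B := ∫ g : Fin 2 → ℝ, ft lam (∑ i, m i * Real.exp (Real.sqrt 2 * al γ *
      (g 0 * (w i).re - g 1 * (w i).im))) ∂Ga (Fin 2) with hB
  have hF : ft lam (∑ i, m i) = (∑ i, m i) / ((∑ i, m i) + lam) := rfl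
  rw [← hF] at h1 h2
  set F0 := ft lam (∑ i, m i) with hF0
  have hF00 : 0 ≤ F0 := kft_nonneg lam _ hlam (Finset.sum_nonneg fun i _ => hm i)
  set e := (l : ℝ) ^ (-(3 / 2) : ℝ) with he
  have he0 : 0 ≤ e := by positivity
  have h1a := abs_le.1 h1
  have h2a := abs_le.1 h2
  have hAB : |A - B| ≤ (C1 + C2) * e * F0 := by
    rw [abs_le]
    constructor <;> nlinarith [h1a.1, h1a.2, h2a.1, h2a.2]
  have hABa := abs_le.1 hAB
  have hB0 : 0 ≤ B := by linarith
  have hk : 0 ≤ (C1 + C2) * e := by positivity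
  constructor
  · have : (C1 + C2) * e * F0 ≤ (C1 + C2) * e * (2 * B) := mul_le_mul_of_nonneg_left h4 hk
    have h6 : 0 ≤ (C1 + C2) * e * B := mul_nonneg hk hB0
    nlinarith [hABa.2]
  · have : (C1 + C2) * e * F0 ≤ (C1 + C2) * e * (4 * A) := mul_le_mul_of_nonneg_left h3 hk
    nlinarith [hABa.1]

end PN
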