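import Pool.Agent.H24.PN.LNCore
import Pool.Agent.H24.PM.LOC
import Pool.Agent.H24.PM.EXP

/-! Swap of one prime: the circle side. -/

namespace PN
open MeasureTheory Complex ProbabilityTheory PM

namespace AuxLNC

open PM.AuxLOC

/-- mean value over the circle as an integral over the group, complex functions -/
theorem circle_intC (f : ℂ → ℂ) (w : ℂ) :
    ∫ x : UnitAddCircle, f (zc x * w) = Real.circleAverage f 0 ‖w‖ := by
  rw [Real.circleAverage_eq_integral_add (Complex.arg w)]
  rw [← UnitAddCircle.intervalIntegral_preimage 0 (fun x : UnitAddCircle => f (zc x * w))]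
  have h1 : ∀ x : ℝ, f (zc (x : UnitAddCircle) * w) =
      (fun θ : ℝ => f (circleMap 0 ‖w‖ (θ + Complex.arg w))) ((2 * Real.pi) * x) := by
    intro x
    simp only [circleMap, zero_add]
    congr 1
    rw [zc_coe]
    have h2 : w = ‖w‖ * Complex.exp (Complex.arg w * I) := (Complex.norm_mul_exp_arg_mul_I w).symm
    conv_lhs => rw [h2]
    push_cast
    rw [add_mul, Complex.exp_add]
    ring
  have h3 := intervalIntegral.integral_comp_mul_left
    (fun θ : ℝ => f (circleMap 0 ‖w‖ (θ + Complex.arg w))) (a := 0) (b := 0 + 1)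
    (by positivity : (2 * Real.pi) ≠ 0)
  rw [intervalIntegral.integral_congr (fun x _ => h1 x), h3]
  simp

theorem cont_phi (γ : ℝ) (w : ℂ) (hw : ‖w‖ ≤ 1 / 2) :
    Continuous (fun x : UnitAddCircle => phi γ (zc x * w)) := by
  refine (phi_differentiableOn γ).continuousOn.comp_continuous
    (AuxCHI.zc_continuous.mul continuous_const) (fun x => ?_)
  rw [mem_ball_zero_iff, norm_mul, AuxCHI.zc_norm, one_mul]
  linarith

theorem int_phi (γ : ℝ) (w : ℂ) (hw : ‖w‖ ≤ 1 / 2) :
    ∫ x : UnitAddCircle, phi γ (zc x * w) = 1 := by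
  rw [circle_intC (phi γ) w]
  have h1 : DiffContOnCl ℂ (phi γ) (Metric.ball 0 |‖w‖|) := by
    refine DifferentiableOn.diffContOnCl ((phi_differentiableOn γ).mono ?_)
    rw [abs_of_nonneg (norm_nonneg w)]
    refine (Metric.closure_ball_subset_closedBall).trans ?_
    intro z hz
    rw [mem_closedBall_zero_iff] at hz
    rw [mem_ball_zero_iff]
    linarith
  rw [h1.circleAverage, phi_zero]

theorem hint {E : Type} [NormedAddCommGroup E] (f : UnitAddCircle → E) (hf : Continuous f) :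
    Integrable f :=
  hf.integrable_of_hasCompactSupport (HasCompactSupport.of_compactSpace _)

theorem int_re (γ : ℝ) (w : ℂ) (hw : ‖w‖ ≤ 1 / 2) :
    ∫ x : UnitAddCircle, (phi γ (zc x * w) - 1).re = 0 := by
  have hc := cont_phi γ w hw
  have h1 : Integrable (fun x : UnitAddCircle => phi γ (zc x * w) - 1) :=
    hint _ (hc.sub continuous_const)
  have h2 : ∫ x : UnitAddCircle, (phi γ (zc x * w) - 1).re =
      (∫ x : UnitAddCircle, (phi γ (zc x * w) - 1)).re := integral_re h1
  rw [h2, integral_sub (hint _ hc) (integrable_const _), int_phi γ w hw, integral_const,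
    probReal_univ, one_smul, sub_self, Complex.zero_re]

/-- pointwise expansions -/
theorem pw1 {α C1 : ℝ} (hα : 0 < α) (hC1 : 0 < C1) {u v : ℂ} (hu : ‖u‖ ≤ 1 / 2)
    (h : ‖v - 1 - α * u‖ ≤ C1 * ‖u‖ ^ 2) :
    |‖v‖ ^ 2 - 1 - 2 * (v - 1).re - α ^ 2 * ‖u‖ ^ 2| ≤ (2 * α * C1 + C1 ^ 2) * ‖u‖ ^ 3 := by
  set ρ : ℂ := v - 1 - α * u with hρ
  have hv : v = 1 + α * u + ρ := by rw [hρ]; ring
  have e1 : ‖v‖ ^ 2 - 1 - 2 * (v - 1).re - α ^ 2 * ‖u‖ ^ 2 =
      2 * α * (u * (starRingEnd ℂ) ρ).re + ‖ρ‖ ^ 2 := by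
    rw [← Complex.normSq_eq_norm_sq, ← Complex.normSq_eq_norm_sq, ← Complex.normSq_eq_norm_sq, hv]
    simp only [Complex.normSq_apply, Complex.add_re, Complex.add_im, Complex.mul_re,
      Complex.mul_im, Complex.one_re, Complex.one_im, Complex.ofReal_re, Complex.ofReal_im,
      Complex.sub_re, Complex.conj_re, Complex.conj_im]
    ring
  rw [e1]
  have hu0 := norm_nonneg u
  have h2 : |2 * α * (u * (starRingEnd ℂ) ρ).re| ≤ 2 * α * (‖u‖ * (C1 * ‖u‖ ^ 2)) := by
    rw [abs_mul, abs_of_pos (by positivity : 0 < 2 * α)]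
    refine mul_le_mul_of_nonneg_left ?_ (by positivity)
    refine (Complex.abs_re_le_norm _).trans ?_
    rw [norm_mul, RCLike.norm_conj]
    exact mul_le_mul_of_nonneg_left h hu0
  have h3 : ‖ρ‖ ^ 2 ≤ C1 ^ 2 * ‖u‖ ^ 3 := by
    have h4 : ‖ρ‖ ^ 2 ≤ (C1 * ‖u‖ ^ 2) ^ 2 := pow_le_pow_left₀ (norm_nonneg _) h 2
    refine h4.trans ?_
    have h5 : ‖u‖ ^ 4 ≤ ‖u‖ ^ 3 := pow_le_pow_of_le_one hu0 (by linarith) (by norm_num)
    calc (C1 * ‖u‖ ^ 2) ^ 2 = C1 ^ 2 * ‖u‖ ^ 4 := by ring
      _ ≤ C1 ^ 2 * ‖u‖ ^ 3 := by gcongr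
  refine (abs_add_le _ _).trans ?_
  rw [abs_of_nonneg (by positivity : 0 ≤ ‖ρ‖ ^ 2)]
  calc _ ≤ 2 * α * (‖u‖ * (C1 * ‖u‖ ^ 2)) + C1 ^ 2 * ‖u‖ ^ 3 := add_le_add h2 h3
    _ = _ := by ring

theorem pw2 {α C1 : ℝ} (hα : 0 < α) (hC1 : 0 < C1) {u v : ℂ} (hu : ‖u‖ ≤ 1 / 2)
    (h : ‖v - 1 - α * u‖ ≤ C1 * ‖u‖ ^ 2) :
    |‖v‖ ^ 2 - 1 - 2 * α * u.re| ≤ (2 * C1 + (α + C1) ^ 2) * ‖u‖ ^ 2 := by
  set ρ : ℂ := v - 1 - α * u with hρ
  have hv : v = 1 + α * u + ρ := by rw [hρ]; ring
  have hu0 := norm_nonneg u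
  have e1 : ‖v‖ ^ 2 - 1 - 2 * α * u.re = 2 * ρ.re + ‖α * u + ρ‖ ^ 2 := by
    rw [← Complex.normSq_eq_norm_sq, ← Complex.normSq_eq_norm_sq, hv]
    simp only [Complex.normSq_apply, Complex.add_re, Complex.add_im, Complex.mul_re,
      Complex.mul_im, Complex.one_re, Complex.one_im, Complex.ofReal_re, Complex.ofReal_im]
    ring
  rw [e1]
  have h2 : |2 * ρ.re| ≤ 2 * (C1 * ‖u‖ ^ 2) := by
    rw [abs_mul, abs_of_pos (by norm_num : (0 : ℝ) < 2)]
    exact mul_le_mul_of_nonneg_left ((Complex.abs_re_le_norm _).trans h) (by norm_num)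
  have h3 : ‖α * u + ρ‖ ≤ (α + C1) * ‖u‖ := by
    refine (norm_add_le _ _).trans ?_
    rw [norm_mul, Complex.norm_real, Real.norm_of_nonneg hα.le]
    have h4 : C1 * ‖u‖ ^ 2 ≤ C1 * ‖u‖ := by
      have : ‖u‖ ^ 2 ≤ ‖u‖ := by nlinarith
      gcongr
    linarith
  have h4 : ‖α * u + ρ‖ ^ 2 ≤ ((α + C1) * ‖u‖) ^ 2 := pow_le_pow_left₀ (norm_nonneg _) h3 2
  refine (abs_add_le _ _).trans ?_
  rw [abs_of_nonneg (by positivity : 0 ≤ ‖α * u + ρ‖ ^ 2)]
  calc _ ≤ 2 * (C1 * ‖u‖ ^ 2) + ((α + C1) * ‖u‖) ^ 2 := add_le_add h2 h4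
    _ = _ := by ring

/-- weighted averages of small quantities are small -/
theorem avg_le {ι : Type} [Fintype ι] {μ a : ι → ℝ} {B : ℝ} (h0 : ∀ i, 0 ≤ μ i)
    (h1 : ∑ i, μ i = 1) (ha : ∀ i, |a i| ≤ B) : |∑ i, μ i * a i| ≤ B := by
  refine (Finset.abs_sum_le_sum_abs _ _).trans ?_
  calc ∑ i, |μ i * a i| ≤ ∑ i, μ i * B := by
        refine Finset.sum_le_sum fun i _ => ?_
        rw [abs_mul, abs_of_nonneg (h0 i)]
        exact mul_le_mul_of_nonneg_left (ha i) (h0 i)
    _ = B := by rw [← Finset.sum_mul, h1, one_mul]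

end AuxLNC

open AuxLN AuxLNC PM.AuxLOC in
theorem LNC : S_LNC := by
  intro γ p0 hG
  obtain ⟨C1, hC1, hE1⟩ := EXP γ
  have hα := al_pos γ
  set α := al γ with hαdef
  set D1 : ℝ := 2 * α * C1 + C1 ^ 2 with hD1
  set D2 : ℝ := 2 * C1 + (α + C1) ^ 2 with hD2
  set D3 : ℝ := 2 * α + D2 with hD3
  have hD1' : 0 < D1 := by positivity
  have hD2' : 0 < D2 := by positivity
  have hD3' : 0 < D3 := by positivity
  set D : ℝ := D1 + D2 * (4 * α + D2) + D3 ^ 3 with hD
  have hD' : 0 < D := by positivity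
  refine ⟨3 * D * Real.exp 24, by positivity, ?_⟩
  intro l hl ι _ m w lam hm hlam hw
  obtain ⟨hr0, hr2, -, hr3⟩ := good_r hG hl
  set r := Real.exp 8 / Real.sqrt l with hr
  rcases (Finset.sum_nonneg fun i _ => hm i : 0 ≤ ∑ i, m i).eq_or_lt with hM | hM
  · have h0 : ∀ i, m i = 0 := by
      intro i
      have := (Finset.sum_eq_zero_iff_of_nonneg (fun i _ => hm i)).1 hM.symm i (Finset.mem_univ i)
      exact this
    rw [zero_case γ m w lam h0]
    simp [h0, ft]
  · set M := ∑ i, m i with hMdef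
    set μ : ι → ℝ := fun i => m i / M with hμ
    have hμ0 : ∀ i, 0 ≤ μ i := fun i => div_nonneg (hm i) hM.le
    have hμ1 : ∑ i, μ i = 1 := by
      rw [hμ, ← Finset.sum_div, ← hMdef, div_self hM.ne']
    have hzw : ∀ i (x : UnitAddCircle), ‖zc x * w i‖ = ‖w i‖ := by
      intro i x
      rw [norm_mul, AuxCHI.zc_norm, one_mul]
    have hw2 : ∀ i, ‖w i‖ ≤ 1 / 2 := fun i => (hw i).trans hr2
    have hcp : ∀ i, Continuous (fun x : UnitAddCircle => phi γ (zc x * w i)) :=
      fun i => cont_phi γ _ (hw2 i)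
    have hP1 : ∀ i x, |‖phi γ (zc x * w i)‖ ^ 2 - 1 - 2 * (phi γ (zc x * w i) - 1).re -
        α ^ 2 * ‖w i‖ ^ 2| ≤ D1 * r ^ 3 := by
      intro i x
      have h1 := pw1 hα hC1 (u := zc x * w i) (v := phi γ (zc x * w i))
        (by rw [hzw]; exact hw2 i) (hE1 _ (by rw [hzw]; exact hw2 i))
      rw [hzw] at h1
      refine h1.trans ?_
      have := hw i
      gcongr
    have hP2 : ∀ i x, |‖phi γ (zc x * w i)‖ ^ 2 - 1 - 2 * α * (zc x * w i).re| ≤ D2 * r ^ 2 := by
      intro i x
      have h1 := pw2 hα hC1 (u := zc x * w i) (v := phi γ (zc x * w i))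
        (by rw [hzw]; exact hw2 i) (hE1 _ (by rw [hzw]; exact hw2 i))
      rw [hzw] at h1
      refine h1.trans ?_
      have := hw i
      gcongr
    set h : UnitAddCircle → ℝ := fun x => ∑ i, μ i * (‖phi γ (zc x * w i)‖ ^ 2 - 1) with hh
    set L : UnitAddCircle → ℝ := fun x => ∑ i, μ i * (2 * α * (zc x * w i).re) with hL
    have hhc : Continuous h := by
      rw [hh]
      exact continuous_finsetSum _ fun i _ => continuous_const.mul
        (((hcp i).norm.pow 2).sub continuous_const)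
    have hLc : Continuous L := by
      rw [hL]
      exact continuous_finsetSum _ fun i _ => continuous_const.mul
        (continuous_const.mul (Complex.continuous_re.comp
          (AuxCHI.zc_continuous.mul continuous_const)))
    have hLb : ∀ x, |L x| ≤ 2 * α * r := by
      intro x
      refine avg_le hμ0 hμ1 fun i => ?_
      rw [abs_mul, abs_of_pos (by positivity : 0 < 2 * α)]
      refine mul_le_mul_of_nonneg_left ?_ (by positivity)
      exact (Complex.abs_re_le_norm _).trans (by rw [hzw]; exact hw i)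
    have hhL : ∀ x, |h x - L x| ≤ D2 * r ^ 2 := by
      intro x
      have e : h x - L x = ∑ i, μ i * (‖phi γ (zc x * w i)‖ ^ 2 - 1 - 2 * α * (zc x * w i).re) := by
        rw [hh, hL]
        simp only
        rw [← Finset.sum_sub_distrib]
        exact Finset.sum_congr rfl fun i _ => by ring
      rw [e]
      exact avg_le hμ0 hμ1 fun i => hP2 i x
    have hr22 : r ^ 2 ≤ r := by nlinarith
    have hhb : ∀ x, |h x| ≤ D3 * r := by
      intro x
      have h1 : |h x| ≤ |h x - L x| + |L x| := by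
        have := abs_add_le (h x - L x) (L x)
        rwa [sub_add_cancel] at this
      have h2 := hhL x
      have h3 := hLb x
      have h4 : D2 * r ^ 2 ≤ D2 * r := mul_le_mul_of_nonneg_left hr22 hD2'.le
      calc |h x| ≤ D2 * r + 2 * α * r := by linarith
        _ = D3 * r := by rw [hD3]; ring
    -- first moment
    have t1 : |(∫ x, h x) - α ^ 2 * ∑ i, m i / M * ‖w i‖ ^ 2| ≤ D * r ^ 3 := by
      have e : (∫ x, h x) - α ^ 2 * ∑ i, m i / M * ‖w i‖ ^ 2 =
          ∑ i, μ i * ∫ x : UnitAddCircle, (‖phi γ (zc x * w i)‖ ^ 2 - 1 -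
            2 * (phi γ (zc x * w i) - 1).re - α ^ 2 * ‖w i‖ ^ 2) := by
        have e1 : (∫ x, h x) = ∑ i, μ i * ∫ x : UnitAddCircle, (‖phi γ (zc x * w i)‖ ^ 2 - 1) := by
          exact int_lin volume μ (fun i => hint _ (((hcp i).norm.pow 2).sub continuous_const))
        rw [e1, Finset.mul_sum, ← Finset.sum_sub_distrib]
        refine Finset.sum_congr rfl fun i _ => ?_
        have c1 : Integrable (fun x : UnitAddCircle => ‖phi γ (zc x * w i)‖ ^ 2 - 1) :=
          hint _ (((hcp i).norm.pow 2).sub continuous_const)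
        have c2 : Integrable (fun x : UnitAddCircle => (phi γ (zc x * w i) - 1).re) :=
          hint _ (Complex.continuous_re.comp ((hcp i).sub continuous_const))
        rw [int_ss volume 2 (α ^ 2 * ‖w i‖ ^ 2) c1 c2, int_re γ _ (hw2 i)]
        simp only [hμ]
        ring
      rw [e]
      have h2 : |∑ i, μ i * ∫ x : UnitAddCircle, (‖phi γ (zc x * w i)‖ ^ 2 - 1 -
            2 * (phi γ (zc x * w i) - 1).re - α ^ 2 * ‖w i‖ ^ 2)| ≤ D1 * r ^ 3 := by
        refine avg_le hμ0 hμ1 fun i => ?_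
        have h3 := norm_integral_le_of_norm_le_const (μ := (volume : Measure UnitAddCircle))
          (f := fun x : UnitAddCircle => ‖phi γ (zc x * w i)‖ ^ 2 - 1 -
            2 * (phi γ (zc x * w i) - 1).re - α ^ 2 * ‖w i‖ ^ 2) (C := D1 * r ^ 3)
          (Filter.Eventually.of_forall fun x => by rw [Real.norm_eq_abs]; exact hP1 i x)
        rw [probReal_univ, mul_one, Real.norm_eq_abs] at h3
        exact h3
      refine h2.trans ?_
      refine mul_le_mul_of_nonneg_right ?_ (by positivity)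
      rw [hD]
      have : 0 ≤ D2 * (4 * α + D2) + D3 ^ 3 := by positivity
      linarith
    -- second moment
    have t2 : |(∫ x, h x ^ 2) - 2 * α ^ 2 * ∑ i, ∑ j, m i / M * (m j / M) *
        (w i * (starRingEnd ℂ) (w j)).re| ≤ D * r ^ 3 := by
      have e : ∫ x, L x ^ 2 = 2 * α ^ 2 * ∑ i, ∑ j, m i / M * (m j / M) *
          (w i * (starRingEnd ℂ) (w j)).re := by
        have e1 : ∀ x, L x ^ 2 = ∑ i, ∑ j, (μ i * μ j * (4 * α ^ 2)) *
            ((zc x * w i).re * (zc x * w j).re) := by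
          intro x
          rw [hL, pow_two]
          simp only
          rw [Finset.sum_mul_sum]
          exact Finset.sum_congr rfl fun i _ => Finset.sum_congr rfl fun j _ => by ring
        have c0 : ∀ i j, Continuous (fun x : UnitAddCircle =>
            (zc x * w i).re * (zc x * w j).re) := fun i j =>
          (Complex.continuous_re.comp (AuxCHI.zc_continuous.mul continuous_const)).mul
            (Complex.continuous_re.comp (AuxCHI.zc_continuous.mul continuous_const))
        rw [integral_congr_ae (Filter.Eventually.of_forall e1)]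
        rw [int_lin2 volume (fun i j => μ i * μ j * (4 * α ^ 2)) (fun i j => hint _ (c0 i j)),
          Finset.mul_sum]
        refine Finset.sum_congr rfl fun i _ => ?_
        rw [Finset.mul_sum]
        refine Finset.sum_congr rfl fun j _ => ?_
        rw [int_re_re]
        simp only [hμ]
        ring
      have hh2 : Integrable (fun x => h x ^ 2) := hint _ (hhc.pow 2)
      have hL2 : Integrable (fun x => L x ^ 2) := hint _ (hLc.pow 2)
      rw [← e, ← integral_sub hh2 hL2]
      have h3 := norm_integral_le_of_norm_le_const (μ := (volume : Measure UnitAddCircle))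
        (f := fun x : UnitAddCircle => h x ^ 2 - L x ^ 2) (C := D2 * (4 * α + D2) * r ^ 3)
        (Filter.Eventually.of_forall fun x => by
          rw [Real.norm_eq_abs]
          have e2 : h x ^ 2 - L x ^ 2 = (h x - L x) * (2 * L x + (h x - L x)) := by ring
          rw [e2, abs_mul]
          have h4 : |2 * L x + (h x - L x)| ≤ (4 * α + D2) * r := by
            refine (abs_add_le _ _).trans ?_
            rw [abs_mul, abs_two]
            have h5 := hLb x
            have h6 := hhL x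
            have h7 : D2 * r ^ 2 ≤ D2 * r := mul_le_mul_of_nonneg_left hr22 hD2'.le
            calc 2 * |L x| + |h x - L x| ≤ 2 * (2 * α * r) + D2 * r := by linarith
              _ = _ := by ring
          calc |h x - L x| * |2 * L x + (h x - L x)| ≤ D2 * r ^ 2 * ((4 * α + D2) * r) :=
                mul_le_mul (hhL x) h4 (abs_nonneg _) (by positivity)
            _ = _ := by ring)
      rw [probReal_univ, mul_one, Real.norm_eq_abs] at h3
      refine h3.trans ?_
      refine mul_le_mul_of_nonneg_right ?_ (by positivity)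
      rw [hD]
      have : 0 ≤ D1 + D3 ^ 3 := by positivity
      linarith
    have t3 : ∫ x, |h x| ^ 3 ≤ D * r ^ 3 := by
      have h3 : ∫ x, |h x| ^ 3 ≤ ∫ x : UnitAddCircle, (D3 * r) ^ 3 := by
        refine integral_mono (hint _ (hhc.abs.pow 3)) (integrable_const _) fun x => ?_
        exact pow_le_pow_left₀ (abs_nonneg _) (hhb x) 3
      rw [integral_const, probReal_univ, one_smul] at h3
      refine h3.trans ?_
      rw [mul_pow]
      refine mul_le_mul_of_nonneg_right ?_ (by positivity)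
      rw [hD]
      have : 0 ≤ D1 + D2 * (4 * α + D2) := by positivity
      linarith
    have hZc : Continuous (fun x : UnitAddCircle => ∑ i, m i * ‖phi γ (zc x * w i)‖ ^ 2) :=
      continuous_finsetSum _ fun i _ => continuous_const.mul ((hcp i).norm.pow 2)
    have := core (volume : Measure UnitAddCircle) γ m w lam (D * r ^ 3) hM hlam
      (fun x => ∑ i, m i * ‖phi γ (zc x * w i)‖ ^ 2) h
      (fun x => Finset.sum_nonneg fun i _ => mul_nonneg (hm i) (by positivity))
      hZc.aestronglyMeasurable ?_ (hint _ hhc) (hint _ (hhc.pow 2)) (hint _ (hhc.abs.pow 3))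
      t1 t2 t3
    · refine this.trans (le_of_eq ?_)
      rw [hr3]
      ring
    · intro x
      rw [hh]
      simp only [hμ]
      rw [mul_add, mul_one, Finset.mul_sum]
      have e : ∀ i ∈ Finset.univ, (∑ i, m i) * (m i / M * (‖phi γ (zc x * w i)‖ ^ 2 - 1)) =
          m i * ‖phi γ (zc x * w i)‖ ^ 2 - m i := by
        intro i _
        rw [← hMdef]
        field_simp
      rw [Finset.sum_congr rfl e, Finset.sum_sub_distrib]
      ring

end PN
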