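import Pool.Agent.H24.PN.LNC

/-! Swap of one prime: the Gaussian side. -/

namespace PN
open MeasureTheory Complex ProbabilityTheory PM

namespace AuxLNG

theorem mgf1 (a : ℝ) : ∫ x : ℝ, Real.exp (a * x) ∂gaussianReal 0 1 = Real.exp (a ^ 2 / 2) := by
  have h := congrFun (mgf_id_gaussianReal (μ := 0) (v := 1)) a
  unfold mgf at h
  simp only [id] at h
  rw [h]
  congr 1
  simp

theorem prod_form (a b : ℝ) (g : Fin 2 → ℝ) : Real.exp (a * g 0 + b * g 1) =
    ∏ i : Fin 2, (fun x : ℝ => Real.exp ((if i = 0 then a else b) * x)) (g i) := by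
  rw [Fin.prod_univ_two]
  simp only [if_true]
  rw [if_neg (by decide), ← Real.exp_add]

theorem eint (a b : ℝ) : Integrable (fun g : Fin 2 → ℝ => Real.exp (a * g 0 + b * g 1))
    (Ga (Fin 2)) := by
  have h1 : (fun g : Fin 2 → ℝ => Real.exp (a * g 0 + b * g 1)) =
      fun g : Fin 2 → ℝ => ∏ i : Fin 2,
        (fun x : ℝ => Real.exp ((if i = 0 then a else b) * x)) (g i) :=
    funext fun g => prod_form a b g
  rw [h1]
  unfold Ga
  exact Integrable.fintype_prod (f := fun (i : Fin 2) (x : ℝ) =>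
    Real.exp ((if i = 0 then a else b) * x)) (fun i => integrable_exp_mul_gaussianReal _)

theorem eval_int (a b : ℝ) : ∫ g : Fin 2 → ℝ, Real.exp (a * g 0 + b * g 1) ∂Ga (Fin 2) =
    Real.exp ((a ^ 2 + b ^ 2) / 2) := by
  rw [integral_congr_ae (Filter.Eventually.of_forall fun g => prod_form a b g)]
  unfold Ga
  rw [integral_fintype_prod_eq_prod (fun (i : Fin 2) (x : ℝ) =>
    Real.exp ((if i = 0 then a else b) * x)), Fin.prod_univ_two]
  simp only [if_true]
  rw [if_neg (by decide), mgf1, mgf1, ← Real.exp_add]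
  congr 1
  ring

theorem exp_one (x : ℝ) : |Real.exp x - 1| ≤ |x| * Real.exp |x| := by
  have h := Complex.norm_exp_sub_sum_le_norm_mul_exp (x : ℂ) 1
  simp only [Finset.sum_range_succ, Finset.sum_range_zero, pow_zero, Nat.factorial, Nat.cast_one,
    div_one, zero_add, pow_one, Complex.norm_real, Real.norm_eq_abs] at h
  have e : ((Real.exp x - 1 : ℝ) : ℂ) = Complex.exp (x : ℂ) - 1 := by push_cast; rfl
  rw [← e, Complex.norm_real, Real.norm_eq_abs] at h
  exact h

theorem exp_two' {x B : ℝ} (h0 : 0 ≤ x) (hB : x ≤ B) :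
    |Real.exp x - 1 - x| ≤ x ^ 2 * Real.exp B := by
  have h := Complex.norm_exp_sub_sum_le_norm_mul_exp (x : ℂ) 2
  simp only [Finset.sum_range_succ, Finset.sum_range_zero, pow_zero, Nat.factorial, Nat.cast_one,
    div_one, zero_add, pow_one, Complex.norm_real, Real.norm_eq_abs] at h
  have e : ((Real.exp x - 1 - x : ℝ) : ℂ) = Complex.exp (x : ℂ) - (1 + (x : ℂ) / ((1 : ℕ) * 1 : ℕ)) := by
    push_cast; ring
  have h2 : ‖((Real.exp x - 1 - x : ℝ) : ℂ)‖ ≤ |x| ^ 2 * Real.exp |x| := by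
    rw [e]
    simpa using h
  rw [Complex.norm_real, Real.norm_eq_abs, abs_of_nonneg h0] at h2
  refine h2.trans ?_
  gcongr

/-- the exponential factor of one coordinate -/
noncomputable def Ex (α : ℝ) (w : ℂ) (g : Fin 2 → ℝ) : ℝ :=
  Real.exp (Real.sqrt 2 * α * (g 0 * w.re - g 1 * w.im))

theorem Ex_eq (α : ℝ) (w : ℂ) (g : Fin 2 → ℝ) : Ex α w g =
    Real.exp ((Real.sqrt 2 * α * w.re) * g 0 + (-(Real.sqrt 2 * α * w.im)) * g 1) := by
  unfold Ex
  congr 1
  ring

theorem Ex_mul (α : ℝ) (w w' : ℂ) (g : Fin 2 → ℝ) : Ex α w g * Ex α w' g = Ex α (w + w') g := by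
  unfold Ex
  rw [← Real.exp_add]
  congr 1
  simp only [Complex.add_re, Complex.add_im]
  ring

theorem Ex_int (α : ℝ) (w : ℂ) : Integrable (Ex α w) (Ga (Fin 2)) := by
  have h : Ex α w = fun g => Real.exp ((Real.sqrt 2 * α * w.re) * g 0 +
      (-(Real.sqrt 2 * α * w.im)) * g 1) := funext (Ex_eq α w)
  rw [h]
  exact eint _ _

theorem Ex_val (α : ℝ) (w : ℂ) : ∫ g, Ex α w g ∂Ga (Fin 2) = Real.exp (α ^ 2 * ‖w‖ ^ 2) := by
  rw [integral_congr_ae (Filter.Eventually.of_forall (Ex_eq α w)), eval_int]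
  congr 1
  rw [← Complex.normSq_eq_norm_sq, Complex.normSq_apply]
  have h := Real.sq_sqrt (by norm_num : (0 : ℝ) ≤ 2)
  calc ((Real.sqrt 2 * α * w.re) ^ 2 + (-(Real.sqrt 2 * α * w.im)) ^ 2) / 2 =
      Real.sqrt 2 ^ 2 * α ^ 2 * (w.re * w.re + w.im * w.im) / 2 := by ring
    _ = α ^ 2 * (w.re * w.re + w.im * w.im) := by rw [h]; ring

theorem Ex_cont (α : ℝ) (w : ℂ) : Continuous (Ex α w) := by
  unfold Ex
  fun_prop

/-- dominating function -/
noncomputable def Dm (a : ℝ) (g : Fin 2 → ℝ) : ℝ :=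
  Real.exp (a * g 0 + a * g 1) + Real.exp (a * g 0 + (-a) * g 1) +
    Real.exp ((-a) * g 0 + a * g 1) + Real.exp ((-a) * g 0 + (-a) * g 1)

theorem Dm_int (a : ℝ) : Integrable (Dm a) (Ga (Fin 2)) := by
  unfold Dm
  exact (((eint _ _).add (eint _ _)).add (eint _ _)).add (eint _ _)

theorem Dm_val (a : ℝ) : ∫ g, Dm a g ∂Ga (Fin 2) = 4 * Real.exp (a ^ 2) := by
  unfold Dm
  have i1 := eint a a
  have i2 := eint a (-a)
  have i3 := eint (-a) a
  have i4 := eint (-a) (-a)
  have j1 : Integrable (fun g : Fin 2 → ℝ => Real.exp (a * g 0 + a * g 1) +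
    Real.exp (a * g 0 + (-a) * g 1)) (Ga (Fin 2)) := i1.add i2
  have j2 : Integrable (fun g : Fin 2 → ℝ => Real.exp (a * g 0 + a * g 1) +
    Real.exp (a * g 0 + (-a) * g 1) + Real.exp ((-a) * g 0 + a * g 1)) (Ga (Fin 2)) := j1.add i3
  rw [integral_add j2 i4, integral_add j1 i3, integral_add i1 i2, eval_int, eval_int, eval_int,
    eval_int]
  have e1 : (a ^ 2 + a ^ 2) / 2 = a ^ 2 := by ring
  have e2 : (a ^ 2 + (-a) ^ 2) / 2 = a ^ 2 := by ring
  have e3 : ((-a) ^ 2 + a ^ 2) / 2 = a ^ 2 := by ring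
  have e4 : ((-a) ^ 2 + (-a) ^ 2) / 2 = a ^ 2 := by ring
  rw [e1, e2, e3, e4]
  ring

theorem le_Dm {a : ℝ} (g : Fin 2 → ℝ) : Real.exp (a * (|g 0| + |g 1|)) ≤ Dm a g := by
  unfold Dm
  have p1 := Real.exp_pos (a * g 0 + a * g 1)
  have p2 := Real.exp_pos (a * g 0 + (-a) * g 1)
  have p3 := Real.exp_pos ((-a) * g 0 + a * g 1)
  have p4 := Real.exp_pos ((-a) * g 0 + (-a) * g 1)
  rcases abs_cases (g 0) with ⟨h0, -⟩ | ⟨h0, -⟩ <;> rcases abs_cases (g 1) with ⟨h1, -⟩ | ⟨h1, -⟩ <;>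
    rw [h0, h1]
  · have e : a * (g 0 + g 1) = a * g 0 + a * g 1 := by ring
    rw [e]; linarith
  · have e : a * (g 0 + -g 1) = a * g 0 + (-a) * g 1 := by ring
    rw [e]; linarith
  · have e : a * (-g 0 + g 1) = (-a) * g 0 + a * g 1 := by ring
    rw [e]; linarith
  · have e : a * (-g 0 + -g 1) = (-a) * g 0 + (-a) * g 1 := by ring
    rw [e]; linarith

theorem cube_exp {T : ℝ} (hT : 0 ≤ T) : (T * Real.exp T) ^ 3 ≤ 6 * Real.exp (4 * T) := by
  have h1 : T ^ 3 ≤ 6 * Real.exp T := by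
    have := Real.pow_div_factorial_le_exp T hT 3
    have e : ((Nat.factorial 3 : ℕ) : ℝ) = 6 := by norm_num [Nat.factorial]
    rw [e, div_le_iff₀ (by norm_num)] at this
    linarith
  have h2 : Real.exp (4 * T) = Real.exp T * Real.exp T ^ 3 := by
    rw [← Real.exp_nat_mul, ← Real.exp_add]
    congr 1
    push_cast
    ring
  rw [mul_pow, h2]
  have h3 : 0 ≤ Real.exp T ^ 3 := by positivity
  nlinarith [mul_le_mul_of_nonneg_right h1 h3]

end AuxLNG

open AuxLN AuxLNC AuxLNG in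
theorem LNG : S_LNG := by
  intro γ p0 hG
  have hα := PM.AuxLOC.al_pos γ
  set α := al γ with hαdef
  set D1 : ℝ := α ^ 4 * Real.exp (α ^ 2) with hD1
  set a : ℝ := 4 * (Real.sqrt 2 * α) with ha
  have ha0 : 0 ≤ a := by positivity
  set B : ℝ := 4 * Real.exp (a ^ 2) with hB
  have hD1' : 0 < D1 := by positivity
  have hB' : 0 < B := by positivity
  set D : ℝ := 18 * D1 + 6 * B with hD
  have hD' : 0 < D := by positivity
  refine ⟨3 * D * Real.exp 24, by positivity, ?_⟩
  intro l hl ι _ m w lam hm hlam hw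
  obtain ⟨hr0, hr2, -, hr3⟩ := good_r hG hl
  set r := Real.exp 8 / Real.sqrt l with hr
  rcases (Finset.sum_nonneg fun i _ => hm i : 0 ≤ ∑ i, m i).eq_or_lt with hM | hM
  · have h0 : ∀ i, m i = 0 := by
      intro i
      have := (Finset.sum_eq_zero_iff_of_nonneg (fun i _ => hm i)).1 hM.symm i (Finset.mem_univ i)
      exact this
    rw [zero_case γ m w lam h0]
    simp [h0, ft]
  · set M := ∑ i, m i with hMdef
    set μ : ι → ℝ := fun i => m i / M with hμ
    have hμ0 : ∀ i, 0 ≤ μ i := fun i => div_nonneg (hm i) hM.le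
    have hμ1 : ∑ i, μ i = 1 := by
      rw [hμ, ← Finset.sum_div, ← hMdef, div_self hM.ne']
    set h : (Fin 2 → ℝ) → ℝ := fun g => ∑ i, μ i * (Ex α (w i) g - 1) with hh
    have hhc : Continuous h := by
      rw [hh]
      exact continuous_finsetSum _ fun i _ => continuous_const.mul
        ((Ex_cont _ _).sub continuous_const)
    have hE1 : ∀ i, Integrable (fun g => Ex α (w i) g - 1) (Ga (Fin 2)) :=
      fun i => (Ex_int _ _).sub (integrable_const _)
    have hI1 : Integrable h (Ga (Fin 2)) := by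
      rw [hh]
      exact integrable_finsetSum _ fun i _ => (hE1 i).const_mul _
    -- products
    have hprod : ∀ i j g, (Ex α (w i) g - 1) * (Ex α (w j) g - 1) =
        Ex α (w i + w j) g - Ex α (w i) g - Ex α (w j) g + 1 := by
      intro i j g
      rw [← Ex_mul]
      ring
    have hE2 : ∀ i j, Integrable (fun g => (Ex α (w i) g - 1) * (Ex α (w j) g - 1))
        (Ga (Fin 2)) := by
      intro i j
      have e : (fun g => (Ex α (w i) g - 1) * (Ex α (w j) g - 1)) =
          fun g => Ex α (w i + w j) g - Ex α (w i) g - Ex α (w j) g + 1 := funext (hprod i j)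
      rw [e]
      exact (((Ex_int _ _).sub (Ex_int _ _)).sub (Ex_int _ _)).add (integrable_const _)
    have hV2 : ∀ i j, ∫ g, (Ex α (w i) g - 1) * (Ex α (w j) g - 1) ∂Ga (Fin 2) =
        Real.exp (α ^ 2 * ‖w i + w j‖ ^ 2) - Real.exp (α ^ 2 * ‖w i‖ ^ 2) -
          Real.exp (α ^ 2 * ‖w j‖ ^ 2) + 1 := by
      intro i j
      rw [integral_congr_ae (Filter.Eventually.of_forall (hprod i j))]
      have j1 : Integrable (fun g => Ex α (w i + w j) g - Ex α (w i) g) (Ga (Fin 2)) :=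
        (Ex_int _ _).sub (Ex_int _ _)
      have j2 : Integrable (fun g => Ex α (w i + w j) g - Ex α (w i) g - Ex α (w j) g)
        (Ga (Fin 2)) := j1.sub (Ex_int _ _)
      rw [integral_add j2 (integrable_const _), integral_sub j1 (Ex_int _ _),
        integral_sub (Ex_int _ _) (Ex_int _ _), Ex_val, Ex_val, Ex_val, integral_const,
        probReal_univ, one_smul]
    have hsq : ∀ g, h g ^ 2 = ∑ i, ∑ j, (μ i * μ j) *
        ((Ex α (w i) g - 1) * (Ex α (w j) g - 1)) := by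
      intro g
      rw [hh, pow_two]
      simp only
      rw [Finset.sum_mul_sum]
      exact Finset.sum_congr rfl fun i _ => Finset.sum_congr rfl fun j _ => by ring
    have hI2 : Integrable (fun g => h g ^ 2) (Ga (Fin 2)) := by
      have e : (fun g => h g ^ 2) = fun g => ∑ i, ∑ j, (μ i * μ j) *
          ((Ex α (w i) g - 1) * (Ex α (w j) g - 1)) := funext hsq
      rw [e]
      exact integrable_finsetSum _ fun i _ => integrable_finsetSum _ fun j _ =>
        (hE2 i j).const_mul _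
    -- the third moment
    have hcube : ∀ g, |h g| ^ 3 ≤ (6 * r ^ 3) * Dm a g := by
      intro g
      set T : ℝ := Real.sqrt 2 * α * (|g 0| + |g 1|) with hT
      have hT0 : 0 ≤ T := by positivity
      have h1 : |h g| ≤ r * (T * Real.exp T) := by
        refine avg_le hμ0 hμ1 fun i => ?_
        refine (exp_one _).trans ?_
        have h2 : |Real.sqrt 2 * α * (g 0 * (w i).re - g 1 * (w i).im)| ≤ T * r := by
          have h3 : |(w i).re| ≤ r := (Complex.abs_re_le_norm _).trans (hw i)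
          have h4 : |(w i).im| ≤ r := (Complex.abs_im_le_norm _).trans (hw i)
          have h6 : |g 0 * (w i).re - g 1 * (w i).im| ≤ (|g 0| + |g 1|) * r := by
            refine (abs_sub _ _).trans ?_
            rw [abs_mul, abs_mul, add_mul]
            gcongr
          rw [abs_mul, abs_of_nonneg (by positivity : (0 : ℝ) ≤ Real.sqrt 2 * α)]
          calc Real.sqrt 2 * α * |g 0 * (w i).re - g 1 * (w i).im| ≤
              Real.sqrt 2 * α * ((|g 0| + |g 1|) * r) := by gcongr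
            _ = T * r := by rw [hT]; ring
        have h5 : T * r ≤ T := by nlinarith
        calc |Real.sqrt 2 * α * (g 0 * (w i).re - g 1 * (w i).im)| *
              Real.exp |Real.sqrt 2 * α * (g 0 * (w i).re - g 1 * (w i).im)| ≤
              (T * r) * Real.exp T := by
                refine mul_le_mul h2 (Real.exp_le_exp.2 (h2.trans h5)) (Real.exp_pos _).le
                  (by positivity)
          _ = r * (T * Real.exp T) := by ring
      calc |h g| ^ 3 ≤ (r * (T * Real.exp T)) ^ 3 := pow_le_pow_left₀ (abs_nonneg _) h1 3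
        _ = r ^ 3 * (T * Real.exp T) ^ 3 := by ring
        _ ≤ r ^ 3 * (6 * Real.exp (4 * T)) := by
            refine mul_le_mul_of_nonneg_left (cube_exp hT0) (by positivity)
        _ ≤ r ^ 3 * (6 * Dm a g) := by
            refine mul_le_mul_of_nonneg_left ?_ (by positivity)
            have e : 4 * T = a * (|g 0| + |g 1|) := by rw [hT, ha]; ring
            rw [e]
            linarith [le_Dm (a := a) g]
        _ = _ := by ring
    have hI3 : Integrable (fun g => |h g| ^ 3) (Ga (Fin 2)) := by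
      refine Integrable.mono' ((Dm_int a).const_mul (6 * r ^ 3))
        (hhc.abs.pow 3).aestronglyMeasurable (Filter.Eventually.of_forall fun g => ?_)
      rw [Real.norm_eq_abs, abs_of_nonneg (by positivity)]
      exact hcube g
    have hr43 : r ^ 4 ≤ r ^ 3 := pow_le_pow_of_le_one hr0.le (by linarith) (by norm_num)
    -- exponentials
    have hy : ∀ i, |Real.exp (α ^ 2 * ‖w i‖ ^ 2) - 1 - α ^ 2 * ‖w i‖ ^ 2| ≤ D1 * r ^ 3 := by
      intro i
      have h1 : ‖w i‖ ^ 2 ≤ r ^ 2 := pow_le_pow_left₀ (norm_nonneg _) (hw i) 2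
      have h2 : α ^ 2 * ‖w i‖ ^ 2 ≤ α ^ 2 := by
        have : ‖w i‖ ^ 2 ≤ 1 := by nlinarith
        have h3 := mul_le_mul_of_nonneg_left this (by positivity : 0 ≤ α ^ 2)
        linarith
      refine (exp_two' (by positivity) h2).trans ?_
      have h4 : (α ^ 2 * ‖w i‖ ^ 2) ^ 2 ≤ (α ^ 2 * r ^ 2) ^ 2 := by gcongr
      calc (α ^ 2 * ‖w i‖ ^ 2) ^ 2 * Real.exp (α ^ 2) ≤
          (α ^ 2 * r ^ 2) ^ 2 * Real.exp (α ^ 2) := by gcongr
        _ = D1 * r ^ 4 := by rw [hD1]; ring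
        _ ≤ D1 * r ^ 3 := by gcongr
    have hy2 : ∀ i j, |Real.exp (α ^ 2 * ‖w i + w j‖ ^ 2) - 1 - α ^ 2 * ‖w i + w j‖ ^ 2| ≤
        16 * D1 * r ^ 3 := by
      intro i j
      have h0 : ‖w i + w j‖ ≤ 2 * r := by
        have := norm_add_le (w i) (w j)
        linarith [hw i, hw j]
      have h1 : ‖w i + w j‖ ^ 2 ≤ (2 * r) ^ 2 := pow_le_pow_left₀ (norm_nonneg _) h0 2
      have h2 : α ^ 2 * ‖w i + w j‖ ^ 2 ≤ α ^ 2 := by
        have : ‖w i + w j‖ ^ 2 ≤ 1 := by nlinarith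
        have h3 := mul_le_mul_of_nonneg_left this (by positivity : 0 ≤ α ^ 2)
        linarith
      refine (exp_two' (by positivity) h2).trans ?_
      have h4 : (α ^ 2 * ‖w i + w j‖ ^ 2) ^ 2 ≤ (α ^ 2 * (2 * r) ^ 2) ^ 2 := by gcongr
      calc (α ^ 2 * ‖w i + w j‖ ^ 2) ^ 2 * Real.exp (α ^ 2) ≤
          (α ^ 2 * (2 * r) ^ 2) ^ 2 * Real.exp (α ^ 2) := by gcongr
        _ = 16 * D1 * r ^ 4 := by rw [hD1]; ring
        _ ≤ 16 * D1 * r ^ 3 := by gcongr
    -- first moment
    have t1 : |(∫ g, h g ∂Ga (Fin 2)) - α ^ 2 * ∑ i, m i / M * ‖w i‖ ^ 2| ≤ D * r ^ 3 := by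
      have e : (∫ g, h g ∂Ga (Fin 2)) - α ^ 2 * ∑ i, m i / M * ‖w i‖ ^ 2 =
          ∑ i, μ i * (Real.exp (α ^ 2 * ‖w i‖ ^ 2) - 1 - α ^ 2 * ‖w i‖ ^ 2) := by
        have e1 : (∫ g, h g ∂Ga (Fin 2)) = ∑ i, μ i * ∫ g, (Ex α (w i) g - 1) ∂Ga (Fin 2) :=
          int_lin (Ga (Fin 2)) μ hE1
        rw [e1, Finset.mul_sum, ← Finset.sum_sub_distrib]
        refine Finset.sum_congr rfl fun i _ => ?_
        rw [integral_sub (Ex_int _ _) (integrable_const _), Ex_val, integral_const, probReal_univ,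
          one_smul]
        simp only [hμ]
        ring
      rw [e]
      refine (avg_le hμ0 hμ1 hy).trans ?_
      refine mul_le_mul_of_nonneg_right ?_ (by positivity)
      rw [hD]
      linarith
    -- second moment
    have t2 : |(∫ g, h g ^ 2 ∂Ga (Fin 2)) - 2 * α ^ 2 * ∑ i, ∑ j, m i / M * (m j / M) *
        (w i * (starRingEnd ℂ) (w j)).re| ≤ D * r ^ 3 := by
      have e : (∫ g, h g ^ 2 ∂Ga (Fin 2)) - 2 * α ^ 2 * ∑ i, ∑ j, m i / M * (m j / M) *
          (w i * (starRingEnd ℂ) (w j)).re = ∑ i, μ i * ∑ j, μ j *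
          ((Real.exp (α ^ 2 * ‖w i + w j‖ ^ 2) - 1 - α ^ 2 * ‖w i + w j‖ ^ 2) -
          (Real.exp (α ^ 2 * ‖w i‖ ^ 2) - 1 - α ^ 2 * ‖w i‖ ^ 2) -
          (Real.exp (α ^ 2 * ‖w j‖ ^ 2) - 1 - α ^ 2 * ‖w j‖ ^ 2)) := by
        rw [integral_congr_ae (Filter.Eventually.of_forall hsq),
          int_lin2 (Ga (Fin 2)) (fun i j => μ i * μ j) hE2, Finset.mul_sum,
          ← Finset.sum_sub_distrib]
        refine Finset.sum_congr rfl fun i _ => ?_
        rw [Finset.mul_sum, Finset.mul_sum, ← Finset.sum_sub_distrib]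
        refine Finset.sum_congr rfl fun j _ => ?_
        have e2 : ‖w i + w j‖ ^ 2 = ‖w i‖ ^ 2 + ‖w j‖ ^ 2 +
            2 * (w i * (starRingEnd ℂ) (w j)).re := by
          rw [← Complex.normSq_eq_norm_sq, ← Complex.normSq_eq_norm_sq,
            ← Complex.normSq_eq_norm_sq, Complex.normSq_add]
        rw [hV2, e2]
        simp only [hμ]
        ring
      rw [e]
      have h2 : |∑ i, μ i * ∑ j, μ j *
          ((Real.exp (α ^ 2 * ‖w i + w j‖ ^ 2) - 1 - α ^ 2 * ‖w i + w j‖ ^ 2) -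
          (Real.exp (α ^ 2 * ‖w i‖ ^ 2) - 1 - α ^ 2 * ‖w i‖ ^ 2) -
          (Real.exp (α ^ 2 * ‖w j‖ ^ 2) - 1 - α ^ 2 * ‖w j‖ ^ 2))| ≤ 18 * D1 * r ^ 3 := by
        refine avg_le hμ0 hμ1 fun i => avg_le hμ0 hμ1 fun j => ?_
        refine (abs_sub _ _).trans ?_
        have h3 := abs_sub (Real.exp (α ^ 2 * ‖w i + w j‖ ^ 2) - 1 - α ^ 2 * ‖w i + w j‖ ^ 2)
          (Real.exp (α ^ 2 * ‖w i‖ ^ 2) - 1 - α ^ 2 * ‖w i‖ ^ 2)
        have h4 := hy2 i j
        have h5 := hy i
        have h6 := hy j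
        linarith
      refine h2.trans ?_
      refine mul_le_mul_of_nonneg_right ?_ (by positivity)
      rw [hD]
      linarith
    have t3 : ∫ g, |h g| ^ 3 ∂Ga (Fin 2) ≤ D * r ^ 3 := by
      have h3 : ∫ g, |h g| ^ 3 ∂Ga (Fin 2) ≤ ∫ g, (6 * r ^ 3) * Dm a g ∂Ga (Fin 2) :=
        integral_mono hI3 ((Dm_int a).const_mul _) hcube
      rw [integral_const_mul, Dm_val] at h3
      refine h3.trans ?_
      calc 6 * r ^ 3 * (4 * Real.exp (a ^ 2)) = (6 * B) * r ^ 3 := by rw [hB]; ring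
        _ ≤ D * r ^ 3 := by
            refine mul_le_mul_of_nonneg_right ?_ (by positivity)
            rw [hD]
            linarith
    have hZc : Continuous (fun g : Fin 2 → ℝ => ∑ i, m i * Ex α (w i) g) :=
      continuous_finsetSum _ fun i _ => continuous_const.mul (Ex_cont _ _)
    have := core (Ga (Fin 2)) γ m w lam (D * r ^ 3) hM hlam
      (fun g => ∑ i, m i * Ex α (w i) g) h
      (fun g => Finset.sum_nonneg fun i _ => mul_nonneg (hm i) (Real.exp_pos _).le)
      hZc.aestronglyMeasurable ?_ hI1 hI2 hI3 t1 t2 t3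
    · refine this.trans (le_of_eq ?_)
      rw [hr3]
      ring
    · intro g
      rw [hh]
      simp only [hμ]
      rw [mul_add, mul_one, Finset.mul_sum]
      have e : ∀ i ∈ Finset.univ, (∑ i, m i) * (m i / M * (Ex α (w i) g - 1)) =
          m i * Ex α (w i) g - m i := by
        intro i _
        rw [← hMdef]
        field_simp
      rw [Finset.sum_congr rfl e, Finset.sum_sub_distrib]
      ring

end PN
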