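import Pool.Agent.H24.PN.Stmts

/-! Module LPB of project PN (MP_d91868_an): path of one leaf of the cosine window field and the
pair bound. -/

namespace PN
open MeasureTheory Complex ProbabilityTheory PM

lemma lpb_sv_pos : 0 < sv := Real.sqrt_pos.mpr (Real.log_pos one_lt_two)

/-- row of the increment at level j along the leaf i -/
noncomputable def lpbRow (K B : ℕ) (i : Fin B × Fin (2 ^ K)) (j : Fin K)
    (k : Fin B × Fin K × Fin (2 ^ K + 1)) : ℝ :=
  if k.1 = i.1 then (if k.2.1 = j then mCn (1 / sv) K i.2 j k.2.2 else 0) else 0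

lemma lpb_inc (K B : ℕ) (i : Fin B × Fin (2 ^ K)) (g : Fin B × Fin K × Fin (2 ^ K + 1) → ℝ)
    (j : Fin K) : inc K B i g j = ∑ k, lpbRow K B i j k * g k := by
  rw [Fintype.sum_prod_type]
  rw [Finset.sum_eq_single i.1]
  · rw [Fintype.sum_prod_type]
    rw [Finset.sum_eq_single j]
    · simp [lpbRow, inc]
    · intro b _ hb
      simp [lpbRow, hb]
    · intro h
      exact absurd (Finset.mem_univ _) h
  · intro b _ hb
    simp [lpbRow, hb]
  · intro h
    exact absurd (Finset.mem_univ _) h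

lemma lpb_mCn_zero (be : ℝ) (K c r i : ℕ) (h1 : i ≠ c / 2 ^ (K - r))
    (h2 : i ≠ c / 2 ^ (K - r) + 1) : mCn be K c r i = 0 := by
  unfold mCn
  simp [h1, h2]

lemma lpb_sq (K c r : ℕ) (hr : r < K) (hc : c < 2 ^ K) :
    ∑ m : Fin (2 ^ K + 1), mCn (1 / sv) K c r m * mCn (1 / sv) K c r m = 1 := by
  have hq : c / 2 ^ (K - r) ≤ c := Nat.div_le_self _ _
  have hsv := lpb_sv_pos
  rw [Fintype.sum_eq_add (⟨c / 2 ^ (K - r), by omega⟩ : Fin (2 ^ K + 1))
    (⟨c / 2 ^ (K - r) + 1, by omega⟩ : Fin (2 ^ K + 1))]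
  · have e1 : mCn (1 / sv) K c r (c / 2 ^ (K - r)) =
        Real.cos (Real.pi / 2 * (((c % 2 ^ (K - r) : ℕ) : ℝ) / 2 ^ (K - r))) := by
      unfold mCn
      rw [if_pos hr, if_pos rfl]
      field_simp
    have e2 : mCn (1 / sv) K c r (c / 2 ^ (K - r) + 1) =
        Real.sin (Real.pi / 2 * (((c % 2 ^ (K - r) : ℕ) : ℝ) / 2 ^ (K - r))) := by
      unfold mCn
      rw [if_pos hr, if_neg (by omega), if_pos rfl]
      field_simp
    simp only [e1, e2]
    nlinarith [Real.sin_sq_add_cos_sq (Real.pi / 2 * (((c % 2 ^ (K - r) : ℕ) : ℝ) / 2 ^ (K - r)))]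
  · intro h
    have := congrArg Fin.val h
    simp at this
  · rintro x ⟨h1, h2⟩
    rw [lpb_mCn_zero _ _ _ _ _ (fun h => h1 (Fin.ext h)) (fun h => h2 (Fin.ext h))]
    simp

lemma lpb_cross (be : ℝ) (K c c' r : ℕ) (m : ℕ)
    (h : c / 2 ^ (K - r) + 2 ≤ c' / 2 ^ (K - r) ∨ c' / 2 ^ (K - r) + 2 ≤ c / 2 ^ (K - r)) :
    mCn be K c r m * mCn be K c' r m = 0 := by
  by_cases h1 : m = c / 2 ^ (K - r) ∨ m = c / 2 ^ (K - r) + 1
  · rw [lpb_mCn_zero be K c' r m (by omega) (by omega)]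
    simp
  · push Not at h1
    rw [lpb_mCn_zero be K c r m h1.1 h1.2]
    simp

lemma lpb_row_same (K B : ℕ) (i : Fin B × Fin (2 ^ K)) (j j' : Fin K) :
    ∑ k, lpbRow K B i j k * lpbRow K B i j' k = if j = j' then 1 else 0 := by
  rw [Fintype.sum_prod_type]
  rw [Finset.sum_eq_single i.1]
  · rw [Fintype.sum_prod_type]
    rw [Finset.sum_eq_single j]
    · by_cases hj : j = j'
      · subst hj
        simp only [lpbRow, if_true]
        exact lpb_sq K i.2 j j.2 i.2.2
      · simp [lpbRow, hj]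
    · intro b _ hb
      simp [lpbRow, hb]
    · intro h
      exact absurd (Finset.mem_univ _) h
  · intro b _ hb
    simp [lpbRow, hb]
  · intro h
    exact absurd (Finset.mem_univ _) h

lemma lpb_row_block (K B : ℕ) (i i' : Fin B × Fin (2 ^ K)) (h : i.1 ≠ i'.1) (j j' : Fin K)
    (k : Fin B × Fin K × Fin (2 ^ K + 1)) : lpbRow K B i j k * lpbRow K B i' j' k = 0 := by
  unfold lpbRow
  by_cases h1 : k.1 = i.1
  · rw [if_neg (show ¬ k.1 = i'.1 from fun h2 => h (h1.symm.trans h2))]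
    simp
  · rw [if_neg h1]
    simp

lemma lpb_row_far (K B : ℕ) (i i' : Fin B × Fin (2 ^ K)) (r : ℕ)
    (hd : (2 : ℝ) ^ (K + 1 - r : ℕ) ≤ |((i.2 : ℕ) : ℝ) - ((i'.2 : ℕ) : ℝ)|) (j j' : Fin K)
    (hj : r ≤ (j : ℕ)) (k : Fin B × Fin K × Fin (2 ^ K + 1)) :
    lpbRow K B i j k * lpbRow K B i' j' k = 0 := by
  unfold lpbRow
  by_cases h1 : k.1 = i.1
  · by_cases h2 : k.2.1 = j
    · by_cases h3 : k.1 = i'.1
      · by_cases h4 : k.2.1 = j'
        · have hjj : j' = j := h4.symm.trans h2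
          subst hjj
          rw [if_pos h1, if_pos h2, if_pos h3, if_pos h4]
          apply lpb_cross
          have hjK := j'.2
          have hn : 2 ^ (K + 1 - r) ≤ ((i.2 : ℕ) - (i'.2 : ℕ)) + ((i'.2 : ℕ) - (i.2 : ℕ)) := by
            have : ((2 ^ (K + 1 - r) : ℕ) : ℝ) ≤
                ((((i.2 : ℕ) - (i'.2 : ℕ)) + ((i'.2 : ℕ) - (i.2 : ℕ)) : ℕ) : ℝ) := by
              push_cast
              refine hd.trans ?_
              rcases le_total (i.2 : ℕ) (i'.2 : ℕ) with h | h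
              · rw [Nat.sub_eq_zero_of_le h]
                push_cast [Nat.cast_sub h]
                rw [abs_sub_comm, abs_of_nonneg (sub_nonneg.mpr (by exact_mod_cast h))]
                simp
              · rw [Nat.sub_eq_zero_of_le h]
                push_cast [Nat.cast_sub h]
                rw [abs_of_nonneg (sub_nonneg.mpr (by exact_mod_cast h))]
                simp
            exact_mod_cast this
          have hpow : 2 * 2 ^ (K - (j' : ℕ)) ≤ 2 ^ (K + 1 - r) := by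
            rw [← pow_succ']
            exact Nat.pow_le_pow_right (by norm_num) (by omega)
          have hm : 0 < 2 ^ (K - (j' : ℕ)) := by positivity
          rcases le_total (i.2 : ℕ) (i'.2 : ℕ) with h | h
          · left
            have : (i.2 : ℕ) + 2 * 2 ^ (K - (j' : ℕ)) ≤ (i'.2 : ℕ) := by omega
            calc (i.2 : ℕ) / 2 ^ (K - (j' : ℕ)) + 2
                = ((i.2 : ℕ) + 2 * 2 ^ (K - (j' : ℕ))) / 2 ^ (K - (j' : ℕ)) := by
                  rw [Nat.add_mul_div_right _ _ hm]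
              _ ≤ _ := Nat.div_le_div_right this
          · right
            have : (i'.2 : ℕ) + 2 * 2 ^ (K - (j' : ℕ)) ≤ (i.2 : ℕ) := by omega
            calc (i'.2 : ℕ) / 2 ^ (K - (j' : ℕ)) + 2
                = ((i'.2 : ℕ) + 2 * 2 ^ (K - (j' : ℕ))) / 2 ^ (K - (j' : ℕ)) := by
                  rw [Nat.add_mul_div_right _ _ hm]
              _ ≤ _ := Nat.div_le_div_right this
        · rw [if_neg h4]; simp
      · rw [if_neg h3]; simp
    · rw [if_neg h2]; simp
  · rw [if_neg h1]; simp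

/-- orthonormal and mutually orthogonal rows: the pair is a product -/
lemma lpb_two (hORT : S_ORT) {κ ι ι' : Type} [Fintype κ] [Fintype ι] [Fintype ι']
    [DecidableEq ι] [DecidableEq ι'] (a : ι → κ → ℝ) (b : ι' → κ → ℝ)
    (ha : ∀ i j, ∑ k, a i k * a j k = if i = j then 1 else 0)
    (hb : ∀ i j, ∑ k, b i k * b j k = if i = j then 1 else 0)
    (hab : ∀ i j, ∑ k, a i k * b j k = 0) :
    MeasurePreserving (fun g : κ → ℝ => ((fun i => ∑ k, a i k * g k), (fun i => ∑ k, b i k * g k)))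
      (Ga κ) ((Ga ι).prod (Ga ι')) := by
  have h1 := hORT κ (ι ⊕ ι') (Sum.elim a b) (by
    rintro (i | i) (j | j)
    · simp [ha]
    · simp [hab]
    · have := hab j i
      simp only [Sum.elim_inl, Sum.elim_inr, reduceCtorEq, if_false]
      rw [← this]
      exact Finset.sum_congr rfl (fun k _ => mul_comm _ _)
    · simp [hb])
  have h2 := measurePreserving_sumPiEquivProdPi (fun _ : ι ⊕ ι' => gaussianReal 0 1)
  have h3 := MeasurePreserving.comp h2 h1
  exact h3

lemma lpb_mp (hORT : S_ORT) (K B : ℕ) (i : Fin B × Fin (2 ^ K)) :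
    MeasurePreserving (inc K B i) (Ga _) (Ga (Fin K)) := by
  have h := hORT (Fin B × Fin K × Fin (2 ^ K + 1)) (Fin K) (lpbRow K B i) (lpb_row_same K B i)
  have e : inc K B i = fun (g : Fin B × Fin K × Fin (2 ^ K + 1) → ℝ) (j : Fin K) =>
      ∑ k, lpbRow K B i j k * g k := by
    funext g j
    exact lpb_inc K B i g j
  rw [e]
  exact h

lemma lpb_field (K B : ℕ) (be : ℝ) (i : Fin B × Fin (2 ^ K))
    (g : Fin B × Fin K × Fin (2 ^ K + 1) → ℝ) :
    ∑ k, mC be K B i k * g k = be * (sv * ps (inc K B i g) K) := by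
  have hsv := lpb_sv_pos
  have e1 : ps (inc K B i g) K = ∑ j : Fin K, inc K B i g j := by
    unfold ps
    exact Finset.sum_congr rfl (fun j _ => if_pos j.2)
  rw [e1, Fintype.sum_prod_type, Finset.sum_eq_single i.1]
  · rw [Fintype.sum_prod_type]
    simp only [mC, if_true, inc]
    rw [Finset.mul_sum, Finset.mul_sum]
    refine Finset.sum_congr rfl (fun j _ => ?_)
    rw [Finset.mul_sum, Finset.mul_sum]
    refine Finset.sum_congr rfl (fun m _ => ?_)
    have : mCn be K i.2 j m = be * (sv * mCn (1 / sv) K i.2 j m) := by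
      unfold mCn
      split_ifs
      · field_simp
      · field_simp
      · simp
      · simp
    rw [this]
    ring
  · intro b _ hb
    simp [mC, hb]
  · intro h
    exact absurd (Finset.mem_univ _) h

lemma lpb_split {K r : ℕ} (hr : r ≤ K) (F : Fin K → ℝ) :
    ∑ i, F i = (∑ i : Fin r, F ⟨i, by omega⟩) + ∑ i : Fin (K - r), F ⟨r + i, by omega⟩ := by
  have h : r + (K - r) = K := by omega
  rw [← Fintype.sum_equiv (finCongr h) (fun x => F (finCongr h x)) F (fun _ => rfl)]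
  rw [Fin.sum_univ_add]
  rfl

lemma lpb_ps_low {K r : ℕ} (hr : r ≤ K) (g : Fin K → ℝ) (u : Fin r → ℝ)
    (hu : ∀ i : Fin r, g ⟨i, by omega⟩ = u i) (j : ℕ) (hj : j ≤ r) : ps g j = ps u j := by
  unfold ps
  rw [lpb_split hr]
  have : ∑ i : Fin (K - r), (if (((⟨r + i, by omega⟩ : Fin K)) : ℕ) < j then
      g ⟨r + i, by omega⟩ else 0) = 0 := by
    refine Finset.sum_eq_zero (fun i _ => if_neg ?_)
    simp only
    omega
  rw [this, add_zero]
  refine Finset.sum_congr rfl (fun i _ => ?_)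
  rw [hu i]

lemma lpb_ps_high {K r : ℕ} (hr : r ≤ K) (g : Fin K → ℝ) (u : Fin r → ℝ) (v : Fin (K - r) → ℝ)
    (hu : ∀ i : Fin r, g ⟨i, by omega⟩ = u i) (hv : ∀ i : Fin (K - r), g ⟨r + i, by omega⟩ = v i)
    (j : ℕ) : ps g (r + j) = ps u r + ps v j := by
  unfold ps
  rw [lpb_split hr]
  congr 1
  · refine Finset.sum_congr rfl (fun i _ => ?_)
    rw [if_pos (show (((⟨i, by omega⟩ : Fin K)) : ℕ) < r + j by simp only; omega), if_pos i.2,
      hu i]
  · refine Finset.sum_congr rfl (fun i _ => ?_)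
    by_cases h : (i : ℕ) < j
    · rw [if_pos (show (((⟨r + i, by omega⟩ : Fin K)) : ℕ) < r + j by simp only; omega),
        if_pos h, hv i]
    · rw [if_neg (show ¬ (((⟨r + i, by omega⟩ : Fin K)) : ℕ) < r + j by simp only; omega),
        if_neg h]

/-- barrier condition up to level r -/
def lpbStay (K r : ℕ) (x : ℝ) : Set (Fin r → ℝ) :=
  {g : Fin r → ℝ | ∀ j : ℕ, 1 ≤ j → j ≤ r →
      sv * ps g j ≤ Real.sqrt 2 * vv * j + x + 2 - (j : ℝ) / K * psi K K}

/-- the set in the definition of qk -/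
def lpbT (K r : ℕ) (x s : ℝ) : Set (Fin (K - r) → ℝ) :=
  {g | (∀ j : ℕ, 1 ≤ j → j ≤ K - r →
      s + sv * ps g j ≤ Real.sqrt 2 * vv * (r + j : ℝ) + x + 2 - ((r : ℝ) + j) / K * psi K K) ∧
    Real.sqrt 2 * vv * K + x - psi K K ≤ s + sv * ps g (K - r) ∧
    s + sv * ps g (K - r) ≤ Real.sqrt 2 * vv * K + x - psi K K + 1}

lemma lpb_Ek {K r : ℕ} (hr : r ≤ K) (x : ℝ) (g : Fin K → ℝ) (u : Fin r → ℝ) (v : Fin (K - r) → ℝ)
    (hu : ∀ i : Fin r, g ⟨i, by omega⟩ = u i) (hv : ∀ i : Fin (K - r), g ⟨r + i, by omega⟩ = v i)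
    (hg : g ∈ Ek K x) : u ∈ lpbStay K r x ∧ v ∈ lpbT K r x (sv * ps u r) := by
  obtain ⟨h1, h2, h3⟩ := hg
  have hK : ps g K = ps u r + ps v (K - r) := by
    have := lpb_ps_high hr g u v hu hv (K - r)
    rwa [show r + (K - r) = K by omega] at this
  refine ⟨fun j hj1 hj2 => ?_, fun j hj1 hj2 => ?_, ?_, ?_⟩
  · rw [← lpb_ps_low hr g u hu j hj2]
    exact h1 j hj1 (by omega)
  · have := h1 (r + j) (by omega) (by omega)
    rw [lpb_ps_high hr g u v hu hv j] at this
    push_cast at this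
    linarith
  · rw [hK] at h2
    linarith
  · rw [hK] at h3
    linarith

lemma lpb_ps_meas {n : ℕ} (j : ℕ) : Measurable (fun g : Fin n → ℝ => ps g j) := by
  unfold ps
  refine Finset.measurable_sum _ (fun i _ => ?_)
  by_cases h : (i : ℕ) < j
  · simp only [h, if_true]
    exact measurable_pi_apply i
  · simp only [h, if_false]
    exact measurable_const

lemma lpb_stay_meas (K r : ℕ) (x : ℝ) : MeasurableSet (lpbStay K r x) := by
  unfold lpbStay
  simp only [Set.ofPred_forall]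
  refine MeasurableSet.iInter (fun j => MeasurableSet.iInter (fun _ => MeasurableSet.iInter
    (fun _ => ?_)))
  exact measurableSet_le ((lpb_ps_meas j).const_mul _) measurable_const

lemma lpb_T_meas (K r : ℕ) (x : ℝ) :
    MeasurableSet {p : ℝ × (Fin (K - r) → ℝ) | p.2 ∈ lpbT K r x p.1} := by
  have e : {p : ℝ × (Fin (K - r) → ℝ) | p.2 ∈ lpbT K r x p.1} =
      (⋂ j : ℕ, ⋂ (_ : 1 ≤ j), ⋂ (_ : j ≤ K - r), {p : ℝ × (Fin (K - r) → ℝ) |
        p.1 + sv * ps p.2 j ≤ Real.sqrt 2 * vv * (r + j : ℝ) + x + 2 -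
          ((r : ℝ) + j) / K * psi K K}) ∩
      ({p : ℝ × (Fin (K - r) → ℝ) | Real.sqrt 2 * vv * K + x - psi K K ≤
          p.1 + sv * ps p.2 (K - r)} ∩
       {p : ℝ × (Fin (K - r) → ℝ) | p.1 + sv * ps p.2 (K - r) ≤
          Real.sqrt 2 * vv * K + x - psi K K + 1}) := by
    ext p
    simp only [lpbT, Set.mem_ofPred_eq, Set.mem_inter_iff, Set.mem_iInter]
  have hm : ∀ j : ℕ, Measurable (fun p : ℝ × (Fin (K - r) → ℝ) => p.1 + sv * ps p.2 j) :=
    fun j => measurable_fst.add (((lpb_ps_meas j).comp measurable_snd).const_mul _)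
  rw [e]
  refine MeasurableSet.inter ?_ (MeasurableSet.inter ?_ ?_)
  · refine MeasurableSet.iInter (fun j => MeasurableSet.iInter (fun _ => MeasurableSet.iInter
      (fun _ => ?_)))
    exact measurableSet_le (hm j) measurable_const
  · exact measurableSet_le measurable_const (hm _)
  · exact measurableSet_le (hm _) measurable_const

lemma lpb_qk_eq (K r : ℕ) (x s : ℝ) : qk K r x s = (Ga (Fin (K - r))).real (lpbT K r x s) := rfl

lemma lpb_T_meas' (K r : ℕ) (x s : ℝ) : MeasurableSet (lpbT K r x s) :=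
  measurable_prodMk_left (lpb_T_meas K r x)

lemma lpb_qk_meas (K r : ℕ) (x : ℝ) : Measurable (qk K r x) := by
  have h := measurable_measure_prodMk_left (ν := Ga (Fin (K - r))) (lpb_T_meas K r x)
  have e : qk K r x = fun s => ((Ga (Fin (K - r))) (Prod.mk s ⁻¹'
      {p : ℝ × (Fin (K - r) → ℝ) | p.2 ∈ lpbT K r x p.1})).toReal := by
    funext s
    rfl
  rw [e]
  exact h.ennreal_toReal

lemma lpb_Ek_meas (K : ℕ) (x : ℝ) : MeasurableSet (Ek K x) := by
  have e : Ek K x = lpbStay K K x ∩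
      ({g : Fin K → ℝ | Real.sqrt 2 * vv * K + x - psi K K ≤ sv * ps g K} ∩
       {g : Fin K → ℝ | sv * ps g K ≤ Real.sqrt 2 * vv * K + x - psi K K + 1}) := rfl
  rw [e]
  exact (lpb_stay_meas K K x).inter
    ((measurableSet_le measurable_const ((lpb_ps_meas K).const_mul _)).inter
      (measurableSet_le ((lpb_ps_meas K).const_mul _) measurable_const))

lemma lpb_sub_pos {κ : Type} [Fintype κ] (p : κ → Prop) [DecidablePred p] (F : κ → ℝ)
    (h : ∀ k, ¬ p k → F k = 0) : ∑ k : {k // p k}, F k = ∑ k, F k := by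
  rw [← Fintype.sum_subtype_add_sum_subtype p F,
    Finset.sum_eq_zero (fun (k : {k // ¬ p k}) _ => h k k.2), add_zero]

lemma lpb_sub_neg {κ : Type} [Fintype κ] (p : κ → Prop) [DecidablePred p] (F : κ → ℝ)
    (h : ∀ k, p k → F k = 0) : ∑ k : {k // ¬ p k}, F k = ∑ k, F k := by
  rw [← Fintype.sum_subtype_add_sum_subtype p F,
    Finset.sum_eq_zero (fun (k : {k // p k}) _ => h k k.2), zero_add]

lemma lpb_row_ne {K B : ℕ} (i : Fin B × Fin (2 ^ K)) (j : Fin K)
    (k : Fin B × Fin K × Fin (2 ^ K + 1)) (h : k.2.1 ≠ j) : lpbRow K B i j k = 0 := by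
  unfold lpbRow
  simp [h]

/-- the functional integrated in Qk -/
noncomputable def lpbA (K r : ℕ) (x : ℝ) (u : Fin r → ℝ) : ℝ :=
  Set.indicator (lpbStay K r x) (fun g => qk K r x (sv * ps g r)) u

lemma lpb_A_meas (K r : ℕ) (x : ℝ) : Measurable (lpbA K r x) := by
  unfold lpbA
  exact Measurable.indicator ((lpb_qk_meas K r x).comp ((lpb_ps_meas r).const_mul _))
    (lpb_stay_meas K r x)

lemma lpb_A_nonneg (K r : ℕ) (x : ℝ) (u : Fin r → ℝ) : 0 ≤ lpbA K r x u := by
  unfold lpbA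
  exact Set.indicator_nonneg (fun g _ => by rw [lpb_qk_eq]; exact measureReal_nonneg) u

lemma lpb_A_le (K r : ℕ) (x : ℝ) (u : Fin r → ℝ) : lpbA K r x u ≤ 1 := by
  unfold lpbA
  by_cases h : u ∈ lpbStay K r x
  · rw [Set.indicator_of_mem h, lpb_qk_eq]
    exact measureReal_le_one
  · rw [Set.indicator_of_notMem h]
    exact zero_le_one

lemma lpb_Qk_eq (K r : ℕ) (x : ℝ) : Qk K r x = ∫ u, lpbA K r x u ^ 2 ∂Ga (Fin r) := by
  unfold Qk
  refine integral_congr_ae (Filter.Eventually.of_forall (fun u => ?_))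
  show Set.indicator (lpbStay K r x) (fun g => (qk K r x (sv * ps g r)) ^ 2) u = lpbA K r x u ^ 2
  unfold lpbA
  by_cases h : u ∈ lpbStay K r x
  · rw [Set.indicator_of_mem h, Set.indicator_of_mem h]
  · rw [Set.indicator_of_notMem h, Set.indicator_of_notMem h]
    norm_num

lemma lpb_A_int {Ω : Type} [MeasurableSpace Ω] (μ : Measure Ω) [IsProbabilityMeasure μ]
    (K r : ℕ) (x : ℝ) (U : Ω → Fin r → ℝ) (hU : Measurable U) :
    Integrable (fun ω => lpbA K r x (U ω) ^ 2) μ := by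
  refine Integrable.of_bound (((lpb_A_meas K r x).comp hU).pow_const 2).aestronglyMeasurable 1
    (Filter.Eventually.of_forall (fun ω => ?_))
  rw [Real.norm_eq_abs, abs_of_nonneg (sq_nonneg _)]
  exact pow_le_one₀ (lpb_A_nonneg _ _ _ _) (lpb_A_le _ _ _ _)

lemma lpb_pair (hORT : S_ORT) (K B : ℕ) (i i' : Fin B × Fin (2 ^ K)) (x x' : ℝ) (r : ℕ)
    (hr : r ≤ K) (hd : (2 : ℝ) ^ (K + 1 - r : ℕ) ≤ |((i.2 : ℕ) : ℝ) - ((i'.2 : ℕ) : ℝ)|) :
    (Ga _).real (inc K B i ⁻¹' Ek K x ∩ inc K B i' ⁻¹' Ek K x') ≤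
      (Qk K r x + Qk K r x') / 2 := by
  classical
  let p : (Fin B × Fin K × Fin (2 ^ K + 1)) → Prop := fun k => (k.2.1 : ℕ) < r
  let aL : (Fin B × Fin (2 ^ K)) → Fin r → {k // p k} → ℝ :=
    fun i j k => lpbRow K B i ⟨j, by omega⟩ k
  let aH : (Fin B × Fin (2 ^ K)) → Fin (K - r) → {k // ¬ p k} → ℝ :=
    fun i j k => lpbRow K B i ⟨r + j, by omega⟩ k
  have hpL : ∀ (i : Fin B × Fin (2 ^ K)) (j : Fin r) (k : Fin B × Fin K × Fin (2 ^ K + 1)),
      ¬ p k → lpbRow K B i ⟨j, by omega⟩ k = 0 := by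
    intro i j k hk
    refine lpb_row_ne i _ k (fun h => hk ?_)
    show (k.2.1 : ℕ) < r
    rw [h]
    exact j.2
  have hpH : ∀ (i : Fin B × Fin (2 ^ K)) (j : Fin (K - r)) (k : Fin B × Fin K × Fin (2 ^ K + 1)),
      p k → lpbRow K B i ⟨r + j, by omega⟩ k = 0 := by
    intro i j k hk
    refine lpb_row_ne i _ k (fun h => ?_)
    have hk' : (k.2.1 : ℕ) < r := hk
    rw [h] at hk'
    simp only at hk'
    omega
  let U : (Fin B × Fin (2 ^ K)) → ({k // p k} → ℝ) → Fin r → ℝ :=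
    fun i l j => ∑ k, aL i j k * l k
  let V : (Fin B × Fin (2 ^ K)) → ({k // ¬ p k} → ℝ) → Fin (K - r) → ℝ :=
    fun i l j => ∑ k, aH i j k * l k
  have hUmp : ∀ i, MeasurePreserving (U i) (Ga {k // p k}) (Ga (Fin r)) := by
    intro i
    refine hORT _ _ (aL i) (fun j j' => ?_)
    show ∑ k : {k // p k}, lpbRow K B i ⟨j, by omega⟩ k * lpbRow K B i ⟨j', by omega⟩ k = _
    rw [lpb_sub_pos p (fun k => lpbRow K B i ⟨j, by omega⟩ k * lpbRow K B i ⟨j', by omega⟩ k)
      (fun k hk => by simp only [hpL i j k hk, zero_mul]), lpb_row_same]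
    simp [Fin.ext_iff]
  have hVo : ∀ i (j j' : Fin (K - r)), ∑ k, aH i j k * aH i j' k = if j = j' then 1 else 0 := by
    intro i j j'
    show ∑ k : {k // ¬ p k}, lpbRow K B i ⟨r + j, by omega⟩ k *
      lpbRow K B i ⟨r + j', by omega⟩ k = _
    rw [lpb_sub_neg p (fun k => lpbRow K B i ⟨r + j, by omega⟩ k *
      lpbRow K B i ⟨r + j', by omega⟩ k)
      (fun k hk => by simp only [hpH i j k hk, zero_mul]), lpb_row_same]
    simp [Fin.ext_iff]
  have hV : MeasurePreserving (fun h => (V i h, V i' h)) (Ga {k // ¬ p k})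
      ((Ga (Fin (K - r))).prod (Ga (Fin (K - r)))) := by
    refine lpb_two hORT (aH i) (aH i') (hVo i) (hVo i') (fun j j' => ?_)
    refine Finset.sum_eq_zero (fun k _ => ?_)
    exact lpb_row_far K B i i' r hd _ _ (by simp) _
  have he := measurePreserving_piEquivPiSubtypeProd
    (fun _ : (Fin B × Fin K × Fin (2 ^ K + 1)) => gaussianReal 0 1) p
  let e := MeasurableEquiv.piEquivPiSubtypeProd (fun _ : (Fin B × Fin K × Fin (2 ^ K + 1)) => ℝ) p
  have he' : MeasurePreserving e (Ga _) ((Ga {k // p k}).prod (Ga {k // ¬ p k})) := he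
  have hlow : ∀ (i : Fin B × Fin (2 ^ K)) (g : Fin B × Fin K × Fin (2 ^ K + 1) → ℝ) (j : Fin r),
      inc K B i g ⟨j, by omega⟩ = U i (e g).1 j := by
    intro i g j
    rw [lpb_inc]
    show _ = ∑ k : {k // p k}, lpbRow K B i ⟨j, by omega⟩ k * g k
    rw [lpb_sub_pos p (fun k => lpbRow K B i ⟨j, by omega⟩ k * g k)
      (fun k hk => by simp only [hpL i j k hk, zero_mul])]
  have hhigh : ∀ (i : Fin B × Fin (2 ^ K)) (g : Fin B × Fin K × Fin (2 ^ K + 1) → ℝ)
      (j : Fin (K - r)), inc K B i g ⟨r + j, by omega⟩ = V i (e g).2 j := by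
    intro i g j
    rw [lpb_inc]
    show _ = ∑ k : {k // ¬ p k}, lpbRow K B i ⟨r + j, by omega⟩ k * g k
    rw [lpb_sub_neg p (fun k => lpbRow K B i ⟨r + j, by omega⟩ k * g k)
      (fun k hk => by simp only [hpH i j k hk, zero_mul])]
  let W : (Fin B × Fin (2 ^ K)) → ℝ → Set (({k // p k} → ℝ) × ({k // ¬ p k} → ℝ)) :=
    fun i x => {q | U i q.1 ∈ lpbStay K r x ∧ V i q.2 ∈ lpbT K r x (sv * ps (U i q.1) r)}
  have hVm : ∀ i, Measurable (V i) := by
    intro i
    refine measurable_pi_lambda _ (fun j => ?_)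
    exact Finset.measurable_sum _ (fun k _ => (measurable_pi_apply k).const_mul _)
  have hWm : ∀ i x, MeasurableSet (W i x) := by
    intro i x
    refine MeasurableSet.inter
      (s₁ := {q : ({k // p k} → ℝ) × ({k // ¬ p k} → ℝ) | U i q.1 ∈ lpbStay K r x})
      (s₂ := {q : ({k // p k} → ℝ) × ({k // ¬ p k} → ℝ) |
        V i q.2 ∈ lpbT K r x (sv * ps (U i q.1) r)}) ?_ ?_
    · exact ((hUmp i).measurable.comp measurable_fst) (lpb_stay_meas K r x)
    · have hm : Measurable (fun q : ({k // p k} → ℝ) × ({k // ¬ p k} → ℝ) =>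
          (sv * ps (U i q.1) r, V i q.2)) :=
        ((((lpb_ps_meas r).comp ((hUmp i).measurable.comp measurable_fst)).const_mul _)).prodMk
          ((hVm i).comp measurable_snd)
      exact hm (lpb_T_meas K r x)
  have hsub : inc K B i ⁻¹' Ek K x ∩ inc K B i' ⁻¹' Ek K x' ⊆ e ⁻¹' (W i x ∩ W i' x') := by
    rintro g ⟨h1, h2⟩
    exact ⟨lpb_Ek hr x _ (U i (e g).1) (V i (e g).2) (hlow i g) (hhigh i g) h1,
      lpb_Ek hr x' _ (U i' (e g).1) (V i' (e g).2) (hlow i' g) (hhigh i' g) h2⟩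
  have hkey : ∀ l : {k // p k} → ℝ, (Ga {k // ¬ p k}) (Prod.mk l ⁻¹' (W i x ∩ W i' x')) ≤
      ENNReal.ofReal ((lpbA K r x (U i l) ^ 2 + lpbA K r x' (U i' l) ^ 2) / 2) := by
    intro l
    by_cases h1 : U i l ∈ lpbStay K r x ∧ U i' l ∈ lpbStay K r x'
    · have hset : Prod.mk l ⁻¹' (W i x ∩ W i' x') = (fun h => (V i h, V i' h)) ⁻¹'
          (lpbT K r x (sv * ps (U i l) r) ×ˢ lpbT K r x' (sv * ps (U i' l) r)) := by
        ext h
        constructor
        · rintro ⟨⟨-, h3⟩, ⟨-, h4⟩⟩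
          exact ⟨h3, h4⟩
        · rintro ⟨h3, h4⟩
          exact ⟨⟨h1.1, h3⟩, ⟨h1.2, h4⟩⟩
      rw [hset, hV.measure_preimage (((lpb_T_meas' K r x _).prod
        (lpb_T_meas' K r x' _)).nullMeasurableSet), Measure.prod_prod]
      have e1 : lpbA K r x (U i l) = qk K r x (sv * ps (U i l) r) := by
        unfold lpbA
        rw [Set.indicator_of_mem h1.1]
      have e2 : lpbA K r x' (U i' l) = qk K r x' (sv * ps (U i' l) r) := by
        unfold lpbA
        rw [Set.indicator_of_mem h1.2]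
      rw [e1, e2]
      have f1 : (Ga (Fin (K - r))) (lpbT K r x (sv * ps (U i l) r)) =
          ENNReal.ofReal (qk K r x (sv * ps (U i l) r)) := by
        rw [lpb_qk_eq, ofReal_measureReal]
      have f2 : (Ga (Fin (K - r))) (lpbT K r x' (sv * ps (U i' l) r)) =
          ENNReal.ofReal (qk K r x' (sv * ps (U i' l) r)) := by
        rw [lpb_qk_eq, ofReal_measureReal]
      rw [f1, f2, ← ENNReal.ofReal_mul (by rw [lpb_qk_eq]; exact measureReal_nonneg)]
      refine ENNReal.ofReal_le_ofReal ?_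
      nlinarith [sq_nonneg (qk K r x (sv * ps (U i l) r) - qk K r x' (sv * ps (U i' l) r))]
    · have hset : Prod.mk l ⁻¹' (W i x ∩ W i' x') = ∅ := by
        ext h
        simp only [Set.mem_empty_iff_false, iff_false]
        rintro ⟨⟨h3, -⟩, ⟨h4, -⟩⟩
        exact h1 ⟨h3, h4⟩
      rw [hset, measure_empty]
      exact zero_le
  have hint : ∀ (i : Fin B × Fin (2 ^ K)) (x : ℝ),
      ∫ l, lpbA K r x (U i l) ^ 2 ∂Ga {k // p k} = Qk K r x := by
    intro i x
    rw [lpb_Qk_eq, ← (hUmp i).map_eq, integral_map (hUmp i).measurable.aemeasurable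
      ((lpb_A_meas K r x).pow_const 2).aestronglyMeasurable]
  have hI1 := lpb_A_int (Ga {k // p k}) K r x (U i) (hUmp i).measurable
  have hI2 := lpb_A_int (Ga {k // p k}) K r x' (U i') (hUmp i').measurable
  have hfin : (Ga _) (inc K B i ⁻¹' Ek K x ∩ inc K B i' ⁻¹' Ek K x') ≤
      ENNReal.ofReal ((Qk K r x + Qk K r x') / 2) := by
    calc (Ga _) (inc K B i ⁻¹' Ek K x ∩ inc K B i' ⁻¹' Ek K x')
        ≤ (Ga _) (e ⁻¹' (W i x ∩ W i' x')) := measure_mono hsub
      _ = ((Ga {k // p k}).prod (Ga {k // ¬ p k})) (W i x ∩ W i' x') :=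
          he'.measure_preimage ((hWm i x).inter (hWm i' x')).nullMeasurableSet
      _ = ∫⁻ l, (Ga {k // ¬ p k}) (Prod.mk l ⁻¹' (W i x ∩ W i' x')) ∂Ga {k // p k} :=
          Measure.prod_apply ((hWm i x).inter (hWm i' x'))
      _ ≤ ∫⁻ l, ENNReal.ofReal ((lpbA K r x (U i l) ^ 2 + lpbA K r x' (U i' l) ^ 2) / 2)
            ∂Ga {k // p k} := lintegral_mono hkey
      _ = ENNReal.ofReal (∫ l, (lpbA K r x (U i l) ^ 2 + lpbA K r x' (U i' l) ^ 2) / 2
            ∂Ga {k // p k}) := by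
          have hI : Integrable (fun l => (lpbA K r x (U i l) ^ 2 + lpbA K r x' (U i' l) ^ 2) / 2)
              (Ga {k // p k}) := (hI1.add hI2).div_const 2
          rw [ofReal_integral_eq_lintegral_ofReal hI
            (Filter.Eventually.of_forall (fun l => by positivity))]
      _ = ENNReal.ofReal ((Qk K r x + Qk K r x') / 2) := by
          rw [integral_div, integral_add hI1 hI2, hint, hint]
  unfold Measure.real
  have hQ : 0 ≤ (Qk K r x + Qk K r x') / 2 := by
    have := fun x => (show 0 ≤ Qk K r x by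
      rw [lpb_Qk_eq]
      exact integral_nonneg (fun u => sq_nonneg _))
    linarith [this x, this x']
  exact ENNReal.toReal_le_of_le_ofReal hQ hfin

theorem LPB (hORT : S_ORT) : S_LPB := by
  intro K B _
  refine ⟨fun i => lpb_mp hORT K B i, fun be i g => lpb_field K B be i g, ?_, ?_⟩
  · intro i i' x x' hii _ _
    have h := lpb_two hORT (lpbRow K B i) (lpbRow K B i') (lpb_row_same K B i)
      (lpb_row_same K B i') (fun j j' => Finset.sum_eq_zero (fun k _ =>
        lpb_row_block K B i i' hii j j' k))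
    have e : (inc K B i ⁻¹' Ek K x ∩ inc K B i' ⁻¹' Ek K x') =
        (fun g : Fin B × Fin K × Fin (2 ^ K + 1) → ℝ => ((fun j => ∑ k, lpbRow K B i j k * g k),
          (fun j => ∑ k, lpbRow K B i' j k * g k))) ⁻¹' (Ek K x ×ˢ Ek K x') := by
      ext g
      have e1 : inc K B i g = fun j => ∑ k, lpbRow K B i j k * g k :=
        funext (fun j => lpb_inc K B i g j)
      have e2 : inc K B i' g = fun j => ∑ k, lpbRow K B i' j k * g k :=
        funext (fun j => lpb_inc K B i' g j)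
      simp only [Set.mem_inter_iff, Set.mem_preimage, Set.mem_prod, e1, e2]
    rw [e]
    unfold Measure.real
    rw [h.measure_preimage (((lpb_Ek_meas K x).prod (lpb_Ek_meas K x')).nullMeasurableSet),
      Measure.prod_prod, ENNReal.toReal_mul]
  · intro i i' x x' r _ _ _ _ hr hd
    exact lpb_pair hORT K B i i' x x' r hr hd

end PN
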