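import Pool.Agent.H24.PN.Stmts

/-! Project PM, part 2, module LT: lower bound for the soft tail of the cosine window field. -/

namespace PN
open MeasureTheory Complex ProbabilityTheory PM

theorem lt_ps_meas {n : ℕ} (j : ℕ) : Measurable (fun g : Fin n → ℝ => ps g j) := by
  unfold ps
  apply Finset.measurable_sum
  intro i _
  by_cases hi : (i : ℕ) < j
  · simp only [if_pos hi]
    exact measurable_pi_apply i
  · simp only [if_neg hi]
    exact measurable_const

theorem lt_meas_Ek (K : ℕ) (x : ℝ) : MeasurableSet (Ek K x) := by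
  have hA : MeasurableSet {g : Fin K → ℝ | ∀ j : ℕ, 1 ≤ j → j ≤ K →
      sv * ps g j ≤ Real.sqrt 2 * vv * j + x + 2 - (j : ℝ) / K * psi K K} := by
    simp only [Set.ofPred_forall]
    refine MeasurableSet.iInter fun j => MeasurableSet.iInter fun _ => MeasurableSet.iInter fun _ => ?_
    exact measurableSet_le ((lt_ps_meas j).const_mul _) measurable_const
  have hB : MeasurableSet {g : Fin K → ℝ |
      Real.sqrt 2 * vv * K + x - psi K K ≤ sv * ps g K} :=
    measurableSet_le measurable_const ((lt_ps_meas K).const_mul _)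
  have hC : MeasurableSet {g : Fin K → ℝ |
      sv * ps g K ≤ Real.sqrt 2 * vv * K + x - psi K K + 1} :=
    measurableSet_le ((lt_ps_meas K).const_mul _) measurable_const
  exact hA.inter (hB.inter hC)

/-- number of leaves of the same block at distance less than m -/
theorem lt_cnt (K B : ℕ) (i : Fin B × Fin (2 ^ K)) (m : ℕ) :
    (Finset.univ.filter (fun i' : Fin B × Fin (2 ^ K) => i'.1 = i.1 ∧
      (i.2 : ℕ) < i'.2 + m ∧ (i'.2 : ℕ) < i.2 + m)).card ≤ 2 * m := by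
  calc _ ≤ (Finset.range (2 * m)).card := by
        apply Finset.card_le_card_of_injOn (fun i' => (i'.2 : ℕ) + m - i.2)
        · intro i' hi'
          rw [Finset.mem_coe, Finset.mem_filter] at hi'
          rw [Finset.mem_coe, Finset.mem_range]
          show (i'.2 : ℕ) + m - i.2 < 2 * m
          omega
        · intro a ha b hb hab
          rw [Finset.mem_coe, Finset.mem_filter] at ha hb
          simp only at hab
          have h2 : (a.2 : ℕ) = b.2 := by omega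
          exact Prod.ext (ha.2.1.trans hb.2.1.symm) (Fin.ext h2)
    _ = 2 * m := Finset.card_range _

/-- second moment method -/
theorem lt_cs {Ω : Type} [MeasurableSpace Ω] (Q : Measure Ω) [IsProbabilityMeasure Q] {ι : Type}
    (L : Finset ι) (A : ι → Set Ω) (hA : ∀ i, MeasurableSet (A i)) (S : ℝ) (hS : 0 < S)
    (h2 : ∑ i ∈ L, ∑ i' ∈ L, Q.real (A i ∩ A i') ≤ S) :
    (∑ i ∈ L, Q.real (A i)) ^ 2 / S ≤ Q.real (⋃ i ∈ L, A i) := by
  set m := ∑ i ∈ L, Q.real (A i) with hm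
  have hm0 : 0 ≤ m := Finset.sum_nonneg (fun i _ => measureReal_nonneg)
  rcases eq_or_lt_of_le hm0 with h0 | h0
  · rw [← h0]
    simp only [ne_eq, OfNat.ofNat_ne_zero, not_false_eq_true, zero_pow, zero_div]
    exact measureReal_nonneg
  set U : Set Ω := ⋃ i ∈ L, A i with hU
  have hUm : MeasurableSet U := Finset.measurableSet_biUnion _ (fun i _ => hA i)
  set N : Ω → ℝ := fun ω => ∑ i ∈ L, Set.indicator (A i) (fun _ => (1 : ℝ)) ω with hN
  have hN2 : ∀ ω, N ω ^ 2 = ∑ i ∈ L, ∑ i' ∈ L,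
      Set.indicator (A i ∩ A i') (fun _ => (1 : ℝ)) ω := by
    intro ω
    rw [sq, hN, Finset.sum_mul_sum]
    apply Finset.sum_congr rfl
    intro i _
    apply Finset.sum_congr rfl
    intro i' _
    by_cases h1 : ω ∈ A i
    · by_cases h3 : ω ∈ A i'
      · rw [Set.indicator_of_mem h1, Set.indicator_of_mem h3,
          Set.indicator_of_mem (show ω ∈ A i ∩ A i' from ⟨h1, h3⟩), mul_one]
      · rw [Set.indicator_of_notMem h3, Set.indicator_of_notMem
          (show ω ∉ A i ∩ A i' from fun h => h3 h.2), mul_zero]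
    · rw [Set.indicator_of_notMem h1, Set.indicator_of_notMem
        (show ω ∉ A i ∩ A i' from fun h => h1 h.1), zero_mul]
  have hind : ∀ s : Set Ω, MeasurableSet s →
      Integrable (Set.indicator s (fun _ => (1 : ℝ))) Q := by
    intro s hs
    exact (integrable_const (1 : ℝ)).indicator hs
  have hint : ∀ s : Set Ω, MeasurableSet s →
      ∫ ω, Set.indicator s (fun _ => (1 : ℝ)) ω ∂Q = Q.real s := by
    intro s hs
    rw [integral_indicator_const _ hs, smul_eq_mul, mul_one]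
  have hNi : Integrable N Q := integrable_finsetSum _ (fun i _ => hind _ (hA i))
  have hNv : ∫ ω, N ω ∂Q = m := by
    rw [hN, integral_finsetSum _ (fun i _ => hind _ (hA i))]
    exact Finset.sum_congr rfl (fun i _ => hint _ (hA i))
  have hN2i : Integrable (fun ω => N ω ^ 2) Q := by
    have h : (fun ω => N ω ^ 2) = fun ω => ∑ i ∈ L, ∑ i' ∈ L,
      Set.indicator (A i ∩ A i') (fun _ => (1 : ℝ)) ω := funext hN2
    rw [h]
    exact integrable_finsetSum _ (fun i _ => integrable_finsetSum _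
      (fun i' _ => hind _ ((hA i).inter (hA i'))))
  have hN2v : ∫ ω, N ω ^ 2 ∂Q ≤ S := by
    have h : (fun ω => N ω ^ 2) = fun ω => ∑ i ∈ L, ∑ i' ∈ L,
      Set.indicator (A i ∩ A i') (fun _ => (1 : ℝ)) ω := funext hN2
    rw [h, integral_finsetSum _ (fun i _ => integrable_finsetSum _
      (fun i' _ => hind _ ((hA i).inter (hA i'))))]
    refine le_trans (le_of_eq ?_) h2
    apply Finset.sum_congr rfl
    intro i _
    rw [integral_finsetSum _ (fun i' _ => hind _ ((hA i).inter (hA i')))]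
    exact Finset.sum_congr rfl (fun i' _ => hint _ ((hA i).inter (hA i')))
  set t : ℝ := S / m with ht
  have htpos : 0 < t := div_pos hS h0
  have hpt : ∀ ω, N ω ≤ (2 * t)⁻¹ * N ω ^ 2 +
      t / 2 * Set.indicator U (fun _ => (1 : ℝ)) ω := by
    intro ω
    by_cases hω : ω ∈ U
    · rw [Set.indicator_of_mem hω, mul_one]
      have h3 : 0 ≤ (2 * t)⁻¹ * (N ω - t) ^ 2 := by positivity
      have h4 : (2 * t)⁻¹ * (N ω - t) ^ 2 = (2 * t)⁻¹ * N ω ^ 2 + t / 2 - N ω := by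
        field_simp
        ring
      linarith
    · have hz : N ω = 0 := by
        rw [hN]
        apply Finset.sum_eq_zero
        intro i hi
        apply Set.indicator_of_notMem
        intro h
        apply hω
        rw [hU]
        exact Set.mem_biUnion hi h
      rw [Set.indicator_of_notMem hω, hz]
      simp
  have hmain : m ≤ (2 * t)⁻¹ * S + t / 2 * Q.real U := by
    calc m = ∫ ω, N ω ∂Q := hNv.symm
      _ ≤ ∫ ω, ((2 * t)⁻¹ * N ω ^ 2 + t / 2 * Set.indicator U (fun _ => (1 : ℝ)) ω) ∂Q := by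
          apply integral_mono hNi ((hN2i.const_mul _).add ((hind U hUm).const_mul _))
          intro ω
          exact hpt ω
      _ = (2 * t)⁻¹ * ∫ ω, N ω ^ 2 ∂Q + t / 2 * Q.real U := by
          rw [integral_add (hN2i.const_mul _) ((hind U hUm).const_mul _), integral_const_mul,
            integral_const_mul, hint U hUm]
      _ ≤ (2 * t)⁻¹ * S + t / 2 * Q.real U := by
          have : (2 * t)⁻¹ * ∫ ω, N ω ^ 2 ∂Q ≤ (2 * t)⁻¹ * S :=
            mul_le_mul_of_nonneg_left hN2v (by positivity)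
          linarith
  have e1 : (2 * t)⁻¹ * S = m / 2 := by
    rw [ht]
    field_simp
  rw [e1] at hmain
  have e2 : m / 2 ≤ S / m / 2 * Q.real U := by
    rw [ht] at hmain
    linarith
  rw [div_le_iff₀ hS]
  have e3 : m / 2 * (2 * m) ≤ S / m / 2 * Q.real U * (2 * m) :=
    mul_le_mul_of_nonneg_right e2 (by positivity)
  have e4 : S / m / 2 * Q.real U * (2 * m) = Q.real U * S := by
    field_simp
  rw [e4] at e3
  nlinarith

theorem lt_low (hLPB : S_LPB) (be : ℝ) (hbe : 0 < be) (K B : ℕ) (hK : 1 ≤ K)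
    (p : Fin B × Fin (2 ^ K) → ℝ) (lam : ℝ) (L : Finset (Fin B × Fin (2 ^ K)))
    (x : Fin B × Fin (2 ^ K) → ℝ) (hp : ∀ i, 0 ≤ p i) (hlam : 0 < lam)
    (hL : ∀ i ∈ L, 0 ≤ x i ∧ x i ≤ Real.sqrt K ∧ lam ≤ p i * (typ be K * Real.exp (be * x i))) :
    1 / 2 * (Ga (Fin B × Fin K × Fin (2 ^ K + 1))).real
      (⋃ i ∈ L, inc K B i ⁻¹' Ek K (x i)) ≤ TR (mC be K B) p lam := by
  obtain ⟨h1, h2, -, -⟩ := hLPB K B hK
  have hU : MeasurableSet (⋃ i ∈ L, inc K B i ⁻¹' Ek K (x i)) :=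
    Finset.measurableSet_biUnion _ (fun i _ => (h1 i).measurable (lt_meas_Ek K (x i)))
  have hZ0 : ∀ g, 0 ≤ ZG (mC be K B) p g := by
    intro g
    unfold ZG
    exact Finset.sum_nonneg (fun i _ => mul_nonneg (hp i) (Real.exp_pos _).le)
  have hft0 : ∀ g, 0 ≤ ft lam (ZG (mC be K B) p g) := by
    intro g
    unfold ft
    have := hZ0 g
    positivity
  have hft1 : ∀ g, ft lam (ZG (mC be K B) p g) ≤ 1 := by
    intro g
    unfold ft
    have := hZ0 g
    rw [div_le_one (by linarith)]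
    linarith
  have hZm : Measurable (ZG (mC be K B) p) := by
    unfold ZG
    fun_prop
  have hfm : Measurable (fun g => ft lam (ZG (mC be K B) p g)) := by
    unfold ft
    exact hZm.div (hZm.add_const _)
  have hfi : Integrable (fun g => ft lam (ZG (mC be K B) p g))
      (Ga (Fin B × Fin K × Fin (2 ^ K + 1))) := by
    apply Integrable.of_bound hfm.aestronglyMeasurable 1
    filter_upwards with g
    rw [Real.norm_eq_abs, abs_of_nonneg (hft0 g)]
    exact hft1 g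
  unfold TR
  have e : 1 / 2 * (Ga (Fin B × Fin K × Fin (2 ^ K + 1))).real
      (⋃ i ∈ L, inc K B i ⁻¹' Ek K (x i)) = ∫ g, Set.indicator
      (⋃ i ∈ L, inc K B i ⁻¹' Ek K (x i)) (fun _ => (1 / 2 : ℝ)) g
      ∂Ga (Fin B × Fin K × Fin (2 ^ K + 1)) := by
    rw [integral_indicator_const _ hU, smul_eq_mul, mul_comm]
  rw [e]
  apply integral_mono ((integrable_const _).indicator hU) hfi
  intro g
  by_cases hg : g ∈ ⋃ i ∈ L, inc K B i ⁻¹' Ek K (x i)
  · show Set.indicator _ _ g ≤ ft lam (ZG (mC be K B) p g)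
    rw [Set.indicator_of_mem hg]
    simp only [Set.mem_iUnion, exists_prop] at hg
    obtain ⟨i, hi, hE⟩ := hg
    obtain ⟨hx0, hx1, hx2⟩ := hL i hi
    have hE2 : Real.sqrt 2 * vv * K + x i - psi K K ≤ sv * ps (inc K B i g) K := hE.2.1
    have hpsi : psi K K = c0 * Real.log ((K : ℝ) + 1) := by
      unfold psi
      rw [sub_self, zero_add, div_one]
    have hexp : typ be K * Real.exp (be * x i) ≤ Real.exp (∑ k, mC be K B i k * g k) := by
      rw [h2 be i g]
      unfold typ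
      rw [← Real.exp_add]
      apply Real.exp_le_exp.2
      rw [← mul_add]
      apply mul_le_mul_of_nonneg_left _ hbe.le
      rw [hpsi] at hE2
      linarith
    have hZ : lam ≤ ZG (mC be K B) p g := by
      calc lam ≤ p i * (typ be K * Real.exp (be * x i)) := hx2
        _ ≤ p i * Real.exp (∑ k, mC be K B i k * g k) :=
            mul_le_mul_of_nonneg_left hexp (hp i)
        _ ≤ ZG (mC be K B) p g := by
            unfold ZG
            exact Finset.single_le_sum (f := fun i => p i * Real.exp (∑ k, mC be K B i k * g k))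
              (fun i _ => mul_nonneg (hp i) (Real.exp_pos _).le) (Finset.mem_univ i)
    unfold ft
    rw [div_le_div_iff₀ (by norm_num) (by linarith)]
    linarith
  · show Set.indicator _ _ g ≤ ft lam (ZG (mC be K B) p g)
    rw [Set.indicator_of_notMem hg]
    exact hft0 g

theorem lt_Qk_nonneg (K r : ℕ) (x : ℝ) : 0 ≤ Qk K r x := by
  unfold Qk
  apply integral_nonneg
  intro g
  apply Set.indicator_nonneg
  intro g _
  positivity

/-- counting in a subset -/
theorem lt_cnt2 (K B : ℕ) (L : Finset (Fin B × Fin (2 ^ K))) (i : Fin B × Fin (2 ^ K)) (m : ℕ)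
    (a : ℝ) (ha : 0 ≤ a) :
    ∑ i' ∈ L, (if i'.1 = i.1 ∧ (i.2 : ℕ) < i'.2 + m ∧ (i'.2 : ℕ) < i.2 + m then a else 0) ≤
      a * (2 * m) := by
  rw [← Finset.sum_filter, Finset.sum_const, nsmul_eq_mul, mul_comm]
  apply mul_le_mul_of_nonneg_left _ ha
  have h1 : (L.filter (fun i' : Fin B × Fin (2 ^ K) => i'.1 = i.1 ∧
      (i.2 : ℕ) < i'.2 + m ∧ (i'.2 : ℕ) < i.2 + m)).card ≤ 2 * m :=
    (Finset.card_le_card (Finset.filter_subset_filter _ (Finset.subset_univ L))).trans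
      (lt_cnt K B i m)
  exact_mod_cast h1

theorem lt_pair (hLPB : S_LPB) (K B : ℕ) (hK : 1 ≤ K) (x : Fin B × Fin (2 ^ K) → ℝ)
    (i i' : Fin B × Fin (2 ^ K)) (hi : 0 ≤ x i) (hi' : 0 ≤ x i') :
    (Ga (Fin B × Fin K × Fin (2 ^ K + 1))).real
        (inc K B i ⁻¹' Ek K (x i) ∩ inc K B i' ⁻¹' Ek K (x i')) ≤
      (Ga (Fin K)).real (Ek K (x i)) * (Ga (Fin K)).real (Ek K (x i')) +
      (if i'.1 = i.1 ∧ (i.2 : ℕ) < i'.2 + 2 ∧ (i'.2 : ℕ) < i.2 + 2 then
        (Ga (Fin K)).real (Ek K (x i)) else 0) +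
      ∑ r ∈ Finset.Icc 1 K, (if i'.1 = i.1 ∧ (i.2 : ℕ) < i'.2 + 2 ^ (K + 2 - r) ∧
        (i'.2 : ℕ) < i.2 + 2 ^ (K + 2 - r) then (Qk K r (x i) + Qk K r (x i')) / 2 else 0) := by
  obtain ⟨h1, -, h3, h4⟩ := hLPB K B hK
  have hP : 0 ≤ (Ga (Fin K)).real (Ek K (x i)) * (Ga (Fin K)).real (Ek K (x i')) := by
    positivity
  have hQ : ∀ r, 0 ≤ (Qk K r (x i) + Qk K r (x i')) / 2 := by
    intro r
    have := lt_Qk_nonneg K r (x i)
    have := lt_Qk_nonneg K r (x i')
    positivity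
  have hN : 0 ≤ (if i'.1 = i.1 ∧ (i.2 : ℕ) < i'.2 + 2 ∧ (i'.2 : ℕ) < i.2 + 2 then
        (Ga (Fin K)).real (Ek K (x i)) else 0) := by
    split_ifs
    · exact measureReal_nonneg
    · exact le_rfl
  have hT : ∀ r ∈ Finset.Icc 1 K, 0 ≤ (if i'.1 = i.1 ∧ (i.2 : ℕ) < i'.2 + 2 ^ (K + 2 - r) ∧
        (i'.2 : ℕ) < i.2 + 2 ^ (K + 2 - r) then (Qk K r (x i) + Qk K r (x i')) / 2 else 0) := by
    intro r _
    split_ifs
    · exact hQ r
    · exact le_rfl
  have hS := Finset.sum_nonneg hT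
  by_cases hb : i.1 = i'.1
  · by_cases hn : (i.2 : ℕ) < i'.2 + 2 ∧ (i'.2 : ℕ) < i.2 + 2
    · rw [if_pos (show i'.1 = i.1 ∧ (i.2 : ℕ) < i'.2 + 2 ∧ (i'.2 : ℕ) < i.2 + 2 from
        ⟨hb.symm, hn⟩)]
      have h5 : (Ga (Fin B × Fin K × Fin (2 ^ K + 1))).real
        (inc K B i ⁻¹' Ek K (x i) ∩ inc K B i' ⁻¹' Ek K (x i')) ≤
        (Ga (Fin K)).real (Ek K (x i)) := by
        have h6 : (Ga (Fin B × Fin K × Fin (2 ^ K + 1))).real (inc K B i ⁻¹' Ek K (x i)) =
            (Ga (Fin K)).real (Ek K (x i)) := by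
          rw [measureReal_def, measureReal_def,
            (h1 i).measure_preimage (lt_meas_Ek K (x i)).nullMeasurableSet]
        rw [← h6]
        exact measureReal_mono Set.inter_subset_left
      linarith
    · obtain ⟨q, hq1, hqK, hq2, hq3⟩ : ∃ q : ℕ, 1 ≤ q ∧ q + 1 ≤ K ∧
          (2 : ℝ) ^ q ≤ |((i.2 : ℕ) : ℝ) - ((i'.2 : ℕ) : ℝ)| ∧
          ((i.2 : ℕ) < i'.2 + 2 ^ (q + 1) ∧ (i'.2 : ℕ) < i.2 + 2 ^ (q + 1)) := by
        have hbi := i.2.2
        have hbi' := i'.2.2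
        rcases le_total (i.2 : ℕ) (i'.2 : ℕ) with hle | hle
        · set d := (i'.2 : ℕ) - i.2 with hd
          have hd2 : 2 ≤ d := by omega
          have hd0 : d ≠ 0 := by omega
          have e1 : 2 ^ Nat.log 2 d ≤ d := Nat.pow_log_le_self 2 hd0
          have e2 : d < 2 ^ (Nat.log 2 d + 1) := Nat.lt_pow_succ_log_self (by norm_num) d
          refine ⟨Nat.log 2 d, Nat.log_pos (by norm_num) hd2, ?_, ?_, ?_, ?_⟩
          · have : Nat.log 2 d < K := Nat.log_lt_of_lt_pow hd0 (by omega)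
            omega
          · rw [abs_sub_comm, abs_of_nonneg (by
              have : ((i.2 : ℕ) : ℝ) ≤ ((i'.2 : ℕ) : ℝ) := by exact_mod_cast hle
              linarith)]
            have e3 : ((i'.2 : ℕ) : ℝ) - ((i.2 : ℕ) : ℝ) = (d : ℝ) := by
              rw [hd, Nat.cast_sub hle]
            rw [e3]
            exact_mod_cast e1
          · have : 0 < 2 ^ (Nat.log 2 d + 1) := by positivity
            omega
          · omega
        · set d := (i.2 : ℕ) - i'.2 with hd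
          have hd2 : 2 ≤ d := by omega
          have hd0 : d ≠ 0 := by omega
          have e1 : 2 ^ Nat.log 2 d ≤ d := Nat.pow_log_le_self 2 hd0
          have e2 : d < 2 ^ (Nat.log 2 d + 1) := Nat.lt_pow_succ_log_self (by norm_num) d
          refine ⟨Nat.log 2 d, Nat.log_pos (by norm_num) hd2, ?_, ?_, ?_, ?_⟩
          · have : Nat.log 2 d < K := Nat.log_lt_of_lt_pow hd0 (by omega)
            omega
          · rw [abs_of_nonneg (by
              have : ((i'.2 : ℕ) : ℝ) ≤ ((i.2 : ℕ) : ℝ) := by exact_mod_cast hle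
              linarith)]
            have e3 : ((i.2 : ℕ) : ℝ) - ((i'.2 : ℕ) : ℝ) = (d : ℝ) := by
              rw [hd, Nat.cast_sub hle]
            rw [e3]
            exact_mod_cast e1
          · omega
          · have : 0 < 2 ^ (Nat.log 2 d + 1) := by positivity
            omega
      have hr1 : 1 ≤ K + 1 - q := by omega
      have hrK : K + 1 - q ≤ K := by omega
      have er1 : K + 1 - (K + 1 - q) = q := by omega
      have er2 : K + 2 - (K + 1 - q) = q + 1 := by omega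
      have h5 := h4 i i' (x i) (x i') (K + 1 - q) hb hi hi' hr1 hrK (by rw [er1]; exact hq2)
      have h6 := Finset.single_le_sum hT (Finset.mem_Icc.2 ⟨hr1, hrK⟩)
      rw [er2, if_pos ⟨hb.symm, hq3⟩] at h6
      linarith
  · have h5 := h3 i i' (x i) (x i') hb hi hi'
    linarith

theorem lt_pairs (hLPB : S_LPB) (K B : ℕ) (hK : 1 ≤ K) (x : Fin B × Fin (2 ^ K) → ℝ)
    (L : Finset (Fin B × Fin (2 ^ K))) (hL : ∀ i ∈ L, 0 ≤ x i) :
    ∑ i ∈ L, ∑ i' ∈ L, (Ga (Fin B × Fin K × Fin (2 ^ K + 1))).real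
        (inc K B i ⁻¹' Ek K (x i) ∩ inc K B i' ⁻¹' Ek K (x i')) ≤
      (∑ i ∈ L, (Ga (Fin K)).real (Ek K (x i))) ^ 2 +
      4 * ∑ i ∈ L, (Ga (Fin K)).real (Ek K (x i)) +
      8 / 2 ^ K * ∑ i ∈ L, ∑ r ∈ Finset.Icc 1 K, (2 : ℝ) ^ (2 * K - r) * Qk K r (x i) := by
  have hsum : ∑ i ∈ L, ∑ i' ∈ L, (Ga (Fin B × Fin K × Fin (2 ^ K + 1))).real
        (inc K B i ⁻¹' Ek K (x i) ∩ inc K B i' ⁻¹' Ek K (x i')) ≤
      ∑ i ∈ L, ∑ i' ∈ L, ((Ga (Fin K)).real (Ek K (x i)) * (Ga (Fin K)).real (Ek K (x i')) +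
      (if i'.1 = i.1 ∧ (i.2 : ℕ) < i'.2 + 2 ∧ (i'.2 : ℕ) < i.2 + 2 then
        (Ga (Fin K)).real (Ek K (x i)) else 0) +
      ∑ r ∈ Finset.Icc 1 K, (if i'.1 = i.1 ∧ (i.2 : ℕ) < i'.2 + 2 ^ (K + 2 - r) ∧
        (i'.2 : ℕ) < i.2 + 2 ^ (K + 2 - r) then (Qk K r (x i) + Qk K r (x i')) / 2 else 0)) :=
    Finset.sum_le_sum (fun i hi => Finset.sum_le_sum (fun i' hi' =>
      lt_pair hLPB K B hK x i i' (hL i hi) (hL i' hi')))
  refine hsum.trans ?_
  simp only [Finset.sum_add_distrib]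
  apply add_le_add (add_le_add _ _) _
  · rw [sq, Finset.sum_mul_sum]
  · rw [Finset.mul_sum]
    apply Finset.sum_le_sum
    intro i _
    refine (lt_cnt2 K B L i 2 _ measureReal_nonneg).trans ?_
    norm_num
    linarith
  · -- third term
    have hr : ∀ r ∈ Finset.Icc 1 K, ∑ i ∈ L, ∑ i' ∈ L,
        (if i'.1 = i.1 ∧ (i.2 : ℕ) < i'.2 + 2 ^ (K + 2 - r) ∧
          (i'.2 : ℕ) < i.2 + 2 ^ (K + 2 - r) then (Qk K r (x i) + Qk K r (x i')) / 2 else 0) ≤
        8 / 2 ^ K * ∑ i ∈ L, (2 : ℝ) ^ (2 * K - r) * Qk K r (x i) := by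
      intro r hr
      rw [Finset.mem_Icc] at hr
      set T := ∑ i ∈ L, ∑ i' ∈ L, (if i'.1 = i.1 ∧ (i.2 : ℕ) < i'.2 + 2 ^ (K + 2 - r) ∧
          (i'.2 : ℕ) < i.2 + 2 ^ (K + 2 - r) then Qk K r (x i) else 0) with hT
      have hT2 : ∑ i ∈ L, ∑ i' ∈ L, (if i'.1 = i.1 ∧ (i.2 : ℕ) < i'.2 + 2 ^ (K + 2 - r) ∧
          (i'.2 : ℕ) < i.2 + 2 ^ (K + 2 - r) then Qk K r (x i') else 0) = T := by
        rw [Finset.sum_comm, hT]
        apply Finset.sum_congr rfl
        intro i _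
        apply Finset.sum_congr rfl
        intro i' _
        have hiff : (i.1 = i'.1 ∧ (i'.2 : ℕ) < i.2 + 2 ^ (K + 2 - r) ∧
            (i.2 : ℕ) < i'.2 + 2 ^ (K + 2 - r)) ↔ (i'.1 = i.1 ∧
            (i.2 : ℕ) < i'.2 + 2 ^ (K + 2 - r) ∧ (i'.2 : ℕ) < i.2 + 2 ^ (K + 2 - r)) := by
          constructor
          · rintro ⟨h1, h2, h3⟩
            exact ⟨h1.symm, h3, h2⟩
          · rintro ⟨h1, h2, h3⟩
            exact ⟨h1.symm, h3, h2⟩
        rw [if_congr hiff rfl rfl]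
      have e1 : ∑ i ∈ L, ∑ i' ∈ L,
        (if i'.1 = i.1 ∧ (i.2 : ℕ) < i'.2 + 2 ^ (K + 2 - r) ∧
          (i'.2 : ℕ) < i.2 + 2 ^ (K + 2 - r) then (Qk K r (x i) + Qk K r (x i')) / 2 else 0) =
          T := by
        have e2 : ∑ i ∈ L, ∑ i' ∈ L,
          (if i'.1 = i.1 ∧ (i.2 : ℕ) < i'.2 + 2 ^ (K + 2 - r) ∧
          (i'.2 : ℕ) < i.2 + 2 ^ (K + 2 - r) then (Qk K r (x i) + Qk K r (x i')) / 2 else 0) =
          (T + T) / 2 := by
          nth_rewrite 2 [← hT2]
          rw [hT, ← Finset.sum_add_distrib, Finset.sum_div]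
          apply Finset.sum_congr rfl
          intro i _
          rw [← Finset.sum_add_distrib, Finset.sum_div]
          apply Finset.sum_congr rfl
          intro i' _
          split_ifs
          · ring
          · ring
        rw [e2]
        ring
      rw [e1, hT, Finset.mul_sum]
      apply Finset.sum_le_sum
      intro i _
      refine (lt_cnt2 K B L i (2 ^ (K + 2 - r)) _ (lt_Qk_nonneg K r (x i))).trans (le_of_eq ?_)
      have e3 : (2 : ℝ) ^ (2 * K - r) = 2 ^ K * 2 ^ (K - r) := by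
        rw [← pow_add]
        congr 1
        omega
      have e4 : (2 : ℝ) ^ (K + 2 - r) = 4 * 2 ^ (K - r) := by
        have : K + 2 - r = 2 + (K - r) := by omega
        rw [this, pow_add]
        norm_num
      push_cast
      rw [e3, e4]
      field_simp
      ring
    have hcomm : ∑ i ∈ L, ∑ i' ∈ L, ∑ r ∈ Finset.Icc 1 K,
        (if i'.1 = i.1 ∧ (i.2 : ℕ) < i'.2 + 2 ^ (K + 2 - r) ∧
          (i'.2 : ℕ) < i.2 + 2 ^ (K + 2 - r) then (Qk K r (x i) + Qk K r (x i')) / 2 else 0) =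
        ∑ r ∈ Finset.Icc 1 K, ∑ i ∈ L, ∑ i' ∈ L,
        (if i'.1 = i.1 ∧ (i.2 : ℕ) < i'.2 + 2 ^ (K + 2 - r) ∧
          (i'.2 : ℕ) < i.2 + 2 ^ (K + 2 - r) then (Qk K r (x i) + Qk K r (x i')) / 2 else 0) := by
      rw [Finset.sum_comm]
      rw [Finset.sum_congr rfl (fun i _ => Finset.sum_comm)]
      rw [Finset.sum_comm]
      apply Finset.sum_congr rfl
      intro r _
      rw [Finset.sum_comm]
    rw [hcomm]
    refine (Finset.sum_le_sum hr).trans (le_of_eq ?_)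
    rw [← Finset.mul_sum, Finset.sum_comm]

theorem LT (hLFM : S_LFM) (hLSM : S_LSM) (hLPB : S_LPB) : S_LT := by
  intro be hbe
  obtain ⟨c, C, K0, hc, hC, hF⟩ := hLFM
  obtain ⟨C2, hC2, hS⟩ := hLSM
  have hbe0 : 0 < be := lt_of_le_of_lt (Real.sqrt_nonneg 2) hbe
  set C3 : ℝ := C ^ 2 + 4 * C + 8 * C2 with hC3
  have hC3p : 0 < C3 := by positivity
  refine ⟨c ^ 2 / (4 * C3), max K0 1, by positivity, ?_⟩
  intro K B hK p lam L x hp hlam hL
  have hK1 : 1 ≤ K := (le_max_right _ _).trans hK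
  have hK0 : K0 ≤ K := (le_max_left _ _).trans hK
  have hlow := lt_low hLPB be hbe0 K B hK1 p lam L x hp hlam hL
  have hmp := (hLPB K B hK1).1
  set Q := Ga (Fin B × Fin K × Fin (2 ^ K + 1)) with hQ
  set A : Fin B × Fin (2 ^ K) → Set (Fin B × Fin K × Fin (2 ^ K + 1) → ℝ) :=
    fun i => inc K B i ⁻¹' Ek K (x i) with hA
  have hAm : ∀ i, MeasurableSet (A i) := fun i => (hmp i).measurable (lt_meas_Ek K (x i))
  have hAP : ∀ i, Q.real (A i) = (Ga (Fin K)).real (Ek K (x i)) := by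
    intro i
    rw [measureReal_def, measureReal_def,
      (hmp i).measure_preimage (lt_meas_Ek K (x i)).nullMeasurableSet]
  set w : Fin B × Fin (2 ^ K) → ℝ := fun i => (1 + x i) * Real.exp (-(Real.sqrt 2 * x i)) / 2 ^ K
    with hw
  set μ : ℝ := ∑ i ∈ L, w i with hμ
  have h2K : (0 : ℝ) < 2 ^ K := by positivity
  have hw0 : ∀ i ∈ L, 0 ≤ w i := by
    intro i hi
    have := (hL i hi).1
    rw [hw]
    positivity
  have hμ0 : 0 ≤ μ := Finset.sum_nonneg hw0
  have hP1 : ∀ i ∈ L, c * w i ≤ (Ga (Fin K)).real (Ek K (x i)) := by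
    intro i hi
    have h1 := (hF K (x i) hK0 (hL i hi).1 (hL i hi).2.1).1
    rw [hw]
    show c * ((1 + x i) * Real.exp (-(Real.sqrt 2 * x i)) / 2 ^ K) ≤ _
    rw [← mul_div_assoc, div_le_iff₀ h2K]
    linarith
  have hP2 : ∀ i ∈ L, (Ga (Fin K)).real (Ek K (x i)) ≤ C * w i := by
    intro i hi
    have h1 := (hF K (x i) hK0 (hL i hi).1 (hL i hi).2.1).2
    rw [hw]
    show _ ≤ C * ((1 + x i) * Real.exp (-(Real.sqrt 2 * x i)) / 2 ^ K)
    rw [← mul_div_assoc, le_div_iff₀ h2K]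
    linarith
  rcases eq_or_lt_of_le hμ0 with h0 | h0
  · have hmin : min 1 (∑ i ∈ L, (1 + x i) * Real.exp (-(Real.sqrt 2 * x i)) / 2 ^ K) = 0 := by
      show min 1 μ = 0
      rw [← h0]
      exact min_eq_right (by norm_num)
    rw [hmin, mul_zero]
    refine le_trans ?_ hlow
    positivity
  set S : ℝ := C3 * (μ + μ ^ 2) with hSdef
  have hSpos : 0 < S := by positivity
  have hpairs : ∑ i ∈ L, ∑ i' ∈ L, Q.real (A i ∩ A i') ≤ S := by
    refine (lt_pairs hLPB K B hK1 x L (fun i hi => (hL i hi).1)).trans ?_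
    have hPn : 0 ≤ ∑ i ∈ L, (Ga (Fin K)).real (Ek K (x i)) :=
      Finset.sum_nonneg (fun i _ => measureReal_nonneg)
    have e1 : ∑ i ∈ L, (Ga (Fin K)).real (Ek K (x i)) ≤ C * μ := by
      rw [hμ, Finset.mul_sum]
      exact Finset.sum_le_sum hP2
    have e2 : 8 / 2 ^ K * ∑ i ∈ L, ∑ r ∈ Finset.Icc 1 K, (2 : ℝ) ^ (2 * K - r) * Qk K r (x i) ≤
        8 * C2 * μ := by
      rw [hμ, Finset.mul_sum, Finset.mul_sum]
      apply Finset.sum_le_sum
      intro i hi
      have h1 := hS K (x i) hK1 (hL i hi).1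
      rw [hw]
      show _ ≤ 8 * C2 * ((1 + x i) * Real.exp (-(Real.sqrt 2 * x i)) / 2 ^ K)
      have h8 : (0 : ℝ) ≤ 8 / 2 ^ K := by positivity
      calc 8 / 2 ^ K * ∑ r ∈ Finset.Icc 1 K, (2 : ℝ) ^ (2 * K - r) * Qk K r (x i) ≤
          8 / 2 ^ K * (C2 * (1 + x i) * Real.exp (-(Real.sqrt 2 * x i))) :=
            mul_le_mul_of_nonneg_left h1 h8
        _ = _ := by ring
    have e3 : (∑ i ∈ L, (Ga (Fin K)).real (Ek K (x i))) ^ 2 ≤ (C * μ) ^ 2 :=
      pow_le_pow_left₀ hPn e1 2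
    have e4 : (C * μ) ^ 2 + 4 * (C * μ) + 8 * C2 * μ ≤ S := by
      rw [hSdef, hC3]
      have k1 : 0 ≤ C ^ 2 * μ := by positivity
      have k2 : 0 ≤ 4 * C * μ ^ 2 := by positivity
      have k3 : 0 ≤ 8 * C2 * μ ^ 2 := by positivity
      nlinarith
    linarith
  have hcs := lt_cs Q L A hAm S hSpos hpairs
  have hm : c * μ ≤ ∑ i ∈ L, Q.real (A i) := by
    rw [hμ, Finset.mul_sum]
    apply Finset.sum_le_sum
    intro i hi
    rw [hAP]
    exact hP1 i hi
  have hfin : c ^ 2 / (2 * C3) * min 1 μ ≤ (∑ i ∈ L, Q.real (A i)) ^ 2 / S := by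
    have k1 : (c * μ) ^ 2 ≤ (∑ i ∈ L, Q.real (A i)) ^ 2 := pow_le_pow_left₀ (by positivity) hm 2
    refine le_trans ?_ (div_le_div_of_nonneg_right k1 hSpos.le)
    rw [hSdef]
    have k2 : (c * μ) ^ 2 / (C3 * (μ + μ ^ 2)) = c ^ 2 / C3 * (μ / (1 + μ)) := by
      field_simp
    rw [k2]
    have k3 : 1 / 2 * min 1 μ ≤ μ / (1 + μ) := by
      rw [le_div_iff₀ (by positivity)]
      rcases le_total 1 μ with h | h
      · rw [min_eq_left h]
        linarith
      · rw [min_eq_right h]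
        nlinarith
    calc c ^ 2 / (2 * C3) * min 1 μ = c ^ 2 / C3 * (1 / 2 * min 1 μ) := by
          field_simp
      _ ≤ c ^ 2 / C3 * (μ / (1 + μ)) := mul_le_mul_of_nonneg_left k3 (by positivity)
  show c ^ 2 / (4 * C3) * min 1 μ ≤ _
  calc c ^ 2 / (4 * C3) * min 1 μ = 1 / 2 * (c ^ 2 / (2 * C3) * min 1 μ) := by
        field_simp
        ring
    _ ≤ 1 / 2 * Q.real (⋃ i ∈ L, A i) :=
        mul_le_mul_of_nonneg_left (hfin.trans hcs) (by norm_num)
    _ ≤ _ := hlow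

end PN
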