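import Pool.Agent.H24.PN.Stmts

set_option autoImplicit false

namespace PN
open MeasureTheory Complex ProbabilityTheory PM

namespace MCPaux

/-- the constant -/
noncomputable def K (q : ℝ) : ENNReal :=
  ∫⁻ u in Set.Ioi (0 : ℝ), ENNReal.ofReal (u ^ (q - 1) / (1 + u))

lemma K_pos {q : ℝ} (hq : q < 1) : K q ≠ 0 := by
  have h1 : ∫⁻ _u in Set.Ioc (0 : ℝ) 1, ENNReal.ofReal (1 / 2) ≤ K q := by
    calc ∫⁻ _u in Set.Ioc (0 : ℝ) 1, ENNReal.ofReal (1 / 2)
        ≤ ∫⁻ u in Set.Ioc (0 : ℝ) 1, ENNReal.ofReal (u ^ (q - 1) / (1 + u)) := by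
          refine setLIntegral_mono' measurableSet_Ioc fun u hu => ?_
          apply ENNReal.ofReal_le_ofReal
          have h2 : 1 ≤ u ^ (q - 1) := Real.one_le_rpow_of_pos_of_le_one_of_nonpos hu.1 hu.2
            (by linarith)
          have h3 : 0 < 1 + u := by linarith [hu.1]
          rw [div_le_div_iff₀ (by norm_num) h3]
          nlinarith [hu.2]
      _ ≤ K q := lintegral_mono_set (fun u hu => hu.1)
  intro h0
  rw [h0] at h1
  rw [lintegral_const, Measure.restrict_apply_univ, Real.volume_Ioc] at h1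
  norm_num at h1

lemma K_fin {q : ℝ} (hq0 : 0 < q) (hq : q < 1) : K q ≠ ⊤ := by
  have hmeas : Measurable fun u : ℝ => u ^ (q - 1) / (1 + u) := by fun_prop
  have h1 : IntegrableOn (fun u : ℝ => u ^ (q - 1) / (1 + u)) (Set.Ioc 0 1) := by
    have h2 : IntegrableOn (fun u : ℝ => u ^ (q - 1)) (Set.Ioc 0 1) := by
      have := intervalIntegral.intervalIntegrable_rpow' (a := 0) (b := 1) (r := q - 1)
        (by linarith)
      rwa [intervalIntegrable_iff_integrableOn_Ioc_of_le (by norm_num)] at this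
    refine Integrable.mono' h2 hmeas.aestronglyMeasurable ?_
    rw [ae_restrict_iff' measurableSet_Ioc]
    refine Filter.Eventually.of_forall fun u hu => ?_
    have h3 : 0 ≤ u ^ (q - 1) := Real.rpow_nonneg hu.1.le _
    have h4 : 1 ≤ 1 + u := by linarith [hu.1]
    rw [Real.norm_eq_abs, abs_of_nonneg (div_nonneg h3 (by linarith))]
    exact div_le_self h3 h4
  have h2 : IntegrableOn (fun u : ℝ => u ^ (q - 1) / (1 + u)) (Set.Ioi 1) := by
    have h3 : IntegrableOn (fun u : ℝ => u ^ (q - 2)) (Set.Ioi 1) :=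
      integrableOn_Ioi_rpow_of_lt (by linarith) one_pos
    refine Integrable.mono' h3 hmeas.aestronglyMeasurable ?_
    rw [ae_restrict_iff' measurableSet_Ioi]
    refine Filter.Eventually.of_forall fun u hu => ?_
    have hu0 : (0 : ℝ) < u := lt_trans one_pos hu
    have h4 : 0 ≤ u ^ (q - 1) := Real.rpow_nonneg hu0.le _
    rw [Real.norm_eq_abs, abs_of_nonneg (div_nonneg h4 (by linarith))]
    have h5 : u ^ (q - 2) = u ^ (q - 1) / u := by
      rw [← Real.rpow_sub_one hu0.ne']
      congr 1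
      ring
    rw [h5]
    exact div_le_div_of_nonneg_left h4 hu0 (by linarith)
  have h3 : IntegrableOn (fun u : ℝ => u ^ (q - 1) / (1 + u)) (Set.Ioi 0) := by
    have := h1.union h2
    rwa [Set.Ioc_union_Ioi_eq_Ioi (by norm_num)] at this
  exact h3.lintegral_lt_top.ne

/-- scaling -/
lemma scale {q : ℝ} (hq0 : 0 < q) {x : ℝ} (hx : 0 ≤ x) :
    ∫⁻ lam in Set.Ioi (0 : ℝ), ENNReal.ofReal (ft lam x * lam ^ (q - 1)) =
      ENNReal.ofReal (x ^ q) * K q := by
  rcases hx.eq_or_lt with rfl | hx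
  · rw [Real.zero_rpow hq0.ne']
    simp [ft]
  · have hm : Measurable fun lam : ℝ => (Set.Ioi (0 : ℝ)).indicator
        (fun lam => ENNReal.ofReal (ft lam x * lam ^ (q - 1))) lam := by
      refine Measurable.indicator ?_ measurableSet_Ioi
      unfold ft
      fun_prop
    rw [← lintegral_indicator measurableSet_Ioi]
    have h1 := Real.smul_map_volume_mul_left hx.ne'
    conv_lhs => rw [← h1]
    rw [lintegral_smul_measure, lintegral_map hm (measurable_const_mul x)]
    unfold K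
    rw [← lintegral_indicator measurableSet_Ioi, smul_eq_mul, abs_of_pos hx,
      ← lintegral_const_mul' _ _ ENNReal.ofReal_ne_top,
      ← lintegral_const_mul' _ _ ENNReal.ofReal_ne_top]
    refine lintegral_congr fun u => ?_
    by_cases hu : 0 < u
    · have hxu : 0 < x * u := mul_pos hx hu
      rw [Set.indicator_of_mem (Set.mem_Ioi.mpr hxu), Set.indicator_of_mem (Set.mem_Ioi.mpr hu),
        ← ENNReal.ofReal_mul hx.le, ← ENNReal.ofReal_mul (Real.rpow_nonneg hx.le _)]
      congr 1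
      unfold ft
      rw [Real.mul_rpow hx.le hu.le, Real.rpow_sub_one hx.ne' q]
      have h2 : 0 < 1 + u := by linarith
      have h3 : 0 < x + x * u := by positivity
      field_simp
    · have hxu : ¬ 0 < x * u := by
        intro h
        exact hu ((mul_pos_iff_of_pos_left hx).mp h)
      rw [Set.indicator_of_notMem (s := Set.Ioi (0 : ℝ)) (a := x * u) (fun h => hxu h),
        Set.indicator_of_notMem (s := Set.Ioi (0 : ℝ)) (a := u) (fun h => hu h)]
      simp

lemma swap {q : ℝ} (hq0 : 0 < q) {Ω : Type} [MeasurableSpace Ω] (μ : Measure Ω)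
    [IsProbabilityMeasure μ] (Z : Ω → ℝ) (hZ : Measurable Z) (hZ0 : ∀ ω, 0 ≤ Z ω) :
    (∫⁻ ω, ENNReal.ofReal (Z ω ^ q) ∂μ) * K q =
      ∫⁻ lam in Set.Ioi (0 : ℝ), ENNReal.ofReal (lam ^ (q - 1)) *
        ENNReal.ofReal (∫ ω, ft lam (Z ω) ∂μ) := by
  have hm2 : Measurable fun ω => ENNReal.ofReal (Z ω ^ q) := by fun_prop
  rw [← lintegral_mul_const _ hm2]
  simp_rw [← fun ω => scale (q := q) hq0 (hZ0 ω)]
  rw [lintegral_lintegral_swap]
  · refine setLIntegral_congr_fun measurableSet_Ioi fun lam hlam => ?_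
    have hlam' : (0 : ℝ) < lam := hlam
    have hnn : ∀ ω, 0 ≤ ft lam (Z ω) := fun ω => by
      unfold ft
      exact div_nonneg (hZ0 ω) (add_nonneg (hZ0 ω) hlam'.le)
    have hmf : Measurable fun ω => ft lam (Z ω) := by
      unfold ft
      fun_prop
    have hint : Integrable (fun ω => ft lam (Z ω)) μ := by
      refine Integrable.mono' (integrable_const (1 : ℝ)) hmf.aestronglyMeasurable ?_
      refine Filter.Eventually.of_forall fun ω => ?_
      rw [Real.norm_eq_abs, abs_of_nonneg (hnn ω)]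
      unfold ft
      have : 0 < Z ω + lam := by linarith [hZ0 ω]
      rw [div_le_one this]
      linarith
    rw [ofReal_integral_eq_lintegral_ofReal hint (Filter.Eventually.of_forall hnn),
      ← lintegral_const_mul' _ _ ENNReal.ofReal_ne_top]
    refine lintegral_congr fun ω => ?_
    rw [← ENNReal.ofReal_mul (Real.rpow_nonneg hlam'.le _), mul_comm]
  · refine Measurable.aemeasurable ?_
    unfold ft Function.uncurry
    fun_prop

end MCPaux

open MCPaux in
theorem MCP : S_MCP := by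
  intro Ω1 Ω2 _ _ μ1 μ2 _ _ Z1 Z2 C q hZ1 hZ2 h1 h2 hC hq0 hq1 hcmp
  have e1 := swap hq0 μ1 Z1 hZ1 h1
  have e2 := swap hq0 μ2 Z2 hZ2 h2
  have key : (∫⁻ ω, ENNReal.ofReal (Z1 ω ^ q) ∂μ1) * K q ≤
      (ENNReal.ofReal C * ∫⁻ ω, ENNReal.ofReal (Z2 ω ^ q) ∂μ2) * K q := by
    rw [mul_assoc, e1, e2, ← lintegral_const_mul' _ _ ENNReal.ofReal_ne_top]
    refine setLIntegral_mono' measurableSet_Ioi fun lam hlam => ?_
    rw [mul_left_comm]
    refine mul_le_mul_right ?_ _
    rw [← ENNReal.ofReal_mul hC]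
    exact ENNReal.ofReal_le_ofReal (hcmp lam hlam)
  exact (ENNReal.mul_le_mul_iff_left (K_pos hq1) (K_fin hq0 hq1)).mp key

end PN
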