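import Pool.Agent.H24.PN.Defs

/-! Part 2 of project PM (MP_d91868_an): statements of all modules. Every module proves one of
these propositions, possibly from others given as hypotheses. -/

namespace PN
open MeasureTheory Complex ProbabilityTheory PM

/-! Gaussian comparison -/

/-- integration by parts -/
def S_STN : Prop := ∀ (κ : Type) [Fintype κ] [DecidableEq κ] (k : κ) (f f' : (κ → ℝ) → ℝ),
  Continuous f → Continuous f' → (∃ B : ℝ, ∀ g, |f g| ≤ B) → (∃ B : ℝ, ∀ g, |f' g| ≤ B) →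
  (∀ g : κ → ℝ, HasDerivAt (fun s : ℝ => f (Function.update g k s)) (f' g) (g k)) →
  ∫ g : κ → ℝ, g k * f g ∂Ga κ = ∫ g : κ → ℝ, f' g ∂Ga κ

/-- Kahane inequality, equal variances -/
def S_KH0 : Prop := ∀ (ι κ κ' : Type) [Fintype ι] [Fintype κ] [Fintype κ'] (a : ι → κ → ℝ)
  (b : ι → κ' → ℝ) (p : ι → ℝ) (lam : ℝ), (∀ i, 0 ≤ p i) → 0 < lam →
  (∀ i, ∑ k, a i k ^ 2 = ∑ k, b i k ^ 2) →
  (∀ i j, ∑ k, a i k * a j k ≤ ∑ k, b i k * b j k) → TR b p lam ≤ TR a p lam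

/-- Kahane inequality up to constants -/
def S_KAH : Prop := ∀ C : ℝ, 0 ≤ C → ∃ C1 : ℝ, 0 < C1 ∧
  ∀ (ι κ κ' : Type) [Fintype ι] [Fintype κ] [Fintype κ'] (a : ι → κ → ℝ)
  (b : ι → κ' → ℝ) (p : ι → ℝ) (lam : ℝ), (∀ i, 0 ≤ p i) → 0 < lam →
  (∀ i j, ∑ k, a i k * a j k ≤ ∑ k, b i k * b j k + C) →
  (∀ i, ∑ k, b i k ^ 2 ≤ ∑ k, a i k ^ 2 + C) → TR b p lam ≤ C1 * TR a p lam

/-- covariance of the prime field -/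
def S_COV : Prop := ∀ (γ : ℝ) (A : Finset ℕ) (σ : ℝ), (∀ l ∈ A, l.Prime) →
  ∀ (ι : Type) (t : ι → ℝ) (i j : ι),
  ∑ k : A × Fin 2, aP γ A σ t i k * aP γ A σ t j k = 2 * (al γ) ^ 2 * CS A (2 * σ) (t i - t j)

/-- swap of one prime: the circle side -/
def S_LNC : Prop := ∀ (γ : ℝ) (p0 : ℕ), Good γ p0 → ∃ C : ℝ, 0 < C ∧ ∀ (l : ℕ), p0 < l →
  ∀ (ι : Type) [Fintype ι] (m : ι → ℝ) (w : ι → ℂ) (lam : ℝ), (∀ i, 0 ≤ m i) → 0 < lam →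
  (∀ i, ‖w i‖ ≤ Real.exp 8 / Real.sqrt l) →
  |(∫ x : UnitAddCircle, ft lam (∑ i, m i * ‖phi γ (zc x * w i)‖ ^ 2)) - apx γ m w lam| ≤
    C * (l : ℝ) ^ (-(3 / 2) : ℝ) * ((∑ i, m i) / ((∑ i, m i) + lam))

/-- swap of one prime: the Gaussian side -/
def S_LNG : Prop := ∀ (γ : ℝ) (p0 : ℕ), Good γ p0 → ∃ C : ℝ, 0 < C ∧ ∀ (l : ℕ), p0 < l →
  ∀ (ι : Type) [Fintype ι] (m : ι → ℝ) (w : ι → ℂ) (lam : ℝ), (∀ i, 0 ≤ m i) → 0 < lam →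
  (∀ i, ‖w i‖ ≤ Real.exp 8 / Real.sqrt l) →
  |(∫ g : Fin 2 → ℝ, ft lam (∑ i, m i * Real.exp (Real.sqrt 2 * al γ *
      (g 0 * (w i).re - g 1 * (w i).im))) ∂Ga (Fin 2)) - apx γ m w lam| ≤
    C * (l : ℝ) ^ (-(3 / 2) : ℝ) * ((∑ i, m i) / ((∑ i, m i) + lam))

/-- swap of one prime -/
def S_LN1 : Prop := ∀ (γ : ℝ) (p0 : ℕ), Good γ p0 → ∃ C : ℝ, 0 < C ∧ ∀ (l : ℕ), p0 < l →
  ∀ (ι : Type) [Fintype ι] (m : ι → ℝ) (w : ι → ℂ) (lam : ℝ), (∀ i, 0 ≤ m i) → 0 < lam →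
  (∀ i, ‖w i‖ ≤ Real.exp 8 / Real.sqrt l) →
  (∫ x : UnitAddCircle, ft lam (∑ i, m i * ‖phi γ (zc x * w i)‖ ^ 2)) ≤
    (1 + C * (l : ℝ) ^ (-(3 / 2) : ℝ)) * (∫ g : Fin 2 → ℝ, ft lam (∑ i, m i *
      Real.exp (Real.sqrt 2 * al γ * (g 0 * (w i).re - g 1 * (w i).im))) ∂Ga (Fin 2)) ∧
  (∫ g : Fin 2 → ℝ, ft lam (∑ i, m i *
      Real.exp (Real.sqrt 2 * al γ * (g 0 * (w i).re - g 1 * (w i).im))) ∂Ga (Fin 2)) ≤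
    (1 + C * (l : ℝ) ^ (-(3 / 2) : ℝ)) *
      ∫ x : UnitAddCircle, ft lam (∑ i, m i * ‖phi γ (zc x * w i)‖ ^ 2)

/-- swap of all primes of A -/
def S_LIN : Prop := ∀ (γ : ℝ) (p0 : ℕ), Good γ p0 → ∃ C : ℝ, 0 < C ∧ ∀ (A : Finset ℕ) (σ : ℝ),
  PA p0 A → Ln A σ → ∀ (ι : Type) [Fintype ι] (t p : ι → ℝ) (lam : ℝ), (∀ i, 0 ≤ p i) →
  0 < lam →
  (∫ ω : Om, ft lam (∑ i, p i * ‖F γ A σ (t i) ω‖ ^ 2) ∂P) ≤ C * TR (aP γ A σ t) p lam ∧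
  TR (aP γ A σ t) p lam ≤ C * ∫ ω : Om, ft lam (∑ i, p i * ‖F γ A σ (t i) ω‖ ^ 2) ∂P

/-- Riemann sums -/
def S_RIE : Prop := ∀ (w f : ℝ → ℝ) (s ℓ : ℝ), 0 < ℓ → ContinuousOn f (Set.Icc s (s + ℓ)) →
  IntegrableOn w (Set.Ioc s (s + ℓ)) →
  Filter.Tendsto (fun R : ℕ => ∑ i ∈ Finset.range (R + 1),
    (∫ t in Set.Ioc (s + i * (ℓ / (R + 1))) (s + (i + 1) * (ℓ / (R + 1))), w t) *
      f (s + i * (ℓ / (R + 1)))) Filter.atTop (nhds (∫ t in Set.Ioc s (s + ℓ), w t * f t))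

/-- comparison of moments from comparison of soft tails -/
def S_MCP : Prop := ∀ (Ω1 Ω2 : Type) [MeasurableSpace Ω1] [MeasurableSpace Ω2]
  (μ1 : Measure Ω1) (μ2 : Measure Ω2) [IsProbabilityMeasure μ1] [IsProbabilityMeasure μ2]
  (Z1 : Ω1 → ℝ) (Z2 : Ω2 → ℝ) (C q : ℝ), Measurable Z1 → Measurable Z2 → (∀ ω, 0 ≤ Z1 ω) →
  (∀ ω, 0 ≤ Z2 ω) → 0 ≤ C → 0 < q → q < 1 →
  (∀ lam : ℝ, 0 < lam → ∫ ω, ft lam (Z1 ω) ∂μ1 ≤ C * ∫ ω, ft lam (Z2 ω) ∂μ2) →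
  ∫⁻ ω, ENNReal.ofReal (Z1 ω ^ q) ∂μ1 ≤ ENNReal.ofReal C * ∫⁻ ω, ENNReal.ofReal (Z2 ω ^ q) ∂μ2

/-- moments from soft tails -/
def S_MOT : Prop := ∀ (th be q C c : ℝ), 0 < th → 0 < be → 0 < q → 0 < C → 0 < c →
  be * q ≤ th → ∃ C' : ℝ, 0 < C' ∧ ∀ (Ω : Type) [MeasurableSpace Ω] (μ : Measure Ω)
  [IsProbabilityMeasure μ] (Z : Ω → ℝ) (T n : ℝ), Measurable Z → (∀ ω, 0 ≤ Z ω) → 0 < T →
  1 ≤ n →
  (∀ x : ℝ, 0 ≤ x → ∫ ω, ft (T * Real.exp (be * x)) (Z ω) ∂μ ≤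
    C * (1 + x) * Real.exp (-th * x) * (Real.exp (-c * x ^ 2 / n) + Real.exp (-c * x))) →
  ∫⁻ ω, ENNReal.ofReal (Z ω ^ q) ∂μ ≤
    ENNReal.ofReal (C' * T ^ q * (if be * q = th then n else 1))

/-- shift of a Gaussian vector -/
def S_CMS : Prop := ∀ (κ : Type) [Fintype κ] (a : κ → ℝ) (h : (κ → ℝ) → ENNReal), Measurable h →
  ∫⁻ g : κ → ℝ, h g ∂Ga κ =
    ∫⁻ g : κ → ℝ, h (g + a) * ENNReal.ofReal (Real.exp (-(∑ k, a k * g k) - (∑ k, a k ^ 2) / 2))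
      ∂Ga κ

/-- orthonormal rows -/
def S_ORT : Prop := ∀ (κ κ' : Type) [Fintype κ] [Fintype κ'] [DecidableEq κ'] (a : κ' → κ → ℝ),
  (∀ i j, ∑ k, a i k * a j k = if i = j then 1 else 0) →
  MeasurePreserving (fun (g : κ → ℝ) (i : κ') => ∑ k, a i k * g k) (Ga κ) (Ga κ')

/-! number theory -/

/-- the covariance is logarithmic -/
def S_NTG : Prop := ∃ C : ℝ, 0 < C ∧ ∀ (u v σ τ : ℝ), 2 ≤ u → u ≤ v → |σ| * Real.log v ≤ 16 →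
  |τ| ≤ 1 → |τ| * Real.log u ≤ 2 →
  |CS (PrS u v) σ τ - Real.log ((Real.log v / Real.log u) / max 1 (|τ| * Real.log v))| ≤ C

/-- large primes do not see distances that are not too large -/
def S_NTH : Prop := ∃ A0 : ℕ, ∃ C : ℝ, 0 < C ∧ ∀ (u v σ τ : ℝ), 2 ≤ u → u ≤ v →
  |σ| * Real.log v ≤ 16 → 1 ≤ |τ| → (Real.log (|τ| + 3)) ^ A0 ≤ Real.log u →
  |CS (PrS u v) σ τ| ≤ C

/-! the standard Gaussian random walk -/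

/-- Harris inequality -/
def S_HAR : Prop := ∀ (n : ℕ) (f h : (Fin n → ℝ) → ℝ), Measurable f → Measurable h →
  Antitone f → Antitone h → (∀ g, 0 ≤ f g) → (∀ g, 0 ≤ h g) → (∀ g, h g ≤ 1) →
  Integrable f (Ga (Fin n)) →
  (∫ g, f g ∂Ga (Fin n)) * (∫ g, h g ∂Ga (Fin n)) ≤ ∫ g, f g * h g ∂Ga (Fin n)

/-- the walk stays below x + b up to time n -/
def St (n m : ℕ) (x : ℝ) (b : ℕ → ℝ) : Set (Fin n → ℝ) :=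
  {g | ∀ j : ℕ, 1 ≤ j → j ≤ m → ps g j ≤ x + b j}

/-- optional stopping, upper bound, nondecreasing barrier -/
def S_OPT : Prop := ∃ C0 : ℝ, 0 < C0 ∧ ∀ (n : ℕ) (x : ℝ) (b : ℕ → ℝ), 0 ≤ x → 0 ≤ b 0 →
  Monotone b →
  ∫ g : Fin n → ℝ, Set.indicator (St n n x b) (fun g => x + b n - ps g n) g ∂Ga (Fin n) ≤
    x + b 0 + C0 + ∑ j ∈ Finset.range n, (b (j + 1) - b j) * (Ga (Fin n)).real (St n j x b)

/-- optional stopping for a constant barrier: first and second moment -/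
def S_OPL : Prop := ∀ (n : ℕ) (x : ℝ), 0 ≤ x →
  x ≤ ∫ g : Fin n → ℝ, Set.indicator (St n n x (fun _ => 0)) (fun g => x - ps g n) g
    ∂Ga (Fin n) ∧
  ∫ g : Fin n → ℝ, Set.indicator (St n n x (fun _ => 0)) (fun g => (x - ps g n) ^ 2) g
    ∂Ga (Fin n) ≤ x ^ 2 + ∑ j ∈ Finset.range n, (Ga (Fin n)).real (St n j x (fun _ => 0))

/-- one sided ballot bound with logarithmic boundary and small slope -/
def S_BL1 : Prop := ∀ A : ℝ, 0 ≤ A → ∃ C : ℝ, 0 < C ∧ ∀ (n : ℕ) (x δ : ℝ), 1 ≤ n → 0 ≤ x →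
  0 ≤ δ → δ * Real.sqrt n ≤ 1 →
  (Ga (Fin n)).real (St n n x (fun j => δ * j + A * Real.log (1 + j))) ≤
    C * (1 + x) / Real.sqrt n

/-- the sum and the centred increments are independent -/
def S_PIN : Prop := ∀ (n : ℕ) (h : (Fin n → ℝ) → ENNReal), 1 ≤ n → Measurable h →
  ∫⁻ g : Fin n → ℝ, h g ∂Ga (Fin n) =
    ∫⁻ s : ℝ, (∫⁻ g : Fin n → ℝ, h (fun i => g i - ps g n / n + s / n) ∂Ga (Fin n))
      ∂gaussianReal 0 n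

/-- density of some of the centred increments, the others being conditioned to have the right sum -/
def S_RAT : Prop := ∀ (n : ℕ) (J : Finset (Fin n)) (h : (Fin n → ℝ) → ENNReal), J.Nonempty →
  Measurable h →
  ∫⁻ g : Fin n → ℝ, h (fun i => g i - ps g n / n) ∂Ga (Fin n) =
    ∫⁻ g : Fin n → ℝ, h (fun i => if i ∈ J then g i - (∑ j ∈ J, g j) / J.card -
        (∑ j ∈ Jᶜ, g j) / J.card else g i) *
      ENNReal.ofReal (Real.sqrt ((n : ℝ) / J.card) *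
        Real.exp (-(∑ j ∈ Jᶜ, g j) ^ 2 / (2 * J.card))) ∂Ga (Fin n)

/-- bridge, upper bound -/
def S_BRB : Prop := ∀ A : ℝ, 0 ≤ A → ∃ C : ℝ, 0 < C ∧ ∀ (n : ℕ) (x a : ℝ), 1 ≤ n → 0 ≤ x →
  0 ≤ a → (Ga (Fin n)).real {g | ∀ j : ℕ, 1 ≤ j → j < n →
    ps g j - (j : ℝ) / n * ps g n ≤ x * (1 - (j : ℝ) / n) + a * ((j : ℝ) / n) +
      A * Real.log (1 + min (j : ℝ) (n - j))} ≤ C * (1 + x) * (1 + a) / n

/-- ballot bound with end point -/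
def S_BRG : Prop := ∀ A : ℝ, 0 ≤ A → ∃ C : ℝ, 0 < C ∧ ∀ (n : ℕ) (x : ℝ) (ψ : ℕ → ℝ), 1 ≤ n →
  0 ≤ x →
  (∀ j : ℕ, 1 ≤ j → j ≤ n → (j : ℝ) / n * ψ n - A * Real.log (1 + min (j : ℝ) (n - j)) ≤ ψ j) →
  ∀ h : ℝ → ENNReal, Measurable h →
  ∫⁻ g : Fin n → ℝ, Set.indicator {g : Fin n → ℝ | ∀ j : ℕ, 1 ≤ j → j ≤ n → ps g j ≤ x - ψ j}
      (fun g => h (ps g n)) g ∂Ga (Fin n) ≤
    ∫⁻ s in Set.Iic (x - ψ n), ENNReal.ofReal (C * (1 + x) * (1 + (x - ψ n - s)) / n) * h s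
      ∂gaussianReal 0 n

/-- one sided lower bound with position -/
def S_BLO : Prop := ∀ M : ℝ, 1 ≤ M → ∃ c D : ℝ, ∃ n0 : ℕ, 0 < c ∧ M ≤ D ∧
  ∀ (n : ℕ) (x : ℝ), n0 ≤ n → 1 / M ≤ x → x ≤ M * Real.sqrt n →
  c * (1 + x) / Real.sqrt n ≤ (Ga (Fin n)).real (St n n x (fun _ => 0) ∩
    {g | M * Real.sqrt n ≤ x - ps g n ∧ x - ps g n ≤ D * Real.sqrt n})

/-- bridge, lower bound -/
def S_BLB : Prop := ∀ M : ℝ, 1 ≤ M → ∃ c : ℝ, ∃ n0 : ℕ, 0 < c ∧ 1 ≤ n0 ∧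
  ∀ (n : ℕ) (x a : ℝ), n0 ≤ n → 1 / M ≤ x → x ≤ M * Real.sqrt n → 1 / M ≤ a →
  a ≤ M * Real.sqrt n →
  c * (1 + x) * (1 + a) / n ≤ (Ga (Fin n)).real {g | ∀ j : ℕ, 1 ≤ j → j < n →
    ps g j - (j : ℝ) / n * ps g n ≤ x * (1 - (j : ℝ) / n) + a * ((j : ℝ) / n)}

/-- ballot lower bound with end point, linear barrier -/
def S_BLW : Prop := ∀ M : ℝ, 1 ≤ M → ∃ c : ℝ, ∃ n0 : ℕ, 0 < c ∧ 1 ≤ n0 ∧
  ∀ (n : ℕ) (x ψ : ℝ), n0 ≤ n → 1 / M ≤ x → x ≤ M * Real.sqrt n →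
  ∀ h : ℝ → ENNReal, Measurable h →
  ∫⁻ s in Set.Icc (x - ψ - M * Real.sqrt n) (x - ψ - 1 / M),
      ENNReal.ofReal (c * (1 + x) * (1 + (x - ψ - s)) / n) * h s ∂gaussianReal 0 n ≤
    ∫⁻ g : Fin n → ℝ, Set.indicator {g : Fin n → ℝ | ∀ j : ℕ, 1 ≤ j → j ≤ n →
      ps g j ≤ x - (j : ℝ) / n * ψ} (fun g => h (ps g n)) g ∂Ga (Fin n)

/-! branching random walk -/

/-- covariance of the branching random walk -/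
def S_CVB : Prop := ∀ (be : ℝ) (K : ℕ), (∀ c c' : Fin (2 ^ K),
  ∑ k, mB be K c k * mB be K c' k ≤ be ^ 2 * (K * vv - Real.log (dl c c'))) ∧
  ∀ c : Fin (2 ^ K), ∑ k, mB be K c k ^ 2 = be ^ 2 * (K * vv)

/-- covariance of the cosine window field -/
def S_CVC : Prop := ∃ C : ℝ, 0 ≤ C ∧ ∀ (be : ℝ) (K B : ℕ),
  (∀ i i' : Fin B × Fin (2 ^ K), i.1 = i'.1 →
    be ^ 2 * (K * vv - Real.log (dl i.2 i'.2) - C) ≤ ∑ k, mC be K B i k * mC be K B i' k) ∧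
  (∀ i i' : Fin B × Fin (2 ^ K), 0 ≤ ∑ k, mC be K B i k * mC be K B i' k) ∧
  ∀ i : Fin B × Fin (2 ^ K), ∑ k, mC be K B i k ^ 2 = be ^ 2 * (K * vv)

/-- first violation of the barrier, summed over the levels -/
def S_TBV : Prop := ∃ C c : ℝ, 0 < C ∧ 0 < c ∧ ∀ (K : ℕ) (x : ℝ), 0 ≤ x →
  ∑ r ∈ Finset.Icc 1 K, ∫⁻ g : Fin r → ℝ,
    Set.indicator {g : Fin r → ℝ | (∀ j : ℕ, 1 ≤ j → j < r → sv * ps g j ≤ x - psi K j) ∧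
      x - psi K r < sv * ps g r}
      (fun g => ENNReal.ofReal (Real.exp (-(Real.sqrt 2 * sv * ps g r)))) g ∂Ga (Fin r) ≤
    ENNReal.ofReal (C * (1 + x) * Real.exp (-(Real.sqrt 2 * x)) *
      Real.exp (-c * x ^ 2 / (K + 1)))

/-- mass at the end without violation of the barrier -/
def S_TBE : Prop := ∀ ε : ℝ, 0 < ε → ∃ C c : ℝ, 0 < C ∧ 0 < c ∧ ∀ (K : ℕ) (x : ℝ), 0 ≤ x →
  ∫⁻ g : Fin K → ℝ,
    Set.indicator {g : Fin K → ℝ | ∀ j : ℕ, 1 ≤ j → j ≤ K → sv * ps g j ≤ x - psi K j}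
      (fun g => ENNReal.ofReal (Real.exp (-(Real.sqrt 2 * sv * ps g K) +
        (Real.sqrt 2 + ε) * (sv * ps g K - (x - psi K K))))) g ∂Ga (Fin K) ≤
    ENNReal.ofReal (C * (1 + x) * Real.exp (-(Real.sqrt 2 * x)) *
      (Real.exp (-c * x ^ 2 / (K + 1)) + Real.exp (-c * x)))

/-- soft tail of the branching random walk -/
def S_TB : Prop := ∀ be : ℝ, Real.sqrt 2 < be → ∃ C c : ℝ, 0 < C ∧ 0 < c ∧
  ∀ (K : ℕ) (p : Fin (2 ^ K) → ℝ) (x : ℝ), (∀ i, 0 ≤ p i) → (∀ i, p i ≤ 1) → 0 ≤ x →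
  TR (mB be K) p (typ be K * Real.exp (be * x)) ≤
    C * (1 + x) * Real.exp (-(Real.sqrt 2 * x)) *
      (Real.exp (-c * x ^ 2 / (K + 1)) + Real.exp (-c * x))

/-! cosine window field, lower bound -/

/-- first moment of the leaf event -/
def S_LFM : Prop := ∃ c C : ℝ, ∃ K0 : ℕ, 0 < c ∧ 0 < C ∧ ∀ (K : ℕ) (x : ℝ), K0 ≤ K → 0 ≤ x →
  x ≤ Real.sqrt K →
  c * (1 + x) * Real.exp (-(Real.sqrt 2 * x)) ≤ 2 ^ K * (Ga (Fin K)).real (Ek K x) ∧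
  2 ^ K * (Ga (Fin K)).real (Ek K x) ≤ C * (1 + x) * Real.exp (-(Real.sqrt 2 * x))

/-- pair functional summed over the branching level -/
def S_LSM : Prop := ∃ C : ℝ, 0 < C ∧ ∀ (K : ℕ) (x : ℝ), 1 ≤ K → 0 ≤ x →
  ∑ r ∈ Finset.Icc 1 K, (2 : ℝ) ^ (2 * K - r) * Qk K r x ≤
    C * (1 + x) * Real.exp (-(Real.sqrt 2 * x))

/-- the increments of the cosine window field along the leaf i -/
noncomputable def inc (K B : ℕ) (i : Fin B × Fin (2 ^ K)) (g : Fin B × Fin K × Fin (2 ^ K + 1) → ℝ) :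
    Fin K → ℝ := fun r => ∑ k : Fin (2 ^ K + 1), mCn (1 / sv) K i.2 r k * g (i.1, r, k)

/-- path of one leaf, and the pair bound -/
def S_LPB : Prop := ∀ (K B : ℕ), 1 ≤ K →
  (∀ i : Fin B × Fin (2 ^ K), MeasurePreserving (inc K B i) (Ga _) (Ga (Fin K))) ∧
  (∀ (be : ℝ) (i : Fin B × Fin (2 ^ K)) (g : Fin B × Fin K × Fin (2 ^ K + 1) → ℝ),
    ∑ k, mC be K B i k * g k = be * (sv * ps (inc K B i g) K)) ∧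
  (∀ (i i' : Fin B × Fin (2 ^ K)) (x x' : ℝ), i.1 ≠ i'.1 → 0 ≤ x → 0 ≤ x' →
    (Ga _).real (inc K B i ⁻¹' Ek K x ∩ inc K B i' ⁻¹' Ek K x') =
      (Ga (Fin K)).real (Ek K x) * (Ga (Fin K)).real (Ek K x')) ∧
  (∀ (i i' : Fin B × Fin (2 ^ K)) (x x' : ℝ) (r : ℕ), i.1 = i'.1 → 0 ≤ x → 0 ≤ x' → 1 ≤ r →
    r ≤ K → (2 : ℝ) ^ (K + 1 - r : ℕ) ≤ |((i.2 : ℕ) : ℝ) - ((i'.2 : ℕ) : ℝ)| →
    (Ga _).real (inc K B i ⁻¹' Ek K x ∩ inc K B i' ⁻¹' Ek K x') ≤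
      (Qk K r x + Qk K r x') / 2)

/-- lower bound for the soft tail of the cosine window field -/
def S_LT : Prop := ∀ be : ℝ, Real.sqrt 2 < be → ∃ c : ℝ, ∃ K0 : ℕ, 0 < c ∧ ∀ (K B : ℕ), K0 ≤ K →
  ∀ (p : Fin B × Fin (2 ^ K) → ℝ) (lam : ℝ) (L : Finset (Fin B × Fin (2 ^ K)))
    (x : Fin B × Fin (2 ^ K) → ℝ), (∀ i, 0 ≤ p i) → 0 < lam →
  (∀ i ∈ L, 0 ≤ x i ∧ x i ≤ Real.sqrt K ∧ lam ≤ p i * (typ be K * Real.exp (be * x i))) →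
  c * min 1 (∑ i ∈ L, (1 + x i) * Real.exp (-(Real.sqrt 2 * x i)) / 2 ^ K) ≤
    TR (mC be K B) p lam

/-! single blocks of the prime field -/

/-- upper bound for one block -/
def S_PUB : Prop := ∀ (γ : ℝ) (p0 : ℕ), Good γ p0 → 1 < al γ → ∃ C c : ℝ, 0 < C ∧ 0 < c ∧
  ∀ (u y σ s x : ℝ), (p0 : ℝ) ≤ u → u ≤ y → |σ| * Real.log y ≤ 8 → 0 ≤ x →
  ∫ ω : Om, ft (Real.exp ((2 * al γ - 1) * Real.log (Real.log y / Real.log u)) *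
      (1 + Real.log (Real.log y / Real.log u)) ^ (-(3 * al γ / 2)) *
      Real.exp (2 * al γ * x))
    (Real.log u * ∫ t in Set.Ioc s (s + 1 / Real.log u), ‖F γ (PrS u y) σ t ω‖ ^ 2) ∂P ≤
  C * (1 + x) * Real.exp (-2 * x) *
    (Real.exp (-c * x ^ 2 / (1 + Real.log (Real.log y / Real.log u))) + Real.exp (-c * x))

/-- depth of the model for the primes between u and y -/
noncomputable def Kd (u y : ℝ) : ℕ := ⌊Real.log (Real.log y / Real.log u) / vv⌋₊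

/-- lower bound for several blocks with weight function -/
def S_PLB : Prop := ∀ (γ : ℝ) (p0 : ℕ), Good γ p0 → 1 < al γ → ∃ c : ℝ, ∃ K0 A0 : ℕ, 0 < c ∧
  ∀ (u y σ lam : ℝ) (B : ℕ) (s : Fin B → ℝ) (w : ℝ → ℝ)
    (L : Finset (Fin B × Fin (2 ^ Kd u y))) (x : Fin B × Fin (2 ^ Kd u y) → ℝ),
  (p0 : ℝ) ≤ u → u ≤ y → |σ| * Real.log y ≤ 8 → K0 ≤ Kd u y → 0 < lam → Continuous w →
  (∀ t, 0 ≤ w t) →
  (∀ b b' : Fin B, b ≠ b' → 2 / Real.log u ≤ |s b - s b'| ∧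
    (Real.log (|s b - s b'| + 4)) ^ A0 ≤ Real.log u) →
  (∀ i ∈ L, 0 ≤ x i ∧ x i ≤ Real.sqrt (Kd u y) ∧
    lam ≤ (∫ t in Set.Ioc (s i.1 + ((i.2 : ℕ) : ℝ) * (1 / Real.log u / 2 ^ Kd u y))
        (s i.1 + (((i.2 : ℕ) : ℝ) + 1) * (1 / Real.log u / 2 ^ Kd u y)), w t) *
      (typ (Real.sqrt 2 * al γ) (Kd u y) * Real.exp (Real.sqrt 2 * al γ * x i))) →
  c * min 1 (∑ i ∈ L, (1 + x i) * Real.exp (-(Real.sqrt 2 * x i)) / 2 ^ Kd u y) ≤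
    ∫ ω : Om, ft lam (∑ b : Fin B, ∫ t in Set.Ioc (s b) (s b + 1 / Real.log u),
      w t * ‖F γ (PrS u y) σ t ω‖ ^ 2) ∂P

/-! trunk model -/

/-- moment of the partition function of one cosine window field -/
noncomputable def VM (be : ℝ) (n : ℕ) (q : ℝ) : ENNReal :=
  ∫⁻ g, ENNReal.ofReal ((ZG (mC be n 1) (fun _ => 1) g) ^ q) ∂Ga _

/-- moments of the partition function -/
def S_VMO : Prop := ∀ be q : ℝ, Real.sqrt 2 < be → 0 < q → be * q ≤ Real.sqrt 2 →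
  ∃ c C : ℝ, ∃ K0 : ℕ, 0 < c ∧ 0 < C ∧ ∀ K : ℕ,
  (K0 ≤ K → ENNReal.ofReal (c * typ be K ^ q * (if be * q = Real.sqrt 2 then (K : ℝ) + 1 else 1)) ≤
    VM be K q) ∧
  VM be K q ≤ ENNReal.ofReal (C * typ be K ^ q * (if be * q = Real.sqrt 2 then (K : ℝ) + 1 else 1))

/-- contribution of piece j of the trunk model -/
noncomputable def uT (be : ℝ) (K : ℕ) (j : Fin K)
    (g : (Fin K ⊕ (Fin K × Fin K × Fin (2 ^ K + 1))) → ℝ) : ℝ :=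
  ∑ c : Fin (2 ^ K), pT K (j, c) * Real.exp (∑ k, mT be K (j, c) k * g k)

/-- moments of the pieces: exact factorisation -/
def S_TRX : Prop := ∀ (be : ℝ) (K : ℕ), 0 < be →
  (∀ (j : Fin K) (a : ℝ), (j : ℕ) + 3 ≤ K → 0 < a →
    ∫⁻ g, ENNReal.ofReal (uT be K j g ^ a) ∂Ga _ =
      ENNReal.ofReal ((4 : ℝ) ^ (a * (j : ℕ)) * Real.exp (be ^ 2 * vv / 2 * (a ^ 2 * (j : ℕ)))) *
        VM be (K - j - 2) a) ∧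
  (∀ (j j' : Fin K) (a a' : ℝ), (j : ℕ) < j' → (j' : ℕ) + 3 ≤ K → 0 < a → 0 < a' →
    ∫⁻ g, ENNReal.ofReal (uT be K j g ^ a * uT be K j' g ^ a') ∂Ga _ =
      ENNReal.ofReal ((4 : ℝ) ^ (a * (j : ℕ) + a' * (j' : ℕ)) *
        Real.exp (be ^ 2 * vv / 2 * ((a + a') ^ 2 * (j : ℕ) + a' ^ 2 * ((j' : ℕ) - (j : ℕ) : ℝ)))) *
        (VM be (K - j - 2) a * VM be (K - j' - 2) a'))

/-- lower bound for the moment of the trunk model on the critical line of parameters -/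
def S_TRM : Prop := ∀ be q : ℝ, Real.sqrt 2 < be → 0 < q → be * q ≤ Real.sqrt 2 →
  2 + be ^ 2 * q / 2 = Real.sqrt 2 * be → ∃ c : ℝ, ∃ K0 : ℕ, 0 < c ∧ ∀ K : ℕ, K0 ≤ K →
  ENNReal.ofReal (c * Real.exp (Real.sqrt 2 * be * vv * q * K) *
    ∑ n ∈ Finset.Icc 1 K, (n : ℝ) ^ (-(be * q * c0) + (if be * q = Real.sqrt 2 then 1 else 0))) ≤
  ∫⁻ g, ENNReal.ofReal (ZG (mT be K) (pT K) g ^ q) ∂Ga _

/-! moments of the mean square of the prime field -/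

/-- exponent of the logarithm -/
noncomputable def ex (α p : ℝ) : ℝ := -(3 * α * p / 4) + (if α * p = 2 then 1 else 0)

/-- lower bound on the critical line of parameters -/
def S_TRP : Prop := ∀ (γ p : ℝ) (p0 : ℕ), Good γ p0 → 1 < al γ → 0 < p → p ≤ 1 →
  al γ * p ≤ 2 → (al γ) ^ 2 * p / 4 = al γ - 1 → ∃ c y0 : ℝ, 0 < c ∧ Real.exp 3 ≤ y0 ∧
  ∀ y : ℝ, y0 ≤ y →
  c * (Real.log y) ^ (p * (al γ - 1)) *
      ∑ n ∈ Finset.Icc 1 ⌊Real.log (Real.log y)⌋₊, (n : ℝ) ^ ex (al γ) p ≤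
    ∫ ω : Om, (JF γ (PrS p0 y) (1 / Real.log y) ω / Real.log y) ^ (p / 2) ∂P

/-- lower bound in the open window -/
def S_CLW : Prop := ∀ (γ p : ℝ) (p0 : ℕ), Good γ p0 → 1 < al γ → 0 < p → p ≤ 1 →
  ∃ c y0 : ℝ, 0 < c ∧ Real.exp 3 ≤ y0 ∧ ∀ y : ℝ, y0 ≤ y →
  c * (Real.log y) ^ (p * (al γ - 1)) * (Real.log (Real.log y)) ^ (-(3 * al γ * p / 4)) ≤
    ∫ ω : Om, (JF γ (PrS p0 y) (1 / Real.log y) ω / Real.log y) ^ (p / 2) ∂P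

/-- second moment of the field of small primes, gamma = 1 -/
def S_DSM : Prop := ∀ p0 : ℕ, Good 1 p0 → ∃ C : ℝ, 0 < C ∧ ∀ (u σ : ℝ) (k k' : ℕ),
  (p0 : ℝ) + 1 ≤ u → |σ| * Real.log u ≤ 8 → Real.log (Real.log u) ≤ k →
  Real.log (Real.log u) ≤ k' →
  ∫ t in Set.Ioc (Real.exp k) (Real.exp (k + 1)), ∫ t' in Set.Ioc (Real.exp k') (Real.exp (k' + 1)),
    (∫ ω : Om, ‖F 1 (PrS p0 u) σ t ω‖ * ‖F 1 (PrS p0 u) σ t' ω‖ ∂P) / (t * t') ≤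
  C * (Real.log u) ^ 2

/-- lower bound for gamma = 1, p < 1 -/
def S_DLW : Prop := ∀ (p : ℝ) (p0 : ℕ), Good 1 p0 → 0 < p → p < 1 →
  ∃ c y0 : ℝ, 0 < c ∧ Real.exp 3 ≤ y0 ∧ ∀ y : ℝ, y0 ≤ y →
  c * (Real.log y) ^ p * (Real.log (Real.log y)) ^ (-(p / 2)) ≤
    ∫ ω : Om, (JF 1 (PrS p0 y) (1 / Real.log y) ω / Real.log y) ^ (p / 2) ∂P

/-- upper bound for the part at height at most exp (n+1) / log y -/
def S_MNB : Prop := ∀ (γ p : ℝ), 0 < p → p ≤ 1 → 1 < al γ → al γ * p ≤ 2 →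
  ∀ p0 : ℕ, Good γ p0 → ∃ C : ℝ, 0 < C ∧ ∀ (y σ : ℝ) (n : ℕ),
  (p0 : ℝ) + 1 ≤ y → 1 ≤ 4 * |σ| * Real.log y → |σ| * Real.log y ≤ 2 →
  (n : ℝ) ≤ Real.log (Real.log y) →
  ∫ ω : Om, (Real.log y * Real.exp (-2 * n) *
      ∫ t in Set.Icc (-(Real.exp (n + 1) / Real.log y)) (Real.exp (n + 1) / Real.log y),
        ‖F γ (PrS p0 y) σ t ω‖ ^ 2) ^ (p / 2) ∂P ≤
    C * (Real.log y * Real.exp (-n)) ^ ((al γ) ^ 2 * p ^ 2 / 4) *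
      Real.exp (p * (al γ - 1) * n) * ((n : ℝ) + 1) ^ ex (al γ) p

/-- upper bound for the part above height 1, supercritical, below 2 -/
def S_OUA : Prop := ∀ (γ p : ℝ), 0 < p → p ≤ 1 → 1 < al γ → al γ < 2 →
  ∀ p0 : ℕ, Good γ p0 → ∃ C : ℝ, 0 < C ∧ ∀ (y σ : ℝ),
  (p0 : ℝ) + 1 ≤ y → 1 ≤ 4 * |σ| * Real.log y → |σ| * Real.log y ≤ 2 →
  ∫ ω : Om, ((∫ t in {t : ℝ | 1 < |t|}, ‖F γ (PrS p0 y) σ t ω‖ ^ 2 / (σ ^ 2 + t ^ 2)) /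
      Real.log y) ^ (p / 2) ∂P ≤
    C * (Real.log y) ^ (p * (al γ - 1)) * (Real.log (Real.log y)) ^ (-(3 * al γ * p / 4))

/-- the same for gamma = 1 -/
def S_OUB : Prop := ∀ p : ℝ, 0 < p → p ≤ 1 → ∀ p0 : ℕ, Good 1 p0 → ∃ C : ℝ, 0 < C ∧
  ∀ (y σ : ℝ), (p0 : ℝ) + 1 ≤ y → 1 ≤ 4 * |σ| * Real.log y → |σ| * Real.log y ≤ 2 →
  ∫ ω : Om, ((∫ t in {t : ℝ | 1 < |t|}, ‖F 1 (PrS p0 y) σ t ω‖ ^ 2 / (σ ^ 2 + t ^ 2)) /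
      Real.log y) ^ (p / 2) ∂P ≤
    C * (Real.log y) ^ p * (if p = 1 then 1 else (Real.log (Real.log y)) ^ (-(p / 2)))

/-- upper bound in the open window -/
def S_JUC : Prop := ∀ (γ p : ℝ), 0 < p → p ≤ 1 → 1 < al γ → al γ < 2 →
  (al γ) ^ 2 * p / 4 < al γ - 1 → ∀ p0 : ℕ, Good γ p0 → ∃ C : ℝ, 0 < C ∧ ∀ (y σ : ℝ),
  (p0 : ℝ) + 1 ≤ y → 1 ≤ 4 * |σ| * Real.log y → |σ| * Real.log y ≤ 2 →
  ∫ ω : Om, (JF γ (PrS p0 y) σ ω / Real.log y) ^ (p / 2) ∂P ≤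
    C * (Real.log y) ^ (p * (al γ - 1)) * (Real.log (Real.log y)) ^ (-(3 * al γ * p / 4))

/-- upper bound on the critical line of parameters -/
def S_JUB : Prop := ∀ (γ p : ℝ), 0 < p → p ≤ 1 → 1 < al γ → al γ * p ≤ 2 →
  (al γ) ^ 2 * p / 4 = al γ - 1 → ∀ p0 : ℕ, Good γ p0 → ∃ C : ℝ, 0 < C ∧ ∀ (y σ : ℝ),
  (p0 : ℝ) + 1 ≤ y → 1 ≤ 4 * |σ| * Real.log y → |σ| * Real.log y ≤ 2 →
  ∫ ω : Om, (JF γ (PrS p0 y) σ ω / Real.log y) ^ (p / 2) ∂P ≤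
    C * (Real.log y) ^ (p * (al γ - 1)) *
      ∑ n ∈ Finset.Icc 1 (⌊Real.log (Real.log y)⌋₊ + 1), (n : ℝ) ^ ex (al γ) p

/-- upper bound for gamma = 1, p < 1 -/
def S_JUD : Prop := ∀ p : ℝ, 0 < p → p < 1 → ∀ p0 : ℕ, Good 1 p0 → ∃ C : ℝ, 0 < C ∧
  ∀ (y σ : ℝ), (p0 : ℝ) + 1 ≤ y → 1 ≤ 4 * |σ| * Real.log y → |σ| * Real.log y ≤ 2 →
  ∫ ω : Om, (JF 1 (PrS p0 y) σ ω / Real.log y) ^ (p / 2) ∂P ≤
    C * (Real.log y) ^ p * (Real.log (Real.log y)) ^ (-(p / 2))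

/-- sums of powers -/
def S_SUM : Prop := ∀ e : ℝ, ∃ c C : ℝ, 0 < c ∧ 0 < C ∧ ∀ m : ℝ, 1 ≤ m →
  c * (if e < -1 then 1 else if e = -1 then Real.log (m + 1) else m ^ (e + 1)) ≤
    ∑ n ∈ Finset.Icc 1 ⌊m⌋₊, (n : ℝ) ^ e ∧
  ∑ n ∈ Finset.Icc 1 (⌊m⌋₊ + 1), (n : ℝ) ^ e ≤
    C * (if e < -1 then 1 else if e = -1 then Real.log (m + 1) else m ^ (e + 1))

end PN
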