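import Pool.Agent.H31.PM.Tools
import Pool.Agent.H24.PN.Stmts

/-! The part of the mean square near the height exp n / log y, supercritical case. The large prime
factor is estimated by PUB and MOT. -/

set_option autoImplicit false

namespace PN
open MeasureTheory Complex PM PM.T31

/-- the majorant of the first factor -/
private theorem man_one (hCIR : S_CIR) (γ p : ℝ) (hp0 : 0 < p) (hp1 : p ≤ 1) (p0 : ℕ)
    (hg : Good γ p0) : ∃ C : ℝ, 0 < C ∧ ∀ (y σ : ℝ) (n : ℕ), (p0 : ℝ) + 1 ≤ y →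
    |σ| * Real.log y ≤ 2 → (n : ℝ) ≤ Real.log (Real.log y) →
    ∃ u : ℝ, (p0 : ℝ) ≤ u ∧ u ≤ y ∧ Real.log y ≤ Real.exp n * Real.log u ∧
      Real.exp n * Real.log u ≤ Real.log y * Real.log p0 ∧
      ∃ U1 : Om → ℝ, Measurable U1 ∧ (∃ B : ℝ, ∀ ω, 0 ≤ U1 ω ∧ U1 ω ≤ B) ∧
      (∀ ω ω' : Om, (∀ l ∈ {l : ℕ | (l : ℝ) ≤ u}, ω l = ω' l) → U1 ω = U1 ω') ∧
      (∀ t ∈ Set.Icc (-(Real.exp (n + 1) / Real.log y)) (Real.exp (n + 1) / Real.log y),
        ∀ ω, ‖F γ (PrS p0 u) σ t ω‖ ^ p ≤ U1 ω) ∧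
      ∫ ω, U1 ω ∂P ≤ C * (Real.log y * Real.exp (-n)) ^ ((al γ) ^ 2 * p ^ 2 / 4) := by
  obtain ⟨C2, hC2, hC⟩ := hCIR γ p0 hg 2
  refine ⟨C2 + 1, by positivity, ?_⟩
  intro y σ n hy hσ hn
  have hp0' : 4 * Real.exp 16 ≤ (p0 : ℝ) := hg.1
  have he16 := Real.exp_pos 16
  have hp00 : 0 < (p0 : ℝ) := by linarith
  have hlp : 16 < Real.log p0 := by
    rw [Real.lt_log_iff_exp_lt hp00]
    linarith
  have hy0 : 0 < y := by linarith
  have hlpy : Real.log p0 ≤ Real.log y := Real.log_le_log hp00 (by linarith)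
  set Y := Real.log y with hY
  have hY16 : 16 < Y := by linarith
  have hYpos : 0 < Y := by linarith
  set L := Y * Real.exp (-n) with hL
  have hen : Real.exp n ≤ Y := by
    rw [← Real.le_log_iff_exp_le hYpos]
    exact hn
  have hL1 : 1 ≤ L := by
    rw [hL, Real.exp_neg, ← div_eq_mul_inv, one_le_div (Real.exp_pos _)]
    exact hen
  have hLY : L ≤ Y := by
    rw [hL]
    have : Real.exp (-(n:ℝ)) ≤ 1 := Real.exp_le_one_iff.2 (by simp)
    nlinarith
  have hLe : L * Real.exp n = Y := by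
    rw [hL, mul_assoc, ← Real.exp_add]; simp
  have hexp0 : 0 ≤ (al γ) ^ 2 * p ^ 2 / 4 := by positivity
  by_cases hcase : Real.exp L ≤ p0
  · -- trivial first factor
    have hempty : PrS (p0 : ℝ) p0 = ∅ := by
      rw [Finset.eq_empty_iff_forall_notMem]
      intro l hl
      have := mem_prs hl hp00.le
      linarith [this.2.1, this.2.2]
    refine ⟨p0, le_rfl, by linarith, ?_, mul_le_mul_of_nonneg_right hen (by linarith), fun _ => 1, measurable_const, ⟨1, fun _ => ⟨zero_le_one, le_rfl⟩⟩,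
      fun _ _ _ => rfl, ?_, ?_⟩
    · have h1 : L ≤ Real.log p0 := by
        rw [Real.le_log_iff_exp_le hp00]
        exact hcase
      rw [← hLe, mul_comm]
      exact mul_le_mul_of_nonneg_left h1 (Real.exp_pos _).le
    · intro t _ ω
      rw [hempty]
      unfold F
      simp
    · have h1 : (1:ℝ) ≤ L ^ ((al γ) ^ 2 * p ^ 2 / 4) := Real.one_le_rpow hL1 hexp0
      simp only [integral_const, probReal_univ, smul_eq_mul, mul_one]
      nlinarith
  · push Not at hcase
    have hR : 0 < Real.exp (n + 1) / Y := by positivity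
    have hul : Real.log (Real.exp L) = L := Real.log_exp L
    have huy : Real.exp L ≤ y := by
      rw [← Real.le_log_iff_exp_le hy0]
      exact hLY
    have hcond : (|σ| + 2 * (Real.exp (n + 1) / Y)) * Real.log (Real.exp L) ≤ 8 := by
      rw [hul]
      have e1 : Real.exp (n + 1) / Y * L = Real.exp 1 := by
        rw [hL, Real.exp_add, Real.exp_neg]
        have := Real.exp_pos (n:ℝ)
        field_simp
      have e2 : |σ| * L ≤ 2 := le_trans (mul_le_mul_of_nonneg_left hLY (abs_nonneg _)) hσ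
      have e3 := Real.exp_one_lt_d9
      nlinarith
    obtain ⟨k1, k2, k3, -, k5⟩ := hC p0 (Real.exp L) p σ 0 (Real.exp (n + 1) / Y) le_rfl hcase.le hR
      hcond hp0 (by linarith)
    refine ⟨Real.exp L, hcase.le, huy, ?_, ?_, U γ (PrS p0 (Real.exp L)) p σ 0 (Real.exp (n + 1) / Y), k1, k2,
      ?_, ?_, ?_⟩
    · rw [hul, mul_comm, hLe]
    · rw [hul, mul_comm, hLe]
      nlinarith
    · intro ω ω' h
      apply U_dep
      intro l hl
      exact h l (mem_prs hl (Real.exp_pos _).le).2.2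
    · intro t ht ω
      apply k3
      have : |t| ≤ Real.exp (n + 1) / Y := abs_le.2 ht
      have h2 : t ^ 2 ≤ (Real.exp (n + 1) / Y) ^ 2 := by
        rw [← sq_abs t]
        exact pow_le_pow_left₀ (abs_nonneg _) this 2
      simpa using h2
    · refine k5.trans ?_
      rw [hul]
      have h1 : (L / Real.log p0) ^ ((al γ) ^ 2 * p ^ 2 / 4) ≤ L ^ ((al γ) ^ 2 * p ^ 2 / 4) := by
        apply Real.rpow_le_rpow (by positivity) _ hexp0
        rw [div_le_iff₀ (by linarith)]
        nlinarith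
      have h2 : 0 ≤ L ^ ((al γ) ^ 2 * p ^ 2 / 4) := by positivity
      nlinarith

/-- covering of an interval by blocks -/
private theorem block_sum {g : ℝ → ℝ} (hg : Continuous g) (a δ : ℝ) (hδ : 0 < δ) (M : ℕ) (b : ℝ)
    (hb : b ≤ a + M * δ) (h0 : ∀ t, 0 ≤ g t) :
    ∫ t in Set.Icc a b, g t ≤ ∑ j ∈ Finset.range M, ∫ t in Set.Ioc (a + j * δ) (a + j * δ + δ), g t := by
  have hii : ∀ x y : ℝ, IntervalIntegrable g volume x y := fun x y => hg.intervalIntegrable x y
  have h1 : ∀ n : ℕ, ∑ j ∈ Finset.range n, ∫ t in Set.Ioc (a + j * δ) (a + j * δ + δ), g t =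
      ∫ t in a..(a + n * δ), g t := by
    intro n
    induction n with
    | zero => simp
    | succ n ih =>
      rw [Finset.sum_range_succ, ih, ← intervalIntegral.integral_of_le (by linarith)]
      have e : a + ((n + 1 : ℕ) : ℝ) * δ = a + n * δ + δ := by push_cast; ring
      rw [e, intervalIntegral.integral_add_adjacent_intervals (hii _ _) (hii _ _)]
  rw [h1]
  have hM : a ≤ a + M * δ := by
    have : (0 : ℝ) ≤ M * δ := by positivity
    linarith
  rw [intervalIntegral.integral_of_le hM, ← integral_Icc_eq_integral_Ioc]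
  exact setIntegral_mono_set (hg.continuousOn.integrableOn_Icc)
    (Filter.Eventually.of_forall fun t => h0 t) (Set.Icc_subset_Icc_right hb).eventuallyLE

private theorem mnb_e1 {α p N n : ℝ} (hα : 0 ≤ α) (hp : 0 ≤ p) (h : N ≤ n) :
    Real.exp ((N - 2 * n) * (p / 2)) * Real.exp ((α - 1 / 2) * p * N) ≤
      Real.exp (p * (α - 1) * n) := by
  rw [← Real.exp_add]
  apply Real.exp_le_exp.2
  have e : (N - 2 * n) * (p / 2) + (α - 1 / 2) * p * N = p * (α * N - n) := by ring
  rw [e]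
  have h1 : α * N ≤ α * n := mul_le_mul_of_nonneg_left h hα
  have h2 : p * (α * N - n) ≤ p * (α * n - n) := mul_le_mul_of_nonneg_left (by linarith) hp
  have e3 : p * (α - 1) * n = p * (α * n - n) := by ring
  rw [e3]
  exact h2

private theorem mnb_e2 {N n l : ℝ} (e : ℝ) (hN : 0 ≤ N) (h : N ≤ n) (hl : 0 ≤ l) (h2 : n - l ≤ N) :
    (1 + N) ^ e ≤ (1 + l) ^ |e| * (n + 1) ^ e := by
  rcases le_total 0 e with he | he
  · have h1 : (1 + N) ^ e ≤ (n + 1) ^ e :=
      Real.rpow_le_rpow (by linarith) (by linarith) he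
    have h2 : 1 ≤ (1 + l) ^ |e| := Real.one_le_rpow (by linarith) (abs_nonneg _)
    have h3 : 0 ≤ (n + 1) ^ e := Real.rpow_nonneg (by linarith) _
    calc (1 + N) ^ e ≤ (n + 1) ^ e := h1
      _ = 1 * (n + 1) ^ e := (one_mul _).symm
      _ ≤ _ := mul_le_mul_of_nonneg_right h2 h3
  · rw [abs_of_nonpos he]
    have h1 : (n + 1) / (1 + l) ≤ 1 + N := by
      rw [div_le_iff₀ (by linarith)]
      nlinarith
    have h2 : (1 + N) ^ e ≤ ((n + 1) / (1 + l)) ^ e :=
      Real.rpow_le_rpow_of_nonpos (div_pos (by linarith) (by linarith)) h1 he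
    refine h2.trans (le_of_eq ?_)
    rw [Real.div_rpow (by linarith) (by linarith), Real.rpow_neg (by linarith), div_eq_mul_inv,
      mul_comm]

/-- the mean of the second factor -/
private theorem mnb_two (hPUB : S_PUB) (hMOT : S_MOT) (hCONT : S_CONT) (γ p : ℝ) (hp0 : 0 < p)
    (hp1 : p ≤ 1) (hα1 : 1 < al γ) (hαp : al γ * p ≤ 2) (p0 : ℕ)
    (hg : Good γ p0) : ∃ C : ℝ, 0 < C ∧ ∀ (y σ : ℝ) (n : ℕ) (u : ℝ), (p0 : ℝ) + 1 ≤ y →
    |σ| * Real.log y ≤ 2 → (p0 : ℝ) ≤ u → u ≤ y →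
    Real.log y ≤ Real.exp n * Real.log u → Real.exp n * Real.log u ≤ Real.log y * Real.log p0 →
    ∫ ω : Om, (Real.log y * Real.exp (-2 * n) *
      ∫ t in Set.Icc (-(Real.exp (n + 1) / Real.log y)) (Real.exp (n + 1) / Real.log y),
        ‖F γ (PrS u y) σ t ω‖ ^ 2) ^ (p / 2) ∂P ≤
      C * (Real.exp (p * (al γ - 1) * n) * ((n : ℝ) + 1) ^ ex (al γ) p) := by
  obtain ⟨C1, c1, hC1, hc1, hP⟩ := hPUB γ p0 hg hα1
  obtain ⟨C2, hC2, hM⟩ := hMOT 2 (2 * al γ) (p / 2) C1 c1 two_pos (by linarith) (by linarith) hC1 hc1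
    (by linarith)
  have hp0' : 4 * Real.exp 16 ≤ (p0 : ℝ) := hg.1
  have he16 := Real.exp_pos 16
  have hp00 : 0 < (p0 : ℝ) := by linarith
  have hlp : 16 < Real.log p0 := by
    rw [Real.lt_log_iff_exp_lt hp00]
    linarith
  have hLLp : 0 < Real.log (Real.log p0) := Real.log_pos (by linarith)
  refine ⟨(6 * Real.log p0 + 1) * C2 * (1 + Real.log (Real.log p0)) ^ |ex (al γ) p|, by positivity, ?_⟩
  intro y σ n u hy hσ hu huy hlog hlog2
  set α := al γ with hαdef
  have hα : 0 < α := by linarith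
  have hy0 : 0 < y := by linarith
  have hu0 : 0 < u := by linarith
  have hlpy : Real.log p0 ≤ Real.log y := Real.log_le_log hp00 (by linarith)
  have hlu : Real.log p0 ≤ Real.log u := Real.log_le_log hp00 hu
  have hluy : Real.log u ≤ Real.log y := Real.log_le_log hu0 huy
  set Y := Real.log y with hY
  have hYpos : 0 < Y := by linarith
  have hlu0 : 0 < Real.log u := by linarith
  have hσ8 : |σ| * Y ≤ 8 := by linarith
  have hsmall : |σ| < 1 / 2 := by
    by_contra hc
    push Not at hc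
    nlinarith
  have hprime : ∀ l ∈ PrS u y, l.Prime := fun l hl => (mem_prs hl hy0.le).1
  set R := Real.exp (n + 1) / Y with hR
  have hRpos : 0 < R := by positivity
  have hFc := F_cont hCONT γ (PrS u y) hprime (σ := σ) (by linarith [(abs_lt.1 hsmall).1])
  have hF2 : Continuous (fun q : Om × ℝ => ‖F γ (PrS u y) σ q.2 q.1‖ ^ 2) := hFc.norm.pow 2
  have hgc : ∀ ω : Om, Continuous (fun t => ‖F γ (PrS u y) σ t ω‖ ^ 2) := by
    intro ω
    have h1 : Continuous (fun t : ℝ => ((ω, t) : Om × ℝ)) := by fun_prop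
    exact (hFc.comp h1).norm.pow 2
  -- the ratio of the logarithms
  set Nn := Real.log (Y / Real.log u) with hNn
  have hratio : 1 ≤ Y / Real.log u := by rw [one_le_div hlu0]; exact hluy
  have hNn0 : 0 ≤ Nn := Real.log_nonneg hratio
  have hexpN : Real.exp Nn = Y / Real.log u := Real.exp_log (by positivity)
  have hNn_le : Nn ≤ n := by
    rw [hNn, Real.log_le_iff_le_exp (by positivity), div_le_iff₀ hlu0]
    exact hlog
  have hNn_ge : (n : ℝ) - Real.log (Real.log p0) ≤ Nn := by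
    have h1 : Real.exp n ≤ Real.exp Nn * Real.log p0 := by
      rw [hexpN, div_mul_eq_mul_div, le_div_iff₀ hlu0]
      exact hlog2
    have h2 : (n : ℝ) ≤ Nn + Real.log (Real.log p0) := by
      have h3 : Real.exp (Real.log (Real.log p0)) = Real.log p0 := Real.exp_log (by linarith)
      rw [← Real.exp_le_exp, Real.exp_add, h3]
      exact h1
    linarith
  -- the blocks
  set δ := 1 / Real.log u with hδ
  have hδ0 : 0 < δ := by positivity
  set M : ℕ := ⌈2 * R * Real.log u⌉₊ with hM'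
  have hM1 : 2 * R * Real.log u ≤ M := Nat.le_ceil _
  have hM2 : (M : ℝ) ≤ 6 * Real.log p0 + 1 := by
    have h1 := (Nat.ceil_lt_add_one (by positivity : 0 ≤ 2 * R * Real.log u)).le
    have h2 : R * Real.log u ≤ 3 * Real.log p0 := by
      have e : R * Real.log u = Real.exp 1 * (Real.exp n * Real.log u) / Y := by
        rw [hR, Real.exp_add]
        ring
      rw [e, div_le_iff₀ hYpos]
      have h3 : Real.exp 1 ≤ 3 := by linarith [Real.exp_one_lt_d9]
      have h4 : 0 ≤ Real.exp n * Real.log u := by positivity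
      nlinarith
    linarith
  let W : ℕ → Om → ℝ := fun j ω => Real.log u *
    ∫ t in Set.Ioc (-R + j * δ) (-R + j * δ + δ), ‖F γ (PrS u y) σ t ω‖ ^ 2
  have hWc : ∀ j, Continuous (W j) := by
    intro j
    have h1 : Continuous (fun ω : Om => ∫ t in Set.Icc (-R + j * δ) (-R + j * δ + δ),
        ‖F γ (PrS u y) σ t ω‖ ^ 2) :=
      continuous_parametric_integral_of_continuous (f := fun (ω : Om) (t : ℝ) =>
        ‖F γ (PrS u y) σ t ω‖ ^ 2) hF2 isCompact_Icc
    have h2 : W j = fun ω => Real.log u * ∫ t in Set.Icc (-R + j * δ) (-R + j * δ + δ),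
        ‖F γ (PrS u y) σ t ω‖ ^ 2 := by
      funext ω
      simp only [W]
      rw [integral_Icc_eq_integral_Ioc]
    rw [h2]
    exact continuous_const.mul h1
  have hW0 : ∀ j ω, 0 ≤ W j ω := fun j ω => mul_nonneg hlu0.le
    (integral_nonneg fun t => by positivity)
  have hWB : ∀ j, ∃ B : ℝ, ∀ ω, W j ω ≤ B := by
    intro j
    obtain ⟨B, hB⟩ := (isCompact_univ (X := Om)).exists_bound_of_continuousOn (hWc j).continuousOn
    refine ⟨B, fun ω => ?_⟩
    have := hB ω (Set.mem_univ _)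
    rw [Real.norm_eq_abs] at this
    exact (le_abs_self _).trans this
  -- the moment of one block
  have hT0 : 0 < Real.exp ((2 * α - 1) * Nn) * (1 + Nn) ^ (-(3 * α / 2)) := by positivity
  have hmom : ∀ j, ∫ ω, W j ω ^ (p / 2) ∂P ≤
      C2 * (Real.exp ((α - 1 / 2) * p * Nn) * (1 + Nn) ^ ex α p) := by
    intro j
    have h1 := hM Om P (W j) (Real.exp ((2 * α - 1) * Nn) * (1 + Nn) ^ (-(3 * α / 2))) (1 + Nn)
      (hWc j).measurable (hW0 j) hT0 (by linarith) (by
        intro x hx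
        exact hP u y σ (-R + j * δ) x hu huy hσ8 hx)
    have hmeas : Measurable (fun ω => W j ω ^ (p / 2)) := (hWc j).measurable.pow_const _
    obtain ⟨B, hB⟩ := hWB j
    have hint : Integrable (fun ω => W j ω ^ (p / 2)) P :=
      int_of_bd hmeas (fun ω => Real.rpow_nonneg (hW0 j ω) _)
        (fun ω => Real.rpow_le_rpow (hW0 j ω) (hB ω) (by linarith))
    have h2 := ofReal_integral_eq_lintegral_ofReal hint
      (Filter.Eventually.of_forall fun ω => Real.rpow_nonneg (hW0 j ω) _)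
    rw [← h2] at h1
    have h3 : 0 ≤ C2 * (Real.exp ((2 * α - 1) * Nn) * (1 + Nn) ^ (-(3 * α / 2))) ^ (p / 2) *
        (if 2 * α * (p / 2) = 2 then 1 + Nn else 1) := by
      split_ifs <;> positivity
    refine ((ENNReal.ofReal_le_ofReal_iff h3).1 h1).trans (le_of_eq ?_)
    have h4 : (Real.exp ((2 * α - 1) * Nn) * (1 + Nn) ^ (-(3 * α / 2))) ^ (p / 2) =
        Real.exp ((α - 1 / 2) * p * Nn) * (1 + Nn) ^ (-(3 * α * p / 4)) := by
      rw [Real.mul_rpow (Real.exp_pos _).le (by positivity), ← Real.exp_mul,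
        ← Real.rpow_mul (by linarith)]
      congr 1
      · congr 1; ring
      · congr 1; ring
    have h5 : (1 + Nn) ^ (-(3 * α * p / 4)) * (if 2 * α * (p / 2) = 2 then 1 + Nn else 1) =
        (1 + Nn) ^ ex α p := by
      unfold ex
      have e : 2 * α * (p / 2) = α * p := by ring
      rw [e]
      split_ifs with h
      · rw [Real.rpow_add (by linarith), Real.rpow_one]
      · rw [mul_one, add_zero]
    rw [h4, ← h5]
    ring
  -- pointwise bound
  have hk : 0 ≤ Y * Real.exp (-2 * n) := by positivity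
  have hpt : ∀ ω : Om, (Y * Real.exp (-2 * n) *
      ∫ t in Set.Icc (-R) R, ‖F γ (PrS u y) σ t ω‖ ^ 2) ^ (p / 2) ≤
      Real.exp ((Nn - 2 * n) * (p / 2)) * ∑ j ∈ Finset.range M, W j ω ^ (p / 2) := by
    intro ω
    have h1 := block_sum (hgc ω) (-R) δ hδ0 M R (by
      have : 2 * R ≤ M * δ := by
        rw [hδ, mul_one_div, le_div_iff₀ hlu0]
        exact hM1
      linarith) (fun t => by positivity)
    have h2 : Y * Real.exp (-2 * n) * ∫ t in Set.Icc (-R) R, ‖F γ (PrS u y) σ t ω‖ ^ 2 ≤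
        Real.exp (Nn - 2 * n) * ∑ j ∈ Finset.range M, W j ω := by
      refine (mul_le_mul_of_nonneg_left h1 hk).trans (le_of_eq ?_)
      simp only [W]
      rw [← Finset.mul_sum, ← mul_assoc]
      congr 1
      rw [show Nn - 2 * (n : ℝ) = Nn + (-2 * n) by ring, Real.exp_add, hexpN]
      field_simp
    have h3 := Real.rpow_le_rpow (mul_nonneg hk (integral_nonneg fun t => by positivity)) h2
      (by positivity : (0:ℝ) ≤ p / 2)
    have hS0 : 0 ≤ ∑ j ∈ Finset.range M, W j ω := Finset.sum_nonneg fun j _ => hW0 j ω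
    rw [Real.mul_rpow (x := Real.exp (Nn - 2 * n)) (Real.exp_pos _).le hS0, ← Real.exp_mul] at h3
    refine h3.trans ?_
    apply mul_le_mul_of_nonneg_left _ (Real.exp_pos _).le
    exact rpow_sum_le _ _ (fun j _ => hW0 j ω) (by linarith) (by linarith)
  have hintj : ∀ j, Integrable (fun ω => W j ω ^ (p / 2)) P := by
    intro j
    obtain ⟨B, hB⟩ := hWB j
    have hmeas : Measurable (fun ω => W j ω ^ (p / 2)) := (hWc j).measurable.pow_const _
    exact int_of_bd hmeas (fun ω => Real.rpow_nonneg (hW0 j ω) _)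
      (fun ω => Real.rpow_le_rpow (hW0 j ω) (hB ω) (by linarith))
  have hint : Integrable (fun ω => Real.exp ((Nn - 2 * n) * (p / 2)) *
      ∑ j ∈ Finset.range M, W j ω ^ (p / 2)) P :=
    (integrable_finsetSum _ fun j _ => hintj j).const_mul _
  have hfin : ∫ ω : Om, (Y * Real.exp (-2 * n) *
      ∫ t in Set.Icc (-R) R, ‖F γ (PrS u y) σ t ω‖ ^ 2) ^ (p / 2) ∂P ≤
      Real.exp ((Nn - 2 * n) * (p / 2)) * (M * (C2 * (Real.exp ((α - 1 / 2) * p * Nn) *
        (1 + Nn) ^ ex α p))) := by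
    calc _ ≤ ∫ ω, Real.exp ((Nn - 2 * n) * (p / 2)) * ∑ j ∈ Finset.range M, W j ω ^ (p / 2) ∂P := by
          apply integral_mono_of_nonneg _ hint (Filter.Eventually.of_forall hpt)
          refine Filter.Eventually.of_forall fun ω => ?_
          apply Real.rpow_nonneg
          exact mul_nonneg hk (integral_nonneg fun t => by positivity)
      _ = Real.exp ((Nn - 2 * n) * (p / 2)) * ∑ j ∈ Finset.range M, ∫ ω, W j ω ^ (p / 2) ∂P := by
          rw [integral_const_mul, integral_finsetSum _ fun j _ => hintj j]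
      _ ≤ _ := by
          apply mul_le_mul_of_nonneg_left _ (Real.exp_pos _).le
          calc ∑ j ∈ Finset.range M, ∫ ω, W j ω ^ (p / 2) ∂P ≤
              ∑ j ∈ Finset.range M, C2 * (Real.exp ((α - 1 / 2) * p * Nn) * (1 + Nn) ^ ex α p) :=
                Finset.sum_le_sum fun j _ => hmom j
            _ = _ := by rw [Finset.sum_const, Finset.card_range, nsmul_eq_mul]
  refine hfin.trans ?_
  -- exponents
  have hn0 : (0 : ℝ) ≤ n := Nat.cast_nonneg n
  have e1 := mnb_e1 hα.le hp0.le hNn_le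
  have e2 := mnb_e2 (ex α p) hNn0 hNn_le hLLp.le hNn_ge
  have hX : 0 < Real.exp (p * (α - 1) * n) := Real.exp_pos _
  calc Real.exp ((Nn - 2 * n) * (p / 2)) * (M * (C2 * (Real.exp ((α - 1 / 2) * p * Nn) *
        (1 + Nn) ^ ex α p)))
      = (M * C2) * ((Real.exp ((Nn - 2 * n) * (p / 2)) * Real.exp ((α - 1 / 2) * p * Nn)) *
        (1 + Nn) ^ ex α p) := by ring
    _ ≤ (M * C2) * (Real.exp (p * (α - 1) * n) *
        ((1 + Real.log (Real.log p0)) ^ |ex α p| * ((n : ℝ) + 1) ^ ex α p)) := by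
        apply mul_le_mul_of_nonneg_left _ (by positivity)
        exact mul_le_mul e1 e2 (by positivity) hX.le
    _ ≤ ((6 * Real.log p0 + 1) * C2) * (Real.exp (p * (α - 1) * n) *
        ((1 + Real.log (Real.log p0)) ^ |ex α p| * ((n : ℝ) + 1) ^ ex α p)) := by
        apply mul_le_mul_of_nonneg_right _ (by positivity)
        exact mul_le_mul_of_nonneg_right hM2 hC2.le
    _ = _ := by ring

theorem MNB (hPUB : S_PUB) (hMOT : S_MOT) (hCIR : PM.S_CIR) (hIND : PM.S_IND)
    (hCONT : PM.S_CONT) : S_MNB := by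
  intro γ p hp0 hp1 hα1 hαp p0 hg
  obtain ⟨C1, hC1, hA⟩ := man_one hCIR γ p hp0 hp1 p0 hg
  obtain ⟨C2, hC2, hB⟩ := mnb_two hPUB hMOT hCONT γ p hp0 hp1 hα1 hαp p0 hg
  refine ⟨C1 * C2, by positivity, ?_⟩
  intro y σ n hy hσ1 hσ hn
  obtain ⟨u, hu, huy, hlog, hlog2, U1, m1, ⟨B1, b1⟩, d1, f1, i1⟩ := hA y σ n hy hσ hn
  have h2 := hB y σ n u hy hσ hu huy hlog hlog2
  have hp0' : 4 * Real.exp 16 ≤ (p0 : ℝ) := hg.1
  have he16 := Real.exp_pos 16
  have hp00 : 0 < (p0 : ℝ) := by linarith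
  have hlp : 16 < Real.log p0 := by
    rw [Real.lt_log_iff_exp_lt hp00]
    linarith
  have hy0 : 0 < y := by linarith
  have hlpy : Real.log p0 ≤ Real.log y := Real.log_le_log hp00 (by linarith)
  set Y := Real.log y with hY
  have hYpos : 0 < Y := by linarith
  have hsmall : |σ| < 1 / 2 := by
    by_contra hc
    push Not at hc
    nlinarith
  have hprime : ∀ l ∈ PrS u y, l.Prime := fun l hl => (mem_prs hl hy0.le).1
  set R := Real.exp (n + 1) / Y with hR
  have hFc := F_cont hCONT γ (PrS u y) hprime (σ := σ) (by linarith [(abs_lt.1 hsmall).1])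
  have hF2 : Continuous (fun q : Om × ℝ => ‖F γ (PrS u y) σ q.2 q.1‖ ^ 2) := hFc.norm.pow 2
  have hX : Continuous (fun ω : Om => ∫ t in Set.Icc (-R) R, ‖F γ (PrS u y) σ t ω‖ ^ 2) :=
    continuous_parametric_integral_of_continuous (f := fun (ω : Om) (t : ℝ) =>
      ‖F γ (PrS u y) σ t ω‖ ^ 2) hF2 isCompact_Icc
  have hX0 : ∀ ω, 0 ≤ ∫ t in Set.Icc (-R) R, ‖F γ (PrS u y) σ t ω‖ ^ 2 :=
    fun ω => integral_nonneg fun t => by positivity
  have hk : 0 ≤ Y * Real.exp (-2 * n) := by positivity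
  let V : Om → ℝ := fun ω => (Y * Real.exp (-2 * n) *
    ∫ t in Set.Icc (-R) R, ‖F γ (PrS u y) σ t ω‖ ^ 2) ^ (p / 2)
  have hVc : Continuous V := (continuous_const.mul hX).rpow_const (fun _ => Or.inr (by positivity))
  have hV0 : ∀ ω, 0 ≤ V ω := fun ω => Real.rpow_nonneg (mul_nonneg hk (hX0 ω)) _
  obtain ⟨B, hB3⟩ := (isCompact_univ (X := Om)).exists_bound_of_continuousOn hVc.continuousOn
  have hVB : ∀ ω, V ω ≤ B := by
    intro ω
    have := hB3 ω (Set.mem_univ _)
    rw [Real.norm_eq_abs] at this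
    exact (le_abs_self _).trans this
  have hind := hIND {l : ℕ | (l : ℝ) ≤ u} U1 V m1 hVc.measurable (fun ω => (b1 ω).1) hV0 d1 (by
    intro ω ω' h
    simp only [V]
    have e : ∀ t, F γ (PrS u y) σ t ω = F γ (PrS u y) σ t ω' := by
      intro t
      apply F_dep
      intro l hl
      apply h
      have := (mem_prs hl hy0.le).2.1
      intro hc
      have hc' : (l : ℝ) ≤ u := hc
      linarith
    simp_rw [e])
  have hpt : ∀ ω, (Y * Real.exp (-2 * n) *
      ∫ t in Set.Icc (-R) R, ‖F γ (PrS p0 y) σ t ω‖ ^ 2) ^ (p / 2) ≤ U1 ω * V ω := by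
    intro ω
    have hU0 := (b1 ω).1
    have h3 : ∫ t in Set.Icc (-R) R, ‖F γ (PrS p0 y) σ t ω‖ ^ 2 ≤
        ∫ t in Set.Icc (-R) R, U1 ω ^ (2 / p) * ‖F γ (PrS u y) σ t ω‖ ^ 2 := by
      have hgc : Continuous (fun t => ‖F γ (PrS u y) σ t ω‖ ^ 2) := by
        have h1 : Continuous (fun t : ℝ => ((ω, t) : Om × ℝ)) := by fun_prop
        exact (hFc.comp h1).norm.pow 2
      apply integral_mono_of_nonneg
      · exact Filter.Eventually.of_forall fun t => by positivity
      · exact ((continuous_const.mul hgc).continuousOn).integrableOn_Icc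
      · filter_upwards [ae_restrict_mem measurableSet_Icc] with t ht
        rw [F_split γ hp00.le hu huy, norm_mul, mul_pow]
        apply mul_le_mul_of_nonneg_right _ (by positivity)
        have h4 := Real.rpow_le_rpow (by positivity) (f1 t ht ω) (by positivity : (0:ℝ) ≤ 2 / p)
        rw [← Real.rpow_mul (norm_nonneg _)] at h4
        have e : p * (2 / p) = 2 := by field_simp
        rw [e, Real.rpow_two] at h4
        exact h4
    rw [integral_const_mul] at h3
    have h4 : Y * Real.exp (-2 * n) * ∫ t in Set.Icc (-R) R, ‖F γ (PrS p0 y) σ t ω‖ ^ 2 ≤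
        U1 ω ^ (2 / p) * (Y * Real.exp (-2 * n) *
          ∫ t in Set.Icc (-R) R, ‖F γ (PrS u y) σ t ω‖ ^ 2) := by
      calc _ ≤ Y * Real.exp (-2 * n) * (U1 ω ^ (2 / p) *
          ∫ t in Set.Icc (-R) R, ‖F γ (PrS u y) σ t ω‖ ^ 2) := mul_le_mul_of_nonneg_left h3 hk
        _ = _ := by ring
    have h5 := Real.rpow_le_rpow (mul_nonneg hk (integral_nonneg fun t => by positivity)) h4
      (by positivity : (0:ℝ) ≤ p / 2)
    rw [Real.mul_rpow (Real.rpow_nonneg hU0 _) (mul_nonneg hk (hX0 ω)), ← Real.rpow_mul hU0] at h5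
    have e : 2 / p * (p / 2) = 1 := by field_simp
    rw [e, Real.rpow_one] at h5
    exact h5
  have hint : Integrable (fun ω => U1 ω * V ω) P := by
    refine int_of_bd (m1.mul hVc.measurable) (B := B1 * B)
      (fun ω => mul_nonneg (b1 ω).1 (hV0 ω)) (fun ω => ?_)
    exact mul_le_mul (b1 ω).2 (hVB ω) (hV0 ω) ((b1 ω).1.trans (b1 ω).2)
  calc ∫ ω : Om, (Y * Real.exp (-2 * n) *
        ∫ t in Set.Icc (-R) R, ‖F γ (PrS p0 y) σ t ω‖ ^ 2) ^ (p / 2) ∂P
      ≤ ∫ ω, U1 ω * V ω ∂P := by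
        apply integral_mono_of_nonneg _ hint (Filter.Eventually.of_forall hpt)
        refine Filter.Eventually.of_forall fun ω => ?_
        apply Real.rpow_nonneg
        exact mul_nonneg hk (integral_nonneg fun t => by positivity)
    _ = (∫ ω, U1 ω ∂P) * ∫ ω, V ω ∂P := hind
    _ ≤ (C1 * (Y * Real.exp (-n)) ^ ((al γ) ^ 2 * p ^ 2 / 4)) *
        (C2 * (Real.exp (p * (al γ - 1) * n) * ((n : ℝ) + 1) ^ ex (al γ) p)) := by
        apply mul_le_mul i1 h2 (integral_nonneg hV0) (by positivity)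
    _ = _ := by ring

end PN
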