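import Pool.Agent.H24.PN.Stmts

set_option autoImplicit false

namespace PN
open MeasureTheory Complex ProbabilityTheory PM

namespace MOTaux

/-- an exponential beats a square -/
lemma exp_sq {c y : ℝ} (hc : 0 < c) (hy : 0 ≤ y) :
    Real.exp (-(c * y)) ≤ (2 + 4 / c ^ 2) / (1 + y) ^ 2 := by
  have h1 : 1 + c * y + (c * y) ^ 2 / 2 ≤ Real.exp (c * y) :=
    Real.quadratic_le_exp_of_nonneg (by positivity)
  rw [Real.exp_neg, inv_eq_one_div, div_le_div_iff₀ (Real.exp_pos _) (by positivity)]
  have h2 : (1 + y) ^ 2 ≤ (2 + 4 / c ^ 2) * (1 + c * y + (c * y) ^ 2 / 2) := by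
    have h3 : (2 + 4 / c ^ 2) * (1 + c * y + (c * y) ^ 2 / 2) =
        2 + 2 * (c * y) + (c * y) ^ 2 + 4 / c ^ 2 + 4 * y / c + 2 * y ^ 2 := by
      field_simp
      ring
    rw [h3]
    have : 0 ≤ 2 * (c * y) + (c * y) ^ 2 + 4 / c ^ 2 + 4 * y / c := by positivity
    nlinarith [sq_nonneg (1 - y)]
  have h4 : 0 ≤ 2 + 4 / c ^ 2 := by positivity
  calc 1 * (1 + y) ^ 2 ≤ (2 + 4 / c ^ 2) * (1 + c * y + (c * y) ^ 2 / 2) := by rw [one_mul]; exact h2
    _ ≤ (2 + 4 / c ^ 2) * Real.exp (c * y) := mul_le_mul_of_nonneg_left h1 h4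

/-- Gaussian sums -/
lemma gsum {c n : ℝ} (hc : 0 < c) (hn : 1 ≤ n) (K : ℕ) :
    ∑ k ∈ Finset.range K, (1 + (k : ℝ)) * Real.exp (-(c * ((k : ℝ) ^ 2 / n))) ≤
      3 * (2 + 4 / c ^ 2) * n := by
  have hn0 : 0 < n := by linarith
  set C3 : ℝ := 2 + 4 / c ^ 2 with hC3
  have hC30 : 0 < C3 := by positivity
  set g : ℕ → ℝ := fun k => 1 / (1 + (k : ℝ) ^ 2 / n) with hg
  have hterm : ∀ k ∈ Finset.range K, (1 + (k : ℝ)) * Real.exp (-(c * ((k : ℝ) ^ 2 / n))) ≤
      3 * C3 * n * (g k - g (k + 1)) := by
    intro k _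
    have hk : (0 : ℝ) ≤ k := Nat.cast_nonneg k
    have h1 := exp_sq hc (y := (k : ℝ) ^ 2 / n) (by positivity)
    rw [← hC3] at h1
    set A : ℝ := 1 + (k : ℝ) ^ 2 / n with hA
    set B : ℝ := 1 + ((k : ℝ) + 1) ^ 2 / n with hB
    have hA0 : 0 < A := by positivity
    have hB0 : 0 < B := by positivity
    have hBA : B ≤ 3 * A := by
      rw [hA, hB]
      have h2 : ((k : ℝ) + 1) ^ 2 / n ≤ (2 * (k : ℝ) ^ 2 + 2) / n := by
        apply div_le_div_of_nonneg_right _ hn0.le
        nlinarith [sq_nonneg ((k : ℝ) - 1)]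
      have h3 : (2 * (k : ℝ) ^ 2 + 2) / n = 2 * ((k : ℝ) ^ 2 / n) + 2 / n := by ring
      have h4 : 2 / n ≤ 2 := div_le_self (by norm_num) hn
      have h5 : 0 ≤ (k : ℝ) ^ 2 / n := by positivity
      linarith
    have hdiff : n * (g k - g (k + 1)) = (2 * (k : ℝ) + 1) / (A * B) := by
      simp only [hg]
      push_cast
      rw [← hA, ← hB, div_sub_div _ _ hA0.ne' hB0.ne', ← mul_div_assoc]
      congr 1
      rw [hA, hB]
      field_simp
      ring
    calc (1 + (k : ℝ)) * Real.exp (-(c * ((k : ℝ) ^ 2 / n))) ≤ (1 + (k : ℝ)) * (C3 / A ^ 2) :=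
          mul_le_mul_of_nonneg_left h1 (by positivity)
      _ ≤ 3 * C3 * ((2 * (k : ℝ) + 1) / (A * B)) := by
          rw [← mul_div_assoc, ← mul_div_assoc, div_le_div_iff₀ (by positivity) (by positivity)]
          have h6 : A * B ≤ 3 * A ^ 2 := by nlinarith
          have h7 : 1 + (k : ℝ) ≤ 2 * k + 1 := by linarith
          have h8 : 0 ≤ A * B := by positivity
          calc (1 + (k : ℝ)) * C3 * (A * B) ≤ (2 * k + 1) * C3 * (3 * A ^ 2) := by
                apply mul_le_mul _ h6 h8 (by positivity)
                exact mul_le_mul_of_nonneg_right h7 hC30.le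
            _ = 3 * C3 * (2 * (k : ℝ) + 1) * A ^ 2 := by ring
      _ = 3 * C3 * n * (g k - g (k + 1)) := by rw [← hdiff]; ring
  calc ∑ k ∈ Finset.range K, (1 + (k : ℝ)) * Real.exp (-(c * ((k : ℝ) ^ 2 / n)))
      ≤ ∑ k ∈ Finset.range K, 3 * C3 * n * (g k - g (k + 1)) := Finset.sum_le_sum hterm
    _ = 3 * C3 * n * (g 0 - g K) := by rw [← Finset.mul_sum, Finset.sum_range_sub']
    _ ≤ 3 * C3 * n := by
        have h1 : g 0 = 1 := by simp [hg]
        have h2 : 0 ≤ g K := by
          simp only [hg]
          positivity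
        have h3 : 0 ≤ 3 * C3 * n := by positivity
        calc 3 * C3 * n * (g 0 - g K) ≤ 3 * C3 * n * 1 := by
              apply mul_le_mul_of_nonneg_left _ h3
              rw [h1]
              linarith
          _ = 3 * C3 * n := mul_one _

/-- exponential sums -/
lemma esum {a : ℝ} (ha : 0 < a) : ∃ S : ℝ, 0 ≤ S ∧ ∀ K : ℕ,
    ∑ k ∈ Finset.range K, (1 + (k : ℝ)) * Real.exp (-(a * k)) ≤ S := by
  have h1 := Real.summable_pow_mul_exp_neg_nat_mul 1 ha
  have h0 := Real.summable_pow_mul_exp_neg_nat_mul 0 ha
  have hs : Summable fun k : ℕ => (1 + (k : ℝ)) * Real.exp (-(a * k)) := by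
    refine (h0.add h1).congr fun k => ?_
    rw [pow_zero, pow_one, neg_mul]
    ring
  refine ⟨∑' k : ℕ, (1 + (k : ℝ)) * Real.exp (-(a * k)), tsum_nonneg fun k => by positivity,
    fun K => hs.sum_le_tsum _ fun k _ => by positivity⟩

/-- Markov inequality for the soft tail -/
lemma mk {Ω : Type} [MeasurableSpace Ω] (μ : Measure Ω) [IsProbabilityMeasure μ] (Z : Ω → ℝ)
    (hZ : Measurable Z) (hZ0 : ∀ ω, 0 ≤ Z ω) {lam : ℝ} (hlam : 0 < lam) :
    μ {ω | lam ≤ Z ω} ≤ ENNReal.ofReal (2 * ∫ ω, ft lam (Z ω) ∂μ) := by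
  have hnn : ∀ ω, 0 ≤ ft lam (Z ω) := fun ω => by
    unfold ft
    exact div_nonneg (hZ0 ω) (add_nonneg (hZ0 ω) hlam.le)
  have hmf : Measurable fun ω => ft lam (Z ω) := by
    unfold ft
    fun_prop
  have hint : Integrable (fun ω => ft lam (Z ω)) μ := by
    refine Integrable.mono' (integrable_const (1 : ℝ)) hmf.aestronglyMeasurable ?_
    refine Filter.Eventually.of_forall fun ω => ?_
    rw [Real.norm_eq_abs, abs_of_nonneg (hnn ω)]
    unfold ft
    have : 0 < Z ω + lam := by linarith [hZ0 ω]
    rw [div_le_one this]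
    linarith
  rw [← integral_const_mul, ofReal_integral_eq_lintegral_ofReal (hint.const_mul 2)
    (Filter.Eventually.of_forall fun ω => mul_nonneg (by norm_num) (hnn ω))]
  have hms : MeasurableSet {ω | lam ≤ Z ω} := measurableSet_le measurable_const hZ
  rw [← lintegral_indicator_one hms]
  refine lintegral_mono fun ω => ?_
  by_cases hω : ω ∈ {ω | lam ≤ Z ω}
  · rw [Set.indicator_of_mem hω, Pi.one_apply]
    rw [← ENNReal.ofReal_one]
    apply ENNReal.ofReal_le_ofReal
    have hω' : lam ≤ Z ω := hω
    unfold ft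
    have : 0 < Z ω + lam := by linarith
    rw [← mul_div_assoc, one_le_div this]
    linarith
  · rw [Set.indicator_of_notMem hω]
    exact zero_le

/-- the layer decomposition -/
lemma layer {be q T z : ℝ} (hbe : 0 < be) (hq : 0 < q) (hT : 0 < T) (hz : 0 ≤ z) :
    ENNReal.ofReal (z ^ q) ≤ ENNReal.ofReal (T ^ q) + ∑' k : ℕ,
      ENNReal.ofReal (T ^ q * Real.exp (be * q * (k + 1))) *
        (if T * Real.exp (be * k) ≤ z then 1 else 0) := by
  by_cases h : z ≤ T
  · refine le_trans ?_ le_self_add
    exact ENNReal.ofReal_le_ofReal (Real.rpow_le_rpow hz h hq.le)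
  · push Not at h
    have hz0 : 0 < z := hT.trans h
    set k : ℕ := ⌊Real.log (z / T) / be⌋₊ with hk
    have hlog : 0 ≤ Real.log (z / T) := Real.log_nonneg (by rw [one_le_div hT]; exact h.le)
    have h1 : (k : ℝ) ≤ Real.log (z / T) / be := Nat.floor_le (by positivity)
    have h2 : Real.log (z / T) / be < k + 1 := Nat.lt_floor_add_one _
    have h3 : T * Real.exp (be * k) ≤ z := by
      rw [le_div_iff₀ hbe] at h1
      have : Real.exp (be * k) ≤ z / T := by
        rw [← Real.exp_log (div_pos hz0 hT)]
        apply Real.exp_le_exp.mpr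
        linarith
      rw [le_div_iff₀ hT] at this
      linarith
    have h4 : z ≤ T * Real.exp (be * (k + 1)) := by
      rw [div_lt_iff₀ hbe] at h2
      have : z / T ≤ Real.exp (be * (k + 1)) := by
        rw [← Real.exp_log (div_pos hz0 hT)]
        apply Real.exp_le_exp.mpr
        linarith
      rw [div_le_iff₀ hT] at this
      linarith
    refine le_trans ?_ le_add_self
    refine le_trans ?_ (ENNReal.le_tsum k)
    rw [if_pos h3, mul_one]
    apply ENNReal.ofReal_le_ofReal
    calc z ^ q ≤ (T * Real.exp (be * (k + 1))) ^ q := Real.rpow_le_rpow hz h4 hq.le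
      _ = T ^ q * Real.exp (be * q * (k + 1)) := by
          rw [Real.mul_rpow hT.le (Real.exp_pos _).le, ← Real.exp_mul]
          congr 2
          ring

end MOTaux

open MOTaux in
theorem MOT : S_MOT := by
  intro th be q C c hth hbe hq hC hc hle
  -- the bound for the sum over the layers
  obtain ⟨S, hS, hS0⟩ : ∃ S : ℝ, 0 ≤ S ∧ ∀ n : ℝ, 1 ≤ n → ∀ K : ℕ,
      ∑ k ∈ Finset.range K, (1 + (k : ℝ)) * Real.exp (-((th - be * q) * k)) *
        (Real.exp (-c * (k : ℝ) ^ 2 / n) + Real.exp (-c * k)) ≤
      S * (if be * q = th then n else 1) := by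
    by_cases he : be * q = th
    · obtain ⟨S1, h1, h2⟩ := esum hc
      refine ⟨3 * (2 + 4 / c ^ 2) + S1, by positivity, fun n hn K => ?_⟩
      rw [if_pos he]
      have h3 := gsum hc hn K
      have h4 := h2 K
      calc ∑ k ∈ Finset.range K, (1 + (k : ℝ)) * Real.exp (-((th - be * q) * k)) *
            (Real.exp (-c * (k : ℝ) ^ 2 / n) + Real.exp (-c * k))
          = ∑ k ∈ Finset.range K, (1 + (k : ℝ)) * Real.exp (-(c * ((k : ℝ) ^ 2 / n))) +
            ∑ k ∈ Finset.range K, (1 + (k : ℝ)) * Real.exp (-(c * k)) := by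
            rw [← Finset.sum_add_distrib]
            refine Finset.sum_congr rfl fun k _ => ?_
            rw [he, sub_self, zero_mul, neg_zero, Real.exp_zero, mul_one]
            have e1 : -c * (k : ℝ) ^ 2 / n = -(c * ((k : ℝ) ^ 2 / n)) := by ring
            have e2 : -c * (k : ℝ) = -(c * k) := by ring
            rw [e1, e2]
            ring
        _ ≤ 3 * (2 + 4 / c ^ 2) * n + S1 := add_le_add h3 h4
        _ ≤ (3 * (2 + 4 / c ^ 2) + S1) * n := by nlinarith
    · have hlt : 0 < th - be * q := by
        have := lt_of_le_of_ne hle he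
        linarith
      obtain ⟨S1, h1, h2⟩ := esum hlt
      refine ⟨2 * S1, by positivity, fun n hn K => ?_⟩
      rw [if_neg he, mul_one]
      calc ∑ k ∈ Finset.range K, (1 + (k : ℝ)) * Real.exp (-((th - be * q) * k)) *
            (Real.exp (-c * (k : ℝ) ^ 2 / n) + Real.exp (-c * k))
          ≤ ∑ k ∈ Finset.range K, 2 * ((1 + (k : ℝ)) * Real.exp (-((th - be * q) * k))) := by
            refine Finset.sum_le_sum fun k _ => ?_
            have e1 : Real.exp (-c * (k : ℝ) ^ 2 / n) ≤ 1 := by
              rw [Real.exp_le_one_iff]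
              have : 0 ≤ c * (k : ℝ) ^ 2 / n := by positivity
              have e : -c * (k : ℝ) ^ 2 / n = -(c * (k : ℝ) ^ 2 / n) := by ring
              rw [e]
              linarith
            have e2 : Real.exp (-c * (k : ℝ)) ≤ 1 := by
              rw [Real.exp_le_one_iff]
              have : 0 ≤ c * (k : ℝ) := by positivity
              linarith
            have e3 : 0 ≤ (1 + (k : ℝ)) * Real.exp (-((th - be * q) * k)) := by positivity
            nlinarith
        _ = 2 * ∑ k ∈ Finset.range K, (1 + (k : ℝ)) * Real.exp (-((th - be * q) * k)) := by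
            rw [Finset.mul_sum]
        _ ≤ 2 * S1 := by linarith [h2 K]
  refine ⟨1 + 2 * C * Real.exp (be * q) * S, by positivity, ?_⟩
  intro Ω _ μ _ Z T n hZ hZ0 hT hn hft
  have hTq : 0 < T ^ q := Real.rpow_pos_of_pos hT q
  set F : ℝ := if be * q = th then n else 1 with hF
  have hF1 : 1 ≤ F := by
    rw [hF]
    split_ifs
    · exact hn
    · exact le_rfl
  have hms : ∀ k : ℕ, MeasurableSet {ω | T * Real.exp (be * k) ≤ Z ω} := fun k =>
    measurableSet_le measurable_const hZ
  calc ∫⁻ ω, ENNReal.ofReal (Z ω ^ q) ∂μ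
      ≤ ∫⁻ ω, (ENNReal.ofReal (T ^ q) + ∑' k : ℕ,
        ENNReal.ofReal (T ^ q * Real.exp (be * q * (k + 1))) *
          (if T * Real.exp (be * k) ≤ Z ω then 1 else 0)) ∂μ :=
        lintegral_mono fun ω => layer hbe hq hT (hZ0 ω)
    _ = ENNReal.ofReal (T ^ q) + ∑' k : ℕ,
        ENNReal.ofReal (T ^ q * Real.exp (be * q * (k + 1))) *
          μ {ω | T * Real.exp (be * k) ≤ Z ω} := by
        rw [lintegral_add_left measurable_const, lintegral_const, measure_univ, mul_one]
        congr 1
        rw [lintegral_tsum]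
        · refine tsum_congr fun k => ?_
          rw [lintegral_const_mul' _ _ ENNReal.ofReal_ne_top]
          congr 1
          rw [← lintegral_indicator_one (hms k)]
          refine lintegral_congr fun ω => ?_
          by_cases h : T * Real.exp (be * k) ≤ Z ω
          · rw [if_pos h, Set.indicator_of_mem (by exact h)]
            rfl
          · rw [if_neg h, Set.indicator_of_notMem (by exact h)]
        · intro k
          refine Measurable.aemeasurable ?_
          refine Measurable.const_mul ?_ _
          exact Measurable.ite (hms k) measurable_const measurable_const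
    _ ≤ ENNReal.ofReal (T ^ q) + ENNReal.ofReal (T ^ q * (2 * C * Real.exp (be * q) * S) * F) := by
        refine add_le_add le_rfl ?_
        refine ENNReal.tsum_le_of_sum_range_le fun K => ?_
        calc ∑ k ∈ Finset.range K, ENNReal.ofReal (T ^ q * Real.exp (be * q * (k + 1))) *
              μ {ω | T * Real.exp (be * k) ≤ Z ω}
            ≤ ∑ k ∈ Finset.range K, ENNReal.ofReal (T ^ q * (2 * C * Real.exp (be * q)) *
              ((1 + (k : ℝ)) * Real.exp (-((th - be * q) * k)) *
              (Real.exp (-c * (k : ℝ) ^ 2 / n) + Real.exp (-c * k)))) := by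
              refine Finset.sum_le_sum fun k _ => ?_
              have h1 := mk μ Z hZ hZ0 (lam := T * Real.exp (be * k)) (by positivity)
              have h2 := hft k (Nat.cast_nonneg k)
              refine le_trans (mul_le_mul_right h1 _) ?_
              rw [← ENNReal.ofReal_mul (by positivity)]
              apply ENNReal.ofReal_le_ofReal
              calc T ^ q * Real.exp (be * q * (k + 1)) *
                    (2 * ∫ ω, ft (T * Real.exp (be * k)) (Z ω) ∂μ)
                  ≤ T ^ q * Real.exp (be * q * (k + 1)) * (2 * (C * (1 + (k : ℝ)) *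
                    Real.exp (-th * k) * (Real.exp (-c * (k : ℝ) ^ 2 / n) +
                    Real.exp (-c * k)))) := by
                    apply mul_le_mul_of_nonneg_left _ (by positivity)
                    linarith
                _ = _ := by
                    have e1 : Real.exp (be * q * (k + 1)) = Real.exp (be * q) *
                        Real.exp (be * q * k) := by
                      rw [← Real.exp_add]
                      congr 1
                      ring
                    have e2 : Real.exp (-((th - be * q) * k)) = Real.exp (be * q * k) *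
                        Real.exp (-th * k) := by
                      rw [← Real.exp_add]
                      congr 1
                      ring
                    rw [e1, e2]
                    ring
          _ = ENNReal.ofReal (∑ k ∈ Finset.range K, T ^ q * (2 * C * Real.exp (be * q)) *
              ((1 + (k : ℝ)) * Real.exp (-((th - be * q) * k)) *
              (Real.exp (-c * (k : ℝ) ^ 2 / n) + Real.exp (-c * k)))) := by
              rw [ENNReal.ofReal_sum_of_nonneg]
              intro k _
              positivity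
          _ ≤ ENNReal.ofReal (T ^ q * (2 * C * Real.exp (be * q) * S) * F) := by
              apply ENNReal.ofReal_le_ofReal
              rw [← Finset.mul_sum]
              calc T ^ q * (2 * C * Real.exp (be * q)) * _
                  ≤ T ^ q * (2 * C * Real.exp (be * q)) * (S * F) :=
                    mul_le_mul_of_nonneg_left (hS0 n hn K) (by positivity)
                _ = _ := by ring
    _ ≤ ENNReal.ofReal ((1 + 2 * C * Real.exp (be * q) * S) * T ^ q * F) := by
        rw [← ENNReal.ofReal_add hTq.le (by positivity)]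
        apply ENNReal.ofReal_le_ofReal
        have h1 : 0 ≤ T ^ q * (2 * C * Real.exp (be * q) * S) := by positivity
        nlinarith

end PN
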