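import Pool.Agent.H24.PN.Stmts
import Pool.Agent.H24.PM.NTA

namespace PN
open MeasureTheory Complex ProbabilityTheory PM

theorem ntg_near {u v σ τ : ℝ} (hu : 2 ≤ u) (huv : u ≤ v) (hσ : |σ| * Real.log v ≤ 16)
    (hτ : |τ| * Real.log v ≤ 2) :
    |CS (PrS u v) σ τ - CS (PrS u v) σ 0| ≤ 6 * Real.exp 16 := by
  have hv : 2 ≤ v := hu.trans huv
  unfold CS
  rw [← Finset.sum_sub_distrib]
  calc |∑ l ∈ PrS u v, ((l : ℝ) ^ (-(1 + σ)) * Real.cos (τ * Real.log l) -
        (l : ℝ) ^ (-(1 + σ)) * Real.cos (0 * Real.log l))|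
      ≤ ∑ l ∈ PrS u v, |(l : ℝ) ^ (-(1 + σ)) * Real.cos (τ * Real.log l) -
        (l : ℝ) ^ (-(1 + σ)) * Real.cos (0 * Real.log l)| := Finset.abs_sum_le_sum_abs _ _
    _ ≤ ∑ l ∈ PrS u v, Real.exp 16 * |τ| * (Real.log l / l) := by
        refine Finset.sum_le_sum fun l hl => ?_
        rw [h5_mem_PrS (by linarith)] at hl
        have hl0 : (0 : ℝ) < l := by linarith [hl.2.1]
        have hl1 : 0 ≤ Real.log l := Real.log_nonneg (by linarith [hl.2.1])
        have hlv : Real.log l ≤ Real.log v := Real.log_le_log hl0 hl.2.2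
        rw [zero_mul, Real.cos_zero, ← mul_sub, abs_mul,
          abs_of_pos (by positivity : (0 : ℝ) < (l : ℝ) ^ (-(1 + σ)))]
        have h1 : (l : ℝ) ^ (-(1 + σ)) ≤ Real.exp 16 * (1 / l) := by
          rw [neg_add, Real.rpow_add hl0, Real.rpow_neg_one, Real.rpow_def_of_pos hl0 (-σ), mul_comm,
            one_div]
          refine mul_le_mul_of_nonneg_right (Real.exp_le_exp.mpr ?_) (by positivity)
          calc Real.log l * -σ ≤ Real.log l * |σ| :=
                mul_le_mul_of_nonneg_left (neg_le_abs σ) hl1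
            _ ≤ Real.log v * |σ| := mul_le_mul_of_nonneg_right hlv (abs_nonneg σ)
            _ ≤ 16 := by linarith
        have h2 : |Real.cos (τ * Real.log l) - 1| ≤ |τ| * Real.log l := by
          have h3 := Real.one_sub_sq_div_two_le_cos (x := τ * Real.log l)
          have h4 := Real.cos_le_one (τ * Real.log l)
          have h5 : (τ * Real.log l) ^ 2 ≤ 2 * (|τ| * Real.log l) := by
            have h6 : (τ * Real.log l) ^ 2 = (|τ| * Real.log l) * (|τ| * Real.log l) := by
              rw [← sq_abs, abs_mul, abs_of_nonneg hl1]; ring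
            rw [h6]
            refine mul_le_mul_of_nonneg_right ?_ (by positivity)
            exact (mul_le_mul_of_nonneg_left hlv (abs_nonneg τ)).trans hτ
          rw [abs_le]
          constructor <;> nlinarith [abs_nonneg τ]
        calc (l : ℝ) ^ (-(1 + σ)) * |Real.cos (τ * Real.log l) - 1|
            ≤ Real.exp 16 * (1 / l) * (|τ| * Real.log l) :=
              mul_le_mul h1 h2 (abs_nonneg _) (by positivity)
          _ = _ := by ring
    _ = Real.exp 16 * |τ| * ∑ l ∈ PrS u v, Real.log l / l := by rw [Finset.mul_sum]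
    _ ≤ Real.exp 16 * |τ| * (3 * Real.log v) :=
        mul_le_mul_of_nonneg_left (h5_sum_log_PrS (by linarith) hv) (by positivity)
    _ = 3 * Real.exp 16 * (|τ| * Real.log v) := by ring
    _ ≤ 3 * Real.exp 16 * 2 := mul_le_mul_of_nonneg_left hτ (by positivity)
    _ = _ := by ring

theorem NTG (hA : PM.S_NTA) (hC : PM.S_NTC) : S_NTG := by
  obtain ⟨A, hA0, hA⟩ := hA
  obtain ⟨C, hC0, hC⟩ := hC
  refine ⟨A + C + 6 * Real.exp 16 + 1, by positivity, fun u v σ τ hu huv hσ hτ1 hτu => ?_⟩
  have hv : 2 ≤ v := hu.trans huv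
  have hlu : 0 < Real.log u := Real.log_pos (by linarith)
  have hlv : 0 < Real.log v := Real.log_pos (by linarith)
  have hluv : Real.log u ≤ Real.log v := Real.log_le_log (by linarith) huv
  have hE : 0 < Real.exp 16 := Real.exp_pos _
  rcases le_or_gt (|τ| * Real.log v) 1 with h1 | h1
  · rw [max_eq_left h1, div_one]
    have e1 := abs_le.mp (hA u v σ hu huv hσ)
    have e2 := abs_le.mp (ntg_near hu huv hσ (by linarith : |τ| * Real.log v ≤ 2))
    rw [abs_le]
    constructor <;> linarith [e1.1, e1.2, e2.1, e2.2]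
  · have hτ0 : 0 < |τ| := by
      by_contra h
      have : |τ| = 0 := le_antisymm (not_lt.mp h) (abs_nonneg _)
      rw [this, zero_mul] at h1
      linarith
    rw [max_eq_right h1.le]
    have hT : Real.log v / Real.log u / (|τ| * Real.log v) = 1 / (|τ| * Real.log u) := by
      field_simp
    rw [hT]
    rcases le_or_gt (|τ| * Real.log u) 1 with h2 | h2
    · set w := Real.exp (1 / |τ|) with hw
      have hlw : Real.log w = 1 / |τ| := Real.log_exp _
      have huw : u ≤ w := by
        rw [hw, ← Real.log_le_iff_le_exp (by linarith), le_div_iff₀ hτ0]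
        linarith
      have hwv : w ≤ v := by
        rw [hw, ← Real.le_log_iff_exp_le (by linarith), div_le_iff₀ hτ0]
        linarith
      have hw0 : 0 < w := Real.exp_pos _
      have hlwv : Real.log w ≤ Real.log v := Real.log_le_log hw0 hwv
      have hσw : |σ| * Real.log w ≤ 16 :=
        (mul_le_mul_of_nonneg_left hlwv (abs_nonneg σ)).trans hσ
      have hτw : |τ| * Real.log w = 1 := by rw [hlw]; field_simp
      rw [h5_CS_split (by linarith) huw hwv]
      have e1 := abs_le.mp (hA u w σ hu huw hσw)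
      have e2 := abs_le.mp (ntg_near hu huw hσw (by linarith : |τ| * Real.log w ≤ 2))
      have e3 := abs_le.mp (hC w v σ τ (by linarith) hwv hτ1 (by linarith) hσ)
      have e4 : Real.log w / Real.log u = 1 / (|τ| * Real.log u) := by
        rw [hlw]; field_simp
      rw [e4] at e1
      rw [abs_le]
      constructor <;> linarith [e1.1, e1.2, e2.1, e2.2, e3.1, e3.2]
    · have e3 := abs_le.mp (hC u v σ τ hu huv hτ1 h2.le hσ)
      have h3 : 0 ≤ Real.log (|τ| * Real.log u) := Real.log_nonneg h2.le
      have h4 : Real.log (|τ| * Real.log u) ≤ 1 := by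
        have := Real.log_le_sub_one_of_pos (by linarith : 0 < |τ| * Real.log u)
        linarith
      rw [one_div, Real.log_inv, abs_le]
      constructor <;> linarith [e3.1, e3.2]

end PN
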