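import Pool.Agent.H24.PN.Stmts
import Pool.Agent.H24.PM.NTZ
import Pool.Agent.H24.PM.NTA
import Pool.Agent.H24.PM.NTD
import Pool.Agent.H24.PM.NTE
import Pool.Agent.H24.PM.ZAP
import Pool.Agent.H24.PM.H5Tools

/-! Prime sums far out: no contribution of primes above exp((log(|tau|+3))^A0). -/

namespace PN
open MeasureTheory Complex ProbabilityTheory PM Filter Topology

set_option linter.unusedSectionVars false

namespace AuxNTH

/-- the point 1+a+iτ -/
noncomputable def sp (a τ : ℝ) : ℂ := 1 + a + τ * I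

theorem sp_re (a τ : ℝ) : (sp a τ).re = 1 + a := by simp [sp]
theorem sp_im (a τ : ℝ) : (sp a τ).im = τ := by simp [sp]
theorem sp_sub (a b τ : ℝ) : sp a τ = sp b τ - ((b - a : ℝ) : ℂ) := by
  unfold sp; push_cast; ring

theorem sp_ne {a τ : ℝ} (hτ : 1 ≤ |τ|) : sp a τ ≠ 1 := by
  intro h
  have := congrArg Complex.im h
  rw [sp_im] at this
  simp only [one_im] at this
  rw [this] at hτ
  norm_num at hτ

theorem sp_norm1 {a τ : ℝ} (hτ : 1 ≤ |τ|) : 1 ≤ ‖sp a τ - 1‖ := by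
  refine hτ.trans ?_
  have := Complex.abs_im_le_norm (sp a τ - 1)
  rwa [Complex.sub_im, sp_im, one_im, sub_zero] at this

theorem sp_norm {a τ : ℝ} (ha : 0 < a) (ha1 : a ≤ 1) : ‖sp a τ‖ ≤ 2 + |τ| := by
  have h1 : ‖sp a τ‖ ≤ ‖((1 + a : ℝ) : ℂ)‖ + ‖(τ : ℂ) * I‖ := by
    unfold sp
    refine le_trans (le_of_eq ?_) (norm_add_le _ _)
    push_cast; rfl
  rw [norm_mul, Complex.norm_I, mul_one, Complex.norm_real, Complex.norm_real, Real.norm_eq_abs,
    Real.norm_eq_abs, abs_of_pos (by linarith)] at h1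
  linarith

theorem pow_sub_bound {x : ℝ} (hx : 1 ≤ x) (w : ℂ) {t : ℝ} (ht : 0 ≤ t) :
    ‖(x : ℂ) ^ w - (x : ℂ) ^ (w - (t : ℂ))‖ ≤ x ^ w.re * (t * Real.log x) := by
  have hx0 : 0 < x := by linarith
  have hxc : (x : ℂ) ≠ 0 := by exact_mod_cast hx0.ne'
  have hlog : 0 ≤ Real.log x := Real.log_nonneg hx
  have h1 : (x : ℂ) ^ (w - (t : ℂ)) = (x : ℂ) ^ w * ((Real.exp (-(t * Real.log x)) : ℝ) : ℂ) := by
    rw [Complex.cpow_sub _ _ hxc, ← Complex.ofReal_cpow hx0.le, Real.rpow_def_of_pos hx0,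
      div_eq_mul_inv, ← Complex.ofReal_inv, ← Real.exp_neg]
    congr 4
    ring
  have h2 : (x : ℂ) ^ w - (x : ℂ) ^ (w - (t : ℂ)) =
      (x : ℂ) ^ w * ((1 - Real.exp (-(t * Real.log x)) : ℝ) : ℂ) := by
    rw [h1]; push_cast; ring
  have h3 : 0 ≤ t * Real.log x := mul_nonneg ht hlog
  have h4 : Real.exp (-(t * Real.log x)) ≤ 1 := Real.exp_le_one_iff.2 (by linarith)
  have h5 := Real.add_one_le_exp (-(t * Real.log x))
  rw [h2, norm_mul, Complex.norm_cpow_eq_rpow_re_of_pos hx0, Complex.norm_real, Real.norm_eq_abs,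
    abs_of_nonneg (by linarith)]
  exact mul_le_mul_of_nonneg_left (by linarith) (Real.rpow_nonneg hx0.le _)

/-- the comparison function -/
noncomputable def hh (s : ℂ) (x : ℝ) : ℂ := (x : ℂ) ^ (1 - s) / (s - 1)

theorem hh_deriv {s : ℂ} (hs : s ≠ 1) {x : ℝ} (hx : 0 < x) :
    HasDerivAt (hh s) (-(x : ℂ) ^ (-s)) x := by
  have h1 : HasDerivAt (fun y : ℝ => (y : ℂ) ^ (1 - s)) ((1 - s) * (x : ℂ) ^ (1 - s - 1)) x := by
    have := (hasDerivAt_id (x : ℂ)).cpow_const (c := 1 - s) (Or.inl (by simpa using hx))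
    simpa using this.comp_ofReal
  have h2 := h1.div_const (s - 1)
  have hs' : s - 1 ≠ 0 := sub_ne_zero.2 hs
  have e : (1 - s) * (x : ℂ) ^ (1 - s - 1) / (s - 1) = -(x : ℂ) ^ (-s) := by
    rw [show (1 - s - 1 : ℂ) = -s by ring]
    field_simp
    ring
  exact h2.congr_deriv e

theorem pow_deriv (s : ℂ) {x : ℝ} (hx : 0 < x) :
    HasDerivAt (fun y : ℝ => (y : ℂ) ^ (-s)) (-s * (x : ℂ) ^ (-s - 1)) x := by
  have := (hasDerivAt_id (x : ℂ)).cpow_const (c := -s) (Or.inl (by simpa using hx))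
  simpa using this.comp_ofReal

/-- difference of the terms -/
noncomputable def gg (a b τ x : ℝ) : ℂ := (x : ℂ) ^ (-sp a τ) - (x : ℂ) ^ (-sp b τ)

/-- difference of the comparison functions -/
noncomputable def GG (a b τ x : ℝ) : ℂ := hh (sp a τ) x - hh (sp b τ) x

section
variable {a b τ : ℝ} (ha : 0 < a) (hab : a ≤ b) (hb : b ≤ 1) (hτ : 1 ≤ |τ|)
include ha hab hb hτ

theorem gg_norm {x : ℝ} (hx : 1 ≤ x) : ‖gg a b τ x‖ ≤ (b - a) * (Real.log x / x) := by
  unfold gg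
  have h0 : -sp b τ = -sp a τ - ((b - a : ℝ) : ℂ) := by rw [sp_sub a b τ]; ring
  rw [h0]
  refine (pow_sub_bound hx (-sp a τ) (sub_nonneg.2 hab)).trans ?_
  have h1 : x ^ (-sp a τ).re ≤ x ^ (-1 : ℝ) := by
    apply Real.rpow_le_rpow_of_exponent_le hx
    rw [Complex.neg_re, sp_re]; linarith
  rw [Real.rpow_neg_one] at h1
  have h2 : 0 ≤ (b - a) * Real.log x := mul_nonneg (sub_nonneg.2 hab) (Real.log_nonneg hx)
  calc x ^ (-sp a τ).re * ((b - a) * Real.log x) ≤ x⁻¹ * ((b - a) * Real.log x) :=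
        mul_le_mul_of_nonneg_right h1 h2
    _ = _ := by ring

theorem dgg_norm {x : ℝ} (hx : 1 ≤ x) :
    ‖-sp a τ * (x : ℂ) ^ (-sp a τ - 1) - -sp b τ * (x : ℂ) ^ (-sp b τ - 1)‖ ≤
      (b - a) * (2 * (2 + |τ|) + 1) / (x * Real.sqrt x) := by
  have hx0 : 0 < x := by linarith
  have h0 : -sp b τ - 1 = (-sp a τ - 1) - ((b - a : ℝ) : ℂ) := by rw [sp_sub a b τ]; ring
  have h1 : -sp a τ * (x : ℂ) ^ (-sp a τ - 1) - -sp b τ * (x : ℂ) ^ (-sp b τ - 1) =
      -sp a τ * ((x : ℂ) ^ (-sp a τ - 1) - (x : ℂ) ^ ((-sp a τ - 1) - ((b - a : ℝ) : ℂ))) +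
      ((b - a : ℝ) : ℂ) * (x : ℂ) ^ (-sp b τ - 1) := by
    rw [← h0]
    have : sp b τ = sp a τ + ((b - a : ℝ) : ℂ) := by rw [sp_sub a b τ]; ring
    rw [show -sp b τ * (x : ℂ) ^ (-sp b τ - 1) =
      -(sp a τ + ((b - a : ℝ) : ℂ)) * (x : ℂ) ^ (-sp b τ - 1) by rw [← this]]
    ring
  rw [h1]
  refine (norm_add_le _ _).trans ?_
  have h2 := pow_sub_bound hx (-sp a τ - 1) (sub_nonneg.2 hab)
  have e1 : x ^ (-sp a τ - 1).re ≤ x ^ (-2 : ℝ) := by
    apply Real.rpow_le_rpow_of_exponent_le hx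
    rw [Complex.sub_re, Complex.neg_re, sp_re, one_re]; linarith
  have e2 : x ^ (-sp b τ - 1).re ≤ x ^ (-2 : ℝ) := by
    apply Real.rpow_le_rpow_of_exponent_le hx
    rw [Complex.sub_re, Complex.neg_re, sp_re, one_re]; linarith
  have e3 : x ^ (-2 : ℝ) = (x ^ 2)⁻¹ := by
    rw [Real.rpow_neg hx0.le]; norm_num
  rw [e3] at e1 e2
  have hsq : 0 < Real.sqrt x := Real.sqrt_pos.2 hx0
  have hsq1 : 1 ≤ Real.sqrt x := Real.one_le_sqrt.2 hx
  have hss : Real.sqrt x * Real.sqrt x = x := Real.mul_self_sqrt hx0.le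
  have hlog : Real.log x ≤ 2 * Real.sqrt x := by
    have h3 : Real.log x = 2 * Real.log (Real.sqrt x) := by
      rw [Real.log_sqrt hx0.le]; ring
    have h4 := Real.log_le_sub_one_of_pos hsq
    rw [h3]; linarith
  have hlog0 : 0 ≤ Real.log x := Real.log_nonneg hx
  have hba : 0 ≤ b - a := sub_nonneg.2 hab
  have hsn : ‖-sp a τ‖ ≤ 2 + |τ| := by rw [norm_neg]; exact sp_norm ha (hab.trans hb)
  have hn1 : ‖-sp a τ * ((x : ℂ) ^ (-sp a τ - 1) - (x : ℂ) ^ ((-sp a τ - 1) - ((b - a : ℝ) : ℂ)))‖ ≤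
      (2 + |τ|) * ((x ^ 2)⁻¹ * ((b - a) * (2 * Real.sqrt x))) := by
    rw [norm_mul]
    apply mul_le_mul hsn _ (norm_nonneg _) (by positivity)
    refine h2.trans ?_
    apply mul_le_mul e1 _ (mul_nonneg hba hlog0) (by positivity)
    exact mul_le_mul_of_nonneg_left hlog hba
  have hn2 : ‖((b - a : ℝ) : ℂ) * (x : ℂ) ^ (-sp b τ - 1)‖ ≤ (b - a) * ((x ^ 2)⁻¹ * Real.sqrt x) := by
    rw [norm_mul, Complex.norm_real, Real.norm_eq_abs, abs_of_nonneg hba,
      Complex.norm_cpow_eq_rpow_re_of_pos hx0]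
    apply mul_le_mul_of_nonneg_left _ hba
    refine e2.trans ?_
    exact le_mul_of_one_le_right (by positivity) hsq1
  have hfin : (2 + |τ|) * ((x ^ 2)⁻¹ * ((b - a) * (2 * Real.sqrt x))) +
      (b - a) * ((x ^ 2)⁻¹ * Real.sqrt x) = (b - a) * (2 * (2 + |τ|) + 1) / (x * Real.sqrt x) := by
    have e4 : (x ^ 2)⁻¹ * Real.sqrt x = 1 / (x * Real.sqrt x) := by
      rw [eq_div_iff (by positivity), inv_mul_eq_div, div_mul_eq_mul_div, div_eq_iff (by positivity)]
      calc Real.sqrt x * (x * Real.sqrt x) = x * (Real.sqrt x * Real.sqrt x) := by ring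
        _ = 1 * x ^ 2 := by rw [hss]; ring
    calc (2 + |τ|) * ((x ^ 2)⁻¹ * ((b - a) * (2 * Real.sqrt x))) +
        (b - a) * ((x ^ 2)⁻¹ * Real.sqrt x) =
        (b - a) * (2 * (2 + |τ|) + 1) * ((x ^ 2)⁻¹ * Real.sqrt x) := by ring
      _ = _ := by rw [e4]; ring
  linarith

theorem gg_diff {n x y : ℝ} (hn : 1 ≤ n) (hx : n ≤ x) (hy : n ≤ y) :
    ‖gg a b τ x - gg a b τ y‖ ≤ (b - a) * (2 * (2 + |τ|) + 1) / (n * Real.sqrt n) * |x - y| := by
  have hd : ∀ z ∈ Set.Ici n, HasDerivWithinAt (gg a b τ)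
      (-sp a τ * (z : ℂ) ^ (-sp a τ - 1) - -sp b τ * (z : ℂ) ^ (-sp b τ - 1)) (Set.Ici n) z := by
    intro z hz
    have hz' : 0 < z := lt_of_lt_of_le (by linarith) hz
    exact ((pow_deriv (sp a τ) hz').sub (pow_deriv (sp b τ) hz')).hasDerivWithinAt
  have hb' : ∀ z ∈ Set.Ici n,
      ‖-sp a τ * (z : ℂ) ^ (-sp a τ - 1) - -sp b τ * (z : ℂ) ^ (-sp b τ - 1)‖ ≤
      (b - a) * (2 * (2 + |τ|) + 1) / (n * Real.sqrt n) := by
    intro z hz
    have hz1 : n ≤ z := hz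
    refine (dgg_norm ha hab hb hτ (hn.trans hz1)).trans ?_
    have hn0 : 0 < n := by linarith
    have h1 : Real.sqrt n ≤ Real.sqrt z := Real.sqrt_le_sqrt hz1
    have h2 : 0 < Real.sqrt n := Real.sqrt_pos.2 hn0
    have h3 : 0 ≤ b - a := sub_nonneg.2 hab
    apply div_le_div_of_nonneg_left (by positivity) (by positivity)
    exact mul_le_mul hz1 h1 h2.le (by linarith)
  have := (convex_Ici n).norm_image_sub_le_of_norm_hasDerivWithin_le hd hb' hy hx
  simpa using this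

theorem step (n : ℕ) (hn : 1 ≤ n) :
    ‖gg a b τ ((n + 1 : ℕ) : ℝ) + GG a b τ ((n + 1 : ℕ) : ℝ) - GG a b τ (n : ℝ)‖ ≤
      (b - a) * (2 * (2 + |τ|) + 1) / ((n : ℝ) * Real.sqrt n) := by
  have hn' : (1 : ℝ) ≤ n := by exact_mod_cast hn
  set c : ℂ := gg a b τ ((n + 1 : ℕ) : ℝ) with hc
  set K : ℝ := (b - a) * (2 * (2 + |τ|) + 1) / ((n : ℝ) * Real.sqrt n) with hK
  have hK0 : 0 ≤ K := by
    have h3 : 0 ≤ b - a := sub_nonneg.2 hab
    rw [hK]; positivity
  have hd : ∀ z ∈ Set.Icc (n : ℝ) (n + 1), HasDerivWithinAt (fun y : ℝ => GG a b τ y + (y : ℂ) * c)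
      (-gg a b τ z + c) (Set.Icc (n : ℝ) (n + 1)) z := by
    intro z hz
    have hz' : 0 < z := lt_of_lt_of_le (by linarith) hz.1
    have h1 := (hh_deriv (sp_ne (a := a) hτ) hz').sub (hh_deriv (sp_ne (a := b) hτ) hz')
    have h2 : HasDerivAt (fun y : ℝ => (y : ℂ) * c) c z := by
      have := (Complex.ofRealCLM.hasDerivAt (x := z)).mul_const c
      simpa using this
    have h3 := (h1.add h2).hasDerivWithinAt (s := Set.Icc (n : ℝ) (n + 1))
    refine h3.congr_deriv ?_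
    unfold gg
    ring
  have hb' : ∀ z ∈ Set.Icc (n : ℝ) (n + 1), ‖-gg a b τ z + c‖ ≤ K := by
    intro z hz
    have h := gg_diff ha hab hb hτ (n := n) (x := ((n + 1 : ℕ) : ℝ)) (y := z) hn'
      (by push_cast; linarith) hz.1
    rw [neg_add_eq_sub]
    refine h.trans ?_
    have h3 : |((n + 1 : ℕ) : ℝ) - z| ≤ 1 := by
      push_cast
      rw [abs_le]; constructor <;> linarith [hz.1, hz.2]
    exact mul_le_of_le_one_right hK0 h3
  have := (convex_Icc (n : ℝ) (n + 1)).norm_image_sub_le_of_norm_hasDerivWithin_le hd hb'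
    (x := (n : ℝ)) (y := (n : ℝ) + 1) ⟨le_refl _, by linarith⟩ ⟨by linarith, le_refl _⟩
  have h5 : (n : ℝ) + 1 - n = 1 := by ring
  rw [h5] at this
  simp only [norm_one, mul_one] at this
  have h6 : GG a b τ ((n : ℝ) + 1) + (((n : ℝ) + 1 : ℝ) : ℂ) * c -
      (GG a b τ (n : ℝ) + ((n : ℝ) : ℂ) * c) =
      c + GG a b τ ((n + 1 : ℕ) : ℝ) - GG a b τ (n : ℝ) := by
    push_cast; ring
  rwa [h6] at this

omit ha hab hb hτ in
theorem sq_tele (n : ℕ) (hn : 1 ≤ n) : 1 / ((n : ℝ) * Real.sqrt n) ≤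
    4 * (1 / Real.sqrt n - 1 / Real.sqrt ((n + 1 : ℕ) : ℝ)) := by
  have hn' : (1 : ℝ) ≤ n := by exact_mod_cast hn
  obtain ⟨r, hr⟩ : ∃ r, r = Real.sqrt n := ⟨_, rfl⟩
  obtain ⟨q, hq⟩ : ∃ q, q = Real.sqrt ((n + 1 : ℕ) : ℝ) := ⟨_, rfl⟩
  have hr2 : r * r = n := by rw [hr]; exact Real.mul_self_sqrt (by linarith)
  have hq2 : q * q = n + 1 := by
    rw [hq, Real.mul_self_sqrt (by positivity)]; push_cast; ring
  have hr0 : 0 < r := by rw [hr]; exact Real.sqrt_pos.2 (by linarith)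
  have hq0 : 0 < q := by rw [hq]; exact Real.sqrt_pos.2 (by positivity)
  have hrq : r < q := by nlinarith
  rw [← hr, ← hq, ← hr2]
  have h1 : 1 / r - 1 / q = 1 / (r * q * (q + r)) := by
    have h0 : (q - r) * (q + r) = 1 := by
      have : (q - r) * (q + r) = q * q - r * r := by ring
      rw [this, hq2, hr2]; ring
    rw [div_sub_div _ _ hr0.ne' hq0.ne', div_eq_div_iff (by positivity) (by positivity)]
    linear_combination (r * q) * h0
  rw [h1, mul_one_div, div_le_div_iff₀ (by positivity) (by positivity)]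
  have h2 : q * (q + r) ≤ 4 * (r * r) := by nlinarith
  nlinarith

theorem tele (N : ℕ) (hN : 1 ≤ N) (k : ℕ) :
    ‖∑ n ∈ Finset.Ico N (N + k), gg a b τ ((n + 1 : ℕ) : ℝ) + GG a b τ ((N + k : ℕ) : ℝ) -
      GG a b τ (N : ℝ)‖ ≤
      (b - a) * (2 * (2 + |τ|) + 1) * (4 * (1 / Real.sqrt N - 1 / Real.sqrt ((N + k : ℕ) : ℝ))) := by
  have hK : 0 ≤ (b - a) * (2 * (2 + |τ|) + 1) := by
    have h3 : 0 ≤ b - a := sub_nonneg.2 hab
    positivity
  induction k with
  | zero => simp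
  | succ k ih =>
    rw [show N + (k + 1) = (N + k) + 1 by ring, Finset.sum_Ico_succ_top (by omega)]
    have h1 := step ha hab hb hτ (N + k) (by omega)
    have h2 := sq_tele (N + k) (by omega)
    have e2 : ∑ n ∈ Finset.Ico N (N + k), gg a b τ ((n + 1 : ℕ) : ℝ) +
        gg a b τ ((N + k + 1 : ℕ) : ℝ) + GG a b τ ((N + k + 1 : ℕ) : ℝ) - GG a b τ (N : ℝ) =
        (∑ n ∈ Finset.Ico N (N + k), gg a b τ ((n + 1 : ℕ) : ℝ) + GG a b τ ((N + k : ℕ) : ℝ) -
          GG a b τ (N : ℝ)) +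
        (gg a b τ ((N + k + 1 : ℕ) : ℝ) + GG a b τ ((N + k + 1 : ℕ) : ℝ) -
          GG a b τ ((N + k : ℕ) : ℝ)) := by ring
    rw [e2]
    refine (norm_add_le _ _).trans ?_
    have h3 : (b - a) * (2 * (2 + |τ|) + 1) / (((N + k : ℕ) : ℝ) * Real.sqrt ((N + k : ℕ) : ℝ)) ≤
        (b - a) * (2 * (2 + |τ|) + 1) *
        (4 * (1 / Real.sqrt ((N + k : ℕ) : ℝ) - 1 / Real.sqrt ((N + k + 1 : ℕ) : ℝ))) := by
      rw [div_eq_mul_one_div]
      exact mul_le_mul_of_nonneg_left h2 hK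
    have h4 : (b - a) * (2 * (2 + |τ|) + 1) *
        (4 * (1 / Real.sqrt (N : ℝ) - 1 / Real.sqrt ((N + k + 1 : ℕ) : ℝ))) =
        (b - a) * (2 * (2 + |τ|) + 1) *
        (4 * (1 / Real.sqrt (N : ℝ) - 1 / Real.sqrt ((N + k : ℕ) : ℝ))) +
        (b - a) * (2 * (2 + |τ|) + 1) *
        (4 * (1 / Real.sqrt ((N + k : ℕ) : ℝ) - 1 / Real.sqrt ((N + k + 1 : ℕ) : ℝ))) := by ring
    rw [h4]
    linarith

theorem GG_bound {x : ℝ} (hx : 1 ≤ x) : ‖GG a b τ x‖ ≤ (b - a) * (Real.log x + 1) := by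
  have hx0 : 0 < x := by linarith
  have hba : 0 ≤ b - a := sub_nonneg.2 hab
  have n1 := sp_norm1 (a := a) hτ
  have n2 := sp_norm1 (a := b) hτ
  have z1 : sp a τ - 1 ≠ 0 := sub_ne_zero.2 (sp_ne hτ)
  have z2 : sp b τ - 1 ≠ 0 := sub_ne_zero.2 (sp_ne hτ)
  have h0 : (1 : ℂ) - sp b τ = (1 - sp a τ) - ((b - a : ℝ) : ℂ) := by rw [sp_sub a b τ]; ring
  have e1 : GG a b τ x = ((x : ℂ) ^ (1 - sp a τ) - (x : ℂ) ^ ((1 - sp a τ) - ((b - a : ℝ) : ℂ))) /
      (sp a τ - 1) + (x : ℂ) ^ (1 - sp b τ) * (((b - a : ℝ) : ℂ) / ((sp a τ - 1) * (sp b τ - 1))) := by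
    unfold GG hh
    rw [← h0]
    have : sp b τ = sp a τ + ((b - a : ℝ) : ℂ) := by rw [sp_sub a b τ]; ring
    have e3 : ((b - a : ℝ) : ℂ) = (sp b τ - 1) - (sp a τ - 1) := by rw [this]; ring
    rw [e3]
    field_simp
    ring
  rw [e1]
  refine (norm_add_le _ _).trans ?_
  have p1 : x ^ (1 - sp a τ).re ≤ 1 := by
    apply Real.rpow_le_one_of_one_le_of_nonpos hx
    rw [Complex.sub_re, sp_re, one_re]; linarith
  have p2 : x ^ (1 - sp b τ).re ≤ 1 := by
    apply Real.rpow_le_one_of_one_le_of_nonpos hx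
    rw [Complex.sub_re, sp_re, one_re]; linarith
  have hl : 0 ≤ Real.log x := Real.log_nonneg hx
  have b1 : ‖((x : ℂ) ^ (1 - sp a τ) - (x : ℂ) ^ ((1 - sp a τ) - ((b - a : ℝ) : ℂ))) /
      (sp a τ - 1)‖ ≤ (b - a) * Real.log x := by
    rw [norm_div]
    refine (div_le_self (norm_nonneg _) n1).trans ?_
    refine (pow_sub_bound hx _ hba).trans ?_
    exact mul_le_of_le_one_left (mul_nonneg hba hl) p1
  have b2 : ‖(x : ℂ) ^ (1 - sp b τ) * (((b - a : ℝ) : ℂ) / ((sp a τ - 1) * (sp b τ - 1)))‖ ≤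
      b - a := by
    rw [norm_mul, norm_div, norm_mul, Complex.norm_real, Real.norm_eq_abs, abs_of_nonneg hba,
      Complex.norm_cpow_eq_rpow_re_of_pos hx0]
    have : (b - a) / (‖sp a τ - 1‖ * ‖sp b τ - 1‖) ≤ b - a := by
      apply div_le_self hba
      nlinarith
    calc x ^ (1 - sp b τ).re * ((b - a) / (‖sp a τ - 1‖ * ‖sp b τ - 1‖)) ≤
        1 * (b - a) := mul_le_mul p2 this (by positivity) (by norm_num)
      _ = b - a := one_mul _
  linarith

theorem hh_lim {c : ℝ} (hc : 0 < c) (N : ℕ) :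
    Tendsto (fun k : ℕ => hh (sp c τ) ((N + k : ℕ) : ℝ)) atTop (𝓝 0) := by
  have h1 : Tendsto (fun k : ℕ => ((N + k : ℕ) : ℝ)) atTop atTop :=
    tendsto_natCast_atTop_atTop.comp (tendsto_add_atTop_nat N |>.congr (fun k => by omega))
  have h2 : Tendsto (fun k : ℕ => ((N + k : ℕ) : ℝ) ^ (-c)) atTop (𝓝 0) :=
    (tendsto_rpow_neg_atTop hc).comp h1
  refine squeeze_zero_norm' ?_ h2
  filter_upwards [eventually_ge_atTop 1] with k hk
  have hpos : (0 : ℝ) < ((N + k : ℕ) : ℝ) := by exact_mod_cast (by omega : 0 < N + k)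
  unfold hh
  rw [norm_div, Complex.norm_cpow_eq_rpow_re_of_pos hpos]
  have e : (1 - sp c τ).re = -c := by rw [Complex.sub_re, sp_re, one_re]; ring
  rw [e]
  exact div_le_self (Real.rpow_nonneg hpos.le _) (sp_norm1 hτ)

/-- difference of two values of zeta to the right of the line 1 -/
theorem zeta_diff : ‖riemannZeta (sp a τ) - riemannZeta (sp b τ)‖ ≤
    37 * (b - a) * (Real.log (|τ| + 3)) ^ 2 := by
  have hba : 0 ≤ b - a := sub_nonneg.2 hab
  have hb0 : 0 < b := lt_of_lt_of_le ha hab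
  set m : ℕ := ⌊|τ|⌋₊ + 1 with hm
  set N : ℕ := m ^ 2 with hN
  have hmτ : |τ| ≤ m := by
    rw [hm]; push_cast
    exact (Nat.lt_floor_add_one _).le
  have hmτ' : (m : ℝ) ≤ |τ| + 1 := by
    rw [hm]; push_cast
    linarith [Nat.floor_le (abs_nonneg τ)]
  have hm1 : (1 : ℝ) ≤ m := hτ.trans hmτ
  have hN1 : 1 ≤ N := by
    rw [hN]
    have : 1 ≤ m := by omega
    exact Nat.one_le_pow _ _ this
  have hNR : (N : ℝ) = (m : ℝ) ^ 2 := by rw [hN]; push_cast; rfl
  have hsqN : Real.sqrt N = m := by rw [hNR]; exact Real.sqrt_sq (by linarith)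
  have hL1 : 1 ≤ Real.log (|τ| + 3) := by
    rw [Real.le_log_iff_exp_le (by positivity)]
    have := Real.exp_one_lt_d9
    linarith
  have hlogN : Real.log N ≤ 2 * Real.log (|τ| + 3) := by
    rw [hNR, Real.log_pow]
    push_cast
    have : Real.log m ≤ Real.log (|τ| + 3) := Real.log_le_log (by linarith) (by linarith)
    linarith
  have hlogN0 : 0 ≤ Real.log N := Real.log_natCast_nonneg N
  -- partial sums
  have hlim : ∀ c : ℝ, 0 < c → Tendsto (fun M : ℕ => ∑ n ∈ Finset.range M,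
      (((n + 1 : ℕ) : ℝ) : ℂ) ^ (-sp c τ)) atTop (𝓝 (riemannZeta (sp c τ))) := by
    intro c hc
    have hs : 1 < (sp c τ).re := by rw [sp_re]; linarith
    have hsum : Summable (fun n : ℕ => 1 / ((n : ℂ)) ^ (sp c τ)) :=
      Complex.summable_one_div_nat_cpow.2 hs
    have hs0 : sp c τ ≠ 0 := by
      intro h0
      rw [h0] at hs
      simp at hs
      linarith
    have h1 : Tendsto (fun M : ℕ => ∑ n ∈ Finset.range (M + 1), 1 / ((n : ℂ)) ^ (sp c τ)) atTop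
        (𝓝 (riemannZeta (sp c τ))) := by
      rw [zeta_eq_tsum_one_div_nat_cpow hs]
      exact hsum.hasSum.tendsto_sum_nat.comp (tendsto_add_atTop_nat 1)
    refine h1.congr fun M => ?_
    rw [Finset.sum_range_succ']
    simp [Complex.zero_cpow hs0, Complex.cpow_neg]
  have hlimd : Tendsto (fun k : ℕ => ∑ n ∈ Finset.range (N + k), gg a b τ ((n + 1 : ℕ) : ℝ)) atTop
      (𝓝 (riemannZeta (sp a τ) - riemannZeta (sp b τ))) := by
    have h1 := (hlim a ha).sub (hlim b hb0)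
    have h2 : Tendsto (fun k : ℕ => N + k) atTop atTop :=
      (tendsto_add_atTop_nat N).congr (fun k => by omega)
    refine (h1.comp h2).congr fun k => ?_
    simp only [Function.comp]
    rw [← Finset.sum_sub_distrib]
    rfl
  have hGlim : Tendsto (fun k : ℕ => GG a b τ ((N + k : ℕ) : ℝ)) atTop (𝓝 0) := by
    have := (hh_lim ha hab hb hτ (c := a) ha N).sub (hh_lim ha hab hb hτ (c := b) hb0 N)
    simpa [GG] using this
  have hlim3 : Tendsto (fun k : ℕ => ‖∑ n ∈ Finset.range (N + k), gg a b τ ((n + 1 : ℕ) : ℝ)‖ -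
      ‖GG a b τ ((N + k : ℕ) : ℝ)‖) atTop
      (𝓝 (‖riemannZeta (sp a τ) - riemannZeta (sp b τ)‖ - ‖(0 : ℂ)‖)) := hlimd.norm.sub hGlim.norm
  rw [norm_zero, sub_zero] at hlim3
  refine le_of_tendsto hlim3 ?_
  filter_upwards with k
  rw [← Finset.sum_range_add_sum_Ico (fun n : ℕ => gg a b τ ((n + 1 : ℕ) : ℝ)) (Nat.le_add_right N k)]
  have h1 := tele ha hab hb hτ N hN1 k
  have h2 := GG_bound ha hab hb hτ (x := (N : ℝ)) (by exact_mod_cast hN1)
  have h3 : ‖∑ n ∈ Finset.range N, gg a b τ ((n + 1 : ℕ) : ℝ)‖ ≤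
      (b - a) * (Real.log N * (1 + Real.log N)) := by
    refine (norm_sum_le _ _).trans ?_
    have h4 : ∀ n ∈ Finset.range N, ‖gg a b τ ((n + 1 : ℕ) : ℝ)‖ ≤
        (b - a) * (Real.log N * ((n : ℝ) + 1)⁻¹) := by
      intro n hn
      refine (gg_norm ha hab hb hτ (by exact_mod_cast (by omega : 1 ≤ n + 1))).trans ?_
      apply mul_le_mul_of_nonneg_left _ hba
      rw [div_eq_mul_inv]
      push_cast
      apply mul_le_mul_of_nonneg_right _ (by positivity)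
      apply Real.log_le_log (by positivity)
      have : n + 1 ≤ N := Finset.mem_range.1 hn
      exact_mod_cast this
    refine (Finset.sum_le_sum h4).trans ?_
    rw [← Finset.mul_sum, ← Finset.mul_sum]
    apply mul_le_mul_of_nonneg_left _ hba
    apply mul_le_mul_of_nonneg_left _ hlogN0
    have h5 := harmonic_le_one_add_log N
    refine le_trans (le_of_eq ?_) h5
    unfold harmonic
    push_cast
    rfl
  set S1 : ℂ := ∑ n ∈ Finset.range N, gg a b τ ((n + 1 : ℕ) : ℝ)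
  set S2 : ℂ := ∑ n ∈ Finset.Ico N (N + k), gg a b τ ((n + 1 : ℕ) : ℝ)
  have h6 : S1 + S2 = (S2 + GG a b τ ((N + k : ℕ) : ℝ) - GG a b τ (N : ℝ)) + S1 +
      GG a b τ (N : ℝ) - GG a b τ ((N + k : ℕ) : ℝ) := by ring
  have h7 : ‖S1 + S2‖ ≤ ‖S2 + GG a b τ ((N + k : ℕ) : ℝ) - GG a b τ (N : ℝ)‖ + ‖S1‖ +
      ‖GG a b τ (N : ℝ)‖ + ‖GG a b τ ((N + k : ℕ) : ℝ)‖ := by
    rw [h6]
    refine (norm_sub_le _ _).trans ?_
    gcongr
    refine (norm_add_le _ _).trans ?_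
    gcongr
    exact norm_add_le _ _
  have h8 : (b - a) * (2 * (2 + |τ|) + 1) *
      (4 * (1 / Real.sqrt N - 1 / Real.sqrt ((N + k : ℕ) : ℝ))) ≤ (b - a) * 28 := by
    rw [mul_assoc]
    apply mul_le_mul_of_nonneg_left _ hba
    have e1 : (1 / Real.sqrt N - 1 / Real.sqrt ((N + k : ℕ) : ℝ)) ≤ 1 / m := by
      rw [hsqN]
      have : (0 : ℝ) ≤ 1 / Real.sqrt ((N + k : ℕ) : ℝ) := by positivity
      linarith
    have e2 : (2 * (2 + |τ|) + 1) * (4 * (1 / Real.sqrt N - 1 / Real.sqrt ((N + k : ℕ) : ℝ))) ≤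
        (2 * (2 + |τ|) + 1) * (4 * (1 / m)) := by
      apply mul_le_mul_of_nonneg_left _ (by positivity)
      linarith
    refine e2.trans ?_
    have hm0 : (0 : ℝ) < m := by linarith
    rw [show (2 * (2 + |τ|) + 1) * (4 * (1 / (m : ℝ))) = ((2 * (2 + |τ|) + 1) * 4) / m by ring,
      div_le_iff₀ hm0]
    nlinarith
  have h9 : (b - a) * 28 + (b - a) * (Real.log N * (1 + Real.log N)) +
      (b - a) * (Real.log N + 1) ≤ 37 * (b - a) * (Real.log (|τ| + 3)) ^ 2 := by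
    set L := Real.log (|τ| + 3)
    have e1 : Real.log N * (1 + Real.log N) ≤ 2 * L * (1 + 2 * L) := by
      apply mul_le_mul hlogN (by linarith) (by linarith) (by linarith)
    have e2 : 28 + Real.log N * (1 + Real.log N) + (Real.log N + 1) ≤ 37 * L ^ 2 := by nlinarith
    calc (b - a) * 28 + (b - a) * (Real.log N * (1 + Real.log N)) +
      (b - a) * (Real.log N + 1) =
        (b - a) * (28 + Real.log N * (1 + Real.log N) + (Real.log N + 1)) := by ring
      _ ≤ (b - a) * (37 * L ^ 2) := mul_le_mul_of_nonneg_left e2 hba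
      _ = _ := by ring
  linarith

end

end AuxNTH

open AuxNTH in
theorem NTH (hZ : PM.S_NTZ) : S_NTH := by
  obtain ⟨C2, hC2, hE⟩ := PM.NTE PM.NTA (PM.NTD hZ PM.ZAP)
  obtain ⟨C1, hC1, hZ⟩ := hZ
  -- choice of M
  set K : ℝ := 74 * Real.exp (C1 + C2) with hK
  obtain ⟨j, hj⟩ : ∃ j : ℕ, K ≤ (Real.log 4) ^ j := by
    have h4 : 1 < Real.log 4 := by
      rw [Real.lt_log_iff_exp_lt (by norm_num)]
      have := Real.exp_one_lt_d9
      linarith
    obtain ⟨j, hj⟩ := pow_unbounded_of_one_lt K h4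
    exact ⟨j, hj.le⟩
  set M : ℕ := 9 + 4 * j with hM
  refine ⟨M + 3, 2 * C1 + 1, by positivity, fun u v σ τ hu huv hσ hτ hlog => ?_⟩
  have hv : 2 ≤ v := hu.trans huv
  have hlu : 0 < Real.log u := Real.log_pos (by linarith)
  have hlv : 0 < Real.log v := Real.log_pos (by linarith)
  have hluv : Real.log u ≤ Real.log v := Real.log_le_log (by linarith) huv
  have hσu : |σ| * Real.log u ≤ 16 :=
    (mul_le_mul_of_nonneg_left hluv (abs_nonneg σ)).trans hσ
  have hsplit := h5_CS_split (u := 1) (w := u) (v := v) (σ := σ) (τ := τ) (by norm_num)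
    (by linarith) huv
  have hA := hZ v σ τ hv hσ
  have hB := hZ u σ τ hu hσu
  set L : ℝ := Real.log (|τ| + 3) with hL
  have hL4 : Real.log 4 ≤ L := Real.log_le_log (by norm_num) (by linarith)
  have h41 : 1.38 ≤ Real.log 4 := by
    have : Real.log 4 = 2 * Real.log 2 := by
      rw [show (4 : ℝ) = 2 ^ 2 by norm_num, Real.log_pow]; push_cast; ring
    rw [this]
    linarith [Real.log_two_gt_d9]
  have hL1 : 1 ≤ L := by linarith
  have hL0 : 0 < L := by linarith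
  -- rewriting the points
  have hpt : ∀ w : ℝ, (1 + 1 / (Real.log w : ℂ) + τ * I : ℂ) = sp (1 / Real.log w) τ := by
    intro w
    unfold sp
    push_cast
    ring
  rw [hpt] at hA hB
  -- the reference point
  have hLM : 1 ≤ L ^ M := one_le_pow₀ hL1
  have href : Real.exp (-(C1 + C2)) * L ^ (-((3 * M + 1 : ℝ) / 4)) ≤
      ‖riemannZeta (sp (1 / L ^ M) τ)‖ := by
    have hy : 2 ≤ Real.exp (L ^ M) := by
      have h1 : Real.exp 1 ≤ Real.exp (L ^ M) := Real.exp_le_exp.2 hLM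
      linarith [Real.exp_one_gt_d9]
    have h1 := hZ (Real.exp (L ^ M)) 0 τ hy (by simp)
    have h2 := hE (Real.exp (L ^ M)) 0 τ hy hτ (by simp)
    rw [hpt, Real.log_exp] at h1
    rw [Real.log_exp, Real.log_pow] at h2
    have hne : riemannZeta (sp (1 / L ^ M) τ) ≠ 0 := by
      apply riemannZeta_ne_zero_of_one_le_re
      rw [sp_re]
      have : 0 < 1 / L ^ M := by positivity
      linarith
    have hn : 0 < ‖riemannZeta (sp (1 / L ^ M) τ)‖ := norm_pos_iff.2 hne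
    rw [← Real.exp_log hn, Real.rpow_def_of_pos hL0, ← Real.exp_add]
    apply Real.exp_le_exp.2
    rw [abs_le] at h1
    have h3 := h1.2
    have : Real.log L * -((3 * M + 1 : ℝ) / 4) = -(3 / 4) * (M * Real.log L) -
      1 / 4 * Real.log L := by ring
    rw [this]
    linarith
  -- the difference bound in terms of the reference
  set R : ℝ := Real.exp (-(C1 + C2)) * L ^ (-((3 * M + 1 : ℝ) / 4)) with hR
  have hR0 : 0 < R := by positivity
  have hkey : 37 * (1 / L ^ M) * L ^ 2 ≤ R / 2 := by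
    have e1 : K ≤ L ^ j := hj.trans (pow_le_pow_left₀ (by linarith) hL4 j)
    have e2 : L ^ (-((3 * M + 1 : ℝ) / 4)) = L ^ (j : ℝ) * (L ^ 2 * (1 / L ^ M)) := by
      rw [one_div, ← Real.rpow_natCast L 2, ← Real.rpow_natCast L M, ← Real.rpow_neg hL0.le,
        ← Real.rpow_add hL0, ← Real.rpow_add hL0]
      congr 1
      rw [hM]
      push_cast
      ring
    rw [hR, e2, Real.rpow_natCast]
    have e3 : Real.exp (-(C1 + C2)) * K = 74 := by
      rw [hK, Real.exp_neg]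
      field_simp
    have e4 : 74 ≤ Real.exp (-(C1 + C2)) * L ^ j := by
      rw [← e3]
      exact mul_le_mul_of_nonneg_left e1 (Real.exp_pos _).le
    have e5 : 0 ≤ L ^ 2 * (1 / L ^ M) := by positivity
    nlinarith
  have hlow : ∀ c : ℝ, 0 < c → c ≤ 1 / L ^ M → R / 2 ≤ ‖riemannZeta (sp c τ)‖ := by
    intro c hc hcM
    have h1 : (1 : ℝ) / L ^ M ≤ 1 := by
      rw [div_le_one (by positivity)]; exact hLM
    have h2 := zeta_diff hc hcM h1 hτ
    have h3 : ‖riemannZeta (sp (1 / L ^ M) τ)‖ ≤ ‖riemannZeta (sp c τ)‖ +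
        ‖riemannZeta (sp c τ) - riemannZeta (sp (1 / L ^ M) τ)‖ := by
      have := norm_sub_norm_le (riemannZeta (sp (1 / L ^ M) τ)) (riemannZeta (sp c τ))
      rw [norm_sub_rev] at this
      linarith
    have h4 : 37 * (1 / L ^ M - c) * L ^ 2 ≤ 37 * (1 / L ^ M) * L ^ 2 := by
      have : 0 ≤ L ^ 2 := by positivity
      nlinarith
    linarith
  -- the two points
  have ha0 : 0 < 1 / Real.log v := by positivity
  have hab : 1 / Real.log v ≤ 1 / Real.log u := one_div_le_one_div_of_le hlu hluv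
  have hL3 : 2 ≤ L ^ 3 := by
    have : (1.38 : ℝ) ^ 3 ≤ L ^ 3 := pow_le_pow_left₀ (by norm_num) (by linarith) 3
    norm_num at this
    linarith
  have hb2 : 1 / Real.log u ≤ (1 / L ^ M) * (1 / 2) := by
    have e : (1 / L ^ M) * (1 / 2) = 1 / (L ^ M * 2) := by field_simp
    rw [e]
    apply one_div_le_one_div_of_le (by positivity)
    refine le_trans ?_ hlog
    rw [pow_add L M 3]
    have : 0 < L ^ M := by positivity
    exact mul_le_mul_of_nonneg_left hL3 this.le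
  have hbM : 1 / Real.log u ≤ 1 / L ^ M := by
    have : 0 < 1 / L ^ M := by positivity
    linarith
  have hb1 : 1 / Real.log u ≤ 1 := by
    refine hbM.trans ?_
    rw [div_le_one (by positivity)]; exact hLM
  have hzd := zeta_diff ha0 hab hb1 hτ
  have hlv' := hlow _ ha0 (hab.trans hbM)
  have hlu' := hlow (1 / Real.log u) (by positivity) hbM
  have hd : ‖riemannZeta (sp (1 / Real.log v) τ) - riemannZeta (sp (1 / Real.log u) τ)‖ ≤ R / 4 := by
    refine hzd.trans ?_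
    have h1 : 37 * (1 / Real.log u - 1 / Real.log v) * L ^ 2 ≤
        37 * ((1 / L ^ M) * (1 / 2)) * L ^ 2 := by
      have : 0 ≤ L ^ 2 := by positivity
      have : 1 / Real.log u - 1 / Real.log v ≤ (1 / L ^ M) * (1 / 2) := by linarith
      gcongr
    linarith
  -- logarithms
  obtain ⟨x, hx⟩ : ∃ x, x = ‖riemannZeta (sp (1 / Real.log v) τ)‖ := ⟨_, rfl⟩
  obtain ⟨y, hy⟩ : ∃ y, y = ‖riemannZeta (sp (1 / Real.log u) τ)‖ := ⟨_, rfl⟩
  have hxy : |x - y| ≤ R / 4 := by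
    rw [hx, hy]
    exact (abs_norm_sub_norm_le _ _).trans hd
  rw [← hx] at hA hlv'
  rw [← hy] at hB hlu'
  have hx0 : 0 < x := by linarith
  have hy0 : 0 < y := by linarith
  rw [abs_le] at hxy
  have l1 : Real.log x ≤ Real.log y + 1 := by
    have h1 : x ≤ y * Real.exp 1 := by
      have := Real.exp_one_gt_d9
      nlinarith
    have := Real.log_le_log hx0 h1
    rwa [Real.log_mul hy0.ne' (Real.exp_pos 1).ne', Real.log_exp] at this
  have l2 : Real.log y ≤ Real.log x + 1 := by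
    have h1 : y ≤ x * Real.exp 1 := by
      have := Real.exp_one_gt_d9
      nlinarith
    have := Real.log_le_log hy0 h1
    rwa [Real.log_mul hx0.ne' (Real.exp_pos 1).ne', Real.log_exp] at this
  rw [abs_le] at hA hB ⊢
  constructor <;> linarith [hA.1, hA.2, hB.1, hB.2]

end PN
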