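import Pool.Agent.H65.PN.Gau

set_option autoImplicit false

namespace PN
open MeasureTheory ProbabilityTheory PN.H65

lemma opl_int {n : ℕ} (x : ℝ) (m j : ℕ) (S : Set (Fin n → ℝ)) (hS : MeasurableSet S) :
    Integrable (fun g : Fin n → ℝ => Set.indicator S (fun g => (x - ps g m) ^ 2) g)
      (Ga (Fin n)) ∧
    Integrable (fun g : Fin n → ℝ => Set.indicator S (fun g => x - ps g m) g) (Ga (Fin n)) := by
  have h1 : MemLp (fun g : Fin n → ℝ => x - ps g m) 2 (Ga (Fin n)) :=
    (memLp_const x).sub (memLp_ps m)
  exact ⟨h1.integrable_sq.indicator hS, (h1.integrable (by norm_num)).indicator hS⟩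

theorem OPL : S_OPL := by
  intro n x hx
  set b : ℕ → ℝ := fun _ => 0 with hb
  have hSm : ∀ m, MeasurableSet (St n m x b) := fun m => measurableSet_St n m x b
  have hxs : ∀ (m : ℕ), ∀ hm : m < n, Integrable (fun g : Fin n → ℝ => g ⟨m, hm⟩) (Ga (Fin n)) :=
    fun m hm => (memLp_coord _).integrable (by norm_num)
  -- one step of the first moment
  have key1 : ∀ m, m ≤ n → x ≤ ∫ g : Fin n → ℝ, Set.indicator (St n m x b)
      (fun g => x - ps g m) g ∂Ga (Fin n) := by
    intro m
    induction m with
    | zero =>
      intro _
      have h0 : St n 0 x b = Set.univ := by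
        ext g
        simp only [St, Set.mem_ofPred_eq, Set.mem_univ, iff_true]
        intro j h1 h2
        omega
      rw [h0]
      simp [ps_zero]
    | succ m ih =>
      intro hm
      have hm' : m < n := hm
      refine (ih (by omega)).trans ?_
      have hA := (opl_int (n := n) x m 0 _ (hSm m)).2
      have hB : Integrable (fun g : Fin n → ℝ => Set.indicator (St n m x b)
          (fun g => g ⟨m, hm'⟩) g) (Ga (Fin n)) := (hxs m hm').indicator (hSm m)
      have hz : ∫ g : Fin n → ℝ, Set.indicator (St n m x b) (fun g => g ⟨m, hm'⟩) g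
          ∂Ga (Fin n) = 0 := by
        have := step (n := n) m hm' x b (fun _ s => s) hB
        rw [this]
        have h2 : (∫ s : ℝ, s ∂gaussianReal 0 1) = 0 := integral_id'
        simp only [h2]
        simp
      have heq : ∫ g : Fin n → ℝ, Set.indicator (St n m x b) (fun g => x - ps g m) g
          ∂Ga (Fin n) = ∫ g : Fin n → ℝ, Set.indicator (St n m x b)
          (fun g => x - ps g (m + 1)) g ∂Ga (Fin n) := by
        have h3 : (fun g : Fin n → ℝ => Set.indicator (St n m x b)
            (fun g => x - ps g (m + 1)) g) = fun g => Set.indicator (St n m x b)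
            (fun g => x - ps g m) g - Set.indicator (St n m x b) (fun g => g ⟨m, hm'⟩) g := by
          funext g
          by_cases hg : g ∈ St n m x b
          · simp only [Set.indicator_of_mem hg]
            rw [ps_succ g m hm']
            ring
          · simp [Set.indicator_of_notMem hg]
        rw [h3, integral_sub hA hB, hz, sub_zero]
      rw [heq]
      refine integral_mono (opl_int (n := n) x (m + 1) 0 _ (hSm m)).2
        (opl_int (n := n) x (m + 1) 0 _ (hSm (m + 1))).2 ?_
      intro g
      simp only
      by_cases hg : g ∈ St n m x b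
      · by_cases hg' : g ∈ St n (m + 1) x b
        · rw [Set.indicator_of_mem hg, Set.indicator_of_mem hg']
        · rw [Set.indicator_of_mem hg, Set.indicator_of_notMem hg']
          rw [mem_St_succ] at hg'
          have : ¬ ps g (m + 1) ≤ x + b (m + 1) := fun h => hg' ⟨hg, h⟩
          simp only [hb, add_zero, not_le] at this
          linarith
      · have hg' : g ∉ St n (m + 1) x b := fun h => hg ((mem_St_succ g m x b).mp h).1
        rw [Set.indicator_of_notMem hg, Set.indicator_of_notMem hg']
  have key2 : ∀ m, m ≤ n → ∫ g : Fin n → ℝ, Set.indicator (St n m x b)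
      (fun g => (x - ps g m) ^ 2) g ∂Ga (Fin n) ≤
      x ^ 2 + ∑ j ∈ Finset.range m, (Ga (Fin n)).real (St n j x b) := by
    intro m
    induction m with
    | zero =>
      intro _
      have h0 : St n 0 x b = Set.univ := by
        ext g
        simp only [St, Set.mem_ofPred_eq, Set.mem_univ, iff_true]
        intro j h1 h2
        omega
      rw [h0]
      simp [ps_zero]
    | succ m ih =>
      intro hm
      have hm' : m < n := hm
      have ih := ih (by omega)
      have hle : ∫ g : Fin n → ℝ, Set.indicator (St n (m + 1) x b)
          (fun g => (x - ps g (m + 1)) ^ 2) g ∂Ga (Fin n) ≤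
          ∫ g : Fin n → ℝ, Set.indicator (St n m x b)
          (fun g => (x - ps g (m + 1)) ^ 2) g ∂Ga (Fin n) := by
        refine integral_mono (opl_int (n := n) x (m + 1) 0 _ (hSm (m + 1))).1
          (opl_int (n := n) x (m + 1) 0 _ (hSm m)).1 ?_
        intro g
        simp only
        by_cases hg' : g ∈ St n (m + 1) x b
        · rw [Set.indicator_of_mem hg', Set.indicator_of_mem ((mem_St_succ g m x b).mp hg').1]
        · rw [Set.indicator_of_notMem hg']
          exact Set.indicator_nonneg (fun _ _ => sq_nonneg _) _
      have hA := (opl_int (n := n) x m 0 _ (hSm m)).1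
      have hF : Integrable (fun g : Fin n → ℝ => Set.indicator (St n m x b)
          (fun g => (fun a s => (x - a - s) ^ 2) (ps g m) (g ⟨m, hm'⟩)) g) (Ga (Fin n)) := by
        have := (opl_int (n := n) x (m + 1) 0 _ (hSm m)).1
        refine this.congr (Filter.Eventually.of_forall ?_)
        intro g
        simp only
        congr 1
        funext g
        rw [ps_succ g m hm']
        ring
      have h4 := step (n := n) m hm' x b (fun a s => (x - a - s) ^ 2) hF
      have h5 : ∫ g : Fin n → ℝ, Set.indicator (St n m x b)
          (fun g => (x - ps g (m + 1)) ^ 2) g ∂Ga (Fin n) =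
          ∫ g : Fin n → ℝ, Set.indicator (St n m x b)
          (fun g => (fun a s => (x - a - s) ^ 2) (ps g m) (g ⟨m, hm'⟩)) g ∂Ga (Fin n) := by
        refine integral_congr_ae (Filter.Eventually.of_forall ?_)
        intro g
        simp only
        congr 1
        funext g
        rw [ps_succ g m hm']
        ring
      have h6 : ∀ a : ℝ, ∫ s : ℝ, (x - a - s) ^ 2 ∂gaussianReal 0 1 = (x - a) ^ 2 + 1 := by
        intro a
        have h7 : (fun s : ℝ => (x - a - s) ^ 2) =
            fun s => ((x - a) ^ 2 - 2 * (x - a) * s) + s ^ 2 := by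
          funext s
          ring
        have i1 : Integrable (fun s : ℝ => (x - a) ^ 2 - 2 * (x - a) * s) (gaussianReal 0 1) :=
          (integrable_const _).sub (integrable_id.const_mul _)
        have e1 : ∫ s : ℝ, ((x - a) ^ 2 - 2 * (x - a) * s) + s ^ 2 ∂gaussianReal 0 1 =
            (∫ s : ℝ, ((x - a) ^ 2 - 2 * (x - a) * s) ∂gaussianReal 0 1) +
              ∫ s : ℝ, s ^ 2 ∂gaussianReal 0 1 := integral_add i1 integrable_sq
        have e2 : ∫ s : ℝ, ((x - a) ^ 2 - 2 * (x - a) * s) ∂gaussianReal 0 1 =
            (∫ _s : ℝ, (x - a) ^ 2 ∂gaussianReal 0 1) -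
              ∫ s : ℝ, 2 * (x - a) * s ∂gaussianReal 0 1 :=
          integral_sub (integrable_const _) (integrable_id.const_mul _)
        rw [h7, e1, e2, integral_const_mul, integral_id', integral_sq]
        simp
      rw [Finset.sum_range_succ, ← add_assoc]
      refine hle.trans ?_
      rw [h5, h4]
      simp only [h6]
      have h8 : (fun g : Fin n → ℝ => Set.indicator (St n m x b)
          (fun g => (x - ps g m) ^ 2 + 1) g) = fun g => Set.indicator (St n m x b)
          (fun g => (x - ps g m) ^ 2) g + Set.indicator (St n m x b) (fun _ => (1 : ℝ)) g := by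
        funext g
        by_cases hg : g ∈ St n m x b
        · simp only [Set.indicator_of_mem hg]
        · simp [Set.indicator_of_notMem hg]
      rw [h8, integral_add hA ((integrable_const (1 : ℝ)).indicator (hSm m))]
      have h9 : ∫ g : Fin n → ℝ, Set.indicator (St n m x b) (fun _ => (1 : ℝ)) g ∂Ga (Fin n) =
          (Ga (Fin n)).real (St n m x b) := by
        rw [integral_indicator (hSm m)]
        simp
      rw [h9]
      linarith
  exact ⟨key1 n le_rfl, key2 n le_rfl⟩

end PN
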