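import Pool.Agent.H65.PN.Gau

set_option autoImplicit false

namespace PN
open MeasureTheory ProbabilityTheory PN.H65

namespace OPTaux

lemma e_deriv (s : ℝ) : HasDerivAt (fun s : ℝ => Real.exp (-(1 / 2) * s ^ 2))
    (-(s * Real.exp (-(1 / 2) * s ^ 2))) s := by
  have h1 : HasDerivAt (fun s : ℝ => -(1 / 2) * s ^ 2) (-(1 / 2) * (2 * s)) s := by
    have := (hasDerivAt_pow 2 s).const_mul (-(1 / 2) : ℝ)
    simpa using this
  have h2 := h1.exp
  convert h2 using 1
  ring

lemma i0 : Integrable (fun s : ℝ => Real.exp (-(1 / 2) * s ^ 2)) :=
  integrable_exp_neg_mul_sq (by norm_num)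

lemma i1 : Integrable (fun s : ℝ => s * Real.exp (-(1 / 2) * s ^ 2)) :=
  integrable_mul_exp_neg_mul_sq (by norm_num)

lemma i2 : Integrable (fun s : ℝ => s ^ 2 * Real.exp (-(1 / 2) * s ^ 2)) := by
  have := integrable_rpow_mul_exp_neg_mul_sq (b := (1 / 2 : ℝ)) (by norm_num)
    (s := (2 : ℝ)) (by norm_num)
  simpa only [Real.rpow_two] using this

lemma parts (d : ℝ) : ∫ s in Set.Ioi d, (s - d) * s * Real.exp (-(1 / 2) * s ^ 2) =
    ∫ s in Set.Ioi d, Real.exp (-(1 / 2) * s ^ 2) := by
  set f : ℝ → ℝ := fun s => -((s - d) * Real.exp (-(1 / 2) * s ^ 2)) with hf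
  set f' : ℝ → ℝ := fun s => (s - d) * s * Real.exp (-(1 / 2) * s ^ 2) -
    Real.exp (-(1 / 2) * s ^ 2) with hf'
  have hd : ∀ s : ℝ, HasDerivAt f (f' s) s := by
    intro s
    have h1 : HasDerivAt (fun s : ℝ => s - d) 1 s := (hasDerivAt_id s).sub_const d
    have h2 : HasDerivAt f (-(1 * Real.exp (-(1 / 2) * s ^ 2) +
        (s - d) * (-(s * Real.exp (-(1 / 2) * s ^ 2))))) s := (h1.mul (e_deriv s)).neg
    refine h2.congr_deriv ?_
    simp only [hf']
    ring
  have j2 : Integrable (fun s : ℝ => (s - d) * s * Real.exp (-(1 / 2) * s ^ 2)) := by
    have := i2.sub (i1.const_mul d)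
    refine this.congr (Filter.Eventually.of_forall ?_)
    intro s
    simp only [Pi.sub_apply]
    ring
  have hi' : Integrable f' := j2.sub i0
  have hi : Integrable f := by
    have := (i1.sub (i0.const_mul d)).neg
    refine this.congr (Filter.Eventually.of_forall ?_)
    intro s
    simp only [Pi.neg_apply, Pi.sub_apply, hf]
    ring
  have ht := tendsto_zero_of_hasDerivAt_of_integrableOn_Ioi (a := d) (f := f) (f' := f')
    (fun s _ => hd s) hi'.integrableOn hi.integrableOn
  have hc := integral_Ioi_of_hasDerivAt_of_tendsto (a := d) (f := f) (f' := f')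
    (hd d).continuousAt.continuousWithinAt (fun s _ => hd s) hi'.integrableOn ht
  have h0 : f d = 0 := by simp [hf]
  rw [h0, sub_zero] at hc
  have h3 : ∫ s in Set.Ioi d, f' s = (∫ s in Set.Ioi d, (s - d) * s *
      Real.exp (-(1 / 2) * s ^ 2)) - ∫ s in Set.Ioi d, Real.exp (-(1 / 2) * s ^ 2) :=
    integral_sub j2.integrableOn i0.integrableOn
  linarith

lemma pdf (s : ℝ) : gaussianPDFReal 0 1 s =
    (Real.sqrt (2 * Real.pi))⁻¹ * Real.exp (-(1 / 2) * s ^ 2) := by
  rw [gaussianPDFReal_def]
  simp only [NNReal.coe_one, mul_one, sub_zero]
  congr 2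
  ring

/-- truncated first moment against the tail -/
lemma mills (d : ℝ) (hd : 0 ≤ d) : ∫ s, max (s - d) 0 ∂gaussianReal 0 1 ≤
    (gaussianReal 0 1).real (Set.Ioi d) := by
  set c : ℝ := (Real.sqrt (2 * Real.pi))⁻¹ with hc
  have hc0 : 0 ≤ c := by positivity
  have h1 : (gaussianReal 0 1).real (Set.Ioi d) =
      ∫ s, Set.indicator (Set.Ioi d) (fun _ => (1 : ℝ)) s ∂gaussianReal 0 1 := by
    rw [integral_indicator measurableSet_Ioi]
    simp
  have h2 : ∀ F : ℝ → ℝ, ∫ s, F s ∂gaussianReal 0 1 =
      ∫ s, c * (Real.exp (-(1 / 2) * s ^ 2) * F s) := by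
    intro F
    rw [integral_gaussianReal_eq_integral_smul (by norm_num)]
    refine integral_congr_ae (Filter.Eventually.of_forall ?_)
    intro s
    simp only [pdf, smul_eq_mul]
    rw [← hc]
    ring
  rw [h1, h2, h2, integral_const_mul, integral_const_mul]
  refine mul_le_mul_of_nonneg_left ?_ hc0
  have e1 : ∫ s, Real.exp (-(1 / 2) * s ^ 2) * max (s - d) 0 =
      ∫ s in Set.Ioi d, Real.exp (-(1 / 2) * s ^ 2) * (s - d) := by
    rw [← integral_indicator measurableSet_Ioi]
    refine integral_congr_ae (Filter.Eventually.of_forall ?_)
    intro s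
    simp only
    by_cases h : s ∈ Set.Ioi d
    · rw [Set.indicator_of_mem h, max_eq_left (by
        have := Set.mem_Ioi.mp h
        linarith)]
    · rw [Set.indicator_of_notMem h, max_eq_right (by
        have := not_lt.mp (fun h' => h (Set.mem_Ioi.mpr h'))
        linarith), mul_zero]
  have e2 : ∫ s, Real.exp (-(1 / 2) * s ^ 2) * Set.indicator (Set.Ioi d) (fun _ => (1 : ℝ)) s =
      ∫ s in Set.Ioi d, Real.exp (-(1 / 2) * s ^ 2) := by
    rw [← integral_indicator measurableSet_Ioi]
    refine integral_congr_ae (Filter.Eventually.of_forall ?_)
    intro s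
    simp only
    by_cases h : s ∈ Set.Ioi d
    · rw [Set.indicator_of_mem h, Set.indicator_of_mem h, mul_one]
    · rw [Set.indicator_of_notMem h, Set.indicator_of_notMem h, mul_zero]
  rw [e1, e2]
  have j2 : Integrable (fun s : ℝ => (s - d) * s * Real.exp (-(1 / 2) * s ^ 2)) := by
    have := i2.sub (i1.const_mul d)
    refine this.congr (Filter.Eventually.of_forall ?_)
    intro s
    simp only [Pi.sub_apply]
    ring
  have j1 : Integrable (fun s : ℝ => Real.exp (-(1 / 2) * s ^ 2) * (s - d)) := by
    have := i1.sub (i0.const_mul d)
    refine this.congr (Filter.Eventually.of_forall ?_)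
    intro s
    simp only [Pi.sub_apply]
    ring
  have e3 : ∫ s in Set.Ioi d, Real.exp (-(1 / 2) * s ^ 2) * (s - d) ≤
      ∫ s in Set.Ioi d, ((1 / 2) * ((s - d) * s * Real.exp (-(1 / 2) * s ^ 2)) +
        (1 / 2) * Real.exp (-(1 / 2) * s ^ 2)) := by
    refine setIntegral_mono_on j1.integrableOn
      ((j2.const_mul _).add (i0.const_mul _)).integrableOn measurableSet_Ioi ?_
    intro s hs
    have hs' : d < s := hs
    have he : 0 < Real.exp (-(1 / 2) * s ^ 2) := Real.exp_pos _
    have h5 : s - d ≤ (1 / 2) * ((s - d) * s) + 1 / 2 := by
      nlinarith [sq_nonneg (s - d - 1), mul_nonneg (sub_pos.mpr hs').le hd]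
    nlinarith
  have e4 : ∫ s in Set.Ioi d, ((1 / 2) * ((s - d) * s * Real.exp (-(1 / 2) * s ^ 2)) +
        (1 / 2) * Real.exp (-(1 / 2) * s ^ 2)) =
      (1 / 2) * (∫ s in Set.Ioi d, (s - d) * s * Real.exp (-(1 / 2) * s ^ 2)) +
      (1 / 2) * ∫ s in Set.Ioi d, Real.exp (-(1 / 2) * s ^ 2) := by
    rw [← integral_const_mul, ← integral_const_mul]
    exact integral_add (j2.const_mul _).integrableOn (i0.const_mul _).integrableOn
  rw [e4, parts] at e3
  linarith

end OPTaux

open OPTaux in
theorem OPT : S_OPT := by
  refine ⟨1, one_pos, ?_⟩
  intro n x b hx hb0 hmono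
  have hSm : ∀ m, MeasurableSet (St n m x b) := fun m => measurableSet_St n m x b
  have hI : ∀ (m k : ℕ) (z : ℝ), Integrable (fun g : Fin n → ℝ => Set.indicator (St n m x b)
      (fun g => z - ps g k) g) (Ga (Fin n)) := by
    intro m k z
    have h1 : MemLp (fun g : Fin n → ℝ => z - ps g k) 2 (Ga (Fin n)) :=
      (memLp_const z).sub (memLp_ps k)
    exact (h1.integrable (by norm_num)).indicator (hSm m)
  have key : ∀ m, m ≤ n → (∫ g : Fin n → ℝ, Set.indicator (St n m x b)
      (fun g => x + b m - ps g m) g ∂Ga (Fin n)) + (Ga (Fin n)).real (St n m x b) ≤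
      x + b 0 + 1 + ∑ j ∈ Finset.range m, (b (j + 1) - b j) * (Ga (Fin n)).real (St n j x b) := by
    intro m
    induction m with
    | zero =>
      intro _
      have h0 : St n 0 x b = Set.univ := by
        ext g
        simp only [St, Set.mem_ofPred_eq, Set.mem_univ, iff_true]
        intro j h1 h2
        omega
      rw [h0]
      simp [ps_zero]
    | succ m ih =>
      intro hm
      have hm' : m < n := hm
      have ih := ih (by omega)
      rw [Finset.sum_range_succ]
      -- decomposition
      have hY : (fun g : Fin n → ℝ => Set.indicator (St n (m + 1) x b)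
          (fun g => x + b (m + 1) - ps g (m + 1)) g) =
          fun g => Set.indicator (St n m x b) (fun g => x + b (m + 1) - ps g (m + 1)) g +
            Set.indicator (St n m x b) (fun g => (fun a s => max (s - (x + b (m + 1) - a)) 0)
              (ps g m) (g ⟨m, hm'⟩)) g := by
        funext g
        by_cases hg : g ∈ St n m x b
        · by_cases hg' : g ∈ St n (m + 1) x b
          · rw [Set.indicator_of_mem hg, Set.indicator_of_mem hg', Set.indicator_of_mem hg]
            have h1 := ((mem_St_succ g m x b).mp hg').2
            rw [ps_succ g m hm'] at h1 ⊢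
            simp only
            rw [max_eq_right (by linarith), add_zero]
          · rw [Set.indicator_of_mem hg, Set.indicator_of_notMem hg', Set.indicator_of_mem hg]
            have h1 : ¬ ps g (m + 1) ≤ x + b (m + 1) := fun h =>
              hg' ((mem_St_succ g m x b).mpr ⟨hg, h⟩)
            rw [ps_succ g m hm'] at h1 ⊢
            rw [not_le] at h1
            simp only
            rw [max_eq_left (by linarith)]
            ring
        · have hg' : g ∉ St n (m + 1) x b := fun h => hg ((mem_St_succ g m x b).mp h).1
          rw [Set.indicator_of_notMem hg, Set.indicator_of_notMem hg', Set.indicator_of_notMem hg,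
            add_zero]
      have hF : Integrable (fun g : Fin n → ℝ => Set.indicator (St n m x b)
          (fun g => (fun a s => max (s - (x + b (m + 1) - a)) 0) (ps g m) (g ⟨m, hm'⟩)) g)
          (Ga (Fin n)) := by
        have h1 : MemLp (fun g : Fin n → ℝ => (x + b (m + 1)) - ps g (m + 1)) 2 (Ga (Fin n)) :=
          (memLp_const (x + b (m + 1))).sub (memLp_ps (m + 1))
        have h2 : Integrable (fun g : Fin n → ℝ => max (-((x + b (m + 1)) - ps g (m + 1))) 0)
            (Ga (Fin n)) := (h1.integrable (by norm_num)).neg.pos_part
        refine (h2.indicator (hSm m)).congr (Filter.Eventually.of_forall ?_)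
        intro g
        simp only
        by_cases hg : g ∈ St n m x b
        · rw [Set.indicator_of_mem hg, Set.indicator_of_mem hg, ps_succ g m hm']
          congr 1
          ring
        · rw [Set.indicator_of_notMem hg, Set.indicator_of_notMem hg]
      have hA : Integrable (fun g : Fin n → ℝ => Set.indicator (St n m x b)
          (fun g => x + b (m + 1) - ps g (m + 1)) g) (Ga (Fin n)) := hI m (m + 1) (x + b (m + 1))
      have e1 : ∫ g : Fin n → ℝ, Set.indicator (St n (m + 1) x b)
          (fun g => x + b (m + 1) - ps g (m + 1)) g ∂Ga (Fin n) =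
          (∫ g : Fin n → ℝ, Set.indicator (St n m x b)
            (fun g => x + b (m + 1) - ps g (m + 1)) g ∂Ga (Fin n)) +
          ∫ g : Fin n → ℝ, Set.indicator (St n m x b)
            (fun g => (fun a s => max (s - (x + b (m + 1) - a)) 0) (ps g m) (g ⟨m, hm'⟩)) g
            ∂Ga (Fin n) := by
        rw [hY]
        exact integral_add hA hF
      -- first part
      have hB : Integrable (fun g : Fin n → ℝ => Set.indicator (St n m x b)
          (fun g => g ⟨m, hm'⟩) g) (Ga (Fin n)) :=
        ((memLp_coord _).integrable (by norm_num)).indicator (hSm m)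
      have hz : ∫ g : Fin n → ℝ, Set.indicator (St n m x b) (fun g => g ⟨m, hm'⟩) g
          ∂Ga (Fin n) = 0 := by
        have := step (n := n) m hm' x b (fun _ s => s) hB
        rw [this]
        have h2 : (∫ s : ℝ, s ∂gaussianReal 0 1) = 0 := integral_id'
        simp only [h2]
        simp
      have e2 : ∫ g : Fin n → ℝ, Set.indicator (St n m x b)
            (fun g => x + b (m + 1) - ps g (m + 1)) g ∂Ga (Fin n) =
          (∫ g : Fin n → ℝ, Set.indicator (St n m x b)
            (fun g => x + b m - ps g m) g ∂Ga (Fin n)) +
          (b (m + 1) - b m) * (Ga (Fin n)).real (St n m x b) := by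
        have h3 : (fun g : Fin n → ℝ => Set.indicator (St n m x b)
            (fun g => x + b (m + 1) - ps g (m + 1)) g) = fun g => (Set.indicator (St n m x b)
            (fun g => x + b m - ps g m) g + Set.indicator (St n m x b)
            (fun _ => b (m + 1) - b m) g) - Set.indicator (St n m x b)
            (fun g => g ⟨m, hm'⟩) g := by
          funext g
          by_cases hg : g ∈ St n m x b
          · simp only [Set.indicator_of_mem hg]
            rw [ps_succ g m hm']
            ring
          · simp [Set.indicator_of_notMem hg]
        have h4 : Integrable (fun g : Fin n → ℝ => Set.indicator (St n m x b)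
            (fun _ => b (m + 1) - b m) g) (Ga (Fin n)) := (integrable_const _).indicator (hSm m)
        have h5 : ∫ g : Fin n → ℝ, (Set.indicator (St n m x b)
            (fun g => x + b m - ps g m) g + Set.indicator (St n m x b)
            (fun _ => b (m + 1) - b m) g) ∂Ga (Fin n) =
            (∫ g : Fin n → ℝ, Set.indicator (St n m x b)
            (fun g => x + b m - ps g m) g ∂Ga (Fin n)) +
            ∫ g : Fin n → ℝ, Set.indicator (St n m x b)
            (fun _ => b (m + 1) - b m) g ∂Ga (Fin n) := integral_add (hI m m (x + b m)) h4
        have h6 : ∫ g : Fin n → ℝ, Set.indicator (St n m x b)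
            (fun _ => b (m + 1) - b m) g ∂Ga (Fin n) =
            (b (m + 1) - b m) * (Ga (Fin n)).real (St n m x b) := by
          rw [integral_indicator (hSm m)]
          simp [mul_comm]
        have h7 : ∫ g : Fin n → ℝ, ((Set.indicator (St n m x b)
            (fun g => x + b m - ps g m) g + Set.indicator (St n m x b)
            (fun _ => b (m + 1) - b m) g) - Set.indicator (St n m x b)
            (fun g => g ⟨m, hm'⟩) g) ∂Ga (Fin n) =
            (∫ g : Fin n → ℝ, (Set.indicator (St n m x b)
            (fun g => x + b m - ps g m) g + Set.indicator (St n m x b)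
            (fun _ => b (m + 1) - b m) g) ∂Ga (Fin n)) -
            ∫ g : Fin n → ℝ, Set.indicator (St n m x b) (fun g => g ⟨m, hm'⟩) g ∂Ga (Fin n) :=
          integral_sub ((hI m m (x + b m)).add h4) hB
        rw [h3, h7, hz, sub_zero, h5, h6]
      -- second part
      have e3 : ∫ g : Fin n → ℝ, Set.indicator (St n m x b)
            (fun g => (fun a s => max (s - (x + b (m + 1) - a)) 0) (ps g m) (g ⟨m, hm'⟩)) g
            ∂Ga (Fin n) ≤ (Ga (Fin n)).real (St n m x b) - (Ga (Fin n)).real (St n (m + 1) x b) := by
        have hs1 := step (n := n) m hm' x b (fun a s => max (s - (x + b (m + 1) - a)) 0) hF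
        rw [hs1]
        -- the exit probability
        have hE : MeasurableSet {g : Fin n → ℝ | x + b (m + 1) < ps g (m + 1)} :=
          measurableSet_lt measurable_const (measurable_ps (m + 1))
        have hG : Integrable (fun g : Fin n → ℝ => Set.indicator (St n m x b)
            (fun g => (fun a s => if x + b (m + 1) - a < s then (1 : ℝ) else 0) (ps g m)
              (g ⟨m, hm'⟩)) g) (Ga (Fin n)) := by
          refine ((integrable_const (1 : ℝ)).indicator ((hSm m).inter hE)).congr
            (Filter.Eventually.of_forall ?_)
          intro g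
          simp only
          by_cases hg : g ∈ St n m x b
          · rw [Set.indicator_of_mem hg]
            by_cases hg' : x + b (m + 1) < ps g (m + 1)
            · rw [Set.indicator_of_mem (show g ∈ St n m x b ∩
                {g : Fin n → ℝ | x + b (m + 1) < ps g (m + 1)} from ⟨hg, hg'⟩), if_pos]
              rw [ps_succ g m hm'] at hg'
              linarith
            · rw [Set.indicator_of_notMem (fun h => hg' h.2), if_neg]
              rw [ps_succ g m hm'] at hg'
              intro h
              apply hg'
              linarith
          · rw [Set.indicator_of_notMem hg, Set.indicator_of_notMem (fun h => hg h.1)]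
        have hs2 := step (n := n) m hm' x b
          (fun a s => if x + b (m + 1) - a < s then (1 : ℝ) else 0) hG
        have hexit : (Ga (Fin n)).real (St n m x b) - (Ga (Fin n)).real (St n (m + 1) x b) =
            ∫ g : Fin n → ℝ, Set.indicator (St n m x b)
            (fun g => (fun a s => if x + b (m + 1) - a < s then (1 : ℝ) else 0) (ps g m)
              (g ⟨m, hm'⟩)) g ∂Ga (Fin n) := by
          have q1 : ∀ m, (Ga (Fin n)).real (St n m x b) = ∫ g : Fin n → ℝ,
              Set.indicator (St n m x b) (fun _ => (1 : ℝ)) g ∂Ga (Fin n) := by
            intro m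
            rw [integral_indicator (hSm m)]
            simp
          rw [q1, q1, ← integral_sub ((integrable_const (1 : ℝ)).indicator (hSm m))
            ((integrable_const (1 : ℝ)).indicator (hSm (m + 1)))]
          refine integral_congr_ae (Filter.Eventually.of_forall ?_)
          intro g
          simp only
          by_cases hg : g ∈ St n m x b
          · rw [Set.indicator_of_mem hg, Set.indicator_of_mem hg]
            by_cases hg' : g ∈ St n (m + 1) x b
            · rw [Set.indicator_of_mem hg', if_neg, sub_self]
              have h1 := ((mem_St_succ g m x b).mp hg').2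
              rw [ps_succ g m hm'] at h1
              linarith
            · rw [Set.indicator_of_notMem hg', if_pos, sub_zero]
              have h1 : ¬ ps g (m + 1) ≤ x + b (m + 1) := fun h =>
                hg' ((mem_St_succ g m x b).mpr ⟨hg, h⟩)
              rw [ps_succ g m hm', not_le] at h1
              linarith
          · have hg' : g ∉ St n (m + 1) x b := fun h => hg ((mem_St_succ g m x b).mp h).1
            rw [Set.indicator_of_notMem hg, Set.indicator_of_notMem hg',
              Set.indicator_of_notMem hg, sub_self]
        rw [hexit, hs2]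
        refine integral_mono_of_nonneg (Filter.Eventually.of_forall ?_) ?_
          (Filter.Eventually.of_forall ?_)
        · intro g
          exact Set.indicator_nonneg (fun _ _ => integral_nonneg (fun _ => le_max_right _ _)) _
        · refine Integrable.mono' ((integrable_const (1 : ℝ))) ?_ (Filter.Eventually.of_forall ?_)
          · have h7 : Set.indicator (St n m x b) (fun g : Fin n → ℝ => ∫ s,
                (if x + b (m + 1) - ps g m < s then (1 : ℝ) else 0) ∂gaussianReal 0 1) =
                Set.indicator (St n m x b) (fun g =>
                  (gaussianReal 0 1).real (Set.Ioi (x + b (m + 1) - ps g m))) := by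
              congr 1
              funext g
              have : (fun s : ℝ => if x + b (m + 1) - ps g m < s then (1 : ℝ) else 0) =
                  Set.indicator (Set.Ioi (x + b (m + 1) - ps g m)) (fun _ => (1 : ℝ)) := by
                funext s
                simp [Set.indicator_apply]
              rw [this, integral_indicator measurableSet_Ioi]
              simp
            rw [h7]
            refine (Measurable.indicator ?_ (hSm m)).aestronglyMeasurable
            have hanti : Antitone (fun z : ℝ => (gaussianReal 0 1).real (Set.Ioi z)) := by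
              intro z w hzw
              exact measureReal_mono (Set.Ioi_subset_Ioi hzw)
            exact hanti.measurable.comp ((measurable_const).sub (measurable_ps m))
          · intro g
            by_cases hg : g ∈ St n m x b
            · rw [Set.indicator_of_mem hg]
              have : (fun s : ℝ => if x + b (m + 1) - ps g m < s then (1 : ℝ) else 0) =
                  Set.indicator (Set.Ioi (x + b (m + 1) - ps g m)) (fun _ => (1 : ℝ)) := by
                funext s
                simp [Set.indicator_apply]
              rw [this, integral_indicator measurableSet_Ioi]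
              simp only [integral_const, smul_eq_mul, mul_one, MeasurableSet.univ,
                measureReal_restrict_apply, Set.univ_inter, Real.norm_eq_abs]
              rw [abs_of_nonneg measureReal_nonneg]
              exact measureReal_le_one
            · rw [Set.indicator_of_notMem hg]
              simp
        · intro g
          by_cases hg : g ∈ St n m x b
          · rw [Set.indicator_of_mem hg, Set.indicator_of_mem hg]
            have hd : 0 ≤ x + b (m + 1) - ps g m := by
              rcases Nat.eq_zero_or_pos m with h | h
              · subst h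
                rw [ps_zero]
                have := hmono (Nat.zero_le 1)
                simp only [zero_add]
                linarith
              · have h1 := hg m h le_rfl
                have h2 := hmono (Nat.le_succ m)
                simp only [Nat.succ_eq_add_one] at h2
                linarith
            refine (mills _ hd).trans (le_of_eq ?_)
            have : (fun s : ℝ => if x + b (m + 1) - ps g m < s then (1 : ℝ) else 0) =
                Set.indicator (Set.Ioi (x + b (m + 1) - ps g m)) (fun _ => (1 : ℝ)) := by
              funext s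
              simp [Set.indicator_apply]
            rw [this, integral_indicator measurableSet_Ioi]
            simp
          · rw [Set.indicator_of_notMem hg, Set.indicator_of_notMem hg]
      rw [e1, e2]
      linarith
  have := key n le_rfl
  have h0 : 0 ≤ (Ga (Fin n)).real (St n n x b) := measureReal_nonneg
  linarith

end PN
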