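import Pool.Agent.H24.PN.Stmts

/-! Part 2 of project PM (MP_d91868_an), module ORT: orthonormal rows map the standard Gaussian
measure to the standard Gaussian measure (helper12). -/

namespace PN
open MeasureTheory Complex ProbabilityTheory PM

theorem ORT_char {κ : Type} [Fintype κ] (s : κ → ℝ) :
    ∫ g : κ → ℝ, cexp (((∑ k, s k * g k : ℝ) : ℂ) * I) ∂Ga κ =
      cexp (-(((∑ k, s k ^ 2 : ℝ) : ℂ) / 2)) := by
  have h := charFun_pi (μ := fun _ : κ => gaussianReal 0 1) (WithLp.toLp 2 s)
  have h2 : charFun ((Measure.pi (fun _ : κ => gaussianReal 0 1)).map (WithLp.toLp 2))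
      (WithLp.toLp 2 s) = ∫ g : κ → ℝ, cexp (((∑ k, s k * g k : ℝ) : ℂ) * I) ∂Ga κ := by
    rw [charFun_apply, ← MeasurableEquiv.coe_toLp, integral_map_equiv]
    unfold Ga
    congr 1
  rw [← h2, h]
  simp only [charFun_gaussianReal]
  rw [← Complex.exp_sum]
  congr 1
  push_cast
  rw [Finset.sum_div, ← Finset.sum_neg_distrib]
  refine Finset.sum_congr rfl fun k _ => ?_
  simp

theorem ORT : S_ORT := by
  intro κ κ' _ _ _ a ha
  have hmeas : Measurable (fun (g : κ → ℝ) (i : κ') => ∑ k, a i k * g k) := by fun_prop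
  refine ⟨hmeas, ?_⟩
  have : IsProbabilityMeasure ((Ga κ).map (fun (g : κ → ℝ) (i : κ') => ∑ k, a i k * g k)) :=
    Measure.isProbabilityMeasure_map hmeas.aemeasurable
  show (Ga κ).map (fun (g : κ → ℝ) (i : κ') => ∑ k, a i k * g k) =
    Measure.pi (fun _ : κ' => gaussianReal 0 1)
  rw [← charFun_eq_pi_iff]
  intro t
  have h1 : charFun (((Ga κ).map (fun (g : κ → ℝ) (i : κ') => ∑ k, a i k * g k)).map
      (WithLp.toLp 2)) t = ∫ g : κ → ℝ,
        cexp (((∑ k, (∑ i, t i * a i k) * g k : ℝ) : ℂ) * I) ∂Ga κ := by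
    rw [charFun_apply, ← MeasurableEquiv.coe_toLp, integral_map_equiv,
      integral_map hmeas.aemeasurable]
    · congr 1
      funext g
      congr 2
      rw [MeasurableEquiv.coe_toLp, PiLp.inner_apply]
      congr 1
      simp only [Finset.sum_mul, RCLike.inner_apply, conj_trivial]
      rw [Finset.sum_comm]
      refine Finset.sum_congr rfl fun i _ => ?_
      rw [Finset.mul_sum]
      refine Finset.sum_congr rfl fun k _ => ?_
      ring
    · refine Measurable.aestronglyMeasurable ?_
      refine Complex.measurable_exp.comp ?_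
      refine Measurable.mul_const ?_ _
      refine Complex.measurable_ofReal.comp ?_
      fun_prop
  rw [h1, ORT_char]
  simp only [charFun_gaussianReal]
  rw [← Complex.exp_sum]
  congr 1
  have key : ∑ k, (∑ i, t i * a i k) ^ 2 = ∑ i, (t i) ^ 2 := by
    have e1 : ∀ k, (∑ i, t i * a i k) ^ 2 = ∑ i, ∑ j, t i * t j * (a i k * a j k) := by
      intro k
      rw [sq, Finset.sum_mul_sum]
      refine Finset.sum_congr rfl fun i _ => Finset.sum_congr rfl fun j _ => ?_
      ring
    simp only [e1]
    rw [Finset.sum_comm]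
    refine Finset.sum_congr rfl fun i _ => ?_
    rw [Finset.sum_comm]
    have e2 : ∀ j, ∑ k, t i * t j * (a i k * a j k) = t i * t j * (if i = j then 1 else 0) := by
      intro j
      rw [← Finset.mul_sum, ha i j]
    simp only [e2]
    simp [sq]
  rw [key]
  push_cast
  rw [Finset.sum_div, ← Finset.sum_neg_distrib]
  refine Finset.sum_congr rfl fun k _ => ?_
  simp

end PN
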