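import Pool.Agent.H24.PN.Stmts
import Pool.Agent.H31.PM.Tools

/-! Module OUB of project PM part 2: the part of the mean square above height 1, gamma = 1. -/

namespace PN
open MeasureTheory Complex ProbabilityTheory PM PM.T31

/-! elementary sums -/

theorem oub_step {x ε : ℝ} (hx : 0 < x) (hε : 0 < ε) :
    (x + 1) ^ (-(1 + ε)) ≤ 1 / ε * (x ^ (-ε) - (x + 1) ^ (-ε)) := by
  have h1 : 0 < x + 1 := by linarith
  have h2 : 0 < x / (x + 1) := by positivity
  have h3 : 1 + ε / (x + 1) ≤ (x / (x + 1)) ^ (-ε) := by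
    rw [Real.rpow_def_of_pos h2]
    have h4 := Real.log_le_sub_one_of_pos h2
    have h5 := Real.add_one_le_exp (Real.log (x / (x + 1)) * -ε)
    have h6 : x / (x + 1) - 1 = -(1 / (x + 1)) := by field_simp; ring
    rw [h6] at h4
    have h7 : ε / (x + 1) = ε * (1 / (x + 1)) := by ring
    rw [h7]
    nlinarith
  have h8 : x ^ (-ε) = (x + 1) ^ (-ε) * (x / (x + 1)) ^ (-ε) := by
    rw [← Real.mul_rpow h1.le h2.le, mul_div_cancel₀ _ h1.ne']
  have h9 : (x + 1) ^ (-(1 + ε)) = (x + 1) ^ (-ε) * (1 / (x + 1)) := by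
    have : -(1 + ε) = -ε + -1 := by ring
    rw [this, Real.rpow_add h1, Real.rpow_neg_one, one_div]
  have h10 : 0 < (x + 1) ^ (-ε) := Real.rpow_pos_of_pos h1 _
  rw [h8, h9]
  have h11 := mul_le_mul_of_nonneg_left h3 h10.le
  have h12 : 1 / ε * ((x + 1) ^ (-ε) * (1 + ε / (x + 1)) - (x + 1) ^ (-ε)) =
      (x + 1) ^ (-ε) * (1 / (x + 1)) := by
    field_simp
    ring
  rw [← h12]
  exact mul_le_mul_of_nonneg_left (by linarith) (by positivity)

theorem oub_tel {ε : ℝ} (hε : 0 < ε) (B : ℕ) :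
    ∑ b ∈ Finset.range B, ((b : ℝ) + 1) ^ (-(1 + ε)) ≤ 1 + 1 / ε := by
  have key : ∀ B : ℕ, ∑ b ∈ Finset.range (B + 1), ((b : ℝ) + 1) ^ (-(1 + ε)) ≤
      1 + 1 / ε * (1 - ((B : ℝ) + 1) ^ (-ε)) := by
    intro B
    induction B with
    | zero => simp
    | succ B ih =>
      rw [Finset.sum_range_succ]
      have h := oub_step (x := (B : ℝ) + 1) (by positivity) hε
      push_cast
      have h2 : 1 / ε * (1 - ((B : ℝ) + 1) ^ (-ε)) + 1 / ε * (((B : ℝ) + 1) ^ (-ε) -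
          ((B : ℝ) + 1 + 1) ^ (-ε)) = 1 / ε * (1 - ((B : ℝ) + 1 + 1) ^ (-ε)) := by ring
      linarith
  rcases B with _ | B
  · simp only [Finset.range_zero, Finset.sum_empty]; positivity
  · refine (key B).trans ?_
    have h1 : 0 < ((B : ℝ) + 1) ^ (-ε) := Real.rpow_pos_of_pos (by positivity) _
    have h2 : 1 / ε * (1 - ((B : ℝ) + 1) ^ (-ε)) ≤ 1 / ε * 1 :=
      mul_le_mul_of_nonneg_left (by linarith) (by positivity)
    linarith

theorem oub_geo {ε : ℝ} (hε : 0 < ε) (S : ℕ) :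
    ∑ s ∈ Finset.range S, Real.exp (-(ε * s)) ≤ 1 + 1 / ε := by
  have key : ∀ S : ℕ, ∑ s ∈ Finset.range S, Real.exp (-(ε * s)) ≤
      (1 + 1 / ε) * (1 - Real.exp (-(ε * S))) := by
    intro S
    induction S with
    | zero => simp
    | succ S ih =>
      rw [Finset.sum_range_succ]
      have h1 : Real.exp (-(ε * ((S + 1 : ℕ) : ℝ))) = Real.exp (-(ε * S)) * Real.exp (-ε) := by
        rw [← Real.exp_add]; congr 1; push_cast; ring
      have h2 : Real.exp (-ε) ≤ 1 / (1 + ε) := by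
        rw [Real.exp_neg, ← one_div]
        refine one_div_le_one_div_of_le (by linarith) ?_
        have := Real.add_one_le_exp ε
        linarith
      have h3 : (1 + 1 / ε) * (1 - Real.exp (-ε)) ≥ 1 := by
        have h4 : (1 + 1 / ε) * (1 - 1 / (1 + ε)) = 1 := by field_simp; ring
        have h5 : (1 + 1 / ε) * (1 - 1 / (1 + ε)) ≤ (1 + 1 / ε) * (1 - Real.exp (-ε)) :=
          mul_le_mul_of_nonneg_left (by linarith) (by positivity)
        linarith
      have h5 := mul_le_mul_of_nonneg_left h3 (Real.exp_pos (-(ε * S))).le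
      rw [h1]
      nlinarith
  refine (key S).trans ?_
  have h1 := Real.exp_pos (-(ε * S))
  have h2 : (1 + 1 / ε) * (1 - Real.exp (-(ε * S))) ≤ (1 + 1 / ε) * 1 :=
    mul_le_mul_of_nonneg_left (by linarith) (by positivity)
  linarith

theorem oub_key1 {a N M s v w : ℝ} (ha : 0 < a) (hM : 1 ≤ M) (hMN : M ^ 2 = N) (hs : 0 ≤ s)
    (hsv : s ≤ v) (hwv : w ≤ v) :
    (1 + v) * Real.exp (-a * v ^ 2 / N) ≤
      (Real.exp (3 / (4 * a)) * Real.exp (a / 3)) * M * Real.exp (-(a / 3) * s ^ 2 / N) *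
        Real.exp (-(2 * a / 3 / M * w)) := by
  have hM0 : 0 < M := by linarith
  have hN0 : 0 < N := by rw [← hMN]; positivity
  have hv : 0 ≤ v := hs.trans hsv
  set r := v / M with hr
  have hr0 : 0 ≤ r := by positivity
  have hrN : v ^ 2 / N = r ^ 2 := by rw [hr, ← hMN]; field_simp
  have e0 : Real.exp (-a * v ^ 2 / N) = Real.exp (-(a / 3) * r ^ 2) *
      Real.exp (-(a / 3) * (v ^ 2 / N)) * Real.exp (-(a / 3) * r ^ 2) := by
    rw [← Real.exp_add, ← Real.exp_add, hrN]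
    congr 1
    have : -a * v ^ 2 / N = -a * (v ^ 2 / N) := by ring
    rw [this, hrN]; ring
  have e1 : (1 + v) ≤ M * Real.exp r := by
    have h1 : v = M * r := by rw [hr]; field_simp
    have h2 := Real.add_one_le_exp r
    calc 1 + v ≤ M + M * r := by rw [← h1]; linarith
      _ = M * (r + 1) := by ring
      _ ≤ _ := mul_le_mul_of_nonneg_left h2 hM0.le
  have e2 : Real.exp r * Real.exp (-(a / 3) * r ^ 2) ≤ Real.exp (3 / (4 * a)) := by
    rw [← Real.exp_add]
    refine Real.exp_le_exp.2 ?_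
    have h3 : 3 / (4 * a) - (r + -(a / 3) * r ^ 2) = (a / 3) * (r - 3 / (2 * a)) ^ 2 := by
      field_simp
      ring
    have h4 : 0 ≤ (a / 3) * (r - 3 / (2 * a)) ^ 2 := by positivity
    linarith
  have e3 : Real.exp (-(a / 3) * (v ^ 2 / N)) ≤ Real.exp (-(a / 3) * s ^ 2 / N) := by
    refine Real.exp_le_exp.2 ?_
    have h5 : s ^ 2 / N ≤ v ^ 2 / N :=
      div_le_div_of_nonneg_right (pow_le_pow_left₀ hs hsv 2) hN0.le
    have h6 : -(a / 3) * s ^ 2 / N = -(a / 3) * (s ^ 2 / N) := by ring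
    rw [h6]
    have h7 := mul_le_mul_of_nonneg_left h5 (show 0 ≤ a / 3 by positivity)
    linarith
  have e4 : Real.exp (-(a / 3) * r ^ 2) ≤ Real.exp (a / 3) * Real.exp (-(2 * a / 3 / M * w)) := by
    rw [← Real.exp_add]
    refine Real.exp_le_exp.2 ?_
    have h8 : w / M ≤ r := div_le_div_of_nonneg_right hwv hM0.le
    have h9 : 0 ≤ (a / 3) * (r - 1) ^ 2 := by positivity
    have h10 : 2 * a / 3 / M * w = (2 * a / 3) * (w / M) := by ring
    rw [h10]
    have h11 := mul_le_mul_of_nonneg_left h8 (show 0 ≤ 2 * a / 3 by positivity)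
    nlinarith
  rw [e0]
  calc (1 + v) * (Real.exp (-(a / 3) * r ^ 2) * Real.exp (-(a / 3) * (v ^ 2 / N)) *
        Real.exp (-(a / 3) * r ^ 2))
      ≤ (M * Real.exp r) * (Real.exp (-(a / 3) * r ^ 2) * Real.exp (-(a / 3) * (v ^ 2 / N)) *
        Real.exp (-(a / 3) * r ^ 2)) := mul_le_mul_of_nonneg_right e1 (by positivity)
    _ = M * (Real.exp r * Real.exp (-(a / 3) * r ^ 2)) * (Real.exp (-(a / 3) * (v ^ 2 / N))) *
        (Real.exp (-(a / 3) * r ^ 2)) := by ring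
    _ ≤ M * Real.exp (3 / (4 * a)) * Real.exp (-(a / 3) * s ^ 2 / N) *
        (Real.exp (a / 3) * Real.exp (-(2 * a / 3 / M * w))) := by
        gcongr
    _ = _ := by ring

theorem oub_key2 {a s v w : ℝ} (ha : 0 < a) (hs : 0 ≤ s)
    (hsv : s ≤ v) (hwv : w ≤ v) :
    (1 + v) * Real.exp (-a * v) ≤
      (1 + 3 / a) * Real.exp (-(a / 3 * s)) * Real.exp (-(a / 3 * w)) := by
  have hv : 0 ≤ v := hs.trans hsv
  have e0 : Real.exp (-a * v) = Real.exp (-(a / 3 * v)) * Real.exp (-(a / 3 * v)) *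
      Real.exp (-(a / 3 * v)) := by
    rw [← Real.exp_add, ← Real.exp_add]; congr 1; ring
  have e1 : (1 + v) * Real.exp (-(a / 3 * v)) ≤ 1 + 3 / a := by
    have h1 := Real.add_one_le_exp (a / 3 * v)
    have h2 : 1 ≤ Real.exp (a / 3 * v) := Real.one_le_exp (by positivity)
    have h3 : v ≤ 3 / a * Real.exp (a / 3 * v) := by
      have h4 : v = 3 / a * (a / 3 * v) := by field_simp
      calc v = 3 / a * (a / 3 * v) := h4
        _ ≤ 3 / a * Real.exp (a / 3 * v) := mul_le_mul_of_nonneg_left (by linarith) (by positivity)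
    have h5 : 1 + v ≤ (1 + 3 / a) * Real.exp (a / 3 * v) := by
      rw [add_mul, one_mul]; linarith
    calc (1 + v) * Real.exp (-(a / 3 * v)) ≤
        ((1 + 3 / a) * Real.exp (a / 3 * v)) * Real.exp (-(a / 3 * v)) :=
          mul_le_mul_of_nonneg_right h5 (Real.exp_pos _).le
      _ = 1 + 3 / a := by
          rw [mul_assoc, ← Real.exp_add, add_neg_cancel, Real.exp_zero, mul_one]
  have e2 : Real.exp (-(a / 3 * v)) ≤ Real.exp (-(a / 3 * s)) := by
    refine Real.exp_le_exp.2 ?_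
    have := mul_le_mul_of_nonneg_left hsv (show 0 ≤ a / 3 by positivity)
    linarith
  have e3 : Real.exp (-(a / 3 * v)) ≤ Real.exp (-(a / 3 * w)) := by
    refine Real.exp_le_exp.2 ?_
    have := mul_le_mul_of_nonneg_left hwv (show 0 ≤ a / 3 by positivity)
    linarith
  rw [e0]
  calc (1 + v) * (Real.exp (-(a / 3 * v)) * Real.exp (-(a / 3 * v)) * Real.exp (-(a / 3 * v)))
      = ((1 + v) * Real.exp (-(a / 3 * v))) * Real.exp (-(a / 3 * v)) *
        Real.exp (-(a / 3 * v)) := by ring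
    _ ≤ _ := by gcongr

/-- the constant -/
noncomputable def oubD (c : ℝ) : ℝ :=
  Real.exp (3 / c) * Real.exp (c / 12) * (1 + 6 / c) + (1 + 6 / c) * (1 + 6 / c)

/-- the exponent of block b at level s -/
noncomputable def oubx (N s : ℝ) (b : ℕ) : ℝ := (s + Real.log ((b : ℝ) + 1) + Real.log N) / 2

theorem oub_sum {c N s : ℝ} (hc : 0 < c) (hN : 1 ≤ N) (hs : 0 ≤ s) (B : ℕ) :
    ∑ b ∈ Finset.range B, (1 + oubx N s b) * Real.exp (-2 * oubx N s b) *
      (Real.exp (-c * (oubx N s b) ^ 2 / N) + Real.exp (-c * oubx N s b)) ≤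
    oubD c * Real.exp (-s) * (Real.exp (-(c / 12) * s ^ 2 / N) + Real.exp (-(c / 12) * s)) := by
  set M := Real.sqrt N with hM
  have hM1 : 1 ≤ M := by
    rw [hM, ← Real.sqrt_one]; exact Real.sqrt_le_sqrt hN
  have hM0 : 0 < M := by linarith
  have hMN : M ^ 2 = N := Real.sq_sqrt (by linarith)
  have hN0 : 0 < N := by linarith
  have hlN : 0 ≤ Real.log N := Real.log_nonneg hN
  set E1 := Real.exp (-(c / 12) * s ^ 2 / N) with hE1
  set E2 := Real.exp (-(c / 12) * s) with hE2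
  have hE1p : 0 < E1 := Real.exp_pos _
  have hE2p : 0 < E2 := Real.exp_pos _
  obtain ⟨ε1, hε1⟩ : ∃ e : ℝ, e = c / 6 / M := ⟨_, rfl⟩
  obtain ⟨ε2, hε2⟩ : ∃ e : ℝ, e = c / 6 := ⟨_, rfl⟩
  have hε1p : 0 < ε1 := by rw [hε1]; positivity
  have hε2p : 0 < ε2 := by rw [hε2]; positivity
  set D1 : ℝ := Real.exp (3 / c) * Real.exp (c / 12) with hD1
  have hD1p : 0 < D1 := by positivity
  have hterm : ∀ b : ℕ, (1 + oubx N s b) * Real.exp (-2 * oubx N s b) *
      (Real.exp (-c * (oubx N s b) ^ 2 / N) + Real.exp (-c * oubx N s b)) ≤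
      Real.exp (-s) / N * (D1 * M * E1 * ((b : ℝ) + 1) ^ (-(1 + ε1)) +
        (1 + 6 / c) * E2 * ((b : ℝ) + 1) ^ (-(1 + ε2))) := by
    intro b
    have hb1 : (1 : ℝ) ≤ (b : ℝ) + 1 := by
      have : (0 : ℝ) ≤ b := Nat.cast_nonneg b
      linarith
    have hb0 : (0 : ℝ) < (b : ℝ) + 1 := by linarith
    set w := Real.log ((b : ℝ) + 1) with hw
    have hw0 : 0 ≤ w := Real.log_nonneg hb1
    set v := s + w + Real.log N with hv
    have hx : oubx N s b = v / 2 := rfl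
    have hv0 : 0 ≤ v := by linarith
    have k1 := oub_key1 (a := c / 4) (v := v) (w := w) (by positivity) hM1 hMN hs (by linarith)
      (by linarith)
    have k2 := oub_key2 (a := c / 2) (s := s) (v := v) (w := w) (by positivity) hs (by linarith)
      (by linarith)
    have g1 : Real.exp (3 / (4 * (c / 4))) * Real.exp (c / 4 / 3) = D1 := by
      rw [hD1]; congr 2 <;> (field_simp <;> norm_num)
    have g2 : -(c / 4 / 3) * s ^ 2 / N = -(c / 12) * s ^ 2 / N := by ring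
    have g3 : 2 * (c / 4) / 3 / M * w = ε1 * w := by rw [hε1]; ring
    rw [g1, g2, g3, ← hE1] at k1
    have g4 : 1 + 3 / (c / 2) = 1 + 6 / c := by field_simp; norm_num
    have g5 : c / 2 / 3 * w = ε2 * w := by rw [hε2]; ring
    have g6 : Real.exp (-(c / 2 / 3 * s)) ≤ E2 := by
      rw [hE2]
      refine Real.exp_le_exp.2 ?_
      have := mul_nonneg hc.le hs
      linarith
    rw [g4, g5] at k2
    have k2' : (1 + v) * Real.exp (-(c / 2) * v) ≤ (1 + 6 / c) * E2 * Real.exp (-(ε2 * w)) := by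
      refine k2.trans ?_
      gcongr
    rw [hx]
    have h1 : Real.exp (-c * (v / 2) ^ 2 / N) = Real.exp (-(c / 4) * v ^ 2 / N) := by
      congr 1; ring
    have h2 : Real.exp (-c * (v / 2)) = Real.exp (-(c / 2) * v) := by congr 1; ring
    have h3 : Real.exp (-2 * (v / 2)) = Real.exp (-s) / N * Real.exp (-w) := by
      have : -2 * (v / 2) = -s + -w + -Real.log N := by rw [hv]; ring
      rw [this, Real.exp_add, Real.exp_add, Real.exp_neg (Real.log N), Real.exp_log hN0]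
      field_simp
    have h4 : ∀ ε : ℝ, Real.exp (-w) * Real.exp (-(ε * w)) = ((b : ℝ) + 1) ^ (-(1 + ε)) := by
      intro ε
      rw [Real.rpow_def_of_pos hb0, ← Real.exp_add, ← hw]
      congr 1; ring
    have h5 : 1 + v / 2 ≤ 1 + v := by linarith
    rw [h1, h2, h3]
    calc (1 + v / 2) * (Real.exp (-s) / N * Real.exp (-w)) *
          (Real.exp (-(c / 4) * v ^ 2 / N) + Real.exp (-(c / 2) * v))
        ≤ (1 + v) * (Real.exp (-s) / N * Real.exp (-w)) *
          (Real.exp (-(c / 4) * v ^ 2 / N) + Real.exp (-(c / 2) * v)) := by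
          gcongr
      _ = (Real.exp (-s) / N * Real.exp (-w)) * ((1 + v) * Real.exp (-(c / 4) * v ^ 2 / N) +
          (1 + v) * Real.exp (-(c / 2) * v)) := by ring
      _ ≤ (Real.exp (-s) / N * Real.exp (-w)) * (D1 * M * E1 * Real.exp (-(ε1 * w)) +
          (1 + 6 / c) * E2 * Real.exp (-(ε2 * w))) :=
          mul_le_mul_of_nonneg_left (add_le_add k1 k2') (by positivity)
      _ = Real.exp (-s) / N * (D1 * M * E1 * (Real.exp (-w) * Real.exp (-(ε1 * w))) +
          (1 + 6 / c) * E2 * (Real.exp (-w) * Real.exp (-(ε2 * w)))) := by ring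
      _ = _ := by rw [h4, h4]
  refine (Finset.sum_le_sum fun b _ => hterm b).trans ?_
  rw [← Finset.mul_sum, Finset.sum_add_distrib, ← Finset.mul_sum, ← Finset.mul_sum]
  have t1 := oub_tel hε1p B
  have t2 := oub_tel hε2p B
  have h6 : 1 + 1 / ε1 ≤ M * (1 + 6 / c) := by
    have : 1 / ε1 = M * (6 / c) := by rw [hε1]; field_simp
    rw [this]; nlinarith
  have h7 : 1 + 1 / ε2 = 1 + 6 / c := by rw [hε2]; field_simp
  rw [h7] at t2
  have h8 : D1 * M * E1 * ∑ b ∈ Finset.range B, ((b : ℝ) + 1) ^ (-(1 + ε1)) ≤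
      D1 * M * E1 * (M * (1 + 6 / c)) :=
    mul_le_mul_of_nonneg_left (t1.trans h6) (by positivity)
  have h9 : (1 + 6 / c) * E2 * ∑ b ∈ Finset.range B, ((b : ℝ) + 1) ^ (-(1 + ε2)) ≤
      (1 + 6 / c) * E2 * (1 + 6 / c) :=
    mul_le_mul_of_nonneg_left t2 (by positivity)
  calc Real.exp (-s) / N * (D1 * M * E1 * ∑ b ∈ Finset.range B, ((b : ℝ) + 1) ^ (-(1 + ε1)) +
        (1 + 6 / c) * E2 * ∑ b ∈ Finset.range B, ((b : ℝ) + 1) ^ (-(1 + ε2)))
      ≤ Real.exp (-s) / N * (D1 * M * E1 * (M * (1 + 6 / c)) +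
        (1 + 6 / c) * E2 * (1 + 6 / c)) :=
        mul_le_mul_of_nonneg_left (add_le_add h8 h9) (by positivity)
    _ = Real.exp (-s) * (D1 * (1 + 6 / c) * E1 + (1 + 6 / c) * (1 + 6 / c) * E2 / N) := by
        rw [← hMN]; field_simp
    _ ≤ Real.exp (-s) * (D1 * (1 + 6 / c) * E1 + (1 + 6 / c) * (1 + 6 / c) * E2) := by
        refine mul_le_mul_of_nonneg_left ?_ (by positivity)
        have : (1 + 6 / c) * (1 + 6 / c) * E2 / N ≤ (1 + 6 / c) * (1 + 6 / c) * E2 :=
          div_le_self (by positivity) hN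
        linarith
    _ ≤ _ := by
        unfold oubD
        rw [← hD1]
        have a1 : 0 ≤ D1 * (1 + 6 / c) * E2 := by positivity
        have a2 : 0 ≤ (1 + 6 / c) * (1 + 6 / c) * E1 := by positivity
        have a3 := Real.exp_pos (-s)
        have : Real.exp (-s) * (D1 * (1 + 6 / c) * E1 + (1 + 6 / c) * (1 + 6 / c) * E2) ≤
            Real.exp (-s) * ((D1 * (1 + 6 / c) + (1 + 6 / c) * (1 + 6 / c)) * (E1 + E2)) :=
          mul_le_mul_of_nonneg_left (by nlinarith) a3.le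
        linarith

/-- sum over the levels -/
theorem oub_levels {κ N p : ℝ} (hκ : 0 < κ) (hN : 1 ≤ N) (hp1 : p ≤ 1) (S : ℕ) :
    ∑ s ∈ Finset.range S, Real.exp (p * ((s : ℝ) + 1)) * (Real.exp (-(s : ℝ)) *
      (Real.exp (-κ * (s : ℝ) ^ 2 / N) + Real.exp (-κ * s))) ≤
    (if p = 1 then Real.sqrt N * (3 * (Real.exp κ * (1 + 1 / (2 * κ)) + (1 + 1 / κ))) else
      6 * (1 + 1 / (1 - p))) := by
  set M := Real.sqrt N with hM
  have hM1 : 1 ≤ M := by
    rw [hM, ← Real.sqrt_one]; exact Real.sqrt_le_sqrt hN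
  have hM0 : 0 < M := by linarith
  have hMN : M ^ 2 = N := Real.sq_sqrt (by linarith)
  have e1 := Real.exp_one_lt_d9
  have hep : Real.exp p ≤ 3 := (Real.exp_le_exp.2 hp1).trans (by linarith)
  by_cases hp : p = 1
  · rw [if_pos hp]
    subst hp
    have h1 : ∀ s : ℕ, Real.exp (1 * ((s : ℝ) + 1)) * (Real.exp (-(s : ℝ)) *
        (Real.exp (-κ * (s : ℝ) ^ 2 / N) + Real.exp (-κ * s))) ≤
        3 * (Real.exp κ * Real.exp (-(2 * κ / M * s)) + Real.exp (-(κ * s))) := by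
      intro s
      have h2 : Real.exp (1 * ((s : ℝ) + 1)) * Real.exp (-(s : ℝ)) = Real.exp 1 := by
        rw [← Real.exp_add]; congr 1; ring
      have h3 : Real.exp (-κ * (s : ℝ) ^ 2 / N) ≤ Real.exp κ * Real.exp (-(2 * κ / M * s)) := by
        rw [← Real.exp_add]
        refine Real.exp_le_exp.2 ?_
        have h4 : 0 ≤ κ * ((s : ℝ) / M - 1) ^ 2 := by positivity
        have h5 : κ * ((s : ℝ) / M - 1) ^ 2 = κ * (s : ℝ) ^ 2 / N - 2 * κ / M * s + κ := by
          rw [← hMN]; field_simp; ring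
        have h6 : -κ * (s : ℝ) ^ 2 / N = -(κ * (s : ℝ) ^ 2 / N) := by ring
        rw [h6]; linarith
      have h7 : Real.exp (-κ * s) = Real.exp (-(κ * s)) := by congr 1; ring
      rw [← mul_assoc, h2, h7]
      have h8 : 0 ≤ Real.exp κ * Real.exp (-(2 * κ / M * s)) + Real.exp (-(κ * s)) := by positivity
      calc Real.exp 1 * (Real.exp (-κ * (s : ℝ) ^ 2 / N) + Real.exp (-(κ * s)))
          ≤ Real.exp 1 * (Real.exp κ * Real.exp (-(2 * κ / M * s)) + Real.exp (-(κ * s))) :=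
            mul_le_mul_of_nonneg_left (by linarith) (Real.exp_pos _).le
        _ ≤ _ := mul_le_mul_of_nonneg_right (by linarith) h8
    refine (Finset.sum_le_sum fun s _ => h1 s).trans ?_
    rw [← Finset.mul_sum, Finset.sum_add_distrib, ← Finset.mul_sum]
    have g1 := oub_geo (ε := 2 * κ / M) (by positivity) S
    have g2 := oub_geo hκ S
    have g3 : 1 + 1 / (2 * κ / M) ≤ M * (1 + 1 / (2 * κ)) := by
      have : 1 / (2 * κ / M) = M * (1 / (2 * κ)) := by field_simp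
      rw [this]; nlinarith
    have g4 : 1 + 1 / κ ≤ M * (1 + 1 / κ) := le_mul_of_one_le_left (by positivity) hM1
    have g5 := mul_le_mul_of_nonneg_left (g1.trans g3) (Real.exp_pos κ).le
    calc _ ≤ 3 * (Real.exp κ * (M * (1 + 1 / (2 * κ))) + M * (1 + 1 / κ)) :=
          mul_le_mul_of_nonneg_left (add_le_add g5 (g2.trans g4)) (by norm_num)
      _ = _ := by ring
  · rw [if_neg hp]
    have hp2 : 0 < 1 - p := by
      have := lt_of_le_of_ne hp1 hp
      linarith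
    have h1 : ∀ s : ℕ, Real.exp (p * ((s : ℝ) + 1)) * (Real.exp (-(s : ℝ)) *
        (Real.exp (-κ * (s : ℝ) ^ 2 / N) + Real.exp (-κ * s))) ≤
        6 * Real.exp (-((1 - p) * s)) := by
      intro s
      have h2 : Real.exp (p * ((s : ℝ) + 1)) * Real.exp (-(s : ℝ)) =
          Real.exp p * Real.exp (-((1 - p) * s)) := by
        rw [← Real.exp_add, ← Real.exp_add]; congr 1; ring
      have h3 : Real.exp (-κ * (s : ℝ) ^ 2 / N) ≤ 1 := by
        rw [← Real.exp_zero]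
        refine Real.exp_le_exp.2 ?_
        have : 0 ≤ κ * (s : ℝ) ^ 2 / N := by positivity
        have h4 : -κ * (s : ℝ) ^ 2 / N = -(κ * (s : ℝ) ^ 2 / N) := by ring
        rw [h4]; linarith
      have h5 : Real.exp (-κ * s) ≤ 1 := by
        rw [← Real.exp_zero]
        refine Real.exp_le_exp.2 ?_
        have : 0 ≤ κ * (s : ℝ) := by positivity
        linarith
      rw [← mul_assoc, h2]
      have h6 := Real.exp_pos (-((1 - p) * (s : ℝ)))
      have h7 := Real.exp_pos (-κ * (s : ℝ) ^ 2 / N)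
      have h8 := Real.exp_pos (-κ * (s : ℝ))
      calc Real.exp p * Real.exp (-((1 - p) * s)) *
            (Real.exp (-κ * (s : ℝ) ^ 2 / N) + Real.exp (-κ * s))
          ≤ 3 * Real.exp (-((1 - p) * s)) * (1 + 1) := by gcongr
        _ = _ := by ring
    refine (Finset.sum_le_sum fun s _ => h1 s).trans ?_
    rw [← Finset.mul_sum]
    exact mul_le_mul_of_nonneg_left (oub_geo hp2 S) (by norm_num)

/-! soft tails -/

theorem oub_ft_nonneg {lam x : ℝ} (hl : 0 < lam) (hx : 0 ≤ x) : 0 ≤ ft lam x := by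
  unfold ft; positivity

theorem oub_ft_mono {lam x x' : ℝ} (hl : 0 < lam) (hx : 0 ≤ x) (h : x ≤ x') :
    ft lam x ≤ ft lam x' := by
  unfold ft
  rw [div_le_div_iff₀ (by linarith) (by linarith)]
  nlinarith

theorem oub_ft_le_one {lam x : ℝ} (hl : 0 < lam) (hx : 0 ≤ x) : ft lam x ≤ 1 := by
  unfold ft
  rw [div_le_one (by linarith)]; linarith

theorem oub_ft_sum {ι : Type*} (s : Finset ι) (z : ι → ℝ) (hz : ∀ i ∈ s, 0 ≤ z i) {lam : ℝ}
    (hl : 0 < lam) : ft lam (∑ i ∈ s, z i) ≤ ∑ i ∈ s, ft lam (z i) := by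
  unfold ft
  rw [Finset.sum_div]
  refine Finset.sum_le_sum fun i hi => ?_
  have h1 : z i ≤ ∑ i ∈ s, z i := Finset.single_le_sum hz hi
  have h2 := hz i hi
  exact div_le_div_of_nonneg_left h2 (by linarith) (by linarith)

theorem oub_ft_scale {lam c W : ℝ} (hc : 0 < c) : ft lam (c * W) = ft (lam / c) W := by
  unfold ft
  have : W + lam / c = (c * W + lam) / c := by field_simp
  rw [this, div_div_eq_mul_div, mul_comm]

theorem oub_ft_cont {lam : ℝ} (hl : 0 < lam) {g : Om → ℝ} (hg : Continuous g) (h0 : ∀ ω, 0 ≤ g ω) :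
    Continuous (fun ω => ft lam (g ω)) := by
  unfold ft
  refine hg.div (hg.add continuous_const) fun ω => ?_
  have := h0 ω
  linarith

/-- layers -/
theorem oub_layer {Q Λ q : ℝ} (hQ : 0 ≤ Q) (hΛ : 0 < Λ) (hq : 0 ≤ q) (S : ℕ)
    (h : Q ≤ Λ * Real.exp (2 * S)) :
    Q ^ q ≤ Λ ^ q * (1 + 2 * ∑ s ∈ Finset.range S, Real.exp (2 * q * ((s : ℝ) + 1)) *
      ft (Λ * Real.exp (2 * s)) Q) := by
  have hΛq : 0 ≤ Λ ^ q := Real.rpow_nonneg hΛ.le _
  induction S with
  | zero =>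
    simp only [Nat.cast_zero, mul_zero, Real.exp_zero, mul_one, Finset.range_zero,
      Finset.sum_empty, add_zero] at h ⊢
    exact Real.rpow_le_rpow hQ h hq
  | succ S ih =>
    rw [Finset.sum_range_succ]
    have hft : ∀ s : ℕ, 0 ≤ Real.exp (2 * q * ((s : ℝ) + 1)) * ft (Λ * Real.exp (2 * s)) Q :=
      fun s => mul_nonneg (Real.exp_pos _).le (oub_ft_nonneg (by positivity) hQ)
    rcases le_or_gt Q (Λ * Real.exp (2 * S)) with h1 | h1
    · refine (ih h1).trans ?_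
      refine mul_le_mul_of_nonneg_left ?_ hΛq
      have := hft S
      linarith
    · have h2 : 1 / 2 ≤ ft (Λ * Real.exp (2 * S)) Q := by
        unfold ft
        have h3 : 0 < Λ * Real.exp (2 * S) := by positivity
        rw [div_le_div_iff₀ (by norm_num) (by linarith)]
        linarith
      have h4 : Q ^ q ≤ Λ ^ q * Real.exp (2 * q * ((S : ℝ) + 1)) := by
        refine (Real.rpow_le_rpow hQ h hq).trans (le_of_eq ?_)
        rw [Real.mul_rpow hΛ.le (Real.exp_pos _).le, ← Real.exp_mul]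
        congr 2
        push_cast; ring
      refine h4.trans (mul_le_mul_of_nonneg_left ?_ hΛq)
      have h5 : 0 ≤ ∑ s ∈ Finset.range S, Real.exp (2 * q * ((s : ℝ) + 1)) *
          ft (Λ * Real.exp (2 * s)) Q := Finset.sum_nonneg fun s _ => hft s
      have h6 := Real.exp_pos (2 * q * ((S : ℝ) + 1))
      nlinarith

/-! blocks -/

theorem oub_blocks {g : ℝ → ℝ} (hg : Continuous g) (h0 : ∀ t, 0 ≤ g t) {σ L T : ℝ} (hσ : σ ≠ 0)
    (hL : 1 ≤ L) (B : ℕ) (hT : T ≤ B / L) (hT0 : 0 ≤ T) :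
    ∫ t in (1 : ℝ)..(T + 1), g t / (σ ^ 2 + t ^ 2) ≤
      ∑ b ∈ Finset.range B, L / ((b : ℝ) + 1) ^ 2 *
        (L * ∫ t in Set.Ioc (1 + (b : ℝ) / L) (1 + (b : ℝ) / L + 1 / L), g t) := by
  have hL0 : 0 < L := by linarith
  have hd : ∀ t : ℝ, 0 < σ ^ 2 + t ^ 2 := fun t => by positivity
  have hc : Continuous (fun t => g t / (σ ^ 2 + t ^ 2)) :=
    hg.div (by fun_prop) (fun t => (hd t).ne')
  have h1 : ∫ t in (1 : ℝ)..(T + 1), g t / (σ ^ 2 + t ^ 2) ≤
      ∫ t in (1 : ℝ)..(1 + (B : ℝ) / L), g t / (σ ^ 2 + t ^ 2) := by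
    refine intervalIntegral.integral_mono_interval le_rfl (by linarith) (by linarith)
      (Filter.Eventually.of_forall fun t => div_nonneg (h0 t) (hd t).le)
      (hc.intervalIntegrable _ _)
  refine h1.trans ?_
  have h2 := intervalIntegral.sum_integral_adjacent_intervals (μ := volume)
    (f := fun t => g t / (σ ^ 2 + t ^ 2))
    (a := fun k : ℕ => 1 + (k : ℝ) / L) (n := B) (fun k _ => hc.intervalIntegrable _ _)
  simp only [Nat.cast_zero, zero_div, add_zero] at h2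
  rw [← h2]
  refine Finset.sum_le_sum fun b _ => ?_
  have hb0 : (0 : ℝ) ≤ b := Nat.cast_nonneg b
  have e1 : 1 + ((b + 1 : ℕ) : ℝ) / L = 1 + (b : ℝ) / L + 1 / L := by push_cast; ring
  have hle : 1 + (b : ℝ) / L ≤ 1 + (b : ℝ) / L + 1 / L := by
    have : 0 < 1 / L := by positivity
    linarith
  rw [e1, ← intervalIntegral.integral_of_le hle, ← mul_assoc,
    ← intervalIntegral.integral_const_mul]
  refine intervalIntegral.integral_mono_on hle (hc.intervalIntegrable _ _)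
    ((continuous_const.mul hg).intervalIntegrable _ _) fun t ht => ?_
  rw [div_eq_inv_mul]
  refine mul_le_mul_of_nonneg_right ?_ (h0 t)
  have h3 : ((b : ℝ) + 1) / L ≤ t := by
    have h4 : ((b : ℝ) + 1) / L = b / L + 1 / L := by ring
    have h5 : 1 / L ≤ 1 := by rw [div_le_one hL0]; exact hL
    linarith [ht.1]
  have h6 : (((b : ℝ) + 1) / L) ^ 2 ≤ t ^ 2 := pow_le_pow_left₀ (by positivity) h3 2
  have h7 : (σ ^ 2 + t ^ 2)⁻¹ ≤ ((((b : ℝ) + 1) / L) ^ 2)⁻¹ :=
    inv_anti₀ (by positivity) (by nlinarith [sq_nonneg σ])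
  refine h7.trans (le_of_eq ?_)
  field_simp

theorem oub_neg (g : ℝ → ℝ) (a b : ℝ) (hab : a ≤ b) :
    ∫ t in Set.Ioc a b, g (-t) = ∫ t in Set.Ioc (-b) (-a), g t := by
  rw [← intervalIntegral.integral_of_le hab, ← intervalIntegral.integral_of_le (by linarith)]
  exact intervalIntegral.integral_comp_neg (fun x => g x)

theorem oub_al : al 1 = 2 := by
  unfold al; rw [Real.rpow_one]

theorem oub_thr {L n N s : ℝ} (b : ℕ) (hL : 0 < L) (hN : 0 < N) :
    L * Real.exp (3 * n) / N * Real.exp (2 * s) / (L / ((b : ℝ) + 1) ^ 2) =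
      Real.exp ((2 * al 1 - 1) * n) * N ^ (-(3 * al 1 / 2)) *
        Real.exp (2 * al 1 * oubx N s b) := by
  have hb : (0 : ℝ) < (b : ℝ) + 1 := by positivity
  rw [oub_al]
  have h1 : N ^ (-(3 * 2 / 2) : ℝ) = (N ^ 3)⁻¹ := by
    have : (-(3 * 2 / 2) : ℝ) = -((3 : ℕ) : ℝ) := by norm_num
    rw [this, Real.rpow_neg hN.le, Real.rpow_natCast]
  have h2 : Real.exp (2 * 2 * oubx N s b) = Real.exp (2 * s) * ((b : ℝ) + 1) ^ 2 * N ^ 2 := by
    have : 2 * 2 * oubx N s b = 2 * s + (Real.log ((b : ℝ) + 1) + Real.log ((b : ℝ) + 1)) +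
        (Real.log N + Real.log N) := by unfold oubx; ring
    rw [this, Real.exp_add, Real.exp_add, Real.exp_add, Real.exp_add, Real.exp_log hb,
      Real.exp_log hN]
    ring
  have h3 : ((2 : ℝ) * 2 - 1) * n = 3 * n := by ring
  rw [h1, h2, h3]
  field_simp

theorem oub_ft_add {lam x y : ℝ} (hl : 0 < lam) (hx : 0 ≤ x) (hy : 0 ≤ y) :
    ft lam (x + y) ≤ ft lam x + ft lam y := by
  have h1 : ft lam (x + y) = x / (x + y + lam) + y / (x + y + lam) := by
    unfold ft; rw [add_div]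
  rw [h1]
  unfold ft
  exact add_le_add (div_le_div_of_nonneg_left hx (by linarith) (by linarith))
    (div_le_div_of_nonneg_left hy (by linarith) (by linarith))

/-- passing from the truncated far part to the far part -/
theorem oub_limit (hJM : S_JM) (hCONT : S_CONT) {γ p : ℝ} (hp0 : 0 < p) {p0 : ℕ}
    (hg : Good γ p0) {y σ R : ℝ} (hy : (p0 : ℝ) + 1 ≤ y) (hσ0 : σ ≠ 0)
    (hσ : |σ| * Real.log y ≤ 2)
    (hT : ∀ T : ℕ, ∫ ω : Om, (((∫ t in (1:ℝ)..(T + 1), ‖F γ (PrS p0 y) σ t ω‖ ^ 2 /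
      (σ ^ 2 + t ^ 2)) + ∫ t in (1:ℝ)..(T + 1), ‖F γ (PrS p0 y) σ (-t) ω‖ ^ 2 /
      (σ ^ 2 + t ^ 2)) / Real.log y) ^ (p / 2) ∂P ≤ R) :
    ∫ ω : Om, ((∫ t in {t : ℝ | 1 < |t|}, ‖F γ (PrS p0 y) σ t ω‖ ^ 2 / (σ ^ 2 + t ^ 2)) /
      Real.log y) ^ (p / 2) ∂P ≤ R := by
  have hp0' : 4 * Real.exp 16 ≤ (p0 : ℝ) := hg.1
  have he16 := Real.exp_pos 16
  have hp00 : 0 < (p0 : ℝ) := by linarith
  have hlp : 16 < Real.log p0 := by
    rw [Real.lt_log_iff_exp_lt hp00]
    linarith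
  have hy0 : 0 < y := by linarith
  have hlpy : Real.log p0 ≤ Real.log y := Real.log_le_log hp00 (by linarith)
  set Y := Real.log y with hY
  have hYpos : 0 < Y := by linarith
  have hsmall : |σ| < 1 / 2 := by
    by_contra hc
    push Not at hc
    nlinarith
  have hprime : ∀ l ∈ PrS p0 y, l.Prime := fun l hl => (mem_prs hl hy0.le).1
  have hFc := F_cont hCONT γ (PrS p0 y) hprime (σ := σ) (by linarith [(abs_lt.1 hsmall).1])
  have hd : ∀ t : ℝ, 0 < σ ^ 2 + t ^ 2 := fun t => by positivity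
  obtain ⟨-, ⟨B, hB⟩, hJi, -⟩ := hJM γ (PrS p0 y) σ hprime (by linarith [(abs_lt.1 hsmall).1]) hσ0
  have hcA : Continuous (fun q : Om × ℝ => ‖F γ (PrS p0 y) σ q.2 q.1‖ ^ 2 / (σ ^ 2 + q.2 ^ 2)) :=
    (hFc.norm.pow 2).div (by fun_prop) (fun q => (hd q.2).ne')
  have hcB : Continuous (fun q : Om × ℝ => ‖F γ (PrS p0 y) σ (-q.2) q.1‖ ^ 2 / (σ ^ 2 + q.2 ^ 2)) := by
    have h1 : Continuous (fun q : Om × ℝ => ((q.1, -q.2) : Om × ℝ)) := by fun_prop
    exact ((hFc.comp h1).norm.pow 2).div (by fun_prop) (fun q => (hd q.2).ne')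
  let Q : ℕ → Om → ℝ := fun T ω =>
    (∫ t in (1:ℝ)..(T + 1), ‖F γ (PrS p0 y) σ t ω‖ ^ 2 / (σ ^ 2 + t ^ 2)) +
      ∫ t in (1:ℝ)..(T + 1), ‖F γ (PrS p0 y) σ (-t) ω‖ ^ 2 / (σ ^ 2 + t ^ 2)
  have hQc : ∀ T, Continuous (Q T) := by
    intro T
    exact (intervalIntegral.continuous_parametric_intervalIntegral_of_continuous'
      (f := fun (ω : Om) (t : ℝ) => ‖F γ (PrS p0 y) σ t ω‖ ^ 2 / (σ ^ 2 + t ^ 2)) hcA 1 (T + 1)).add
      (intervalIntegral.continuous_parametric_intervalIntegral_of_continuous'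
      (f := fun (ω : Om) (t : ℝ) => ‖F γ (PrS p0 y) σ (-t) ω‖ ^ 2 / (σ ^ 2 + t ^ 2)) hcB 1 (T + 1))
  have hQ0 : ∀ T ω, 0 ≤ Q T ω := by
    intro T ω
    apply add_nonneg
    · apply intervalIntegral.integral_nonneg (by simp)
      intro t _
      have := hd t
      positivity
    · apply intervalIntegral.integral_nonneg (by simp)
      intro t _
      have := hd t
      positivity
  have hsplit : ∀ ω, ∫ t in {t : ℝ | 1 < |t|}, ‖F γ (PrS p0 y) σ t ω‖ ^ 2 / (σ ^ 2 + t ^ 2) =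
      (∫ t in Set.Ioi (1:ℝ), ‖F γ (PrS p0 y) σ t ω‖ ^ 2 / (σ ^ 2 + t ^ 2)) +
      ∫ t in Set.Ioi (1:ℝ), ‖F γ (PrS p0 y) σ (-t) ω‖ ^ 2 / (σ ^ 2 + (-t) ^ 2) := by
    intro ω
    have e : {t : ℝ | 1 < |t|} = Set.Ioi 1 ∪ Set.Iio (-1) := by
      ext t
      rw [Set.mem_ofPred_eq, lt_abs, Set.mem_union, Set.mem_Ioi, Set.mem_Iio]
      constructor
      · rintro (h | h)
        · exact Or.inl h
        · exact Or.inr (by linarith)
      · rintro (h | h)
        · exact Or.inl h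
        · exact Or.inr (by linarith)
    rw [e, setIntegral_union _ measurableSet_Iio (hJi ω).integrableOn (hJi ω).integrableOn]
    · rw [integral_comp_neg_Ioi 1 (fun t => ‖F γ (PrS p0 y) σ t ω‖ ^ 2 / (σ ^ 2 + t ^ 2)),
        integral_Iic_eq_integral_Iio]
    · rw [Set.disjoint_left]
      intro t h1 h2
      rw [Set.mem_Ioi] at h1
      rw [Set.mem_Iio] at h2
      linarith
  -- the far part
  have hJe : ∀ ω, (∫ t in {t : ℝ | 1 < |t|}, ‖F γ (PrS p0 y) σ t ω‖ ^ 2 / (σ ^ 2 + t ^ 2)) =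
      (∫ t in Set.Ioi (1:ℝ), ‖F γ (PrS p0 y) σ t ω‖ ^ 2 / (σ ^ 2 + t ^ 2)) +
      ∫ t in Set.Ioi (1:ℝ), ‖F γ (PrS p0 y) σ (-t) ω‖ ^ 2 / (σ ^ 2 + t ^ 2) := by
    intro ω
    rw [hsplit ω]
    simp only [neg_sq]
  have hiB : ∀ ω, Integrable (fun t : ℝ => ‖F γ (PrS p0 y) σ (-t) ω‖ ^ 2 / (σ ^ 2 + t ^ 2)) := by
    intro ω
    have := (hJi ω).comp_neg
    simpa only [neg_sq] using this
  have hlim : ∀ ω, Filter.Tendsto (fun T : ℕ => Q T ω) Filter.atTop
      (nhds (∫ t in {t : ℝ | 1 < |t|}, ‖F γ (PrS p0 y) σ t ω‖ ^ 2 / (σ ^ 2 + t ^ 2))) := by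
    intro ω
    rw [hJe ω]
    have hb : Filter.Tendsto (fun T : ℕ => (T:ℝ) + 1) Filter.atTop Filter.atTop :=
      Filter.tendsto_atTop_add_const_right _ _ tendsto_natCast_atTop_atTop
    exact (intervalIntegral_tendsto_integral_Ioi 1 (hJi ω).integrableOn hb).add
      (intervalIntegral_tendsto_integral_Ioi 1 (hiB ω).integrableOn hb)
  have hQB : ∀ T ω, Q T ω ≤ B := by
    intro T ω
    have h1 : Q T ω ≤ ∫ t in {t : ℝ | 1 < |t|}, ‖F γ (PrS p0 y) σ t ω‖ ^ 2 / (σ ^ 2 + t ^ 2) := by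
      rw [hJe ω]
      have hone : (1:ℝ) ≤ (T:ℝ) + 1 := by simp
      apply add_le_add
      · rw [intervalIntegral.integral_of_le hone]
        apply setIntegral_mono_set (hJi ω).integrableOn
        · filter_upwards with t
          have := hd t
          positivity
        · exact Set.Ioc_subset_Ioi_self.eventuallyLE
      · rw [intervalIntegral.integral_of_le hone]
        apply setIntegral_mono_set (hiB ω).integrableOn
        · filter_upwards with t
          have := hd t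
          positivity
        · exact Set.Ioc_subset_Ioi_self.eventuallyLE
    refine h1.trans ?_
    refine le_trans ?_ (hB ω).2
    unfold JF
    apply setIntegral_le_integral (hJi ω)
    filter_upwards with t
    have := hd t
    positivity
  have hB0 : 0 ≤ B := (hB 0).1.trans (hB 0).2
  have htend : Filter.Tendsto (fun T : ℕ => ∫ ω, (Q T ω / Y) ^ (p / 2) ∂P) Filter.atTop
      (nhds (∫ ω, ((∫ t in {t : ℝ | 1 < |t|},
        ‖F γ (PrS p0 y) σ t ω‖ ^ 2 / (σ ^ 2 + t ^ 2)) / Y) ^ (p / 2) ∂P)) := by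
    apply tendsto_integral_of_dominated_convergence (fun _ => (B / Y) ^ (p / 2))
    · intro T
      exact (((hQc T).div_const Y).rpow_const
        (fun _ => Or.inr (by positivity))).aestronglyMeasurable
    · exact integrable_const _
    · intro T
      filter_upwards with ω
      rw [Real.norm_eq_abs, abs_of_nonneg (Real.rpow_nonneg (div_nonneg (hQ0 T ω) hYpos.le) _)]
      apply Real.rpow_le_rpow (div_nonneg (hQ0 T ω) hYpos.le) _ (by positivity)
      exact div_le_div_of_nonneg_right (hQB T ω) hYpos.le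
    · filter_upwards with ω
      exact ((hlim ω).div_const Y).rpow_const (Or.inr (by positivity))
  exact le_of_tendsto' htend (fun T => hT T)

theorem OUB (hPUB : S_PUB) (hJM : S_JM) (hCONT : S_CONT) : S_OUB := by
  intro p hp0 hp1 p0 hg
  obtain ⟨C0, c, hC0, hc, hP⟩ := hPUB 1 p0 hg (by rw [oub_al]; norm_num)
  have hp0' : 4 * Real.exp 16 ≤ (p0 : ℝ) := hg.1
  have he16 := Real.exp_pos 16
  have hp00 : 0 < (p0 : ℝ) := by linarith
  have hL16 : 16 < Real.log p0 := by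
    rw [Real.lt_log_iff_exp_lt hp00]
    linarith
  set L := Real.log p0 with hLdef
  have hL0 : 0 < L := by linarith
  set κ : ℝ := c / 12 with hκ
  have hκ0 : 0 < κ := by positivity
  set D1 : ℝ := 3 * (Real.exp κ * (1 + 1 / (2 * κ)) + (1 + 1 / κ)) with hD1
  have hD10 : 0 < D1 := by positivity
  set D2 : ℝ := 6 * (1 + 1 / (1 - p)) with hD2
  have hoD : 0 < oubD c := by unfold oubD; positivity
  set K0 : ℝ := 4 * C0 * oubD c with hK0
  have hK00 : 0 < K0 := by positivity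
  have hllp : 0 < Real.log L := Real.log_pos (by linarith)
  set CC : ℝ := (if p = 1 then 1 + K0 * D1 else (1 + K0 * D2) * (1 + Real.log L) ^ (p / 2)) with hCC
  have hCC0 : 0 < CC := by
    rw [hCC]
    split_ifs with h
    · positivity
    · have hp2 : 0 < 1 - p := by
        have := lt_of_le_of_ne hp1 h
        linarith
      positivity
  refine ⟨CC, hCC0, ?_⟩
  intro y σ hy hσ1 hσ
  have hy0 : 0 < y := by linarith
  have hlpy : L ≤ Real.log y := Real.log_le_log hp00 (by linarith)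
  set Y := Real.log y with hY
  have hYpos : 0 < Y := by linarith
  have hσ0 : σ ≠ 0 := by
    rintro rfl
    simp at hσ1
    linarith
  have hsmall : |σ| < 1 / 2 := by
    by_contra hc
    push Not at hc
    nlinarith
  have hprime : ∀ l ∈ PrS p0 y, l.Prime := fun l hl => (mem_prs hl hy0.le).1
  have hFc := F_cont hCONT 1 (PrS p0 y) hprime (σ := σ) (by linarith [(abs_lt.1 hsmall).1])
  have hd : ∀ t : ℝ, 0 < σ ^ 2 + t ^ 2 := fun t => by positivity
  refine oub_limit hJM hCONT hp0 hg hy hσ0 hσ fun T => ?_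
  have hcA : Continuous (fun q : Om × ℝ => ‖F 1 (PrS p0 y) σ q.2 q.1‖ ^ 2 / (σ ^ 2 + q.2 ^ 2)) :=
    (hFc.norm.pow 2).div (by fun_prop) (fun q => (hd q.2).ne')
  have hcB : Continuous (fun q : Om × ℝ => ‖F 1 (PrS p0 y) σ (-q.2) q.1‖ ^ 2 / (σ ^ 2 + q.2 ^ 2)) := by
    have h1 : Continuous (fun q : Om × ℝ => ((q.1, -q.2) : Om × ℝ)) := by fun_prop
    exact ((hFc.comp h1).norm.pow 2).div (by fun_prop) (fun q => (hd q.2).ne')
  obtain ⟨Q, hQ⟩ : ∃ Q : Om → ℝ, Q = fun ω =>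
    (∫ t in (1:ℝ)..(T + 1), ‖F 1 (PrS p0 y) σ t ω‖ ^ 2 / (σ ^ 2 + t ^ 2)) +
      ∫ t in (1:ℝ)..(T + 1), ‖F 1 (PrS p0 y) σ (-t) ω‖ ^ 2 / (σ ^ 2 + t ^ 2) := ⟨_, rfl⟩
  have hQc : Continuous Q := by
    rw [hQ]
    exact (intervalIntegral.continuous_parametric_intervalIntegral_of_continuous'
      (f := fun (ω : Om) (t : ℝ) => ‖F 1 (PrS p0 y) σ t ω‖ ^ 2 / (σ ^ 2 + t ^ 2)) hcA 1 (T + 1)).add
      (intervalIntegral.continuous_parametric_intervalIntegral_of_continuous'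
      (f := fun (ω : Om) (t : ℝ) => ‖F 1 (PrS p0 y) σ (-t) ω‖ ^ 2 / (σ ^ 2 + t ^ 2)) hcB 1 (T + 1))
  have hQ0 : ∀ ω, 0 ≤ Q ω := by
    intro ω
    rw [hQ]
    apply add_nonneg
    · apply intervalIntegral.integral_nonneg (by simp)
      intro t _
      have := hd t
      positivity
    · apply intervalIntegral.integral_nonneg (by simp)
      intro t _
      have := hd t
      positivity
  suffices hfin : ∫ ω, (Q ω / Y) ^ (p / 2) ∂P ≤
      CC * Y ^ p * (if p = 1 then 1 else (Real.log Y) ^ (-(p / 2))) by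
    rw [hQ] at hfin
    exact hfin
  -- the number of blocks and the depth
  set B : ℕ := ⌈(T : ℝ) * L⌉₊ with hB
  have hTB : (T : ℝ) ≤ B / L := by
    rw [le_div_iff₀ hL0]
    exact Nat.le_ceil _
  set n := Real.log (Y / L) with hn
  have hYL : 1 ≤ Y / L := by rw [one_le_div hL0]; exact hlpy
  have hn0 : 0 ≤ n := Real.log_nonneg hYL
  set N := 1 + n with hN
  have hN1 : 1 ≤ N := by linarith
  have hN0 : 0 < N := by linarith
  set Λ : ℝ := L * Real.exp (3 * n) / N with hΛ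
  have hΛ0 : 0 < Λ := by positivity
  -- the block functionals
  obtain ⟨V, hV⟩ : ∃ V : ℝ → Om → ℝ, V = fun s ω =>
    L * ∫ t in Set.Ioc s (s + 1 / L), ‖F 1 (PrS p0 y) σ t ω‖ ^ 2 := ⟨_, rfl⟩
  have hVc : ∀ s, Continuous (V s) := by
    intro s
    rw [hV]
    refine continuous_const.mul ?_
    have hcc : Continuous (fun q : Om × ℝ => ‖F 1 (PrS p0 y) σ q.2 q.1‖ ^ 2) := hFc.norm.pow 2
    have := continuous_parametric_integral_of_continuous
      (f := fun (ω : Om) (t : ℝ) => ‖F 1 (PrS p0 y) σ t ω‖ ^ 2) hcc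
      (isCompact_Icc (a := s) (b := s + 1 / L)) (μ := volume)
    simpa only [integral_Icc_eq_integral_Ioc] using this
  have hV0 : ∀ s ω, 0 ≤ V s ω := by
    intro s ω
    rw [hV]
    exact mul_nonneg hL0.le (integral_nonneg fun t => by positivity)
  have hVP : ∀ s x : ℝ, 0 ≤ x → ∫ ω : Om, ft (Real.exp ((2 * al 1 - 1) * n) *
      N ^ (-(3 * al 1 / 2)) * Real.exp (2 * al 1 * x)) (V s ω) ∂P ≤
      C0 * (1 + x) * Real.exp (-2 * x) * (Real.exp (-c * x ^ 2 / N) + Real.exp (-c * x)) := by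
    intro s x hx
    have := hP p0 y σ s x le_rfl (by linarith) (by linarith) hx
    rw [hV]
    exact this
  -- pointwise bound of Q
  have hQV : ∀ ω, Q ω ≤ ∑ b ∈ Finset.range B, (L / ((b : ℝ) + 1) ^ 2 *
      V (1 + (b : ℝ) / L) ω + L / ((b : ℝ) + 1) ^ 2 * V (-(1 + (b : ℝ) / L + 1 / L)) ω) := by
    intro ω
    have k0 : Continuous (fun t : ℝ => ((ω, t) : Om × ℝ)) := by fun_prop
    have k0' : Continuous (fun t : ℝ => ((ω, -t) : Om × ℝ)) := by fun_prop
    have hgA : Continuous (fun t => ‖F 1 (PrS p0 y) σ t ω‖ ^ 2) := (hFc.comp k0).norm.pow 2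
    have hgB : Continuous (fun t => ‖F 1 (PrS p0 y) σ (-t) ω‖ ^ 2) := (hFc.comp k0').norm.pow 2
    have f1 := oub_blocks hgA (fun t => by positivity) hσ0 (L := L) (by linarith) B hTB
      (Nat.cast_nonneg T)
    have f2 := oub_blocks hgB (fun t => by positivity) hσ0 (L := L) (by linarith) B hTB
      (Nat.cast_nonneg T)
    have h1L : 0 < 1 / L := by positivity
    rw [Finset.sum_add_distrib, hQ]
    refine add_le_add ?_ ?_
    · rw [hV]
      exact f1
    · refine f2.trans (le_of_eq ?_)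
      refine Finset.sum_congr rfl fun b _ => ?_
      rw [hV]
      simp only
      rw [oub_neg (fun t => ‖F 1 (PrS p0 y) σ t ω‖ ^ 2) _ _ (by linarith)]
      have e1 : -(1 + (b : ℝ) / L + 1 / L) + 1 / L = -(1 + (b : ℝ) / L) := by ring
      rw [e1]
  -- soft tail of Q
  have hint : ∀ lam : ℝ, 0 < lam → ∀ g : Om → ℝ, Continuous g → (∀ ω, 0 ≤ g ω) →
      Integrable (fun ω => ft lam (g ω)) P := by
    intro lam hl g hgc hg0
    exact int_of_bd (oub_ft_cont hl hgc hg0).measurable (B := 1) (fun ω => oub_ft_nonneg hl (hg0 ω))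
      (fun ω => oub_ft_le_one hl (hg0 ω))
  have hsoft : ∀ s : ℕ, ∫ ω, ft (Λ * Real.exp (2 * s)) (Q ω) ∂P ≤
      2 * C0 * (oubD c * Real.exp (-(s : ℝ)) * (Real.exp (-κ * (s : ℝ) ^ 2 / N) +
        Real.exp (-κ * s))) := by
    intro s
    have hl : 0 < Λ * Real.exp (2 * s) := by positivity
    have hs0 : (0 : ℝ) ≤ s := Nat.cast_nonneg s
    have hx0 : ∀ b : ℕ, 0 ≤ oubx N s b := by
      intro b
      unfold oubx
      have h1 : 0 ≤ Real.log ((b : ℝ) + 1) := Real.log_nonneg (by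
        have : (0 : ℝ) ≤ b := Nat.cast_nonneg b
        linarith)
      have h2 : 0 ≤ Real.log N := Real.log_nonneg hN1
      positivity
    have hcb : ∀ b : ℕ, 0 < L / ((b : ℝ) + 1) ^ 2 := fun b => by positivity
    have h1 : ∀ ω, ft (Λ * Real.exp (2 * s)) (Q ω) ≤ ∑ b ∈ Finset.range B,
        (ft (Λ * Real.exp (2 * s) / (L / ((b : ℝ) + 1) ^ 2)) (V (1 + (b : ℝ) / L) ω) +
          ft (Λ * Real.exp (2 * s) / (L / ((b : ℝ) + 1) ^ 2)) (V (-(1 + (b : ℝ) / L + 1 / L)) ω)) := by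
      intro ω
      refine (oub_ft_mono hl (hQ0 ω) (hQV ω)).trans ?_
      refine (oub_ft_sum _ _ (fun b _ => add_nonneg (mul_nonneg (hcb b).le (hV0 _ ω))
        (mul_nonneg (hcb b).le (hV0 _ ω))) hl).trans ?_
      refine Finset.sum_le_sum fun b _ => ?_
      refine (oub_ft_add hl (mul_nonneg (hcb b).le (hV0 _ ω)) (mul_nonneg (hcb b).le (hV0 _ ω))).trans ?_
      rw [oub_ft_scale (hcb b), oub_ft_scale (hcb b)]
    have hl2 : ∀ b : ℕ, 0 < Λ * Real.exp (2 * s) / (L / ((b : ℝ) + 1) ^ 2) := fun b => by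
      have := hcb b
      positivity
    have hi1 : ∀ (b : ℕ) (r : ℝ), Integrable (fun ω =>
        ft (Λ * Real.exp (2 * s) / (L / ((b : ℝ) + 1) ^ 2)) (V r ω)) P := fun b r =>
      hint _ (hl2 b) _ (hVc r) (hV0 r)
    have h2 : ∫ ω, ft (Λ * Real.exp (2 * s)) (Q ω) ∂P ≤ ∫ ω, ∑ b ∈ Finset.range B,
        (ft (Λ * Real.exp (2 * s) / (L / ((b : ℝ) + 1) ^ 2)) (V (1 + (b : ℝ) / L) ω) +
          ft (Λ * Real.exp (2 * s) / (L / ((b : ℝ) + 1) ^ 2))
            (V (-(1 + (b : ℝ) / L + 1 / L)) ω)) ∂P := by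
      refine integral_mono (hint _ hl _ hQc hQ0) ?_ h1
      exact integrable_finsetSum _ fun b _ => (hi1 b _).add (hi1 b _)
    refine h2.trans ?_
    have hi2 : ∀ b ∈ Finset.range B, Integrable (fun ω =>
        ft (Λ * Real.exp (2 * s) / (L / ((b : ℝ) + 1) ^ 2)) (V (1 + (b : ℝ) / L) ω) +
          ft (Λ * Real.exp (2 * s) / (L / ((b : ℝ) + 1) ^ 2))
            (V (-(1 + (b : ℝ) / L + 1 / L)) ω)) P := fun b _ => (hi1 b _).add (hi1 b _)
    rw [integral_finsetSum _ hi2]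
    have h3 : ∀ b : ℕ, ∫ ω, (ft (Λ * Real.exp (2 * s) / (L / ((b : ℝ) + 1) ^ 2))
          (V (1 + (b : ℝ) / L) ω) +
          ft (Λ * Real.exp (2 * s) / (L / ((b : ℝ) + 1) ^ 2))
            (V (-(1 + (b : ℝ) / L + 1 / L)) ω)) ∂P ≤
        2 * C0 * ((1 + oubx N s b) * Real.exp (-2 * oubx N s b) *
          (Real.exp (-c * (oubx N s b) ^ 2 / N) + Real.exp (-c * oubx N s b))) := by
      intro b
      rw [integral_add (hi1 b _) (hi1 b _), hΛ, oub_thr b hL0 hN0]
      have g1 := hVP (1 + (b : ℝ) / L) _ (hx0 b)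
      have g2 := hVP (-(1 + (b : ℝ) / L + 1 / L)) _ (hx0 b)
      linarith
    refine (Finset.sum_le_sum fun b _ => h3 b).trans ?_
    rw [← Finset.mul_sum]
    exact mul_le_mul_of_nonneg_left (oub_sum hc hN1 hs0 B) (by positivity)
  -- moment of Q
  obtain ⟨BQ, hBQ⟩ := (isCompact_univ (X := Om)).exists_bound_of_continuousOn hQc.continuousOn
  have hQB : ∀ ω, Q ω ≤ BQ := by
    intro ω
    have := hBQ ω (Set.mem_univ _)
    rw [Real.norm_eq_abs] at this
    exact (le_abs_self _).trans this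
  obtain ⟨S, hS⟩ : ∃ S : ℕ, BQ ≤ Λ * Real.exp (2 * S) := by
    obtain ⟨S, hS⟩ := exists_nat_ge (BQ / Λ)
    refine ⟨S, ?_⟩
    have h1 := Real.add_one_le_exp (2 * (S : ℝ))
    have h2 : BQ / Λ ≤ Real.exp (2 * S) := by
      have : (0 : ℝ) ≤ S := Nat.cast_nonneg S
      linarith
    rw [div_le_iff₀ hΛ0] at h2
    linarith
  have hlay : ∀ ω, Q ω ^ (p / 2) ≤ Λ ^ (p / 2) * (1 + 2 * ∑ s ∈ Finset.range S,
      Real.exp (p * ((s : ℝ) + 1)) * ft (Λ * Real.exp (2 * s)) (Q ω)) := by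
    intro ω
    have h1 := oub_layer (hQ0 ω) hΛ0 (q := p / 2) (by positivity) S ((hQB ω).trans hS)
    have h2 : 2 * (p / 2) = p := by ring
    simpa only [h2] using h1
  have hmom : ∫ ω, Q ω ^ (p / 2) ∂P ≤ Λ ^ (p / 2) * (1 + K0 *
      (if p = 1 then Real.sqrt N * D1 else D2)) := by
    have hi : ∀ s : ℕ, Integrable (fun ω => Real.exp (p * ((s : ℝ) + 1)) *
        ft (Λ * Real.exp (2 * s)) (Q ω)) P := fun s =>
      (hint _ (by positivity) _ hQc hQ0).const_mul _
    have h1 : ∫ ω, Q ω ^ (p / 2) ∂P ≤ ∫ ω, Λ ^ (p / 2) * (1 + 2 * ∑ s ∈ Finset.range S,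
        Real.exp (p * ((s : ℝ) + 1)) * ft (Λ * Real.exp (2 * s)) (Q ω)) ∂P := by
      refine integral_mono_of_nonneg (Filter.Eventually.of_forall fun ω =>
        Real.rpow_nonneg (hQ0 ω) _) ?_ (Filter.Eventually.of_forall hlay)
      exact ((integrable_const _).add ((integrable_finsetSum _ fun s _ => hi s).const_mul _)).const_mul _
    refine h1.trans ?_
    rw [integral_const_mul, integral_add (integrable_const _)
      ((integrable_finsetSum _ fun s _ => hi s).const_mul _), integral_const_mul,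
      integral_finsetSum _ (fun s _ => hi s), integral_const, probReal_univ, one_smul]
    refine mul_le_mul_of_nonneg_left ?_ (Real.rpow_nonneg hΛ0.le _)
    have h2 : ∑ s ∈ Finset.range S, ∫ ω, Real.exp (p * ((s : ℝ) + 1)) *
        ft (Λ * Real.exp (2 * s)) (Q ω) ∂P ≤ (2 * C0 * oubD c) * ∑ s ∈ Finset.range S,
        Real.exp (p * ((s : ℝ) + 1)) * (Real.exp (-(s : ℝ)) *
          (Real.exp (-κ * (s : ℝ) ^ 2 / N) + Real.exp (-κ * s))) := by
      rw [Finset.mul_sum]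
      refine Finset.sum_le_sum fun s _ => ?_
      rw [integral_const_mul]
      have := mul_le_mul_of_nonneg_left (hsoft s) (Real.exp_pos (p * ((s : ℝ) + 1))).le
      refine this.trans (le_of_eq ?_)
      ring
    have h3 := mul_le_mul_of_nonneg_left (oub_levels hκ0 hN1 hp1 S)
      (show 0 ≤ 2 * C0 * oubD c by positivity)
    have h4 := h2.trans h3
    rw [hK0]
    linarith
  -- conclusion
  have hΛY : (Λ / Y) ^ (p / 2) ≤ Y ^ p * N ^ (-(p / 2)) := by
    have h1 : Real.exp (3 * n) = (Y / L) ^ 3 := by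
      rw [show (3 : ℝ) * n = ((3 : ℕ) : ℝ) * n by norm_num, Real.exp_nat_mul,
        Real.exp_log (by positivity)]
    have h2 : Λ / Y = Y ^ 2 / (L ^ 2 * N) := by
      rw [hΛ, h1]; field_simp
    have h3 : Λ / Y ≤ Y ^ 2 * N⁻¹ := by
      rw [h2, div_eq_mul_inv]
      refine mul_le_mul_of_nonneg_left ?_ (by positivity)
      refine inv_anti₀ hN0 ?_
      have : 1 ≤ L ^ 2 := by nlinarith
      nlinarith
    refine (Real.rpow_le_rpow (by positivity) h3 (by positivity)).trans (le_of_eq ?_)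
    rw [Real.mul_rpow (by positivity) (by positivity), ← Real.rpow_natCast Y 2,
      ← Real.rpow_mul hYpos.le, Real.inv_rpow hN0.le, ← Real.rpow_neg hN0.le]
    congr 2
    push_cast; ring
  have hdiv : ∫ ω, (Q ω / Y) ^ (p / 2) ∂P = (∫ ω, Q ω ^ (p / 2) ∂P) / Y ^ (p / 2) := by
    rw [← integral_div]
    refine integral_congr_ae (Filter.Eventually.of_forall fun ω => ?_)
    simp only
    rw [Real.div_rpow (hQ0 ω) hYpos.le]
  rw [hdiv]
  have h5 : (∫ ω, Q ω ^ (p / 2) ∂P) / Y ^ (p / 2) ≤ (Λ / Y) ^ (p / 2) * (1 + K0 *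
      (if p = 1 then Real.sqrt N * D1 else D2)) := by
    rw [Real.div_rpow hΛ0.le hYpos.le, div_mul_eq_mul_div]
    exact div_le_div_of_nonneg_right hmom (Real.rpow_nonneg hYpos.le _)
  have hpos1 : 0 ≤ (1 + K0 * (if p = 1 then Real.sqrt N * D1 else D2)) := by
    split_ifs with h
    · positivity
    · have hp2 : 0 < 1 - p := by
        have := lt_of_le_of_ne hp1 h
        linarith
      positivity
  refine h5.trans ((mul_le_mul_of_nonneg_right hΛY hpos1).trans ?_)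
  have hYp : 0 ≤ Y ^ p := Real.rpow_nonneg hYpos.le _
  by_cases h : p = 1
  · rw [hCC, if_pos h, if_pos h, if_pos h]
    have hM1 : 1 ≤ Real.sqrt N := by
      rw [← Real.sqrt_one]; exact Real.sqrt_le_sqrt hN1
    have hM0 : 0 < Real.sqrt N := by linarith
    have h6 : N ^ (-(p / 2)) = (Real.sqrt N)⁻¹ := by
      rw [Real.rpow_neg hN0.le, h, Real.sqrt_eq_rpow]
    have h7 : 1 + K0 * (Real.sqrt N * D1) ≤ Real.sqrt N * (1 + K0 * D1) := by nlinarith
    calc Y ^ p * N ^ (-(p / 2)) * (1 + K0 * (Real.sqrt N * D1))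
        ≤ Y ^ p * N ^ (-(p / 2)) * (Real.sqrt N * (1 + K0 * D1)) :=
          mul_le_mul_of_nonneg_left h7 (mul_nonneg hYp (Real.rpow_nonneg hN0.le _))
      _ = (1 + K0 * D1) * Y ^ p * 1 := by
          rw [h6]; field_simp
  · rw [hCC, if_neg h, if_neg h, if_neg h]
    have hp2 : 0 < 1 - p := by
      have := lt_of_le_of_ne hp1 h
      linarith
    have hD20 : 0 < D2 := by positivity
    have hLL : Real.log Y = n + Real.log L := by
      rw [hn, Real.log_div hYpos.ne' hL0.ne']; ring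
    have hLL0 : 0 < Real.log Y := by rw [hLL]; linarith
    have h8 : Real.log Y / (1 + Real.log L) ≤ N := by
      rw [div_le_iff₀ (by linarith), hLL, hN]
      nlinarith
    have h9 : N ^ (-(p / 2)) ≤ (Real.log Y) ^ (-(p / 2)) * (1 + Real.log L) ^ (p / 2) := by
      have h10 : N ^ (-(p / 2)) ≤ (Real.log Y / (1 + Real.log L)) ^ (-(p / 2)) :=
        Real.rpow_le_rpow_of_nonpos (by positivity) h8 (by linarith)
      refine h10.trans (le_of_eq ?_)
      rw [Real.div_rpow hLL0.le (by linarith), Real.rpow_neg (by linarith : (0:ℝ) ≤ 1 + Real.log L),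
        div_inv_eq_mul]
    calc Y ^ p * N ^ (-(p / 2)) * (1 + K0 * D2)
        ≤ Y ^ p * ((Real.log Y) ^ (-(p / 2)) * (1 + Real.log L) ^ (p / 2)) * (1 + K0 * D2) := by
          gcongr
      _ = _ := by ring

end PN
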