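import Pool.Agent.H24.PN.Stmts

/-! Module PIN: the mean and the centred increments of a Gaussian vector are independent. -/

namespace PN
open MeasureTheory Complex ProbabilityTheory PM

lemma PIN_scale (n : ℕ) : gaussianReal 0 (n : NNReal) =
    (gaussianReal 0 1).map (fun x => Real.sqrt n * x) := by
  rw [gaussianReal_map_const_mul, mul_zero, mul_one]
  congr 1
  ext
  simp only [NNReal.coe_natCast, NNReal.coe_mk]
  rw [Real.sq_sqrt (Nat.cast_nonneg n)]

/-- module PIN -/
theorem PIN (hO : S_ORT) : S_PIN := by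
  intro n h hn hh
  classical
  have hnR : (0 : ℝ) < n := by exact_mod_cast hn
  have hsq : Real.sqrt n * Real.sqrt n = n := Real.mul_self_sqrt hnR.le
  have hsq0 : 0 < Real.sqrt n := Real.sqrt_pos.mpr hnR
  have hps : ∀ g : Fin n → ℝ, ps g n = ∑ i, g i := by
    intro g
    unfold ps
    apply Finset.sum_congr rfl
    intro i _
    rw [if_pos i.2]
  let a : Fin n → (Fin n ⊕ Unit) → ℝ := fun i k =>
    Sum.elim (fun j => (if i = j then (1 : ℝ) else 0) - 1 / n) (fun _ => 1 / Real.sqrt n) k
  have hrow : ∀ i (f : Fin n ⊕ Unit → ℝ), ∑ k, a i k * f k =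
      f (Sum.inl i) - (∑ j, f (Sum.inl j)) / n + f (Sum.inr ()) / Real.sqrt n := by
    intro i f
    rw [Fintype.sum_sum_type]
    simp only [a, Sum.elim_inl, Sum.elim_inr, Finset.univ_unique, Finset.sum_singleton,
      PUnit.default_eq_unit]
    have : ∀ j, ((if i = j then (1 : ℝ) else 0) - 1 / n) * f (Sum.inl j) =
        (if i = j then f (Sum.inl j) else 0) - 1 / n * f (Sum.inl j) := by
      intro j
      split_ifs <;> ring
    simp_rw [this]
    rw [Finset.sum_sub_distrib, Finset.sum_ite_eq, if_pos (Finset.mem_univ i), ← Finset.mul_sum]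
    ring
  have horth : ∀ i j, ∑ k, a i k * a j k = if i = j then 1 else 0 := by
    intro i j
    rw [hrow]
    simp only [a, Sum.elim_inl, Sum.elim_inr]
    rw [Finset.sum_sub_distrib, Finset.sum_ite_eq, if_pos (Finset.mem_univ j), Finset.sum_const,
      Finset.card_univ, Fintype.card_fin, nsmul_eq_mul]
    have e1 : (n : ℝ) * (1 / n) = 1 := by field_simp
    have e2 : 1 / Real.sqrt n / Real.sqrt n = 1 / n := by
      rw [div_div, hsq]
    rw [e1, e2, sub_self, zero_div, sub_zero, sub_add_cancel]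
    by_cases hij : i = j
    · rw [if_pos hij, if_pos hij.symm]
    · rw [if_neg hij, if_neg (fun h => hij h.symm)]
  have T := hO (Fin n ⊕ Unit) (Fin n) a horth
  have S := measurePreserving_sumPiEquivProdPi_symm (ι := Fin n) (ι' := Unit)
    (X := fun _ => ℝ) (fun _ => gaussianReal 0 1)
  have W := measurePreserving_funUnique (gaussianReal 0 1) Unit
  have m1 : Measurable fun g : (Fin n ⊕ Unit) → ℝ => h (fun i => ∑ k, a i k * g k) :=
    hh.comp T.measurable
  rw [← T.lintegral_comp hh]
  have e1 : ∫⁻ g, h (fun i => ∑ k, a i k * g k) ∂Ga (Fin n ⊕ Unit) =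
      ∫⁻ p : (Fin n → ℝ) × (Unit → ℝ), h (fun i => p.1 i - (∑ j, p.1 j) / n +
        p.2 () / Real.sqrt n) ∂(Ga (Fin n)).prod (Ga Unit) := by
    have := S.lintegral_comp m1
    unfold Ga
    rw [← this]
    congr 1
    ext p
    congr 1
    ext i
    rw [hrow]
    rfl
  rw [e1]
  have m2 : Measurable fun p : (Fin n → ℝ) × (Unit → ℝ) => h (fun i => p.1 i -
      (∑ j, p.1 j) / n + p.2 () / Real.sqrt n) := by
    apply hh.comp
    rw [measurable_pi_iff]
    intro i
    fun_prop
  rw [lintegral_prod_symm _ m2.aemeasurable]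
  have m3 : Measurable fun p : (Fin n → ℝ) × ℝ => h (fun i => p.1 i -
      (∑ j, p.1 j) / n + p.2 / Real.sqrt n) := by
    apply hh.comp
    rw [measurable_pi_iff]
    intro i
    fun_prop
  have m4 : Measurable fun s : ℝ => ∫⁻ g : Fin n → ℝ, h (fun i => g i - (∑ j, g j) / n +
      s / Real.sqrt n) ∂Ga (Fin n) := m3.lintegral_prod_left'
  have e2 : ∫⁻ u : Unit → ℝ, (∫⁻ g : Fin n → ℝ, h (fun i => g i - (∑ j, g j) / n +
      u () / Real.sqrt n) ∂Ga (Fin n)) ∂Ga Unit =
      ∫⁻ s : ℝ, (∫⁻ g : Fin n → ℝ, h (fun i => g i - (∑ j, g j) / n +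
      s / Real.sqrt n) ∂Ga (Fin n)) ∂gaussianReal 0 1 := by
    rw [← W.lintegral_comp m4]
    rfl
  rw [e2, PIN_scale n]
  have m5 : Measurable fun s : ℝ => ∫⁻ g : Fin n → ℝ, h (fun i => g i - ps g n / n +
      s / n) ∂Ga (Fin n) := by
    have m6 : Measurable fun p : (Fin n → ℝ) × ℝ => h (fun i => p.1 i -
        ps p.1 n / n + p.2 / n) := by
      apply hh.comp
      rw [measurable_pi_iff]
      intro i
      simp_rw [hps]
      fun_prop
    exact m6.lintegral_prod_left'
  rw [lintegral_map m5 (by fun_prop)]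
  congr 1
  ext s
  congr 1
  ext g
  congr 1
  ext i
  rw [hps]
  have : Real.sqrt n * s / n = s / Real.sqrt n := by
    rw [div_eq_div_iff hnR.ne' hsq0.ne']
    calc Real.sqrt n * s * Real.sqrt n = s * (Real.sqrt n * Real.sqrt n) := by ring
      _ = s * n := by rw [hsq]
  rw [this]

end PN
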