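import Pool.Agent.H24.PM.All
import Pool.Agent.H24.PN.Stmts

/-! Upper bound for one block of the prime field. -/

namespace PN
open MeasureTheory Complex ProbabilityTheory PM

namespace PUBx

theorem ft_nonneg {lam x : ℝ} (hl : 0 < lam) (hx : 0 ≤ x) : 0 ≤ ft lam x := by
  unfold ft; positivity

theorem ft_le_one {lam x : ℝ} (hl : 0 < lam) (hx : 0 ≤ x) : ft lam x ≤ 1 := by
  unfold ft
  rw [div_le_one (by linarith)]
  linarith

theorem ft_scale {lam x a : ℝ} (ha : 0 < a) : ft lam x = ft (a * lam) (a * x) := by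
  unfold ft
  rw [← mul_add, mul_div_mul_left _ _ ha.ne']

theorem ft_le {c lam lam' x : ℝ} (hc : 0 < c) (hc1 : c ≤ 1) (hl : 0 < lam') (h : c * lam' ≤ lam)
    (hx : 0 ≤ x) : ft lam x ≤ c⁻¹ * ft lam' x := by
  unfold ft
  have h0 : 0 < lam := lt_of_lt_of_le (by positivity) h
  rw [← div_eq_inv_mul, div_div, div_le_div_iff₀ (by linarith) (by positivity)]
  apply mul_le_mul_of_nonneg_left _ hx
  nlinarith

theorem ft_cont {lam : ℝ} (hl : 0 < lam) {x : ℝ} (hx : 0 ≤ x) : ContinuousAt (ft lam) x := by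
  unfold ft
  exact continuousAt_id.div (continuousAt_id.add continuousAt_const) (by
    show x + lam ≠ 0
    linarith)

/-- Riemann sums along product partitions -/
theorem riem (hR : S_RIE) (w f : ℝ → ℝ) (hw : Continuous w) (hf : Continuous f) (s ℓ : ℝ)
    (hℓ : 0 < ℓ) (M : ℕ) (hM : 0 < M) :
    Filter.Tendsto (fun R : ℕ => ∑ i : Fin M × Fin (R + 1),
      (∫ t in Set.Ioc (s + ((finProdFinEquiv i : Fin (M * (R + 1))) : ℕ) * (ℓ / (M * (R + 1))))
        (s + (((finProdFinEquiv i : Fin (M * (R + 1))) : ℕ) + 1) * (ℓ / (M * (R + 1)))), w t) *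
      f (s + ((finProdFinEquiv i : Fin (M * (R + 1))) : ℕ) * (ℓ / (M * (R + 1)))))
      Filter.atTop (nhds (∫ t in Set.Ioc s (s + ℓ), w t * f t)) := by
  have hφ : Filter.Tendsto (fun R : ℕ => M * (R + 1) - 1) Filter.atTop Filter.atTop := by
    apply Filter.tendsto_atTop_mono (f := fun R : ℕ => R) _ Filter.tendsto_id
    intro R
    have : 1 * (R + 1) ≤ M * (R + 1) := Nat.mul_le_mul_right _ hM
    show R ≤ M * (R + 1) - 1
    omega
  have h := (hR w f s ℓ hℓ hf.continuousOn hw.integrableOn_Ioc).comp hφ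
  refine h.congr fun R => ?_
  have hpos : 0 < M * (R + 1) := by positivity
  have hN : M * (R + 1) - 1 + 1 = M * (R + 1) := by omega
  have hNc : ((M * (R + 1) - 1 : ℕ) : ℝ) + 1 = M * (R + 1) := by
    have : ((M * (R + 1) - 1 + 1 : ℕ) : ℝ) = ((M * (R + 1) : ℕ) : ℝ) := by rw [hN]
    push_cast at this
    exact this
  simp only [Function.comp]
  rw [hN, hNc, Finset.sum_range]
  rw [← Equiv.sum_comp (finProdFinEquiv : Fin M × Fin (R + 1) ≃ Fin (M * (R + 1)))]

theorem vv_pos : 0 < vv := Real.log_pos (by norm_num)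

theorem vv_le : vv ≤ 1 := by
  have := Real.log_two_lt_d9
  unfold vv
  linarith

theorem vv_ge : 1 / 2 ≤ vv := by
  have := Real.log_two_gt_d9
  unfold vv
  linarith

theorem two_pow_eq (K : ℕ) : (2 : ℝ) ^ K = Real.exp (K * vv) := by
  rw [mul_comm, Real.exp_mul, vv, Real.exp_log (by norm_num), Real.rpow_natCast]

theorem sq2 : Real.sqrt 2 * Real.sqrt 2 = 2 := Real.mul_self_sqrt (by norm_num)

theorem lam_eq (α x : ℝ) (K : ℕ) : typ (Real.sqrt 2 * α) K *
    Real.exp (Real.sqrt 2 * α * (Real.sqrt 2 * x)) =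
    Real.exp (2 * α * (K * vv) - 3 * α / 2 * Real.log ((K : ℝ) + 1) + 2 * α * x) := by
  have hb2 : Real.sqrt 2 * α * c0 = 3 * α / 2 := by
    unfold c0
    have : Real.sqrt 2 ≠ 0 := by positivity
    field_simp
  have h2 := sq2
  rw [typ, ← Real.exp_add]
  congr 1
  have : Real.sqrt 2 * α * (Real.sqrt 2 * K * vv - c0 * Real.log ((K : ℝ) + 1)) +
      Real.sqrt 2 * α * (Real.sqrt 2 * x) =
    (Real.sqrt 2 * Real.sqrt 2) * α * (K * vv) - Real.sqrt 2 * α * c0 * Real.log ((K : ℝ) + 1) +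
      (Real.sqrt 2 * Real.sqrt 2) * α * x := by ring
  rw [this, h2, hb2]

theorem cmp_thr {α Lg x : ℝ} {K : ℕ} (hα : 1 < α) (hL0 : 0 ≤ Lg) (h1 : Lg ≤ K * vv)
    (h2 : K * vv ≤ Lg + vv) : Real.exp (-(2 * α - 1) * vv) * (typ (Real.sqrt 2 * α) K *
      Real.exp (Real.sqrt 2 * α * (Real.sqrt 2 * x))) ≤
    2 ^ K * (Real.exp ((2 * α - 1) * Lg) * (1 + Lg) ^ (-(3 * α / 2)) * Real.exp (2 * α * x)) := by
  have e2 : 2 ^ K * (Real.exp ((2 * α - 1) * Lg) * (1 + Lg) ^ (-(3 * α / 2)) *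
      Real.exp (2 * α * x)) = Real.exp (K * vv + ((2 * α - 1) * Lg) -
      3 * α / 2 * Real.log (1 + Lg) + 2 * α * x) := by
    rw [two_pow_eq, Real.rpow_def_of_pos (by linarith), ← Real.exp_add, ← Real.exp_add,
      ← Real.exp_add]
    congr 1
    ring
  rw [lam_eq, e2, ← Real.exp_add, Real.exp_le_exp]
  have hv := vv_le
  have hv0 := vv_pos
  have hK0 : (0 : ℝ) ≤ K := Nat.cast_nonneg _
  have hKv : (K : ℝ) * vv ≤ K := mul_le_of_le_one_right hK0 hv
  have h3 : Real.log (1 + Lg) ≤ Real.log ((K : ℝ) + 1) :=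
    Real.log_le_log (by linarith) (by linarith)
  have h4 := mul_le_mul_of_nonneg_left h3 (show (0 : ℝ) ≤ 3 * α / 2 by linarith)
  have h5 := mul_le_mul_of_nonneg_left h2 (show (0 : ℝ) ≤ 2 * α - 1 by linarith)
  have e3 : (2 * α - 1) * (K * vv) = 2 * α * (K * vv) - K * vv := by ring
  have e4 : (2 * α - 1) * (Lg + vv) = (2 * α - 1) * Lg + (2 * α - 1) * vv := by ring
  have e5 : -(2 * α - 1) * vv = -((2 * α - 1) * vv) := by ring
  rw [e3, e4] at h5
  rw [e5]
  linarith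

theorem tb_simpl {CB cB x Lg : ℝ} {K : ℕ} (hCB : 0 < CB) (hcB : 0 < cB) (hx : 0 ≤ x)
    (hL0 : 0 ≤ Lg) (h2 : K * vv ≤ Lg + vv) :
    CB * (1 + Real.sqrt 2 * x) * Real.exp (-(Real.sqrt 2 * (Real.sqrt 2 * x))) *
      (Real.exp (-cB * (Real.sqrt 2 * x) ^ 2 / (K + 1)) + Real.exp (-cB * (Real.sqrt 2 * x))) ≤
    CB * 2 * ((1 + x) * Real.exp (-2 * x) *
      (Real.exp (-cB * x ^ 2 / (1 + Lg)) + Real.exp (-cB * x))) := by
  have hs := sq2
  have hs0 : 0 ≤ Real.sqrt 2 := Real.sqrt_nonneg 2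
  have hs1 : 1 ≤ Real.sqrt 2 := by rw [Real.one_le_sqrt]; norm_num
  have hs2 : Real.sqrt 2 ≤ 2 := by nlinarith
  have hK0 : (0 : ℝ) ≤ K := Nat.cast_nonneg _
  have hv := vv_ge
  have hv1 := vv_le
  have h1 : 1 + Real.sqrt 2 * x ≤ 2 * (1 + x) := by
    have := mul_le_mul_of_nonneg_right hs2 hx
    linarith
  have h2' : Real.exp (-(Real.sqrt 2 * (Real.sqrt 2 * x))) = Real.exp (-2 * x) := by
    congr 1
    rw [← mul_assoc, hs]; ring
  have h3 : Real.exp (-cB * (Real.sqrt 2 * x) ^ 2 / (K + 1)) ≤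
      Real.exp (-cB * x ^ 2 / (1 + Lg)) := by
    rw [Real.exp_le_exp]
    have hxx : (Real.sqrt 2 * x) ^ 2 = 2 * x ^ 2 := by rw [mul_pow, sq (Real.sqrt 2), hs]
    rw [hxx]
    have hKb : (K : ℝ) + 1 ≤ 2 * (1 + Lg) := by
      have h5 : (K : ℝ) * (1 / 2) ≤ K * vv := mul_le_mul_of_nonneg_left hv hK0
      have h6 : (K : ℝ) * vv ≤ Lg + vv := h2
      by_cases hK1 : K = 0
      · rw [hK1]; simp; linarith
      · have hK2 : (1 : ℝ) ≤ K := by exact_mod_cast Nat.one_le_iff_ne_zero.2 hK1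
        nlinarith
    rw [div_le_div_iff₀ (by positivity) (by linarith)]
    have h4 : 0 ≤ cB * x ^ 2 := by positivity
    have h7 := mul_le_mul_of_nonneg_left hKb h4
    linarith
  have h4 : Real.exp (-cB * (Real.sqrt 2 * x)) ≤ Real.exp (-cB * x) := by
    rw [Real.exp_le_exp]
    have h8 := mul_le_mul_of_nonneg_right hs1 (mul_nonneg hcB.le hx)
    linarith
  rw [h2']
  calc CB * (1 + Real.sqrt 2 * x) * Real.exp (-2 * x) *
        (Real.exp (-cB * (Real.sqrt 2 * x) ^ 2 / (K + 1)) + Real.exp (-cB * (Real.sqrt 2 * x)))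
      ≤ CB * (2 * (1 + x)) * Real.exp (-2 * x) * (Real.exp (-cB * x ^ 2 / (1 + Lg)) +
        Real.exp (-cB * x)) := by gcongr
    _ = _ := by ring

end PUBx

open PUBx

theorem PUB (hTB : S_TB) (hLIN : S_LIN) (hKAH : S_KAH) (hCOV : S_COV) (hCVB : S_CVB)
    (hNTG : S_NTG) (hRIE : S_RIE) : S_PUB := by
  intro γ p0 hG hα
  set α := al γ with hαdef
  set be := Real.sqrt 2 * α with hbe
  have hs2 : Real.sqrt 2 * Real.sqrt 2 = 2 := Real.mul_self_sqrt (by norm_num)
  have hs2p : 0 < Real.sqrt 2 := by positivity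
  have hbe2 : Real.sqrt 2 < be := by
    rw [hbe]; nlinarith
  have hbsq : be ^ 2 = 2 * α ^ 2 := by rw [hbe]; nlinarith
  obtain ⟨CB, cB, hCB, hcB, hB⟩ := hTB be hbe2
  obtain ⟨CN, hCN, hN⟩ := hNTG
  obtain ⟨CL, hCL, hL⟩ := hLIN γ p0 hG
  have hvv : 0 < vv := vv_pos
  obtain ⟨CK, hCK, hK⟩ := hKAH (2 * α ^ 2 * (2 * vv + CN)) (by positivity)
  set c1 : ℝ := Real.exp (-(2 * α - 1) * vv) with hc1
  have hc1p : 0 < c1 := Real.exp_pos _
  have hc1le : c1 ≤ 1 := by
    rw [hc1, Real.exp_le_one_iff]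
    nlinarith
  refine ⟨c1⁻¹ * (CL * (CK * (CB * 2))), cB, by positivity, hcB, ?_⟩
  intro u y σ s x hu huy hσ hx
  have hp0 : 4 * Real.exp 16 ≤ (p0 : ℝ) := hG.1
  have hu16 : Real.exp 16 ≤ u := by
    have := Real.exp_pos 16
    linarith
  have hu0 : 0 < u := lt_of_lt_of_le (Real.exp_pos _) hu16
  have hu2 : 2 ≤ u := by
    have := Real.add_one_le_exp (16 : ℝ)
    linarith
  have hLu : 16 ≤ Real.log u := by
    rw [Real.le_log_iff_exp_le hu0]; exact hu16
  have hLy : Real.log u ≤ Real.log y := Real.log_le_log hu0 huy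
  set U := Real.log u with hU
  set Y := Real.log y with hY
  have hU0 : 0 < U := by linarith
  have hY0 : 0 < Y := by linarith
  set Lg := Real.log (Y / U) with hLg
  have hLg0 : 0 ≤ Lg := Real.log_nonneg (by rw [le_div_iff₀ hU0]; linarith)
  have hexpL : Real.exp Lg = Y / U := Real.exp_log (by positivity)
  set K : ℕ := ⌈Lg / vv⌉₊ with hKdef
  have hK1 : Lg ≤ K * vv := by
    have := Nat.le_ceil (Lg / vv)
    rwa [div_le_iff₀ hvv] at this
  have hK2 : (K : ℝ) * vv ≤ Lg + vv := by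
    have h := (Nat.ceil_lt_add_one (show 0 ≤ Lg / vv by positivity)).le
    have h' := mul_le_mul_of_nonneg_right h hvv.le
    rw [add_mul, div_mul_cancel₀ _ hvv.ne', one_mul] at h'
    exact h'
  have h2K : (2 : ℝ) ^ K = Real.exp (K * vv) := two_pow_eq K
  have hYU : Y / U ≤ 2 ^ K := by
    rw [h2K, ← hexpL]; exact Real.exp_le_exp.2 hK1
  set A := PrS u y with hA
  have hPA : PA p0 A := by
    intro l hl
    simp only [hA, PrS, Finset.mem_filter, Finset.mem_range] at hl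
    refine ⟨hl.2.1, ?_⟩
    have : (p0 : ℝ) < l := by linarith [hl.2.2]
    exact_mod_cast this
  have hprime : ∀ l ∈ A, l.Prime := fun l hl => (hPA l hl).1
  have hLn : Ln A σ := by
    intro l hl
    have hl' := hl
    simp only [hA, PrS, Finset.mem_filter, Finset.mem_range] at hl'
    have h1 : l ≤ ⌊y⌋₊ := by omega
    have hy0 : 0 ≤ y := by linarith
    have h2 : (l : ℝ) ≤ y := (Nat.le_floor_iff hy0).1 h1
    have h3 : 0 < (l : ℝ) := by exact_mod_cast (hprime l hl).pos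
    have h4 : Real.log l ≤ Y := Real.log_le_log h3 h2
    exact (mul_le_mul_of_nonneg_left h4 (abs_nonneg _)).trans hσ
  obtain ⟨hGc, hGe, -⟩ := tGC γ p0 hG A hPA σ hLn
  -- the parameters of the branching random walk
  set x' := Real.sqrt 2 * x with hx'
  have hx'0 : 0 ≤ x' := by positivity
  set lam0 := typ be K * Real.exp (be * x') with hlam0
  have hlam0p : 0 < lam0 := by
    rw [hlam0]; unfold typ; positivity
  have hTBb := hB K (fun _ => 1) x' (fun _ => zero_le_one) (fun _ => le_rfl) hx'0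
  rw [← hlam0] at hTBb
  -- bound for the Riemann sums
  have key : ∀ R : ℕ, ∫ ω : Om, ft lam0 (∑ i : Fin (2 ^ K) × Fin (R + 1), (1 / ((R : ℝ) + 1)) *
      ‖F γ A σ (s + (((finProdFinEquiv i : Fin (2 ^ K * (R + 1))) : ℕ) : ℝ) *
        ((1 / U) / ((2 ^ K : ℕ) * (R + 1)))) ω‖ ^ 2) ∂P ≤
      CL * (CK * TR (mB be K) (fun _ => 1) lam0) := by
    intro R
    set t : Fin (2 ^ K) × Fin (R + 1) → ℝ := fun i =>
      s + (((finProdFinEquiv i : Fin (2 ^ K * (R + 1))) : ℕ) : ℝ) *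
        ((1 / U) / ((2 ^ K : ℕ) * (R + 1))) with ht
    have hR0 : (0 : ℝ) < (R : ℝ) + 1 := by positivity
    have hM0 : (0 : ℝ) < ((2 ^ K : ℕ) : ℝ) := by positivity
    have h1 := (hL A σ hPA hLn _ t (fun _ => 1 / ((R : ℝ) + 1)) lam0 (fun _ => by positivity)
      hlam0p).1
    refine h1.trans (mul_le_mul_of_nonneg_left ?_ hCL.le)
    have hval : ∀ i : Fin (2 ^ K) × Fin (R + 1),
        (((finProdFinEquiv i : Fin (2 ^ K * (R + 1))) : ℕ) : ℝ) =
          (i.2 : ℕ) + ((R : ℝ) + 1) * (i.1 : ℕ) := by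
      intro i
      rw [finProdFinEquiv_apply_val]
      push_cast
      ring
    have htau : ∀ i j : Fin (2 ^ K) × Fin (R + 1), |t i - t j| ≤ 1 / U ∧
        |t i - t j| * Y ≤ 2 * dl (i.1 : ℕ) (j.1 : ℕ) := by
      intro i j
      have e1 : t i - t j = ((((i.1 : ℕ) : ℝ) - ((j.1 : ℕ) : ℝ)) * (R + 1) +
          (((i.2 : ℕ) : ℝ) - ((j.2 : ℕ) : ℝ))) * ((1 / U) / ((2 ^ K : ℕ) * (R + 1))) := by
        simp only [ht]
        rw [hval, hval]
        ring
      have hr : |((i.2 : ℕ) : ℝ) - ((j.2 : ℕ) : ℝ)| ≤ R := by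
        have h1 := i.2.isLt
        have h2 := j.2.isLt
        have h3 : ((i.2 : ℕ) : ℝ) ≤ R := by exact_mod_cast (by omega : (i.2 : ℕ) ≤ R)
        have h4 : ((j.2 : ℕ) : ℝ) ≤ R := by exact_mod_cast (by omega : (j.2 : ℕ) ≤ R)
        have h5 : (0 : ℝ) ≤ ((i.2 : ℕ) : ℝ) := Nat.cast_nonneg _
        have h6 : (0 : ℝ) ≤ ((j.2 : ℕ) : ℝ) := Nat.cast_nonneg _
        rw [abs_le]; constructor <;> linarith
      have hpos : 0 < (1 / U) / (((2 ^ K : ℕ) : ℝ) * (R + 1)) := by positivity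
      constructor
      · -- both points are in an interval of length 1/U
        have hb : ∀ i : Fin (2 ^ K) × Fin (R + 1), s ≤ t i ∧ t i ≤ s + 1 / U := by
          intro i
          have hlt := (finProdFinEquiv i : Fin (2 ^ K * (R + 1))).isLt
          have hlt' : (((finProdFinEquiv i : Fin (2 ^ K * (R + 1))) : ℕ) : ℝ) ≤
              ((2 ^ K : ℕ) : ℝ) * (R + 1) := by
            have : (((finProdFinEquiv i : Fin (2 ^ K * (R + 1))) : ℕ) : ℝ) ≤
              ((2 ^ K * (R + 1) : ℕ) : ℝ) := by exact_mod_cast hlt.le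
            push_cast at this ⊢
            exact this
          have h0 : (0 : ℝ) ≤ (((finProdFinEquiv i : Fin (2 ^ K * (R + 1))) : ℕ) : ℝ) :=
            Nat.cast_nonneg _
          simp only [ht]
          refine ⟨by have := mul_nonneg h0 hpos.le; linarith, ?_⟩
          have h7 := mul_le_mul_of_nonneg_right hlt' hpos.le
          have h8 : ((2 ^ K : ℕ) : ℝ) * (R + 1) * ((1 / U) / (((2 ^ K : ℕ) : ℝ) * (R + 1))) =
              1 / U := by
            field_simp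
          linarith
        have h1 := hb i
        have h2 := hb j
        rw [abs_le]; constructor <;> linarith
      · rw [e1, abs_mul, abs_of_pos hpos]
        have h3 : |(((i.1 : ℕ) : ℝ) - ((j.1 : ℕ) : ℝ)) * (R + 1) +
            (((i.2 : ℕ) : ℝ) - ((j.2 : ℕ) : ℝ))| ≤
            (|((i.1 : ℕ) : ℝ) - ((j.1 : ℕ) : ℝ)| + 1) * (R + 1) := by
          refine (abs_add_le _ _).trans ?_
          rw [abs_mul, abs_of_pos hR0]
          linarith
        have h4 : |((i.1 : ℕ) : ℝ) - ((j.1 : ℕ) : ℝ)| + 1 ≤ 2 * dl (i.1 : ℕ) (j.1 : ℕ) := by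
          unfold dl
          have h5 := le_max_left 1 |((i.1 : ℕ) : ℝ) - ((j.1 : ℕ) : ℝ)|
          have h6 := le_max_right 1 |((i.1 : ℕ) : ℝ) - ((j.1 : ℕ) : ℝ)|
          linarith
        have h5 : Y * (1 / U) ≤ ((2 ^ K : ℕ) : ℝ) := by
          rw [mul_one_div]
          push_cast
          exact hYU
        have h6 : (0 : ℝ) ≤ |((i.1 : ℕ) : ℝ) - ((j.1 : ℕ) : ℝ)| := abs_nonneg _
        calc |(((i.1 : ℕ) : ℝ) - ((j.1 : ℕ) : ℝ)) * (R + 1) +
            (((i.2 : ℕ) : ℝ) - ((j.2 : ℕ) : ℝ))| * ((1 / U) / (((2 ^ K : ℕ) : ℝ) * (R + 1))) * Y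
            ≤ (|((i.1 : ℕ) : ℝ) - ((j.1 : ℕ) : ℝ)| + 1) * (R + 1) *
              ((1 / U) / (((2 ^ K : ℕ) : ℝ) * (R + 1))) * Y := by
                apply mul_le_mul_of_nonneg_right _ hY0.le
                exact mul_le_mul_of_nonneg_right h3 hpos.le
          _ = (|((i.1 : ℕ) : ℝ) - ((j.1 : ℕ) : ℝ)| + 1) * ((Y * (1 / U)) / ((2 ^ K : ℕ) : ℝ)) := by
                field_simp
          _ ≤ (|((i.1 : ℕ) : ℝ) - ((j.1 : ℕ) : ℝ)| + 1) * 1 := by
                apply mul_le_mul_of_nonneg_left _ (by linarith)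
                rw [div_le_one hM0]
                exact h5
          _ ≤ _ := by linarith
    have hNt : ∀ i j : Fin (2 ^ K) × Fin (R + 1),
        |CS A (2 * σ) (t i - t j) - Real.log ((Y / U) / max 1 (|t i - t j| * Y))| ≤ CN := by
      intro i j
      have hτ := (htau i j).1
      have h1U : 1 / U ≤ 1 := by
        rw [div_le_one hU0]; linarith
      apply hN u y (2 * σ) (t i - t j) hu2 huy
      · rw [abs_mul, abs_of_pos (by norm_num : (0 : ℝ) < 2)]
        linarith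
      · linarith
      · have := mul_le_mul_of_nonneg_right hτ hU0.le
        rw [one_div, inv_mul_cancel₀ hU0.ne'] at this
        linarith
    have hcomp := hK _ _ _ (fun i : Fin (2 ^ K) × Fin (R + 1) => mB be K i.1) (aP γ A σ t)
      (fun _ => 1 / ((R : ℝ) + 1)) lam0 (fun _ => by positivity) hlam0p
      (by
        intro i j
        rw [hCOV γ A σ hprime _ t i j, ← hαdef]
        refine ((hCVB be K).1 i.1 j.1).trans ?_
        rw [hbsq]
        have h1 := abs_le.1 (hNt i j)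
        have hmax : 0 < max 1 (|t i - t j| * Y) := lt_of_lt_of_le one_pos (le_max_left _ _)
        rw [Real.log_div (by positivity) hmax.ne', ← hLg] at h1
        have hdl : 1 ≤ dl (i.1 : ℕ) (j.1 : ℕ) := le_max_left _ _
        have h2 : Real.log (max 1 (|t i - t j| * Y)) ≤ vv + Real.log (dl (i.1 : ℕ) (j.1 : ℕ)) := by
          rw [vv, ← Real.log_mul (by norm_num) (by linarith)]
          apply Real.log_le_log hmax
          exact max_le (by linarith) (htau i j).2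
        have h3 : (K : ℝ) * vv - Real.log (dl (i.1 : ℕ) (j.1 : ℕ)) ≤
            CS A (2 * σ) (t i - t j) + (2 * vv + CN) := by linarith [h1.1]
        have h4 : 0 ≤ 2 * α ^ 2 := by positivity
        have h5 := mul_le_mul_of_nonneg_left h3 h4
        calc 2 * α ^ 2 * (K * vv - Real.log (dl (i.1 : ℕ) (j.1 : ℕ))) ≤
            2 * α ^ 2 * (CS A (2 * σ) (t i - t j) + (2 * vv + CN)) := h5
          _ = _ := by ring)
      (by
        intro i
        have h0 := hCOV γ A σ hprime _ t i i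
        have h0' : ∑ k, aP γ A σ t i k ^ 2 = 2 * α ^ 2 * CS A (2 * σ) (t i - t i) := by
          rw [← h0]
          exact Finset.sum_congr rfl (fun k _ => sq _)
        rw [h0', (hCVB be K).2 i.1, hbsq]
        have h1 := abs_le.1 (hNt i i)
        simp only [sub_self, abs_zero, zero_mul] at h1 ⊢
        rw [max_eq_left (by norm_num : (0 : ℝ) ≤ 1), div_one, ← hLg] at h1
        have h3 : CS A (2 * σ) 0 ≤ K * vv + (2 * vv + CN) := by linarith [h1.2]
        have h4 : 0 ≤ 2 * α ^ 2 := by positivity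
        have h5 := mul_le_mul_of_nonneg_left h3 h4
        calc 2 * α ^ 2 * CS A (2 * σ) 0 ≤ 2 * α ^ 2 * (K * vv + (2 * vv + CN)) := h5
          _ = _ := by ring)
    refine hcomp.trans (mul_le_mul_of_nonneg_left ?_ hCK.le)
    apply le_of_eq
    unfold TR
    congr 1
    ext g
    congr 1
    unfold ZG
    rw [Fintype.sum_prod_type]
    apply Finset.sum_congr rfl
    intro c _
    simp only [Finset.sum_const, Finset.card_univ, Fintype.card_fin, nsmul_eq_mul]
    push_cast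
    field_simp
  -- the limit of the Riemann sums
  set J : Om → ℝ := fun ω => U * ∫ t in Set.Ioc s (s + 1 / U), ‖F γ A σ t ω‖ ^ 2 with hJ
  have hFc : ∀ ω, Continuous (fun t : ℝ => ‖F γ A σ t ω‖ ^ 2) := by
    intro ω
    have : (fun t : ℝ => ‖F γ A σ t ω‖ ^ 2) = fun t => Real.exp (G γ A σ t ω) ^ 2 := by
      ext t; rw [hGe]
    rw [this]
    have h3 : Continuous (fun t : ℝ => ((t, ω) : ℝ × Om)) := by fun_prop
    have h2 := hGc.comp h3
    simp only [Function.comp_def] at h2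
    have h4 := (Real.continuous_exp.comp h2).pow 2
    simp only [Function.comp_def] at h4
    exact h4
  have hFω : ∀ t, Continuous (fun ω : Om => ‖F γ A σ t ω‖ ^ 2) := by
    intro t
    have : (fun ω : Om => ‖F γ A σ t ω‖ ^ 2) = fun ω => Real.exp (G γ A σ t ω) ^ 2 := by
      ext ω; rw [hGe]
    rw [this]
    have h3 : Continuous (fun ω : Om => ((t, ω) : ℝ × Om)) := by fun_prop
    have h2 := hGc.comp h3
    simp only [Function.comp_def] at h2
    have h4 := (Real.continuous_exp.comp h2).pow 2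
    simp only [Function.comp_def] at h4
    exact h4
  have h2Kc : (((2 ^ K : ℕ) : ℝ)) = 2 ^ K := by push_cast; ring
  have hlim : ∀ ω, Filter.Tendsto (fun R : ℕ => ∑ i : Fin (2 ^ K) × Fin (R + 1),
      (1 / ((R : ℝ) + 1)) * ‖F γ A σ (s + (((finProdFinEquiv i : Fin (2 ^ K * (R + 1))) : ℕ) : ℝ) *
        ((1 / U) / ((2 ^ K : ℕ) * (R + 1)))) ω‖ ^ 2) Filter.atTop (nhds (2 ^ K * J ω)) := by
    intro ω
    have h := riem hRIE (fun _ => 2 ^ K * U) (fun t => ‖F γ A σ t ω‖ ^ 2) continuous_const (hFc ω)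
      s (1 / U) (by positivity) (2 ^ K) (by positivity)
    rw [integral_const_mul, mul_assoc] at h
    refine h.congr fun R => ?_
    apply Finset.sum_congr rfl
    intro i _
    congr 1
    rw [setIntegral_const, Measure.real, Real.volume_Ioc, ENNReal.toReal_ofReal, smul_eq_mul]
    · rw [h2Kc]
      field_simp
      ring
    · have : 0 < (1 / U) / (((2 ^ K : ℕ) : ℝ) * (R + 1)) := by positivity
      nlinarith
  have hJ0 : ∀ ω, 0 ≤ J ω := fun ω => mul_nonneg hU0.le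
    (integral_nonneg fun t => by positivity)
  have hZ0 : ∀ ω, 0 ≤ 2 ^ K * J ω := fun ω => mul_nonneg (by positivity) (hJ0 ω)
  have hlimf : ∀ ω, Filter.Tendsto (fun R : ℕ => ft lam0 (∑ i : Fin (2 ^ K) × Fin (R + 1),
      (1 / ((R : ℝ) + 1)) * ‖F γ A σ (s + (((finProdFinEquiv i : Fin (2 ^ K * (R + 1))) : ℕ) : ℝ) *
        ((1 / U) / ((2 ^ K : ℕ) * (R + 1)))) ω‖ ^ 2)) Filter.atTop
        (nhds (ft lam0 (2 ^ K * J ω))) :=
    fun ω => (ft_cont hlam0p (hZ0 ω)).tendsto.comp (hlim ω)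
  have hsum0 : ∀ (R : ℕ) (ω : Om), 0 ≤ ∑ i : Fin (2 ^ K) × Fin (R + 1),
      (1 / ((R : ℝ) + 1)) * ‖F γ A σ (s + (((finProdFinEquiv i : Fin (2 ^ K * (R + 1))) : ℕ) : ℝ) *
        ((1 / U) / ((2 ^ K : ℕ) * (R + 1)))) ω‖ ^ 2 :=
    fun R ω => Finset.sum_nonneg fun i _ => by positivity
  have hmeas : ∀ R : ℕ, Measurable (fun ω : Om => ft lam0 (∑ i : Fin (2 ^ K) × Fin (R + 1),
      (1 / ((R : ℝ) + 1)) * ‖F γ A σ (s + (((finProdFinEquiv i : Fin (2 ^ K * (R + 1))) : ℕ) : ℝ) *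
        ((1 / U) / ((2 ^ K : ℕ) * (R + 1)))) ω‖ ^ 2)) := by
    intro R
    have hs : Measurable (fun ω : Om => ∑ i : Fin (2 ^ K) × Fin (R + 1),
      (1 / ((R : ℝ) + 1)) * ‖F γ A σ (s + (((finProdFinEquiv i : Fin (2 ^ K * (R + 1))) : ℕ) : ℝ) *
        ((1 / U) / ((2 ^ K : ℕ) * (R + 1)))) ω‖ ^ 2) :=
      Finset.measurable_sum _ (fun i _ => ((hFω _).measurable).const_mul _)
    unfold ft
    exact hs.div (hs.add_const _)
  have hmeasl : Measurable (fun ω : Om => ft lam0 (2 ^ K * J ω)) :=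
    measurable_of_tendsto_metrizable hmeas (tendsto_pi_nhds.2 hlimf)
  have hDCT := tendsto_integral_of_dominated_convergence (μ := P) (fun _ => (1 : ℝ))
    (fun R => (hmeas R).aestronglyMeasurable) (integrable_const _)
    (fun R => Filter.Eventually.of_forall fun ω => by
      rw [Real.norm_of_nonneg (ft_nonneg hlam0p (hsum0 R ω))]
      exact ft_le_one hlam0p (hsum0 R ω))
    (Filter.Eventually.of_forall hlimf)
  have hfin : ∫ ω : Om, ft lam0 (2 ^ K * J ω) ∂P ≤ CL * (CK * TR (mB be K) (fun _ => 1) lam0) :=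
    le_of_tendsto' hDCT key
  have hint : Integrable (fun ω : Om => ft lam0 (2 ^ K * J ω)) P :=
    (integrable_const (1 : ℝ)).mono' hmeasl.aestronglyMeasurable
      (Filter.Eventually.of_forall fun ω => by
        rw [Real.norm_of_nonneg (ft_nonneg hlam0p (hZ0 ω))]
        exact ft_le_one hlam0p (hZ0 ω))
  -- comparison of the thresholds
  set T : ℝ := Real.exp ((2 * α - 1) * Lg) * (1 + Lg) ^ (-(3 * α / 2)) * Real.exp (2 * α * x)
    with hT
  have hTp : 0 < T := by rw [hT]; positivity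
  have hcmp : c1 * lam0 ≤ 2 ^ K * T := cmp_thr hα hLg0 hK1 hK2
  have hmono : ∫ ω : Om, ft T (J ω) ∂P ≤ ∫ ω : Om, c1⁻¹ * ft lam0 (2 ^ K * J ω) ∂P := by
    apply integral_mono_of_nonneg
    · exact Filter.Eventually.of_forall fun ω => ft_nonneg hTp (hJ0 ω)
    · exact hint.const_mul _
    · refine Filter.Eventually.of_forall fun ω => ?_
      show ft T (J ω) ≤ c1⁻¹ * ft lam0 (2 ^ K * J ω)
      rw [ft_scale (a := 2 ^ K) (by positivity)]
      exact ft_le hc1p hc1le hlam0p hcmp (hZ0 ω)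
  refine hmono.trans ?_
  rw [integral_const_mul]
  have hTB2 : TR (mB be K) (fun _ => 1) lam0 ≤ CB * 2 * ((1 + x) * Real.exp (-2 * x) *
      (Real.exp (-cB * x ^ 2 / (1 + Lg)) + Real.exp (-cB * x))) :=
    hTBb.trans (tb_simpl hCB hcB hx hLg0 hK2)
  have hfin2 : ∫ ω : Om, ft lam0 (2 ^ K * J ω) ∂P ≤ CL * (CK * (CB * 2 * ((1 + x) *
      Real.exp (-2 * x) * (Real.exp (-cB * x ^ 2 / (1 + Lg)) + Real.exp (-cB * x))))) := by
    refine hfin.trans ?_
    gcongr
  calc c1⁻¹ * ∫ ω : Om, ft lam0 (2 ^ K * J ω) ∂P ≤ c1⁻¹ * (CL * (CK * (CB * 2 * ((1 + x) *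
      Real.exp (-2 * x) * (Real.exp (-cB * x ^ 2 / (1 + Lg)) + Real.exp (-cB * x)))))) :=
        mul_le_mul_of_nonneg_left hfin2 (by positivity)
    _ = _ := by ring

end PN
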