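import Pool.Agent.H24.PM.All
import Pool.Agent.H24.PN.Stmts
import Pool.Agent.H24.PN.PUB

/-! Lower bound for several blocks of the prime field with a weight function. -/

namespace PN
open MeasureTheory Complex ProbabilityTheory PM

namespace PLBx

open PUBx

/-- the weights of the small cells add up to the weight of the large cell -/
theorem cell_sum (w : ℝ → ℝ) (hw : Continuous w) (s ℓ : ℝ) (hℓ : 0 < ℓ) (M : ℕ) (hM : 0 < M)
    (R : ℕ) (c : Fin M) :
    ∑ r : Fin (R + 1), (∫ t in Set.Ioc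
      (s + ((finProdFinEquiv (c, r) : Fin (M * (R + 1))) : ℕ) * (ℓ / (M * (R + 1))))
      (s + (((finProdFinEquiv (c, r) : Fin (M * (R + 1))) : ℕ) + 1) * (ℓ / (M * (R + 1)))), w t) =
    ∫ t in Set.Ioc (s + ((c : ℕ) : ℝ) * (ℓ / M)) (s + (((c : ℕ) : ℝ) + 1) * (ℓ / M)), w t := by
  have hM0 : (0 : ℝ) < M := by exact_mod_cast hM
  have hR0 : (0 : ℝ) < (R : ℝ) + 1 := by positivity
  set h : ℝ := ℓ / (M * (R + 1)) with hh
  have hpos : 0 < h := by positivity
  let a : ℕ → ℝ := fun k => s + ((c : ℕ) * ((R : ℝ) + 1) + k) * h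
  have hval : ∀ r : Fin (R + 1), (((finProdFinEquiv (c, r) : Fin (M * (R + 1))) : ℕ) : ℝ) =
      (c : ℕ) * ((R : ℝ) + 1) + (r : ℕ) := by
    intro r
    rw [finProdFinEquiv_apply_val]
    push_cast
    ring
  have h1 : ∀ r : Fin (R + 1), (∫ t in Set.Ioc
      (s + ((finProdFinEquiv (c, r) : Fin (M * (R + 1))) : ℕ) * h)
      (s + (((finProdFinEquiv (c, r) : Fin (M * (R + 1))) : ℕ) + 1) * h), w t) =
      ∫ t in (a (r : ℕ))..(a ((r : ℕ) + 1)), w t := by
    intro r
    rw [intervalIntegral.integral_of_le (by simp only [a]; push_cast; nlinarith), hval]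
    congr 2
    simp only [a]
    push_cast
    ring_nf
  rw [Finset.sum_congr rfl (fun r _ => h1 r)]
  rw [Fin.sum_univ_eq_sum_range (fun r : ℕ => ∫ t in (a r)..(a (r + 1)), w t) (R + 1)]
  rw [intervalIntegral.sum_integral_adjacent_intervals
    (fun k _ => hw.intervalIntegrable _ _)]
  have e0 : a 0 = s + ((c : ℕ) : ℝ) * (ℓ / M) := by
    simp only [a, hh]
    push_cast
    field_simp
    try ring
  have e1 : a (R + 1) = s + (((c : ℕ) : ℝ) + 1) * (ℓ / M) := by
    simp only [a, hh]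
    push_cast
    field_simp
    try ring
  rw [e0, e1, intervalIntegral.integral_of_le]
  have : 0 < ℓ / M := by positivity
  nlinarith

/-- positions in a block -/
theorem pos_bounds (U s : ℝ) (hU0 : 0 < U) (K R : ℕ) (i : Fin (2 ^ K) × Fin (R + 1)) :
    s ≤ s + (((finProdFinEquiv i : Fin (2 ^ K * (R + 1))) : ℕ) : ℝ) *
        ((1 / U) / ((2 ^ K : ℕ) * (R + 1))) ∧
    s + (((finProdFinEquiv i : Fin (2 ^ K * (R + 1))) : ℕ) : ℝ) *
        ((1 / U) / ((2 ^ K : ℕ) * (R + 1))) ≤ s + 1 / U := by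
  have hR0 : (0 : ℝ) < (R : ℝ) + 1 := by positivity
  have hM0 : (0 : ℝ) < ((2 ^ K : ℕ) : ℝ) := by positivity
  have hpos : 0 < (1 / U) / (((2 ^ K : ℕ) : ℝ) * (R + 1)) := by positivity
  have hlt := (finProdFinEquiv i : Fin (2 ^ K * (R + 1))).isLt
  have hlt' : (((finProdFinEquiv i : Fin (2 ^ K * (R + 1))) : ℕ) : ℝ) ≤
      ((2 ^ K : ℕ) : ℝ) * (R + 1) := by
    have : (((finProdFinEquiv i : Fin (2 ^ K * (R + 1))) : ℕ) : ℝ) ≤
      ((2 ^ K * (R + 1) : ℕ) : ℝ) := by exact_mod_cast hlt.le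
    push_cast at this ⊢
    exact this
  have h0 : (0 : ℝ) ≤ (((finProdFinEquiv i : Fin (2 ^ K * (R + 1))) : ℕ) : ℝ) :=
    Nat.cast_nonneg _
  refine ⟨by have := mul_nonneg h0 hpos.le; linarith, ?_⟩
  have h7 := mul_le_mul_of_nonneg_right hlt' hpos.le
  have h8 : ((2 ^ K : ℕ) : ℝ) * (R + 1) * ((1 / U) / (((2 ^ K : ℕ) : ℝ) * (R + 1))) =
      1 / U := by
    field_simp
  linarith

/-- lower bound for distances in a block -/
theorem pos_dist (U Y s : ℝ) (hU0 : 0 < U) (K R : ℕ) (hK : (2 : ℝ) ^ K ≤ Y / U)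
    (i j : Fin (2 ^ K) × Fin (R + 1)) :
    dl (i.1 : ℕ) (j.1 : ℕ) ≤ 2 * max 1 (|(s + (((finProdFinEquiv i : Fin (2 ^ K * (R + 1))) : ℕ) : ℝ)
        * ((1 / U) / ((2 ^ K : ℕ) * (R + 1)))) -
      (s + (((finProdFinEquiv j : Fin (2 ^ K * (R + 1))) : ℕ) : ℝ) *
        ((1 / U) / ((2 ^ K : ℕ) * (R + 1))))| * Y) := by
  have hR0 : (0 : ℝ) < (R : ℝ) + 1 := by positivity
  have hM0 : (0 : ℝ) < ((2 ^ K : ℕ) : ℝ) := by positivity
  have hpos : 0 < (1 / U) / (((2 ^ K : ℕ) : ℝ) * (R + 1)) := by positivity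
  have hval : ∀ i : Fin (2 ^ K) × Fin (R + 1),
      (((finProdFinEquiv i : Fin (2 ^ K * (R + 1))) : ℕ) : ℝ) =
        (i.2 : ℕ) + ((R : ℝ) + 1) * (i.1 : ℕ) := by
    intro i
    rw [finProdFinEquiv_apply_val]
    push_cast
    ring
  have e1 : (s + (((finProdFinEquiv i : Fin (2 ^ K * (R + 1))) : ℕ) : ℝ)
        * ((1 / U) / ((2 ^ K : ℕ) * (R + 1)))) -
      (s + (((finProdFinEquiv j : Fin (2 ^ K * (R + 1))) : ℕ) : ℝ) *
        ((1 / U) / ((2 ^ K : ℕ) * (R + 1)))) = ((((i.1 : ℕ) : ℝ) - ((j.1 : ℕ) : ℝ)) * (R + 1) +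
        (((i.2 : ℕ) : ℝ) - ((j.2 : ℕ) : ℝ))) * ((1 / U) / ((2 ^ K : ℕ) * (R + 1))) := by
    rw [hval, hval]
    ring
  have hr : |((i.2 : ℕ) : ℝ) - ((j.2 : ℕ) : ℝ)| ≤ R := by
    have h1 := i.2.isLt
    have h2 := j.2.isLt
    have h3 : ((i.2 : ℕ) : ℝ) ≤ R := by exact_mod_cast (by omega : (i.2 : ℕ) ≤ R)
    have h4 : ((j.2 : ℕ) : ℝ) ≤ R := by exact_mod_cast (by omega : (j.2 : ℕ) ≤ R)
    have h5 : (0 : ℝ) ≤ ((i.2 : ℕ) : ℝ) := Nat.cast_nonneg _
    have h6 : (0 : ℝ) ≤ ((j.2 : ℕ) : ℝ) := Nat.cast_nonneg _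
    rw [abs_le]; constructor <;> linarith
  rw [e1, abs_mul, abs_of_pos hpos]
  set d := |((i.1 : ℕ) : ℝ) - ((j.1 : ℕ) : ℝ)| with hd
  have hd0 : 0 ≤ d := abs_nonneg _
  have h3 : (d - 1) * (R + 1) ≤ |(((i.1 : ℕ) : ℝ) - ((j.1 : ℕ) : ℝ)) * (R + 1) +
      (((i.2 : ℕ) : ℝ) - ((j.2 : ℕ) : ℝ))| := by
    have h4 := abs_sub_abs_le_abs_sub ((((i.1 : ℕ) : ℝ) - ((j.1 : ℕ) : ℝ)) * (R + 1))
      (-(((i.2 : ℕ) : ℝ) - ((j.2 : ℕ) : ℝ)))
    rw [abs_neg, sub_neg_eq_add, abs_mul, abs_of_pos hR0, ← hd] at h4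
    linarith
  have hY0 : 0 < Y := by
    have : 0 < Y / U := lt_of_lt_of_le (by positivity) hK
    rcases div_pos_iff.1 this with h | h
    · exact h.1
    · linarith [h.2]
  have h5 : (d - 1) ≤ |(((i.1 : ℕ) : ℝ) - ((j.1 : ℕ) : ℝ)) * (R + 1) +
      (((i.2 : ℕ) : ℝ) - ((j.2 : ℕ) : ℝ))| * ((1 / U) / (((2 ^ K : ℕ) : ℝ) * (R + 1))) * Y := by
    by_cases hd1 : d ≤ 1
    · have : 0 ≤ |(((i.1 : ℕ) : ℝ) - ((j.1 : ℕ) : ℝ)) * (R + 1) +
        (((i.2 : ℕ) : ℝ) - ((j.2 : ℕ) : ℝ))| * ((1 / U) / (((2 ^ K : ℕ) : ℝ) * (R + 1))) * Y := by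
        positivity
      linarith
    · rw [not_le] at hd1
      have h6 : 1 ≤ (Y / U) / ((2 ^ K : ℕ) : ℝ) := by
        rw [le_div_iff₀ hM0, one_mul]
        push_cast
        exact hK
      calc d - 1 = (d - 1) * 1 := by ring
        _ ≤ (d - 1) * ((Y / U) / ((2 ^ K : ℕ) : ℝ)) :=
          mul_le_mul_of_nonneg_left h6 (by linarith)
        _ = (d - 1) * (R + 1) * ((1 / U) / (((2 ^ K : ℕ) : ℝ) * (R + 1))) * Y := by
          field_simp
        _ ≤ _ := by
          apply mul_le_mul_of_nonneg_right _ hY0.le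
          exact mul_le_mul_of_nonneg_right h3 hpos.le
  unfold dl
  rw [← hd]
  set v := |(((i.1 : ℕ) : ℝ) - ((j.1 : ℕ) : ℝ)) * (R + 1) +
      (((i.2 : ℕ) : ℝ) - ((j.2 : ℕ) : ℝ))| * ((1 / U) / (((2 ^ K : ℕ) : ℝ) * (R + 1))) * Y
  have h7 := le_max_left 1 v
  have h8 := le_max_right 1 v
  apply max_le <;> linarith

end PLBx

open PUBx PLBx

theorem PLB (hLT : S_LT) (hLIN : S_LIN) (hKAH : S_KAH) (hCOV : S_COV) (hCVC : S_CVC)
    (hNTG : S_NTG) (hNTH : S_NTH) (hRIE : S_RIE) : S_PLB := by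
  intro γ p0 hG hα
  set α := al γ with hαdef
  have hs2 := sq2
  have hs2p : 0 < Real.sqrt 2 := by positivity
  have hbe2 : Real.sqrt 2 < Real.sqrt 2 * α := by nlinarith
  have hbsq : (Real.sqrt 2 * α) ^ 2 = 2 * α ^ 2 := by
    rw [mul_pow, sq (Real.sqrt 2), hs2]
  obtain ⟨cT, K0, hcT, hT⟩ := hLT _ hbe2
  obtain ⟨CN, hCN, hN⟩ := hNTG
  obtain ⟨A0, CH, hCH, hH⟩ := hNTH
  obtain ⟨C3, hC3, h3⟩ := tNTC
  obtain ⟨CL, hCL, hL⟩ := hLIN γ p0 hG
  obtain ⟨CC, hCC, hC⟩ := hCVC
  have hvv : 0 < vv := vv_pos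
  obtain ⟨CK, hCK, hK⟩ := hKAH (2 * α ^ 2 * (2 * vv + CN + CC + CH + C3)) (by positivity)
  refine ⟨cT / (CL * CK), K0, A0, by positivity, ?_⟩
  intro u y σ lam B s w L x hu huy hσ hKK hlam hw hw0 hsep hLx
  have hp0 : 4 * Real.exp 16 ≤ (p0 : ℝ) := hG.1
  have hu16 : Real.exp 16 ≤ u := by
    have := Real.exp_pos 16
    linarith
  have hu0 : 0 < u := lt_of_lt_of_le (Real.exp_pos _) hu16
  have hu2 : 2 ≤ u := by
    have := Real.add_one_le_exp (16 : ℝ)
    linarith
  have hLu : 16 ≤ Real.log u := by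
    rw [Real.le_log_iff_exp_le hu0]; exact hu16
  have hLy : Real.log u ≤ Real.log y := Real.log_le_log hu0 huy
  set U := Real.log u with hU
  set Y := Real.log y with hY
  have hU0 : 0 < U := by linarith
  have hY0 : 0 < Y := by linarith
  set Lg := Real.log (Y / U) with hLg
  have hLg0 : 0 ≤ Lg := Real.log_nonneg (by rw [le_div_iff₀ hU0]; linarith)
  have hexpL : Real.exp Lg = Y / U := Real.exp_log (by positivity)
  have hKdef : Kd u y = ⌊Lg / vv⌋₊ := rfl
  generalize Kd u y = K at *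
  have hK1 : (K : ℝ) * vv ≤ Lg := by
    have := Nat.floor_le (show 0 ≤ Lg / vv by positivity)
    rw [← hKdef] at this
    rwa [le_div_iff₀ hvv] at this
  have hK2 : Lg ≤ (K : ℝ) * vv + vv := by
    have := (Nat.lt_floor_add_one (Lg / vv)).le
    rw [← hKdef] at this
    rw [div_le_iff₀ hvv] at this
    linarith
  have h2K : (2 : ℝ) ^ K = Real.exp (K * vv) := two_pow_eq K
  have hYU : (2 : ℝ) ^ K ≤ Y / U := by
    rw [h2K, ← hexpL]; exact Real.exp_le_exp.2 hK1
  set A := PrS u y with hA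
  have hPA : PA p0 A := by
    intro l hl
    simp only [hA, PrS, Finset.mem_filter, Finset.mem_range] at hl
    refine ⟨hl.2.1, ?_⟩
    have : (p0 : ℝ) < l := by linarith [hl.2.2]
    exact_mod_cast this
  have hprime : ∀ l ∈ A, l.Prime := fun l hl => (hPA l hl).1
  have hLn : Ln A σ := by
    intro l hl
    have hl' := hl
    simp only [hA, PrS, Finset.mem_filter, Finset.mem_range] at hl'
    have h1 : l ≤ ⌊y⌋₊ := by omega
    have hy0 : 0 ≤ y := by linarith
    have h2 : (l : ℝ) ≤ y := (Nat.le_floor_iff hy0).1 h1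
    have h3 : 0 < (l : ℝ) := by exact_mod_cast (hprime l hl).pos
    have h4 : Real.log l ≤ Y := Real.log_le_log h3 h2
    exact (mul_le_mul_of_nonneg_left h4 (abs_nonneg _)).trans hσ
  obtain ⟨hGc, hGe, -⟩ := tGC γ p0 hG A hPA σ hLn
  have h2Kc : (((2 ^ K : ℕ) : ℝ)) = 2 ^ K := by push_cast; ring
  -- weights of the cells
  set p' : Fin B × Fin (2 ^ K) → ℝ := fun i =>
    ∫ t in Set.Ioc (s i.1 + ((i.2 : ℕ) : ℝ) * (1 / U / 2 ^ K))
        (s i.1 + (((i.2 : ℕ) : ℝ) + 1) * (1 / U / 2 ^ K)), w t with hp'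
  have hTb := hT K B hKK p' lam L x (fun i => integral_nonneg (fun t => hw0 t)) hlam
    (fun i hi => hLx i hi)
  have h1U : 1 / U ≤ 1 := by
    rw [div_le_one hU0]; linarith
  -- bound for the Riemann sums
  let t : (R : ℕ) → Fin B × (Fin (2 ^ K) × Fin (R + 1)) → ℝ := fun R i =>
    s i.1 + (((finProdFinEquiv i.2 : Fin (2 ^ K * (R + 1))) : ℕ) : ℝ) *
        ((1 / U) / ((2 ^ K : ℕ) * (R + 1)))
  let p : (R : ℕ) → Fin B × (Fin (2 ^ K) × Fin (R + 1)) → ℝ := fun R i =>
    ∫ t in Set.Ioc (s i.1 + ((finProdFinEquiv i.2 : Fin (2 ^ K * (R + 1))) : ℕ) *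
        ((1 / U) / ((2 ^ K : ℕ) * (R + 1))))
        (s i.1 + (((finProdFinEquiv i.2 : Fin (2 ^ K * (R + 1))) : ℕ) + 1) *
        ((1 / U) / ((2 ^ K : ℕ) * (R + 1)))), w t
  have hpn : ∀ R i, 0 ≤ p R i := fun R i => integral_nonneg (fun t => hw0 t)
  have key : ∀ R : ℕ, TR (mC (Real.sqrt 2 * α) K B) p' lam ≤
      CK * (CL * ∫ ω : Om, ft lam (∑ i, p R i * ‖F γ A σ (t R i) ω‖ ^ 2) ∂P) := by
    intro R
    have h1 := (hL A σ hPA hLn _ (t R) (p R) lam (hpn R) hlam).2
    refine le_trans ?_ (mul_le_mul_of_nonneg_left h1 hCK.le)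
    have hsame : ∀ i j : Fin B × (Fin (2 ^ K) × Fin (R + 1)), i.1 = j.1 →
        |CS A (2 * σ) (t R i - t R j) - Real.log ((Y / U) / max 1 (|t R i - t R j| * Y))| ≤ CN := by
      intro i j hij
      have hb1 := pos_bounds U (s i.1) hU0 K R i.2
      have hb2 := pos_bounds U (s j.1) hU0 K R j.2
      have hτ : |t R i - t R j| ≤ 1 / U := by
        simp only [t]
        rw [hij] at hb1 ⊢
        rw [abs_le]; constructor <;> linarith [hb1.1, hb1.2, hb2.1, hb2.2]
      apply hN u y (2 * σ) (t R i - t R j) hu2 huy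
      · rw [abs_mul, abs_of_pos (by norm_num : (0 : ℝ) < 2)]
        linarith
      · linarith
      · have := mul_le_mul_of_nonneg_right hτ hU0.le
        rw [one_div, inv_mul_cancel₀ hU0.ne'] at this
        linarith
    have hcomp := hK _ _ _ (aP γ A σ (t R))
      (fun i : Fin B × (Fin (2 ^ K) × Fin (R + 1)) => mC (Real.sqrt 2 * α) K B (i.1, i.2.1))
      (p R) lam (hpn R) hlam
      (by
        intro i j
        rw [hCOV γ A σ hprime _ (t R) i j, ← hαdef]
        by_cases hij : i.1 = j.1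
        · have h2 := (hC (Real.sqrt 2 * α) K B).1 (i.1, i.2.1) (j.1, j.2.1) hij
          rw [hbsq] at h2
          have h1 := abs_le.1 (hsame i j hij)
          have hmax : 0 < max 1 (|t R i - t R j| * Y) := lt_of_lt_of_le one_pos (le_max_left _ _)
          rw [Real.log_div (by positivity) hmax.ne', ← hLg] at h1
          have hdl : 1 ≤ dl (i.2.1 : ℕ) (j.2.1 : ℕ) := le_max_left _ _
          have hdd := pos_dist U Y (s i.1) hU0 K R hYU i.2 j.2
          have hdd' : dl (i.2.1 : ℕ) (j.2.1 : ℕ) ≤ 2 * max 1 (|t R i - t R j| * Y) := by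
            have e : t R i - t R j = (s i.1 + (((finProdFinEquiv i.2 : Fin (2 ^ K * (R + 1))) : ℕ) : ℝ)
                * ((1 / U) / ((2 ^ K : ℕ) * (R + 1)))) -
              (s i.1 + (((finProdFinEquiv j.2 : Fin (2 ^ K * (R + 1))) : ℕ) : ℝ) *
                ((1 / U) / ((2 ^ K : ℕ) * (R + 1)))) := by
              simp only [t]
              rw [hij]
            rw [e]
            exact hdd
          have h3 : Real.log (dl (i.2.1 : ℕ) (j.2.1 : ℕ)) ≤
              vv + Real.log (max 1 (|t R i - t R j| * Y)) := by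
            rw [vv, ← Real.log_mul (by norm_num) hmax.ne']
            exact Real.log_le_log (by linarith) hdd'
          have h4 : CS A (2 * σ) (t R i - t R j) ≤
              (K * vv - Real.log (dl (i.2.1 : ℕ) (j.2.1 : ℕ)) - CC) + (2 * vv + CN + CC) := by
            linarith [h1.2]
          have h5 : 0 ≤ 2 * α ^ 2 := by positivity
          have h6 := mul_le_mul_of_nonneg_left h4 h5
          have h7 : 0 ≤ 2 * α ^ 2 * (CH + C3) := by positivity
          calc 2 * α ^ 2 * CS A (2 * σ) (t R i - t R j) ≤ _ := h6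
            _ = 2 * α ^ 2 * (K * vv - Real.log (dl (i.2.1 : ℕ) (j.2.1 : ℕ)) - CC) +
              2 * α ^ 2 * (2 * vv + CN + CC) := by ring
            _ ≤ (∑ k, mC (Real.sqrt 2 * α) K B (i.1, i.2.1) k *
                mC (Real.sqrt 2 * α) K B (j.1, j.2.1) k) + 2 * α ^ 2 * (2 * vv + CN + CC) := by
              linarith
            _ ≤ _ := by
              have : 2 * α ^ 2 * (2 * vv + CN + CC + CH + C3) =
                2 * α ^ 2 * (2 * vv + CN + CC) + 2 * α ^ 2 * (CH + C3) := by ring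
              rw [this]
              linarith
        · have h2 := (hC (Real.sqrt 2 * α) K B).2.1 (i.1, i.2.1) (j.1, j.2.1)
          obtain ⟨hs1, hs2⟩ := hsep i.1 j.1 hij
          have hb1 := pos_bounds U (s i.1) hU0 K R i.2
          have hb2 := pos_bounds U (s j.1) hU0 K R j.2
          have hdiff : |(t R i - t R j) - (s i.1 - s j.1)| ≤ 1 / U := by
            simp only [t]
            rw [abs_le]; constructor <;> linarith [hb1.1, hb1.2, hb2.1, hb2.2]
          have hge : 1 / U ≤ |t R i - t R j| := by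
            have h5 := abs_sub_abs_le_abs_sub (s i.1 - s j.1) (t R i - t R j)
            rw [abs_sub_comm (s i.1 - s j.1) (t R i - t R j)] at h5
            have h6 : 2 / U = 1 / U + 1 / U := by ring
            linarith
          have hle : |t R i - t R j| ≤ |s i.1 - s j.1| + 1 := by
            have h5 := abs_sub_abs_le_abs_sub (t R i - t R j) (s i.1 - s j.1)
            linarith
          have hσ2 : |2 * σ| * Real.log y ≤ 16 := by
            rw [abs_mul, abs_of_pos (by norm_num : (0 : ℝ) < 2)]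
            linarith
          have hCS : CS A (2 * σ) (t R i - t R j) ≤ CH + C3 := by
            rcases le_total |t R i - t R j| 1 with h5 | h5
            · have h6 := h3 u y (2 * σ) (t R i - t R j) hu2 huy h5 (by
                have := mul_le_mul_of_nonneg_right hge hU0.le
                rwa [one_div, inv_mul_cancel₀ hU0.ne'] at this) hσ2
              linarith [(abs_le.1 h6).2]
            · have h6 := hH u y (2 * σ) (t R i - t R j) hu2 huy hσ2 h5 (by
                refine le_trans (pow_le_pow_left₀ ?_ ?_ _) hs2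
                · exact Real.log_nonneg (by linarith [abs_nonneg (t R i - t R j)])
                · apply Real.log_le_log (by linarith [abs_nonneg (t R i - t R j)])
                  linarith)
              linarith [(abs_le.1 h6).2]
          have h5 : 0 ≤ 2 * α ^ 2 := by positivity
          have h6 : CS A (2 * σ) (t R i - t R j) ≤ 2 * vv + CN + CC + CH + C3 := by linarith
          have h7 := mul_le_mul_of_nonneg_left h6 h5
          linarith)
      (by
        intro i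
        have h0 := hCOV γ A σ hprime _ (t R) i i
        have h0' : ∑ k, aP γ A σ (t R) i k ^ 2 = 2 * α ^ 2 * CS A (2 * σ) (t R i - t R i) := by
          rw [← h0]
          exact Finset.sum_congr rfl (fun k _ => sq _)
        rw [h0', (hC (Real.sqrt 2 * α) K B).2.2 (i.1, i.2.1), hbsq]
        have h1 := abs_le.1 (hsame i i rfl)
        simp only [sub_self, abs_zero, zero_mul] at h1 ⊢
        rw [max_eq_left (by norm_num : (0 : ℝ) ≤ 1), div_one, ← hLg] at h1
        have h4 : K * vv ≤ CS A (2 * σ) 0 + (2 * vv + CN + CC + CH + C3) := by linarith [h1.1]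
        have h5 : 0 ≤ 2 * α ^ 2 := by positivity
        have h6 := mul_le_mul_of_nonneg_left h4 h5
        calc 2 * α ^ 2 * (K * vv) ≤ 2 * α ^ 2 * (CS A (2 * σ) 0 +
              (2 * vv + CN + CC + CH + C3)) := h6
          _ = _ := by ring)
    refine le_trans (le_of_eq ?_) hcomp
    unfold TR
    congr 1
    ext g
    congr 1
    unfold ZG
    rw [Fintype.sum_prod_type, Fintype.sum_prod_type]
    apply Finset.sum_congr rfl
    intro b _
    rw [Fintype.sum_prod_type]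
    apply Finset.sum_congr rfl
    intro c _
    show _ = ∑ r : Fin (R + 1), p R (b, c, r) *
      Real.exp (∑ k, mC (Real.sqrt 2 * α) K B (b, c) k * g k)
    rw [← Finset.sum_mul]
    congr 1
    have hcs := cell_sum w hw (s b) (1 / U) (by positivity) (2 ^ K) (by positivity) R c
    simp only [hp', p]
    rw [hcs, h2Kc]
  -- the limit of the Riemann sums
  have hFc : ∀ ω, Continuous (fun t : ℝ => ‖F γ A σ t ω‖ ^ 2) := by
    intro ω
    have : (fun t : ℝ => ‖F γ A σ t ω‖ ^ 2) = fun t => Real.exp (G γ A σ t ω) ^ 2 := by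
      ext t; rw [hGe]
    rw [this]
    have h3 : Continuous (fun t : ℝ => ((t, ω) : ℝ × Om)) := by fun_prop
    have h2 := hGc.comp h3
    simp only [Function.comp_def] at h2
    have h4 := (Real.continuous_exp.comp h2).pow 2
    simp only [Function.comp_def] at h4
    exact h4
  have hFω : ∀ t, Continuous (fun ω : Om => ‖F γ A σ t ω‖ ^ 2) := by
    intro t
    have : (fun ω : Om => ‖F γ A σ t ω‖ ^ 2) = fun ω => Real.exp (G γ A σ t ω) ^ 2 := by
      ext ω; rw [hGe]
    rw [this]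
    have h3 : Continuous (fun ω : Om => ((t, ω) : ℝ × Om)) := by fun_prop
    have h2 := hGc.comp h3
    simp only [Function.comp_def] at h2
    have h4 := (Real.continuous_exp.comp h2).pow 2
    simp only [Function.comp_def] at h4
    exact h4
  set Z : Om → ℝ := fun ω => ∑ b : Fin B, ∫ t in Set.Ioc (s b) (s b + 1 / U),
      w t * ‖F γ A σ t ω‖ ^ 2 with hZ
  have hlim : ∀ ω, Filter.Tendsto (fun R : ℕ => ∑ i, p R i * ‖F γ A σ (t R i) ω‖ ^ 2)
      Filter.atTop (nhds (Z ω)) := by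
    intro ω
    have h : Filter.Tendsto (fun R : ℕ => ∑ b : Fin B, ∑ i : Fin (2 ^ K) × Fin (R + 1),
        p R (b, i) * ‖F γ A σ (t R (b, i)) ω‖ ^ 2) Filter.atTop (nhds (Z ω)) := by
      apply tendsto_finsetSum
      intro b _
      exact riem hRIE w (fun t => ‖F γ A σ t ω‖ ^ 2) hw (hFc ω) (s b) (1 / U) (by positivity)
        (2 ^ K) (by positivity)
    refine h.congr fun R => ?_
    rw [Fintype.sum_prod_type]
  have hZ0 : ∀ ω, 0 ≤ Z ω := fun ω => Finset.sum_nonneg fun b _ =>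
    integral_nonneg fun t => mul_nonneg (hw0 t) (by positivity)
  have hsum0 : ∀ (R : ℕ) (ω : Om), 0 ≤ ∑ i, p R i * ‖F γ A σ (t R i) ω‖ ^ 2 :=
    fun R ω => Finset.sum_nonneg fun i _ => mul_nonneg (hpn R i) (by positivity)
  have hlimf : ∀ ω, Filter.Tendsto (fun R : ℕ => ft lam (∑ i, p R i * ‖F γ A σ (t R i) ω‖ ^ 2))
      Filter.atTop (nhds (ft lam (Z ω))) :=
    fun ω => (ft_cont hlam (hZ0 ω)).tendsto.comp (hlim ω)
  have hmeas : ∀ R : ℕ, Measurable (fun ω : Om =>
      ft lam (∑ i, p R i * ‖F γ A σ (t R i) ω‖ ^ 2)) := by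
    intro R
    have hs : Measurable (fun ω : Om => ∑ i, p R i * ‖F γ A σ (t R i) ω‖ ^ 2) :=
      Finset.measurable_sum _ (fun i _ => ((hFω _).measurable).const_mul _)
    unfold ft
    exact hs.div (hs.add_const _)
  have hDCT := tendsto_integral_of_dominated_convergence (μ := P) (fun _ => (1 : ℝ))
    (fun R => (hmeas R).aestronglyMeasurable) (integrable_const _)
    (fun R => Filter.Eventually.of_forall fun ω => by
      rw [Real.norm_of_nonneg (ft_nonneg hlam (hsum0 R ω))]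
      exact ft_le_one hlam (hsum0 R ω))
    (Filter.Eventually.of_forall hlimf)
  have hfin : TR (mC (Real.sqrt 2 * α) K B) p' lam ≤ CK * (CL * ∫ ω : Om, ft lam (Z ω) ∂P) :=
    ge_of_tendsto' ((hDCT.const_mul CL).const_mul CK) key
  have hfin2 := hTb.trans hfin
  rw [div_mul_eq_mul_div, div_le_iff₀ (by positivity)]
  calc cT * min 1 (∑ i ∈ L, (1 + x i) * Real.exp (-(Real.sqrt 2 * x i)) / 2 ^ K) ≤ _ := hfin2
    _ = _ := by ring

end PN
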