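import Pool.Agent.H24.PN.Stmts

/-! Module RAT: density of some of the centred increments of a Gaussian vector. -/

namespace PN
open MeasureTheory Complex ProbabilityTheory PM

/-- the Gaussian measure on a finite product has the product density -/
lemma RAT_dens (κ : Type) [Fintype κ] : Ga κ = (volume : Measure (κ → ℝ)).withDensity
    (fun x => ENNReal.ofReal ((Real.sqrt (2 * Real.pi))⁻¹ ^ Fintype.card κ *
      Real.exp (-(∑ i, x i ^ 2) / 2))) := by
  classical
  have hw : ∀ x : κ → ℝ, (Real.sqrt (2 * Real.pi))⁻¹ ^ Fintype.card κ *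
      Real.exp (-(∑ i, x i ^ 2) / 2) = ∏ i, gaussianPDFReal 0 1 (x i) := by
    intro x
    simp only [gaussianPDFReal, sub_zero, NNReal.coe_one, mul_one]
    rw [Finset.prod_mul_distrib, Finset.prod_const, ← Real.exp_sum, Finset.card_univ]
    congr 2
    rw [← Finset.sum_div, Finset.sum_neg_distrib]
  simp_rw [hw]
  unfold Ga
  apply Measure.pi_eq
  intro s hs
  have hbox : MeasurableSet (Set.univ.pi s : Set (κ → ℝ)) := MeasurableSet.univ_pi hs
  have hint : Integrable (gaussianPDFReal 0 1) := integrable_gaussianPDFReal 0 1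
  have hintprod : Integrable (fun x : κ → ℝ => ∏ i, gaussianPDFReal 0 1 (x i)) :=
    Integrable.fintype_prod (fun _ => hint)
  rw [withDensity_apply _ hbox, ← ofReal_integral_eq_lintegral_ofReal hintprod.integrableOn
    (Filter.Eventually.of_forall fun x => Finset.prod_nonneg fun i _ =>
      gaussianPDFReal_nonneg 0 1 (x i)), ← integral_indicator hbox]
  have hind : (Set.univ.pi s).indicator (fun x : κ → ℝ => ∏ i, gaussianPDFReal 0 1 (x i))
      = fun x => ∏ i, (s i).indicator (gaussianPDFReal 0 1) (x i) := by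
    ext x
    by_cases hx : x ∈ Set.univ.pi s
    · rw [Set.indicator_of_mem hx]
      apply Finset.prod_congr rfl
      intro i _
      rw [Set.indicator_of_mem (hx i (Set.mem_univ i))]
    · rw [Set.indicator_of_notMem hx]
      simp only [Set.mem_pi, Set.mem_univ, true_implies, not_forall] at hx
      obtain ⟨i, hi⟩ := hx
      symm
      apply Finset.prod_eq_zero (Finset.mem_univ i)
      rw [Set.indicator_of_notMem hi]
  rw [hind, integral_fintype_prod_volume_eq_prod (fun i => (s i).indicator (gaussianPDFReal 0 1)),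
    ENNReal.ofReal_prod_of_nonneg]
  · apply Finset.prod_congr rfl
    intro i _
    rw [gaussianReal_apply_eq_integral 0 one_ne_zero, integral_indicator (hs i)]
  · intro i _
    apply integral_nonneg
    intro x
    exact Set.indicator_nonneg (fun x _ => gaussianPDFReal_nonneg 0 1 x) x

lemma RAT_lint (κ : Type) [Fintype κ] (f : (κ → ℝ) → ENNReal) (hf : Measurable f) :
    ∫⁻ g, f g ∂Ga κ = ENNReal.ofReal ((Real.sqrt (2 * Real.pi))⁻¹ ^ Fintype.card κ) *
      ∫⁻ x : κ → ℝ, ENNReal.ofReal (Real.exp (-(∑ i, x i ^ 2) / 2)) * f x := by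
  rw [RAT_dens, lintegral_withDensity_eq_lintegral_mul _ (by fun_prop) hf,
    ← lintegral_const_mul _ (by fun_prop)]
  congr 1
  ext x
  rw [Pi.mul_apply, ENNReal.ofReal_mul (by positivity), mul_assoc]

/-- averaging along a direction of sum one -/
lemma RAT_avg {n : ℕ} (v : Fin n → ℝ) (hv : ∑ i, v i = 1) (G : (Fin n → ℝ) → ENNReal)
    (hG : Measurable G) (iG : ∀ x (t : ℝ), G (x + t • v) = G x) (a1 a2 : (Fin n → ℝ) → ℝ)
    (h1 : Measurable a1) (h2 : Measurable a2) (i1 : ∀ x (t : ℝ), a1 (x + t • v) = a1 x)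
    (i2 : ∀ x (t : ℝ), a2 (x + t • v) = a2 x) (k1 k2 : ℝ → ENNReal) (m1 : Measurable k1)
    (m2 : Measurable k2) :
    (∫⁻ x, G x * k1 ((∑ i, x i) - a1 x)) * ∫⁻ t, k2 t =
      (∫⁻ x, G x * k2 ((∑ i, x i) - a2 x)) * ∫⁻ t, k1 t := by
  have e1 : (∫⁻ x, G x * k1 ((∑ i, x i) - a1 x)) * ∫⁻ t, k2 t =
      ∫⁻ x : Fin n → ℝ, ∫⁻ t : ℝ, G x * k1 ((∑ i, x i) - a1 x) *
        k2 (((∑ i, x i) - a2 x) + t) := by
    rw [← lintegral_mul_const _ (by fun_prop)]
    congr 1
    ext x
    rw [lintegral_const_mul _ (by fun_prop), lintegral_add_left_eq_self]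
  have e2 : (∫⁻ x, G x * k2 ((∑ i, x i) - a2 x)) * ∫⁻ t, k1 t =
      ∫⁻ x : Fin n → ℝ, ∫⁻ t : ℝ, G x * k2 ((∑ i, x i) - a2 x) *
        k1 (((∑ i, x i) - a1 x) - t) := by
    rw [← lintegral_mul_const _ (by fun_prop)]
    congr 1
    ext x
    rw [lintegral_const_mul _ (by fun_prop), lintegral_sub_left_eq_self]
  rw [e1, e2]
  conv_lhs => rw [lintegral_lintegral_swap (by fun_prop)]
  conv_rhs => rw [lintegral_lintegral_swap (by fun_prop)]
  congr 1
  ext t
  rw [← lintegral_add_right_eq_self (μ := (volume : Measure (Fin n → ℝ)))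
    (fun x : Fin n → ℝ => G x * k2 ((∑ i, x i) - a2 x) * k1 (((∑ i, x i) - a1 x) - t)) (t • v)]
  congr 1
  ext x
  have hs : ∑ i, (x + t • v) i = (∑ i, x i) + t := by
    simp only [Pi.add_apply, Pi.smul_apply, smul_eq_mul]
    rw [Finset.sum_add_distrib, ← Finset.mul_sum, hv, mul_one]
  rw [iG, i1, i2, hs]
  have q1 : (∑ i, x i) + t - a2 x = (∑ i, x i) - a2 x + t := by ring
  have q2 : (∑ i, x i) + t - a1 x - t = (∑ i, x i) - a1 x := by ring
  rw [q1, q2]
  ring

/-- module RAT -/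
theorem RAT : S_RAT := by
  intro n J h hJ hh
  classical
  obtain ⟨i0, hi0⟩ := hJ
  have hm : 0 < J.card := Finset.card_pos.mpr ⟨i0, hi0⟩
  have hmR : (0 : ℝ) < J.card := by exact_mod_cast hm
  have hmn : J.card ≤ n := by
    have := Finset.card_le_univ J
    rwa [Fintype.card_fin] at this
  have hn : (0 : ℝ) < n := lt_of_lt_of_le hmR (by exact_mod_cast hmn)
  set m : ℝ := (J.card : ℝ) with hmdef
  have hps : ∀ g : Fin n → ℝ, ps g n = ∑ i, g i := by
    intro g
    unfold ps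
    apply Finset.sum_congr rfl
    intro i _
    rw [if_pos i.2]
  -- splitting sums
  have hsplit : ∀ g : Fin n → ℝ, ∑ i, g i = ∑ i ∈ J, g i + ∑ i ∈ Jᶜ, g i := fun g =>
    (Finset.sum_add_sum_compl J g).symm
  set PJ : (Fin n → ℝ) → (Fin n → ℝ) := fun g i => if i ∈ J then g i - (∑ j ∈ J, g j) / m -
    (∑ j ∈ Jᶜ, g j) / m else g i with hPJ
  have hPJm : Measurable PJ := by
    rw [measurable_pi_iff]
    intro i
    by_cases hi : i ∈ J
    · simp only [hPJ, if_pos hi]
      fun_prop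
    · simp only [hPJ, if_neg hi]
      fun_prop
  have PJ_eq : ∀ x i, PJ x i = x i - (∑ j, x j) * (if i ∈ J then 1 / m else 0) := by
    intro x i
    simp only [hPJ]
    rw [hsplit x]
    split_ifs with hi
    · ring
    · ring
  have PJ_sumJ : ∀ x, ∑ i ∈ J, PJ x i = -∑ i ∈ Jᶜ, x i := by
    intro x
    have : ∀ i ∈ J, PJ x i = x i - (∑ j, x j) / m := by
      intro i hi
      rw [PJ_eq, if_pos hi]
      ring
    rw [Finset.sum_congr rfl this, Finset.sum_sub_distrib, Finset.sum_const, nsmul_eq_mul,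
      ← hmdef, mul_div_cancel₀ _ hmR.ne', hsplit x]
    ring
  have PJ_sumJc : ∀ x, ∑ i ∈ Jᶜ, PJ x i = ∑ i ∈ Jᶜ, x i := by
    intro x
    apply Finset.sum_congr rfl
    intro i hi
    rw [PJ_eq, if_neg (Finset.mem_compl.mp hi)]
    ring
  have PJ_sum : ∀ x, ∑ i, PJ x i = 0 := by
    intro x
    rw [hsplit, PJ_sumJ, PJ_sumJc]
    ring
  -- the shear
  set w0 : Fin n → ℝ := fun i => 1 / n - (if i ∈ J then 1 / m else 0) with hw0
  have w0sum : ∑ i, w0 i = 0 := by
    rw [hw0, Finset.sum_sub_distrib, Finset.sum_const, Finset.card_univ, Fintype.card_fin,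
      nsmul_eq_mul, Finset.sum_ite_mem, Finset.univ_inter, Finset.sum_const, nsmul_eq_mul]
    rw [← hmdef]
    field_simp
    ring
  set fl : (Fin n → ℝ) →ₗ[ℝ] ℝ := ∑ i, LinearMap.proj i with hfl
  have fl_apply : ∀ x, fl x = ∑ i, x i := by
    intro x
    rw [hfl, LinearMap.sum_apply]
    rfl
  set Sh : (Fin n → ℝ) →ₗ[ℝ] (Fin n → ℝ) := LinearMap.transvection fl w0 with hSh
  have Sh_apply : ∀ x i, Sh x i = x i + (∑ j, x j) * w0 i := by
    intro x i
    rw [hSh, LinearMap.transvection.apply, fl_apply]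
    rfl
  have hdet : LinearMap.det Sh = 1 := by
    rw [hSh, LinearMap.transvection.det, fl_apply, w0sum, add_zero]
  have hmap : Measure.map Sh (volume : Measure (Fin n → ℝ)) = volume := by
    rw [Real.map_linearMap_volume_pi_eq_smul_volume_pi (by rw [hdet]; exact one_ne_zero), hdet]
    simp
  have hShm : Measurable Sh := Sh.continuous_of_finiteDimensional.measurable
  have Sh_eq : ∀ x i, Sh x i = PJ x i + (∑ j, x j) / n := by
    intro x i
    rw [Sh_apply, PJ_eq, hw0]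
    ring
  have Sh_sum : ∀ x, ∑ i, Sh x i = ∑ i, x i := by
    intro x
    simp_rw [Sh_apply]
    rw [Finset.sum_add_distrib, ← Finset.mul_sum, w0sum]
    ring
  have P1Sh : ∀ x, (fun i => Sh x i - (∑ j, Sh x j) / n) = PJ x := by
    intro x
    ext i
    rw [Sh_sum, Sh_eq]
    ring
  have sqSh : ∀ x, ∑ i, Sh x i ^ 2 = ∑ i, PJ x i ^ 2 + (∑ i, x i) ^ 2 / n := by
    intro x
    have : ∀ i, Sh x i ^ 2 = PJ x i ^ 2 + 2 * ((∑ j, x j) / n) * PJ x i +
        ((∑ j, x j) / n) ^ 2 := by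
      intro i
      rw [Sh_eq]
      ring
    simp_rw [this]
    rw [Finset.sum_add_distrib, Finset.sum_add_distrib, ← Finset.mul_sum, PJ_sum,
      Finset.sum_const, Finset.card_univ, Fintype.card_fin, nsmul_eq_mul]
    field_simp
    ring
  have sqx : ∀ x : Fin n → ℝ, ∑ i, x i ^ 2 + (∑ i ∈ Jᶜ, x i) ^ 2 / m =
      ∑ i, PJ x i ^ 2 + ((∑ i, x i) - ∑ i ∈ Jᶜ, x i) ^ 2 / m := by
    intro x
    have : ∀ i, x i ^ 2 = PJ x i ^ 2 + (if i ∈ J then 2 * ((∑ j, x j) / m) * PJ x i +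
        ((∑ j, x j) / m) ^ 2 else 0) := by
      intro i
      rw [PJ_eq]
      split_ifs with hi
      · ring
      · ring
    rw [Finset.sum_congr rfl (fun i _ => this i), Finset.sum_add_distrib, Finset.sum_ite_mem,
      Finset.univ_inter, Finset.sum_add_distrib, ← Finset.mul_sum, PJ_sumJ, Finset.sum_const,
      nsmul_eq_mul, ← hmdef]
    field_simp
    ring
  -- left side
  set c : ENNReal := ENNReal.ofReal ((Real.sqrt (2 * Real.pi))⁻¹ ^ Fintype.card (Fin n)) with hc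
  set G : (Fin n → ℝ) → ENNReal := fun x => h (PJ x) *
    ENNReal.ofReal (Real.exp (-(∑ i, PJ x i ^ 2) / 2)) with hG
  set k1 : ℝ → ENNReal := fun t => ENNReal.ofReal (Real.exp (-(1 / (2 * n)) * t ^ 2)) with hk1
  set k2 : ℝ → ENNReal := fun t => ENNReal.ofReal (Real.exp (-(1 / (2 * m)) * t ^ 2)) with hk2
  have hGm : Measurable G := by
    have q1 : Measurable fun x => h (PJ x) := hh.comp hPJm
    have q2 : Measurable fun x => ENNReal.ofReal (Real.exp (-(∑ i, PJ x i ^ 2) / 2)) := by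
      fun_prop
    exact q1.mul q2
  have L : ∫⁻ g : Fin n → ℝ, h (fun i => g i - ps g n / n) ∂Ga (Fin n) =
      c * ∫⁻ x, G x * k1 ((∑ i, x i) - 0) := by
    have hf : Measurable fun g : Fin n → ℝ => h (fun i => g i - ps g n / n) := by
      apply hh.comp
      rw [measurable_pi_iff]
      intro i
      simp_rw [hps]
      fun_prop
    rw [RAT_lint _ _ hf]
    congr 1
    conv_lhs => rw [← hmap]
    have hf2 : Measurable fun x : Fin n → ℝ => ENNReal.ofReal (Real.exp (-(∑ i, x i ^ 2) / 2)) *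
        h fun i => x i - ps x n / n := Measurable.mul (by fun_prop) hf
    rw [lintegral_map hf2 hShm]
    congr 1
    ext x
    simp_rw [hps]
    rw [P1Sh, sqSh, sub_zero, hG, hk1]
    simp only
    rw [mul_assoc, ← ENNReal.ofReal_mul (Real.exp_nonneg _), ← Real.exp_add, mul_comm]
    congr 3
    ring
  have Rr : ∫⁻ g : Fin n → ℝ, h (PJ g) * ENNReal.ofReal (Real.sqrt ((n : ℝ) / m) *
      Real.exp (-(∑ j ∈ Jᶜ, g j) ^ 2 / (2 * m))) ∂Ga (Fin n) =
      ENNReal.ofReal (Real.sqrt ((n : ℝ) / m)) *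
        (c * ∫⁻ x, G x * k2 ((∑ i, x i) - ∑ i ∈ Jᶜ, x i)) := by
    have hf : Measurable fun g : Fin n → ℝ => h (PJ g) * ENNReal.ofReal
        (Real.sqrt ((n : ℝ) / m) * Real.exp (-(∑ j ∈ Jᶜ, g j) ^ 2 / (2 * m))) :=
      (hh.comp hPJm).mul (by fun_prop)
    rw [RAT_lint _ _ hf, ← mul_assoc, mul_comm (ENNReal.ofReal _) c, mul_assoc]
    congr 1
    have hG2 : Measurable fun x : Fin n → ℝ => G x * k2 ((∑ i, x i) - ∑ i ∈ Jᶜ, x i) :=
      hGm.mul (by rw [hk2]; fun_prop)
    rw [← lintegral_const_mul _ hG2]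
    congr 1
    ext x
    rw [hG, hk2]
    simp only
    rw [ENNReal.ofReal_mul (Real.sqrt_nonneg _)]
    have e : ENNReal.ofReal (Real.exp (-(∑ i, x i ^ 2) / 2)) *
        ENNReal.ofReal (Real.exp (-(∑ j ∈ Jᶜ, x j) ^ 2 / (2 * m))) =
        ENNReal.ofReal (Real.exp (-(∑ i, PJ x i ^ 2) / 2)) *
        ENNReal.ofReal (Real.exp (-(1 / (2 * m)) * ((∑ i, x i) - ∑ i ∈ Jᶜ, x i) ^ 2)) := by
      rw [← ENNReal.ofReal_mul (Real.exp_nonneg _), ← ENNReal.ofReal_mul (Real.exp_nonneg _),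
        ← Real.exp_add, ← Real.exp_add]
      congr 2
      have := sqx x
      have e1 : -(∑ i, x i ^ 2) / 2 + -(∑ j ∈ Jᶜ, x j) ^ 2 / (2 * m) =
          -(∑ i, x i ^ 2 + (∑ i ∈ Jᶜ, x i) ^ 2 / m) / 2 := by
        field_simp
        ring
      rw [e1, this]
      field_simp
      ring
    calc _ = h (PJ x) * ENNReal.ofReal (Real.sqrt ((n : ℝ) / m)) *
          (ENNReal.ofReal (Real.exp (-(∑ i, x i ^ 2) / 2)) *
          ENNReal.ofReal (Real.exp (-(∑ j ∈ Jᶜ, x j) ^ 2 / (2 * m)))) := by ring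
      _ = _ := by rw [e]; ring
  -- invariance
  set v : Fin n → ℝ := fun i => if i ∈ J then 1 / m else 0 with hv
  have hvs : ∑ i, v i = 1 := by
    rw [hv, Finset.sum_ite_mem, Finset.univ_inter, Finset.sum_const, nsmul_eq_mul, ← hmdef]
    field_simp
  have iPJ : ∀ x (t : ℝ), PJ (x + t • v) = PJ x := by
    intro x t
    ext i
    rw [PJ_eq, PJ_eq]
    have : ∑ j, (x + t • v) j = (∑ j, x j) + t := by
      simp only [Pi.add_apply, Pi.smul_apply, smul_eq_mul]
      rw [Finset.sum_add_distrib, ← Finset.mul_sum, hvs, mul_one]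
    rw [this]
    simp only [Pi.add_apply, Pi.smul_apply, smul_eq_mul, hv]
    ring
  have iG : ∀ x (t : ℝ), G (x + t • v) = G x := by
    intro x t
    simp only [hG, iPJ]
  have ia : ∀ (x : Fin n → ℝ) (t : ℝ), ∑ i ∈ Jᶜ, (x + t • v) i = ∑ i ∈ Jᶜ, x i := by
    intro x t
    apply Finset.sum_congr rfl
    intro i hi
    simp only [Pi.add_apply, Pi.smul_apply, smul_eq_mul, hv, if_neg (Finset.mem_compl.mp hi),
      mul_zero, add_zero]
  have key := RAT_avg v hvs G hGm iG (fun _ => 0) (fun x => ∑ i ∈ Jᶜ, x i) (by fun_prop)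
    (by fun_prop) (fun _ _ => rfl) ia k1 k2 (by rw [hk1]; fun_prop) (by rw [hk2]; fun_prop)
  have gi : ∀ b : ℝ, 0 < b → ∫⁻ t : ℝ, ENNReal.ofReal (Real.exp (-b * t ^ 2)) =
      ENNReal.ofReal (Real.sqrt (Real.pi / b)) := by
    intro b hb
    rw [← ofReal_integral_eq_lintegral_ofReal (integrable_exp_neg_mul_sq hb)
      (Filter.Eventually.of_forall fun x => Real.exp_nonneg _), integral_gaussian]
  rw [hk1, hk2] at key
  simp only at key
  rw [gi _ (by positivity), gi _ (by positivity)] at key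
  rw [L, Rr]
  have hsq : Real.sqrt (Real.pi / (1 / (2 * n))) =
      Real.sqrt ((n : ℝ) / m) * Real.sqrt (Real.pi / (1 / (2 * m))) := by
    rw [← Real.sqrt_mul (by positivity)]
    congr 1
    field_simp
  rw [hsq, ENNReal.ofReal_mul (Real.sqrt_nonneg _), ← mul_assoc] at key
  have hne : ENNReal.ofReal (Real.sqrt (Real.pi / (1 / (2 * m)))) ≠ 0 := by
    rw [Ne, ENNReal.ofReal_eq_zero, not_le]
    apply Real.sqrt_pos.mpr
    positivity
  have key2 := (ENNReal.mul_left_inj hne ENNReal.ofReal_ne_top).mp key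
  have e3 : ∫⁻ x, G x * k1 ((∑ i, x i) - 0) = (∫⁻ x, G x * k2 ((∑ i, x i) - ∑ i ∈ Jᶜ, x i)) *
      ENNReal.ofReal (Real.sqrt ((n : ℝ) / m)) := key2
  rw [e3]
  ring

end PN
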