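import Pool.Agent.H24.PN.Stmts

set_option autoImplicit false

namespace PN
open MeasureTheory Complex ProbabilityTheory PM

theorem RIE : S_RIE := by
  intro w f s l hl hf hw
  rw [Metric.tendsto_atTop]
  intro ε hε
  set M : ℝ := ∫ t in Set.Ioc s (s + l), |w t| with hM
  have hM0 : 0 ≤ M := integral_nonneg fun _ => abs_nonneg _
  set η : ℝ := ε / (2 * (M + 1)) with hη
  have hηpos : 0 < η := by positivity
  have huc : UniformContinuousOn f (Set.Icc s (s + l)) :=
    isCompact_Icc.uniformContinuousOn_of_continuous hf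
  rw [Metric.uniformContinuousOn_iff] at huc
  obtain ⟨δ, hδ, hd⟩ := huc η hηpos
  obtain ⟨N, hN⟩ := exists_nat_gt (l / δ)
  refine ⟨N, fun R hR => ?_⟩
  have hR1 : (0 : ℝ) < (R : ℝ) + 1 := by positivity
  set h : ℝ := l / ((R : ℝ) + 1) with hh
  have hhpos : 0 < h := by positivity
  have hhδ : h < δ := by
    rw [hh, div_lt_iff₀ hR1]
    rw [div_lt_iff₀ hδ] at hN
    have : (N : ℝ) ≤ R := by exact_mod_cast hR
    nlinarith
  set a : ℕ → ℝ := fun i => s + i * h with ha
  have haR : a (R + 1) = s + l := by
    simp only [ha, hh]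
    push_cast
    field_simp
  have ha0 : a 0 = s := by simp [ha]
  have hstep : ∀ i, a i ≤ a (i + 1) := by
    intro i
    simp only [ha]
    push_cast
    nlinarith
  have hcell : ∀ i ∈ Finset.range (R + 1), Set.Ioc (a i) (a (i + 1)) ⊆ Set.Ioc s (s + l) := by
    intro i hi t ht
    have hi' : (i : ℝ) + 1 ≤ (R : ℝ) + 1 := by
      have := Finset.mem_range.mp hi
      exact_mod_cast this
    refine ⟨lt_of_le_of_lt ?_ ht.1, ht.2.trans ?_⟩
    · simp only [ha]
      have : 0 ≤ (i : ℝ) * h := by positivity
      linarith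
    · rw [← haR]
      simp only [ha]
      push_cast
      nlinarith
  have hwf : IntegrableOn (fun t => w t * f t) (Set.Ioc s (s + l)) := by
    obtain ⟨B, hB⟩ := isCompact_Icc.exists_bound_of_continuousOn hf
    have h1 : AEStronglyMeasurable f (volume.restrict (Set.Ioc s (s + l))) :=
      (hf.mono Set.Ioc_subset_Icc_self).aestronglyMeasurable measurableSet_Ioc
    refine Integrable.mul_bdd (c := B) hw h1 ?_
    rw [ae_restrict_iff' measurableSet_Ioc]
    exact Filter.Eventually.of_forall fun t ht => hB t (Set.Ioc_subset_Icc_self ht)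
  have split : ∀ g : ℝ → ℝ, IntegrableOn g (Set.Ioc s (s + l)) →
      ∫ t in Set.Ioc s (s + l), g t =
        ∑ i ∈ Finset.range (R + 1), ∫ t in Set.Ioc (a i) (a (i + 1)), g t := by
    intro g hg
    have h1 : ∀ i < R + 1, IntervalIntegrable g volume (a i) (a (i + 1)) := by
      intro i hi
      rw [intervalIntegrable_iff_integrableOn_Ioc_of_le (hstep i)]
      exact hg.mono_set (hcell i (Finset.mem_range.mpr hi))
    have h2 := intervalIntegral.sum_integral_adjacent_intervals h1
    rw [ha0, haR, intervalIntegral.integral_of_le (by linarith)] at h2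
    rw [← h2]
    exact Finset.sum_congr rfl fun i _ => intervalIntegral.integral_of_le (hstep i)
  have e1 : ∑ i ∈ Finset.range (R + 1),
      (∫ t in Set.Ioc (s + i * (l / (R + 1))) (s + (i + 1) * (l / (R + 1))), w t) *
        f (s + i * (l / (R + 1))) =
      ∑ i ∈ Finset.range (R + 1), (∫ t in Set.Ioc (a i) (a (i + 1)), w t) * f (a i) := by
    refine Finset.sum_congr rfl fun i _ => ?_
    simp only [ha]
    push_cast
    rfl
  rw [e1, Real.dist_eq, split _ hwf, ← Finset.sum_sub_distrib]
  have e2 : ∀ i ∈ Finset.range (R + 1),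
      |(∫ t in Set.Ioc (a i) (a (i + 1)), w t) * f (a i) -
        ∫ t in Set.Ioc (a i) (a (i + 1)), w t * f t| ≤
      η * ∫ t in Set.Ioc (a i) (a (i + 1)), |w t| := by
    intro i hi
    have hwi : IntegrableOn w (Set.Ioc (a i) (a (i + 1))) := hw.mono_set (hcell i hi)
    have hwfi : IntegrableOn (fun t => w t * f t) (Set.Ioc (a i) (a (i + 1))) :=
      hwf.mono_set (hcell i hi)
    have hm : a i ∈ Set.Icc s (s + l) := by
      have hi' : (i : ℝ) ≤ (R : ℝ) + 1 := by
        have := Finset.mem_range.mp hi
        have h' : i ≤ R + 1 := this.le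
        exact_mod_cast h'
      constructor
      · simp only [ha]
        have : 0 ≤ (i : ℝ) * h := by positivity
        linarith
      · rw [← haR]
        simp only [ha]
        push_cast
        nlinarith
    rw [← integral_mul_const, ← integral_sub (hwi.mul_const _) hwfi, ← integral_const_mul]
    rw [← Real.norm_eq_abs]
    refine norm_integral_le_of_norm_le (hwi.abs.const_mul η) ?_
    rw [ae_restrict_iff' measurableSet_Ioc]
    refine Filter.Eventually.of_forall fun t ht => ?_
    have h3 : f (a i) - f t = f (a i) - f t := rfl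
    have h4 : dist (a i) t < δ := by
      rw [Real.dist_eq, abs_sub_comm, abs_of_nonneg (by linarith [ht.1])]
      have : a (i + 1) = a i + h := by
        simp only [ha]
        push_cast
        ring
      have := ht.2
      linarith
    have h5 := hd (a i) hm t (Set.Ioc_subset_Icc_self (hcell i hi ht)) h4
    rw [Real.dist_eq] at h5
    rw [← mul_sub, norm_mul, Real.norm_eq_abs, Real.norm_eq_abs, mul_comm η]
    exact mul_le_mul_of_nonneg_left h5.le (abs_nonneg _)
  calc |∑ i ∈ Finset.range (R + 1), ((∫ t in Set.Ioc (a i) (a (i + 1)), w t) * f (a i) -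
        ∫ t in Set.Ioc (a i) (a (i + 1)), w t * f t)|
      ≤ ∑ i ∈ Finset.range (R + 1), |(∫ t in Set.Ioc (a i) (a (i + 1)), w t) * f (a i) -
        ∫ t in Set.Ioc (a i) (a (i + 1)), w t * f t| := Finset.abs_sum_le_sum_abs _ _
    _ ≤ ∑ i ∈ Finset.range (R + 1), η * ∫ t in Set.Ioc (a i) (a (i + 1)), |w t| :=
        Finset.sum_le_sum e2
    _ = η * M := by rw [← Finset.mul_sum, hM, split _ hw.abs]
    _ < ε := by
        rw [hη, div_mul_eq_mul_div, div_lt_iff₀ (by positivity)]
        nlinarith

end PN
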