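import Pool.Agent.H24.PN.Stmts

/-! Project PM part 2, module SUM: sums of powers. -/

namespace PN
open MeasureTheory Complex ProbabilityTheory PM

theorem sm_telescope {e : ℝ} (h1 : -1 < e) (h0 : e < 0) (N : ℕ) :
    (e + 1) * ∑ n ∈ Finset.Icc 1 N, (n : ℝ) ^ e ≤ (N : ℝ) ^ (e + 1) := by
  induction N with
  | zero =>
    simp
    positivity
  | succ N ih =>
    rw [Finset.sum_Icc_succ_top (by omega), mul_add]
    have hN : (0 : ℝ) < ((N + 1 : ℕ) : ℝ) := by positivity
    have hb := rpow_one_add_le_one_add_mul_self (s := -(1 / ((N + 1 : ℕ) : ℝ)))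
      (by
        rw [neg_le_neg_iff, div_le_one hN]
        push_cast
        have : (0 : ℝ) ≤ N := by positivity
        linarith) (p := e + 1) (by linarith) (by linarith)
    have e1 : (1 + -(1 / ((N + 1 : ℕ) : ℝ))) = (N : ℝ) / ((N + 1 : ℕ) : ℝ) := by
      field_simp
      push_cast
      ring
    rw [e1, Real.div_rpow (by positivity) hN.le, div_le_iff₀ (Real.rpow_pos_of_pos hN _)] at hb
    have e2 : (1 + (e + 1) * -(1 / ((N + 1 : ℕ) : ℝ))) * ((N + 1 : ℕ) : ℝ) ^ (e + 1) =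
        ((N + 1 : ℕ) : ℝ) ^ (e + 1) - (e + 1) * ((N + 1 : ℕ) : ℝ) ^ e := by
      rw [Real.rpow_add_one hN.ne']
      field_simp
      ring
    rw [e2] at hb
    linarith

theorem sm_upper {e : ℝ} (h1 : -1 < e) : ∃ C : ℝ, 0 < C ∧ ∀ N : ℕ,
    ∑ n ∈ Finset.Icc 1 N, (n : ℝ) ^ e ≤ C * (N : ℝ) ^ (e + 1) := by
  by_cases h0 : e < 0
  · refine ⟨1 / (e + 1), by
      have : 0 < e + 1 := by linarith
      positivity, fun N => ?_⟩
    have := sm_telescope h1 h0 N
    have h2 : 0 < e + 1 := by linarith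
    rw [div_mul_eq_mul_div, one_mul, le_div_iff₀ h2]
    linarith
  · push Not at h0
    refine ⟨1, one_pos, fun N => ?_⟩
    have : ∀ n ∈ Finset.Icc 1 N, (n : ℝ) ^ e ≤ (N : ℝ) ^ e := by
      intro n hn
      rw [Finset.mem_Icc] at hn
      exact Real.rpow_le_rpow (by positivity) (by exact_mod_cast hn.2) h0
    refine (Finset.sum_le_sum this).trans ?_
    rw [Finset.sum_const, Nat.card_Icc, nsmul_eq_mul, one_mul]
    rcases Nat.eq_zero_or_pos N with h | h
    · subst h
      simp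
      positivity
    · have hN : (0 : ℝ) < N := by exact_mod_cast h
      rw [Real.rpow_add_one hN.ne']
      rw [show N + 1 - 1 = N by omega]
      linarith

theorem sm_lower {e : ℝ} (_ : -1 < e) : ∃ c : ℝ, 0 < c ∧ ∀ N : ℕ, 1 ≤ N →
    c * (N : ℝ) ^ (e + 1) ≤ ∑ n ∈ Finset.Icc 1 N, (n : ℝ) ^ e := by
  refine ⟨1 / 2 * min 1 ((1 / 2 : ℝ) ^ e), by positivity, fun N hN1 => ?_⟩
  have hN : (0 : ℝ) < N := by exact_mod_cast hN1
  have hsub : Finset.Icc (N / 2 + 1) N ⊆ Finset.Icc 1 N := by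
    intro n hn
    rw [Finset.mem_Icc] at *
    omega
  have hge : ∀ n ∈ Finset.Icc (N / 2 + 1) N,
      min 1 ((1 / 2 : ℝ) ^ e) * (N : ℝ) ^ e ≤ (n : ℝ) ^ e := by
    intro n hn
    rw [Finset.mem_Icc] at hn
    have hn0 : (0 : ℝ) < n := by
      have : 0 < n := by omega
      exact_mod_cast this
    by_cases h0 : e < 0
    · calc min 1 ((1 / 2 : ℝ) ^ e) * (N : ℝ) ^ e ≤ 1 * (N : ℝ) ^ e :=
            mul_le_mul_of_nonneg_right (min_le_left _ _) (by positivity)
        _ = (N : ℝ) ^ e := one_mul _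
        _ ≤ (n : ℝ) ^ e :=
            Real.rpow_le_rpow_of_nonpos hn0 (by exact_mod_cast hn.2) h0.le
    · push Not at h0
      calc min 1 ((1 / 2 : ℝ) ^ e) * (N : ℝ) ^ e ≤ (1 / 2 : ℝ) ^ e * (N : ℝ) ^ e :=
            mul_le_mul_of_nonneg_right (min_le_right _ _) (by positivity)
        _ = (1 / 2 * (N : ℝ)) ^ e := by rw [Real.mul_rpow (by norm_num) hN.le]
        _ ≤ (n : ℝ) ^ e := by
            refine Real.rpow_le_rpow (by positivity) ?_ h0
            have : N ≤ 2 * n := by omega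
            have : (N : ℝ) ≤ 2 * n := by exact_mod_cast this
            linarith
  have h2 := Finset.sum_le_sum hge
  rw [Finset.sum_const, Nat.card_Icc, nsmul_eq_mul] at h2
  have h3 : (1 / 2 : ℝ) * N ≤ ((N + 1 - (N / 2 + 1) : ℕ) : ℝ) := by
    have : N ≤ 2 * (N + 1 - (N / 2 + 1)) := by omega
    have : (N : ℝ) ≤ 2 * ((N + 1 - (N / 2 + 1) : ℕ) : ℝ) := by exact_mod_cast this
    linarith
  have h4 : ∑ n ∈ Finset.Icc (N / 2 + 1) N, (n : ℝ) ^ e ≤ ∑ n ∈ Finset.Icc 1 N, (n : ℝ) ^ e :=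
    Finset.sum_le_sum_of_subset_of_nonneg hsub (fun n _ _ => by positivity)
  refine le_trans ?_ (h2.trans h4)
  rw [Real.rpow_add_one hN.ne']
  have h5 : 0 ≤ min 1 ((1 / 2 : ℝ) ^ e) * (N : ℝ) ^ e := by positivity
  have h6 := mul_le_mul_of_nonneg_right h3 h5
  linarith

theorem SUM : S_SUM := by
  intro e
  rcases lt_trichotomy e (-1) with h | h | h
  · have hs : Summable (fun n : ℕ => (n : ℝ) ^ e) := Real.summable_nat_rpow.2 h
    refine ⟨1, (∑' n : ℕ, (n : ℝ) ^ e) + 1, one_pos, ?_, fun m hm => ?_⟩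
    · have : 0 ≤ ∑' n : ℕ, (n : ℝ) ^ e := tsum_nonneg (fun n => by positivity)
      linarith
    · rw [if_pos h]
      constructor
      · have h1 : 1 ∈ Finset.Icc 1 ⌊m⌋₊ := by
          rw [Finset.mem_Icc]
          exact ⟨le_refl _, Nat.le_floor (by simpa using hm)⟩
        have h2 := Finset.single_le_sum (f := fun n : ℕ => (n : ℝ) ^ e)
          (fun n _ => by positivity) h1
        simpa using h2
      · have h2 := hs.sum_le_tsum (Finset.Icc 1 (⌊m⌋₊ + 1)) (fun n _ => by positivity)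
        linarith
  · subst h
    have hlog2 : 0 < Real.log 2 := Real.log_pos (by norm_num)
    refine ⟨1 / 2, 1 / Real.log 2 + 1, by norm_num, by positivity, fun m hm => ?_⟩
    rw [if_neg (by norm_num), if_pos rfl]
    have hsum : ∀ N : ℕ, ∑ n ∈ Finset.Icc 1 N, (n : ℝ) ^ (-1 : ℝ) = ((harmonic N : ℚ) : ℝ) := by
      intro N
      rw [harmonic_eq_sum_Icc]
      push_cast
      refine Finset.sum_congr rfl (fun n _ => ?_)
      rw [Real.rpow_neg_one]
    rw [hsum, hsum]
    have hM1 : 1 ≤ ⌊m⌋₊ := Nat.le_floor (by simpa using hm)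
    have hM1' : (1 : ℝ) ≤ (⌊m⌋₊ : ℝ) := by exact_mod_cast hM1
    have hlt := Nat.lt_floor_add_one m
    have hle := Nat.floor_le (a := m) (by linarith)
    constructor
    · have h1 := log_add_one_le_harmonic ⌊m⌋₊
      refine le_trans ?_ h1
      have h2 : Real.log (m + 1) ≤ Real.log (((⌊m⌋₊ + 1 : ℕ) : ℝ) ^ 2) := by
        refine Real.log_le_log (by linarith) ?_
        push_cast
        nlinarith
      rw [Real.log_pow] at h2
      push_cast at h2 ⊢
      linarith
    · have h1 := harmonic_le_one_add_log (⌊m⌋₊ + 1)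
      refine h1.trans ?_
      have h2 : Real.log (((⌊m⌋₊ + 1 : ℕ) : ℝ)) ≤ Real.log (m + 1) := by
        refine Real.log_le_log (by positivity) ?_
        push_cast
        linarith
      have h3 : Real.log 2 ≤ Real.log (m + 1) := Real.log_le_log (by norm_num) (by linarith)
      have h4 : 1 ≤ 1 / Real.log 2 * Real.log (m + 1) := by
        rw [div_mul_eq_mul_div, one_mul, one_le_div hlog2]
        exact h3
      linarith
  · obtain ⟨c, hc, hc2⟩ := sm_lower h
    obtain ⟨C, hC, hC2⟩ := sm_upper h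
    refine ⟨c * (1 / 2) ^ (e + 1), C * 2 ^ (e + 1), by positivity, by positivity,
      fun m hm => ?_⟩
    rw [if_neg (by linarith), if_neg (by linarith)]
    have hM1 : 1 ≤ ⌊m⌋₊ := Nat.le_floor (by simpa using hm)
    have hM1' : (1 : ℝ) ≤ (⌊m⌋₊ : ℝ) := by exact_mod_cast hM1
    have hlt := Nat.lt_floor_add_one m
    have hle := Nat.floor_le (a := m) (by linarith)
    have he : 0 ≤ e + 1 := by linarith
    constructor
    · refine le_trans ?_ (hc2 _ hM1)
      rw [mul_assoc, ← Real.mul_rpow (by norm_num) (by linarith)]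
      refine mul_le_mul_of_nonneg_left ?_ hc.le
      exact Real.rpow_le_rpow (by linarith) (by linarith) he
    · refine (hC2 _).trans ?_
      rw [mul_assoc, ← Real.mul_rpow (by norm_num) (by linarith)]
      refine mul_le_mul_of_nonneg_left ?_ hC.le
      refine Real.rpow_le_rpow (by positivity) ?_ he
      push_cast
      linarith

end PN
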