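import Pool.Agent.H24.PN.Stmts

namespace PN
open MeasureTheory Complex ProbabilityTheory PM

namespace TBx

/-- coordinate of the path to leaf c at level j -/
def co (K c r : ℕ) (hr : r ≤ K) (hc : c < 2 ^ K) (j : Fin r) : Fin K × Fin (2 ^ K) :=
  (⟨j, by omega⟩, ⟨c / 2 ^ (K - 1 - j), lt_of_le_of_lt (Nat.div_le_self _ _) hc⟩)

theorem co_inj (K c r : ℕ) (hr : r ≤ K) (hc : c < 2 ^ K) (i j : Fin r)
    (h : co K c r hr hc i = co K c r hr hc j) : i = j := by
  simp only [co, Prod.mk.injEq, Fin.mk.injEq] at h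
  exact Fin.ext h.1

theorem mp (hO : S_ORT) (K c r : ℕ) (hr : r ≤ K) (hc : c < 2 ^ K) :
    MeasurePreserving (fun (g : Fin K × Fin (2 ^ K) → ℝ) (j : Fin r) => g (co K c r hr hc j))
      (Ga _) (Ga (Fin r)) := by
  have h := hO (Fin K × Fin (2 ^ K)) (Fin r)
    (fun j k => if k = co K c r hr hc j then 1 else 0) ?_
  · simpa using h
  · intro i j
    by_cases hij : i = j
    · subst hij; simp
    · have : co K c r hr hc j ≠ co K c r hr hc i := fun e => hij (co_inj K c r hr hc j i e).symm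
      simp [hij, this]

theorem ps_add {n : ℕ} (g : Fin n → ℝ) (a : ℝ) (j : ℕ) (hj : j ≤ n) :
    ps (g + (fun _ => a : Fin n → ℝ)) j = ps g j + j * a := by
  unfold ps
  have h1 : ∀ i : Fin n, (if (i : ℕ) < j then (g + (fun _ => a : Fin n → ℝ)) i else 0) =
      (if (i : ℕ) < j then g i else 0) + (if (i : ℕ) < j then a else 0) := by
    intro i; split_ifs <;> simp
  rw [Finset.sum_congr rfl (fun i _ => h1 i), Finset.sum_add_distrib]
  congr 1
  rw [← Finset.sum_filter, Finset.sum_const, nsmul_eq_mul]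
  congr 2
  rw [Fin.card_filter_val_lt]
  exact min_eq_right hj

theorem ps_all {n : ℕ} (g : Fin n → ℝ) : ps g n = ∑ i, g i := by
  unfold ps
  exact Finset.sum_congr rfl (fun i _ => by simp [i.2])

theorem meas_ps {n : ℕ} (j : ℕ) : Measurable (fun g : Fin n → ℝ => ps g j) := by
  unfold ps
  refine Finset.measurable_sum _ (fun i _ => ?_)
  split_ifs
  · exact measurable_pi_apply i
  · exact measurable_const

/-- shift formula -/
theorem shift (hO : S_ORT) (hC : S_CMS) (K c r : ℕ) (hr : r ≤ K) (hc : c < 2 ^ K)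
    (h : (Fin r → ℝ) → ENNReal) (hh : Measurable h) :
    ∫⁻ g : Fin K × Fin (2 ^ K) → ℝ, h (fun j => g (co K c r hr hc j)) ∂Ga _ =
      ENNReal.ofReal (((2 : ℝ) ^ r)⁻¹) *
      ∫⁻ g : Fin r → ℝ, h (g + (fun _ => Real.sqrt 2 * sv : Fin r → ℝ)) *
        ENNReal.ofReal (Real.exp (-(Real.sqrt 2 * sv * ps g r))) ∂Ga (Fin r) := by
  have e1 := (mp hO K c r hr hc).lintegral_comp hh
  rw [e1, hC (Fin r) (fun _ => Real.sqrt 2 * sv) h hh, ← lintegral_const_mul']
  · congr 1
    funext g
    rw [mul_left_comm, ← ENNReal.ofReal_mul (by positivity)]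
    congr 2
    have hv : sv * sv = Real.log 2 := Real.mul_self_sqrt (Real.log_nonneg (by norm_num))
    have h2 : Real.sqrt 2 * Real.sqrt 2 = 2 := Real.mul_self_sqrt (by norm_num)
    have e2 : -(∑ k : Fin r, Real.sqrt 2 * sv * g k) - (∑ _k : Fin r, (Real.sqrt 2 * sv) ^ 2) / 2 =
        -(Real.log 2 * r) + -(Real.sqrt 2 * sv * ps g r) := by
      rw [ps_all, ← Finset.mul_sum, Finset.sum_const, Finset.card_univ, Fintype.card_fin,
        nsmul_eq_mul]
      have : (Real.sqrt 2 * sv) ^ 2 = 2 * Real.log 2 := by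
        rw [mul_pow, sq, sq, h2, hv]
      rw [this]; ring
    rw [e2, Real.exp_add, Real.exp_neg, mul_comm (Real.log 2), Real.exp_nat_mul,
      Real.exp_log (by norm_num)]
  · exact ENNReal.ofReal_ne_top


/-- first violation at level r -/
def V (K r : ℕ) (x : ℝ) : Set (Fin r → ℝ) :=
  {g | (∀ j : ℕ, 1 ≤ j → j < r → sv * ps g j ≤ Real.sqrt 2 * vv * j + x - psi K j) ∧
    Real.sqrt 2 * vv * r + x - psi K r < sv * ps g r}

/-- no violation -/
def N (K : ℕ) (x : ℝ) : Set (Fin K → ℝ) :=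
  {g | ∀ j : ℕ, 1 ≤ j → j ≤ K → sv * ps g j ≤ Real.sqrt 2 * vv * j + x - psi K j}

theorem meas_V (K r : ℕ) (x : ℝ) : MeasurableSet (V K r x) := by
  have : V K r x = (⋂ j : ℕ, ⋂ (_ : 1 ≤ j), ⋂ (_ : j < r),
      {g : Fin r → ℝ | sv * ps g j ≤ Real.sqrt 2 * vv * j + x - psi K j}) ∩
      {g : Fin r → ℝ | Real.sqrt 2 * vv * r + x - psi K r < sv * ps g r} := by
    ext g; simp [V]
  rw [this]
  refine MeasurableSet.inter (MeasurableSet.iInter fun j => MeasurableSet.iInter fun _ =>
    MeasurableSet.iInter fun _ => ?_) ?_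
  · exact measurableSet_le ((meas_ps j).const_mul sv) measurable_const
  · exact measurableSet_lt measurable_const ((meas_ps r).const_mul sv)

theorem meas_N (K : ℕ) (x : ℝ) : MeasurableSet (N K x) := by
  have : N K x = (⋂ j : ℕ, ⋂ (_ : 1 ≤ j), ⋂ (_ : j ≤ K),
      {g : Fin K → ℝ | sv * ps g j ≤ Real.sqrt 2 * vv * j + x - psi K j}) := by
    ext g; simp [N]
  rw [this]
  refine MeasurableSet.iInter fun j => MeasurableSet.iInter fun _ =>
    MeasurableSet.iInter fun _ => ?_
  exact measurableSet_le ((meas_ps j).const_mul sv) measurable_const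

theorem sv_sq : sv * sv = vv := Real.mul_self_sqrt (Real.log_nonneg (by norm_num))

theorem step (j : ℝ) : sv * (j * (Real.sqrt 2 * sv)) = Real.sqrt 2 * vv * j := by
  rw [← sv_sq]; ring

/-- the path of a leaf passes through its ancestors -/
theorem co_anc (K c r : ℕ) (hr : r ≤ K) (hc : c < 2 ^ K)
    (hc' : c / 2 ^ (K - r) * 2 ^ (K - r) < 2 ^ K) (j : Fin r) :
    co K (c / 2 ^ (K - r) * 2 ^ (K - r)) r hr hc' j = co K c r hr hc j := by
  simp only [co, Prod.mk.injEq, Fin.mk.injEq, true_and]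
  have hj := j.2
  have e : 2 ^ (K - 1 - (j : ℕ)) = 2 ^ (K - r) * 2 ^ (r - 1 - (j : ℕ)) := by
    rw [← pow_add]; congr 1; omega
  rw [e, ← Nat.div_div_eq_div_mul, ← Nat.div_div_eq_div_mul,
    Nat.mul_div_cancel _ (by positivity)]

theorem co_restr (K c r : ℕ) (hr : r ≤ K) (hc : c < 2 ^ K) (g : Fin K × Fin (2 ^ K) → ℝ) (j : ℕ)
    (hj : j ≤ r) : ps (fun i => g (co K c r hr hc i)) j = ps (fun i => g (co K c K le_rfl hc i)) j := by
  unfold ps
  rw [← Finset.sum_filter, ← Finset.sum_filter]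
  refine Finset.sum_bij' (fun (i : Fin r) _ => (⟨i, by omega⟩ : Fin K))
    (fun (i : Fin K) hi => (⟨i, by
      have := (Finset.mem_filter.1 hi).2; omega⟩ : Fin r)) ?_ ?_ ?_ ?_ ?_
  · intro a ha
    simpa using (Finset.mem_filter.1 ha).2
  · intro a ha
    simpa using (Finset.mem_filter.1 ha).2
  · intro a ha; rfl
  · intro a ha; rfl
  · intro a ha; rfl

theorem expo (be : ℝ) (K : ℕ) (c : Fin (2 ^ K)) (g : Fin K × Fin (2 ^ K) → ℝ) :
    ∑ k, mB be K c k * g k = be * (sv * ps (fun i => g (co K c K le_rfl c.2 i)) K) := by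
  rw [ps_all, Fintype.sum_prod_type, Finset.mul_sum, Finset.mul_sum]
  refine Finset.sum_congr rfl (fun r _ => ?_)
  rw [Finset.sum_eq_single (⟨c / 2 ^ (K - 1 - r), lt_of_le_of_lt (Nat.div_le_self _ _) c.2⟩ :
    Fin (2 ^ K))]
  · simp [mB, mBn, co, mul_assoc]
  · intro b _ hb
    have : ¬ ((b : ℕ) = (c : ℕ) / 2 ^ (K - 1 - r)) := fun e => hb (Fin.ext e)
    simp [mB, mBn, this]
  · intro h; exact absurd (Finset.mem_univ _) h


/-- the representative leaf of a node -/
theorem rep_lt {K r v : ℕ} (hr : r ≤ K) (hv : v < 2 ^ r) : v * 2 ^ (K - r) < 2 ^ K := by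
  have : 2 ^ K = 2 ^ r * 2 ^ (K - r) := by rw [← pow_add]; congr 1; omega
  rw [this]
  exact Nat.mul_lt_mul_of_pos_right hv (by positivity)

theorem lam_eq (be x : ℝ) (K : ℕ) : typ be K * Real.exp (be * x) =
    Real.exp (be * (Real.sqrt 2 * vv * K + x - psi K K)) := by
  unfold typ psi
  rw [← Real.exp_add]
  congr 1
  have : ((K : ℝ) + 1) / ((K : ℝ) - K + 1) = (K : ℝ) + 1 := by simp
  rw [this]; ring

/-- pointwise bound -/
theorem pw (be : ℝ) (K : ℕ) (p : Fin (2 ^ K) → ℝ) (x : ℝ) (hp0 : ∀ i, 0 ≤ p i)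
    (hp1 : ∀ i, p i ≤ 1) (g : Fin K × Fin (2 ^ K) → ℝ) :
    ENNReal.ofReal (ft (typ be K * Real.exp (be * x)) (ZG (mB be K) p g)) ≤
      (∑ r : Fin (K + 1), if h0 : 1 ≤ (r : ℕ) then ∑ v : Fin (2 ^ (r : ℕ)),
        Set.indicator (V K r x) (fun _ => (1 : ENNReal))
          (fun j => g (co K (v * 2 ^ (K - r)) r (Nat.lt_succ_iff.1 r.2)
            (rep_lt (Nat.lt_succ_iff.1 r.2) v.2) j)) else 0) +
      ∑ c : Fin (2 ^ K), Set.indicator (N K x) (fun s => ENNReal.ofReal (Real.exp (be *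
          (sv * ps s K - (Real.sqrt 2 * vv * K + x - psi K K)))))
        (fun j => g (co K c K le_rfl c.2 j)) := by
  have hZ0 : 0 ≤ ZG (mB be K) p g :=
    Finset.sum_nonneg (fun i _ => mul_nonneg (hp0 i) (Real.exp_pos _).le)
  have hlam : 0 < typ be K * Real.exp (be * x) := by
    rw [lam_eq]; exact Real.exp_pos _
  by_cases hN : ∀ c : Fin (2 ^ K), (fun j => g (co K c K le_rfl c.2 j)) ∈ N K x
  · -- no violation
    refine le_trans ?_ (le_add_left le_rfl)
    have e1 : ft (typ be K * Real.exp (be * x)) (ZG (mB be K) p g) ≤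
        ∑ c : Fin (2 ^ K), Real.exp (be * (sv * ps (fun j => g (co K c K le_rfl c.2 j)) K -
          (Real.sqrt 2 * vv * K + x - psi K K))) := by
      unfold ft
      have : ZG (mB be K) p g / (ZG (mB be K) p g + typ be K * Real.exp (be * x)) ≤
          ZG (mB be K) p g / (typ be K * Real.exp (be * x)) :=
        div_le_div_of_nonneg_left hZ0 hlam (by linarith)
      refine this.trans ?_
      unfold ZG
      rw [Finset.sum_div]
      refine Finset.sum_le_sum (fun c _ => ?_)
      have e2 : ∀ A B : ℝ, Real.exp (be * (A - B)) = Real.exp (be * A) / Real.exp (be * B) := by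
        intro A B; rw [mul_sub, Real.exp_sub]
      rw [lam_eq, expo, e2 (sv * ps (fun j => g (co K c K le_rfl c.2 j)) K)]
      refine div_le_div_of_nonneg_right ?_ (Real.exp_pos _).le
      have := hp1 c
      have h2 := Real.exp_pos (be * (sv * ps (fun i => g (co K c K le_rfl c.2 i)) K))
      nlinarith
    refine (ENNReal.ofReal_le_ofReal e1).trans ?_
    rw [ENNReal.ofReal_sum_of_nonneg (fun i _ => (Real.exp_pos _).le)]
    refine Finset.sum_le_sum (fun c _ => ?_)
    rw [Set.indicator_of_mem (hN c)]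
  · -- some violation
    push Not at hN
    obtain ⟨c, hc⟩ := hN
    have hft : ft (typ be K * Real.exp (be * x)) (ZG (mB be K) p g) ≤ 1 := by
      unfold ft
      rw [div_le_one (by linarith)]
      linarith
    have h1 : ENNReal.ofReal (ft (typ be K * Real.exp (be * x)) (ZG (mB be K) p g)) ≤ 1 := by
      simpa using ENNReal.ofReal_le_ofReal hft
    refine h1.trans (le_trans ?_ (le_add_right le_rfl))
    simp only [N, Set.mem_ofPred_eq] at hc
    push Not at hc
    have hex : ∃ r : ℕ, 1 ≤ r ∧ r ≤ K ∧ Real.sqrt 2 * vv * r + x - psi K r <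
        sv * ps (fun j => g (co K c K le_rfl c.2 j)) r := by
      obtain ⟨j, h1, h2, h3⟩ := hc
      exact ⟨j, h1, h2, h3⟩
    classical
    obtain ⟨hr1, hrK, hr⟩ := Nat.find_spec hex
    have hmin := fun j hj => Nat.find_min hex (m := j) hj
    set r := Nat.find hex with hrdef
    have hterm : (1 : ENNReal) ≤ (if h0 : 1 ≤ (((⟨r, by omega⟩ : Fin (K + 1))) : ℕ) then
        ∑ v : Fin (2 ^ ((⟨r, by omega⟩ : Fin (K + 1)) : ℕ)),
        Set.indicator (V K ((⟨r, by omega⟩ : Fin (K + 1)) : ℕ) x) (fun _ => (1 : ENNReal))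
          (fun j => g (co K (v * 2 ^ (K - ((⟨r, by omega⟩ : Fin (K + 1)) : ℕ)))
            ((⟨r, by omega⟩ : Fin (K + 1)) : ℕ) (Nat.lt_succ_iff.1 (⟨r, by omega⟩ : Fin (K + 1)).2)
            (rep_lt (Nat.lt_succ_iff.1 (⟨r, by omega⟩ : Fin (K + 1)).2) v.2) j)) else 0) := by
      rw [dif_pos hr1]
      have hv : (c : ℕ) / 2 ^ (K - r) < 2 ^ r := by
        rw [Nat.div_lt_iff_lt_mul (by positivity), ← pow_add]
        have : r + (K - r) = K := by omega
        rw [this]; exact c.2
      refine le_trans ?_ (Finset.single_le_sum (f := fun v : Fin (2 ^ r) =>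
        Set.indicator (V K r x) (fun _ => (1 : ENNReal))
          (fun j => g (co K (v * 2 ^ (K - r)) r hrK (rep_lt hrK v.2) j))) (fun _ _ => zero_le)
        (Finset.mem_univ (⟨(c : ℕ) / 2 ^ (K - r), hv⟩ : Fin (2 ^ r))))
      have hpath : (fun j => g (co K ((⟨(c : ℕ) / 2 ^ (K - r), hv⟩ : Fin (2 ^ r)) * 2 ^ (K - r)) r
          hrK (rep_lt hrK (⟨(c : ℕ) / 2 ^ (K - r), hv⟩ : Fin (2 ^ r)).2) j)) =
          fun j => g (co K c r hrK c.2 j) := by
        funext j
        rw [← co_anc K c r hrK c.2]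
      simp only
      rw [hpath, Set.indicator_of_mem]
      refine ⟨fun j hj1 hjr => ?_, ?_⟩
      · rw [co_restr K c r hrK c.2 g j hjr.le]
        by_contra hcon
        exact hmin j hjr ⟨hj1, by omega, not_le.1 hcon⟩
      · rw [co_restr K c r hrK c.2 g r le_rfl]
        exact hr
    exact hterm.trans (Finset.single_le_sum (f := fun r : Fin (K + 1) =>
      if h0 : 1 ≤ (r : ℕ) then ∑ v : Fin (2 ^ (r : ℕ)),
        Set.indicator (V K r x) (fun _ => (1 : ENNReal))
          (fun j => g (co K (v * 2 ^ (K - r)) r (Nat.lt_succ_iff.1 r.2)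
            (rep_lt (Nat.lt_succ_iff.1 r.2) v.2) j)) else 0) (fun _ _ => zero_le)
        (Finset.mem_univ (⟨r, by omega⟩ : Fin (K + 1))))


/-- one node -/
theorem node (hO : S_ORT) (hC : S_CMS) (K c r : ℕ) (hr : r ≤ K) (hc : c < 2 ^ K) (x : ℝ) :
    ∫⁻ g : Fin K × Fin (2 ^ K) → ℝ, Set.indicator (V K r x) (fun _ => (1 : ENNReal))
      (fun j => g (co K c r hr hc j)) ∂Ga _ =
    ENNReal.ofReal (((2 : ℝ) ^ r)⁻¹) * ∫⁻ g : Fin r → ℝ,
    Set.indicator {g : Fin r → ℝ | (∀ j : ℕ, 1 ≤ j → j < r → sv * ps g j ≤ x - psi K j) ∧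
      x - psi K r < sv * ps g r}
      (fun g => ENNReal.ofReal (Real.exp (-(Real.sqrt 2 * sv * ps g r)))) g ∂Ga (Fin r) := by
  rw [shift hO hC K c r hr hc _ (measurable_const.indicator (meas_V K r x))]
  congr 1
  refine lintegral_congr (fun g => ?_)
  have hiff : (g + (fun _ => Real.sqrt 2 * sv : Fin r → ℝ)) ∈ V K r x ↔
      g ∈ {g : Fin r → ℝ | (∀ j : ℕ, 1 ≤ j → j < r → sv * ps g j ≤ x - psi K j) ∧
      x - psi K r < sv * ps g r} := by
    simp only [V, Set.mem_ofPred_eq]
    rw [ps_add g _ r le_rfl, mul_add, step]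
    constructor
    · rintro ⟨h1, h2⟩
      refine ⟨fun j hj hjr => ?_, by linarith⟩
      have := h1 j hj hjr
      rw [ps_add g _ j hjr.le, mul_add, step] at this
      linarith
    · rintro ⟨h1, h2⟩
      refine ⟨fun j hj hjr => ?_, by linarith⟩
      have := h1 j hj hjr
      rw [ps_add g _ j hjr.le, mul_add, step]
      linarith
  by_cases hg : (g + (fun _ => Real.sqrt 2 * sv : Fin r → ℝ)) ∈ V K r x
  · rw [Set.indicator_of_mem hg, Set.indicator_of_mem (hiff.1 hg), one_mul]
  · rw [Set.indicator_of_notMem hg, Set.indicator_of_notMem (fun h => hg (hiff.2 h)), zero_mul]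

/-- one leaf -/
theorem leaf (hO : S_ORT) (hC : S_CMS) (be : ℝ) (K c : ℕ) (hc : c < 2 ^ K) (x : ℝ) :
    ∫⁻ g : Fin K × Fin (2 ^ K) → ℝ, Set.indicator (N K x) (fun s => ENNReal.ofReal (Real.exp (be *
          (sv * ps s K - (Real.sqrt 2 * vv * K + x - psi K K)))))
        (fun j => g (co K c K le_rfl hc j)) ∂Ga _ =
    ENNReal.ofReal (((2 : ℝ) ^ K)⁻¹) * ∫⁻ g : Fin K → ℝ,
    Set.indicator {g : Fin K → ℝ | ∀ j : ℕ, 1 ≤ j → j ≤ K → sv * ps g j ≤ x - psi K j}
      (fun g => ENNReal.ofReal (Real.exp (-(Real.sqrt 2 * sv * ps g K) +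
        (Real.sqrt 2 + (be - Real.sqrt 2)) * (sv * ps g K - (x - psi K K))))) g ∂Ga (Fin K) := by
  have hmeas : Measurable (fun s : Fin K → ℝ => ENNReal.ofReal (Real.exp (be *
          (sv * ps s K - (Real.sqrt 2 * vv * K + x - psi K K))))) :=
    (Real.measurable_exp.comp ((((meas_ps K).const_mul sv).sub_const _).const_mul be)).ennreal_ofReal
  rw [shift hO hC K c K le_rfl hc _ (hmeas.indicator (meas_N K x))]
  congr 1
  refine lintegral_congr (fun g => ?_)
  have hiff : (g + (fun _ => Real.sqrt 2 * sv : Fin K → ℝ)) ∈ N K x ↔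
      g ∈ {g : Fin K → ℝ | ∀ j : ℕ, 1 ≤ j → j ≤ K → sv * ps g j ≤ x - psi K j} := by
    simp only [N, Set.mem_ofPred_eq]
    constructor
    · intro h1 j hj hjr
      have := h1 j hj hjr
      rw [ps_add g _ j hjr, mul_add, step] at this
      linarith
    · intro h1 j hj hjr
      have := h1 j hj hjr
      rw [ps_add g _ j hjr, mul_add, step]
      linarith
  by_cases hg : (g + (fun _ => Real.sqrt 2 * sv : Fin K → ℝ)) ∈ N K x
  · rw [Set.indicator_of_mem hg, Set.indicator_of_mem (hiff.1 hg),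
      ← ENNReal.ofReal_mul (Real.exp_pos _).le, ← Real.exp_add]
    congr 2
    rw [ps_add g _ K le_rfl, mul_add, step]
    ring
  · rw [Set.indicator_of_notMem hg, Set.indicator_of_notMem (fun h => hg (hiff.2 h)), zero_mul]

theorem two_pow_mul (r : ℕ) (a : ENNReal) :
    (2 ^ r : ℕ) • (ENNReal.ofReal (((2 : ℝ) ^ r)⁻¹) * a) = a := by
  rw [nsmul_eq_mul, ← mul_assoc]
  have : ((2 ^ r : ℕ) : ENNReal) * ENNReal.ofReal (((2 : ℝ) ^ r)⁻¹) = 1 := by
    have e : ((2 ^ r : ℕ) : ENNReal) = ENNReal.ofReal ((2 : ℝ) ^ r) := by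
      rw [ENNReal.ofReal_pow (by norm_num)]
      push_cast
      simp
    rw [e, ← ENNReal.ofReal_mul (by positivity), mul_inv_cancel₀ (by positivity),
      ENNReal.ofReal_one]
  rw [this, one_mul]

end TBx

theorem TB (hV : S_TBV) (hE : S_TBE) (hC : S_CMS) (hO : S_ORT) : S_TB := by
  intro be hbe
  obtain ⟨C1, c1, hC1, hc1, h1⟩ := hV
  obtain ⟨C2, c2, hC2, hc2, h2⟩ := hE (be - Real.sqrt 2) (by linarith)
  refine ⟨C1 + C2, min c1 c2, by positivity, lt_min hc1 hc2, ?_⟩
  intro K p x hp0 hp1 hx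
  -- measurability of the integrand
  have hZm : Measurable (fun g : Fin K × Fin (2 ^ K) → ℝ => ZG (mB be K) p g) := by
    unfold ZG
    refine Finset.measurable_sum _ (fun i _ => ?_)
    refine Measurable.const_mul ?_ _
    refine Real.measurable_exp.comp ?_
    refine Finset.measurable_sum _ (fun k _ => ?_)
    exact (measurable_pi_apply k).const_mul _
  have hZ0 : ∀ g, 0 ≤ ZG (mB be K) p g := fun g =>
    Finset.sum_nonneg (fun i _ => mul_nonneg (hp0 i) (Real.exp_pos _).le)
  have hlam : 0 < typ be K * Real.exp (be * x) := by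
    rw [TBx.lam_eq]; exact Real.exp_pos _
  have hft0 : ∀ g, 0 ≤ ft (typ be K * Real.exp (be * x)) (ZG (mB be K) p g) := fun g =>
    div_nonneg (hZ0 g) (by have := hZ0 g; linarith)
  have hftm : Measurable (fun g => ft (typ be K * Real.exp (be * x)) (ZG (mB be K) p g)) := by
    unfold ft
    exact hZm.div (hZm.add_const _)
  have key : ∫⁻ g, ENNReal.ofReal (ft (typ be K * Real.exp (be * x)) (ZG (mB be K) p g)) ∂Ga _ ≤
      ENNReal.ofReal (C1 * (1 + x) * Real.exp (-(Real.sqrt 2 * x)) *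
        Real.exp (-c1 * x ^ 2 / (K + 1))) +
      ENNReal.ofReal (C2 * (1 + x) * Real.exp (-(Real.sqrt 2 * x)) *
        (Real.exp (-c2 * x ^ 2 / (K + 1)) + Real.exp (-c2 * x))) := by
    refine (lintegral_mono (TBx.pw be K p x hp0 hp1)).trans ?_
    have hcom : ∀ (c r : ℕ) (hr : r ≤ K) (hc : c < 2 ^ K), Measurable
        (fun (g : Fin K × Fin (2 ^ K) → ℝ) (j : Fin r) => g (TBx.co K c r hr hc j)) :=
      fun c r hr hc => (TBx.mp hO K c r hr hc).measurable
    rw [lintegral_add_left]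
    · refine add_le_add ?_ ?_
      · refine le_trans (le_of_eq ?_) (h1 K x hx)
        rw [lintegral_finsetSum]
        · rw [Finset.sum_fin_eq_sum_range]
          have : Finset.Icc 1 K = (Finset.range (K + 1)).filter (fun r => 1 ≤ r) := by
            ext r; simp; omega
          rw [this, Finset.sum_filter]
          refine Finset.sum_congr rfl (fun r hr => ?_)
          have hr' := Finset.mem_range.1 hr
          rw [dif_pos hr']
          by_cases h0 : 1 ≤ r
          · simp only [h0, dite_true, if_true]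
            rw [lintegral_finsetSum]
            · rw [Finset.sum_congr rfl (fun v _ => TBx.node hO hC K _ r (Nat.lt_succ_iff.1 hr')
                (TBx.rep_lt (Nat.lt_succ_iff.1 hr') v.2) x)]
              rw [Finset.sum_const, Finset.card_univ, Fintype.card_fin, TBx.two_pow_mul]
            · intro v _
              exact (measurable_const.indicator (TBx.meas_V K r x)).comp (hcom _ _ _ _)
          · simp [h0]
        · intro r _
          by_cases h0 : 1 ≤ (r : ℕ)
          · simp only [h0, dite_true]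
            refine Finset.measurable_sum _ (fun v _ => ?_)
            exact (measurable_const.indicator (TBx.meas_V K r x)).comp (hcom _ _ _ _)
          · simp [h0]
      · refine le_trans (le_of_eq ?_) (h2 K x hx)
        rw [lintegral_finsetSum]
        · rw [Finset.sum_congr rfl (fun (c : Fin (2 ^ K)) _ => TBx.leaf hO hC be K c c.2 x)]
          rw [Finset.sum_const, Finset.card_univ, Fintype.card_fin, TBx.two_pow_mul]
        · intro c _
          refine Measurable.comp (Measurable.indicator ?_ (TBx.meas_N K x)) (hcom _ _ _ _)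
          exact (Real.measurable_exp.comp
            ((((TBx.meas_ps K).const_mul sv).sub_const _).const_mul be)).ennreal_ofReal
    · refine Finset.measurable_sum _ (fun r _ => ?_)
      by_cases h0 : 1 ≤ (r : ℕ)
      · simp only [h0, dite_true]
        refine Finset.measurable_sum _ (fun v _ => ?_)
        exact (measurable_const.indicator (TBx.meas_V K r x)).comp (hcom _ _ _ _)
      · simp [h0]
  have hfin : (0 : ℝ) ≤ (1 + x) * Real.exp (-(Real.sqrt 2 * x)) := by positivity
  unfold TR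
  rw [integral_eq_lintegral_of_nonneg_ae (Filter.Eventually.of_forall hft0)
    hftm.aestronglyMeasurable]
  refine ENNReal.toReal_le_of_le_ofReal (by positivity) (key.trans ?_)
  rw [← ENNReal.ofReal_add (by positivity) (by positivity)]
  refine ENNReal.ofReal_le_ofReal ?_
  have a1 : Real.exp (-c1 * x ^ 2 / (K + 1)) ≤ Real.exp (-(min c1 c2) * x ^ 2 / (K + 1)) := by
    refine Real.exp_le_exp.2 ?_
    have := min_le_left c1 c2
    gcongr
  have a2 : Real.exp (-c2 * x ^ 2 / (K + 1)) ≤ Real.exp (-(min c1 c2) * x ^ 2 / (K + 1)) := by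
    refine Real.exp_le_exp.2 ?_
    have := min_le_right c1 c2
    gcongr
  have a3 : Real.exp (-c2 * x) ≤ Real.exp (-(min c1 c2) * x) := by
    refine Real.exp_le_exp.2 ?_
    have := min_le_right c1 c2
    nlinarith
  have a4 := Real.exp_pos (-(min c1 c2) * x)
  calc C1 * (1 + x) * Real.exp (-(Real.sqrt 2 * x)) * Real.exp (-c1 * x ^ 2 / (K + 1)) +
      C2 * (1 + x) * Real.exp (-(Real.sqrt 2 * x)) *
        (Real.exp (-c2 * x ^ 2 / (K + 1)) + Real.exp (-c2 * x))
      = ((1 + x) * Real.exp (-(Real.sqrt 2 * x))) * (C1 * Real.exp (-c1 * x ^ 2 / (K + 1)) +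
        C2 * (Real.exp (-c2 * x ^ 2 / (K + 1)) + Real.exp (-c2 * x))) := by ring
    _ ≤ ((1 + x) * Real.exp (-(Real.sqrt 2 * x))) *
        ((C1 + C2) * (Real.exp (-(min c1 c2) * x ^ 2 / (K + 1)) +
          Real.exp (-(min c1 c2) * x))) := by
        refine mul_le_mul_of_nonneg_left ?_ hfin
        nlinarith [mul_le_mul_of_nonneg_left a1 hC1.le, mul_le_mul_of_nonneg_left a2 hC2.le,
          mul_le_mul_of_nonneg_left a3 hC2.le, mul_pos hC1 a4]
    _ = _ := by ring

end PN
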