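import Pool.Agent.H24.PN.Stmts

/-! Module TBE: mass at the end without violation of the barrier. -/

namespace PN
open MeasureTheory Complex ProbabilityTheory PM

namespace TBEx

theorem sv_pos : 0 < sv := by
  unfold sv
  exact Real.sqrt_pos.2 (Real.log_pos (by norm_num))

theorem sv_sq : sv ^ 2 = Real.log 2 := by
  unfold sv
  exact Real.sq_sqrt (Real.log_nonneg (by norm_num))

theorem sv_le_one : sv ≤ 1 := by
  unfold sv
  have h := Real.log_two_lt_d9
  rw [Real.sqrt_le_left (by norm_num)]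
  norm_num
  linarith

theorem c0_pos : 0 < c0 := by
  unfold c0
  positivity

theorem sqrt_two_mul_c0 : Real.sqrt 2 * c0 = 3 / 2 := by
  unfold c0
  have : Real.sqrt 2 ≠ 0 := by positivity
  field_simp

theorem psi_KK (K : ℕ) : psi K K = c0 * Real.log (K + 1) := by
  unfold psi
  simp

theorem psi_nonneg (K j : ℕ) (hj : j ≤ K) : 0 ≤ psi K j := by
  unfold psi
  apply mul_nonneg c0_pos.le
  apply Real.log_nonneg
  have hj' : (j : ℝ) ≤ K := by exact_mod_cast hj
  rw [le_div_iff₀ (by linarith)]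
  have : (0 : ℝ) ≤ j := Nat.cast_nonneg j
  linarith

theorem psi_ineq (K j : ℕ) (h1 : 1 ≤ j) (hj : j ≤ K) :
    (j : ℝ) / K * psi K K - c0 * Real.log (1 + min (j : ℝ) ((K : ℝ) - j)) ≤ psi K j := by
  have hj' : (j : ℝ) ≤ K := by exact_mod_cast hj
  have h1' : (1 : ℝ) ≤ j := by exact_mod_cast h1
  have hK : (0 : ℝ) < K := by linarith
  rcases le_total (j : ℝ) ((K : ℝ) - j) with h | h
  · rw [min_eq_left h]
    refine le_trans ?_ (psi_nonneg K j hj)
    rw [psi_KK]
    have h2 : (j : ℝ) / K * Real.log (K + 1) ≤ Real.log (1 + j) := by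
      rw [← Real.log_rpow (by linarith)]
      apply Real.log_le_log (by positivity)
      have h3 := rpow_one_add_le_one_add_mul_self (s := (K : ℝ)) (by linarith)
        (p := (j : ℝ) / K) (by positivity) (by rw [div_le_one hK]; exact hj')
      rw [add_comm (K : ℝ) 1]
      refine h3.trans (le_of_eq ?_)
      field_simp
    have h4 := mul_le_mul_of_nonneg_left h2 c0_pos.le
    linarith
  · rw [min_eq_right h, psi_KK]
    unfold psi
    rw [Real.log_div (by linarith) (by linarith)]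
    have h2 : (j : ℝ) / K ≤ 1 := by rw [div_le_one hK]; exact hj'
    have h3 : 0 ≤ c0 * Real.log (K + 1) :=
      mul_nonneg c0_pos.le (Real.log_nonneg (by linarith))
    have h4 := mul_le_mul_of_nonneg_right h2 h3
    have h5 : (1 : ℝ) + ((K : ℝ) - j) = (K : ℝ) - j + 1 := by ring
    rw [h5]
    linarith

theorem exp_psi (K : ℕ) : Real.exp (Real.sqrt 2 * psi K K) = ((K : ℝ) + 1) ^ (3 / 2 : ℝ) := by
  rw [psi_KK, ← mul_assoc, sqrt_two_mul_c0, mul_comm, Real.rpow_def_of_pos (by positivity)]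

theorem psi_sq (K : ℕ) : psi K K ^ 2 ≤ 4 * c0 ^ 2 * K := by
  rw [psi_KK, mul_pow]
  have h1 : Real.log (K + 1) ≤ 2 * Real.sqrt K := by
    have h2 : Real.log (K + 1) = 2 * Real.log (Real.sqrt (K + 1)) := by
      rw [Real.log_sqrt (by positivity)]
      ring
    have h3 : Real.log (Real.sqrt (K + 1)) ≤ Real.sqrt (K + 1) - 1 :=
      Real.log_le_sub_one_of_pos (by positivity)
    have h4 : Real.sqrt (K + 1) ≤ Real.sqrt K + 1 := by
      rw [Real.sqrt_le_left (by positivity)]
      have := Real.sq_sqrt (Nat.cast_nonneg K : (0 : ℝ) ≤ K)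
      have h5 := Real.sqrt_nonneg (K : ℝ)
      nlinarith
    linarith
  have h0 : 0 ≤ Real.log ((K : ℝ) + 1) := Real.log_nonneg (by
    have : (0 : ℝ) ≤ K := Nat.cast_nonneg K
    linarith)
  have h6 : Real.log ((K : ℝ) + 1) ^ 2 ≤ 4 * (K : ℝ) := by
    calc Real.log ((K : ℝ) + 1) ^ 2 ≤ (2 * Real.sqrt K) ^ 2 := by gcongr
      _ = 4 * (K : ℝ) := by rw [mul_pow, Real.sq_sqrt (Nat.cast_nonneg K)]; norm_num
  nlinarith [sq_nonneg c0]

theorem ratio (K : ℕ) (hK : 1 ≤ K) :
    ((K : ℝ) + 1) ^ (3 / 2 : ℝ) / K * (Real.sqrt (2 * Real.pi * K))⁻¹ ≤ 2 := by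
  have hK' : (1 : ℝ) ≤ K := by exact_mod_cast hK
  have h1 : ((K : ℝ) + 1) ^ (3 / 2 : ℝ) = ((K : ℝ) + 1) * Real.sqrt ((K : ℝ) + 1) := by
    rw [Real.sqrt_eq_rpow, ← Real.rpow_one_add' (by positivity) (by norm_num)]
    norm_num
  rw [h1]
  have h2 : Real.sqrt ((K : ℝ) + 1) ≤ Real.sqrt (2 * Real.pi * K) := by
    apply Real.sqrt_le_sqrt
    have := Real.pi_gt_three
    nlinarith
  have h3 : 0 < Real.sqrt (2 * Real.pi * K) := Real.sqrt_pos.2 (by positivity)
  rw [← div_eq_mul_inv, div_div, div_le_iff₀ (by positivity)]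
  calc ((K : ℝ) + 1) * Real.sqrt ((K : ℝ) + 1) ≤ (2 * K) * Real.sqrt (2 * Real.pi * K) := by
        gcongr
        linarith
    _ = 2 * (K * Real.sqrt (2 * Real.pi * K)) := by ring

/-- the decay estimate -/
theorem decay (ε : ℝ) (hε : 0 < ε) (K : ℕ) (hK : 1 ≤ K) (x a : ℝ) (hx : 0 ≤ x) (ha : 0 ≤ a)
    (c : ℝ) (hc1 : c ≤ 1 / 16) (hc2 : c ≤ ε / 4) :
    Real.exp (-(ε * sv * a)) *
        Real.exp (-((x / sv - psi K K / sv - a) ^ 2) / (2 * K)) ≤
      Real.exp (-(ε * sv * a / 2)) * (Real.exp (2 * c0 ^ 2 / sv ^ 2) *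
        (Real.exp (-c * x ^ 2 / (K + 1)) + Real.exp (-c * x))) := by
  have hK' : (1 : ℝ) ≤ K := by exact_mod_cast hK
  have hsv := sv_pos
  have hB : 1 ≤ Real.exp (2 * c0 ^ 2 / sv ^ 2) := Real.one_le_exp (by positivity)
  rcases le_total a (x / (2 * sv)) with h | h
  · have h1 : (x / sv - psi K K / sv - a) ^ 2 ≥ (x / (2 * sv)) ^ 2 / 2 - (psi K K / sv) ^ 2 := by
      have h2 : x / (2 * sv) ≤ x / sv - a := by
        have : x / sv = x / (2 * sv) + x / (2 * sv) := by field_simp; ring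
        linarith
      have h3 : (x / (2 * sv)) ^ 2 ≤ (x / sv - a) ^ 2 := by
        have : 0 ≤ x / (2 * sv) := by positivity
        gcongr
      nlinarith [sq_nonneg (x / sv - a - 2 * (psi K K / sv))]
    have h4 : (psi K K / sv) ^ 2 / (2 * K) ≤ 2 * c0 ^ 2 / sv ^ 2 := by
      rw [div_pow, div_div, div_le_div_iff₀ (by positivity) (by positivity)]
      have := psi_sq K
      nlinarith [sq_nonneg sv, mul_le_mul_of_nonneg_right this (sq_nonneg sv)]
    have h5 : c * x ^ 2 / (K + 1) ≤ (x / (2 * sv)) ^ 2 / 2 / (2 * K) := by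
      have h6 : c * x ^ 2 / (K + 1) ≤ (1 / 16) * x ^ 2 / (K + 1) := by gcongr
      refine h6.trans ?_
      rw [div_pow, mul_pow, div_div, div_div, div_le_div_iff₀ (by positivity) (by positivity)]
      have h7 : sv ^ 2 ≤ 1 := by nlinarith [sv_le_one]
      have h8 : sv ^ 2 * K ≤ K + 1 := by nlinarith
      nlinarith [mul_le_mul_of_nonneg_left h8 (sq_nonneg x)]
    have h9 : Real.exp (-((x / sv - psi K K / sv - a) ^ 2) / (2 * K)) ≤
        Real.exp (2 * c0 ^ 2 / sv ^ 2) * Real.exp (-c * x ^ 2 / (K + 1)) := by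
      rw [← Real.exp_add]
      apply Real.exp_le_exp.2
      have h10 : ((x / (2 * sv)) ^ 2 / 2 - (psi K K / sv) ^ 2) / (2 * K) ≤
          (x / sv - psi K K / sv - a) ^ 2 / (2 * K) := by gcongr
      rw [sub_div] at h10
      rw [neg_div, neg_mul, neg_div]
      linarith
    have h11 : Real.exp (-(ε * sv * a)) ≤ Real.exp (-(ε * sv * a / 2)) := by
      apply Real.exp_le_exp.2
      have : 0 ≤ ε * sv * a := by positivity
      linarith
    calc _ ≤ Real.exp (-(ε * sv * a / 2)) *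
          (Real.exp (2 * c0 ^ 2 / sv ^ 2) * Real.exp (-c * x ^ 2 / (K + 1))) := by gcongr
      _ ≤ _ := by
          gcongr
          have := Real.exp_pos (-c * x)
          linarith
  · have h1 : Real.exp (-((x / sv - psi K K / sv - a) ^ 2) / (2 * K)) ≤ 1 := by
      rw [Real.exp_le_one_iff, neg_div]
      have : 0 ≤ (x / sv - psi K K / sv - a) ^ 2 / (2 * K) := by positivity
      linarith
    have h2 : Real.exp (-(ε * sv * a)) ≤ Real.exp (-(ε * sv * a / 2)) * Real.exp (-c * x) := by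
      rw [← Real.exp_add]
      apply Real.exp_le_exp.2
      have h3 : x / (2 * sv) * (ε * sv / 2) = ε / 4 * x := by field_simp; ring
      have h4 := mul_le_mul_of_nonneg_right h (show 0 ≤ ε * sv / 2 by positivity)
      have h5 := mul_le_mul_of_nonneg_right hc2 hx
      nlinarith
    calc _ ≤ Real.exp (-(ε * sv * a / 2)) * Real.exp (-c * x) * 1 := by gcongr
      _ = Real.exp (-(ε * sv * a / 2)) * (1 * Real.exp (-c * x)) := by ring
      _ ≤ _ := by
          have := Real.exp_pos (-c * x ^ 2 / (K + 1))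
          gcongr
          linarith

/-- pointwise bound of the whole integrand -/
theorem point (ε : ℝ) (hε : 0 < ε) (C : ℝ) (hC : 0 < C) (K : ℕ) (hK : 1 ≤ K) (x s : ℝ)
    (hx : 0 ≤ x) (hs : s ≤ x / sv - psi K K / sv) (c : ℝ) (hc1 : c ≤ 1 / 16) (hc2 : c ≤ ε / 4) :
    C * (1 + x / sv) * (1 + (x / sv - psi K K / sv - s)) / K *
        (Real.exp (-(Real.sqrt 2 * sv * s) +
          (Real.sqrt 2 + ε) * (sv * s - (x - psi K K)))) *
        ((Real.sqrt (2 * Real.pi * K))⁻¹ * Real.exp (-(s ^ 2) / (2 * K))) ≤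
      (C / sv * (1 + 4 / (ε * sv)) * 2 * Real.exp (2 * c0 ^ 2 / sv ^ 2)) *
        ((1 + x) * Real.exp (-(Real.sqrt 2 * x)) *
          (Real.exp (-c * x ^ 2 / (K + 1)) + Real.exp (-c * x))) *
        Real.exp (-(ε * sv / 4) * (x / sv - psi K K / sv - s)) := by
  have hK' : (1 : ℝ) ≤ K := by exact_mod_cast hK
  have hsv := sv_pos
  obtain ⟨a, ha⟩ : ∃ a, a = x / sv - psi K K / sv - s := ⟨_, rfl⟩
  have ha0 : 0 ≤ a := by rw [ha]; linarith
  have hs2 : s = x / sv - psi K K / sv - a := by rw [ha]; ring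
  rw [← ha]
  have he : Real.exp (-(Real.sqrt 2 * sv * s) + (Real.sqrt 2 + ε) * (sv * s - (x - psi K K))) =
      Real.exp (-(Real.sqrt 2 * x)) * ((K : ℝ) + 1) ^ (3 / 2 : ℝ) * Real.exp (-(ε * sv * a)) := by
    rw [← exp_psi, ← Real.exp_add, ← Real.exp_add]
    congr 1
    have h1 : sv * s = x - psi K K - sv * a := by
      rw [hs2]
      field_simp
    have h2 : Real.sqrt 2 * sv * s = Real.sqrt 2 * (sv * s) := by ring
    rw [h2, h1]
    ring
  rw [he, hs2]
  have h1 := decay ε hε K hK x a hx ha0 c hc1 hc2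
  have h2 : 1 + a ≤ (1 + 4 / (ε * sv)) * Real.exp (ε * sv * a / 4) := by
    have h3 : ε * sv * a / 4 + 1 ≤ Real.exp (ε * sv * a / 4) := Real.add_one_le_exp _
    have h4 : (1 : ℝ) ≤ Real.exp (ε * sv * a / 4) := Real.one_le_exp (by positivity)
    have h5 : a = 4 / (ε * sv) * (ε * sv * a / 4) := by field_simp
    have h6 : 4 / (ε * sv) * (ε * sv * a / 4) ≤ 4 / (ε * sv) * Real.exp (ε * sv * a / 4) := by
      apply mul_le_mul_of_nonneg_left _ (by positivity)
      linarith
    rw [add_mul, one_mul]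
    linarith
  have h3 : 1 + x / sv ≤ (1 + x) / sv := by
    rw [add_div]
    have : 1 ≤ 1 / sv := by
      rw [le_div_iff₀ hsv]
      linarith [sv_le_one]
    linarith
  have h4 := ratio K hK
  have h5 : Real.exp (ε * sv * a / 4) * Real.exp (-(ε * sv * a / 2)) =
      Real.exp (-(ε * sv / 4) * a) := by
    rw [← Real.exp_add]
    congr 1
    ring
  set R := Real.exp (2 * c0 ^ 2 / sv ^ 2) * (Real.exp (-c * x ^ 2 / (K + 1)) + Real.exp (-c * x))
    with hR
  have hR0 : 0 ≤ R := by positivity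
  calc C * (1 + x / sv) * (1 + a) / K *
        (Real.exp (-(Real.sqrt 2 * x)) * ((K : ℝ) + 1) ^ (3 / 2 : ℝ) * Real.exp (-(ε * sv * a))) *
        ((Real.sqrt (2 * Real.pi * K))⁻¹ *
          Real.exp (-((x / sv - psi K K / sv - a) ^ 2) / (2 * K)))
      = C * (1 + x / sv) * (1 + a) * Real.exp (-(Real.sqrt 2 * x)) *
        (((K : ℝ) + 1) ^ (3 / 2 : ℝ) / K * (Real.sqrt (2 * Real.pi * K))⁻¹) *
        (Real.exp (-(ε * sv * a)) *
          Real.exp (-((x / sv - psi K K / sv - a) ^ 2) / (2 * K))) := by ring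
    _ ≤ C * ((1 + x) / sv) * ((1 + 4 / (ε * sv)) * Real.exp (ε * sv * a / 4)) *
        Real.exp (-(Real.sqrt 2 * x)) * 2 * (Real.exp (-(ε * sv * a / 2)) * R) := by
        gcongr
    _ = C * ((1 + x) / sv) * ((1 + 4 / (ε * sv))) *
        Real.exp (-(Real.sqrt 2 * x)) * 2 * R *
        (Real.exp (ε * sv * a / 4) * Real.exp (-(ε * sv * a / 2))) := by ring
    _ = _ := by
        rw [h5, hR]
        ring

end TBEx

open TBEx in
/-- module TBE -/
theorem TBE (hBRG : S_BRG) : S_TBE := by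
  intro ε hε
  have hsv := sv_pos
  obtain ⟨C, hC, hB⟩ := hBRG (c0 / sv) (by have := c0_pos; positivity)
  obtain ⟨c, hc⟩ : ∃ c, c = min (1 / 16) (ε / 4) := ⟨_, rfl⟩
  have hc0 : 0 < c := by rw [hc]; exact lt_min (by norm_num) (by positivity)
  have hc1 : c ≤ 1 / 16 := by rw [hc]; exact min_le_left _ _
  have hc2 : c ≤ ε / 4 := by rw [hc]; exact min_le_right _ _
  obtain ⟨D, hD⟩ : ∃ D, D = C / sv * (1 + 4 / (ε * sv)) * 2 * Real.exp (2 * c0 ^ 2 / sv ^ 2) :=
    ⟨_, rfl⟩
  have hD0 : 0 < D := by rw [hD]; positivity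
  refine ⟨D / (ε * sv / 4) + 1, c, by positivity, hc0, ?_⟩
  intro K x hx
  rcases Nat.eq_zero_or_pos K with hK | hK
  · subst hK
    have h1 : ∀ g : Fin 0 → ℝ, Set.indicator
        {g : Fin 0 → ℝ | ∀ j : ℕ, 1 ≤ j → j ≤ 0 → sv * ps g j ≤ x - psi 0 j}
        (fun g => ENNReal.ofReal (Real.exp (-(Real.sqrt 2 * sv * ps g 0) +
          (Real.sqrt 2 + ε) * (sv * ps g 0 - (x - psi 0 0))))) g ≤
        ENNReal.ofReal ((D / (ε * sv / 4) + 1) * (1 + x) * Real.exp (-(Real.sqrt 2 * x)) *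
      (Real.exp (-c * x ^ 2 / ((0 : ℕ) + 1)) + Real.exp (-c * x))) := by
      intro g
      refine (Set.indicator_le_self _ _ _).trans ?_
      apply ENNReal.ofReal_le_ofReal
      have h2 : ps g 0 = 0 := by unfold ps; simp
      have h3 : psi 0 0 = 0 := by unfold psi; simp
      rw [h2, h3]
      have h4 : -(Real.sqrt 2 * sv * 0) + (Real.sqrt 2 + ε) * (sv * 0 - (x - 0)) =
          -(Real.sqrt 2 * x) + -(ε * x) := by ring
      rw [h4, Real.exp_add]
      have h5 : Real.exp (-(ε * x)) ≤ Real.exp (-c * x) := by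
        apply Real.exp_le_exp.2
        nlinarith
      have h6 : 1 ≤ (D / (ε * sv / 4) + 1) * (1 + x) := by
        have : 0 ≤ D / (ε * sv / 4) := by positivity
        nlinarith
      have h7 := Real.exp_pos (-c * x ^ 2 / ((0 : ℕ) + 1))
      calc Real.exp (-(Real.sqrt 2 * x)) * Real.exp (-(ε * x))
          ≤ Real.exp (-(Real.sqrt 2 * x)) *
            (Real.exp (-c * x ^ 2 / ((0 : ℕ) + 1)) + Real.exp (-c * x)) := by
            gcongr
            linarith
        _ = 1 * (Real.exp (-(Real.sqrt 2 * x)) *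
            (Real.exp (-c * x ^ 2 / ((0 : ℕ) + 1)) + Real.exp (-c * x))) := by ring
        _ ≤ (D / (ε * sv / 4) + 1) * (1 + x) * (Real.exp (-(Real.sqrt 2 * x)) *
            (Real.exp (-c * x ^ 2 / ((0 : ℕ) + 1)) + Real.exp (-c * x))) := by
            apply mul_le_mul_of_nonneg_right h6
            positivity
        _ = _ := by ring
    refine (lintegral_mono h1).trans ?_
    rw [lintegral_const, measure_univ, mul_one]
  · have hK1 : 1 ≤ K := hK
    have hK' : (1 : ℝ) ≤ K := by exact_mod_cast hK1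
    have hmeas : Measurable (fun s : ℝ => ENNReal.ofReal (Real.exp (-(Real.sqrt 2 * sv * s) +
        (Real.sqrt 2 + ε) * (sv * s - (x - psi K K))))) := by
      apply Measurable.ennreal_ofReal
      fun_prop
    have h1 := hB K (x / sv) (fun j => psi K j / sv) hK1 (by positivity) (fun j hj1 hj2 => by
      have := psi_ineq K j hj1 hj2
      have h2 : (j : ℝ) / K * (psi K K / sv) - c0 / sv * Real.log (1 + min (j : ℝ) ((K : ℝ) - j)) =
        ((j : ℝ) / K * psi K K - c0 * Real.log (1 + min (j : ℝ) ((K : ℝ) - j))) / sv := by ring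
      rw [h2]
      exact div_le_div_of_nonneg_right this hsv.le) _ hmeas
    have hset : {g : Fin K → ℝ | ∀ j : ℕ, 1 ≤ j → j ≤ K → ps g j ≤ x / sv - psi K j / sv} =
        {g : Fin K → ℝ | ∀ j : ℕ, 1 ≤ j → j ≤ K → sv * ps g j ≤ x - psi K j} := by
      ext g
      change (∀ j : ℕ, 1 ≤ j → j ≤ K → _) ↔ (∀ j : ℕ, 1 ≤ j → j ≤ K → _)
      refine forall_congr' fun j => forall_congr' fun _ => forall_congr' fun _ => ?_
      rw [← sub_div, le_div_iff₀ hsv, mul_comm]
    rw [hset] at h1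
    refine h1.trans ?_
    have hv : ((K : ℕ) : NNReal) ≠ 0 := by
      have : K ≠ 0 := by omega
      exact_mod_cast this
    rw [gaussianReal_of_var_ne_zero 0 hv]
    rw [setLIntegral_withDensity_eq_setLIntegral_mul _ (measurable_gaussianPDF 0 _) (by
      refine Measurable.mul ?_ hmeas
      apply Measurable.ennreal_ofReal
      fun_prop) measurableSet_Iic]
    obtain ⟨M, hM⟩ : ∃ M, M = D * ((1 + x) * Real.exp (-(Real.sqrt 2 * x)) *
          (Real.exp (-c * x ^ 2 / (K + 1)) + Real.exp (-c * x))) := ⟨_, rfl⟩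
    have hM0 : 0 ≤ M := by rw [hM]; positivity
    obtain ⟨T, hT⟩ : ∃ T, T = x / sv - psi K K / sv := ⟨_, rfl⟩
    have hpt : ∀ s ∈ Set.Iic (x / sv - psi K K / sv),
        (gaussianPDF 0 (K : NNReal) * fun s => ENNReal.ofReal (C * (1 + x / sv) *
          (1 + (x / sv - psi K K / sv - s)) / K) *
          ENNReal.ofReal (Real.exp (-(Real.sqrt 2 * sv * s) +
            (Real.sqrt 2 + ε) * (sv * s - (x - psi K K))))) s ≤
        ENNReal.ofReal (M * Real.exp (-(ε * sv / 4) * T) * Real.exp ((ε * sv / 4) * s)) := by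
      intro s hs
      have hs' : s ≤ x / sv - psi K K / sv := hs
      have h2 := point ε hε C hC K hK1 x s hx hs' c hc1 hc2
      rw [Pi.mul_apply]
      unfold gaussianPDF
      rw [← ENNReal.ofReal_mul (by
        apply div_nonneg _ (by positivity)
        apply mul_nonneg (by positivity)
        linarith), ← ENNReal.ofReal_mul (gaussianPDFReal_nonneg _ _ _)]
      apply ENNReal.ofReal_le_ofReal
      rw [mul_comm]
      unfold gaussianPDFReal
      rw [← hD] at h2
      have h3 : M * Real.exp (-(ε * sv / 4) * T) * Real.exp ((ε * sv / 4) * s) =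
        D * ((1 + x) * Real.exp (-(Real.sqrt 2 * x)) *
          (Real.exp (-c * x ^ 2 / (K + 1)) + Real.exp (-c * x))) *
        Real.exp (-(ε * sv / 4) * (x / sv - psi K K / sv - s)) := by
        rw [← hM, mul_assoc, ← Real.exp_add, hT]
        congr 2
        ring
      rw [h3]
      refine le_trans (le_of_eq ?_) h2
      simp only [sub_zero, NNReal.coe_natCast]
    refine (setLIntegral_mono (by
      apply Measurable.ennreal_ofReal
      fun_prop) hpt).trans ?_
    rw [← hT]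
    have hδ : 0 < ε * sv / 4 := by positivity
    rw [← ofReal_integral_eq_lintegral_ofReal
      ((integrableOn_exp_mul_Iic hδ T).const_mul _) (Filter.Eventually.of_forall fun s => by
        positivity)]
    apply ENNReal.ofReal_le_ofReal
    rw [integral_const_mul, integral_exp_mul_Iic hδ]
    have h4 : M * Real.exp (-(ε * sv / 4) * T) * (Real.exp (ε * sv / 4 * T) / (ε * sv / 4)) =
        M / (ε * sv / 4) := by
      have h5 : Real.exp (-(ε * sv / 4) * T) * Real.exp (ε * sv / 4 * T) = 1 := by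
        rw [← Real.exp_add]
        simp
      calc _ = M / (ε * sv / 4) * (Real.exp (-(ε * sv / 4) * T) * Real.exp (ε * sv / 4 * T)) := by
            ring
        _ = _ := by rw [h5, mul_one]
    rw [h4, hM]
    have h6 : 0 ≤ (1 + x) * Real.exp (-(Real.sqrt 2 * x)) *
          (Real.exp (-c * x ^ 2 / (K + 1)) + Real.exp (-c * x)) := by positivity
    calc D * ((1 + x) * Real.exp (-(Real.sqrt 2 * x)) *
          (Real.exp (-c * x ^ 2 / (K + 1)) + Real.exp (-c * x))) / (ε * sv / 4)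
        = D / (ε * sv / 4) * ((1 + x) * Real.exp (-(Real.sqrt 2 * x)) *
          (Real.exp (-c * x ^ 2 / (K + 1)) + Real.exp (-c * x))) := by ring
      _ ≤ (D / (ε * sv / 4) + 1) * ((1 + x) * Real.exp (-(Real.sqrt 2 * x)) *
          (Real.exp (-c * x ^ 2 / (K + 1)) + Real.exp (-c * x))) := by
          apply mul_le_mul_of_nonneg_right _ h6
          linarith
      _ = _ := by ring

end PN
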