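import Pool.Agent.H88.PN.Util

/-! Module TBV: first violation of the barrier, summed over the levels. -/

namespace PN
open MeasureTheory ProbabilityTheory PM

namespace TBVa

lemma sv_pos : 0 < sv := Real.sqrt_pos.2 (Real.log_pos one_lt_two)

lemma sv_sq : sv ^ 2 = Real.log 2 := Real.sq_sqrt (Real.log_pos one_lt_two).le

lemma c0_pos : 0 < c0 := by unfold c0; positivity

lemma psi_diff (K j n : ℕ) (hj : j ≤ n) (hn : n ≤ K) :
    psi K n - psi K j ≤ c0 * Real.log (1 + ((n : ℝ) - j)) := by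
  unfold psi
  have h1 : (j : ℝ) ≤ n := by exact_mod_cast hj
  have h2 : (n : ℝ) ≤ K := by exact_mod_cast hn
  have h0 : (0 : ℝ) ≤ j := Nat.cast_nonneg j
  have a1 : (0 : ℝ) < (K : ℝ) - n + 1 := by linarith
  have a2 : (0 : ℝ) < (K : ℝ) - j + 1 := by linarith
  have a3 : (0 : ℝ) < (K : ℝ) + 1 := by linarith
  rw [← mul_sub]
  refine mul_le_mul_of_nonneg_left ?_ c0_pos.le
  rw [Real.log_div a3.ne' a1.ne', Real.log_div a3.ne' a2.ne']
  have : Real.log ((K : ℝ) - j + 1) ≤ Real.log (1 + ((n : ℝ) - j)) + Real.log ((K : ℝ) - n + 1) := by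
    rw [← Real.log_mul (by linarith) a1.ne']
    refine Real.log_le_log a2 ?_
    nlinarith
  linarith

lemma psi_mono (K j n : ℕ) (hj : j ≤ n) (hn : n ≤ K) : psi K j ≤ psi K n := by
  unfold psi
  have h1 : (j : ℝ) ≤ n := by exact_mod_cast hj
  have h2 : (n : ℝ) ≤ K := by exact_mod_cast hn
  have h0 : (0 : ℝ) ≤ j := Nat.cast_nonneg j
  have a1 : (0 : ℝ) < (K : ℝ) - n + 1 := by linarith
  have a2 : (0 : ℝ) < (K : ℝ) - j + 1 := by linarith
  refine mul_le_mul_of_nonneg_left ?_ c0_pos.le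
  refine Real.log_le_log (by positivity) ?_
  gcongr

lemma psi_zero (K : ℕ) : psi K 0 = 0 := by
  unfold psi
  have : ((K : ℝ) + 1) / ((K : ℝ) - (0 : ℕ) + 1) = 1 := by
    rw [Nat.cast_zero, sub_zero]
    exact div_self (by positivity)
  rw [this, Real.log_one, mul_zero]

lemma psi_nonneg (K n : ℕ) (hn : n ≤ K) : 0 ≤ psi K n := by
  have := psi_mono K 0 n (Nat.zero_le _) hn
  rwa [psi_zero] at this

lemma psi_le (K n : ℕ) (hn : n ≤ K) : psi K n ≤ c0 * Real.log (1 + n) := by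
  have := psi_diff K 0 n (Nat.zero_le _) hn
  rw [psi_zero] at this
  simpa using this

lemma log_conc (j n : ℕ) (hj : 1 ≤ j) (hjn : j ≤ n) :
    (j : ℝ) / n * Real.log (1 + n) ≤ Real.log (1 + j) := by
  have hn0 : (0 : ℝ) < n := by exact_mod_cast (by omega : 0 < n)
  have hj' : (j : ℝ) ≤ n := by exact_mod_cast hjn
  have h := rpow_one_add_le_one_add_mul_self (s := (n : ℝ)) (p := (j : ℝ) / n)
    (by linarith) (by positivity) ((div_le_one hn0).2 hj')
  rw [div_mul_cancel₀ _ hn0.ne'] at h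
  have h2 := Real.log_le_log (by positivity) h
  rwa [Real.log_rpow (by positivity)] at h2

/-- the condition of the ballot bound -/
lemma psi_cond (K j n : ℕ) (hj : 1 ≤ j) (hjn : j ≤ n) (hn : n ≤ K) :
    (j : ℝ) / n * psi K n - c0 * Real.log (1 + min (j : ℝ) (n - j)) ≤ psi K j := by
  have hn0 : (0 : ℝ) < n := by exact_mod_cast (by omega : 0 < n)
  have hj' : (j : ℝ) ≤ n := by exact_mod_cast hjn
  have hc := c0_pos
  rcases le_total (j : ℝ) ((n : ℝ) - j) with h | h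
  · rw [min_eq_left h]
    have e1 := psi_le K n hn
    have e2 := log_conc j n hj hjn
    have e3 := psi_nonneg K j (hjn.trans hn)
    have e4 : (j : ℝ) / n * psi K n ≤ (j : ℝ) / n * (c0 * Real.log (1 + n)) :=
      mul_le_mul_of_nonneg_left e1 (by positivity)
    have e5 : c0 * ((j : ℝ) / n * Real.log (1 + n)) ≤ c0 * Real.log (1 + j) :=
      mul_le_mul_of_nonneg_left e2 hc.le
    have e6 : (j : ℝ) / n * (c0 * Real.log (1 + n)) = c0 * ((j : ℝ) / n * Real.log (1 + n)) := by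
      ring
    linarith
  · rw [min_eq_right h]
    have e1 := psi_diff K j n hjn hn
    have e2 := psi_nonneg K n hn
    have e3 : (j : ℝ) / n * psi K n ≤ psi K n :=
      mul_le_of_le_one_left e2 ((div_le_one hn0).2 hj')
    linarith

lemma log_sq (n : ℕ) : (Real.log (1 + n)) ^ 2 ≤ 4 * n := by
  have h0 : (0 : ℝ) ≤ n := Nat.cast_nonneg n
  have h1 : Real.log (1 + n) = 2 * Real.log (Real.sqrt (1 + n)) := by
    rw [Real.log_sqrt (by positivity)]
    ring
  have h2 : 0 ≤ Real.log (Real.sqrt (1 + n)) := by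
    refine Real.log_nonneg ?_
    rw [show (1 : ℝ) = Real.sqrt 1 by simp]
    exact Real.sqrt_le_sqrt (by simp)
  have h3 : Real.log (Real.sqrt (1 + n)) ≤ Real.sqrt (1 + n) - 1 :=
    Real.log_le_sub_one_of_pos (by positivity)
  have h4 : Real.sqrt (1 + n) ≤ 1 + Real.sqrt n := by
    refine Real.sqrt_le_iff.2 ⟨by positivity, ?_⟩
    have := Real.sq_sqrt h0
    nlinarith [Real.sqrt_nonneg (n : ℝ)]
  have h5 : Real.log (Real.sqrt (1 + n)) ≤ Real.sqrt n := by linarith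
  have h6 : (Real.log (Real.sqrt (1 + n))) ^ 2 ≤ n := by
    have := pow_le_pow_left₀ h2 h5 2
    rwa [Real.sq_sqrt h0] at this
  rw [h1]
  nlinarith

/-- tail of the last step -/
lemma tail1 (a d d0 : ℝ) (ha : 0 ≤ a) (hd : 0 ≤ d) (hd0 : d ≤ d0) :
    gaussianReal 0 1 (Set.Ici (a - d)) ≤
      ENNReal.ofReal (Real.exp (3 * d0 ^ 2 / 2 - 3 / 8 * a ^ 2)) := by
  rcases le_total d a with h | h
  · refine (gauss_tail (by linarith)).trans (ENNReal.ofReal_le_ofReal (Real.exp_le_exp.2 ?_))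
    have h2 : d ^ 2 ≤ d0 ^ 2 := pow_le_pow_left₀ hd hd0 2
    nlinarith [sq_nonneg (a - 4 * d)]
  · refine (prob_le_one (μ := gaussianReal 0 1)).trans ?_
    rw [← ENNReal.ofReal_one]
    refine ENNReal.ofReal_le_ofReal ?_
    rw [← Real.exp_zero]
    refine Real.exp_le_exp.2 ?_
    have h2 : a ^ 2 ≤ d0 ^ 2 := pow_le_pow_left₀ ha (h.trans hd0) 2
    nlinarith [sq_nonneg d0]

/-- Gaussian integral against the density of the position -/
lemma dens (n : ℕ) (hn : 1 ≤ n) (xx C D0 T ψ : ℝ) (hx : 0 ≤ xx) (hC : 0 < C) (hT : T = xx - ψ)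
    (B : ℝ) (hψ : ψ ^ 2 ≤ 4 * n * B) :
    ∫⁻ s in Set.Iic T, ENNReal.ofReal (C * (1 + xx) * (1 + (T - s)) / n) *
        ENNReal.ofReal (Real.exp (D0 - 3 / 8 * (T - s) ^ 2)) ∂gaussianReal 0 n ≤
      ENNReal.ofReal (C * (1 + xx) / (n * Real.sqrt n) * Real.exp (-xx ^ 2 / (10 * n)) *
        (Real.exp (B + D0 + 4) * Real.sqrt (16 * Real.pi))) := by
  have hn0 : (0 : ℝ) < n := by exact_mod_cast hn
  have hn1 : (1 : ℝ) ≤ n := by exact_mod_cast hn
  have hv : (n : NNReal) ≠ 0 := by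
    have : n ≠ 0 := by omega
    exact_mod_cast this
  rw [gaussianReal_of_var_ne_zero _ hv]
  have hm : Measurable (fun s : ℝ => ENNReal.ofReal (C * (1 + xx) * (1 + (T - s)) / n) *
        ENNReal.ofReal (Real.exp (D0 - 3 / 8 * (T - s) ^ 2))) := by fun_prop
  rw [setLIntegral_withDensity_eq_setLIntegral_mul _ (measurable_gaussianPDF _ _) hm
    measurableSet_Iic]
  set E : ℝ := C * (1 + xx) / (n * Real.sqrt n) * Real.exp (-xx ^ 2 / (10 * n)) *
        Real.exp (B + D0 + 4) with hE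
  have hE0 : 0 ≤ E := by positivity
  have hpt : ∀ s ∈ Set.Iic T, (gaussianPDF 0 n * fun s : ℝ =>
      ENNReal.ofReal (C * (1 + xx) * (1 + (T - s)) / n) *
        ENNReal.ofReal (Real.exp (D0 - 3 / 8 * (T - s) ^ 2))) s ≤
      ENNReal.ofReal (E * Real.exp (-(1 / 16) * (T - s) ^ 2)) := by
    intro s hs
    have ha : 0 ≤ T - s := sub_nonneg.2 hs
    simp only [Pi.mul_apply]
    rw [gaussianPDF, ← ENNReal.ofReal_mul (by positivity),
      ← ENNReal.ofReal_mul (gaussianPDFReal_nonneg _ _ _)]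
    refine ENNReal.ofReal_le_ofReal ?_
    rw [gaussianPDFReal, NNReal.coe_natCast, sub_zero]
    have e1 : (Real.sqrt (2 * Real.pi * n))⁻¹ ≤ (Real.sqrt n)⁻¹ := by
      refine inv_anti₀ (Real.sqrt_pos.2 hn0) (Real.sqrt_le_sqrt ?_)
      nlinarith [Real.pi_gt_three]
    have e2 : 1 + (T - s) ≤ Real.exp (T - s) := by
      have := Real.add_one_le_exp (T - s)
      linarith
    have e3 : -s ^ 2 / (2 * n) + (T - s) + (D0 - 3 / 8 * (T - s) ^ 2) ≤
        -xx ^ 2 / (10 * n) + (B + D0 + 4) + -(1 / 16) * (T - s) ^ 2 := by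
      -- s = xx - ψ - a
      have hs' : s = xx - ψ - (T - s) := by rw [hT]; ring
      set a : ℝ := T - s with hadef
      have f1 : -s ^ 2 / (2 * n) ≤ -xx ^ 2 / (10 * n) + B + a ^ 2 / 4 := by
        have f2 : xx ^ 2 / 5 - (ψ ^ 2 + a ^ 2) / 2 ≤ s ^ 2 := by
          rw [hs']
          nlinarith [sq_nonneg (4 * xx - 5 * (ψ + a)), sq_nonneg (ψ - a)]
        have f3 : -s ^ 2 / (2 * n) ≤ (-(xx ^ 2 / 5) + (ψ ^ 2 + a ^ 2) / 2) / (2 * n) := by
          gcongr
          linarith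
        refine f3.trans ?_
        have f4 : (-(xx ^ 2 / 5) + (ψ ^ 2 + a ^ 2) / 2) / (2 * n) =
            -xx ^ 2 / (10 * n) + ψ ^ 2 / (4 * n) + a ^ 2 / (4 * n) := by
          field_simp
          ring
        rw [f4]
        have f5 : ψ ^ 2 / (4 * n) ≤ B := by
          rw [div_le_iff₀ (by positivity)]
          linarith
        have f6 : a ^ 2 / (4 * n) ≤ a ^ 2 / 4 := by
          gcongr
          linarith
        linarith
      nlinarith [sq_nonneg (a - 8)]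
    calc (Real.sqrt (2 * Real.pi * n))⁻¹ * Real.exp (-s ^ 2 / (2 * n)) *
        (C * (1 + xx) * (1 + (T - s)) / n * Real.exp (D0 - 3 / 8 * (T - s) ^ 2))
        ≤ (Real.sqrt n)⁻¹ * Real.exp (-s ^ 2 / (2 * n)) *
        (C * (1 + xx) * Real.exp (T - s) / n * Real.exp (D0 - 3 / 8 * (T - s) ^ 2)) := by
          gcongr
      _ = C * (1 + xx) / (n * Real.sqrt n) *
          Real.exp (-s ^ 2 / (2 * n) + (T - s) + (D0 - 3 / 8 * (T - s) ^ 2)) := by
          rw [Real.exp_add, Real.exp_add]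
          field_simp
      _ ≤ C * (1 + xx) / (n * Real.sqrt n) *
          Real.exp (-xx ^ 2 / (10 * n) + (B + D0 + 4) + -(1 / 16) * (T - s) ^ 2) := by
          gcongr
      _ = E * Real.exp (-(1 / 16) * (T - s) ^ 2) := by
          rw [Real.exp_add, Real.exp_add, hE]
          ring
  refine (setLIntegral_mono (by fun_prop) hpt).trans ?_
  refine (setLIntegral_le_lintegral _ _).trans ?_
  have hI : Integrable (fun s : ℝ => E * Real.exp (-(1 / 16) * s ^ 2)) :=
    (integrable_exp_neg_mul_sq (by norm_num)).const_mul E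
  have h1 : ∫⁻ s : ℝ, ENNReal.ofReal (E * Real.exp (-(1 / 16) * (T - s) ^ 2)) =
      ∫⁻ s : ℝ, ENNReal.ofReal (E * Real.exp (-(1 / 16) * s ^ 2)) :=
    lintegral_sub_left_eq_self (fun s : ℝ => ENNReal.ofReal (E * Real.exp (-(1 / 16) * s ^ 2))) T
  rw [h1, ← ofReal_integral_eq_lintegral_ofReal hI (Filter.Eventually.of_forall fun s => by
    positivity)]
  refine ENNReal.ofReal_le_ofReal (le_of_eq ?_)
  rw [integral_const_mul, integral_gaussian, hE]
  have : Real.pi / (1 / 16) = 16 * Real.pi := by ring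
  rw [this]
  ring

lemma pow32 (z : ℝ) (hz : 0 < z) : z ^ (3 / 2 : ℝ) = z * Real.sqrt z := by
  rw [show (3 / 2 : ℝ) = 1 + 1 / 2 by norm_num, Real.rpow_add hz, Real.rpow_one,
    Real.sqrt_eq_rpow]

/-- the event of the first violation at level r -/
def EvT (K r : ℕ) (x : ℝ) : Set (Fin r → ℝ) :=
  {g : Fin r → ℝ | (∀ j : ℕ, 1 ≤ j → j < r → sv * ps g j ≤ x - psi K j) ∧
      x - psi K r < sv * ps g r}

lemma measurableSet_EvT (K r : ℕ) (x : ℝ) : MeasurableSet (EvT K r x) := by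
  have : EvT K r x = (⋂ j : ℕ, ⋂ _ : 1 ≤ j, ⋂ _ : j < r, {g : Fin r → ℝ |
      sv * ps g j ≤ x - psi K j}) ∩ {g | x - psi K r < sv * ps g r} := by
    ext g
    simp only [EvT, Set.mem_ofPred_eq, Set.mem_inter_iff, Set.mem_iInter]
  rw [this]
  refine MeasurableSet.inter ?_ (measurableSet_lt measurable_const
    ((measurable_ps r).const_mul sv))
  exact MeasurableSet.iInter fun j => MeasurableSet.iInter fun _ => MeasurableSet.iInter fun _ =>
    measurableSet_le ((measurable_ps j).const_mul sv) measurable_const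

lemma Ga1 (t : ℝ) : Ga (Fin 1) {b | t ≤ b 0} = gaussianReal 0 1 (Set.Ici t) := by
  rw [← map_coord (0 : Fin 1), Measure.map_apply (measurable_pi_apply 0) measurableSet_Ici]
  rfl

lemma step_le (K n : ℕ) (hn : n + 1 ≤ K) : psi K (n + 1) / sv - psi K n / sv ≤ c0 * sv := by
  have h1 := psi_diff K n (n + 1) (by omega) hn
  have h2 : (1 : ℝ) + (((n + 1 : ℕ) : ℝ) - n) = 2 := by push_cast; ring
  rw [h2] at h1
  rw [← sub_div, div_le_iff₀ sv_pos]
  have : c0 * sv * sv = c0 * Real.log 2 := by rw [← sv_sq]; ring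
  linarith

lemma step_nonneg (K n : ℕ) (hn : n + 1 ≤ K) : 0 ≤ psi K (n + 1) / sv - psi K n / sv := by
  have h1 := psi_mono K n (n + 1) (by omega) hn
  rw [← sub_div]
  exact div_nonneg (by linarith) sv_pos.le

/-- probability of the event, first level -/
lemma level1 (K : ℕ) (x : ℝ) (hx : 0 ≤ x) (hK : 1 ≤ K) :
    Ga (Fin 1) (EvT K 1 x) ≤
      ENNReal.ofReal (Real.exp (3 * (c0 * sv) ^ 2 / 2 - 3 / 8 * (x / sv) ^ 2)) := by
  have h1 := step_le K 0 (by omega)
  have h2 := step_nonneg K 0 (by omega)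
  rw [psi_zero, zero_div, sub_zero] at h1 h2
  refine le_trans ?_ (tail1 (x / sv) (psi K (0 + 1) / sv) (c0 * sv)
    (div_nonneg hx sv_pos.le) h2 h1)
  rw [← Ga1]
  refine measure_mono ?_
  rintro g ⟨_, hg⟩
  have h3 : ps g 1 = g 0 := by
    rw [ps_full]
    simp
  rw [h3] at hg
  simp only [Set.mem_ofPred_eq]
  rw [← sub_div, div_le_iff₀ sv_pos]
  simp only [zero_add]
  linarith

/-- probability of the event, later levels -/
lemma level (hB : S_BRG) : ∃ C : ℝ, 0 < C ∧ ∀ (K n : ℕ) (x : ℝ), 0 ≤ x → 1 ≤ n → n + 1 ≤ K →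
    Ga (Fin (n + 1)) (EvT K (n + 1) x) ≤
      ENNReal.ofReal (C * (1 + x) / (n * Real.sqrt n) *
        Real.exp (-(1 / (10 * vv) * x ^ 2 / n))) := by
  obtain ⟨C, hC, hBR⟩ := hB (c0 / sv) (div_pos c0_pos sv_pos).le
  have hsv := sv_pos
  have hsv1 : sv ≤ 1 := by
    have : sv ^ 2 ≤ 1 := by
      rw [sv_sq]
      have := Real.log_two_lt_d9
      linarith
    nlinarith
  set D0 : ℝ := 3 * (c0 * sv) ^ 2 / 2 with hD0
  set B : ℝ := (c0 / sv) ^ 2 with hBdef
  refine ⟨C / sv * (Real.exp (B + D0 + 4) * Real.sqrt (16 * Real.pi)), by positivity, ?_⟩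
  intro K n x hx hn hnK
  have hn0 : (0 : ℝ) < n := by exact_mod_cast hn
  set xx : ℝ := x / sv with hxx
  have hxx0 : 0 ≤ xx := by positivity
  set ψ : ℕ → ℝ := fun j => psi K j / sv with hψ
  set T : ℝ := xx - ψ n with hT
  set h : ℝ → ENNReal := fun s => ENNReal.ofReal (Real.exp (D0 - 3 / 8 * (T - s) ^ 2)) with hh
  have hhm : Measurable h := by rw [hh]; fun_prop
  have key := hBR n xx ψ hn hxx0 (by
    intro j hj1 hj2
    have := psi_cond K j n hj1 hj2 (by omega)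
    simp only [hψ]
    have e : (j : ℝ) / n * (psi K n / sv) - c0 / sv * Real.log (1 + min (j : ℝ) (n - j)) =
      ((j : ℝ) / n * psi K n - c0 * Real.log (1 + min (j : ℝ) (n - j))) / sv := by ring
    rw [e]
    exact div_le_div_of_nonneg_right this hsv.le) h hhm
  have hdens := dens n hn xx C D0 T (ψ n) hxx0 hC rfl B (by
    have h1 := psi_le K n (by omega)
    have h2 := psi_nonneg K n (by omega)
    have h3 := log_sq n
    have h4 : psi K n ^ 2 ≤ (c0 * Real.log (1 + n)) ^ 2 := pow_le_pow_left₀ h2 h1 2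
    simp only [hψ, hBdef]
    rw [div_pow, div_pow]
    have h5 : psi K n ^ 2 ≤ c0 ^ 2 * (4 * n) := by
      rw [mul_pow] at h4
      exact h4.trans (mul_le_mul_of_nonneg_left h3 (sq_nonneg _))
    calc psi K n ^ 2 / sv ^ 2 ≤ c0 ^ 2 * (4 * n) / sv ^ 2 := by gcongr
      _ = 4 * n * (c0 ^ 2 / sv ^ 2) := by ring)
  have hE := measurableSet_EvT K (n + 1) x
  have hmain : Ga (Fin (n + 1)) (EvT K (n + 1) x) ≤
      ∫⁻ g : Fin n → ℝ, Set.indicator {g : Fin n → ℝ | ∀ j : ℕ, 1 ≤ j → j ≤ n →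
        ps g j ≤ xx - ψ j} (fun g => h (ps g n)) g ∂Ga (Fin n) := by
    rw [← (mp_append n 1).measure_preimage hE.nullMeasurableSet,
      Measure.prod_apply (measurable_app n 1 hE)]
    refine lintegral_mono fun a => ?_
    by_cases ha : a ∈ {g : Fin n → ℝ | ∀ j : ℕ, 1 ≤ j → j ≤ n → ps g j ≤ xx - ψ j}
    · rw [Set.indicator_of_mem ha]
      have haT : 0 ≤ T - ps a n := by
        have := ha n hn le_rfl
        linarith
      refine le_trans ?_ (tail1 (T - ps a n) (ψ (n + 1) - ψ n) (c0 * sv) haT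
        (step_nonneg K n hnK) (step_le K n hnK))
      rw [← Ga1]
      refine measure_mono ?_
      rintro b ⟨_, hb⟩
      simp only at hb
      rw [ps_append_right] at hb
      have h3 : ps b 1 = b 0 := by
        rw [ps_full]
        simp
      rw [h3] at hb
      simp only [Set.mem_ofPred_eq, hT, hψ, hxx]
      have e : x / sv - psi K n / sv - ps a n - (psi K (n + 1) / sv - psi K n / sv) =
        (x - psi K (n + 1)) / sv - ps a n := by ring
      rw [e, sub_le_iff_le_add, div_le_iff₀ hsv]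
      linarith
    · rw [Set.indicator_of_notMem ha]
      refine le_of_eq (measure_mono_null (t := ∅) ?_ measure_empty)
      rintro b ⟨hb, _⟩
      exfalso
      apply ha
      intro j hj1 hj2
      have := hb j hj1 (by omega)
      simp only at this
      rw [ps_append_left _ _ hj2] at this
      simp only [hxx, hψ]
      rw [← sub_div, le_div_iff₀ hsv]
      linarith
  refine hmain.trans (key.trans (hdens.trans (ENNReal.ofReal_le_ofReal ?_)))
  have e1 : C * (1 + xx) ≤ C / sv * (1 + x) := by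
    have : 1 + xx ≤ 1 / sv * (1 + x) := by
      rw [hxx, mul_add, mul_one, one_div_mul_eq_div]
      have : 1 ≤ 1 / sv := by rw [le_div_iff₀ hsv]; linarith
      linarith
    calc C * (1 + xx) ≤ C * (1 / sv * (1 + x)) := by gcongr
      _ = C / sv * (1 + x) := by ring
  have e2 : -xx ^ 2 / (10 * n) = -(1 / (10 * vv) * x ^ 2 / n) := by
    rw [hxx, div_pow, sv_sq]
    unfold vv
    have : Real.log 2 ≠ 0 := (Real.log_pos one_lt_two).ne'
    field_simp
  rw [e2]
  calc C * (1 + xx) / (n * Real.sqrt n) * Real.exp (-(1 / (10 * vv) * x ^ 2 / n)) *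
      (Real.exp (B + D0 + 4) * Real.sqrt (16 * Real.pi)) ≤
      C / sv * (1 + x) / (n * Real.sqrt n) * Real.exp (-(1 / (10 * vv) * x ^ 2 / n)) *
      (Real.exp (B + D0 + 4) * Real.sqrt (16 * Real.pi)) := by gcongr
    _ = C / sv * (Real.exp (B + D0 + 4) * Real.sqrt (16 * Real.pi)) * (1 + x) /
      (n * Real.sqrt n) * Real.exp (-(1 / (10 * vv) * x ^ 2 / n)) := by ring

/-- probability of the event, all levels -/
lemma levels (hB : S_BRG) : ∃ C : ℝ, 0 < C ∧ ∀ (K r : ℕ) (x : ℝ), 0 ≤ x → 1 ≤ r → r ≤ K →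
    Ga (Fin r) (EvT K r x) ≤
      ENNReal.ofReal (C * (1 + x) * (2 / (r : ℝ)) ^ (3 / 2 : ℝ) *
        Real.exp (-(1 / (10 * vv)) * x ^ 2 / (K + 1))) := by
  obtain ⟨C, hC, hL⟩ := level hB
  have hvv : 0 < vv := Real.log_pos one_lt_two
  refine ⟨C + Real.exp (3 * (c0 * sv) ^ 2 / 2), by positivity, ?_⟩
  intro K r x hx hr hrK
  have hK1 : (1 : ℝ) ≤ K := by exact_mod_cast (le_trans hr hrK)
  rcases Nat.lt_or_ge r 2 with h | h
  · obtain rfl : r = 1 := by omega
    refine (level1 K x hx hrK).trans (ENNReal.ofReal_le_ofReal ?_)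
    rw [sub_eq_add_neg, Real.exp_add]
    have e1 : Real.exp (-(3 / 8 * (x / sv) ^ 2)) ≤
        Real.exp (-(1 / (10 * vv)) * x ^ 2 / (K + 1)) := by
      refine Real.exp_le_exp.2 ?_
      rw [div_pow, sv_sq]
      change -(3 / 8 * (x ^ 2 / vv)) ≤ _
      have f1 : -(1 / (10 * vv)) * x ^ 2 / (K + 1) = -(x ^ 2 / vv / (10 * (K + 1))) := by
        field_simp
      rw [f1, neg_le_neg_iff, div_le_iff₀ (by positivity)]
      have : 0 ≤ x ^ 2 / vv := by positivity
      nlinarith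
    have e2 : (1 : ℝ) ≤ (2 / ((1 : ℕ) : ℝ)) ^ (3 / 2 : ℝ) :=
      Real.one_le_rpow (by norm_num) (by norm_num)
    have e3 : Real.exp (3 * (c0 * sv) ^ 2 / 2) ≤ (C + Real.exp (3 * (c0 * sv) ^ 2 / 2)) * (1 + x) *
        (2 / ((1 : ℕ) : ℝ)) ^ (3 / 2 : ℝ) := by
      have f1 : Real.exp (3 * (c0 * sv) ^ 2 / 2) ≤ (C + Real.exp (3 * (c0 * sv) ^ 2 / 2)) * (1 + x) := by
        have := Real.exp_pos (3 * (c0 * sv) ^ 2 / 2)
        nlinarith
      exact f1.trans (le_mul_of_one_le_right (by positivity) e2)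
    exact mul_le_mul e3 e1 (Real.exp_pos _).le (by positivity)
  · obtain ⟨n, rfl⟩ : ∃ n, r = n + 1 := ⟨r - 1, by omega⟩
    have hn1 : 1 ≤ n := by omega
    have hn0 : (0 : ℝ) < n := by exact_mod_cast hn1
    refine (hL K n x hx hn1 hrK).trans (ENNReal.ofReal_le_ofReal ?_)
    have e1 : 1 / (n * Real.sqrt n) ≤ (2 / ((n + 1 : ℕ) : ℝ)) ^ (3 / 2 : ℝ) := by
      have f1 : 1 / (n * Real.sqrt n) = (1 / (n : ℝ)) ^ (3 / 2 : ℝ) := by
        rw [pow32 _ (by positivity), Real.sqrt_div (by norm_num), Real.sqrt_one]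
        field_simp
      rw [f1]
      refine Real.rpow_le_rpow (by positivity) ?_ (by norm_num)
      rw [div_le_div_iff₀ hn0 (by positivity)]
      push_cast
      have : (1 : ℝ) ≤ n := by exact_mod_cast hn1
      linarith
    have e2 : Real.exp (-(1 / (10 * vv) * x ^ 2 / n)) ≤
        Real.exp (-(1 / (10 * vv)) * x ^ 2 / (K + 1)) := by
      refine Real.exp_le_exp.2 ?_
      have f1 : -(1 / (10 * vv)) * x ^ 2 / (K + 1) = -(1 / (10 * vv) * x ^ 2 / (K + 1)) := by ring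
      rw [f1, neg_le_neg_iff]
      have : (n : ℝ) ≤ K + 1 := by
        have : n ≤ K + 1 := by omega
        exact_mod_cast this
      gcongr
    calc C * (1 + x) / (n * Real.sqrt n) * Real.exp (-(1 / (10 * vv) * x ^ 2 / n)) =
        C * (1 + x) * (1 / (n * Real.sqrt n)) * Real.exp (-(1 / (10 * vv) * x ^ 2 / n)) := by ring
      _ ≤ (C + Real.exp (3 * (c0 * sv) ^ 2 / 2)) * (1 + x) *
        (2 / ((n + 1 : ℕ) : ℝ)) ^ (3 / 2 : ℝ) * Real.exp (-(1 / (10 * vv)) * x ^ 2 / (K + 1)) := by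
        gcongr
        have := Real.exp_pos (3 * (c0 * sv) ^ 2 / 2)
        linarith

lemma exp_psi (K r : ℕ) (hr : r ≤ K) :
    Real.exp (Real.sqrt 2 * psi K r) = (((K : ℝ) + 1) / ((K : ℝ) - r + 1)) ^ (3 / 2 : ℝ) := by
  have h1 : (r : ℝ) ≤ K := by exact_mod_cast hr
  have h2 : (0 : ℝ) < (K : ℝ) - r + 1 := by linarith
  unfold psi c0
  rw [Real.rpow_def_of_pos (by positivity)]
  congr 1
  have h3 : Real.sqrt 2 ≠ 0 := (Real.sqrt_pos.2 two_pos).ne'
  field_simp

lemma split32 (u v : ℝ) (hu : 0 < u) (hv : 0 < v) :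
    (2 * (u + v)) ^ (3 / 2 : ℝ) ≤ 8 * (u ^ (3 / 2 : ℝ) + v ^ (3 / 2 : ℝ)) := by
  have h4 : (4 : ℝ) ^ (3 / 2 : ℝ) = 8 := by
    rw [pow32 4 (by norm_num), show (4 : ℝ) = 2 ^ 2 by norm_num, Real.sqrt_sq (by norm_num)]
    norm_num
  have hu' : 0 ≤ u ^ (3 / 2 : ℝ) := by positivity
  have hv' : 0 ≤ v ^ (3 / 2 : ℝ) := by positivity
  rcases le_total u v with h | h
  · calc (2 * (u + v)) ^ (3 / 2 : ℝ) ≤ (4 * v) ^ (3 / 2 : ℝ) :=
        Real.rpow_le_rpow (by positivity) (by linarith) (by norm_num)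
      _ = 8 * v ^ (3 / 2 : ℝ) := by rw [Real.mul_rpow (by norm_num) hv.le, h4]
      _ ≤ _ := by linarith
  · calc (2 * (u + v)) ^ (3 / 2 : ℝ) ≤ (4 * u) ^ (3 / 2 : ℝ) :=
        Real.rpow_le_rpow (by positivity) (by linarith) (by norm_num)
      _ = 8 * u ^ (3 / 2 : ℝ) := by rw [Real.mul_rpow (by norm_num) hu.le, h4]
      _ ≤ _ := by linarith

end TBVa

open TBVa in
theorem TBV (hBRG : S_BRG) : S_TBV := by
  obtain ⟨C, hC, hL⟩ := levels hBRG
  have hvv : 0 < vv := Real.log_pos one_lt_two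
  have hS : Summable (fun n : ℕ => (1 / (n : ℝ)) ^ (3 / 2 : ℝ)) := by
    have h := Real.summable_one_div_nat_rpow.2 (by norm_num : (1 : ℝ) < 3 / 2)
    refine h.congr fun n => ?_
    rw [Real.div_rpow zero_le_one (Nat.cast_nonneg n), Real.one_rpow]
  set Z : ℝ := ∑' n : ℕ, (1 / (n : ℝ)) ^ (3 / 2 : ℝ) with hZ
  have hZ0 : 0 ≤ Z := tsum_nonneg fun n => by positivity
  refine ⟨C * (16 * Z + 1), 1 / (10 * vv), by positivity, by positivity, ?_⟩
  intro K x hx
  set W : ℝ := C * (1 + x) * Real.exp (-(Real.sqrt 2 * x)) *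
    Real.exp (-(1 / (10 * vv)) * x ^ 2 / (K + 1)) with hW
  have hW0 : 0 ≤ W := by positivity
  have hterm : ∀ r ∈ Finset.Icc 1 K, ∫⁻ g : Fin r → ℝ,
      Set.indicator {g : Fin r → ℝ | (∀ j : ℕ, 1 ≤ j → j < r → sv * ps g j ≤ x - psi K j) ∧
        x - psi K r < sv * ps g r}
        (fun g => ENNReal.ofReal (Real.exp (-(Real.sqrt 2 * sv * ps g r)))) g ∂Ga (Fin r) ≤
      ENNReal.ofReal (W * (8 * ((1 / (r : ℝ)) ^ (3 / 2 : ℝ) +
        (1 / ((K : ℝ) - r + 1)) ^ (3 / 2 : ℝ)))) := by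
    intro r hr
    obtain ⟨hr1, hrK⟩ := Finset.mem_Icc.1 hr
    have hr0 : (0 : ℝ) < r := by exact_mod_cast hr1
    have hrK' : (r : ℝ) ≤ K := by exact_mod_cast hrK
    have hq : (0 : ℝ) < (K : ℝ) - r + 1 := by linarith
    have h1 : ∫⁻ g : Fin r → ℝ,
      Set.indicator {g : Fin r → ℝ | (∀ j : ℕ, 1 ≤ j → j < r → sv * ps g j ≤ x - psi K j) ∧
        x - psi K r < sv * ps g r}
        (fun g => ENNReal.ofReal (Real.exp (-(Real.sqrt 2 * sv * ps g r)))) g ∂Ga (Fin r) ≤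
        ∫⁻ g : Fin r → ℝ, Set.indicator (EvT K r x)
          (fun _ => ENNReal.ofReal (Real.exp (-(Real.sqrt 2 * (x - psi K r))))) g ∂Ga (Fin r) := by
      refine lintegral_mono fun g => ?_
      change Set.indicator (EvT K r x) (fun g => ENNReal.ofReal (Real.exp
        (-(Real.sqrt 2 * sv * ps g r)))) g ≤ _
      by_cases hg : g ∈ EvT K r x
      · rw [Set.indicator_of_mem hg, Set.indicator_of_mem hg]
        refine ENNReal.ofReal_le_ofReal (Real.exp_le_exp.2 ?_)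
        have h2 : x - psi K r < sv * ps g r := hg.2
        have h3 : 0 < Real.sqrt 2 := Real.sqrt_pos.2 two_pos
        have h4 := mul_lt_mul_of_pos_left h2 h3
        have h5 : Real.sqrt 2 * sv * ps g r = Real.sqrt 2 * (sv * ps g r) := by ring
        rw [h5]
        linarith
      · rw [Set.indicator_of_notMem hg, Set.indicator_of_notMem hg]
    refine h1.trans ?_
    rw [lintegral_indicator_const (measurableSet_EvT K r x)]
    refine (mul_le_mul_right (hL K r x hx hr1 hrK) _).trans ?_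
    rw [← ENNReal.ofReal_mul (by positivity)]
    refine ENNReal.ofReal_le_ofReal ?_
    have h2 : Real.exp (-(Real.sqrt 2 * (x - psi K r))) =
        Real.exp (-(Real.sqrt 2 * x)) * (((K : ℝ) + 1) / ((K : ℝ) - r + 1)) ^ (3 / 2 : ℝ) := by
      rw [← exp_psi K r hrK, ← Real.exp_add]
      congr 1
      ring
    rw [h2]
    have h3 : (((K : ℝ) + 1) / ((K : ℝ) - r + 1)) ^ (3 / 2 : ℝ) * (2 / (r : ℝ)) ^ (3 / 2 : ℝ) ≤
        8 * ((1 / (r : ℝ)) ^ (3 / 2 : ℝ) + (1 / ((K : ℝ) - r + 1)) ^ (3 / 2 : ℝ)) := by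
      rw [← Real.mul_rpow (by positivity) (by positivity)]
      refine le_trans (le_of_eq ?_) (split32 (1 / (r : ℝ)) (1 / ((K : ℝ) - r + 1))
        (by positivity) (by positivity))
      congr 1
      field_simp
      ring
    calc Real.exp (-(Real.sqrt 2 * x)) * (((K : ℝ) + 1) / ((K : ℝ) - r + 1)) ^ (3 / 2 : ℝ) *
        (C * (1 + x) * (2 / (r : ℝ)) ^ (3 / 2 : ℝ) *
          Real.exp (-(1 / (10 * vv)) * x ^ 2 / (K + 1))) = W *
        ((((K : ℝ) + 1) / ((K : ℝ) - r + 1)) ^ (3 / 2 : ℝ) * (2 / (r : ℝ)) ^ (3 / 2 : ℝ)) := by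
          rw [hW]
          ring
      _ ≤ _ := mul_le_mul_of_nonneg_left h3 hW0
  refine (Finset.sum_le_sum hterm).trans ?_
  rw [← ENNReal.ofReal_sum_of_nonneg (fun r hr => by
    obtain ⟨hr1, hrK⟩ := Finset.mem_Icc.1 hr
    have hrK' : (r : ℝ) ≤ K := by exact_mod_cast hrK
    have hq : (0 : ℝ) < (K : ℝ) - r + 1 := by linarith
    positivity)]
  refine ENNReal.ofReal_le_ofReal ?_
  rw [← Finset.mul_sum, ← Finset.mul_sum, Finset.sum_add_distrib]
  have s1 : ∑ r ∈ Finset.Icc 1 K, (1 / (r : ℝ)) ^ (3 / 2 : ℝ) ≤ Z :=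
    hS.sum_le_tsum _ fun n _ => by positivity
  have s2 : ∑ r ∈ Finset.Icc 1 K, (1 / ((K : ℝ) - r + 1)) ^ (3 / 2 : ℝ) =
      ∑ r ∈ Finset.Icc 1 K, (1 / (r : ℝ)) ^ (3 / 2 : ℝ) := by
    refine Finset.sum_bij' (fun r _ => K + 1 - r) (fun r _ => K + 1 - r) ?_ ?_ ?_ ?_ ?_
    · intro r hr
      rw [Finset.mem_Icc] at hr ⊢
      omega
    · intro r hr
      rw [Finset.mem_Icc] at hr ⊢
      omega
    · intro r hr
      rw [Finset.mem_Icc] at hr
      show K + 1 - (K + 1 - r) = r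
      omega
    · intro r hr
      rw [Finset.mem_Icc] at hr
      show K + 1 - (K + 1 - r) = r
      omega
    · intro r hr
      rw [Finset.mem_Icc] at hr
      show (1 / ((K : ℝ) - r + 1)) ^ (3 / 2 : ℝ) = (1 / ((K + 1 - r : ℕ) : ℝ)) ^ (3 / 2 : ℝ)
      rw [Nat.cast_sub (by omega)]
      push_cast
      congr 2
      ring
  rw [s2]
  calc W * (8 * (∑ r ∈ Finset.Icc 1 K, (1 / (r : ℝ)) ^ (3 / 2 : ℝ) +
      ∑ r ∈ Finset.Icc 1 K, (1 / (r : ℝ)) ^ (3 / 2 : ℝ))) ≤ W * (16 * Z + 1) := by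
        refine mul_le_mul_of_nonneg_left ?_ hW0
        linarith
    _ = _ := by
        rw [hW]
        ring

end PN
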