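import Pool.Agent.H24.PN.Stmts

namespace PN
open MeasureTheory Complex ProbabilityTheory PM

theorem trm_sub {ι : Type} (s : Finset ι) (u : ι → ℝ) (hu : ∀ i, 0 ≤ u i) {b : ℝ} (hb : 0 < b)
    (hb1 : b ≤ 1) : (∑ i ∈ s, u i) ^ b ≤ ∑ i ∈ s, u i ^ b := by
  classical
  induction s using Finset.induction_on with
  | empty => simp [Real.zero_rpow hb.ne']
  | insert a s ha ih =>
    rw [Finset.sum_insert ha, Finset.sum_insert ha]
    refine (Real.rpow_add_le_add_rpow (hu a) (Finset.sum_nonneg fun i _ => hu i) hb.le hb1).trans ?_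
    linarith

theorem trm_pw {ι : Type} [Fintype ι] [DecidableEq ι] (u : ι → ℝ) (hu : ∀ i, 0 ≤ u i) {q M : ℝ}
    (hq : 0 < q) (hq1 : q < 1) (hM : 0 < M) (J : Finset ι) :
    ∑ j ∈ J, u j ^ q ≤ (M + 1) ^ (1 - q) * (∑ i, u i) ^ q +
      M ^ (-(q / 2)) * ∑ j ∈ J, ∑ i ∈ Finset.univ.erase j, u j ^ (q / 2) * u i ^ (q / 2) := by
  set W := ∑ i, u i with hW
  have hW0 : 0 ≤ W := Finset.sum_nonneg fun i _ => hu i
  have hM1 : 0 < M + 1 := by linarith
  have key : ∀ j, u j ^ q ≤ (M + 1) ^ (1 - q) * (u j * W ^ (q - 1)) +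
      M ^ (-(q / 2)) * ∑ i ∈ Finset.univ.erase j, u j ^ (q / 2) * u i ^ (q / 2) := by
    intro j
    have hp1 : 0 ≤ (M + 1) ^ (1 - q) * (u j * W ^ (q - 1)) :=
      mul_nonneg (by positivity) (mul_nonneg (hu j) (Real.rpow_nonneg hW0 _))
    have hp2 : 0 ≤ M ^ (-(q / 2)) * ∑ i ∈ Finset.univ.erase j, u j ^ (q / 2) * u i ^ (q / 2) :=
      mul_nonneg (by positivity) (Finset.sum_nonneg fun i _ =>
        mul_nonneg (Real.rpow_nonneg (hu j) _) (Real.rpow_nonneg (hu i) _))
    rcases (hu j).eq_or_lt with h0 | h0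
    · have h00 : u j ^ q = 0 := by rw [← h0, Real.zero_rpow hq.ne']
      rw [h00]
      linarith
    · have hsplit : W = u j + ∑ i ∈ Finset.univ.erase j, u i := by
        rw [hW, ← Finset.add_sum_erase _ _ (Finset.mem_univ j)]
      rcases le_or_gt W ((M + 1) * u j) with h | h
      · have hWpos : 0 < W := by
          have : 0 ≤ ∑ i ∈ Finset.univ.erase j, u i := Finset.sum_nonneg fun i _ => hu i
          linarith
        have h1 : ((M + 1) * u j) ^ (q - 1) ≤ W ^ (q - 1) :=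
          Real.rpow_le_rpow_of_nonpos hWpos h (by linarith)
        have h2 : u j ^ q = (M + 1) ^ (1 - q) * (u j * ((M + 1) * u j) ^ (q - 1)) := by
          rw [Real.mul_rpow hM1.le h0.le]
          have e1 : (M + 1) ^ (1 - q) * (M + 1) ^ (q - 1) = 1 := by
            rw [← Real.rpow_add hM1]; simp
          have e2 : u j ^ q = u j ^ (q - 1) * u j := by
            rw [← Real.rpow_add_one h0.ne']; simp
          rw [e2]
          linear_combination (-(u j ^ (q - 1) * u j)) * e1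
        rw [h2]
        have h3 : (M + 1) ^ (1 - q) * (u j * ((M + 1) * u j) ^ (q - 1)) ≤
            (M + 1) ^ (1 - q) * (u j * W ^ (q - 1)) :=
          mul_le_mul_of_nonneg_left (mul_le_mul_of_nonneg_left h1 h0.le) (by positivity)
        linarith
      · have hS : M * u j ≤ ∑ i ∈ Finset.univ.erase j, u i := by
          rw [hsplit] at h; linarith
        have h1 : u j ^ (q / 2) ≤ M ^ (-(q / 2)) * ∑ i ∈ Finset.univ.erase j, u i ^ (q / 2) := by
          have h2 : (M * u j) ^ (q / 2) ≤ ∑ i ∈ Finset.univ.erase j, u i ^ (q / 2) :=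
            (Real.rpow_le_rpow (by positivity) hS (by linarith)).trans
              (trm_sub _ u hu (by linarith) (by linarith))
          rw [Real.mul_rpow hM.le h0.le] at h2
          have e1 : M ^ (-(q / 2)) * M ^ (q / 2) = 1 := by
            rw [← Real.rpow_add hM]; simp
          calc u j ^ (q / 2) = M ^ (-(q / 2)) * (M ^ (q / 2) * u j ^ (q / 2)) := by
                rw [← mul_assoc, e1, one_mul]
            _ ≤ _ := mul_le_mul_of_nonneg_left h2 (by positivity)
        have h3 : u j ^ q = u j ^ (q / 2) * u j ^ (q / 2) := by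
          rw [← Real.rpow_add h0]; congr 1; ring
        have h4 : u j ^ q ≤
            M ^ (-(q / 2)) * ∑ i ∈ Finset.univ.erase j, u j ^ (q / 2) * u i ^ (q / 2) := by
          rw [h3, ← Finset.mul_sum]
          calc u j ^ (q / 2) * u j ^ (q / 2)
              ≤ u j ^ (q / 2) * (M ^ (-(q / 2)) * ∑ i ∈ Finset.univ.erase j, u i ^ (q / 2)) :=
                mul_le_mul_of_nonneg_left h1 (by positivity)
            _ = _ := by ring
        linarith
  have hJW : (∑ j ∈ J, u j) * W ^ (q - 1) ≤ W ^ q := by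
    have hJ : ∑ j ∈ J, u j ≤ W :=
      Finset.sum_le_sum_of_subset_of_nonneg (Finset.subset_univ _) fun i _ _ => hu i
    rcases hW0.eq_or_lt with h | h
    · have h0 : ∑ j ∈ J, u j = 0 := le_antisymm (by linarith) (Finset.sum_nonneg fun i _ => hu i)
      rw [h0, zero_mul]
      exact Real.rpow_nonneg hW0 _
    · have e2 : W ^ q = W * W ^ (q - 1) := by
        rw [mul_comm, ← Real.rpow_add_one h.ne']; simp
      rw [e2]
      exact mul_le_mul_of_nonneg_right hJ (Real.rpow_nonneg hW0 _)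
  calc ∑ j ∈ J, u j ^ q ≤ ∑ j ∈ J, ((M + 1) ^ (1 - q) * (u j * W ^ (q - 1)) +
        M ^ (-(q / 2)) * ∑ i ∈ Finset.univ.erase j, u j ^ (q / 2) * u i ^ (q / 2)) :=
        Finset.sum_le_sum fun j _ => key j
    _ = (M + 1) ^ (1 - q) * ((∑ j ∈ J, u j) * W ^ (q - 1)) +
        M ^ (-(q / 2)) * ∑ j ∈ J, ∑ i ∈ Finset.univ.erase j, u j ^ (q / 2) * u i ^ (q / 2) := by
        rw [Finset.sum_add_distrib, ← Finset.mul_sum, ← Finset.mul_sum, ← Finset.sum_mul]
    _ ≤ _ := by
        have := mul_le_mul_of_nonneg_left hJW (by positivity : 0 ≤ (M + 1) ^ (1 - q))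
        linarith

theorem trm_log {ρ κ : ℝ} (hρ : 0 < ρ) (hκ : 0 < κ) :
    ∃ C : ℝ, 0 ≤ C ∧ ∀ x : ℝ, 0 ≤ x → ρ * Real.log (1 + x) ≤ κ * x + C := by
  refine ⟨|κ - ρ - ρ * Real.log (κ / ρ)|, abs_nonneg _, fun x hx => ?_⟩
  have h1 : Real.log (κ / ρ * (1 + x)) ≤ κ / ρ * (1 + x) - 1 :=
    Real.log_le_sub_one_of_pos (by positivity)
  rw [Real.log_mul (by positivity) (by positivity)] at h1
  have h2 : ρ * (Real.log (κ / ρ) + Real.log (1 + x)) ≤ ρ * (κ / ρ * (1 + x) - 1) :=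
    mul_le_mul_of_nonneg_left h1 hρ.le
  have h3 : ρ * (κ / ρ * (1 + x) - 1) = κ * (1 + x) - ρ := by field_simp
  rw [h3] at h2
  have h4 := le_abs_self (κ - ρ - ρ * Real.log (κ / ρ))
  linarith

/-- geometric sums over distances -/
theorem trm_geo {r : ℝ} (hr : 0 ≤ r) (hr1 : r < 1) (K j : ℕ) (hj : j < K) :
    ∑ i ∈ Finset.range K, r ^ ((j - i) + (i - j)) ≤ 2 / (1 - r) := by
  have hg : ∀ n : ℕ, ∑ i ∈ Finset.range n, r ^ i ≤ 1 / (1 - r) := by
    intro n
    rw [geom_sum_eq hr1.ne, ← neg_div_neg_eq, neg_sub, neg_sub]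
    exact div_le_div_of_nonneg_right (by linarith [pow_nonneg hr n]) (by linarith)
  have h1 : ∑ i ∈ Finset.range (j + 1), r ^ ((j - i) + (i - j)) ≤ 1 / (1 - r) := by
    rw [← Finset.sum_range_reflect]
    refine le_trans (le_of_eq ?_) (hg (j + 1))
    refine Finset.sum_congr rfl fun i hi => ?_
    rw [Finset.mem_range] at hi
    congr 1
    omega
  have h2 : ∑ i ∈ Finset.Ico (j + 1) K, r ^ ((j - i) + (i - j)) ≤ 1 / (1 - r) := by
    have h3 : ∑ i ∈ Finset.Ico (j + 1) K, r ^ ((j - i) + (i - j)) ≤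
        ∑ i ∈ Finset.Ico j K, r ^ ((j - i) + (i - j)) := by
      refine Finset.sum_le_sum_of_subset_of_nonneg ?_ fun i _ _ => pow_nonneg hr _
      exact Finset.Ico_subset_Ico_left (by omega)
    refine h3.trans ?_
    rw [Finset.sum_Ico_eq_sum_range]
    refine le_trans (le_of_eq ?_) (hg (K - j))
    refine Finset.sum_congr rfl fun i hi => ?_
    congr 1
    omega
  have h4 : ∑ i ∈ Finset.range K, r ^ ((j - i) + (i - j)) =
      ∑ i ∈ Finset.range (j + 1), r ^ ((j - i) + (i - j)) +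
        ∑ i ∈ Finset.Ico (j + 1) K, r ^ ((j - i) + (i - j)) := by
    rw [Finset.range_eq_Ico, Finset.range_eq_Ico, Finset.sum_Ico_consecutive _ (by omega) (by omega)]
  rw [h4]
  have : 2 / (1 - r) = 1 / (1 - r) + 1 / (1 - r) := by ring
  linarith

theorem trm_typ (be s : ℝ) (n : ℕ) : typ be n ^ s =
    Real.exp (s * (be * (Real.sqrt 2 * n * vv - c0 * Real.log ((n : ℝ) + 1)))) := by
  unfold typ
  rw [← Real.exp_mul, mul_comm]

theorem trm_four (a : ℝ) : (4 : ℝ) ^ a = Real.exp (2 * vv * a) := by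
  rw [Real.rpow_def_of_pos (by norm_num)]
  congr 2
  unfold vv
  rw [show (4 : ℝ) = 2 ^ 2 by norm_num, Real.log_pow]
  norm_num

theorem trm_tail (e : ℝ) (K1 : ℕ) : ∃ C : ℝ, 0 < C ∧ ∀ K : ℕ, K1 + 2 ≤ K →
    ∑ n ∈ Finset.Icc 1 K, (n : ℝ) ^ e ≤ C * ∑ n ∈ Finset.Icc (K1 + 1) (K - 1), (n : ℝ) ^ e := by
  set P := ∑ n ∈ Finset.Icc 1 K1, (n : ℝ) ^ e with hP
  have hP0 : 0 ≤ P := Finset.sum_nonneg fun n _ => Real.rpow_nonneg (by positivity) _
  have hK1 : 0 < ((K1 : ℝ) + 1) ^ e := Real.rpow_pos_of_pos (by positivity) _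
  refine ⟨P / ((K1 : ℝ) + 1) ^ e + 1 + (2 : ℝ) ^ |e|, by positivity, fun K hK => ?_⟩
  set S := ∑ n ∈ Finset.Icc (K1 + 1) (K - 1), (n : ℝ) ^ e with hS
  have hmem : ∀ m ∈ Finset.Icc (K1 + 1) (K - 1), (m : ℝ) ^ e ≤ S := fun m hm =>
    Finset.single_le_sum (f := fun n : ℕ => (n : ℝ) ^ e)
      (fun n _ => Real.rpow_nonneg (by positivity) _) hm
  have h1 : ((K1 : ℝ) + 1) ^ e ≤ S := by
    have := hmem (K1 + 1) (Finset.mem_Icc.mpr ⟨le_refl _, by omega⟩)
    push_cast at this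
    exact this
  have h2 : ((K : ℝ) - 1) ^ e ≤ S := by
    have := hmem (K - 1) (Finset.mem_Icc.mpr ⟨by omega, le_refl _⟩)
    rwa [Nat.cast_sub (by omega), Nat.cast_one] at this
  have hK2 : (2 : ℝ) ≤ K := by exact_mod_cast (by omega : 2 ≤ K)
  have h3 : (K : ℝ) ^ e ≤ (2 : ℝ) ^ |e| * ((K : ℝ) - 1) ^ e := by
    rcases le_or_gt 0 e with he | he
    · rw [abs_of_nonneg he, ← Real.mul_rpow (by norm_num) (by linarith)]
      exact Real.rpow_le_rpow (by linarith) (by linarith) he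
    · have h4 : (K : ℝ) ^ e ≤ ((K : ℝ) - 1) ^ e :=
        Real.rpow_le_rpow_of_nonpos (by linarith) (by linarith) he.le
      have h5 : (1 : ℝ) ≤ (2 : ℝ) ^ |e| := Real.one_le_rpow (by norm_num) (abs_nonneg _)
      have h6 : 0 ≤ ((K : ℝ) - 1) ^ e := Real.rpow_nonneg (by linarith) _
      nlinarith
  have h4 : ∑ n ∈ Finset.Icc 1 K, (n : ℝ) ^ e = P + S + (K : ℝ) ^ e := by
    have e1 : Finset.Icc 1 K = insert K (Finset.Icc 1 K1 ∪ Finset.Icc (K1 + 1) (K - 1)) := by
      ext n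
      simp only [Finset.mem_Icc, Finset.mem_insert, Finset.mem_union]
      omega
    rw [e1, Finset.sum_insert, Finset.sum_union]
    · ring
    · rw [Finset.disjoint_left]
      intro n h1 h2
      rw [Finset.mem_Icc] at h1 h2
      omega
    · simp only [Finset.mem_Icc, Finset.mem_union]
      omega
  rw [h4]
  have h5 : P ≤ P / ((K1 : ℝ) + 1) ^ e * S := by
    calc P = P / ((K1 : ℝ) + 1) ^ e * ((K1 : ℝ) + 1) ^ e := by field_simp
      _ ≤ _ := mul_le_mul_of_nonneg_left h1 (by positivity)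
  have h6 : (2 : ℝ) ^ |e| * ((K : ℝ) - 1) ^ e ≤ (2 : ℝ) ^ |e| * S :=
    mul_le_mul_of_nonneg_left h2 (by positivity)
  linarith

theorem trm_vv : 0 < vv := Real.log_pos (by norm_num)

theorem trm_c0 : 0 < c0 := by unfold c0; positivity

/-- mixed moments of two pieces against the moment of one of them -/
theorem trm_mix (hX : S_TRX) (hV : S_VMO) (be q : ℝ) (hbe : Real.sqrt 2 < be) (hq : 0 < q)
    (hbq : be * q ≤ Real.sqrt 2) (hrel : 2 + be ^ 2 * q / 2 = Real.sqrt 2 * be) :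
    ∃ D r : ℝ, ∃ K1 : ℕ, 0 < D ∧ 0 ≤ r ∧ r < 1 ∧ 1 ≤ K1 ∧ ∀ (K : ℕ) (j j' : Fin K), j ≠ j' →
    (j : ℕ) + 2 + K1 ≤ K →
    ∫⁻ g, ENNReal.ofReal (uT be K j g ^ (q / 2) * uT be K j' g ^ (q / 2)) ∂Ga _ ≤
      ENNReal.ofReal (D * r ^ (((j : ℕ) - j') + ((j' : ℕ) - j))) *
        ∫⁻ g, ENNReal.ofReal (uT be K j g ^ q) ∂Ga _ := by
  have hs2 : 0 < Real.sqrt 2 := Real.sqrt_pos.mpr (by norm_num)
  have hbe0 : 0 < be := hs2.trans hbe
  have hvv := trm_vv
  have hc0 := trm_c0
  obtain ⟨c1, C1, K1, hc1, hC1, h1⟩ := hV be q hbe hq hbq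
  obtain ⟨c2, C2, K2, hc2, hC2, h2⟩ := hV be (q / 2) hbe (by linarith) (by nlinarith)
  have hne : be * (q / 2) ≠ Real.sqrt 2 := by nlinarith
  simp only [if_neg hne, mul_one] at h2
  set κ := vv * be ^ 2 * q ^ 2 / 8 with hκ
  have hκ0 : 0 < κ := by positivity
  set ρ := q * be * c0 / 2 with hρ
  have hρ0 : 0 < ρ := by positivity
  obtain ⟨C4, hC4, hlog⟩ := trm_log (κ := κ / 2) hρ0 (by linarith)
  refine ⟨C2 ^ 2 / c1 * Real.exp C4, Real.exp (-(κ / 2)), max K1 1, by positivity,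
    (Real.exp_pos _).le, by rw [Real.exp_lt_one_iff]; linarith, le_max_right _ _, ?_⟩
  intro K j j' hjj hjK
  have hK1 : K1 ≤ K - j - 2 := by have := le_max_left K1 1; omega
  have hj3 : (j : ℕ) + 3 ≤ K := by have := le_max_right K1 1; omega
  obtain ⟨hX1, hX2⟩ := hX be K hbe0
  rcases Nat.lt_or_ge K ((j' : ℕ) + 3) with hj'3 | hj'3
  · have hz : ∀ g, uT be K j' g = 0 := by
      intro g
      unfold uT
      refine Finset.sum_eq_zero fun c _ => ?_
      unfold pT
      rw [if_neg (by simp only; omega), zero_mul]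
    simp [hz, Real.zero_rpow (by linarith : q / 2 ≠ 0)]
  -- lower bound of the moment
  have hlow : ENNReal.ofReal (c1 * Real.exp (2 * vv * (q * (j : ℕ)) +
      be ^ 2 * vv / 2 * (q ^ 2 * (j : ℕ)) + q * (be * (Real.sqrt 2 * ((K - j - 2 : ℕ) : ℝ) * vv -
        c0 * Real.log (((K - j - 2 : ℕ) : ℝ) + 1))))) ≤
      ∫⁻ g, ENNReal.ofReal (uT be K j g ^ q) ∂Ga _ := by
    rw [hX1 j q hj3 hq]
    refine le_trans ?_ (mul_le_mul' le_rfl ((h1 (K - j - 2)).1 hK1))
    rw [← ENNReal.ofReal_mul (by positivity)]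
    refine ENNReal.ofReal_le_ofReal ?_
    rw [trm_typ, trm_four, Real.exp_add, Real.exp_add]
    have hcr : (1 : ℝ) ≤ (if be * q = Real.sqrt 2 then (((K - j - 2 : ℕ) : ℝ) + 1) else 1) := by
      split_ifs
      · linarith [Nat.cast_nonneg (α := ℝ) (K - j - 2)]
      · exact le_refl _
    have hp : 0 ≤ Real.exp (2 * vv * (q * (j : ℕ))) * Real.exp (be ^ 2 * vv / 2 * (q ^ 2 * (j : ℕ))) *
        (c1 * Real.exp (q * (be * (Real.sqrt 2 * ((K - j - 2 : ℕ) : ℝ) * vv -
        c0 * Real.log (((K - j - 2 : ℕ) : ℝ) + 1))))) := by positivity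
    calc c1 * (Real.exp (2 * vv * (q * (j : ℕ))) * Real.exp (be ^ 2 * vv / 2 * (q ^ 2 * (j : ℕ))) *
        Real.exp (q * (be * (Real.sqrt 2 * ((K - j - 2 : ℕ) : ℝ) * vv -
        c0 * Real.log (((K - j - 2 : ℕ) : ℝ) + 1)))))
        = Real.exp (2 * vv * (q * (j : ℕ))) * Real.exp (be ^ 2 * vv / 2 * (q ^ 2 * (j : ℕ))) *
        (c1 * Real.exp (q * (be * (Real.sqrt 2 * ((K - j - 2 : ℕ) : ℝ) * vv -
        c0 * Real.log (((K - j - 2 : ℕ) : ℝ) + 1))))) * 1 := by ring
      _ ≤ Real.exp (2 * vv * (q * (j : ℕ))) * Real.exp (be ^ 2 * vv / 2 * (q ^ 2 * (j : ℕ))) *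
        (c1 * Real.exp (q * (be * (Real.sqrt 2 * ((K - j - 2 : ℕ) : ℝ) * vv -
        c0 * Real.log (((K - j - 2 : ℕ) : ℝ) + 1))))) *
          (if be * q = Real.sqrt 2 then (((K - j - 2 : ℕ) : ℝ) + 1) else 1) :=
          mul_le_mul_of_nonneg_left hcr hp
      _ = _ := by ring
  -- upper bound of the mixed moment
  have hup : ∀ i i' : Fin K, (i : ℕ) < i' → (i' : ℕ) + 3 ≤ K →
      ∫⁻ g, ENNReal.ofReal (uT be K i g ^ (q / 2) * uT be K i' g ^ (q / 2)) ∂Ga _ ≤
      ENNReal.ofReal (C2 ^ 2 * Real.exp (2 * vv * (q / 2 * (i : ℕ) + q / 2 * (i' : ℕ)) +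
        be ^ 2 * vv / 2 * ((q / 2 + q / 2) ^ 2 * (i : ℕ) + (q / 2) ^ 2 * ((i' : ℕ) - (i : ℕ) : ℝ)) +
        (q / 2 * (be * (Real.sqrt 2 * ((K - i - 2 : ℕ) : ℝ) * vv -
          c0 * Real.log (((K - i - 2 : ℕ) : ℝ) + 1))) +
        q / 2 * (be * (Real.sqrt 2 * ((K - i' - 2 : ℕ) : ℝ) * vv -
          c0 * Real.log (((K - i' - 2 : ℕ) : ℝ) + 1)))))) := by
    intro i i' hii hi'
    rw [hX2 i i' (q / 2) (q / 2) hii hi' (by linarith) (by linarith)]
    refine le_trans (mul_le_mul' le_rfl (mul_le_mul' (h2 (K - i - 2)).2 (h2 (K - i' - 2)).2)) ?_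
    rw [← ENNReal.ofReal_mul (by positivity [Real.rpow_nonneg (Real.exp_pos (be *
      (Real.sqrt 2 * ((K - i - 2 : ℕ) : ℝ) * vv - c0 * Real.log (((K - i - 2 : ℕ) : ℝ) + 1)))).le (q / 2)]),
      ← ENNReal.ofReal_mul (by positivity)]
    refine ENNReal.ofReal_le_ofReal (le_of_eq ?_)
    rw [trm_typ, trm_typ, trm_four, Real.exp_add, Real.exp_add, Real.exp_add (q / 2 * _)]
    ring
  have hfin : ∀ d : ℕ, C2 ^ 2 / c1 * Real.exp C4 * Real.exp (-(κ / 2)) ^ d =
      C2 ^ 2 / c1 * Real.exp (C4 + d * (-(κ / 2))) := by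
    intro d
    rw [← Real.exp_nat_mul, mul_assoc, ← Real.exp_add]
  have hcomb : ∀ (X Y : ℝ) (d : ℕ), Y ≤ C4 + d * (-(κ / 2)) + X →
      ENNReal.ofReal (C2 ^ 2 * Real.exp Y) ≤
      ENNReal.ofReal (C2 ^ 2 / c1 * Real.exp C4 * Real.exp (-(κ / 2)) ^ d) *
        ENNReal.ofReal (c1 * Real.exp X) := by
    intro X Y d h
    rw [hfin, ← ENNReal.ofReal_mul (by positivity)]
    refine ENNReal.ofReal_le_ofReal ?_
    calc C2 ^ 2 * Real.exp Y ≤ C2 ^ 2 * Real.exp (C4 + d * (-(κ / 2)) + X) :=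
          mul_le_mul_of_nonneg_left (Real.exp_le_exp.mpr h) (by positivity)
      _ = _ := by rw [Real.exp_add _ X]; field_simp
  have hKj : ((K - j - 2 : ℕ) : ℝ) = (K : ℝ) - (j : ℕ) - 2 := by
    rw [Nat.cast_sub (by omega), Nat.cast_sub (by omega)]; norm_num
  have hKj' : ((K - j' - 2 : ℕ) : ℝ) = (K : ℝ) - (j' : ℕ) - 2 := by
    rw [Nat.cast_sub (by omega), Nat.cast_sub (by omega)]; norm_num
  have hjr : ((j : ℕ) : ℝ) + 3 ≤ K := by exact_mod_cast hj3
  have hj'r : ((j' : ℕ) : ℝ) + 3 ≤ K := by exact_mod_cast hj'3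
  rcases Nat.lt_or_gt_of_ne (fun h => hjj (Fin.ext h)) with hlt | hlt
  · refine (hup j j' hlt hj'3).trans (le_trans ?_ (mul_le_mul' le_rfl hlow))
    have hd : ((j : ℕ) - j') + ((j' : ℕ) - j) = (j' : ℕ) - j := by omega
    rw [hd]
    refine hcomb _ _ _ ?_
    rw [hKj, hKj', Nat.cast_sub hlt.le]
    have hltr : ((j : ℕ) : ℝ) < (j' : ℕ) := by exact_mod_cast hlt
    have hL := hlog (((j' : ℕ) : ℝ) - (j : ℕ)) (by linarith)
    have hL2 : Real.log ((K : ℝ) - (j : ℕ) - 2 + 1) - Real.log ((K : ℝ) - (j' : ℕ) - 2 + 1) ≤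
        Real.log (1 + (((j' : ℕ) : ℝ) - (j : ℕ))) := by
      rw [← Real.log_div (by linarith) (by linarith)]
      refine Real.log_le_log (div_pos (by linarith) (by linarith)) ?_
      rw [div_le_iff₀ (by linarith)]
      nlinarith
    have hL3 := mul_le_mul_of_nonneg_left hL2 hρ0.le
    rw [hρ] at hL3 hL
    rw [hκ] at hL ⊢
    have hid : q / 2 * vv * (((j' : ℕ) : ℝ) - (j : ℕ)) * (2 + be ^ 2 * q / 2) =
        q / 2 * vv * (((j' : ℕ) : ℝ) - (j : ℕ)) * (Real.sqrt 2 * be) := by rw [hrel]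
    nlinarith [hid, hL, hL3]
  · have hsw : ∫⁻ g, ENNReal.ofReal (uT be K j g ^ (q / 2) * uT be K j' g ^ (q / 2)) ∂Ga _ =
        ∫⁻ g, ENNReal.ofReal (uT be K j' g ^ (q / 2) * uT be K j g ^ (q / 2)) ∂Ga _ := by
      refine lintegral_congr fun g => ?_
      rw [mul_comm]
    rw [hsw]
    refine (hup j' j hlt hj3).trans (le_trans ?_ (mul_le_mul' le_rfl hlow))
    have hd : ((j : ℕ) - j') + ((j' : ℕ) - j) = (j : ℕ) - j' := by omega
    rw [hd]
    refine hcomb _ _ _ ?_
    rw [hKj, hKj', Nat.cast_sub hlt.le]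
    have hltr : ((j' : ℕ) : ℝ) < (j : ℕ) := by exact_mod_cast hlt
    have hL2 : Real.log ((K : ℝ) - (j : ℕ) - 2 + 1) ≤ Real.log ((K : ℝ) - (j' : ℕ) - 2 + 1) :=
      Real.log_le_log (by linarith) (by linarith)
    have hL3 := mul_le_mul_of_nonneg_left hL2 hρ0.le
    have hpos : 0 ≤ κ * (((j : ℕ) : ℝ) - (j' : ℕ)) := mul_nonneg hκ0.le (by linarith)
    rw [hρ] at hL3
    rw [hκ] at hpos ⊢
    have hid : q / 2 * vv * (((j : ℕ) : ℝ) - (j' : ℕ)) * (2 + be ^ 2 * q / 2) =
        q / 2 * vv * (((j : ℕ) : ℝ) - (j' : ℕ)) * (Real.sqrt 2 * be) := by rw [hrel]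
    nlinarith [hid, hL3, hpos]

theorem trm_meas (be : ℝ) (K : ℕ) (j : Fin K) : Measurable (uT be K j) := by
  unfold uT
  refine Continuous.measurable ?_
  fun_prop

theorem trm_nonneg (be : ℝ) (K : ℕ) (j : Fin K) (g) : 0 ≤ uT be K j g := by
  unfold uT
  refine Finset.sum_nonneg fun c _ => mul_nonneg ?_ (Real.exp_pos _).le
  unfold pT
  split_ifs <;> positivity

theorem trm_ZG (be : ℝ) (K : ℕ) (g) : ZG (mT be K) (pT K) g = ∑ j, uT be K j g := by
  unfold ZG uT
  rw [Fintype.sum_prod_type]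

theorem TRM (hX : S_TRX) (hV : S_VMO) : S_TRM := by
  intro be q hbe hq hbq hrel
  have hs2 : 0 < Real.sqrt 2 := Real.sqrt_pos.mpr (by norm_num)
  have hbe0 : 0 < be := hs2.trans hbe
  have hvv := trm_vv
  have hc0 := trm_c0
  have hq1 : q < 1 := by
    by_contra h
    push Not at h
    nlinarith
  obtain ⟨D, r, K1, hD, hr, hr1, hK1, hmix⟩ := trm_mix hX hV be q hbe hq hbq hrel
  obtain ⟨c1, C1, K2, hc1, hC1, h1⟩ := hV be q hbe hq hbq
  set e : ℝ := -(be * q * c0) + (if be * q = Real.sqrt 2 then 1 else 0) with he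
  set K3 := max K1 K2 with hK3
  obtain ⟨CT, hCT, hT⟩ := trm_tail e K3
  -- choice of M
  set M : ℝ := (2 * (D * (2 / (1 - r)))) ^ (2 / q) with hM
  have hr2 : 0 < 1 - r := by linarith
  have hM0 : 0 < M := by positivity
  have hMq : M ^ (-(q / 2)) * (D * (2 / (1 - r))) = 1 / 2 := by
    rw [hM, ← Real.rpow_mul (by positivity)]
    have : 2 / q * -(q / 2) = -1 := by field_simp
    rw [this, Real.rpow_neg_one]
    field_simp
  set a : ℝ := (M + 1) ^ (1 - q) with ha
  have ha0 : 0 < a := by positivity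
  set c' : ℝ := c1 * Real.exp (-(2 * (Real.sqrt 2 * be * vv * q))) with hc'
  refine ⟨c' / CT / (2 * a), K3 + 2, by positivity, fun K hK => ?_⟩
  obtain ⟨hX1, -⟩ := hX be K hbe0
  set J : Finset (Fin K) := Finset.univ.filter (fun j : Fin K => (j : ℕ) + 2 + K3 ≤ K) with hJ
  set E : Fin K → ENNReal := fun j => ∫⁻ g, ENNReal.ofReal (uT be K j g ^ q) ∂Ga _ with hE
  set W := ∫⁻ g, ENNReal.ofReal (ZG (mT be K) (pT K) g ^ q) ∂Ga _ with hW
  have hK31 : K1 ≤ K3 := le_max_left _ _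
  have hK32 : K2 ≤ K3 := le_max_right _ _
  -- integrated inequality
  have hmain : ∑ j ∈ J, E j ≤ ENNReal.ofReal a * W + ENNReal.ofReal (1 / 2) * ∑ j ∈ J, E j := by
    have hm : ∀ j : Fin K, Measurable (fun g => ENNReal.ofReal (uT be K j g ^ q)) := fun j =>
      ((trm_meas be K j).pow_const q).ennreal_ofReal
    have hm2 : ∀ j i : Fin K, Measurable
        (fun g => ENNReal.ofReal (uT be K j g ^ (q / 2) * uT be K i g ^ (q / 2))) := fun j i =>
      (((trm_meas be K j).pow_const _).mul ((trm_meas be K i).pow_const _)).ennreal_ofReal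
    calc ∑ j ∈ J, E j = ∫⁻ g, ∑ j ∈ J, ENNReal.ofReal (uT be K j g ^ q) ∂Ga _ := by
          rw [lintegral_finsetSum _ fun j _ => hm j]
      _ ≤ ∫⁻ g, (ENNReal.ofReal a * ENNReal.ofReal (ZG (mT be K) (pT K) g ^ q) +
          ENNReal.ofReal (M ^ (-(q / 2))) * ∑ j ∈ J, ∑ i ∈ Finset.univ.erase j,
            ENNReal.ofReal (uT be K j g ^ (q / 2) * uT be K i g ^ (q / 2))) ∂Ga _ := by
          refine lintegral_mono fun g => ?_
          have hu := fun j => trm_nonneg be K j g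
          have := trm_pw (fun j => uT be K j g) hu hq hq1 hM0 J
          rw [← ENNReal.ofReal_sum_of_nonneg (fun j _ => Real.rpow_nonneg (hu j) _)]
          have e1 : ∑ j ∈ J, ∑ i ∈ Finset.univ.erase j,
              ENNReal.ofReal (uT be K j g ^ (q / 2) * uT be K i g ^ (q / 2)) =
              ENNReal.ofReal (∑ j ∈ J, ∑ i ∈ Finset.univ.erase j,
                uT be K j g ^ (q / 2) * uT be K i g ^ (q / 2)) := by
            rw [ENNReal.ofReal_sum_of_nonneg]
            · refine Finset.sum_congr rfl fun j _ => ?_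
              rw [ENNReal.ofReal_sum_of_nonneg]
              exact fun i _ => mul_nonneg (Real.rpow_nonneg (hu j) _) (Real.rpow_nonneg (hu i) _)
            · exact fun j _ => Finset.sum_nonneg fun i _ =>
                mul_nonneg (Real.rpow_nonneg (hu j) _) (Real.rpow_nonneg (hu i) _)
          rw [e1, ← ENNReal.ofReal_mul (by positivity), ← ENNReal.ofReal_mul (by positivity),
            ← ENNReal.ofReal_add]
          · refine ENNReal.ofReal_le_ofReal ?_
            rw [trm_ZG]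
            exact this
          · rw [trm_ZG]
            exact mul_nonneg ha0.le (Real.rpow_nonneg (Finset.sum_nonneg fun i _ => hu i) _)
          · exact mul_nonneg (by positivity) (Finset.sum_nonneg fun j _ => Finset.sum_nonneg
              fun i _ => mul_nonneg (Real.rpow_nonneg (hu j) _) (Real.rpow_nonneg (hu i) _))
      _ = ENNReal.ofReal a * W + ENNReal.ofReal (M ^ (-(q / 2))) * ∑ j ∈ J,
          ∑ i ∈ Finset.univ.erase j,
            ∫⁻ g, ENNReal.ofReal (uT be K j g ^ (q / 2) * uT be K i g ^ (q / 2)) ∂Ga _ := by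
          have hZ : Measurable (fun g => ENNReal.ofReal (ZG (mT be K) (pT K) g ^ q)) := by
            have : ZG (mT be K) (pT K) = fun g => ∑ j, uT be K j g := by
              funext g; exact trm_ZG be K g
            rw [this]
            exact ((Finset.measurable_sum _ fun j _ => trm_meas be K j).pow_const q).ennreal_ofReal
          rw [lintegral_add_left (hZ.const_mul _), lintegral_const_mul _ hZ,
            lintegral_const_mul _ (Finset.measurable_sum _ fun j _ => Finset.measurable_sum _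
              fun i _ => hm2 j i), lintegral_finsetSum _ fun j _ => Finset.measurable_sum _
              fun i _ => hm2 j i]
          congr 2
          refine Finset.sum_congr rfl fun j _ => ?_
          rw [lintegral_finsetSum _ fun i _ => hm2 j i]
      _ ≤ ENNReal.ofReal a * W + ENNReal.ofReal (M ^ (-(q / 2))) * ∑ j ∈ J,
          ENNReal.ofReal (D * (2 / (1 - r))) * E j := by
          refine add_le_add le_rfl (mul_le_mul' le_rfl (Finset.sum_le_sum fun j hj => ?_))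
          have hjK : (j : ℕ) + 2 + K1 ≤ K := by
            have := (Finset.mem_filter.mp hj).2; omega
          calc ∑ i ∈ Finset.univ.erase j,
                ∫⁻ g, ENNReal.ofReal (uT be K j g ^ (q / 2) * uT be K i g ^ (q / 2)) ∂Ga _
              ≤ ∑ i ∈ Finset.univ.erase j,
                ENNReal.ofReal (D * r ^ (((j : ℕ) - i) + ((i : ℕ) - j))) * E j :=
                Finset.sum_le_sum fun i hi =>
                  hmix K j i (Finset.ne_of_mem_erase hi).symm hjK
            _ = ENNReal.ofReal (∑ i ∈ Finset.univ.erase j,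
                D * r ^ (((j : ℕ) - i) + ((i : ℕ) - j))) * E j := by
                rw [ENNReal.ofReal_sum_of_nonneg (fun i _ => by positivity), Finset.sum_mul]
            _ ≤ _ := by
                refine mul_le_mul' (ENNReal.ofReal_le_ofReal ?_) le_rfl
                rw [← Finset.mul_sum]
                refine mul_le_mul_of_nonneg_left ?_ hD.le
                refine le_trans ?_ (trm_geo hr hr1 K j j.isLt)
                rw [← Fin.sum_univ_eq_sum_range (fun i => r ^ (((j : ℕ) - i) + (i - j))) K]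
                exact Finset.sum_le_sum_of_subset_of_nonneg (Finset.erase_subset _ _)
                  fun i _ _ => pow_nonneg hr _
      _ = _ := by
          rw [← Finset.mul_sum, ← mul_assoc, ← ENNReal.ofReal_mul (by positivity), hMq]
  -- lower bound of the sum of moments
  have hlow : ENNReal.ofReal (c' * Real.exp (Real.sqrt 2 * be * vv * q * K) *
      ∑ n ∈ Finset.Icc (K3 + 1) (K - 1), (n : ℝ) ^ e) ≤ ∑ j ∈ J, E j := by
    rw [Finset.mul_sum, ENNReal.ofReal_sum_of_nonneg (fun n _ => by positivity)]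
    have hb : ∑ n ∈ Finset.Icc (K3 + 1) (K - 1), ENNReal.ofReal (c' *
        Real.exp (Real.sqrt 2 * be * vv * q * K) * (n : ℝ) ^ e) =
        ∑ j ∈ J, ENNReal.ofReal (c' * Real.exp (Real.sqrt 2 * be * vv * q * K) *
          ((K - j - 1 : ℕ) : ℝ) ^ e) := by
      symm
      refine Finset.sum_nbij (fun j : Fin K => K - j - 1) ?_ ?_ ?_ ?_
      · intro j hj
        have := (Finset.mem_filter.mp hj).2
        have := j.isLt
        rw [Finset.mem_Icc]
        omega
      · intro j hj i hi hji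
        have := (Finset.mem_filter.mp hj).2
        have := (Finset.mem_filter.mp hi).2
        simp only at hji
        apply Fin.ext
        omega
      · intro n hn
        rw [Finset.mem_coe, Finset.mem_Icc] at hn
        refine ⟨⟨K - 1 - n, by omega⟩, ?_, ?_⟩
        · rw [Finset.mem_coe, hJ, Finset.mem_filter]
          refine ⟨Finset.mem_univ _, ?_⟩
          simp only
          omega
        · simp only
          omega
      · intro j hj
        rfl
    rw [hb]
    refine Finset.sum_le_sum fun j hj => ?_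
    have hjK := (Finset.mem_filter.mp hj).2
    have hj3 : (j : ℕ) + 3 ≤ K := by omega
    rw [hE]
    simp only
    rw [hX1 j q hj3 hq]
    refine le_trans ?_ (mul_le_mul' le_rfl ((h1 (K - j - 2)).1 (by omega)))
    rw [← ENNReal.ofReal_mul (by positivity)]
    refine ENNReal.ofReal_le_ofReal ?_
    rw [trm_typ, trm_four]
    have hn : ((K - j - 1 : ℕ) : ℝ) = ((K - j - 2 : ℕ) : ℝ) + 1 := by
      rw [← Nat.cast_add_one]; congr 1; omega
    have hKj : ((K - j - 2 : ℕ) : ℝ) = (K : ℝ) - (j : ℕ) - 2 := by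
      rw [Nat.cast_sub (by omega), Nat.cast_sub (by omega)]; norm_num
    rw [hn]
    set N : ℝ := ((K - j - 2 : ℕ) : ℝ) + 1 with hN
    have hN0 : 0 < N := by positivity
    have hNe : N ^ e = Real.exp (-(be * q * c0) * Real.log N) *
        (if be * q = Real.sqrt 2 then N else 1) := by
      rw [he]
      split_ifs
      · rw [Real.rpow_add_one hN0.ne', Real.rpow_def_of_pos hN0, mul_comm (Real.log N)]
      · rw [add_zero, mul_one, Real.rpow_def_of_pos hN0, mul_comm (Real.log N)]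
    rw [hNe]
    have hcr0 : (0 : ℝ) ≤ (if be * q = Real.sqrt 2 then N else 1) := by split_ifs <;> positivity
    have hexp : Real.exp (-(2 * (Real.sqrt 2 * be * vv * q))) *
        Real.exp (Real.sqrt 2 * be * vv * q * K) * Real.exp (-(be * q * c0) * Real.log N) =
        Real.exp (2 * vv * (q * (j : ℕ))) * Real.exp (be ^ 2 * vv / 2 * (q ^ 2 * (j : ℕ))) *
        Real.exp (q * (be * (Real.sqrt 2 * ((K - j - 2 : ℕ) : ℝ) * vv - c0 * Real.log N))) := by
      rw [← Real.exp_add, ← Real.exp_add, ← Real.exp_add, ← Real.exp_add]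
      congr 1
      rw [hKj]
      linear_combination (-(vv * q * (j : ℕ))) * hrel
    refine le_of_eq ?_
    rw [hc']
    linear_combination (c1 * (if be * q = Real.sqrt 2 then N else 1)) * hexp
  have hfinite : ∑ j ∈ J, E j ≠ ⊤ := by
    rw [ENNReal.sum_ne_top]
    intro j hj
    have hjK := (Finset.mem_filter.mp hj).2
    rw [hE]
    simp only
    rw [hX1 j q (by omega) hq]
    refine ENNReal.mul_ne_top ENNReal.ofReal_ne_top ?_
    exact ne_top_of_le_ne_top ENNReal.ofReal_ne_top (h1 (K - j - 2)).2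
  have hhalf : ENNReal.ofReal (1 / 2) * ∑ j ∈ J, E j ≤ ENNReal.ofReal a * W := by
    have h2 : ENNReal.ofReal (1 / 2) * ∑ j ∈ J, E j + ENNReal.ofReal (1 / 2) * ∑ j ∈ J, E j =
        ∑ j ∈ J, E j := by
      rw [← add_mul, ← ENNReal.ofReal_add (by norm_num) (by norm_num)]
      norm_num
    rw [← h2] at hmain
    conv_rhs at hmain => rw [h2]
    have h3 : ENNReal.ofReal (1 / 2) * ∑ j ∈ J, E j ≠ ⊤ :=
      ENNReal.mul_ne_top ENNReal.ofReal_ne_top hfinite
    exact (ENNReal.add_le_add_iff_right h3).mp hmain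
  have hstep : ENNReal.ofReal (1 / 2 * (c' * Real.exp (Real.sqrt 2 * be * vv * q * K) *
      ∑ n ∈ Finset.Icc (K3 + 1) (K - 1), (n : ℝ) ^ e)) ≤ ENNReal.ofReal a * W := by
    rw [ENNReal.ofReal_mul (by norm_num)]
    exact (mul_le_mul' le_rfl hlow).trans hhalf
  have hfin2 : ENNReal.ofReal a * ENNReal.ofReal (c' / CT / (2 * a) *
      Real.exp (Real.sqrt 2 * be * vv * q * K) * ∑ n ∈ Finset.Icc 1 K, (n : ℝ) ^ e) ≤
      ENNReal.ofReal a * W := by
    refine le_trans ?_ hstep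
    rw [← ENNReal.ofReal_mul ha0.le]
    refine ENNReal.ofReal_le_ofReal ?_
    have hTK := hT K hK
    have e1 : a * (c' / CT / (2 * a) * Real.exp (Real.sqrt 2 * be * vv * q * K) *
        ∑ n ∈ Finset.Icc 1 K, (n : ℝ) ^ e) =
        1 / 2 * (c' * Real.exp (Real.sqrt 2 * be * vv * q * K) *
          ((∑ n ∈ Finset.Icc 1 K, (n : ℝ) ^ e) / CT)) := by
      field_simp
    rw [e1]
    refine mul_le_mul_of_nonneg_left (mul_le_mul_of_nonneg_left ?_ (by positivity)) (by norm_num)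
    rw [div_le_iff₀ hCT, mul_comm]
    exact hTK
  have ha1 : ENNReal.ofReal a ≠ 0 := by simpa using ha0
  exact (ENNReal.mul_le_mul_iff_right ha1 ENNReal.ofReal_ne_top).mp hfin2

end PN
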