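import Pool.Agent.H24.PN.Stmts

/-! Module TRP: lower bound for the moments of the mean square of the prime field on the critical
line of parameters, by comparison with the trunk model. -/

namespace PN
open MeasureTheory Complex ProbabilityTheory PM

lemma TRP_sv : sv * sv = vv := by
  unfold sv vv
  exact Real.mul_self_sqrt (Real.log_nonneg (by norm_num))

/-- covariance along the trunk -/
lemma TRP_trunk (be : ℝ) (K j j' : ℕ) (hj : j ≤ j') (hj' : j' ≤ K) :
    ∑ r : Fin K, (if (r : ℕ) < j then be * sv else 0) * (if (r : ℕ) < j' then be * sv else 0) =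
      be ^ 2 * (vv * j) := by
  have h1 : ∀ r : Fin K, (if (r : ℕ) < j then be * sv else 0) *
      (if (r : ℕ) < j' then be * sv else 0) =
      (fun r : ℕ => if r < j then be ^ 2 * vv else 0) r := by
    intro r
    simp only
    split_ifs with h h'
    · linear_combination (be ^ 2) * TRP_sv
    · omega
    · ring
    · ring
  rw [Finset.sum_congr rfl (fun r _ => h1 r),
    Fin.sum_univ_eq_sum_range (fun r : ℕ => if r < j then be ^ 2 * vv else 0) K,
    ← Finset.sum_filter]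
  have h2 : (Finset.range K).filter (fun r => r < j) = Finset.range j := by
    ext r
    simp only [Finset.mem_filter, Finset.mem_range]
    omega
  rw [h2, Finset.sum_const, Finset.card_range, nsmul_eq_mul]
  ring

/-- covariance of one cosine window piece -/
lemma TRP_win (be : ℝ) (K n : ℕ) (hn : n ≤ K) (c c' : ℕ) (hc : c < 2 ^ n) (hc' : c' < 2 ^ n) :
    ∑ k : Fin K × Fin (2 ^ K + 1), mCn be n c k.1 k.2 * mCn be n c' k.1 k.2 =
      ∑ k : Fin 1 × Fin n × Fin (2 ^ n + 1),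
        mC be n 1 (0, ⟨c, hc⟩) k * mC be n 1 (0, ⟨c', hc'⟩) k := by
  set f : ℕ → ℕ → ℝ := fun r m => mCn be n c r m * mCn be n c' r m with hf
  have hz : ∀ r m : ℕ, ¬ (r < n ∧ m < 2 ^ n + 1) → f r m = 0 := by
    intro r m h
    simp only [hf, mCn]
    by_cases hr : r < n
    · have hm : 2 ^ n + 1 ≤ m := by
        by_contra hm
        exact h ⟨hr, by omega⟩
      have h1 : c / 2 ^ (n - r) ≤ c := Nat.div_le_self _ _
      rw [if_pos hr, if_neg (by omega), if_neg (by omega), zero_mul]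
    · rw [if_neg hr, zero_mul]
  have hL : ∑ k : Fin K × Fin (2 ^ K + 1), mCn be n c k.1 k.2 * mCn be n c' k.1 k.2 =
      ∑ r ∈ Finset.range K, ∑ m ∈ Finset.range (2 ^ K + 1), f r m := by
    rw [Fintype.sum_prod_type]
    rw [← Fin.sum_univ_eq_sum_range (fun r => ∑ m ∈ Finset.range (2 ^ K + 1), f r m) K]
    refine Finset.sum_congr rfl fun r _ => ?_
    rw [← Fin.sum_univ_eq_sum_range (fun m => f r m) (2 ^ K + 1)]
  have hR : ∑ k : Fin 1 × Fin n × Fin (2 ^ n + 1),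
        mC be n 1 (0, ⟨c, hc⟩) k * mC be n 1 (0, ⟨c', hc'⟩) k =
      ∑ r ∈ Finset.range n, ∑ m ∈ Finset.range (2 ^ n + 1), f r m := by
    rw [Fintype.sum_prod_type, Fintype.sum_unique, Fintype.sum_prod_type]
    rw [← Fin.sum_univ_eq_sum_range (fun r => ∑ m ∈ Finset.range (2 ^ n + 1), f r m) n]
    refine Finset.sum_congr rfl fun r _ => ?_
    rw [← Fin.sum_univ_eq_sum_range (fun m => f r m) (2 ^ n + 1)]
    refine Finset.sum_congr rfl fun m _ => ?_
    simp [mC, hf]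
  rw [hL, hR]
  have hpK : 2 ^ n + 1 ≤ 2 ^ K + 1 := by
    have : 2 ^ n ≤ 2 ^ K := Nat.pow_le_pow_right (by norm_num) hn
    omega
  have h1 : ∀ r, ∑ m ∈ Finset.range (2 ^ K + 1), f r m = ∑ m ∈ Finset.range (2 ^ n + 1), f r m := by
    intro r
    symm
    apply Finset.sum_subset
    · intro m hm
      simp only [Finset.mem_range] at hm ⊢
      omega
    · intro m _ hm
      apply hz
      simp only [Finset.mem_range] at hm
      tauto
  rw [Finset.sum_congr rfl (fun r _ => h1 r)]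
  symm
  apply Finset.sum_subset
  · intro r hr
    simp only [Finset.mem_range] at hr ⊢
    omega
  · intro r _ hr
    apply Finset.sum_eq_zero
    intro m _
    apply hz
    simp only [Finset.mem_range] at hr
    tauto

/-- covariance of two points of the same piece of the trunk model -/
lemma TRP_same (be : ℝ) (K : ℕ) (j : Fin K) (c c' : Fin (2 ^ K)) (hj : (j : ℕ) + 3 ≤ K)
    (hc : (c : ℕ) < 2 ^ (K - j - 2)) (hc' : (c' : ℕ) < 2 ^ (K - j - 2)) :
    ∑ k, mT be K (j, c) k * mT be K (j, c') k = be ^ 2 * (vv * (j : ℕ)) +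
      ∑ k : Fin 1 × Fin (K - j - 2) × Fin (2 ^ (K - j - 2) + 1),
        mC be (K - j - 2) 1 (0, ⟨c, hc⟩) k * mC be (K - j - 2) 1 (0, ⟨c', hc'⟩) k := by
  rw [Fintype.sum_sum_type]
  congr 1
  · exact TRP_trunk be K j j le_rfl (by omega)
  · rw [Fintype.sum_prod_type, Finset.sum_eq_single j]
    · rw [← TRP_win be K (K - j - 2) (by omega) c c' hc hc']
      refine Finset.sum_congr rfl fun k _ => ?_
      simp only [mT, if_true]
    · intro j' _ hj'
      apply Finset.sum_eq_zero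
      intro k _
      simp only [mT, if_neg hj', zero_mul]
    · intro h
      exact absurd (Finset.mem_univ j) h

/-- covariance of two points of different pieces of the trunk model -/
lemma TRP_diff (be : ℝ) (K : ℕ) (j j' : Fin K) (c c' : Fin (2 ^ K)) (hj : (j : ℕ) < j') :
    ∑ k, mT be K (j, c) k * mT be K (j', c') k = be ^ 2 * (vv * (j : ℕ)) := by
  rw [Fintype.sum_sum_type]
  have h2 : ∑ k : Fin K × Fin K × Fin (2 ^ K + 1),
      mT be K (j, c) (Sum.inr k) * mT be K (j', c') (Sum.inr k) = 0 := by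
    apply Finset.sum_eq_zero
    intro k _
    simp only [mT]
    split_ifs with h h'
    · exfalso
      rw [h] at h'
      rw [h'] at hj
      exact lt_irrefl _ hj
    · ring
    · ring
    · ring
  rw [h2, add_zero]
  exact TRP_trunk be K j j' hj.le (by omega)

/-- the points with nonzero weight -/
abbrev TRPI (K : ℕ) : Type :=
  {i : Fin K × Fin (2 ^ K) // (i.1 : ℕ) + 3 ≤ K ∧ (i.2 : ℕ) < 2 ^ (K - i.1 - 2)}

/-- number of the point -/
def TRPn {K : ℕ} (i : TRPI K) : ℕ := 3 * 2 ^ (K - i.1.1 - 2) + i.1.2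

lemma TRPn_bd {K : ℕ} (i : TRPI K) : 3 * 2 ^ (K - i.1.1 - 2) ≤ TRPn i ∧
    TRPn i + 1 ≤ 4 * 2 ^ (K - i.1.1 - 2) ∧ 4 * 2 ^ (K - i.1.1 - 2) = 2 ^ (K - i.1.1) ∧
    TRPn i + 1 ≤ 2 ^ K := by
  obtain ⟨⟨j, c⟩, hj, hc⟩ := i
  simp only at hj hc
  have h1 : 4 * 2 ^ (K - j - 2) = 2 ^ (K - (j : ℕ)) := by
    have : K - (j : ℕ) = (K - j - 2) + 2 := by omega
    conv_rhs => rw [this, pow_add]
    ring
  have h2 : 2 ^ (K - (j : ℕ)) ≤ 2 ^ K := Nat.pow_le_pow_right (by norm_num) (by omega)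
  simp only [TRPn]
  refine ⟨by omega, by omega, h1, by omega⟩

lemma TRPn_diff {K : ℕ} (i i' : TRPI K) (h : (i.1.1 : ℕ) < i'.1.1) :
    TRPn i' + 2 ^ (K - i.1.1 - 2) ≤ TRPn i := by
  have h1 := TRPn_bd i
  have h2 := TRPn_bd i'
  have hj' := i'.2.1
  have h3 : 2 * 2 ^ (K - i'.1.1 - 2) ≤ 2 ^ (K - i.1.1 - 2) := by
    have e : K - (i.1.1 : ℕ) - 2 = ((K - i.1.1 - 2) - 1) + 1 := by omega
    rw [e, pow_succ, mul_comm]
    apply Nat.mul_le_mul_right
    exact Nat.pow_le_pow_right (by norm_num) (by omega)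
  omega

lemma TRPn_inj {K : ℕ} (i i' : TRPI K) (h : TRPn i = TRPn i') : i = i' := by
  have hp : ∀ m : ℕ, 0 < 2 ^ m := fun m => by positivity
  rcases lt_trichotomy (i.1.1 : ℕ) i'.1.1 with hlt | heq | hgt
  · have := TRPn_diff i i' hlt
    have := hp (K - i.1.1 - 2)
    omega
  · obtain ⟨⟨j, c⟩, hj, hc⟩ := i
    obtain ⟨⟨j', c'⟩, hj', hc'⟩ := i'
    simp only at heq
    have e1 : j = j' := Fin.ext heq
    subst e1
    simp only [TRPn] at h
    have e2 : c = c' := Fin.ext (by omega)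
    subst e2
    rfl
  · have := TRPn_diff i' i hgt
    have := hp (K - i'.1.1 - 2)
    omega

/-- position of the point -/
noncomputable def TRPt (p0 : ℕ) (K : ℕ) (s : ℝ) (i : TRPI K) : ℝ :=
  1 / Real.log p0 / 2 ^ K * (TRPn i + s)

lemma TRP_vv : 0 < vv := Real.log_pos (by norm_num)

lemma TRP_l2 (n : ℕ) : Real.log ((2 : ℝ) ^ n) = n * vv := by
  rw [Real.log_pow]; rfl

/-- upper bound for the covariance of the prime field -/
lemma TRP_CS (hNTG : S_NTG) : ∃ C : ℝ, 0 < C ∧ ∀ (p0 : ℕ) (y : ℝ) (K : ℕ) (s : ℝ),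
    2 ≤ p0 → (p0 : ℝ) ≤ y → 1 ≤ Real.log p0 → (2 : ℝ) ^ K * Real.log p0 ≤ Real.log y →
    Real.log y ≤ 2 ^ (K + 1) * Real.log p0 →
    (∀ i i' : TRPI K, CS (PrS p0 y) (2 * (1 / Real.log y)) (TRPt p0 K s i - TRPt p0 K s i') ≤
      (K + 1) * vv - Real.log (max 1 |(TRPn i : ℝ) - TRPn i'|) + C) ∧
    K * vv - C ≤ CS (PrS p0 y) (2 * (1 / Real.log y)) 0 := by
  obtain ⟨C, hC, hN⟩ := hNTG
  refine ⟨C, hC, ?_⟩
  intro p0 y K s hp0 hy hl h1 h2
  have hp0' : (2 : ℝ) ≤ p0 := by exact_mod_cast hp0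
  have hL : 0 < Real.log p0 := by linarith
  have hK : (0 : ℝ) < 2 ^ K := by positivity
  have hY : 0 < Real.log y := lt_of_lt_of_le (by positivity) h1
  have hs : |2 * (1 / Real.log y)| * Real.log y ≤ 16 := by
    rw [abs_of_pos (by positivity)]
    have : 2 * (1 / Real.log y) * Real.log y = 2 := by field_simp
    rw [this]
    norm_num
  have hM1 : (2 : ℝ) ^ K ≤ Real.log y / Real.log p0 := by rwa [le_div_iff₀ hL]
  have hM2 : Real.log y / Real.log p0 ≤ 2 ^ (K + 1) := by rwa [div_le_iff₀ hL]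
  constructor
  · intro i i'
    have e1 : TRPt p0 K s i - TRPt p0 K s i' =
        1 / Real.log p0 / 2 ^ K * ((TRPn i : ℝ) - TRPn i') := by
      unfold TRPt
      ring
    have b1 : (TRPn i : ℝ) ≤ 2 ^ K := by
      have := (TRPn_bd i).2.2.2
      exact_mod_cast (by omega : TRPn i ≤ 2 ^ K)
    have b2 : (TRPn i' : ℝ) ≤ 2 ^ K := by
      have := (TRPn_bd i').2.2.2
      exact_mod_cast (by omega : TRPn i' ≤ 2 ^ K)
    have b3 : (0 : ℝ) ≤ TRPn i := Nat.cast_nonneg _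
    have b4 : (0 : ℝ) ≤ TRPn i' := Nat.cast_nonneg _
    have b5 : |(TRPn i : ℝ) - TRPn i'| ≤ 2 ^ K := by
      rw [abs_le]
      constructor <;> linarith
    set D : ℝ := |(TRPn i : ℝ) - TRPn i'| with hD
    have hD0 : 0 ≤ D := abs_nonneg _
    have e2 : |TRPt p0 K s i - TRPt p0 K s i'| = 1 / Real.log p0 / 2 ^ K * D := by
      rw [e1, abs_mul, abs_of_pos (by positivity)]
    have t1 : |TRPt p0 K s i - TRPt p0 K s i'| * Real.log p0 ≤ 1 := by
      rw [e2]
      have : 1 / Real.log p0 / 2 ^ K * D * Real.log p0 = D / 2 ^ K := by field_simp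
      rw [this, div_le_one hK]
      exact b5
    have t0 : |TRPt p0 K s i - TRPt p0 K s i'| ≤ 1 := by
      have h0 : 0 ≤ |TRPt p0 K s i - TRPt p0 K s i'| := abs_nonneg _
      nlinarith
    have key := (abs_le.mp (hN p0 y (2 * (1 / Real.log y)) (TRPt p0 K s i - TRPt p0 K s i') hp0' hy
      hs t0 (by linarith))).2
    have t2 : D ≤ |TRPt p0 K s i - TRPt p0 K s i'| * Real.log y := by
      rw [e2]
      have : 1 / Real.log p0 / 2 ^ K * D * Real.log y =
        D * ((Real.log y / Real.log p0) / 2 ^ K) := by field_simp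
      rw [this]
      have h3 : 1 ≤ (Real.log y / Real.log p0) / 2 ^ K := by rwa [one_le_div hK]
      nlinarith
    have t3 : max 1 D ≤ max 1 (|TRPt p0 K s i - TRPt p0 K s i'| * Real.log y) :=
      max_le_max le_rfl t2
    have hmx : 0 < max 1 D := lt_of_lt_of_le one_pos (le_max_left _ _)
    have t4 : Real.log ((Real.log y / Real.log p0) /
        max 1 (|TRPt p0 K s i - TRPt p0 K s i'| * Real.log y)) ≤
        Real.log (2 ^ (K + 1) / max 1 D) := by
      apply Real.log_le_log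
      · have : 0 < max 1 (|TRPt p0 K s i - TRPt p0 K s i'| * Real.log y) :=
          lt_of_lt_of_le hmx t3
        positivity
      · gcongr
    have t5 : Real.log (2 ^ (K + 1) / max 1 D) = (K + 1) * vv - Real.log (max 1 D) := by
      rw [Real.log_div (by positivity) hmx.ne', TRP_l2]
      push_cast
      ring
    rw [t5] at t4
    linarith
  · have key := (abs_le.mp (hN p0 y (2 * (1 / Real.log y)) 0 hp0' hy
      hs (by simp) (by simp))).1
    have e3 : max 1 (|(0 : ℝ)| * Real.log y) = 1 := by simp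
    rw [e3, div_one] at key
    have t4 : Real.log (2 ^ K) ≤ Real.log (Real.log y / Real.log p0) :=
      Real.log_le_log hK hM1
    rw [TRP_l2] at t4
    linarith

/-- comparison of the covariances of the trunk model and of the prime field -/
lemma TRP_cov (hCVC : S_CVC) (hNTG : S_NTG) : ∃ C : ℝ, 0 ≤ C ∧
    ∀ (be : ℝ) (p0 : ℕ) (y : ℝ) (K : ℕ) (s : ℝ),
    2 ≤ p0 → (p0 : ℝ) ≤ y → 1 ≤ Real.log p0 → (2 : ℝ) ^ K * Real.log p0 ≤ Real.log y →
    Real.log y ≤ 2 ^ (K + 1) * Real.log p0 →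
    (∀ i i' : TRPI K, be ^ 2 * CS (PrS p0 y) (2 * (1 / Real.log y))
        (TRPt p0 K s i - TRPt p0 K s i') ≤
      ∑ k, mT be K i.1 k * mT be K i'.1 k + be ^ 2 * C) ∧
    ∀ i : TRPI K, ∑ k, mT be K i.1 k ^ 2 ≤
      be ^ 2 * CS (PrS p0 y) (2 * (1 / Real.log y)) 0 + be ^ 2 * C := by
  obtain ⟨CV, hCV, hV⟩ := hCVC
  obtain ⟨CN, hCN, hN⟩ := TRP_CS hNTG
  have hv := TRP_vv
  refine ⟨3 * vv + CV + CN, by positivity, ?_⟩
  intro be p0 y K s hp0 hy hl h1 h2
  obtain ⟨g1, g2⟩ := hN p0 y K s hp0 hy hl h1 h2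
  have hbe : 0 ≤ be ^ 2 := sq_nonneg _
  constructor
  · intro i i'
    have g := g1 i i'
    rcases lt_trichotomy (i.1.1 : ℕ) i'.1.1 with hlt | heq | hgt
    · have e := TRP_diff be K i.1.1 i'.1.1 i.1.2 i'.1.2 hlt
      rw [show ∑ k, mT be K i.1 k * mT be K i'.1 k = be ^ 2 * (vv * (i.1.1 : ℕ)) from e]
      have n1 := TRPn_diff i i' hlt
      have n2 : (2 : ℝ) ^ (K - (i.1.1 : ℕ) - 2) ≤ |(TRPn i : ℝ) - TRPn i'| := by
        have : ((TRPn i' : ℝ) + 2 ^ (K - (i.1.1 : ℕ) - 2)) ≤ TRPn i := by exact_mod_cast n1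
        exact le_trans (by linarith) (le_abs_self _)
      have n3 : Real.log ((2 : ℝ) ^ (K - (i.1.1 : ℕ) - 2)) ≤
          Real.log (max 1 |(TRPn i : ℝ) - TRPn i'|) :=
        Real.log_le_log (by positivity) (le_trans n2 (le_max_right _ _))
      rw [TRP_l2] at n3
      have n4 : ((K - (i.1.1 : ℕ) - 2 : ℕ) : ℝ) = (K : ℝ) - (i.1.1 : ℕ) - 2 := by
        have := i.2.1
        rw [Nat.cast_sub (by omega), Nat.cast_sub (by omega)]
        norm_num
      rw [n4] at n3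
      rw [← mul_add]
      apply mul_le_mul_of_nonneg_left _ hbe
      nlinarith
    · obtain ⟨⟨j, c⟩, hj, hc⟩ := i
      obtain ⟨⟨j', c'⟩, hj', hc'⟩ := i'
      simp only at heq
      have e1 : j = j' := Fin.ext heq
      subst e1
      simp only at hj hc hc'
      have e := TRP_same be K j c c' hj hc hc'
      have w := (hV be (K - j - 2) 1).1 (0, ⟨c, hc⟩) (0, ⟨c', hc'⟩) rfl
      rw [← sub_eq_iff_eq_add'] at e
      rw [← e] at w
      have n4 : ((K - (j : ℕ) - 2 : ℕ) : ℝ) = (K : ℝ) - (j : ℕ) - 2 := by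
        rw [Nat.cast_sub (by omega), Nat.cast_sub (by omega)]
        norm_num
      rw [n4] at w
      have e3 : |((TRPn (⟨(j, c), hj, hc⟩ : TRPI K) : ℕ) : ℝ) -
          (TRPn (⟨(j, c'), hj', hc'⟩ : TRPI K) : ℕ)| = |((c : ℕ) : ℝ) - (c' : ℕ)| := by
        simp only [TRPn]
        push_cast
        congr 1
        ring
      rw [e3] at g
      have e4 : dl (c : ℕ) (c' : ℕ) = max 1 |((c : ℕ) : ℝ) - (c' : ℕ)| := rfl
      rw [← e4] at g
      change be ^ 2 * ((K - j - 2) * vv - Real.log (dl c c') - CV) ≤ _ at w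
      have h5 : be ^ 2 * CS (PrS p0 y) (2 * (1 / Real.log y))
          (TRPt p0 K s ⟨(j, c), hj, hc⟩ - TRPt p0 K s ⟨(j, c'), hj', hc'⟩) ≤
          be ^ 2 * ((K + 1) * vv - Real.log (dl c c') + CN) :=
        mul_le_mul_of_nonneg_left g hbe
      change _ ≤ ∑ k, mT be K (j, c) k * mT be K (j, c') k + be ^ 2 * (3 * vv + CV + CN)
      refine le_trans h5 ?_
      nlinarith
    · have e := TRP_diff be K i'.1.1 i.1.1 i'.1.2 i.1.2 hgt
      rw [show ∑ k, mT be K i.1 k * mT be K i'.1 k = be ^ 2 * (vv * (i'.1.1 : ℕ)) from by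
        rw [← e]
        exact Finset.sum_congr rfl fun k _ => mul_comm _ _]
      have n1 := TRPn_diff i' i hgt
      have n2 : (2 : ℝ) ^ (K - (i'.1.1 : ℕ) - 2) ≤ |(TRPn i : ℝ) - TRPn i'| := by
        have : ((TRPn i : ℝ) + 2 ^ (K - (i'.1.1 : ℕ) - 2)) ≤ TRPn i' := by exact_mod_cast n1
        rw [abs_sub_comm]
        exact le_trans (by linarith) (le_abs_self _)
      have n3 : Real.log ((2 : ℝ) ^ (K - (i'.1.1 : ℕ) - 2)) ≤
          Real.log (max 1 |(TRPn i : ℝ) - TRPn i'|) :=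
        Real.log_le_log (by positivity) (le_trans n2 (le_max_right _ _))
      rw [TRP_l2] at n3
      have n4 : ((K - (i'.1.1 : ℕ) - 2 : ℕ) : ℝ) = (K : ℝ) - (i'.1.1 : ℕ) - 2 := by
        have := i'.2.1
        rw [Nat.cast_sub (by omega), Nat.cast_sub (by omega)]
        norm_num
      rw [n4] at n3
      rw [← mul_add]
      apply mul_le_mul_of_nonneg_left _ hbe
      nlinarith
  · intro i
    obtain ⟨⟨j, c⟩, hj, hc⟩ := i
    simp only at hj hc
    have e := TRP_same be K j c c hj hc hc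
    have w := (hV be (K - j - 2) 1).2.2 (0, ⟨c, hc⟩)
    simp only [← sq] at e
    rw [w] at e
    change ∑ k, mT be K (j, c) k ^ 2 ≤ _
    rw [e]
    have n4 : ((K - (j : ℕ) - 2 : ℕ) : ℝ) = (K : ℝ) - (j : ℕ) - 2 := by
      rw [Nat.cast_sub (by omega), Nat.cast_sub (by omega)]
      norm_num
    rw [n4]
    have h5 := mul_le_mul_of_nonneg_left g2 hbe
    nlinarith [mul_nonneg hbe hv.le, mul_nonneg hbe hCV]

lemma TRP_PA (p0 : ℕ) (y : ℝ) : PA p0 (PrS p0 y) := by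
  intro l hl
  simp only [PrS, Finset.mem_filter, Finset.mem_range] at hl
  exact ⟨hl.2.1, by exact_mod_cast hl.2.2⟩

lemma TRP_prime (p0 : ℕ) (y : ℝ) : ∀ l ∈ PrS p0 y, l.Prime := fun l hl => (TRP_PA p0 y l hl).1

lemma TRP_Ln (p0 : ℕ) (y : ℝ) (hy : 0 < Real.log y) (hy1 : 0 ≤ y) :
    Ln (PrS p0 y) (1 / Real.log y) := by
  intro l hl
  have hl0 : 0 < l := (TRP_prime p0 y l hl).pos
  simp only [PrS, Finset.mem_filter, Finset.mem_range] at hl
  have h1 : (l : ℝ) ≤ y := by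
    have h2 : l ≤ ⌊y⌋₊ := by omega
    exact le_trans (by exact_mod_cast h2) (Nat.floor_le hy1)
  have h3 : Real.log l ≤ Real.log y := Real.log_le_log (by exact_mod_cast hl0) h1
  rw [abs_of_pos (by positivity)]
  rw [one_div, inv_mul_le_iff₀ hy]
  linarith

/-- joint continuity -/
lemma TRP_cont (hCONT : S_CONT) (γ : ℝ) (p0 : ℕ) (y : ℝ) (σ : ℝ) (hσ : 0 < σ) :
    Continuous (fun q : ℝ × Om => F γ (PrS p0 y) σ q.1 q.2) := by
  have h := hCONT γ (PrS p0 y) (TRP_prime p0 y)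
  have h2 : Continuous (fun q : ℝ × Om => ((σ, q.1, q.2) : ℝ × ℝ × Om)) := by fun_prop
  have h3 := h.comp_continuous h2 (fun q => by
    simp only [Set.mem_ofPred_eq]
    linarith)
  exact h3

/-- the sum over the points for one shift -/
noncomputable def TRPZ (γ : ℝ) (p0 : ℕ) (y : ℝ) (K : ℕ) (s : ℝ) (ω : Om) : ℝ :=
  ∑ i : TRPI K, pT K i.1 * ‖F γ (PrS p0 y) (1 / Real.log y) (TRPt p0 K s i) ω‖ ^ 2

lemma TRP_pT (K : ℕ) (i : Fin K × Fin (2 ^ K)) : 0 ≤ pT K i := by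
  unfold pT
  split_ifs
  · positivity
  · exact le_rfl

lemma TRPZ_nonneg (γ : ℝ) (p0 : ℕ) (y : ℝ) (K : ℕ) (s : ℝ) (ω : Om) :
    0 ≤ TRPZ γ p0 y K s ω :=
  Finset.sum_nonneg fun i _ => mul_nonneg (TRP_pT K i.1) (sq_nonneg _)

lemma TRPZ_cont (hCONT : S_CONT) (γ : ℝ) (p0 : ℕ) (y : ℝ) (K : ℕ) (hy : 0 < Real.log y) :
    Continuous (fun q : ℝ × Om => TRPZ γ p0 y K q.1 q.2) := by
  unfold TRPZ
  refine continuous_finsetSum _ fun i _ => ?_
  have h := TRP_cont hCONT γ p0 y (1 / Real.log y) (by positivity)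
  have h2 : Continuous (fun q : ℝ × Om => ((TRPt p0 K q.1 i, q.2) : ℝ × Om)) := by
    unfold TRPt
    fun_prop
  exact continuous_const.mul ((h.comp h2).norm.pow 2)

lemma TRPZ_c1 (hCONT : S_CONT) (γ : ℝ) (p0 : ℕ) (y : ℝ) (K : ℕ) (hy : 0 < Real.log y) (ω : Om) :
    Continuous (fun s : ℝ => TRPZ γ p0 y K s ω) := by
  have h := (TRPZ_cont hCONT γ p0 y K hy).comp (Continuous.prodMk_left ω)
  simpa only [Function.comp_def] using h

lemma TRP_ZG (be : ℝ) (K : ℕ) (g : (Fin K ⊕ (Fin K × Fin K × Fin (2 ^ K + 1))) → ℝ) :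
    ZG (fun i : TRPI K => mT be K i.1) (fun i : TRPI K => pT K i.1) g =
      ZG (mT be K) (pT K) g := by
  unfold ZG
  rw [← Finset.sum_subtype (Finset.univ.filter (fun i : Fin K × Fin (2 ^ K) =>
    (i.1 : ℕ) + 3 ≤ K ∧ (i.2 : ℕ) < 2 ^ (K - i.1 - 2))) (by simp)
    (fun i : Fin K × Fin (2 ^ K) => pT K i * Real.exp (∑ k, mT be K i k * g k))]
  rw [Finset.sum_filter]
  refine Finset.sum_congr rfl fun i _ => ?_
  by_cases h : (i.1 : ℕ) + 3 ≤ K ∧ (i.2 : ℕ) < 2 ^ (K - i.1 - 2)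
  · rw [if_pos h]
  · rw [if_neg h]
    simp only [pT, if_neg h, zero_mul]

/-- comparison of moments for one shift -/
lemma TRP_mom (hLIN : S_LIN) (hKAH : S_KAH) (hCOV : S_COV) (hCVC : S_CVC) (hNTG : S_NTG)
    (hMCP : S_MCP) (hCONT : S_CONT) (γ q : ℝ) (p0 : ℕ) (hg : Good γ p0) (hl : 1 ≤ Real.log p0)
    (hp0 : 2 ≤ p0) (hq : 0 < q) (hq1 : q < 1) : ∃ C : ℝ, 0 < C ∧ ∀ (y : ℝ) (K : ℕ) (s : ℝ),
    (p0 : ℝ) ≤ y → (2 : ℝ) ^ K * Real.log p0 ≤ Real.log y →
    Real.log y ≤ 2 ^ (K + 1) * Real.log p0 →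
    ∫⁻ g, ENNReal.ofReal (ZG (mT (Real.sqrt 2 * al γ) K) (pT K) g ^ q) ∂Ga _ ≤
      ENNReal.ofReal C * ∫⁻ ω, ENNReal.ofReal (TRPZ γ p0 y K s ω ^ q) ∂P := by
  obtain ⟨C, hC, hcov⟩ := TRP_cov hCVC hNTG
  obtain ⟨C1, hC1, hK⟩ := hKAH ((Real.sqrt 2 * al γ) ^ 2 * C) (by positivity)
  obtain ⟨C2, hC2, hL⟩ := hLIN γ p0 hg
  refine ⟨C1 * C2, by positivity, ?_⟩
  intro y K s hy h1 h2
  have hY : 0 < Real.log y := lt_of_lt_of_le (by positivity) h1
  have hy0 : 0 ≤ y := le_trans (Nat.cast_nonneg _) hy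
  obtain ⟨g1, g2⟩ := hcov (Real.sqrt 2 * al γ) p0 y K s hp0 hy hl h1 h2
  have hs2 : (Real.sqrt 2 * al γ) ^ 2 = 2 * (al γ) ^ 2 := by
    rw [mul_pow, Real.sq_sqrt (by norm_num)]
  have hcv := hCOV γ (PrS p0 y) (1 / Real.log y) (TRP_prime p0 y) (TRPI K) (TRPt p0 K s)
  have hpn : ∀ i : TRPI K, 0 ≤ pT K i.1 := fun i => TRP_pT K i.1
  have main := hMCP ((Fin K ⊕ (Fin K × Fin K × Fin (2 ^ K + 1))) → ℝ) Om (Ga _) P
    (fun g => ZG (mT (Real.sqrt 2 * al γ) K) (pT K) g) (fun ω => TRPZ γ p0 y K s ω)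
    (C1 * C2) q (by unfold ZG; fun_prop)
    ((TRPZ_cont hCONT γ p0 y K hY).comp (Continuous.prodMk_right s)).measurable
    (fun g => Finset.sum_nonneg fun i _ => mul_nonneg (TRP_pT K i) (Real.exp_nonneg _))
    (TRPZ_nonneg γ p0 y K s) (by positivity) hq hq1 ?_
  · exact main
  · intro lam hlam
    have e1 : ∫ g, ft lam (ZG (mT (Real.sqrt 2 * al γ) K) (pT K) g) ∂Ga _ =
        TR (fun i : TRPI K => mT (Real.sqrt 2 * al γ) K i.1) (fun i : TRPI K => pT K i.1) lam := by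
      unfold TR
      simp only [TRP_ZG]
    rw [e1]
    have a1 := hK (TRPI K) _ _ (aP γ (PrS p0 y) (1 / Real.log y) (TRPt p0 K s))
      (fun i : TRPI K => mT (Real.sqrt 2 * al γ) K i.1) (fun i : TRPI K => pT K i.1) lam hpn hlam
      (by
        intro i j
        rw [hcv i j, ← hs2]
        exact g1 i j)
      (by
        intro i
        have := hcv i i
        rw [sub_self] at this
        simp only [← sq] at this
        rw [this, ← hs2]
        exact g2 i)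
    have a2 := (hL (PrS p0 y) (1 / Real.log y) (TRP_PA p0 y) (TRP_Ln p0 y hY hy0) (TRPI K)
      (TRPt p0 K s) (fun i : TRPI K => pT K i.1) lam hpn hlam).2
    refine le_trans a1 ?_
    rw [mul_assoc]
    exact mul_le_mul_of_nonneg_left a2 hC1.le

/-- one interval -/
lemma TRP_int (f : ℝ → ℝ) (hf : Continuous f) (hf0 : ∀ t, 0 ≤ f t) (σ ρ : ℝ) (n m : ℕ)
    (hσ : 0 < σ) (hρ : 0 < ρ) (hn : n + 1 ≤ 2 ^ m) (hσρ : σ ≤ ρ) :
    1 / (2 * ρ * 4 ^ m) * ∫ s in Set.Ioc (0 : ℝ) 1, f (ρ * (n + s)) ≤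
      ∫ t in Set.Ioc (ρ * n) (ρ * (n + 1)), f t / (σ ^ 2 + t ^ 2) := by
  have e1 : ∫ s in Set.Ioc (0 : ℝ) 1, f (ρ * (n + s)) =
      ρ⁻¹ * ∫ t in Set.Ioc (ρ * n) (ρ * (n + 1)), f t := by
    have h := intervalIntegral.integral_comp_mul_add (a := 0) (b := 1) f hρ.ne' (ρ * n)
    have e2 : ρ * 0 + ρ * n = ρ * n := by ring
    have e3 : ρ * 1 + ρ * n = ρ * (n + 1) := by ring
    rw [e2, e3, intervalIntegral.integral_of_le (by norm_num),
      intervalIntegral.integral_of_le (by nlinarith), smul_eq_mul] at h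
    rw [← h]
    refine integral_congr_ae (Filter.Eventually.of_forall fun s => ?_)
    simp only
    congr 1
    ring
  rw [e1, ← mul_assoc, ← integral_const_mul]
  apply setIntegral_mono_on
  · exact ((continuous_const.mul hf).integrableOn_Icc).mono_set Set.Ioc_subset_Icc_self
  · have hc : Continuous (fun t : ℝ => f t / (σ ^ 2 + t ^ 2)) := by
      apply hf.div (by fun_prop)
      intro t
      positivity
    exact (hc.integrableOn_Icc).mono_set Set.Ioc_subset_Icc_self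
  · exact measurableSet_Ioc
  · intro t ht
    have hn' : ((n : ℝ) + 1) ≤ 2 ^ m := by exact_mod_cast hn
    have h1 : (1 : ℝ) ≤ 2 ^ m := one_le_pow₀ (by norm_num)
    have ht0 : 0 < t := lt_of_le_of_lt (by positivity) ht.1
    have ht1 : t ≤ ρ * 2 ^ m := le_trans ht.2 (mul_le_mul_of_nonneg_left hn' hρ.le)
    have hs1 : σ ≤ ρ * 2 ^ m := by nlinarith
    have h4 : (4 : ℝ) ^ m = 2 ^ m * 2 ^ m := by
      rw [← mul_pow]
      norm_num
    have h5 : σ ^ 2 + t ^ 2 ≤ ρ * (2 * ρ * 4 ^ m) := by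
      rw [h4]
      nlinarith
    rw [div_eq_mul_inv (f t), mul_comm (f t)]
    apply mul_le_mul_of_nonneg_right _ (hf0 t)
    have h6 : 1 / (2 * ρ * 4 ^ m) * ρ⁻¹ = (ρ * (2 * ρ * 4 ^ m))⁻¹ := by
      field_simp
    rw [h6]
    exact inv_anti₀ (by positivity) h5

/-- pointwise lower bound -/
lemma TRP_low (hJM : S_JM) (hCONT : S_CONT) (γ : ℝ) (p0 : ℕ) (y : ℝ) (K : ℕ) (ω : Om)
    (hl : 1 ≤ Real.log p0) (h1 : (2 : ℝ) ^ K * Real.log p0 ≤ Real.log y)
    (h2 : Real.log y ≤ 2 ^ (K + 1) * Real.log p0) :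
    1 / 4 ^ (K + 1) * ∫ s in Set.Ioc (0 : ℝ) 1, TRPZ γ p0 y K s ω ≤
      JF γ (PrS p0 y) (1 / Real.log y) ω / Real.log y := by
  have hL : 0 < Real.log p0 := by linarith
  have hK : (0 : ℝ) < 2 ^ K := by positivity
  have hY : 0 < Real.log y := lt_of_lt_of_le (by positivity) h1
  set σ : ℝ := 1 / Real.log y with hσ
  have hσ0 : 0 < σ := by positivity
  set ρ : ℝ := 1 / Real.log p0 / 2 ^ K with hρ
  have hρ0 : 0 < ρ := by positivity
  have hσρ : σ ≤ ρ := by
    rw [hσ, hρ, div_div, mul_comm]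
    exact one_div_le_one_div_of_le (by positivity) h1
  set f : ℝ → ℝ := fun t => ‖F γ (PrS p0 y) σ t ω‖ ^ 2 with hf
  have hfc : Continuous f := by
    have := (TRP_cont hCONT γ p0 y σ hσ0).comp (Continuous.prodMk_left ω)
    exact (this.norm).pow 2
  have hf0 : ∀ t, 0 ≤ f t := fun t => sq_nonneg _
  obtain ⟨_, _, hint, _⟩ := hJM γ (PrS p0 y) σ (TRP_prime p0 y) (by linarith) hσ0.ne'
  have hint' : Integrable (fun t => f t / (σ ^ 2 + t ^ 2)) := hint ω
  set S : TRPI K → Set ℝ := fun i => Set.Ioc (ρ * TRPn i) (ρ * (TRPn i + 1)) with hS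
  have hdis : Pairwise (Function.onFun Disjoint S) := by
    have hmono : Monotone (fun n : ℕ => ρ * (n : ℝ)) := by
      intro a b hab
      have : (a : ℝ) ≤ b := by exact_mod_cast hab
      exact mul_le_mul_of_nonneg_left this hρ0.le
    have h3 := hmono.pairwise_disjoint_on_Ioc_succ
    intro i i' hne
    have h4 : TRPn i ≠ TRPn i' := fun h => hne (TRPn_inj i i' h)
    have h5 := h3 h4
    simp only [Function.onFun, Nat.succ_eq_succ, Nat.cast_succ] at h5
    exact h5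
  have e1 : ∑ i : TRPI K, ∫ t in S i, f t / (σ ^ 2 + t ^ 2) ≤ JF γ (PrS p0 y) σ ω := by
    rw [← integral_iUnion_fintype (fun i => measurableSet_Ioc) hdis
      (fun i => hint'.integrableOn)]
    exact setIntegral_le_integral hint' (Filter.Eventually.of_forall fun t =>
      div_nonneg (hf0 t) (by positivity))
  have e2 : ∀ i : TRPI K, 1 / (2 * ρ * 4 ^ K) * (pT K i.1 *
      ∫ s in Set.Ioc (0 : ℝ) 1, f (TRPt p0 K s i)) ≤ ∫ t in S i, f t / (σ ^ 2 + t ^ 2) := by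
    intro i
    have hb := TRPn_bd i
    have h3 := TRP_int f hfc hf0 σ ρ (TRPn i) (K - i.1.1) hσ0 hρ0 (by omega) hσρ
    refine le_trans (le_of_eq ?_) h3
    have h4 : pT K i.1 = 4 ^ (i.1.1 : ℕ) := by
      unfold pT
      rw [if_pos i.2]
    have h5 : (4 : ℝ) ^ K = 4 ^ (K - (i.1.1 : ℕ)) * 4 ^ (i.1.1 : ℕ) := by
      rw [← pow_add]
      congr 1
      omega
    rw [h4, h5]
    unfold TRPt
    rw [← hρ]
    field_simp
  have e3 : ∫ s in Set.Ioc (0 : ℝ) 1, TRPZ γ p0 y K s ω =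
      ∑ i : TRPI K, pT K i.1 * ∫ s in Set.Ioc (0 : ℝ) 1, f (TRPt p0 K s i) := by
    unfold TRPZ
    rw [integral_finsetSum]
    · refine Finset.sum_congr rfl fun i _ => ?_
      rw [integral_const_mul]
    · intro i _
      have hc : Continuous (fun s : ℝ => pT K i.1 *
          ‖F γ (PrS p0 y) (1 / Real.log y) (TRPt p0 K s i) ω‖ ^ 2) := by
        have h4 : Continuous (fun s : ℝ => f (TRPt p0 K s i)) := by
          apply hfc.comp
          unfold TRPt
          fun_prop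
        exact continuous_const.mul h4
      exact (hc.integrableOn_Icc).mono_set Set.Ioc_subset_Icc_self
  have e4 : 1 / (2 * ρ * 4 ^ K) * ∫ s in Set.Ioc (0 : ℝ) 1, TRPZ γ p0 y K s ω ≤
      JF γ (PrS p0 y) σ ω := by
    rw [e3, Finset.mul_sum]
    exact le_trans (Finset.sum_le_sum fun i _ => e2 i) e1
  have e5 : 0 ≤ ∫ s in Set.Ioc (0 : ℝ) 1, TRPZ γ p0 y K s ω :=
    integral_nonneg fun s => TRPZ_nonneg γ p0 y K s ω
  rw [le_div_iff₀ hY]
  refine le_trans ?_ e4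
  rw [mul_right_comm]
  apply mul_le_mul_of_nonneg_right _ e5
  rw [div_mul_eq_mul_div, one_mul, div_le_div_iff₀ (by positivity) (by positivity), one_mul, hρ]
  have h4 : (4 : ℝ) ^ (K + 1) = 2 ^ K * 2 ^ (K + 1) * 2 := by
    rw [show (4 : ℝ) = 2 * 2 by norm_num, mul_pow, pow_succ]
    ring
  have h5 : Real.log y * (2 * (1 / Real.log p0 / 2 ^ K) * 4 ^ K) =
      (Real.log y / Real.log p0) * (2 * (4 ^ K / 2 ^ K)) := by
    field_simp
  have h6 : (4 : ℝ) ^ K / 2 ^ K = 2 ^ K := by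
    rw [div_eq_iff (by positivity), ← mul_pow]
    norm_num
  rw [h5, h6, h4]
  have h7 : Real.log y / Real.log p0 ≤ 2 ^ (K + 1) := by rwa [div_le_iff₀ hL]
  nlinarith

instance TRP_prob : IsProbabilityMeasure (volume.restrict (Set.Ioc (0 : ℝ) 1)) :=
  ⟨by simp⟩

/-- Jensen inequality -/
lemma TRP_jen (h : ℝ → ℝ) (hc : Continuous h) (h0 : ∀ s, 0 ≤ h s) (q : ℝ) (hq : 0 < q)
    (hq1 : q ≤ 1) : ∫ s in Set.Ioc (0 : ℝ) 1, h s ^ q ≤ (∫ s in Set.Ioc (0 : ℝ) 1, h s) ^ q := by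
  have i1 : Integrable h (volume.restrict (Set.Ioc (0 : ℝ) 1)) :=
    (hc.integrableOn_Icc).mono_set Set.Ioc_subset_Icc_self
  have hc2 : Continuous (fun s => h s ^ q) := hc.rpow_const fun s => Or.inr hq.le
  have i2 : Integrable (fun s => h s ^ q) (volume.restrict (Set.Ioc (0 : ℝ) 1)) :=
    (hc2.integrableOn_Icc).mono_set Set.Ioc_subset_Icc_self
  exact ConcaveOn.le_map_integral (Real.concaveOn_rpow hq.le hq1)
    (fun x _ => (Real.continuousAt_rpow_const x q (Or.inr hq.le)).continuousWithinAt)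
    isClosed_Ici (Filter.Eventually.of_forall h0) i1 i2

/-- the moment of the prime field dominates the moment of the trunk model -/
lemma TRP_main (hLIN : S_LIN) (hKAH : S_KAH) (hCOV : S_COV) (hCVC : S_CVC) (hNTG : S_NTG)
    (hMCP : S_MCP) (hCONT : S_CONT) (hJM : S_JM) (γ q : ℝ) (p0 : ℕ) (hg : Good γ p0)
    (hl : 1 ≤ Real.log p0) (hp0 : 2 ≤ p0) (hq : 0 < q) (hq1 : q < 1) :
    ∃ C : ℝ, 0 < C ∧ ∀ (y : ℝ) (K : ℕ),
    (p0 : ℝ) ≤ y → (2 : ℝ) ^ K * Real.log p0 ≤ Real.log y →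
    Real.log y ≤ 2 ^ (K + 1) * Real.log p0 →
    ∫⁻ g, ENNReal.ofReal (ZG (mT (Real.sqrt 2 * al γ) K) (pT K) g ^ q) ∂Ga _ ≤
      ENNReal.ofReal (C * ((4 : ℝ) ^ (K + 1)) ^ q *
        ∫ ω : Om, (JF γ (PrS p0 y) (1 / Real.log y) ω / Real.log y) ^ q ∂P) := by
  obtain ⟨C, hC, hmom⟩ := TRP_mom hLIN hKAH hCOV hCVC hNTG hMCP hCONT γ q p0 hg hl hp0 hq hq1
  refine ⟨C, hC, ?_⟩
  intro y K hy h1 h2
  have hY : 0 < Real.log y := lt_of_lt_of_le (by positivity) h1
  have hZ := TRPZ_cont hCONT γ p0 y K hY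
  have hZq : Continuous (fun q' : ℝ × Om => TRPZ γ p0 y K q'.1 q'.2 ^ q) :=
    hZ.rpow_const fun s => Or.inr hq.le
  set L : ENNReal := ∫⁻ g, ENNReal.ofReal (ZG (mT (Real.sqrt 2 * al γ) K) (pT K) g ^ q) ∂Ga _
    with hLdef
  have a1 : L ≤ ENNReal.ofReal C * ∫⁻ s in Set.Ioc (0 : ℝ) 1,
      ∫⁻ ω, ENNReal.ofReal (TRPZ γ p0 y K s ω ^ q) ∂P := by
    calc L = ∫⁻ _ in Set.Ioc (0 : ℝ) 1, L := by rw [lintegral_const, measure_univ, mul_one]
      _ ≤ ∫⁻ s in Set.Ioc (0 : ℝ) 1, ENNReal.ofReal C *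
          ∫⁻ ω, ENNReal.ofReal (TRPZ γ p0 y K s ω ^ q) ∂P :=
          lintegral_mono fun s => hmom y K s hy h1 h2
      _ = _ := lintegral_const_mul' _ _ ENNReal.ofReal_ne_top
  have a2 : ∫⁻ s in Set.Ioc (0 : ℝ) 1, ∫⁻ ω, ENNReal.ofReal (TRPZ γ p0 y K s ω ^ q) ∂P =
      ∫⁻ ω, (∫⁻ s in Set.Ioc (0 : ℝ) 1, ENNReal.ofReal (TRPZ γ p0 y K s ω ^ q)) ∂P := by
    apply lintegral_lintegral_swap
    exact (ENNReal.measurable_ofReal.comp hZq.measurable).aemeasurable
  obtain ⟨hJm, ⟨B, hB⟩, -, -⟩ := hJM γ (PrS p0 y) (1 / Real.log y) (TRP_prime p0 y)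
    (by have : 0 < 1 / Real.log y := by positivity
        linarith) (by positivity)
  have hJq0 : ∀ ω, 0 ≤ (JF γ (PrS p0 y) (1 / Real.log y) ω / Real.log y) ^ q := fun ω =>
    Real.rpow_nonneg (div_nonneg (hB ω).1 hY.le) q
  have a3 : ∀ ω, ∫⁻ s in Set.Ioc (0 : ℝ) 1, ENNReal.ofReal (TRPZ γ p0 y K s ω ^ q) ≤
      ENNReal.ofReal (((4 : ℝ) ^ (K + 1)) ^ q *
        (JF γ (PrS p0 y) (1 / Real.log y) ω / Real.log y) ^ q) := by
    intro ω
    have hc : Continuous (fun s => TRPZ γ p0 y K s ω) := TRPZ_c1 hCONT γ p0 y K hY ω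
    have hcq : Continuous (fun s => TRPZ γ p0 y K s ω ^ q) :=
      hc.rpow_const fun s => Or.inr hq.le
    have i2 : Integrable (fun s => TRPZ γ p0 y K s ω ^ q)
        (volume.restrict (Set.Ioc (0 : ℝ) 1)) :=
      (hcq.integrableOn_Icc).mono_set Set.Ioc_subset_Icc_self
    have hn : ∀ s, 0 ≤ TRPZ γ p0 y K s ω := fun s => TRPZ_nonneg γ p0 y K s ω
    rw [← ofReal_integral_eq_lintegral_ofReal i2
      (Filter.Eventually.of_forall fun s => Real.rpow_nonneg (hn s) q)]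
    apply ENNReal.ofReal_le_ofReal
    refine le_trans (TRP_jen _ hc hn q hq hq1.le) ?_
    have hlow := TRP_low hJM hCONT γ p0 y K ω hl h1 h2
    have h4 : (0 : ℝ) < 4 ^ (K + 1) := by positivity
    rw [← Real.mul_rpow h4.le (div_nonneg (hB ω).1 hY.le)]
    apply Real.rpow_le_rpow (integral_nonneg hn) _ hq.le
    rw [one_div, inv_mul_le_iff₀ h4] at hlow
    exact hlow
  have a4 : ∫⁻ ω, (∫⁻ s in Set.Ioc (0 : ℝ) 1, ENNReal.ofReal (TRPZ γ p0 y K s ω ^ q)) ∂P ≤
      ENNReal.ofReal (((4 : ℝ) ^ (K + 1)) ^ q *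
        ∫ ω : Om, (JF γ (PrS p0 y) (1 / Real.log y) ω / Real.log y) ^ q ∂P) := by
    refine le_trans (lintegral_mono a3) ?_
    have hmeas : Measurable (fun ω : Om => ((4 : ℝ) ^ (K + 1)) ^ q *
        (JF γ (PrS p0 y) (1 / Real.log y) ω / Real.log y) ^ q) :=
      ((hJm.div_const _).pow_const q).const_mul _
    have hint : Integrable (fun ω : Om => ((4 : ℝ) ^ (K + 1)) ^ q *
        (JF γ (PrS p0 y) (1 / Real.log y) ω / Real.log y) ^ q) P := by
      refine Integrable.of_bound hmeas.aestronglyMeasurable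
        (((4 : ℝ) ^ (K + 1)) ^ q * (B / Real.log y) ^ q) (Filter.Eventually.of_forall fun ω => ?_)
      have h5 : 0 ≤ ((4 : ℝ) ^ (K + 1)) ^ q := by positivity
      rw [Real.norm_of_nonneg (mul_nonneg h5 (hJq0 ω))]
      apply mul_le_mul_of_nonneg_left _ h5
      apply Real.rpow_le_rpow (div_nonneg (hB ω).1 hY.le) _ hq.le
      exact div_le_div_of_nonneg_right (hB ω).2 hY.le
    rw [← ofReal_integral_eq_lintegral_ofReal hint (Filter.Eventually.of_forall fun ω =>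
      mul_nonneg (by positivity) (hJq0 ω)), integral_const_mul]
  refine le_trans a1 ?_
  rw [a2, mul_assoc, ENNReal.ofReal_mul hC.le]
  gcongr

theorem TRP (hTRM : S_TRM) (hLIN : S_LIN) (hKAH : S_KAH) (hCOV : S_COV) (hCVC : S_CVC)
    (hNTG : S_NTG) (hMCP : S_MCP) (hCONT : S_CONT) (hJM : S_JM) : S_TRP := by
  intro γ p p0 hg hal hp hp1 halp hcrit
  have hp04 : 4 * Real.exp 16 ≤ p0 := hg.1
  have hexp : Real.exp 1 ≤ Real.exp 16 := Real.exp_le_exp.mpr (by norm_num)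
  have he1 : 2 ≤ Real.exp 1 := by
    have := Real.add_one_le_exp (1 : ℝ)
    linarith
  have hp0r : (2 : ℝ) ≤ p0 := by linarith
  have hp0 : 2 ≤ p0 := by exact_mod_cast hp0r
  have hp0pos : (0 : ℝ) < p0 := by linarith
  have hl : 1 ≤ Real.log p0 := by
    rw [Real.le_log_iff_exp_le hp0pos]
    linarith
  have hL : 0 < Real.log p0 := by linarith
  have hs2 : Real.sqrt 2 * Real.sqrt 2 = 2 := Real.mul_self_sqrt (by norm_num)
  have hs0 : 0 < Real.sqrt 2 := Real.sqrt_pos.mpr (by norm_num)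
  set α : ℝ := al γ with hα
  set q : ℝ := p / 2 with hq
  have hq0 : 0 < q := by positivity
  have hq1 : q < 1 := by linarith
  obtain ⟨c, K0, hc, hT⟩ := hTRM (Real.sqrt 2 * α) q (by nlinarith) hq0
    (by
      rw [hq]
      nlinarith)
    (by
      rw [hq]
      nlinarith)
  obtain ⟨C, hC, hM⟩ := TRP_main hLIN hKAH hCOV hCVC hNTG hMCP hCONT hJM γ q p0 hg hl hp0 hq0 hq1
  have hv := TRP_vv
  have hv1 : vv < 1 := by
    have := Real.log_two_lt_d9
    unfold vv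
    linarith
  set X0 : ℝ := max 2 (max (K0 : ℝ) (Real.log (Real.log p0) / (1 - vv))) with hX0
  have hX2 : 2 ≤ X0 := le_max_left _ _
  have hXK : (K0 : ℝ) ≤ X0 := le_trans (le_max_left _ _) (le_max_right _ _)
  have hXL : Real.log (Real.log p0) / (1 - vv) ≤ X0 := le_trans (le_max_right _ _) (le_max_right _ _)
  have hLL : 0 ≤ Real.log (Real.log p0) := Real.log_nonneg hl
  set D : ℝ := (2 * Real.log p0) ^ (p * (α - 1)) with hD
  have hD0 : 0 < D := Real.rpow_pos_of_pos (by positivity) _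
  refine ⟨c / (C * Real.exp (p * vv) * D), Real.exp (Real.exp X0), by positivity, ?_, ?_⟩
  · apply Real.exp_le_exp.mpr
    have := Real.add_one_le_exp X0
    linarith
  intro y hy
  have hy0 : 0 < y := lt_of_lt_of_le (Real.exp_pos _) hy
  have hYX : Real.exp X0 ≤ Real.log y := (Real.le_log_iff_exp_le hy0).mpr hy
  have hY : 0 < Real.log y := lt_of_lt_of_le (Real.exp_pos _) hYX
  have hX : X0 ≤ Real.log (Real.log y) := (Real.le_log_iff_exp_le hY).mpr hYX
  set X : ℝ := Real.log (Real.log y) with hXdef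
  have hLX : Real.log (Real.log p0) ≤ X * (1 - vv) := by
    have := le_trans hXL hX
    rwa [div_le_iff₀ (by linarith)] at this
  have hLX' : Real.log (Real.log p0) ≤ X := by nlinarith
  have hLY : Real.log p0 ≤ Real.log y := by
    rwa [← Real.log_le_log_iff hL hY]
  have hpy : (p0 : ℝ) ≤ y := by
    rwa [← Real.log_le_log_iff hp0pos hy0]
  set W : ℝ := Real.log (Real.log y / Real.log p0) / vv with hW
  have hWe : W * vv = X - Real.log (Real.log p0) := by
    rw [hW, div_mul_cancel₀ _ hv.ne', Real.log_div hY.ne' hL.ne']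
  have hXW : X ≤ W := by
    have : X * vv ≤ W * vv := by
      rw [hWe]
      linarith
    exact le_of_mul_le_mul_right this hv
  set K : ℕ := ⌊W⌋₊ with hK
  have hW0 : 0 ≤ W := by linarith
  have hKW : (K : ℝ) ≤ W := Nat.floor_le hW0
  have hKW' : W < K + 1 := Nat.lt_floor_add_one W
  have hKX : ⌊X⌋₊ ≤ K := Nat.floor_le_floor hXW
  have hK0 : K0 ≤ K := by
    apply Nat.le_floor
    linarith
  have hMp : 0 < Real.log y / Real.log p0 := by positivity
  have h1' : (2 : ℝ) ^ K ≤ Real.log y / Real.log p0 := by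
    rw [← Real.log_le_log_iff (by positivity) hMp, TRP_l2]
    have : Real.log (Real.log y / Real.log p0) = W * vv := by
      rw [hW, div_mul_cancel₀ _ hv.ne']
    rw [this]
    exact mul_le_mul_of_nonneg_right hKW hv.le
  have h2' : Real.log y / Real.log p0 ≤ 2 ^ (K + 1) := by
    rw [← Real.log_le_log_iff hMp (by positivity), TRP_l2]
    have : Real.log (Real.log y / Real.log p0) = W * vv := by
      rw [hW, div_mul_cancel₀ _ hv.ne']
    rw [this]
    push_cast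
    exact mul_le_mul_of_nonneg_right hKW'.le hv.le
  have h1 : (2 : ℝ) ^ K * Real.log p0 ≤ Real.log y := by rwa [le_div_iff₀ hL] at h1'
  have h2 : Real.log y ≤ 2 ^ (K + 1) * Real.log p0 := by rwa [div_le_iff₀ hL] at h2'
  have main := le_trans (hT K hK0) (hM y K hpy h1 h2)
  obtain ⟨-, ⟨B, hB⟩, -, -⟩ := hJM γ (PrS p0 y) (1 / Real.log y) (TRP_prime p0 y)
    (by have : 0 < 1 / Real.log y := by positivity
        linarith) (by positivity)
  set J : ℝ := ∫ ω : Om, (JF γ (PrS p0 y) (1 / Real.log y) ω / Real.log y) ^ q ∂P with hJ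
  have hJ0 : 0 ≤ J := integral_nonneg fun ω => Real.rpow_nonneg (div_nonneg (hB ω).1 hY.le) q
  rw [ENNReal.ofReal_le_ofReal_iff (by positivity)] at main
  have hex : ∀ n : ℕ, (n : ℝ) ^ (-(Real.sqrt 2 * α * q * c0) +
      (if Real.sqrt 2 * α * q = Real.sqrt 2 then 1 else 0)) = (n : ℝ) ^ ex α p := by
    intro n
    congr 1
    unfold ex c0
    have e1 : Real.sqrt 2 * α * q * (3 / (2 * Real.sqrt 2)) = 3 * α * p / 4 := by
      rw [hq]
      field_simp
      ring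
    have e2 : (Real.sqrt 2 * α * q = Real.sqrt 2) ↔ (α * p = 2) := by
      rw [hq]
      constructor
      · intro h
        have h3 : Real.sqrt 2 * (α * p / 2) = Real.sqrt 2 * 1 := by linarith
        have h4 := mul_left_cancel₀ hs0.ne' h3
        linarith
      · intro h
        have : Real.sqrt 2 * α * (p / 2) = Real.sqrt 2 * (α * p) / 2 := by ring
        rw [this, h]
        ring
    rw [e1]
    simp only [e2]
  simp only [hex] at main
  set S1 : ℝ := ∑ n ∈ Finset.Icc 1 K, (n : ℝ) ^ ex α p with hS1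
  set S2 : ℝ := ∑ n ∈ Finset.Icc 1 ⌊X⌋₊, (n : ℝ) ^ ex α p with hS2
  have hS : S2 ≤ S1 := by
    apply Finset.sum_le_sum_of_subset_of_nonneg
    · exact Finset.Icc_subset_Icc le_rfl hKX
    · intro n _ _
      exact Real.rpow_nonneg (Nat.cast_nonneg _) _
  have hS20 : 0 ≤ S2 := Finset.sum_nonneg fun n _ => Real.rpow_nonneg (Nat.cast_nonneg _) _
  have e4 : ((4 : ℝ) ^ (K + 1)) ^ q = Real.exp (p * vv) * Real.exp (p * vv * K) := by
    have e5 : (4 : ℝ) ^ (K + 1) = Real.exp (2 * vv * (K + 1)) := by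
      rw [show (4 : ℝ) = 2 ^ 2 by norm_num, ← pow_mul, ← Real.exp_log (by positivity :
        (0 : ℝ) < 2 ^ (2 * (K + 1))), TRP_l2]
      congr 1
      push_cast
      ring
    rw [e5, ← Real.exp_mul, ← Real.exp_add, hq]
    congr 1
    ring
  have e6 : Real.exp (Real.sqrt 2 * (Real.sqrt 2 * α) * vv * q * K) =
      Real.exp (p * vv * K) * Real.exp (vv * K) ^ (p * (α - 1)) := by
    rw [← Real.exp_mul, ← Real.exp_add, hq]
    congr 1
    linear_combination (α * vv * (p / 2) * K) * hs2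
  have e7 : Real.exp (vv * K) = 2 ^ K := by
    rw [← Real.exp_log (by positivity : (0 : ℝ) < 2 ^ K), TRP_l2, mul_comm]
  rw [e4, e6, e7] at main
  set E : ℝ := Real.exp (p * vv * K) with hE
  have hE0 : 0 < E := Real.exp_pos _
  have e8 : c * (((2 : ℝ) ^ K) ^ (p * (α - 1)) * S1) ≤ C * Real.exp (p * vv) * J := by
    have : E * (c * (((2 : ℝ) ^ K) ^ (p * (α - 1)) * S1)) ≤ E * (C * Real.exp (p * vv) * J) := by
      calc E * (c * (((2 : ℝ) ^ K) ^ (p * (α - 1)) * S1)) =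
          c * (E * ((2 : ℝ) ^ K) ^ (p * (α - 1))) * S1 := by ring
        _ ≤ C * (Real.exp (p * vv) * E) * J := main
        _ = _ := by ring
    exact le_of_mul_le_mul_left this hE0
  have hexn : 0 ≤ p * (α - 1) := by
    apply mul_nonneg hp.le
    linarith
  have e9 : (Real.log y) ^ (p * (α - 1)) ≤ D * ((2 : ℝ) ^ K) ^ (p * (α - 1)) := by
    rw [hD, ← Real.mul_rpow (by positivity) (by positivity)]
    apply Real.rpow_le_rpow hY.le _ hexn
    rw [pow_succ] at h2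
    linarith
  have e10 : 0 ≤ ((2 : ℝ) ^ K) ^ (p * (α - 1)) := by positivity
  rw [div_mul_eq_mul_div, div_mul_eq_mul_div, div_le_iff₀ (by positivity)]
  calc c * Real.log y ^ (p * (α - 1)) * S2 ≤ c * (D * ((2 : ℝ) ^ K) ^ (p * (α - 1))) * S1 := by
        apply mul_le_mul _ hS hS20 (by positivity)
        exact mul_le_mul_of_nonneg_left e9 hc.le
    _ = D * (c * (((2 : ℝ) ^ K) ^ (p * (α - 1)) * S1)) := by ring
    _ ≤ D * (C * Real.exp (p * vv) * J) := mul_le_mul_of_nonneg_left e8 hD0.le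
    _ = J * (C * Real.exp (p * vv) * D) := by ring

end PN
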