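import Pool.Agent.H24.PN.Stmts

/-! Module TRX: moments of the pieces of the trunk model, exact factorisation. -/

namespace PN
open MeasureTheory Complex ProbabilityTheory PM

/-- some coordinates of a Gaussian vector form a Gaussian vector -/
lemma TRX_map {κ κ' : Type} [Fintype κ] [Fintype κ'] (e : κ' → κ) (he : Function.Injective e) :
    MeasurePreserving (fun (g : κ → ℝ) (i : κ') => g (e i)) (Ga κ) (Ga κ') := by
  classical
  refine ⟨by fun_prop, ?_⟩
  symm
  unfold Ga
  apply Measure.pi_eq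
  intro s hs
  rw [Measure.map_apply (by fun_prop) (MeasurableSet.univ_pi hs)]
  set t : κ → Set ℝ := fun k => {x | ∀ i, e i = k → x ∈ s i} with ht
  have e1 : (fun (g : κ → ℝ) (i : κ') => g (e i)) ⁻¹' Set.univ.pi s = Set.univ.pi t := by
    ext g
    simp only [Set.mem_preimage, Set.mem_pi, Set.mem_univ, true_implies, ht, Set.mem_ofPred_eq]
    constructor
    · rintro h k i rfl
      exact h i
    · intro h i
      exact h (e i) i rfl
  rw [e1, Measure.pi_pi]
  have e2 : ∀ i, t (e i) = s i := by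
    intro i
    ext x
    simp only [ht, Set.mem_ofPred_eq]
    constructor
    · intro h
      exact h i rfl
    · intro h i' hi'
      rwa [he hi']
  have e3 : ∀ k, k ∉ Finset.univ.image e → t k = Set.univ := by
    intro k hk
    ext x
    simp only [ht, Set.mem_ofPred_eq, Set.mem_univ, iff_true]
    intro i hi
    exact absurd (Finset.mem_image.mpr ⟨i, Finset.mem_univ i, hi⟩) hk
  rw [← Finset.prod_subset (Finset.subset_univ (Finset.univ.image e)), Finset.prod_image]
  · apply Finset.prod_congr rfl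
    intro i _
    rw [e2]
  · intro i _ i' _ h
    exact he h
  · intro k _ hk
    rw [e3 k hk, measure_univ]

/-- functions of complementary sets of coordinates are independent -/
lemma TRX_fac {κ : Type} [Fintype κ] (p : κ → Prop) [DecidablePred p]
    (f h : (κ → ℝ) → ENNReal) (hf : Measurable f) (hh : Measurable h)
    (df : ∀ g g' : κ → ℝ, (∀ k, p k → g k = g' k) → f g = f g')
    (dh : ∀ g g' : κ → ℝ, (∀ k, ¬ p k → g k = g' k) → h g = h g') :
    ∫⁻ g, f g * h g ∂Ga κ = (∫⁻ g, f g ∂Ga κ) * ∫⁻ g, h g ∂Ga κ := by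
  set E := (MeasurableEquiv.piEquivPiSubtypeProd (fun _ : κ => ℝ) p) with hE
  have M := (measurePreserving_piEquivPiSubtypeProd (fun _ : κ => gaussianReal 0 1) p)
  have Ms := M.symm
  have v1 : ∀ (x : {k // p k} → ℝ) (y : {k // ¬ p k} → ℝ) (k : κ) (hk : p k),
      E.symm (x, y) k = x ⟨k, hk⟩ := by
    intro x y k hk
    change (if h : p k then x ⟨k, h⟩ else y ⟨k, h⟩) = _
    rw [dif_pos hk]
  have v2 : ∀ (x : {k // p k} → ℝ) (y : {k // ¬ p k} → ℝ) (k : κ) (hk : ¬ p k),
      E.symm (x, y) k = y ⟨k, hk⟩ := by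
    intro x y k hk
    change (if h : p k then x ⟨k, h⟩ else y ⟨k, h⟩) = _
    rw [dif_neg hk]
  have f1 : ∀ x y, f (E.symm (x, y)) = f (E.symm (x, 0)) := by
    intro x y
    apply df
    intro k hk
    rw [v1 _ _ k hk, v1 _ _ k hk]
  have h1 : ∀ x y, h (E.symm (x, y)) = h (E.symm (0, y)) := by
    intro x y
    apply dh
    intro k hk
    rw [v2 _ _ k hk, v2 _ _ k hk]
  have mf : Measurable fun x : {k // p k} → ℝ => f (E.symm (x, 0)) :=
    hf.comp (E.symm.measurable.comp (by fun_prop))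
  have mh : Measurable fun y : {k // ¬ p k} → ℝ => h (E.symm (0, y)) :=
    hh.comp (E.symm.measurable.comp (by fun_prop))
  have key : ∀ F : (κ → ℝ) → ENNReal, Measurable F → ∫⁻ g, F g ∂Ga κ =
      ∫⁻ z, F (E.symm z) ∂((Measure.pi fun _ : {k // p k} => gaussianReal 0 1).prod
        (Measure.pi fun _ : {k // ¬ p k} => gaussianReal 0 1)) := by
    intro F hF
    exact (Ms.lintegral_comp hF).symm
  have mfh : Measurable fun g => f g * h g := hf.mul hh
  rw [key _ mfh, key _ hf, key _ hh]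
  have e1 : ∀ z : ({k // p k} → ℝ) × ({k // ¬ p k} → ℝ), f (E.symm z) * h (E.symm z) =
      f (E.symm (z.1, 0)) * h (E.symm (0, z.2)) := by
    intro z
    rw [← f1 z.1 z.2, ← h1 z.1 z.2]
  have e2 : ∀ z : ({k // p k} → ℝ) × ({k // ¬ p k} → ℝ), f (E.symm z) =
      f (E.symm (z.1, 0)) * 1 := by
    intro z
    rw [← f1 z.1 z.2, mul_one]
  have e3 : ∀ z : ({k // p k} → ℝ) × ({k // ¬ p k} → ℝ), h (E.symm z) =
      1 * h (E.symm (0, z.2)) := by
    intro z
    rw [← h1 z.1 z.2, one_mul]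
  simp_rw [e1]
  conv_rhs => rw [lintegral_congr e2, lintegral_congr e3]
  rw [lintegral_prod_mul (f := fun x => f (E.symm (x, 0))) (g := fun y => h (E.symm (0, y)))
    mf.aemeasurable mh.aemeasurable,
    lintegral_prod_mul (f := fun x => f (E.symm (x, 0))) (g := fun _ => 1)
      mf.aemeasurable aemeasurable_const,
    lintegral_prod_mul (f := fun _ => 1) (g := fun y => h (E.symm (0, y)))
      aemeasurable_const mh.aemeasurable]
  simp

/-- exponential moments of a Gaussian vector -/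
lemma TRX_exp {κ : Type} [Fintype κ] (b : κ → ℝ) :
    ∫⁻ g : κ → ℝ, ENNReal.ofReal (Real.exp (∑ k, b k * g k)) ∂Ga κ =
      ENNReal.ofReal (Real.exp ((∑ k, b k ^ 2) / 2)) := by
  have h1 : ∀ g : κ → ℝ, Real.exp (∑ k, b k * g k) = ∏ k, Real.exp (b k * g k) := fun g =>
    Real.exp_sum _ _
  simp_rw [h1]
  have hint : Integrable (fun g : κ → ℝ => ∏ k, Real.exp (b k * g k)) (Ga κ) :=
    Integrable.fintype_prod (f := fun k x => Real.exp (b k * x))
      (fun k => integrable_exp_mul_gaussianReal (b k))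
  rw [← ofReal_integral_eq_lintegral_ofReal hint
    (Filter.Eventually.of_forall fun g => Finset.prod_nonneg fun k _ => Real.exp_nonneg _)]
  congr 1
  unfold Ga
  rw [integral_fintype_prod_eq_prod (fun k x => Real.exp (b k * x))]
  have h2 : ∀ k, ∫ x, Real.exp (b k * x) ∂gaussianReal 0 1 = Real.exp (b k ^ 2 / 2) := by
    intro k
    have := congrFun (mgf_fun_id_gaussianReal (μ := 0) (v := 1)) (b k)
    simpa [mgf] using this
  simp_rw [h2]
  rw [← Real.exp_sum, Finset.sum_div]

/-- linear form of leaf c in piece j -/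
noncomputable def TRXl (be : ℝ) (K : ℕ) (j : Fin K) (c : ℕ)
    (g : (Fin K ⊕ (Fin K × Fin K × Fin (2 ^ K + 1))) → ℝ) : ℝ :=
  ∑ k : Fin K × Fin (2 ^ K + 1), mCn be (K - j - 2) c k.1 k.2 * g (Sum.inr (j, k.1, k.2))

/-- partition function of piece j -/
noncomputable def TRXV (be : ℝ) (K : ℕ) (j : Fin K)
    (g : (Fin K ⊕ (Fin K × Fin K × Fin (2 ^ K + 1))) → ℝ) : ℝ :=
  ∑ c ∈ Finset.range (2 ^ (K - j - 2)), Real.exp (TRXl be K j c g)

/-- the trunk up to level j -/
noncomputable def TRXs (K : ℕ) (j : ℕ)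
    (g : (Fin K ⊕ (Fin K × Fin K × Fin (2 ^ K + 1))) → ℝ) : ℝ :=
  ∑ r : Fin K, if (r : ℕ) < j then g (Sum.inl r) else 0

lemma TRXV_pos (be : ℝ) (K : ℕ) (j : Fin K)
    (g : (Fin K ⊕ (Fin K × Fin K × Fin (2 ^ K + 1))) → ℝ) : 0 < TRXV be K j g := by
  unfold TRXV
  apply Finset.sum_pos (fun c _ => Real.exp_pos _)
  rw [Finset.nonempty_range_iff]
  positivity

lemma TRX_lin (be : ℝ) (K : ℕ) (j : Fin K) (c : Fin (2 ^ K))
    (g : (Fin K ⊕ (Fin K × Fin K × Fin (2 ^ K + 1))) → ℝ) :
    ∑ k, mT be K (j, c) k * g k = be * sv * TRXs K j g + TRXl be K j c g := by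
  rw [Fintype.sum_sum_type]
  congr 1
  · unfold TRXs
    rw [Finset.mul_sum]
    apply Finset.sum_congr rfl
    intro r _
    simp only [mT]
    split_ifs
    · rfl
    · ring
  · unfold TRXl
    rw [Fintype.sum_prod_type]
    rw [Finset.sum_eq_single j]
    · apply Finset.sum_congr rfl
      intro k _
      simp only [mT, if_true]
    · intro j' _ hj'
      apply Finset.sum_eq_zero
      intro k _
      simp only [mT, if_neg hj', zero_mul]
    · intro h
      exact absurd (Finset.mem_univ j) h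

lemma TRX_u (be : ℝ) (K : ℕ) (j : Fin K) (hj : (j : ℕ) + 3 ≤ K)
    (g : (Fin K ⊕ (Fin K × Fin K × Fin (2 ^ K + 1))) → ℝ) :
    uT be K j g = (4 : ℝ) ^ (j : ℕ) * Real.exp (be * sv * TRXs K j g) * TRXV be K j g := by
  unfold uT TRXV
  have h1 : ∀ c : Fin (2 ^ K), pT K (j, c) * Real.exp (∑ k, mT be K (j, c) k * g k) =
      (fun c : ℕ => if c < 2 ^ (K - j - 2) then (4 : ℝ) ^ (j : ℕ) *
        Real.exp (be * sv * TRXs K j g) * Real.exp (TRXl be K j c g) else 0) c := by
    intro c
    rw [TRX_lin]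
    simp only [pT, hj, true_and]
    split_ifs
    · rw [Real.exp_add]
      ring
    · ring
  rw [Finset.sum_congr rfl (fun c _ => h1 c)]
  rw [Fin.sum_univ_eq_sum_range (fun c : ℕ => if c < 2 ^ (K - j - 2) then (4 : ℝ) ^ (j : ℕ) *
        Real.exp (be * sv * TRXs K j g) * Real.exp (TRXl be K j c g) else 0) (2 ^ K)]
  rw [← Finset.sum_filter]
  have h2 : (Finset.range (2 ^ K)).filter (fun c => c < 2 ^ (K - j - 2)) =
      Finset.range (2 ^ (K - j - 2)) := by
    ext c
    simp only [Finset.mem_filter, Finset.mem_range]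
    constructor
    · exact fun h => h.2
    · intro h
      refine ⟨lt_of_lt_of_le h ?_, h⟩
      exact Nat.pow_le_pow_right (by norm_num) (by omega)
  rw [h2, Finset.mul_sum]

/-- the law of the piece -/
lemma TRX_VM (be : ℝ) (K : ℕ) (j : Fin K) (a : ℝ) :
    ∫⁻ g, ENNReal.ofReal (TRXV be K j g ^ a) ∂Ga (Fin K ⊕ (Fin K × Fin K × Fin (2 ^ K + 1))) =
      VM be (K - j - 2) a := by
  set n := K - (j : ℕ) - 2 with hn
  have hnK : n ≤ K := by omega
  have hpK : 2 ^ n + 1 ≤ 2 ^ K + 1 := by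
    have : 2 ^ n ≤ 2 ^ K := Nat.pow_le_pow_right (by norm_num) hnK
    omega
  set e : Fin 1 × Fin n × Fin (2 ^ n + 1) → (Fin K ⊕ (Fin K × Fin K × Fin (2 ^ K + 1))) :=
    fun k => Sum.inr (j, Fin.castLE hnK k.2.1, Fin.castLE hpK k.2.2) with he
  have hinj : Function.Injective e := by
    rintro ⟨x, r, i⟩ ⟨x', r', i'⟩ h
    simp only [he, Sum.inr.injEq, Prod.mk.injEq, true_and] at h
    have h1 := Fin.castLE_injective hnK h.1
    have h2 := Fin.castLE_injective hpK h.2
    rw [h1, h2, Subsingleton.elim x x']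
  have M := TRX_map e hinj
  have hZ : ∀ g : (Fin K ⊕ (Fin K × Fin K × Fin (2 ^ K + 1))) → ℝ,
      ZG (mC be n 1) (fun _ => 1) (fun i => g (e i)) = TRXV be K j g := by
    intro g
    unfold ZG TRXV
    rw [Fintype.sum_prod_type, Fintype.sum_unique, ← hn]
    have h1 : ∀ c : Fin (2 ^ n), (1 : ℝ) * Real.exp (∑ k, mC be n 1 (default, c) k * g (e k)) =
        (fun c : ℕ => Real.exp (TRXl be K j c g)) c := by
      intro c
      rw [one_mul]
      simp only
      congr 1
      unfold TRXl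
      rw [Fintype.sum_prod_type, Fintype.sum_unique, ← hn]
      -- reindex
      set e' : Fin n × Fin (2 ^ n + 1) → Fin K × Fin (2 ^ K + 1) :=
        fun k => (Fin.castLE hnK k.1, Fin.castLE hpK k.2) with he'
      have hinj' : Function.Injective e' := by
        rintro ⟨r, i⟩ ⟨r', i'⟩ h
        simp only [he', Prod.mk.injEq] at h
        rw [Fin.castLE_injective hnK h.1, Fin.castLE_injective hpK h.2]
      symm
      rw [← Finset.sum_subset (Finset.subset_univ (Finset.univ.image e')), Finset.sum_image]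
      · apply Finset.sum_congr rfl
        intro k _
        simp only [he', he, mC, if_true, Fin.val_castLE]
      · intro k _ k' _ h
        exact hinj' h
      · intro k _ hk
        have hzero : mCn be n c k.1 k.2 = 0 := by
          unfold mCn
          by_cases hr : (k.1 : ℕ) < n
          · rw [if_pos hr]
            have hc : (c : ℕ) / 2 ^ (n - (k.1 : ℕ)) < 2 ^ (k.1 : ℕ) := by
              rw [Nat.div_lt_iff_lt_mul (by positivity), ← pow_add]
              have : (k.1 : ℕ) + (n - (k.1 : ℕ)) = n := by omega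
              rw [this]
              exact c.2
            have hr2 : 2 ^ (k.1 : ℕ) ≤ 2 ^ n := Nat.pow_le_pow_right (by norm_num) hr.le
            have hbig : 2 ^ n < (k.2 : ℕ) := by
              by_contra hcon
              apply hk
              rw [Finset.mem_image]
              refine ⟨(⟨k.1, hr⟩, ⟨k.2, by omega⟩), Finset.mem_univ _, ?_⟩
              simp only [he']
              rfl
            rw [if_neg (by omega), if_neg (by omega)]
          · rw [if_neg hr]
        rw [hzero, zero_mul]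
    rw [Finset.sum_congr rfl (fun c _ => h1 c)]
    exact Fin.sum_univ_eq_sum_range (fun c : ℕ => Real.exp (TRXl be K j c g)) (2 ^ n)
  unfold VM
  have hm : Measurable fun g : Fin 1 × Fin n × Fin (2 ^ n + 1) → ℝ =>
      ENNReal.ofReal (ZG (mC be n 1) (fun _ => 1) g ^ a) := by
    unfold ZG
    fun_prop
  rw [← M.lintegral_comp hm]
  congr 1
  ext g
  rw [hZ]

lemma TRXl_meas (be : ℝ) (K : ℕ) (j : Fin K) (c : ℕ) : Measurable (TRXl be K j c) := by
  unfold TRXl
  fun_prop

lemma TRXV_meas (be : ℝ) (K : ℕ) (j : Fin K) : Measurable (TRXV be K j) := by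
  unfold TRXV
  apply Finset.measurable_sum
  intro c _
  exact Real.measurable_exp.comp (TRXl_meas be K j c)

lemma TRXV_dep (be : ℝ) (K : ℕ) (j : Fin K)
    (g g' : (Fin K ⊕ (Fin K × Fin K × Fin (2 ^ K + 1))) → ℝ)
    (h : ∀ k, g (Sum.inr (j, k)) = g' (Sum.inr (j, k))) : TRXV be K j g = TRXV be K j g' := by
  unfold TRXV TRXl
  simp_rw [h]

/-- the sum of squares of the trunk coefficients -/
lemma TRX_sq (K : ℕ) (j j' : ℕ) (hjj : j ≤ j') (hj' : j' ≤ K) (A B : ℝ) :
    ∑ r : Fin K, ((if (r : ℕ) < j then A else 0) + (if (r : ℕ) < j' then B else 0)) ^ 2 =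
      (A + B) ^ 2 * j + B ^ 2 * ((j' : ℝ) - j) := by
  have h1 : ∀ r : Fin K, ((if (r : ℕ) < j then A else 0) + (if (r : ℕ) < j' then B else 0)) ^ 2 =
      (fun r : ℕ => (if r < j then (A + B) ^ 2 - B ^ 2 else 0) + (if r < j' then B ^ 2 else 0)) r := by
    intro r
    simp only
    by_cases h1 : (r : ℕ) < j
    · have h2 : (r : ℕ) < j' := by omega
      rw [if_pos h1, if_pos h2, if_pos h1, if_pos h2]
      ring
    · rw [if_neg h1, if_neg h1]
      split_ifs <;> ring
  rw [Finset.sum_congr rfl (fun r _ => h1 r), Fin.sum_univ_eq_sum_range (fun r : ℕ =>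
    (if r < j then (A + B) ^ 2 - B ^ 2 else 0) + (if r < j' then B ^ 2 else 0)) K,
    Finset.sum_add_distrib, ← Finset.sum_filter, ← Finset.sum_filter]
  have h2 : (Finset.range K).filter (fun r => r < j) = Finset.range j := by
    ext c
    simp only [Finset.mem_filter, Finset.mem_range]
    omega
  have h3 : (Finset.range K).filter (fun r => r < j') = Finset.range j' := by
    ext c
    simp only [Finset.mem_filter, Finset.mem_range]
    omega
  rw [h2, h3, Finset.sum_const, Finset.sum_const, Finset.card_range, Finset.card_range,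
    nsmul_eq_mul, nsmul_eq_mul]
  ring

lemma TRX_sv : sv ^ 2 = vv := by
  unfold sv vv
  exact Real.sq_sqrt (Real.log_nonneg (by norm_num))

/-- expectation of the trunk part -/
lemma TRX_trunk (K : ℕ) (j j' : ℕ) (hjj : j ≤ j') (hj' : j' ≤ K) (A B : ℝ) :
    ∫⁻ g, ENNReal.ofReal (Real.exp (A * TRXs K j g + B * TRXs K j' g))
      ∂Ga (Fin K ⊕ (Fin K × Fin K × Fin (2 ^ K + 1))) =
      ENNReal.ofReal (Real.exp (((A + B) ^ 2 * j + B ^ 2 * ((j' : ℝ) - j)) / 2)) := by
  set b : (Fin K ⊕ (Fin K × Fin K × Fin (2 ^ K + 1))) → ℝ := Sum.elim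
    (fun r => (if (r : ℕ) < j then A else 0) + (if (r : ℕ) < j' then B else 0)) (fun _ => 0)
    with hb
  have h1 : ∀ g : (Fin K ⊕ (Fin K × Fin K × Fin (2 ^ K + 1))) → ℝ,
      A * TRXs K j g + B * TRXs K j' g = ∑ k, b k * g k := by
    intro g
    rw [Fintype.sum_sum_type]
    simp only [hb, Sum.elim_inl, Sum.elim_inr, zero_mul, Finset.sum_const_zero, add_zero]
    unfold TRXs
    rw [Finset.mul_sum, Finset.mul_sum, ← Finset.sum_add_distrib]
    apply Finset.sum_congr rfl
    intro r _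
    split_ifs <;> ring
  simp_rw [h1]
  rw [TRX_exp, Fintype.sum_sum_type]
  simp only [hb, Sum.elim_inl, Sum.elim_inr]
  rw [TRX_sq K j j' hjj hj']
  simp

lemma TRXs_meas (K j : ℕ) : Measurable (TRXs K j) := by
  unfold TRXs
  apply Finset.measurable_sum
  intro r _
  by_cases h : (r : ℕ) < j
  · simp only [if_pos h]
    fun_prop
  · simp only [if_neg h]
    fun_prop

lemma TRXs_dep (K j : ℕ) (g g' : (Fin K ⊕ (Fin K × Fin K × Fin (2 ^ K + 1))) → ℝ)
    (h : ∀ r, g (Sum.inl r) = g' (Sum.inl r)) : TRXs K j g = TRXs K j g' := by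
  unfold TRXs
  simp_rw [h]

/-- a power of a piece -/
lemma TRX_pow (be : ℝ) (K : ℕ) (j : Fin K) (hj : (j : ℕ) + 3 ≤ K) (a : ℝ)
    (g : (Fin K ⊕ (Fin K × Fin K × Fin (2 ^ K + 1))) → ℝ) :
    uT be K j g ^ a = (4 : ℝ) ^ (a * (j : ℕ)) * Real.exp (a * be * sv * TRXs K j g) *
      TRXV be K j g ^ a := by
  rw [TRX_u be K j hj, Real.mul_rpow (by positivity) (TRXV_pos be K j g).le,
    Real.mul_rpow (by positivity) (Real.exp_nonneg _), ← Real.rpow_natCast, ← Real.rpow_mul
      (by norm_num), ← Real.exp_mul]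
  congr 2
  · congr 1
    ring
  · congr 1
    ring

/-- module TRX -/
theorem TRX : S_TRX := by
  intro be K _
  classical
  have mV : ∀ (j : Fin K) (a : ℝ), Measurable fun g => ENNReal.ofReal (TRXV be K j g ^ a) :=
    fun j a => ((TRXV_meas be K j).pow_const a).ennreal_ofReal
  have mE : ∀ (j j' : ℕ) (A B : ℝ), Measurable fun g =>
      ENNReal.ofReal (Real.exp (A * TRXs K j g + B * TRXs K j' g)) := fun j j' A B =>
    (Real.measurable_exp.comp (((TRXs_meas K j).const_mul A).add
      ((TRXs_meas K j').const_mul B))).ennreal_ofReal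
  constructor
  · intro j a hj _
    have h1 : ∀ g, ENNReal.ofReal (uT be K j g ^ a) = ENNReal.ofReal ((4 : ℝ) ^ (a * (j : ℕ))) *
        (ENNReal.ofReal (Real.exp (0 * TRXs K j g + (a * be * sv) * TRXs K j g)) *
          ENNReal.ofReal (TRXV be K j g ^ a)) := by
      intro g
      rw [TRX_pow be K j hj, ENNReal.ofReal_mul (by positivity), ENNReal.ofReal_mul (by positivity),
        zero_mul, zero_add, mul_assoc]
    simp_rw [h1]
    have q1 : Measurable fun g => ENNReal.ofReal (Real.exp (0 * TRXs K j g +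
        (a * be * sv) * TRXs K j g)) * ENNReal.ofReal (TRXV be K j g ^ a) :=
      (mE _ _ _ _).mul (mV j a)
    rw [lintegral_const_mul _ q1,
      TRX_fac (fun k => k.isLeft = true) _ _ (mE _ _ _ _) (mV j a), TRX_VM,
      TRX_trunk K j j le_rfl (by omega)]
    · rw [← mul_assoc, ← ENNReal.ofReal_mul (by positivity)]
      congr 4
      have := TRX_sv
      calc ((0 + a * be * sv) ^ 2 * ((j : ℕ) : ℝ) + (a * be * sv) ^ 2 *
            (((j : ℕ) : ℝ) - ((j : ℕ) : ℝ))) / 2
          = a ^ 2 * be ^ 2 * sv ^ 2 * ((j : ℕ) : ℝ) / 2 := by ring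
        _ = _ := by
            rw [this]
            ring
    · intro g g' h
      rw [TRXs_dep K j g g' (fun r => h _ rfl)]
    · intro g g' h
      rw [TRXV_dep be K j g g' (fun k => h _ (by simp))]
  · intro j j' a a' hjj hj' _ _
    have hj : (j : ℕ) + 3 ≤ K := by omega
    have h1 : ∀ g, ENNReal.ofReal (uT be K j g ^ a * uT be K j' g ^ a') =
        ENNReal.ofReal ((4 : ℝ) ^ (a * (j : ℕ) + a' * (j' : ℕ))) *
        (ENNReal.ofReal (Real.exp ((a * be * sv) * TRXs K j g + (a' * be * sv) * TRXs K j' g)) *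
          (ENNReal.ofReal (TRXV be K j g ^ a) * ENNReal.ofReal (TRXV be K j' g ^ a'))) := by
      intro g
      rw [TRX_pow be K j hj, TRX_pow be K j' hj', Real.rpow_add (by norm_num), Real.exp_add,
        ← ENNReal.ofReal_mul (Real.rpow_nonneg (TRXV_pos be K j g).le _),
        ← ENNReal.ofReal_mul (by positivity), ← ENNReal.ofReal_mul (by positivity)]
      congr 1
      ring
    simp_rw [h1]
    have q0 : Measurable fun g => ENNReal.ofReal (TRXV be K j g ^ a) *
        ENNReal.ofReal (TRXV be K j' g ^ a') := (mV j a).mul (mV j' a')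
    have q1 : Measurable fun g => ENNReal.ofReal (Real.exp ((a * be * sv) * TRXs K j g +
        (a' * be * sv) * TRXs K j' g)) * (ENNReal.ofReal (TRXV be K j g ^ a) *
        ENNReal.ofReal (TRXV be K j' g ^ a')) := (mE _ _ _ _).mul q0
    rw [lintegral_const_mul _ q1,
      TRX_fac (fun k => k.isLeft = true) _ _ (mE _ _ _ _) q0,
      TRX_fac (fun k => ∃ k', k = Sum.inr (j, k')) _ _ (mV j a) (mV j' a'),
      TRX_VM, TRX_VM, TRX_trunk K j j' hjj.le (by omega)]
    · rw [← mul_assoc, ← ENNReal.ofReal_mul (by positivity)]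
      congr 4
      have := TRX_sv
      calc ((a * be * sv + a' * be * sv) ^ 2 * ((j : ℕ) : ℝ) + (a' * be * sv) ^ 2 *
            (((j' : ℕ) : ℝ) - ((j : ℕ) : ℝ))) / 2
          = be ^ 2 * sv ^ 2 / 2 * ((a + a') ^ 2 * ((j : ℕ) : ℝ) + a' ^ 2 *
            (((j' : ℕ) : ℝ) - ((j : ℕ) : ℝ))) := by ring
        _ = _ := by
            rw [this]
    · intro g g' h
      rw [TRXV_dep be K j g g' (fun k => h _ ⟨k, rfl⟩)]
    · intro g g' h
      rw [TRXV_dep be K j' g g' (fun k => h _ ?_)]
      rintro ⟨k', hk'⟩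
      simp only [Sum.inr.injEq, Prod.mk.injEq] at hk'
      have := congrArg Fin.val hk'.1
      omega
    · intro g g' h
      rw [TRXs_dep K j g g' (fun r => h _ rfl), TRXs_dep K j' g g' (fun r => h _ rfl)]
    · intro g g' h
      rw [TRXV_dep be K j g g' (fun k => h _ (by simp)), TRXV_dep be K j' g g'
        (fun k => h _ (by simp))]

end PN
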