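import Pool.Agent.H24.PN.Stmts

/-! Module VMO: moments of the partition function of one cosine window field. -/

namespace PN
open MeasureTheory Complex ProbabilityTheory PM

/-- one step of the telescoping majorant -/
lemma VMO_step {q s B u : ℝ} (hs : 0 < s) (hsq : s ≤ q) (hqs : q + s ≤ 1) (hB : 1 < B)
    (hu : 0 < u) : u ^ q / (1 + u) ≤ 4 * B / (B - 1) *
      (B * u ^ s / (1 + B * u ^ s) - u ^ s / (1 + u ^ s)) := by
  set w := u ^ s with hw
  have hw0 : 0 < w := Real.rpow_pos_of_pos hu s
  have hB0 : 0 < B - 1 := by linarith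
  have e1 : 4 * B / (B - 1) * (B * w / (1 + B * w) - w / (1 + w)) =
      4 * B * w / ((1 + B * w) * (1 + w)) := by
    have h1 : (1 + B * w) ≠ 0 := by positivity
    have h2 : (1 + w) ≠ 0 := by positivity
    have h3 : B - 1 ≠ 0 := hB0.ne'
    field_simp
    ring
  rw [e1, div_le_div_iff₀ (by positivity) (by positivity)]
  have key : u ^ q * (1 + w) ^ 2 ≤ 4 * w * (1 + u) := by
    rcases le_total u 1 with h | h
    · have h1 : u ^ q ≤ w := Real.rpow_le_rpow_of_exponent_ge hu h hsq
      have h2 : w ≤ 1 := Real.rpow_le_one hu.le h hs.le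
      have h3 : (1 + w) ^ 2 ≤ 4 := by nlinarith
      calc u ^ q * (1 + w) ^ 2 ≤ w * 4 := by
            apply mul_le_mul h1 h3 (by positivity) hw0.le
        _ ≤ 4 * w * (1 + u) := by nlinarith [mul_pos hw0 hu]
    · have h2 : 1 ≤ w := Real.one_le_rpow h hs.le
      have h3 : (1 + w) ^ 2 ≤ 4 * w ^ 2 := by nlinarith
      have h4 : u ^ q * w ≤ u := by
        rw [hw, ← Real.rpow_add hu]
        calc u ^ (q + s) ≤ u ^ (1 : ℝ) := Real.rpow_le_rpow_of_exponent_le h hqs
          _ = u := Real.rpow_one u
      have h5 : 0 ≤ u ^ q := Real.rpow_nonneg hu.le q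
      calc u ^ q * (1 + w) ^ 2 ≤ u ^ q * (4 * w ^ 2) := mul_le_mul_of_nonneg_left h3 h5
        _ = 4 * w * (u ^ q * w) := by ring
        _ ≤ 4 * w * u := by
            apply mul_le_mul_of_nonneg_left h4 (by positivity)
        _ ≤ 4 * w * (1 + u) := by nlinarith
  have h5 : 0 ≤ u ^ q := Real.rpow_nonneg hu.le q
  calc u ^ q * ((1 + B * w) * (1 + w)) ≤ u ^ q * (B * (1 + w) * (1 + w)) := by
        apply mul_le_mul_of_nonneg_left _ h5
        apply mul_le_mul_of_nonneg_right _ (by positivity)
        nlinarith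
    _ = B * (u ^ q * (1 + w) ^ 2) := by ring
    _ ≤ B * (4 * w * (1 + u)) := by
        apply mul_le_mul_of_nonneg_left key (by linarith)
    _ = 4 * B * w * (1 + u) := by ring

/-- soft tails at geometric levels, weighted, are bounded by the power -/
lemma VMO_tel (q be : ℝ) (hq : 0 < q) (hq1 : q < 1) (hbe : 0 < be) : ∃ A : ℝ, 0 < A ∧
    ∀ (T z : ℝ) (N : ℕ), 0 < T → 0 < z →
    ∑ m ∈ Finset.range N, (T * Real.exp (be * m)) ^ q * ft (T * Real.exp (be * m)) z ≤
      A * z ^ q := by
  set s := min q (1 - q) with hs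
  have hs0 : 0 < s := lt_min hq (by linarith)
  have hsq : s ≤ q := min_le_left _ _
  have hqs : q + s ≤ 1 := by
    have := min_le_right q (1 - q)
    linarith
  set B := Real.exp (be * s) with hB
  have hB1 : 1 < B := by
    rw [hB, Real.one_lt_exp_iff]
    positivity
  have hB0 : 0 < B - 1 := by linarith
  refine ⟨4 * B / (B - 1), by positivity, ?_⟩
  intro T z N hT hz
  set u : ℕ → ℝ := fun m => T * Real.exp (be * m) / z with hu
  have hu0 : ∀ m, 0 < u m := fun m => by
    rw [hu]
    positivity
  have husucc : ∀ m, u (m + 1) ^ s = B * u m ^ s := by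
    intro m
    have : u (m + 1) = Real.exp be * u m := by
      simp only [hu]
      push_cast
      rw [mul_add, Real.exp_add, mul_one]
      ring
    rw [this, Real.mul_rpow (Real.exp_nonneg _) (hu0 m).le, ← Real.exp_mul]
  set ψ : ℕ → ℝ := fun m => z ^ q * (4 * B / (B - 1)) * (u m ^ s / (1 + u m ^ s)) with hψ
  have hterm : ∀ m : ℕ, (T * Real.exp (be * m)) ^ q * ft (T * Real.exp (be * m)) z ≤
      ψ (m + 1) - ψ m := by
    intro m
    have h1 : (T * Real.exp (be * m)) ^ q * ft (T * Real.exp (be * m)) z =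
        z ^ q * (u m ^ q / (1 + u m)) := by
      have h2 : T * Real.exp (be * m) = z * u m := by
        rw [hu]
        field_simp
      rw [h2, Real.mul_rpow hz.le (hu0 m).le]
      unfold ft
      have h3 : z / (z + z * u m) = 1 / (1 + u m) := by
        have := hu0 m
        field_simp
      rw [h3]
      ring
    rw [h1, hψ]
    simp only
    rw [husucc]
    calc z ^ q * (u m ^ q / (1 + u m)) ≤ z ^ q * (4 * B / (B - 1) *
          (B * u m ^ s / (1 + B * u m ^ s) - u m ^ s / (1 + u m ^ s))) := by
          apply mul_le_mul_of_nonneg_left (VMO_step hs0 hsq hqs hB1 (hu0 m))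
          positivity
      _ = _ := by ring
  calc ∑ m ∈ Finset.range N, (T * Real.exp (be * m)) ^ q * ft (T * Real.exp (be * m)) z
      ≤ ∑ m ∈ Finset.range N, (ψ (m + 1) - ψ m) := Finset.sum_le_sum fun m _ => hterm m
    _ = ψ N - ψ 0 := Finset.sum_range_sub ψ N
    _ ≤ ψ N := by
        have : 0 ≤ ψ 0 := by
          rw [hψ]
          have := hu0 0
          positivity
        linarith
    _ ≤ z ^ q * (4 * B / (B - 1)) * 1 := by
        rw [hψ]
        simp only
        apply mul_le_mul_of_nonneg_left _ (by positivity)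
        rw [div_le_one (by have := hu0 N; positivity)]
        linarith [hu0 N]
    _ = 4 * B / (B - 1) * z ^ q := by ring

lemma VMO_sum (N : ℕ) : ∑ m ∈ Finset.range N, ((m : ℝ) + 1) = (N : ℝ) * (N + 1) / 2 := by
  induction N with
  | zero => simp
  | succ N ih =>
    rw [Finset.sum_range_succ, ih]
    push_cast
    ring

lemma VMO_ft_meas {κ : Type} [Fintype κ] {ι : Type} [Fintype ι] (a : ι → κ → ℝ) (p : ι → ℝ)
    (lam : ℝ) : Measurable fun g : κ → ℝ => ft lam (ZG a p g) := by
  unfold ft ZG
  fun_prop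

lemma VMO_Z_meas {κ : Type} [Fintype κ] {ι : Type} [Fintype ι] (a : ι → κ → ℝ) (p : ι → ℝ) :
    Measurable fun g : κ → ℝ => ZG a p g := by
  unfold ZG
  fun_prop

lemma VMO_ft_bd {lam z : ℝ} (hl : 0 < lam) (hz : 0 ≤ z) : 0 ≤ ft lam z ∧ ft lam z ≤ 1 := by
  unfold ft
  constructor
  · positivity
  · rw [div_le_one (by positivity)]
    linarith

lemma VMO_typ_pos (be : ℝ) (K : ℕ) : 0 < typ be K := Real.exp_pos _

/-- module VMO -/
theorem VMO (hLT : S_LT) (hTB : S_TB) (hK : S_KAH) (hB : S_CVB) (hC : S_CVC) (hM : S_MOT) :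
    S_VMO := by
  intro be q hbe hq hbq
  have hr2 : 0 < Real.sqrt 2 := by positivity
  have hbe0 : 0 < be := by linarith
  have hq1 : q < 1 := by
    by_contra hcon
    rw [not_lt] at hcon
    nlinarith
  obtain ⟨A, hA, tel⟩ := VMO_tel q be hq hq1 hbe0
  obtain ⟨c1, K0, hc1, hlow⟩ := hLT be hbe
  obtain ⟨CB, cB, hCB, hcB, hup⟩ := hTB be hbe
  obtain ⟨CC, hCC, hcov⟩ := hC
  obtain ⟨C1, hC1, hkah⟩ := hK (be ^ 2 * CC) (by positivity)
  obtain ⟨C', hC', hmot⟩ := hM (Real.sqrt 2) be q (C1 * CB) cB hr2 hbe0 hq (by positivity) hcB hbq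
  refine ⟨c1 / (4 * A), C', max 1 K0, by positivity, hC', ?_⟩
  intro K
  have hT := VMO_typ_pos be K
  have hZpos : ∀ g, 0 < ZG (mC be K 1) (fun _ => 1) g := by
    intro g
    unfold ZG
    apply Finset.sum_pos
    · intro i _
      positivity
    · exact ⟨(0, ⟨0, by positivity⟩), Finset.mem_univ _⟩
  have hZm := VMO_Z_meas (mC be K 1) (fun _ => 1)
  constructor
  · -- lower bound
    intro hKK
    have hK1 : 1 ≤ K := le_trans (le_max_left _ _) hKK
    have hK0 : K0 ≤ K := le_trans (le_max_right _ _) hKK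
    have hKR : (1 : ℝ) ≤ K := by exact_mod_cast hK1
    have hlev : ∀ m : ℕ, (m : ℝ) ≤ Real.sqrt K → c1 * ((1 + m) * Real.exp (-(Real.sqrt 2 * m))) ≤
        TR (mC be K 1) (fun _ => 1) (typ be K * Real.exp (be * m)) := by
      intro m hm
      have h1 := hlow K 1 hK0 (fun _ => 1) (typ be K * Real.exp (be * m)) Finset.univ
        (fun _ => (m : ℝ)) (fun _ => zero_le_one) (by positivity) (by
          intro i _
          refine ⟨Nat.cast_nonneg m, hm, ?_⟩
          rw [one_mul])
      refine le_trans ?_ h1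
      apply mul_le_mul_of_nonneg_left _ hc1.le
      rw [Finset.sum_const, Finset.card_univ, Fintype.card_prod, Fintype.card_fin,
        Fintype.card_fin, one_mul, nsmul_eq_mul]
      push_cast
      have h2 : (2 : ℝ) ^ K * ((1 + m) * Real.exp (-(Real.sqrt 2 * m)) / 2 ^ K) =
          (1 + m) * Real.exp (-(Real.sqrt 2 * m)) := by
        field_simp
      rw [h2, le_min_iff]
      refine ⟨?_, le_rfl⟩
      have h3 : (1 : ℝ) + m ≤ Real.exp (Real.sqrt 2 * m) := by
        have h4 := Real.add_one_le_exp (Real.sqrt 2 * m)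
        have h5 : (1 : ℝ) ≤ Real.sqrt 2 := Real.one_le_sqrt.mpr (by norm_num)
        have h6 : (0 : ℝ) ≤ m := Nat.cast_nonneg m
        nlinarith
      rw [Real.exp_neg]
      exact mul_inv_le_one_of_le₀ h3 (Real.exp_nonneg _)
    set N := ⌊Real.sqrt K⌋₊ + 1 with hN
    have hNm : ∀ m ∈ Finset.range N, (m : ℝ) ≤ Real.sqrt K := by
      intro m hm
      rw [Finset.mem_range, hN, Nat.lt_succ_iff] at hm
      exact le_trans (by exact_mod_cast hm) (Nat.floor_le (Real.sqrt_nonneg _))
    have hNK : (K : ℝ) ≤ (N : ℝ) ^ 2 := by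
      have h1 : Real.sqrt K ≤ N := by
        rw [hN]
        push_cast
        exact (Nat.lt_floor_add_one _).le
      calc (K : ℝ) = Real.sqrt K ^ 2 := (Real.sq_sqrt (by positivity)).symm
        _ ≤ (N : ℝ) ^ 2 := pow_le_pow_left₀ (Real.sqrt_nonneg _) h1 2
    have hN1 : 1 ≤ N := by omega
    -- the weighted sum of levels
    have hsum : c1 * (typ be K ^ q * ((if be * q = Real.sqrt 2 then (K : ℝ) + 1 else 1) / 4)) ≤
        ∑ m ∈ Finset.range N, (typ be K * Real.exp (be * m)) ^ q *
          TR (mC be K 1) (fun _ => 1) (typ be K * Real.exp (be * m)) := by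
      have h1 : ∀ m ∈ Finset.range N, c1 * (typ be K ^ q * (((m : ℝ) + 1) *
          Real.exp ((be * q - Real.sqrt 2) * m))) ≤ (typ be K * Real.exp (be * m)) ^ q *
          TR (mC be K 1) (fun _ => 1) (typ be K * Real.exp (be * m)) := by
        intro m hm
        have h2 := hlev m (hNm m hm)
        calc c1 * (typ be K ^ q * (((m : ℝ) + 1) * Real.exp ((be * q - Real.sqrt 2) * m)))
            = (typ be K * Real.exp (be * m)) ^ q *
              (c1 * ((1 + m) * Real.exp (-(Real.sqrt 2 * m)))) := by
              rw [Real.mul_rpow hT.le (Real.exp_nonneg _), ← Real.exp_mul]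
              have : Real.exp ((be * q - Real.sqrt 2) * m) =
                  Real.exp (be * m * q) * Real.exp (-(Real.sqrt 2 * m)) := by
                rw [← Real.exp_add]
                congr 1
                ring
              rw [this]
              ring
          _ ≤ _ := by
              apply mul_le_mul_of_nonneg_left h2
              positivity
      refine le_trans ?_ (Finset.sum_le_sum h1)
      rw [← Finset.mul_sum, ← Finset.mul_sum]
      apply mul_le_mul_of_nonneg_left _ hc1.le
      apply mul_le_mul_of_nonneg_left _ (by positivity)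
      split_ifs with heq
      · have h3 : ∀ m : ℕ, ((m : ℝ) + 1) * Real.exp ((be * q - Real.sqrt 2) * m) = (m : ℝ) + 1 := by
          intro m
          rw [heq, sub_self, zero_mul, Real.exp_zero, mul_one]
        simp_rw [h3]
        rw [VMO_sum]
        have h4 : (1 : ℝ) ≤ N := by exact_mod_cast hN1
        nlinarith
      · calc (1 : ℝ) / 4 ≤ ((0 : ℕ) + 1 : ℝ) * Real.exp ((be * q - Real.sqrt 2) * (0 : ℕ)) := by
              simp
              norm_num
          _ ≤ _ := Finset.single_le_sum (f := fun m : ℕ => ((m : ℝ) + 1) *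
              Real.exp ((be * q - Real.sqrt 2) * m)) (fun m _ => by positivity)
              (Finset.mem_range.mpr hN1)
    -- integrate the pointwise inequality
    have hint : ∀ m : ℕ, Integrable (fun g => ft (typ be K * Real.exp (be * m))
        (ZG (mC be K 1) (fun _ => 1) g)) (Ga (Fin 1 × Fin K × Fin (2 ^ K + 1))) := by
      intro m
      apply Integrable.of_bound (VMO_ft_meas _ _ _).aestronglyMeasurable 1
      filter_upwards with g
      have := VMO_ft_bd (show 0 < typ be K * Real.exp (be * m) by positivity) (hZpos g).le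
      rw [Real.norm_eq_abs, abs_of_nonneg this.1]
      exact this.2
    have hI : ENNReal.ofReal (∑ m ∈ Finset.range N, (typ be K * Real.exp (be * m)) ^ q *
          TR (mC be K 1) (fun _ => 1) (typ be K * Real.exp (be * m))) ≤
        ENNReal.ofReal A * VM be K q := by
      have h1 : ∑ m ∈ Finset.range N, (typ be K * Real.exp (be * m)) ^ q *
          TR (mC be K 1) (fun _ => 1) (typ be K * Real.exp (be * m)) =
          ∫ g, ∑ m ∈ Finset.range N, (typ be K * Real.exp (be * m)) ^ q *
            ft (typ be K * Real.exp (be * m)) (ZG (mC be K 1) (fun _ => 1) g)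
            ∂Ga (Fin 1 × Fin K × Fin (2 ^ K + 1)) := by
        rw [integral_finsetSum _ (fun m _ => (hint m).const_mul _)]
        apply Finset.sum_congr rfl
        intro m _
        rw [integral_const_mul]
        rfl
      rw [h1, ofReal_integral_eq_lintegral_ofReal
        (integrable_finsetSum _ (fun m _ => (hint m).const_mul _))
        (Filter.Eventually.of_forall fun g => Finset.sum_nonneg fun m _ =>
          mul_nonneg (by positivity) (VMO_ft_bd (by positivity) (hZpos g).le).1)]
      unfold VM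
      rw [← lintegral_const_mul _ (by
        exact (hZm.pow_const q).ennreal_ofReal)]
      apply lintegral_mono
      intro g
      simp only
      rw [← ENNReal.ofReal_mul hA.le]
      exact ENNReal.ofReal_le_ofReal (tel (typ be K) _ N hT (hZpos g))
    have hfin : ENNReal.ofReal (c1 * (typ be K ^ q *
        ((if be * q = Real.sqrt 2 then (K : ℝ) + 1 else 1) / 4))) ≤ ENNReal.ofReal A * VM be K q :=
      (ENNReal.ofReal_le_ofReal hsum).trans hI
    have hA1 : ENNReal.ofReal A⁻¹ * (ENNReal.ofReal A * VM be K q) = VM be K q := by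
      rw [← mul_assoc, ← ENNReal.ofReal_mul (by positivity), inv_mul_cancel₀ hA.ne',
        ENNReal.ofReal_one, one_mul]
    rw [← hA1]
    refine le_trans (le_of_eq ?_) (mul_le_mul_right hfin _)
    rw [← ENNReal.ofReal_mul (by positivity)]
    congr 1
    field_simp
  · -- upper bound
    unfold VM
    have hn : (1 : ℝ) ≤ (K : ℝ) + 1 := by
      have : (0 : ℝ) ≤ K := Nat.cast_nonneg K
      linarith
    refine hmot (Fin 1 × Fin K × Fin (2 ^ K + 1) → ℝ) (Ga _) (fun g => ZG (mC be K 1) (fun _ => 1) g)
      (typ be K) (K + 1) hZm (fun g => (hZpos g).le) hT hn ?_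
    intro x hx
    obtain ⟨hv1, hv2⟩ := hB be K
    obtain ⟨hw1, hw2, hw3⟩ := hcov be K 1
    have h1 := hkah (Fin 1 × Fin (2 ^ K)) (Fin K × Fin (2 ^ K)) (Fin 1 × Fin K × Fin (2 ^ K + 1))
      (fun i => mB be K i.2) (mC be K 1) (fun _ => 1) (typ be K * Real.exp (be * x))
      (fun _ => zero_le_one) (by positivity) (by
        intro i j
        have h2 := hv1 i.2 j.2
        have h3 := hw1 i j (Subsingleton.elim _ _)
        linarith) (by
        intro i
        rw [hw3 i, hv2 i.2]
        have : 0 ≤ be ^ 2 * CC := by positivity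
        linarith)
    have h2 := hup K (fun _ => 1) x (fun _ => zero_le_one) (fun _ => le_rfl) hx
    have h3 : TR (fun i : Fin 1 × Fin (2 ^ K) => mB be K i.2) (fun _ => 1)
        (typ be K * Real.exp (be * x)) = TR (mB be K) (fun _ => 1)
        (typ be K * Real.exp (be * x)) := by
      unfold TR ZG
      congr 1
      ext g
      rw [Fintype.sum_prod_type, Fintype.sum_unique]
    rw [h3] at h1
    calc _ ≤ C1 * TR (mB be K) (fun _ => 1) (typ be K * Real.exp (be * x)) := h1
      _ ≤ C1 * (CB * (1 + x) * Real.exp (-(Real.sqrt 2 * x)) *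
          (Real.exp (-cB * x ^ 2 / (K + 1)) + Real.exp (-cB * x))) :=
          mul_le_mul_of_nonneg_left h2 hC1.le
      _ = _ := by
          rw [neg_mul (Real.sqrt 2) x]
          ring

end PN
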