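import Pool.Agent.H24.PN.STN
import Pool.Agent.H24.PN.KH0
import Pool.Agent.H24.PN.KAH
import Pool.Agent.H24.PN.COV
import Pool.Agent.H24.PN.LNC
import Pool.Agent.H24.PN.LNG
import Pool.Agent.H24.PN.LN1
import Pool.Agent.H24.PN.LIN
import Pool.Agent.H24.PN.RIE
import Pool.Agent.H24.PN.MCP
import Pool.Agent.H24.PN.MOT
import Pool.Agent.H24.PN.CMS
import Pool.Agent.H24.PN.ORT
import Pool.Agent.H24.PN.NTG
import Pool.Agent.H24.PN.NTH
import Pool.Agent.H24.PN.HAR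
import Pool.Agent.H24.PN.OPT
import Pool.Agent.H24.PN.OPL
import Pool.Agent.H24.PN.BL1
import Pool.Agent.H24.PN.PIN
import Pool.Agent.H24.PN.RAT
import Pool.Agent.H24.PN.BRB
import Pool.Agent.H24.PN.BRG
import Pool.Agent.H24.PN.BLO
import Pool.Agent.H24.PN.BLB
import Pool.Agent.H24.PN.CVB
import Pool.Agent.H8.PN.CVC
import Pool.Agent.H24.PN.TBV
import Pool.Agent.H24.PN.TBE
import Pool.Agent.H24.PN.TB
import Pool.Agent.H24.PN.LFM
import Pool.Agent.H24.PN.LSM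
import Pool.Agent.H24.PN.LPB
import Pool.Agent.H24.PN.LT
import Pool.Agent.H24.PN.PUB
import Pool.Agent.H24.PN.PLB
import Pool.Agent.H24.PN.VMO
import Pool.Agent.H24.PN.TRX
import Pool.Agent.H24.PN.TRM
import Pool.Agent.H24.PN.TRP
import Pool.Agent.H24.PN.CLW
import Pool.Agent.H24.PN.DSM
import Pool.Agent.H24.PN.DLW
import Pool.Agent.H24.PN.MNB
import Pool.Agent.H50.PN.OUA
import Pool.Agent.H24.PN.OUB
import Pool.Agent.H24.PN.JUB
import Pool.Agent.H24.PN.JUC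
import Pool.Agent.H24.PN.JUD
import Pool.Agent.H24.PN.SUM
import Pool.Agent.H24.PN.FIN
import Pool.Agent.H24.PM.All

/-! All modules of part 2. -/

namespace PN
open PM

theorem tSTN : S_STN := PN.STN

theorem tKH0 : S_KH0 := PN.KH0 tSTN

theorem tKAH : S_KAH := PN.KAH tKH0

theorem tCOV : S_COV := PN.COV

theorem tLNC : S_LNC := PN.LNC

theorem tLNG : S_LNG := PN.LNG

theorem tLN1 : S_LN1 := PN.LN1 tLNC tLNG

theorem tLIN : S_LIN := PN.LIN tLN1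

theorem tRIE : S_RIE := PN.RIE

theorem tMCP : S_MCP := PN.MCP

theorem tMOT : S_MOT := PN.MOT

theorem tCMS : S_CMS := PN.CMS

theorem tORT : S_ORT := PN.ORT

theorem tNTG : S_NTG := PN.NTG PM.tNTA PM.tNTC

theorem tNTH : S_NTH := PN.NTH PM.tNTZ

theorem tHAR : S_HAR := PN.HAR

theorem tOPT : S_OPT := PN.OPT

theorem tOPL : S_OPL := PN.OPL

theorem tBL1 : S_BL1 := PN.BL1 tHAR tOPT

theorem tPIN : S_PIN := PN.PIN tORT

theorem tRAT : S_RAT := PN.RAT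

theorem tBRB : S_BRB := PN.BRB tBL1 tRAT

theorem tBRG : S_BRG := PN.BRG tPIN tBRB

theorem tBLO : S_BLO := PN.BLO tOPL tBL1

theorem tBLB : S_BLB := PN.BLB tBLO tRAT tCMS

theorem tBLW : S_BLW := PN.BLW tPIN tBLB

theorem tCVB : S_CVB := PN.CVB

theorem tCVC : S_CVC := PN.CVC

theorem tTBV : S_TBV := PN.TBV tBRG

theorem tTBE : S_TBE := PN.TBE tBRG

theorem tTB : S_TB := PN.TB tTBV tTBE tCMS tORT

theorem tLFM : S_LFM := PN.LFM tBLW tBRG tCMS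

theorem tLSM : S_LSM := PN.LSM tBRG tCMS

theorem tLPB : S_LPB := PN.LPB tORT

theorem tLT : S_LT := PN.LT tLFM tLSM tLPB

theorem tPUB : S_PUB := PN.PUB tTB tLIN tKAH tCOV tCVB tNTG tRIE

theorem tPLB : S_PLB := PN.PLB tLT tLIN tKAH tCOV tCVC tNTG tNTH tRIE

theorem tVMO : S_VMO := PN.VMO tLT tTB tKAH tCVB tCVC tMOT

theorem tTRX : S_TRX := PN.TRX

theorem tTRM : S_TRM := PN.TRM tTRX tVMO

theorem tTRP : S_TRP := PN.TRP tTRM tLIN tKAH tCOV tCVC tNTG tMCP PM.tCONT PM.tJM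

theorem tCLW : S_CLW := PN.CLW tPLB PM.tJM

theorem tDSM : S_DSM := PN.DSM PM.tMOM PM.tNTA PM.tNTF PM.tGC tNTG

theorem tDLW : S_DLW := PN.DLW tPLB tDSM PM.tM1 PM.tMIX PM.tCONT PM.tJM

theorem tMNB : S_MNB := PN.MNB tPUB tMOT PM.tCIR PM.tIND PM.tCONT

theorem tOUA : S_OUA := PN.OUA tPUB tMOT PM.tJM PM.tCONT

theorem tOUB : S_OUB := PN.OUB tPUB PM.tJM PM.tCONT

theorem tJUB : S_JUB := PN.JUB tMNB tOUA tOUB PM.tJM PM.tGC

theorem tJUC : S_JUC := PN.JUC tMNB tOUA PM.tJM PM.tGC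

theorem tJUD : S_JUD := PN.JUD tMNB tOUB PM.tJM PM.tGC

theorem tSUM : S_SUM := PN.SUM

theorem part1 : Part1 where
  good := PM.tGOOD
  ured := PM.tURED
  m1 := PM.tM1
  smu := PM.tSMU
  lred := PM.tLRED
  plu := PM.tPLU
  jm := PM.tJM
  sml := PM.tSML
  bohr := PM.tBOHR
  sub := (PM.ASM PM.tUA PM.tUE PM.tUE1 PM.tLE PM.tLE1 PM.tLA PM.tBOHR).1
  sup := (PM.ASM PM.tUA PM.tUE PM.tUE1 PM.tLE PM.tLE1 PM.tLA PM.tBOHR).2.1
  sup1 := (PM.ASM PM.tUA PM.tUE PM.tUE1 PM.tLE PM.tLE1 PM.tLA PM.tBOHR).2.2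

theorem tFIN (γ p : ℝ) (hp : 0 < p) (hp1 : p ≤ 1) : Order γ p (gord γ p) :=
  FIN part1 tTRP tCLW tDLW tJUB tJUC tJUD tSUM γ p hp hp1

end PN
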