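import Pool.Agent.H24.PN.BRG

/-! Project PM, part 2, module BLW: see BRG.lean, theorem PN.BLW. -/
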