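import Pool.Agent.H24.PN.Stmts
import Pool.Agent.H31.PM.Tools
import Pool.Agent.H24.PM.H5Exp

/-! Tools for module DLW of project PM part 2. -/

namespace PN
open MeasureTheory Complex ProbabilityTheory PM PM.T31

/-! Fubini on the sample space -/

theorem dlw_int {h : Om → ℝ → ℝ} (hc : Continuous (fun q : Om × ℝ => h q.1 q.2)) (a b : ℝ) :
    Integrable (Function.uncurry h) (P.prod (volume.restrict (Set.Ioc a b))) := by
  obtain ⟨B2, hB2⟩ := ((isCompact_univ (X := Om)).prod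
    (isCompact_Icc (a := a) (b := b))).exists_bound_of_continuousOn hc.continuousOn
  refine Integrable.of_bound (f := Function.uncurry h) hc.aestronglyMeasurable B2 ?_
  have h1 : ∀ᵐ q ∂(P.prod (volume.restrict (Set.Ioc a b))),
      q ∈ (Set.univ : Set Om) ×ˢ Set.Ioc a b := by
    have h2 : P.prod (volume.restrict (Set.Ioc a b)) =
        (P.prod volume).restrict ((Set.univ : Set Om) ×ˢ Set.Ioc a b) := by
      rw [← Measure.prod_restrict, Measure.restrict_univ]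
    rw [h2]
    exact ae_restrict_mem (MeasurableSet.univ.prod measurableSet_Ioc)
  filter_upwards [h1] with q hq
  exact hB2 q ⟨hq.1, Set.Ioc_subset_Icc_self hq.2⟩

theorem dlw_swap {h : Om → ℝ → ℝ} (hc : Continuous (fun q : Om × ℝ => h q.1 q.2)) (a b : ℝ) :
    ∫ ω, ∫ t in Set.Ioc a b, h ω t ∂volume ∂P = ∫ t in Set.Ioc a b, ∫ ω, h ω t ∂P :=
  integral_integral_swap (dlw_int hc a b)

theorem dlw_cint {h : Om → ℝ → ℝ} (hc : Continuous (fun q : Om × ℝ => h q.1 q.2)) (a b : ℝ) :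
    Continuous (fun ω => ∫ t in Set.Ioc a b, h ω t) := by
  have := continuous_parametric_integral_of_continuous (f := h) hc
    (isCompact_Icc (a := a) (b := b)) (μ := volume)
  simpa only [integral_Icc_eq_integral_Ioc] using this

/-- continuous functions on the sample space are integrable -/
theorem dlw_cont_int {f : Om → ℝ} (hf : Continuous f) : Integrable f P := by
  obtain ⟨B, hB⟩ := (isCompact_univ (X := Om)).exists_bound_of_continuousOn hf.continuousOn
  refine Integrable.of_bound hf.aestronglyMeasurable B ?_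
  filter_upwards with ω
  exact hB ω (Set.mem_univ _)

theorem dlw_mulint {h : Om → ℝ → ℝ} (hc : Continuous (fun q : Om × ℝ => h q.1 q.2))
    (a b a' b' : ℝ) :
    ∫ ω, (∫ t in Set.Ioc a b, h ω t) * (∫ t in Set.Ioc a' b', h ω t) ∂P =
      ∫ t in Set.Ioc a b, ∫ t' in Set.Ioc a' b', ∫ ω, h ω t * h ω t' ∂P := by
  have h1 : ∀ ω, (∫ t in Set.Ioc a b, h ω t) * (∫ t in Set.Ioc a' b', h ω t) =
      ∫ t in Set.Ioc a b, h ω t * (∫ t' in Set.Ioc a' b', h ω t') := fun ω => by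
    rw [← integral_mul_const]
  simp_rw [h1]
  have hc2 : Continuous (fun q : Om × ℝ => h q.1 q.2 * (∫ t' in Set.Ioc a' b', h q.1 t')) :=
    hc.mul ((dlw_cint hc a' b').comp continuous_fst)
  rw [dlw_swap (h := fun ω t => h ω t * (∫ t' in Set.Ioc a' b', h ω t')) hc2]
  refine integral_congr_ae (Filter.Eventually.of_forall fun t => ?_)
  simp only
  have h2 : ∀ ω, h ω t * (∫ t' in Set.Ioc a' b', h ω t') =
      ∫ t' in Set.Ioc a' b', h ω t * h ω t' := fun ω => by rw [← integral_const_mul]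
  simp_rw [h2]
  have hc3 : Continuous (fun q : Om × ℝ => h q.1 t * h q.1 q.2) := by
    refine Continuous.mul ?_ hc
    have h3 : Continuous (fun q : Om × ℝ => ((q.1, t) : Om × ℝ)) := by fun_prop
    exact hc.comp h3
  exact dlw_swap (h := fun ω t' => h ω t * h ω t') hc3 a' b'

/-! cells and blocks -/

/-- a block is the union of its cells -/
theorem dlw_cells {g : ℝ → ℝ} (hg : Continuous g) (s δ : ℝ) (hδ : 0 < δ) (M : ℕ) :
    ∑ c : Fin M, ∫ t in Set.Ioc (s + ((c : ℕ) : ℝ) * δ) (s + (((c : ℕ) : ℝ) + 1) * δ), g t =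
      ∫ t in Set.Ioc s (s + M * δ), g t := by
  rw [Fin.sum_univ_eq_sum_range (fun c : ℕ =>
    ∫ t in Set.Ioc (s + (c : ℝ) * δ) (s + ((c : ℝ) + 1) * δ), g t) M]
  have h2 := intervalIntegral.sum_integral_adjacent_intervals (μ := volume) (f := g)
    (a := fun k : ℕ => s + (k : ℝ) * δ) (n := M) (fun k _ => hg.intervalIntegrable _ _)
  simp only [Nat.cast_zero, zero_mul, add_zero] at h2
  rw [← intervalIntegral.integral_of_le (by
    have : (0 : ℝ) ≤ M := Nat.cast_nonneg M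
    nlinarith), ← h2]
  refine Finset.sum_congr rfl fun c _ => ?_
  rw [intervalIntegral.integral_of_le (by push_cast; nlinarith)]
  push_cast
  rfl

/-- Cauchy-Schwarz on a cell -/
theorem dlw_cs {f : ℝ → ℝ} (hf : Continuous f) (a b : ℝ) (hab : a < b) :
    (∫ t in Set.Ioc a b, f t) ^ 2 ≤ (b - a) * ∫ t in Set.Ioc a b, f t ^ 2 := by
  have hba : 0 < b - a := by linarith
  set q := ∫ t in Set.Ioc a b, f t with hq
  set v := q / (b - a) with hv
  have h1 : ∫ t in Set.Ioc a b, (f t - v) ^ 2 =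
      (∫ t in Set.Ioc a b, f t ^ 2) - 2 * v * q + v ^ 2 * (b - a) := by
    have e : ∀ t, (f t - v) ^ 2 = f t ^ 2 - 2 * v * f t + v ^ 2 := fun t => by ring
    simp_rw [e]
    have i1 : Integrable (fun t => f t ^ 2) (volume.restrict (Set.Ioc a b)) :=
      ((hf.pow 2).integrableOn_Icc).mono_set Set.Ioc_subset_Icc_self
    have i2 : Integrable (fun t => 2 * v * f t) (volume.restrict (Set.Ioc a b)) :=
      ((continuous_const.mul hf).integrableOn_Icc).mono_set Set.Ioc_subset_Icc_self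
    have i3 : Integrable (fun t => f t ^ 2 - 2 * v * f t) (volume.restrict (Set.Ioc a b)) :=
      i1.sub i2
    rw [integral_add i3 (integrable_const _), integral_sub i1 i2, integral_const_mul,
      setIntegral_const, smul_eq_mul, ← hq]
    unfold Measure.real
    rw [Real.volume_Ioc, ENNReal.toReal_ofReal hba.le]
    ring
  have h2 : 0 ≤ ∫ t in Set.Ioc a b, (f t - v) ^ 2 := integral_nonneg fun t => sq_nonneg _
  rw [h1] at h2
  have h3 : v * (b - a) = q := by rw [hv]; field_simp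
  have h4 : 0 ≤ (b - a) * ((∫ t in Set.Ioc a b, f t ^ 2) - 2 * v * q + v ^ 2 * (b - a)) :=
    mul_nonneg hba.le h2
  have h5 : (b - a) * ((∫ t in Set.Ioc a b, f t ^ 2) - 2 * v * q + v ^ 2 * (b - a)) =
      (b - a) * (∫ t in Set.Ioc a b, f t ^ 2) - 2 * (v * (b - a)) * q +
        (v * (b - a)) ^ 2 := by ring
  rw [h5, h3] at h4
  nlinarith

/-- start of block b -/
noncomputable def dsb (U : ℝ) (b0 : ℕ) (b : ℕ) : ℝ := 2 * ((b0 : ℝ) + b) / U

theorem dlw_log_sum (b0 : ℕ) (hb0 : 1 ≤ b0) (B : ℕ) :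
    1 / 3 * (Real.log ((b0 : ℝ) + B) - Real.log b0) ≤
      ∑ b ∈ Finset.range B, 1 / (2 * ((b0 : ℝ) + b) + 1) := by
  have hb0' : (1 : ℝ) ≤ b0 := by exact_mod_cast hb0
  induction B with
  | zero => simp
  | succ B ih =>
    rw [Finset.sum_range_succ]
    have hB : (0 : ℝ) ≤ B := Nat.cast_nonneg B
    set x : ℝ := (b0 : ℝ) + B with hx
    have hx1 : 1 ≤ x := by linarith
    have hx0 : 0 < x := by linarith
    have h1 : Real.log ((b0 : ℝ) + (B + 1 : ℕ)) - Real.log x ≤ 1 / x := by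
      rw [← Real.log_div (by positivity) hx0.ne']
      have h2 := Real.log_le_sub_one_of_pos (show 0 < ((b0 : ℝ) + (B + 1 : ℕ)) / x by positivity)
      refine h2.trans (le_of_eq ?_)
      push_cast
      rw [hx]
      field_simp
      ring
    have h3 : 1 / 3 * (1 / x) ≤ 1 / (2 * x + 1) := by
      rw [div_mul_div_comm, one_mul]
      exact one_div_le_one_div_of_le (by linarith) (by linarith)
    linarith

theorem dlw_sq_sum (b0 : ℕ) (hb0 : 1 ≤ b0) (B : ℕ) :
    ∑ b ∈ Finset.range B, 1 / ((b0 : ℝ) + b) ^ 2 ≤ 2 / (b0 : ℝ) := by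
  have hb0' : (1 : ℝ) ≤ b0 := by exact_mod_cast hb0
  have key : ∀ B : ℕ, ∑ b ∈ Finset.range B, 1 / ((b0 : ℝ) + b) ^ 2 ≤
      2 * (1 / b0 - 1 / ((b0 : ℝ) + B)) := by
    intro B
    induction B with
    | zero => simp
    | succ B ih =>
      rw [Finset.sum_range_succ]
      have hB : (0 : ℝ) ≤ B := Nat.cast_nonneg B
      set x : ℝ := (b0 : ℝ) + B with hx
      have hx1 : 1 ≤ x := by linarith
      have hx0 : 0 < x := by linarith
      have e1 : (b0 : ℝ) + (B + 1 : ℕ) = x + 1 := by push_cast; rw [hx]; ring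
      rw [e1]
      have h1 : 1 / x ^ 2 ≤ 2 * (1 / x - 1 / (x + 1)) := by
        have h2 : 2 * (1 / x - 1 / (x + 1)) = 2 / (x * (x + 1)) := by field_simp; ring
        rw [h2, div_le_div_iff₀ (by positivity) (by positivity)]
        nlinarith
      linarith
  refine (key B).trans ?_
  have h1 : 0 < 1 / ((b0 : ℝ) + B) := by positivity
  have h2 : (2 : ℝ) / b0 = 2 * (1 / b0) := by ring
  rw [h2]
  linarith

/-- the blocks are disjoint parts of one interval -/
theorem dlw_blocks_le {g : ℝ → ℝ} (hg : Continuous g) (h0 : ∀ t, 0 ≤ g t) {U : ℝ} (hU : 0 < U)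
    (b0 B : ℕ) :
    ∑ b ∈ Finset.range B, ∫ t in Set.Ioc (dsb U b0 b) (dsb U b0 b + 1 / U), g t ≤
      ∫ t in (dsb U b0 0)..(dsb U b0 B), g t := by
  have h2 := intervalIntegral.sum_integral_adjacent_intervals (μ := volume) (f := g)
    (a := fun k : ℕ => dsb U b0 k) (n := B) (fun k _ => hg.intervalIntegrable _ _)
  rw [← h2]
  refine Finset.sum_le_sum fun b _ => ?_
  have h1U : 0 < 1 / U := by positivity
  rw [← intervalIntegral.integral_of_le (by linarith)]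
  refine intervalIntegral.integral_mono_interval le_rfl (by linarith) ?_
    (Filter.Eventually.of_forall h0) (hg.intervalIntegrable _ _)
  unfold dsb
  push_cast
  have h3 : 2 * ((b0 : ℝ) + (b + 1)) / U = 2 * ((b0 : ℝ) + b) / U + 2 * (1 / U) := by ring
  rw [h3]
  linarith

/-- splitting into windows -/
theorem dlw_windows {g : ℝ → ℝ} (hg : Continuous g) (n : ℕ) :
    ∫ t in (Real.exp (n : ℝ))..(Real.exp ((2 * n : ℕ) : ℝ)), g t =
      ∑ k ∈ Finset.range n, ∫ t in Set.Ioc (Real.exp ((n + k : ℕ) : ℝ))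
        (Real.exp (((n + k : ℕ) : ℝ) + 1)), g t := by
  have h2 := intervalIntegral.sum_integral_adjacent_intervals (μ := volume) (f := g)
    (a := fun k : ℕ => Real.exp ((n + k : ℕ) : ℝ)) (n := n) (fun k _ => hg.intervalIntegrable _ _)
  simp only [add_zero, ← two_mul] at h2
  rw [← h2]
  refine Finset.sum_congr rfl fun k _ => ?_
  have e1 : ((n + (k + 1) : ℕ) : ℝ) = ((n + k : ℕ) : ℝ) + 1 := by push_cast; ring
  rw [e1, intervalIntegral.integral_of_le (Real.exp_le_exp.2 (by linarith))]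

/-! the combinatorial selection -/

/-- lower bound of the sum over the selected cells -/
theorem dlw_pick {ι : Type*} [Fintype ι] (r : ι → ℝ) {a b v : ℝ}
    (ha : 0 ≤ a) (hb : 0 < b) (hv : 0 ≤ v) (L : Finset ι)
    (hL : ∀ i, i ∈ L ↔ a ≤ r i ∧ r i ≤ b) (f : ι → ℝ) (hf : ∀ i ∈ L, v * r i ≤ f i) :
    v * (∑ i, r i - Fintype.card ι * a - b⁻¹ * ∑ i, r i ^ 2) ≤ ∑ i ∈ L, f i := by
  classical
  have h1 : ∀ i, r i ≤ (if i ∈ L then r i else 0) + a + b⁻¹ * r i ^ 2 := by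
    intro i
    have h2 : 0 ≤ b⁻¹ * r i ^ 2 := by positivity
    by_cases hi : i ∈ L
    · rw [if_pos hi]; linarith
    · rw [if_neg hi]
      rw [hL] at hi
      rcases lt_or_ge (r i) a with h3 | h3
      · linarith
      · have h4 : b < r i := by
          by_contra h5
          exact hi ⟨h3, not_lt.1 h5⟩
        have h6 : r i ≤ b⁻¹ * r i ^ 2 := by
          have h7 : b⁻¹ * r i ^ 2 = r i * (r i / b) := by field_simp
          rw [h7]
          have h8 : 1 ≤ r i / b := by rw [one_le_div hb]; exact h4.le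
          have h10 : 0 < r i := hb.trans h4
          nlinarith
        linarith
  have h9 : ∑ i, r i ≤ ∑ i ∈ L, r i + Fintype.card ι * a + b⁻¹ * ∑ i, r i ^ 2 := by
    refine (Finset.sum_le_sum fun i _ => h1 i).trans ?_
    rw [Finset.sum_add_distrib, Finset.sum_add_distrib, ← Finset.mul_sum,
      Finset.sum_const, Finset.card_univ, nsmul_eq_mul, Finset.sum_ite_mem, Finset.univ_inter]
  calc v * (∑ i, r i - Fintype.card ι * a - b⁻¹ * ∑ i, r i ^ 2) ≤ v * ∑ i ∈ L, r i :=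
        mul_le_mul_of_nonneg_left (by linarith) hv
    _ = ∑ i ∈ L, v * r i := Finset.mul_sum _ _ _
    _ ≤ _ := Finset.sum_le_sum hf

theorem dlw_al : al 1 = 2 := by
  unfold al; rw [Real.rpow_one]

/-- the typical size for gamma = 1 -/
theorem dlw_typ (K : ℕ) : typ (Real.sqrt 2 * al 1) K = ((2 : ℝ) ^ K) ^ 4 / ((K : ℝ) + 1) ^ 3 := by
  have hK : (0 : ℝ) < (K : ℝ) + 1 := by positivity
  have h2 : Real.sqrt 2 * Real.sqrt 2 = 2 := Real.mul_self_sqrt (by norm_num)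
  have h20 : 0 < Real.sqrt 2 := Real.sqrt_pos.2 (by norm_num)
  unfold typ
  rw [dlw_al]
  have e1 : Real.sqrt 2 * 2 * (Real.sqrt 2 * K * vv - c0 * Real.log ((K : ℝ) + 1)) =
      4 * (K * vv) - 3 * Real.log ((K : ℝ) + 1) := by
    have e2 : Real.sqrt 2 * c0 = 3 / 2 := by unfold c0; field_simp
    have : Real.sqrt 2 * 2 * (Real.sqrt 2 * K * vv - c0 * Real.log ((K : ℝ) + 1)) =
        2 * (Real.sqrt 2 * Real.sqrt 2) * (K * vv) - 2 * (Real.sqrt 2 * c0) *
          Real.log ((K : ℝ) + 1) := by ring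
    rw [this, h2, e2]; ring
  have e3 : Real.exp (K * vv) = 2 ^ K := by
    unfold vv
    rw [Real.exp_nat_mul, Real.exp_log (by norm_num)]
  rw [e1, Real.exp_sub, show (4 : ℝ) * (K * vv) = ((4 : ℕ) : ℝ) * (K * vv) by norm_num,
    Real.exp_nat_mul, e3, show (3 : ℝ) * Real.log ((K : ℝ) + 1) =
      ((3 : ℕ) : ℝ) * Real.log ((K : ℝ) + 1) by norm_num, Real.exp_nat_mul, Real.exp_log hK]

/-- parameters -/
theorem dlw_params (A0 s1 K0 : ℕ) (ε : ℝ) (hε : 0 < ε) : ∃ m0 : ℝ, 1 ≤ m0 ∧ ∀ m : ℝ, m0 ≤ m →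
    ∀ s0 n K : ℕ, s0 = ⌈(A0 : ℝ) * Real.log (Real.sqrt m + 5)⌉₊ + s1 →
    n = ⌊Real.sqrt m / 2⌋₊ → K = ⌊(m - s0) / vv⌋₊ →
    4 ≤ n ∧ (s0 : ℝ) ≤ n ∧ K0 ≤ K ∧ m ≤ K ∧ (K : ℝ) + 1 ≤ 2 * m ∧
    (n : ℝ) * Real.exp s0 * Real.exp (-((n : ℝ) / 2)) ≤ ε ∧ Real.sqrt m / 4 ≤ n ∧
    (n : ℝ) ≤ Real.sqrt m / 2 := by
  set δ : ℝ := 1 / (64 * ((A0 : ℝ) + 1)) with hδ
  have hδ0 : 0 < δ := by positivity
  obtain ⟨X, hX⟩ : ∃ X : ℝ, ∀ x : ℝ, X ≤ x → Real.log x ≤ δ * x := by
    have h3 := Real.isLittleO_log_id_atTop.bound hδ0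
    have h4 := h3.and (Filter.eventually_ge_atTop 0)
    obtain ⟨X, hX⟩ := Filter.eventually_atTop.mp h4
    refine ⟨X, fun x hx => ?_⟩
    obtain ⟨h5, h6⟩ := hX x hx
    rw [Real.norm_eq_abs, Real.norm_eq_abs, id, abs_of_nonneg h6] at h5
    exact (le_abs_self _).trans h5
  set X1 : ℝ := max (max X 40) (max (64 * (2 + (s1 : ℝ))) (max ((K0 : ℝ)) (32 / 6 * Real.log (16 * Real.exp (1 / 2) / ε)))) with hX1
  have hX40 : 40 ≤ X1 := (le_max_right _ _).trans (le_max_left _ _)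
  refine ⟨X1 ^ 2, by nlinarith, ?_⟩
  intro m hm s0 n K hs0 hn hK
  obtain ⟨x, hx⟩ : ∃ x : ℝ, x = Real.sqrt m := ⟨_, rfl⟩
  have hm0 : 0 ≤ m := le_trans (by positivity) hm
  have hxX : X1 ≤ x := by
    rw [hx]
    exact Real.le_sqrt_of_sq_le hm
  have hxm : x ^ 2 = m := by rw [hx]; exact Real.sq_sqrt hm0
  rw [← hx] at hs0 hn ⊢
  have hx40 : 40 ≤ x := hX40.trans hxX
  have hx0 : 0 < x := by linarith
  have hxA : X ≤ x := ((le_max_left _ _).trans (le_max_left _ _)).trans hxX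
  have hxs : 64 * (2 + (s1 : ℝ)) ≤ x :=
    ((le_max_left _ _).trans (le_max_right _ _)).trans hxX
  have hxK : (K0 : ℝ) ≤ x :=
    (((le_max_left _ _).trans (le_max_right _ _)).trans (le_max_right _ _)).trans hxX
  have hxe : 32 / 6 * Real.log (16 * Real.exp (1 / 2) / ε) ≤ x :=
    (((le_max_right _ _).trans (le_max_right _ _)).trans (le_max_right _ _)).trans hxX
  have hA : (0 : ℝ) ≤ A0 := Nat.cast_nonneg _
  have hs1 : (0 : ℝ) ≤ s1 := Nat.cast_nonneg _
  have hlog0 : 0 ≤ Real.log (x + 5) := Real.log_nonneg (by linarith)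
  have h1 : (A0 : ℝ) * Real.log (x + 5) ≤ (x + 5) / 64 := by
    have h2 := hX (x + 5) (by linarith)
    have h3 : (A0 : ℝ) * Real.log (x + 5) ≤ ((A0 : ℝ) + 1) * (δ * (x + 5)) := by
      refine mul_le_mul (by linarith) h2 hlog0 (by linarith)
    refine h3.trans (le_of_eq ?_)
    rw [hδ]; field_simp
  have hs0' : (s0 : ℝ) ≤ x / 32 := by
    have h2 := (Nat.ceil_lt_add_one (show 0 ≤ (A0 : ℝ) * Real.log (x + 5) by positivity)).le
    rw [hs0]
    push_cast
    linarith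
  have hn1 : x / 2 - 1 ≤ n := by
    rw [hn]
    exact (Nat.sub_one_lt_floor _).le
  have hn2 : (n : ℝ) ≤ x / 2 := by
    rw [hn]
    exact Nat.floor_le (by positivity)
  have hv1 : vv ≤ 0.7 := by
    unfold vv
    have := Real.log_two_lt_d9
    linarith
  have hv2 : 0.69 ≤ vv := by
    unfold vv
    have := Real.log_two_gt_d9
    linarith
  have hv0 : 0 < vv := by linarith
  have hmK : m ≤ K := by
    have h3 : (m - s0) / vv - 1 ≤ K := by
      rw [hK]
      exact (Nat.sub_one_lt_floor _).le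
    have h4 : m + 1 ≤ (m - s0) / vv := by
      rw [le_div_iff₀ hv0]
      have h5 : (m + 1) * vv ≤ (m + 1) * 0.7 := mul_le_mul_of_nonneg_left hv1 (by linarith)
      have h6 : 0.3 * m ≥ 0.3 * (40 * x) := by rw [← hxm]; nlinarith
      linarith
    linarith
  have hK2 : (K : ℝ) + 1 ≤ 2 * m := by
    have h3 : (K : ℝ) ≤ (m - s0) / vv := by
      rw [hK]
      refine Nat.floor_le ?_
      refine div_nonneg ?_ hv0.le
      have h6 : m ≥ 40 * x := by rw [← hxm]; nlinarith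
      linarith
    have h4 : (m - s0) / vv ≤ 1.5 * m := by
      rw [div_le_iff₀ hv0]
      have h5 : 1.5 * m * 0.69 ≤ 1.5 * m * vv := mul_le_mul_of_nonneg_left hv2 (by positivity)
      have h7 : (0 : ℝ) ≤ s0 := Nat.cast_nonneg _
      linarith
    have h6 : m ≥ 40 * x := by rw [← hxm]; nlinarith
    linarith
  refine ⟨?_, by linarith, ?_, hmK, hK2, ?_, by linarith, hn2⟩
  · have : (4 : ℝ) ≤ n := by linarith
    exact_mod_cast this
  · have h6 : m ≥ 40 * x := by rw [← hxm]; nlinarith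
    have : (K0 : ℝ) ≤ K := by linarith
    exact_mod_cast this
  · have h7 : (n : ℝ) ≤ 16 * Real.exp (x / 32) := by
      have := Real.add_one_le_exp (x / 32)
      linarith
    have h8 : Real.exp s0 ≤ Real.exp (x / 32) := Real.exp_le_exp.2 hs0'
    have h9 : Real.exp (-((n : ℝ) / 2)) ≤ Real.exp (1 / 2) * Real.exp (-(x / 4)) := by
      rw [← Real.exp_add]
      exact Real.exp_le_exp.2 (by linarith)
    have hn0 : (0 : ℝ) ≤ n := Nat.cast_nonneg _
    calc (n : ℝ) * Real.exp s0 * Real.exp (-((n : ℝ) / 2))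
        ≤ (16 * Real.exp (x / 32)) * Real.exp (x / 32) *
          (Real.exp (1 / 2) * Real.exp (-(x / 4))) := by gcongr
      _ = 16 * Real.exp (1 / 2) * Real.exp (-(6 / 32 * x)) := by
          have : Real.exp (-(6 / 32 * x)) = Real.exp (x / 32) * Real.exp (x / 32) *
              Real.exp (-(x / 4)) := by
            rw [← Real.exp_add, ← Real.exp_add]; congr 1; ring
          rw [this]; ring
      _ ≤ 16 * Real.exp (1 / 2) * (16 * Real.exp (1 / 2) / ε)⁻¹ := by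
          refine mul_le_mul_of_nonneg_left ?_ (by positivity)
          have hp : 0 < 16 * Real.exp (1 / 2) / ε := by positivity
          rw [← Real.exp_log hp, ← Real.exp_neg]
          refine Real.exp_le_exp.2 ?_
          linarith
      _ = ε := by field_simp

/-- from the soft tail to the moment -/
theorem dlw_final {Z : Om → ℝ} (hZm : Measurable Z) {B : ℝ} (hZ0 : ∀ ω, 0 ≤ Z ω)
    (hZB : ∀ ω, Z ω ≤ B) {lam ε q : ℝ} (hl : 0 < lam) (hε : 0 < ε) (hq : 0 < q)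
    (h : 2 * ε ≤ ∫ ω, ft lam (Z ω) ∂P) : ε * (ε * lam) ^ q ≤ ∫ ω, Z ω ^ q ∂P := by
  have hel : 0 < ε * lam := by positivity
  have hpt : ∀ ω, ft lam (Z ω) ≤ ε + ((ε * lam) ^ q)⁻¹ * Z ω ^ q := by
    intro ω
    have h0 := hZ0 ω
    have hp : 0 ≤ ((ε * lam) ^ q)⁻¹ * Z ω ^ q := by positivity
    unfold ft
    rcases lt_or_ge (Z ω) (ε * lam) with h1 | h1
    · have h2 : Z ω / (Z ω + lam) ≤ ε := by
        rw [div_le_iff₀ (by linarith)]
        nlinarith
      linarith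
    · have h2 : Z ω / (Z ω + lam) ≤ 1 := by
        rw [div_le_one (by linarith)]; linarith
      have h3 : 1 ≤ ((ε * lam) ^ q)⁻¹ * Z ω ^ q := by
        have h4 := Real.rpow_le_rpow hel.le h1 hq.le
        have h5 : 0 < (ε * lam) ^ q := Real.rpow_pos_of_pos hel _
        rw [inv_mul_eq_div, one_le_div h5]
        exact h4
      linarith
  have hi1 : Integrable (fun ω => Z ω ^ q) P := int_of_bd (hZm.pow_const q)
    (fun ω => Real.rpow_nonneg (hZ0 ω) _) (fun ω => Real.rpow_le_rpow (hZ0 ω) (hZB ω) hq.le)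
  have h1 : ∫ ω, ft lam (Z ω) ∂P ≤ ∫ ω, (ε + ((ε * lam) ^ q)⁻¹ * Z ω ^ q) ∂P := by
    refine integral_mono_of_nonneg (Filter.Eventually.of_forall fun ω => ?_)
      ((integrable_const _).add (hi1.const_mul _)) (Filter.Eventually.of_forall hpt)
    have := hZ0 ω
    unfold ft
    positivity
  rw [integral_add (integrable_const _) (hi1.const_mul _), integral_const, probReal_univ, one_smul,
    integral_const_mul] at h1
  have h5 : 0 < (ε * lam) ^ q := Real.rpow_pos_of_pos hel _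
  have h6 : ε ≤ ((ε * lam) ^ q)⁻¹ * ∫ ω, Z ω ^ q ∂P := by linarith
  rw [inv_mul_eq_div, le_div_iff₀ h5] at h6
  exact h6

/-- selection of the cells for one realisation of the small primes -/
theorem dlw_sel (f : ℝ → ℝ) (hf : Continuous f) (hf0 : ∀ t, 0 ≤ f t) (σ U κ : ℝ) (K b0 B n : ℕ)
    (hσ0 : 0 < σ) (hσ1 : σ ≤ 1) (hU : 1 ≤ U) (hκ : 1 ≤ κ) :
    ∃ (L : Finset (Fin B × Fin (2 ^ K))) (x : Fin B × Fin (2 ^ K) → ℝ),
      (∀ i ∈ L, 0 ≤ x i ∧ x i ≤ Real.sqrt K ∧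
        κ ^ 2 * ((2 : ℝ) ^ K) ^ 3 * U ^ 3 / (2 * ((K : ℝ) + 1)) ≤
        (∫ t in Set.Ioc (dsb U b0 (i.1 : ℕ) + ((i.2 : ℕ) : ℝ) * (1 / U / 2 ^ K))
          (dsb U b0 (i.1 : ℕ) + (((i.2 : ℕ) : ℝ) + 1) * (1 / U / 2 ^ K)),
            f t ^ 2 / (σ ^ 2 + t ^ 2)) *
        (typ (Real.sqrt 2 * al 1) K * Real.exp (Real.sqrt 2 * al 1 * x i))) ∧
      (n : ℝ) / (4 * κ * ((K : ℝ) + 1) * U) * (∑ b ∈ Finset.range B,
          ∫ t in Set.Ioc (dsb U b0 b) (dsb U b0 b + 1 / U), f t / max 1 |t|) -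
        (n : ℝ) / 4 * B * Real.exp (-(Real.sqrt 2 * Real.sqrt K)) -
        (n : ℝ) / 2 * Real.exp ((n : ℝ) / 2) / U ^ 3 * (∑ b ∈ Finset.range B,
          ∫ t in Set.Ioc (dsb U b0 b) (dsb U b0 b + 1 / U), f t ^ 2 / (σ ^ 2 + t ^ 2)) ≤
      ∑ i ∈ L, (1 + x i) * Real.exp (-(Real.sqrt 2 * x i)) / 2 ^ K := by
  classical
  have hU0 : 0 < U := by linarith
  have hκ0 : 0 < κ := by linarith
  have hK1 : (0 : ℝ) < (K : ℝ) + 1 := by positivity
  have h2K : (0 : ℝ) < (2 : ℝ) ^ K := by positivity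
  obtain ⟨G, hG⟩ : ∃ G : ℝ, G = (2 : ℝ) ^ K := ⟨_, rfl⟩
  rw [← hG] at h2K
  obtain ⟨lam, hlam⟩ : ∃ l : ℝ, l = κ ^ 2 * G ^ 3 * U ^ 3 / (2 * ((K : ℝ) + 1)) := ⟨_, rfl⟩
  have hl0 : 0 < lam := by rw [hlam]; positivity
  obtain ⟨ty, hty⟩ : ∃ l : ℝ, l = G ^ 4 / ((K : ℝ) + 1) ^ 3 := ⟨_, rfl⟩
  have hty0 : 0 < ty := by rw [hty]; positivity
  obtain ⟨δ, hδ⟩ : ∃ d : ℝ, d = 1 / U / G := ⟨_, rfl⟩
  have hδ0 : 0 < δ := by rw [hδ]; positivity
  have hd : ∀ t : ℝ, 0 < σ ^ 2 + t ^ 2 := fun t => by positivity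
  obtain ⟨w, hw⟩ : ∃ w : ℝ → ℝ, w = fun t => f t ^ 2 / (σ ^ 2 + t ^ 2) := ⟨_, rfl⟩
  have hwc : Continuous w := by
    rw [hw]; exact (hf.pow 2).div (by fun_prop) (fun t => (hd t).ne')
  have hw0 : ∀ t, 0 ≤ w t := fun t => by
    rw [hw]; have := hd t; positivity
  obtain ⟨g, hg⟩ : ∃ g : ℝ → ℝ, g = fun t => f t / max 1 |t| := ⟨_, rfl⟩
  have hmax : ∀ t : ℝ, 0 < max 1 |t| := fun t => lt_of_lt_of_le one_pos (le_max_left _ _)
  have hgc : Continuous g := by
    rw [hg]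
    exact hf.div (by fun_prop) (fun t => (hmax t).ne')
  have hg0 : ∀ t, 0 ≤ g t := fun t => by
    rw [hg]; have := hmax t; have := hf0 t; positivity
  have hgw : ∀ t, g t ^ 2 ≤ 2 * w t := by
    intro t
    rw [hg, hw]
    simp only
    rw [div_pow, ← mul_div_assoc, div_le_div_iff₀ (by have := hmax t; positivity) (hd t)]
    have h1 : σ ^ 2 + t ^ 2 ≤ 2 * (max 1 |t|) ^ 2 := by
      have h2 : σ ^ 2 ≤ (max 1 |t|) ^ 2 := by
        refine pow_le_pow_left₀ hσ0.le ?_ 2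
        exact hσ1.trans (le_max_left _ _)
      have h3 : t ^ 2 ≤ (max 1 |t|) ^ 2 := by
        rw [← sq_abs t]
        exact pow_le_pow_left₀ (abs_nonneg t) (le_max_right _ _) 2
      linarith
    have h4 := mul_le_mul_of_nonneg_left h1 (sq_nonneg (f t))
    linarith
  -- cells
  obtain ⟨lo, hlo⟩ : ∃ lo : Fin B × Fin (2 ^ K) → ℝ,
    lo = fun i => dsb U b0 (i.1 : ℕ) + ((i.2 : ℕ) : ℝ) * δ := ⟨_, rfl⟩
  obtain ⟨hi, hhi⟩ : ∃ hi : Fin B × Fin (2 ^ K) → ℝ,
    hi = fun i => dsb U b0 (i.1 : ℕ) + (((i.2 : ℕ) : ℝ) + 1) * δ := ⟨_, rfl⟩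
  have hlh : ∀ i, hi i - lo i = δ := fun i => by rw [hlo, hhi]; simp only; ring
  obtain ⟨Pi, hPi⟩ : ∃ Pi : Fin B × Fin (2 ^ K) → ℝ,
    Pi = fun i => ∫ t in Set.Ioc (lo i) (hi i), w t := ⟨_, rfl⟩
  obtain ⟨Q, hQ⟩ : ∃ Q : Fin B × Fin (2 ^ K) → ℝ,
    Q = fun i => ∫ t in Set.Ioc (lo i) (hi i), g t := ⟨_, rfl⟩
  have hP0 : ∀ i, 0 ≤ Pi i := fun i => by rw [hPi]; exact integral_nonneg fun t => hw0 t
  have hQ0 : ∀ i, 0 ≤ Q i := fun i => by rw [hQ]; exact integral_nonneg fun t => hg0 t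
  have hQP : ∀ i, Q i ^ 2 ≤ 2 * δ * Pi i := by
    intro i
    have h1 := dlw_cs hgc (lo i) (hi i) (by have := hlh i; linarith)
    rw [hlh i] at h1
    have h2 : ∫ t in Set.Ioc (lo i) (hi i), g t ^ 2 ≤ 2 * Pi i := by
      rw [hPi]
      simp only
      rw [← integral_const_mul]
      refine setIntegral_mono_on ?_ ?_ measurableSet_Ioc fun t _ => hgw t
      · exact ((hgc.pow 2).integrableOn_Icc).mono_set Set.Ioc_subset_Icc_self
      · exact ((continuous_const.mul hwc).integrableOn_Icc).mono_set Set.Ioc_subset_Icc_self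
    have h3 := mul_le_mul_of_nonneg_left h2 hδ0.le
    rw [hQ]
    simp only
    linarith
  obtain ⟨r, hr⟩ : ∃ r : Fin B × Fin (2 ^ K) → ℝ, r = fun i => Real.sqrt (ty * Pi i / lam) :=
    ⟨_, rfl⟩
  have hr2 : ∀ i, r i ^ 2 = ty * Pi i / lam := fun i => by
    rw [hr]
    exact Real.sq_sqrt (div_nonneg (mul_nonneg hty0.le (hP0 i)) hl0.le)
  obtain ⟨β, hβ⟩ : ∃ β : ℝ, β = G / (κ * ((K : ℝ) + 1) * U) := ⟨_, rfl⟩
  have hβ0 : 0 < β := by rw [hβ]; positivity
  have hβ2 : β ^ 2 * (2 * δ) = ty / lam := by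
    rw [hβ, hδ, hty, hlam]
    field_simp
  have hrQ : ∀ i, β * Q i ≤ r i := by
    intro i
    rw [hr]
    refine Real.le_sqrt_of_sq_le ?_
    rw [mul_pow]
    calc β ^ 2 * Q i ^ 2 ≤ β ^ 2 * (2 * δ * Pi i) :=
          mul_le_mul_of_nonneg_left (hQP i) (sq_nonneg _)
      _ = (β ^ 2 * (2 * δ)) * Pi i := by ring
      _ = ty * Pi i / lam := by rw [hβ2]; ring
  have h20 : 0 < Real.sqrt 2 := Real.sqrt_pos.2 (by norm_num)
  have h22 : Real.sqrt 2 * Real.sqrt 2 = 2 := Real.mul_self_sqrt (by norm_num)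
  have h21 : Real.sqrt 2 ≤ 2 := by
    nlinarith [sq_nonneg (Real.sqrt 2 - 2)]
  -- the selection
  set a : ℝ := Real.exp (-(Real.sqrt 2 * Real.sqrt K)) with ha
  set bb : ℝ := Real.exp (-((n : ℝ) / 2)) with hbb
  have hn0 : (0 : ℝ) ≤ n := Nat.cast_nonneg _
  refine ⟨Finset.univ.filter (fun i => a ≤ r i ∧ r i ≤ bb), fun i => -Real.log (r i) / Real.sqrt 2,
    ?_, ?_⟩
  · intro i hi'
    rw [Finset.mem_filter] at hi'
    obtain ⟨-, h1, h2⟩ := hi'
    have hri : 0 < r i := (Real.exp_pos _).trans_le h1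
    have hlog1 : Real.log (r i) ≤ -((n : ℝ) / 2) := by
      rw [Real.log_le_iff_le_exp hri]; exact h2
    have hlog2 : -(Real.sqrt 2 * Real.sqrt K) ≤ Real.log (r i) := by
      rw [Real.le_log_iff_exp_le hri]; exact h1
    refine ⟨?_, ?_, ?_⟩
    · exact div_nonneg (by linarith) h20.le
    · rw [div_le_iff₀ h20]
      linarith
    · rw [dlw_typ, dlw_al, ← hG, ← hty, ← hlam]
      have e1 : Real.sqrt 2 * 2 * (-Real.log (r i) / Real.sqrt 2) = -(2 * Real.log (r i)) := by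
        field_simp
      have e2 : Real.exp (-(2 * Real.log (r i))) = (r i ^ 2)⁻¹ := by
        rw [Real.exp_neg, two_mul, Real.exp_add, Real.exp_log hri, sq]
      have hPpos : 0 < Pi i := by
        have h3 : 0 < r i ^ 2 := by positivity
        rw [hr2 i] at h3
        by_contra h4
        have h5 : Pi i = 0 := le_antisymm (not_lt.1 h4) (hP0 i)
        rw [h5] at h3
        simp at h3
      have e3 : ∫ t in Set.Ioc (dsb U b0 (i.1 : ℕ) + ((i.2 : ℕ) : ℝ) * (1 / U / G))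
          (dsb U b0 (i.1 : ℕ) + (((i.2 : ℕ) : ℝ) + 1) * (1 / U / G)),
          f t ^ 2 / (σ ^ 2 + t ^ 2) = Pi i := by
        rw [hPi, hlo, hhi, hw, hδ]
      rw [e1, e2, e3, hr2 i]
      refine le_of_eq ?_
      field_simp
  · have hcells : ∀ h : ℝ → ℝ, Continuous h →
        ∑ i : Fin B × Fin (2 ^ K), ∫ t in Set.Ioc (lo i) (hi i), h t =
        ∑ b ∈ Finset.range B, ∫ t in Set.Ioc (dsb U b0 b) (dsb U b0 b + 1 / U), h t := by
      intro h hc
      rw [Fintype.sum_prod_type, ← Fin.sum_univ_eq_sum_range (fun b : ℕ =>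
        ∫ t in Set.Ioc (dsb U b0 b) (dsb U b0 b + 1 / U), h t) B]
      refine Finset.sum_congr rfl fun b _ => ?_
      have h1 := dlw_cells hc (dsb U b0 (b : ℕ)) δ hδ0 (2 ^ K)
      have h2 : ((2 ^ K : ℕ) : ℝ) * δ = 1 / U := by
        rw [hδ]; push_cast; rw [← hG]; field_simp
      rw [h2] at h1
      rw [← h1, hlo, hhi]
    have hRQ := hcells g hgc
    have hWP := hcells w hwc
    rw [hg] at hRQ
    rw [hw] at hWP
    have hpick := dlw_pick r (a := a) (b := bb) (v := (n : ℝ) / 4 / G) (Real.exp_pos _).le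
      (Real.exp_pos _) (by positivity)
      (Finset.univ.filter (fun i => a ≤ r i ∧ r i ≤ bb)) (fun i => by
        rw [Finset.mem_filter]; simp) (fun i => (1 + -Real.log (r i) / Real.sqrt 2) *
          Real.exp (-(Real.sqrt 2 * (-Real.log (r i) / Real.sqrt 2))) / G) (by
        intro i hi'
        rw [Finset.mem_filter] at hi'
        obtain ⟨-, h1, h2⟩ := hi'
        have hri : 0 < r i := (Real.exp_pos _).trans_le h1
        have hlog1 : Real.log (r i) ≤ -((n : ℝ) / 2) := by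
          rw [Real.log_le_iff_le_exp hri]; exact h2
        have e1 : -(Real.sqrt 2 * (-Real.log (r i) / Real.sqrt 2)) = Real.log (r i) := by
          field_simp
        rw [e1, Real.exp_log hri]
        have h3 : (n : ℝ) / 4 ≤ -Real.log (r i) / Real.sqrt 2 := by
          rw [le_div_iff₀ h20]
          nlinarith
        have h4 : (n : ℝ) / 4 / G * r i = ((n : ℝ) / 4 * r i) / G := by ring
        rw [h4]
        refine div_le_div_of_nonneg_right ?_ h2K.le
        refine mul_le_mul_of_nonneg_right ?_ hri.le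
        linarith)
    rw [← hG]
    refine le_trans ?_ hpick
    have hsum1 : β * (∑ b ∈ Finset.range B,
        ∫ t in Set.Ioc (dsb U b0 b) (dsb U b0 b + 1 / U), f t / max 1 |t|) ≤ ∑ i, r i := by
      rw [← hRQ, Finset.mul_sum]
      refine Finset.sum_le_sum fun i _ => ?_
      have := hrQ i
      rw [hQ, hg] at this
      exact this
    have hsum2 : ∑ i, r i ^ 2 = ty / lam * (∑ b ∈ Finset.range B,
        ∫ t in Set.Ioc (dsb U b0 b) (dsb U b0 b + 1 / U), f t ^ 2 / (σ ^ 2 + t ^ 2)) := by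
      rw [← hWP, Finset.mul_sum]
      refine Finset.sum_congr rfl fun i _ => ?_
      rw [hr2 i, hPi, hw]
      ring
    have hcard : (Fintype.card (Fin B × Fin (2 ^ K)) : ℝ) = B * G := by
      rw [Fintype.card_prod, Fintype.card_fin, Fintype.card_fin, hG]
      push_cast
      ring
    set R := ∑ b ∈ Finset.range B,
        ∫ t in Set.Ioc (dsb U b0 b) (dsb U b0 b + 1 / U), f t / max 1 |t| with hR
    set W := ∑ b ∈ Finset.range B,
        ∫ t in Set.Ioc (dsb U b0 b) (dsb U b0 b + 1 / U), f t ^ 2 / (σ ^ 2 + t ^ 2) with hW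
    have hW0 : 0 ≤ W := by
      rw [hW]
      refine Finset.sum_nonneg fun b _ => integral_nonneg fun t => ?_
      have := hd t
      positivity
    have hbbi : bb⁻¹ = Real.exp ((n : ℝ) / 2) := by
      rw [hbb, Real.exp_neg, inv_inv]
    rw [hsum2, hcard, hbbi]
    have t1 : (n : ℝ) / (4 * κ * ((K : ℝ) + 1) * U) * R ≤ (n : ℝ) / 4 / G * ∑ i, r i := by
      have h1 := mul_le_mul_of_nonneg_left hsum1 (show 0 ≤ (n : ℝ) / 4 / G by positivity)
      refine le_trans (le_of_eq ?_) h1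
      rw [hβ]
      field_simp
    have t2 : (n : ℝ) / 4 / G * (B * G * a) = (n : ℝ) / 4 * B * a := by field_simp
    have t3 : (n : ℝ) / 4 / G * (Real.exp ((n : ℝ) / 2) * (ty / lam * W)) ≤
        (n : ℝ) / 2 * Real.exp ((n : ℝ) / 2) / U ^ 3 * W := by
      have h1 : ty / lam = 2 * G / (κ ^ 2 * ((K : ℝ) + 1) ^ 2 * U ^ 3) := by
        rw [hty, hlam]; field_simp
      have h2 : ty / lam ≤ 2 * G / U ^ 3 := by
        rw [h1]
        refine div_le_div_of_nonneg_left (by positivity) (by positivity) ?_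
        have h3 : 1 ≤ κ ^ 2 * ((K : ℝ) + 1) ^ 2 := by
          have h4 : 1 ≤ κ ^ 2 := by nlinarith
          have h5 : (1 : ℝ) ≤ ((K : ℝ) + 1) ^ 2 := by
            have : (0 : ℝ) ≤ K := Nat.cast_nonneg _
            nlinarith
          nlinarith
        have h4 : 0 < U ^ 3 := by positivity
        nlinarith
      calc (n : ℝ) / 4 / G * (Real.exp ((n : ℝ) / 2) * (ty / lam * W))
          ≤ (n : ℝ) / 4 / G * (Real.exp ((n : ℝ) / 2) * (2 * G / U ^ 3 * W)) := by gcongr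
        _ = _ := by field_simp; norm_num
    have t4 : (n : ℝ) / 4 / G * (∑ i, r i - B * G * a - Real.exp ((n : ℝ) / 2) *
        (ty / lam * W)) = (n : ℝ) / 4 / G * ∑ i, r i - (n : ℝ) / 4 / G * (B * G * a) -
        (n : ℝ) / 4 / G * (Real.exp ((n : ℝ) / 2) * (ty / lam * W)) := by ring
    rw [t4, t2]
    linarith

end PN
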