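import Pool.Agent.H24.PM.Stmts

/-! Part 2 of project PM (MP_d91868_an): definitions. Gaussian vectors, branching random walk and
cosine window models. -/

namespace PN
open MeasureTheory Complex ProbabilityTheory PM

/-- soft tail function -/
noncomputable def ft (lam x : ℝ) : ℝ := x / (x + lam)

/-- standard Gaussian measure on a finite product -/
noncomputable def Ga (κ : Type) [Fintype κ] : Measure (κ → ℝ) :=
  Measure.pi (fun _ => gaussianReal 0 1)

instance (κ : Type) [Fintype κ] : IsProbabilityMeasure (Ga κ) := by unfold Ga; infer_instance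

/-- weighted sum of exponentials of a Gaussian vector -/
noncomputable def ZG {ι κ : Type} [Fintype ι] [Fintype κ] (a : ι → κ → ℝ) (p : ι → ℝ)
    (g : κ → ℝ) : ℝ := ∑ i, p i * Real.exp (∑ k, a i k * g k)

/-- its soft tail -/
noncomputable def TR {ι κ : Type} [Fintype ι] [Fintype κ] (a : ι → κ → ℝ) (p : ι → ℝ)
    (lam : ℝ) : ℝ := ∫ g : κ → ℝ, ft lam (ZG a p g) ∂Ga κ

/-- the Gaussian coefficients replacing log |F|^2 over the primes of A -/
noncomputable def aP (γ : ℝ) (A : Finset ℕ) (σ : ℝ) {ι : Type} (t : ι → ℝ) (i : ι)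
    (k : A × Fin 2) : ℝ :=
  Real.sqrt 2 * al γ * (if k.2 = 0 then (((k.1 : ℕ) : ℂ) ^ (-(1 / 2 + σ + t i * I) : ℂ)).re
    else -(((k.1 : ℕ) : ℂ) ^ (-(1 / 2 + σ + t i * I) : ℂ)).im)

/-- second order approximation in the swap of one prime -/
noncomputable def apx (γ : ℝ) {ι : Type} [Fintype ι] (m : ι → ℝ) (w : ι → ℂ) (lam : ℝ) : ℝ :=
  (∑ i, m i) / ((∑ i, m i) + lam) +
    lam / ((∑ i, m i) + lam) ^ 2 * ((al γ) ^ 2 * ∑ i, m i * ‖w i‖ ^ 2) -
    lam / ((∑ i, m i) + lam) ^ 3 *
      (2 * (al γ) ^ 2 * ∑ i, ∑ j, m i * m j * (w i * (starRingEnd ℂ) (w j)).re)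

/-- partial sums of a finite sequence -/
noncomputable def ps {n : ℕ} (g : Fin n → ℝ) (j : ℕ) : ℝ := ∑ i : Fin n, if (i : ℕ) < j then g i else 0

/-- log 2 and its square root: variance and standard deviation of one step -/
noncomputable def vv : ℝ := Real.log 2
noncomputable def sv : ℝ := Real.sqrt (Real.log 2)

/-- 3 / (2 sqrt 2) -/
noncomputable def c0 : ℝ := 3 / (2 * Real.sqrt 2)

/-- the bending of the barrier -/
noncomputable def psi (K j : ℕ) : ℝ := c0 * Real.log (((K : ℝ) + 1) / ((K : ℝ) - j + 1))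

/-- typical size of the partition function of depth K at inverse temperature be -/
noncomputable def typ (be : ℝ) (K : ℕ) : ℝ :=
  Real.exp (be * (Real.sqrt 2 * K * vv - c0 * Real.log ((K : ℝ) + 1)))

/-- entries of the branching random walk: level r, node i, leaf c -/
noncomputable def mBn (be : ℝ) (K c r i : ℕ) : ℝ :=
  if r < K ∧ i = c / 2 ^ (K - 1 - r) then be * sv else 0

/-- branching random walk matrix -/
noncomputable def mB (be : ℝ) (K : ℕ) (c : Fin (2 ^ K)) (k : Fin K × Fin (2 ^ K)) : ℝ :=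
  mBn be K c k.1 k.2

/-- entries of the cosine window field: scale r, index i, leaf c -/
noncomputable def mCn (be : ℝ) (K c r i : ℕ) : ℝ :=
  if r < K then
    (if i = c / 2 ^ (K - r) then
      be * sv * Real.cos (Real.pi / 2 * (((c % 2 ^ (K - r) : ℕ) : ℝ) / 2 ^ (K - r)))
    else if i = c / 2 ^ (K - r) + 1 then
      be * sv * Real.sin (Real.pi / 2 * (((c % 2 ^ (K - r) : ℕ) : ℝ) / 2 ^ (K - r)))
    else 0)
  else 0

/-- cosine window fields on B independent blocks -/
noncomputable def mC (be : ℝ) (K B : ℕ) (i : Fin B × Fin (2 ^ K))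
    (k : Fin B × Fin K × Fin (2 ^ K + 1)) : ℝ :=
  if k.1 = i.1 then mCn be K i.2 k.2.1 k.2.2 else 0

/-- trunk model: piece j hangs at level j of a common trunk and carries a cosine window field of
depth K - j - 2 -/
noncomputable def mT (be : ℝ) (K : ℕ) (i : Fin K × Fin (2 ^ K)) :
    (Fin K ⊕ (Fin K × Fin K × Fin (2 ^ K + 1))) → ℝ
  | Sum.inl r => if (r : ℕ) < (i.1 : ℕ) then be * sv else 0
  | Sum.inr k => if k.1 = i.1 then mCn be (K - i.1 - 2) i.2 k.2.1 k.2.2 else 0

/-- weights of the trunk model -/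
noncomputable def pT (K : ℕ) (i : Fin K × Fin (2 ^ K)) : ℝ :=
  if (i.1 : ℕ) + 3 ≤ K ∧ (i.2 : ℕ) < 2 ^ (K - i.1 - 2) then (4 : ℝ) ^ (i.1 : ℕ) else 0

/-- the leaf event of the second moment method for the random walk of one leaf -/
def Ek (K : ℕ) (x : ℝ) : Set (Fin K → ℝ) :=
  {g | (∀ j : ℕ, 1 ≤ j → j ≤ K →
      sv * ps g j ≤ Real.sqrt 2 * vv * j + x + 2 - (j : ℝ) / K * psi K K) ∧
    Real.sqrt 2 * vv * K + x - psi K K ≤ sv * ps g K ∧
    sv * ps g K ≤ Real.sqrt 2 * vv * K + x - psi K K + 1}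

/-- probability that the walk continues from height s at level r inside the leaf event -/
noncomputable def qk (K r : ℕ) (x s : ℝ) : ℝ :=
  (Ga (Fin (K - r))).real {g | (∀ j : ℕ, 1 ≤ j → j ≤ K - r →
      s + sv * ps g j ≤ Real.sqrt 2 * vv * (r + j : ℝ) + x + 2 - ((r : ℝ) + j) / K * psi K K) ∧
    Real.sqrt 2 * vv * K + x - psi K K ≤ s + sv * ps g (K - r) ∧
    s + sv * ps g (K - r) ≤ Real.sqrt 2 * vv * K + x - psi K K + 1}

/-- pair functional: common path up to level r, then two independent continuations -/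
noncomputable def Qk (K r : ℕ) (x : ℝ) : ℝ :=
  ∫ g : Fin r → ℝ, Set.indicator {g : Fin r → ℝ | ∀ j : ℕ, 1 ≤ j → j ≤ r →
      sv * ps g j ≤ Real.sqrt 2 * vv * j + x + 2 - (j : ℝ) / K * psi K K}
    (fun g => (qk K r x (sv * ps g r)) ^ 2) g ∂Ga (Fin r)

/-- distance of two leaves, at least one -/
noncomputable def dl (c c' : ℕ) : ℝ := max 1 |(c : ℝ) - c'|

end PN
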