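import Pool.Agent.H65.PN.Gau

set_option autoImplicit false

namespace PN
open MeasureTheory ProbabilityTheory PN.H65

namespace HARaux

lemma integ {α : Type} [MeasurableSpace α] {μ : Measure α} [IsProbabilityMeasure μ] {f : α → ℝ}
    (mf : Measurable f) {N : ℝ} (h0 : ∀ g, 0 ≤ f g) (hN : ∀ g, f g ≤ N) : Integrable f μ := by
  refine Integrable.of_bound mf.aestronglyMeasurable N (Filter.Eventually.of_forall ?_)
  intro g
  rw [Real.norm_eq_abs, abs_of_nonneg (h0 g)]
  exact hN g

/-- one dimensional association -/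
lemma one (μ : Measure ℝ) [IsProbabilityMeasure μ] (F H : ℝ → ℝ) (aF : Antitone F)
    (aH : Antitone H) {N M : ℝ} (F0 : ∀ x, 0 ≤ F x) (FN : ∀ x, F x ≤ N) (H0 : ∀ x, 0 ≤ H x)
    (HM : ∀ x, H x ≤ M) : (∫ x, F x ∂μ) * (∫ x, H x ∂μ) ≤ ∫ x, F x * H x ∂μ := by
  have iF : Integrable F μ := integ aF.measurable F0 FN
  have iH : Integrable H μ := integ aH.measurable H0 HM
  have iFH : Integrable (fun x => F x * H x) μ := by
    have hN : 0 ≤ N := (F0 0).trans (FN 0)
    exact integ (aF.measurable.mul aH.measurable) (fun x => mul_nonneg (F0 x) (H0 x))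
      (fun x => mul_le_mul (FN x) (HM x) (H0 x) hN)
  set A := ∫ x, F x * H x ∂μ with hA
  set a := ∫ x, F x ∂μ with ha
  set b := ∫ x, H x ∂μ with hb
  have key : ∀ y, 0 ≤ A - F y * b - H y * a + F y * H y := by
    intro y
    have h1 : 0 ≤ ∫ x, (F x - F y) * (H x - H y) ∂μ := by
      refine integral_nonneg ?_
      intro x
      simp only [Pi.zero_apply]
      rcases le_total x y with h | h
      · exact mul_nonneg (sub_nonneg.mpr (aF h)) (sub_nonneg.mpr (aH h))
      · exact mul_nonneg_of_nonpos_of_nonpos (sub_nonpos.mpr (aF h)) (sub_nonpos.mpr (aH h))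
    have h2 : (fun x => (F x - F y) * (H x - H y)) =
        fun x => ((F x * H x - F y * H x) - H y * F x) + F y * H y := by
      funext x
      ring
    have j1 : Integrable (fun x => F x * H x - F y * H x) μ := iFH.sub (iH.const_mul _)
    have j2 : Integrable (fun x => (F x * H x - F y * H x) - H y * F x) μ :=
      j1.sub (iF.const_mul _)
    have e1 : ∫ x, (((F x * H x - F y * H x) - H y * F x) + F y * H y) ∂μ =
        (∫ x, ((F x * H x - F y * H x) - H y * F x) ∂μ) + ∫ _x, F y * H y ∂μ :=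
      integral_add j2 (integrable_const _)
    have e2 : ∫ x, ((F x * H x - F y * H x) - H y * F x) ∂μ =
        (∫ x, (F x * H x - F y * H x) ∂μ) - ∫ x, H y * F x ∂μ :=
      integral_sub j1 (iF.const_mul _)
    have e3 : ∫ x, (F x * H x - F y * H x) ∂μ =
        (∫ x, F x * H x ∂μ) - ∫ x, F y * H x ∂μ :=
      integral_sub iFH (iH.const_mul _)
    rw [h2, e1, e2, e3, integral_const_mul, integral_const_mul, integral_const,
      probReal_univ, one_smul] at h1
    exact h1
  have h3 : 0 ≤ ∫ y, (A - F y * b - H y * a + F y * H y) ∂μ :=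
    integral_nonneg key
  have j1 : Integrable (fun y => A - F y * b) μ := (integrable_const A).sub (iF.mul_const b)
  have j2 : Integrable (fun y => A - F y * b - H y * a) μ := j1.sub (iH.mul_const a)
  have e1 : ∫ y, (A - F y * b - H y * a + F y * H y) ∂μ =
      (∫ y, (A - F y * b - H y * a) ∂μ) + ∫ y, F y * H y ∂μ := integral_add j2 iFH
  have e2 : ∫ y, (A - F y * b - H y * a) ∂μ = (∫ y, (A - F y * b) ∂μ) - ∫ y, H y * a ∂μ :=
    integral_sub j1 (iH.mul_const a)
  have e3 : ∫ y, (A - F y * b) ∂μ = (∫ _y, A ∂μ) - ∫ y, F y * b ∂μ :=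
    integral_sub (integrable_const A) (iF.mul_const b)
  rw [e1, e2, e3, integral_mul_const, integral_mul_const, integral_const, probReal_univ,
    one_smul, ← hA, ← ha, ← hb] at h3
  linarith

lemma mp_cons (n : ℕ) : MeasurePreserving
    (fun p : ℝ × (Fin n → ℝ) => (Fin.cons p.1 p.2 : Fin (n + 1) → ℝ))
    ((gaussianReal 0 1).prod (Ga (Fin n))) (Ga (Fin (n + 1))) := by
  have h := (measurePreserving_piFinSuccAbove (fun _ : Fin (n + 1) => gaussianReal 0 1) 0).symm
  have e : (fun p : ℝ × (Fin n → ℝ) => (Fin.cons p.1 p.2 : Fin (n + 1) → ℝ)) =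
      ⇑(MeasurableEquiv.piFinSuccAbove (fun _ : Fin (n + 1) => ℝ) 0).symm := by
    funext p
    simp [MeasurableEquiv.piFinSuccAbove]
    rfl
  rw [e]
  exact h

lemma integral_cons (n : ℕ) (F : (Fin (n + 1) → ℝ) → ℝ) (hF : Integrable F (Ga (Fin (n + 1)))) :
    ∫ g, F g ∂Ga (Fin (n + 1)) =
      ∫ s, (∫ g, F (Fin.cons s g) ∂Ga (Fin n)) ∂gaussianReal 0 1 := by
  have hmp := mp_cons n
  have h1 : Integrable (fun p : ℝ × (Fin n → ℝ) => F (Fin.cons p.1 p.2))
      ((gaussianReal 0 1).prod (Ga (Fin n))) := hmp.integrable_comp_of_integrable hF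
  have h2 : ∫ g, F g ∂Ga (Fin (n + 1)) = ∫ g, F g ∂(Measure.map
      (fun p : ℝ × (Fin n → ℝ) => (Fin.cons p.1 p.2 : Fin (n + 1) → ℝ))
      ((gaussianReal 0 1).prod (Ga (Fin n)))) := by rw [hmp.map_eq]
  rw [h2, integral_map hmp.measurable.aemeasurable
    (by rw [hmp.map_eq]; exact hF.aestronglyMeasurable), integral_prod _ h1]

lemma cons_le1 {n : ℕ} {s s' : ℝ} (h : s ≤ s') (g : Fin n → ℝ) :
    (Fin.cons s g : Fin (n + 1) → ℝ) ≤ Fin.cons s' g := by
  intro i
  refine Fin.cases ?_ (fun j => ?_) i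
  · simpa using h
  · simp

lemma cons_le2 {n : ℕ} (s : ℝ) {g g' : Fin n → ℝ} (h : g ≤ g') :
    (Fin.cons s g : Fin (n + 1) → ℝ) ≤ Fin.cons s g' := by
  intro i
  refine Fin.cases ?_ (fun j => ?_) i
  · simp
  · simpa using h j

lemma bdd : ∀ (n : ℕ) (f h : (Fin n → ℝ) → ℝ) (N : ℝ), Measurable f → Measurable h →
    Antitone f → Antitone h → (∀ g, 0 ≤ f g) → (∀ g, f g ≤ N) → (∀ g, 0 ≤ h g) →
    (∀ g, h g ≤ 1) →
    (∫ g, f g ∂Ga (Fin n)) * (∫ g, h g ∂Ga (Fin n)) ≤ ∫ g, f g * h g ∂Ga (Fin n) := by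
  intro n
  induction n with
  | zero =>
    intro f h N mf mh af ah f0 fN h0 h1
    have e1 : ∀ g, f g = f default := fun g => congrArg f (Subsingleton.elim _ _)
    have e2 : ∀ g, h g = h default := fun g => congrArg h (Subsingleton.elim _ _)
    have e3 : ∫ g, f g ∂Ga (Fin 0) = f default := by
      rw [integral_congr_ae (Filter.Eventually.of_forall e1)]
      simp
    have e4 : ∫ g, h g ∂Ga (Fin 0) = h default := by
      rw [integral_congr_ae (Filter.Eventually.of_forall e2)]
      simp
    have e5 : ∫ g, f g * h g ∂Ga (Fin 0) = f default * h default := by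
      rw [integral_congr_ae (Filter.Eventually.of_forall
        (fun g => by rw [e1 g, e2 g] : ∀ g, f g * h g = f default * h default))]
      simp
    rw [e3, e4, e5]
  | succ n ih =>
    intro f h N mf mh af ah f0 fN h0 h1
    have hN : 0 ≤ N := (f0 0).trans (fN 0)
    have mfh : Measurable (fun g => f g * h g) := mf.mul mh
    have iF : Integrable f (Ga (Fin (n + 1))) := integ mf f0 fN
    have iH : Integrable h (Ga (Fin (n + 1))) := integ mh h0 h1
    have fhN : ∀ g, f g * h g ≤ N := fun g => by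
      calc f g * h g ≤ N * 1 := mul_le_mul (fN g) (h1 g) (h0 g) hN
        _ = N := mul_one N
    have iFH : Integrable (fun g => f g * h g) (Ga (Fin (n + 1))) :=
      integ mfh (fun g => mul_nonneg (f0 g) (h0 g)) fhN
    have mc : ∀ s : ℝ, Measurable (fun g : Fin n → ℝ => (Fin.cons s g : Fin (n + 1) → ℝ)) := by
      intro s
      have := (mp_cons n).measurable
      exact this.comp (measurable_const.prodMk measurable_id)
    have i1 : ∀ s : ℝ, Integrable (fun g : Fin n → ℝ => f (Fin.cons s g)) (Ga (Fin n)) :=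
      fun s => integ (mf.comp (mc s)) (fun g => f0 _) (fun g => fN _)
    have i2 : ∀ s : ℝ, Integrable (fun g : Fin n → ℝ => h (Fin.cons s g)) (Ga (Fin n)) :=
      fun s => integ (mh.comp (mc s)) (fun g => h0 _) (fun g => h1 _)
    set F : ℝ → ℝ := fun s => ∫ g, f (Fin.cons s g) ∂Ga (Fin n) with hF
    set H : ℝ → ℝ := fun s => ∫ g, h (Fin.cons s g) ∂Ga (Fin n) with hH
    have aF : Antitone F := fun s s' hs =>
      integral_mono (i1 s') (i1 s) (fun g => af (cons_le1 hs g))
    have aH : Antitone H := fun s s' hs =>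
      integral_mono (i2 s') (i2 s) (fun g => ah (cons_le1 hs g))
    have F0 : ∀ s, 0 ≤ F s := fun s => integral_nonneg (fun g => f0 _)
    have H0 : ∀ s, 0 ≤ H s := fun s => integral_nonneg (fun g => h0 _)
    have FN : ∀ s, F s ≤ N := by
      intro s
      calc F s ≤ ∫ _g : Fin n → ℝ, N ∂Ga (Fin n) :=
            integral_mono (i1 s) (integrable_const N) (fun g => fN _)
        _ = N := by simp
    have H1 : ∀ s, H s ≤ 1 := by
      intro s
      calc H s ≤ ∫ _g : Fin n → ℝ, (1 : ℝ) ∂Ga (Fin n) :=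
            integral_mono (i2 s) (integrable_const 1) (fun g => h1 _)
        _ = 1 := by simp
    rw [integral_cons n f iF, integral_cons n h iH, integral_cons n _ iFH]
    refine (one (gaussianReal 0 1) F H aF aH F0 FN H0 H1).trans ?_
    refine integral_mono (integ (aF.measurable.mul aH.measurable)
      (fun x => mul_nonneg (F0 x) (H0 x)) (fun x => mul_le_mul (FN x) (H1 x) (H0 x) hN)) ?_ ?_
    · have h1 : Integrable (fun p : ℝ × (Fin n → ℝ) => f (Fin.cons p.1 p.2) *
          h (Fin.cons p.1 p.2)) ((gaussianReal 0 1).prod (Ga (Fin n))) :=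
        (mp_cons n).integrable_comp_of_integrable iFH
      exact h1.integral_prod_left
    · intro s
      exact ih (fun g => f (Fin.cons s g)) (fun g => h (Fin.cons s g)) N (mf.comp (mc s))
        (mh.comp (mc s)) (fun g g' hg => af (cons_le2 s hg)) (fun g g' hg => ah (cons_le2 s hg))
        (fun g => f0 _) (fun g => fN _) (fun g => h0 _) (fun g => h1 _)

end HARaux

open HARaux in
theorem HAR : S_HAR := by
  intro n f h mf mh af ah f0 h0 h1 iF
  have iFH : Integrable (fun g => f g * h g) (Ga (Fin n)) := by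
    refine iF.mono' (mf.mul mh).aestronglyMeasurable (Filter.Eventually.of_forall ?_)
    intro g
    rw [Real.norm_eq_abs, abs_of_nonneg (mul_nonneg (f0 g) (h0 g))]
    calc f g * h g ≤ f g * 1 := mul_le_mul_of_nonneg_left (h1 g) (f0 g)
      _ = f g := mul_one _
  have hN : ∀ N : ℕ, (∫ g, min (f g) N ∂Ga (Fin n)) * (∫ g, h g ∂Ga (Fin n)) ≤
      ∫ g, f g * h g ∂Ga (Fin n) := by
    intro N
    have h2 := bdd n (fun g => min (f g) N) h N (mf.min measurable_const) mh
      (fun g g' hg => min_le_min_right _ (af hg)) ah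
      (fun g => le_min (f0 g) (Nat.cast_nonneg N)) (fun g => min_le_right _ _) h0 h1
    refine h2.trans ?_
    refine integral_mono ?_ iFH ?_
    · refine iFH.mono' ((mf.min measurable_const).mul mh).aestronglyMeasurable
        (Filter.Eventually.of_forall ?_)
      intro g
      rw [Real.norm_eq_abs, abs_of_nonneg
        (mul_nonneg (le_min (f0 g) (Nat.cast_nonneg N)) (h0 g))]
      exact mul_le_mul_of_nonneg_right (min_le_left _ _) (h0 g)
    · intro g
      exact mul_le_mul_of_nonneg_right (min_le_left _ _) (h0 g)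
  have ht : Filter.Tendsto (fun N : ℕ => ∫ g, min (f g) N ∂Ga (Fin n)) Filter.atTop
      (nhds (∫ g, f g ∂Ga (Fin n))) := by
    refine tendsto_integral_of_dominated_convergence f
      (fun N => (mf.min measurable_const).aestronglyMeasurable) iF
      (fun N => Filter.Eventually.of_forall ?_) (Filter.Eventually.of_forall ?_)
    · intro g
      rw [Real.norm_eq_abs, abs_of_nonneg (le_min (f0 g) (Nat.cast_nonneg N))]
      exact min_le_left _ _
    · intro g
      obtain ⟨N0, hN0⟩ := exists_nat_ge (f g)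
      refine tendsto_const_nhds.congr' ?_
      filter_upwards [Filter.eventually_ge_atTop N0] with N hN
      rw [min_eq_left]
      exact hN0.trans (by exact_mod_cast hN)
  exact le_of_tendsto (ht.mul_const _) (Filter.Eventually.of_forall hN)

end PN
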