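import Pool.Agent.H24.PN.Stmts

/-! Reduction of the moments of the full mean square to the parts near the heights exp n / log y
(the argument of PM/MA, with general bounds). -/

namespace PN
open MeasureTheory Complex PM

private lemma add_pow_le {q : ℝ} (hq0 : 0 ≤ q) (hq1 : q ≤ 1) {a b : ℝ} (ha : 0 ≤ a) (hb : 0 ≤ b) :
    (a + b) ^ q ≤ a ^ q + b ^ q := by
  have h := NNReal.rpow_add_le_add_rpow ⟨a, ha⟩ ⟨b, hb⟩ hq0 hq1
  have := NNReal.coe_le_coe.2 h
  push_cast at this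
  exact this

private lemma sum_pow_le {q : ℝ} (hq0 : 0 < q) (hq1 : q ≤ 1) {ι : Type*} (s : Finset ι) (f : ι → ℝ)
    (hf : ∀ i ∈ s, 0 ≤ f i) : (∑ i ∈ s, f i) ^ q ≤ ∑ i ∈ s, (f i) ^ q := by
  classical
  induction s using Finset.induction_on with
  | empty => simp [Real.zero_rpow hq0.ne']
  | insert a s ha ih =>
    rw [Finset.sum_insert ha, Finset.sum_insert ha]
    have h1 : 0 ≤ f a := hf a (Finset.mem_insert_self _ _)
    have h2 : 0 ≤ ∑ i ∈ s, f i := Finset.sum_nonneg fun i hi => hf i (Finset.mem_insert_of_mem hi)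
    refine (add_pow_le hq0.le hq1 h1 h2).trans ?_
    have := ih fun i hi => hf i (Finset.mem_insert_of_mem hi)
    linarith

private lemma meas_int (f : Om → ℝ → ℝ) (hf : Continuous (fun q : Om × ℝ => f q.1 q.2)) (S : Set ℝ) :
    Measurable (fun ω : Om => ∫ t in S, f ω t) := by
  have h := MeasureTheory.StronglyMeasurable.integral_prod_right'
      (ν := (volume : Measure ℝ).restrict S) hf.stronglyMeasurable
  exact h.measurable

/-- pointwise domination of the weight -/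
private lemma weight_le {Y σ : ℝ} (hY : 16 ≤ Y) (hσ1 : 1 ≤ 4 * |σ| * Y) (t : ℝ) (ht1 : |t| ≤ 1) :
    ∃ n ∈ Finset.range (⌊Real.log Y⌋₊ + 1), |t| ≤ Real.exp (n + 1) / Y ∧
      1 / (σ ^ 2 + t ^ 2) ≤ 16 * (Y ^ 2 * Real.exp (-2 * n)) := by
  have hY0 : 0 < Y := by linarith
  have hσ0 : 0 < |σ| := by
    by_contra h
    have : |σ| = 0 := le_antisymm (not_lt.1 h) (abs_nonneg _)
    rw [this] at hσ1
    norm_num at hσ1
  have hσne : σ ≠ 0 := abs_pos.1 hσ0
  have htop : |t| ≤ Real.exp ((⌊Real.log Y⌋₊ : ℝ) + 1) / Y := by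
    refine ht1.trans ?_
    rw [le_div_iff₀ hY0, one_mul]
    have : Real.log Y < (⌊Real.log Y⌋₊ : ℝ) + 1 := Nat.lt_floor_add_one _
    calc Y = Real.exp (Real.log Y) := (Real.exp_log hY0).symm
      _ ≤ _ := Real.exp_le_exp.2 this.le
  by_cases h0 : |t| ≤ Real.exp 1 / Y
  · refine ⟨0, by simp, by simpa using h0, ?_⟩
    have h3 : 1 / (σ ^ 2 + t ^ 2) ≤ 1 / σ ^ 2 := by
      apply one_div_le_one_div_of_le (by positivity)
      nlinarith [sq_nonneg t]
    have h4 : 1 / σ ^ 2 ≤ 16 * Y ^ 2 := by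
      rw [div_le_iff₀ (by positivity)]
      have : 1 ≤ (4 * |σ| * Y) ^ 2 := by nlinarith
      have h5 : |σ| ^ 2 = σ ^ 2 := sq_abs σ
      nlinarith
    have h6 : Real.exp (-2 * ((0 : ℕ) : ℝ)) = 1 := by norm_num
    rw [h6, mul_one]
    linarith
  · have hex : ∃ n : ℕ, |t| ≤ Real.exp ((n : ℝ) + 1) / Y := ⟨_, htop⟩
    classical
    have hn1 := Nat.find_spec hex
    have hmin := fun k => Nat.find_min hex (m := k)
    generalize Nat.find hex = n at hn1 hmin
    have hn0 : n ≠ 0 := by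
      intro h
      rw [h] at hn1
      simp only [CharP.cast_eq_zero, zero_add] at hn1
      exact h0 hn1
    obtain ⟨k, hk⟩ := Nat.exists_eq_succ_of_ne_zero hn0
    have hk2 : ¬ |t| ≤ Real.exp ((k : ℝ) + 1) / Y := hmin k (by omega)
    push Not at hk2
    refine ⟨n, ?_, hn1, ?_⟩
    · rw [Finset.mem_range]
      by_contra hcon
      have hMk : ⌊Real.log Y⌋₊ ≤ k := by omega
      have h4 : Real.exp ((⌊Real.log Y⌋₊ : ℝ) + 1) / Y ≤ Real.exp ((k : ℝ) + 1) / Y := by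
        apply div_le_div_of_nonneg_right _ hY0.le
        apply Real.exp_le_exp.2
        have : ((⌊Real.log Y⌋₊ : ℕ) : ℝ) ≤ k := by exact_mod_cast hMk
        linarith
      linarith
    · have h3 : Real.exp n / Y < |t| := by
        have : ((k : ℝ) + 1) = n := by rw [hk]; push_cast; ring
        rwa [this] at hk2
      have h4 : (Real.exp n / Y) ^ 2 ≤ t ^ 2 := by
        rw [← sq_abs t]
        exact pow_le_pow_left₀ (by positivity) h3.le 2
      have h5 : 1 / (σ ^ 2 + t ^ 2) ≤ 1 / (Real.exp n / Y) ^ 2 := by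
        apply one_div_le_one_div_of_le (by positivity)
        nlinarith [sq_nonneg σ]
      have h6 : 1 / (Real.exp n / Y) ^ 2 = Y ^ 2 * Real.exp (-2 * n) := by
        have : Real.exp (-2 * n) = (Real.exp n)⁻¹ ^ 2 := by
          rw [← Real.exp_neg, ← Real.exp_nat_mul]
          congr 1
          push_cast; ring
        rw [this]
        field_simp
      have h7 : 0 ≤ Y ^ 2 * Real.exp (-2 * (n : ℝ)) := by positivity
      linarith

/-- pointwise bound of the full weighted integral by balls and the far part -/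
private lemma ptw {Y σ : ℝ} (hY : 16 ≤ Y) (hσ1 : 1 ≤ 4 * |σ| * Y) (h : ℝ → ℝ)
    (hc : Continuous h) (hnn : ∀ t, 0 ≤ h t)
    (hJi : Integrable (fun t : ℝ => h t / (σ ^ 2 + t ^ 2))) :
    (∫ t : ℝ, h t / (σ ^ 2 + t ^ 2)) / Y ≤ (∑ n ∈ Finset.range (⌊Real.log Y⌋₊ + 1),
      16 * (Y * Real.exp (-2 * n) * ∫ t in Set.Icc (-(Real.exp (n + 1) / Y)) (Real.exp (n + 1) / Y),
        h t)) + (∫ t in {t : ℝ | 1 < |t|}, h t / (σ ^ 2 + t ^ 2)) / Y := by
  have hY0 : 0 < Y := by linarith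
  have hden : ∀ t : ℝ, 0 ≤ σ ^ 2 + t ^ 2 := fun t => by positivity
  have hSm : MeasurableSet {t : ℝ | 1 < |t|} := measurableSet_lt measurable_const (by fun_prop)
  have hIi : ∀ n : ℕ, IntegrableOn h (Set.Icc (-(Real.exp (n + 1) / Y)) (Real.exp (n + 1) / Y)) :=
    fun n => hc.continuousOn.integrableOn_compact isCompact_Icc
  have h1 : ∫ t : ℝ, h t / (σ ^ 2 + t ^ 2) = (∫ t in {t : ℝ | 1 < |t|}, h t / (σ ^ 2 + t ^ 2)) +
      ∫ t in {t : ℝ | 1 < |t|}ᶜ, h t / (σ ^ 2 + t ^ 2) := by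
    rw [integral_add_compl hSm hJi]
  have h2 : ∫ t in {t : ℝ | 1 < |t|}ᶜ, h t / (σ ^ 2 + t ^ 2) ≤
      ∑ n ∈ Finset.range (⌊Real.log Y⌋₊ + 1), 16 * (Y ^ 2 * Real.exp (-2 * n) *
        ∫ t in Set.Icc (-(Real.exp (n + 1) / Y)) (Real.exp (n + 1) / Y), h t) := by
    have e1 : ∑ n ∈ Finset.range (⌊Real.log Y⌋₊ + 1), 16 * (Y ^ 2 * Real.exp (-2 * n) *
        ∫ t in Set.Icc (-(Real.exp (n + 1) / Y)) (Real.exp (n + 1) / Y), h t) =
        ∫ t : ℝ, ∑ n ∈ Finset.range (⌊Real.log Y⌋₊ + 1), 16 * (Y ^ 2 * Real.exp (-2 * n) *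
          (Set.Icc (-(Real.exp (n + 1) / Y)) (Real.exp (n + 1) / Y)).indicator h t) := by
      rw [integral_finsetSum]
      · apply Finset.sum_congr rfl
        intro n _
        rw [integral_const_mul, integral_const_mul, integral_indicator measurableSet_Icc]
      · intro n _
        exact (((integrable_indicator_iff measurableSet_Icc).2 (hIi n)).const_mul _).const_mul _
    rw [e1, ← integral_indicator hSm.compl]
    apply integral_mono_of_nonneg
    · apply Filter.Eventually.of_forall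
      intro t
      apply Set.indicator_nonneg
      intro t _
      exact div_nonneg (hnn t) (hden t)
    · apply integrable_finsetSum
      intro n _
      exact (((integrable_indicator_iff measurableSet_Icc).2 (hIi n)).const_mul _).const_mul _
    · apply Filter.Eventually.of_forall
      intro t
      show ({t : ℝ | 1 < |t|}ᶜ).indicator (fun t => h t / (σ ^ 2 + t ^ 2)) t ≤ _
      have hnn2 : ∀ n ∈ Finset.range (⌊Real.log Y⌋₊ + 1), 0 ≤ 16 * (Y ^ 2 * Real.exp (-2 * n) *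
          (Set.Icc (-(Real.exp (n + 1) / Y)) (Real.exp (n + 1) / Y)).indicator h t) := by
        intro n _
        have : 0 ≤ (Set.Icc (-(Real.exp ((n : ℝ) + 1) / Y)) (Real.exp ((n : ℝ) + 1) / Y)).indicator h t :=
          Set.indicator_nonneg (fun t _ => hnn t) t
        positivity
      by_cases ht : t ∈ ({t : ℝ | 1 < |t|}ᶜ : Set ℝ)
      · rw [Set.indicator_of_mem ht]
        have ht1 : |t| ≤ 1 := by
          simp only [Set.mem_compl_iff, Set.mem_setOf_eq, not_lt] at ht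
          exact ht
        obtain ⟨n, hnM, hn1, hn2⟩ := weight_le hY hσ1 t ht1
        refine le_trans ?_ (Finset.single_le_sum hnn2 hnM)
        have hmem : t ∈ Set.Icc (-(Real.exp ((n : ℝ) + 1) / Y)) (Real.exp ((n : ℝ) + 1) / Y) := by
          rw [Set.mem_Icc]; exact abs_le.1 hn1
        rw [Set.indicator_of_mem hmem]
        calc h t / (σ ^ 2 + t ^ 2) = 1 / (σ ^ 2 + t ^ 2) * h t := by ring
          _ ≤ 16 * (Y ^ 2 * Real.exp (-2 * n)) * h t := mul_le_mul_of_nonneg_right hn2 (hnn t)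
          _ = _ := by ring
      · rw [Set.indicator_of_notMem ht]
        exact Finset.sum_nonneg hnn2
  have h4 := div_le_div_of_nonneg_right (h1.le.trans (add_le_add le_rfl h2)) hY0.le
  refine h4.trans (le_of_eq ?_)
  rw [add_div, add_comm, Finset.sum_div]
  congr 1
  apply Finset.sum_congr rfl
  intro n _
  field_simp

/-- the moment of the full weighted integral -/
private lemma core (f : Om → ℝ → ℝ) (hfc : Continuous (fun q : Om × ℝ => f q.1 q.2))
    (hnn : ∀ ω t, 0 ≤ f ω t) (B0 : ℝ) (hfb : ∀ ω t, f ω t ≤ B0)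
    {Y σ : ℝ} (hY : 16 ≤ Y) (hσ1 : 1 ≤ 4 * |σ| * Y) {p : ℝ} (hp0 : 0 < p) (hp1 : p ≤ 1)
    (hJi : ∀ ω, Integrable (fun t : ℝ => f ω t / (σ ^ 2 + t ^ 2)))
    (B : ℝ) (hJB : ∀ ω, ∫ t : ℝ, f ω t / (σ ^ 2 + t ^ 2) ≤ B) (a : ℕ → ℝ) (c : ℝ)
    (h1 : ∀ n ∈ Finset.range (⌊Real.log Y⌋₊ + 1), ∫ ω : Om, (Y * Real.exp (-2 * n) *
      ∫ t in Set.Icc (-(Real.exp (n + 1) / Y)) (Real.exp (n + 1) / Y), f ω t) ^ (p / 2) ∂P ≤ a n)
    (h2 : ∫ ω : Om, ((∫ t in {t : ℝ | 1 < |t|}, f ω t / (σ ^ 2 + t ^ 2)) / Y) ^ (p / 2) ∂P ≤ c) :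
    ∫ ω : Om, ((∫ t : ℝ, f ω t / (σ ^ 2 + t ^ 2)) / Y) ^ (p / 2) ∂P ≤
      (16 : ℝ) ^ (p / 2) * ∑ n ∈ Finset.range (⌊Real.log Y⌋₊ + 1), a n + c := by
  have hY0 : 0 < Y := by linarith
  have hq0 : 0 < p / 2 := by positivity
  have hq1 : p / 2 ≤ 1 := by linarith
  have hσ0 : 0 < |σ| := by
    by_contra h
    have : |σ| = 0 := le_antisymm (not_lt.1 h) (abs_nonneg _)
    rw [this] at hσ1
    norm_num at hσ1
  have hσne : σ ≠ 0 := abs_pos.1 hσ0
  have hden : ∀ t : ℝ, 0 < σ ^ 2 + t ^ 2 := fun t => by positivity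
  have hfct : ∀ ω, Continuous (f ω) := fun ω => hfc.comp (continuous_const.prodMk continuous_id)
  have hR0 : ∀ n : ℕ, 0 < Real.exp ((n : ℝ) + 1) / Y := fun n => by positivity
  have hIi : ∀ (n : ℕ) ω, IntegrableOn (f ω) (Set.Icc (-(Real.exp (n + 1) / Y)) (Real.exp (n + 1) / Y)) :=
    fun n ω => (hfct ω).continuousOn.integrableOn_compact isCompact_Icc
  have hInn : ∀ (n : ℕ) ω, 0 ≤ ∫ t in Set.Icc (-(Real.exp (n + 1) / Y)) (Real.exp (n + 1) / Y), f ω t :=
    fun n ω => integral_nonneg fun t => hnn ω t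
  have hInb : ∀ (n : ℕ) ω, ∫ t in Set.Icc (-(Real.exp (n + 1) / Y)) (Real.exp (n + 1) / Y), f ω t ≤
      B0 * (2 * (Real.exp (n + 1) / Y)) := by
    intro n ω
    calc ∫ t in Set.Icc (-(Real.exp (n + 1) / Y)) (Real.exp (n + 1) / Y), f ω t ≤
        ∫ t in Set.Icc (-(Real.exp (n + 1) / Y)) (Real.exp (n + 1) / Y), B0 := by
          apply setIntegral_mono_on (hIi n ω)
          · exact integrableOn_const (by simp) (by simp)
          · exact measurableSet_Icc
          · intro t _; exact hfb ω t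
      _ = _ := by
          rw [setIntegral_const, smul_eq_mul, Real.volume_real_Icc_of_le (by linarith [hR0 n])]
          ring
  have hFfm : Measurable (fun ω : Om => ∫ t in {t : ℝ | 1 < |t|}, f ω t / (σ ^ 2 + t ^ 2)) := by
    have hc : Continuous (fun q : Om × ℝ => f q.1 q.2 / (σ ^ 2 + q.2 ^ 2)) := by
      refine hfc.div ?_ ?_
      · fun_prop
      · intro q; exact (hden q.2).ne'
    exact meas_int (fun ω t => f ω t / (σ ^ 2 + t ^ 2)) hc _
  have hFfn : ∀ ω, 0 ≤ ∫ t in {t : ℝ | 1 < |t|}, f ω t / (σ ^ 2 + t ^ 2) :=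
    fun ω => integral_nonneg fun t => div_nonneg (hnn ω t) (hden t).le
  have hFfb : ∀ ω, ∫ t in {t : ℝ | 1 < |t|}, f ω t / (σ ^ 2 + t ^ 2) ≤ B := by
    intro ω
    refine le_trans ?_ (hJB ω)
    exact setIntegral_le_integral (hJi ω) (Filter.Eventually.of_forall fun t =>
      div_nonneg (hnn ω t) (hden t).le)
  have hJ0 : ∀ ω, 0 ≤ ∫ t : ℝ, f ω t / (σ ^ 2 + t ^ 2) :=
    fun ω => integral_nonneg fun t => div_nonneg (hnn ω t) (hden t).le
  have hpw : ∀ ω, ((∫ t : ℝ, f ω t / (σ ^ 2 + t ^ 2)) / Y) ^ (p / 2) ≤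
      (∑ n ∈ Finset.range (⌊Real.log Y⌋₊ + 1), (16 : ℝ) ^ (p / 2) * (Y * Real.exp (-2 * n) *
        ∫ t in Set.Icc (-(Real.exp (n + 1) / Y)) (Real.exp (n + 1) / Y), f ω t) ^ (p / 2)) +
      ((∫ t in {t : ℝ | 1 < |t|}, f ω t / (σ ^ 2 + t ^ 2)) / Y) ^ (p / 2) := by
    intro ω
    have hnn2 : ∀ n ∈ Finset.range (⌊Real.log Y⌋₊ + 1), 0 ≤ 16 * (Y * Real.exp (-2 * n) *
        ∫ t in Set.Icc (-(Real.exp (n + 1) / Y)) (Real.exp (n + 1) / Y), f ω t) := by
      intro n _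
      have := hInn n ω
      positivity
    refine (Real.rpow_le_rpow (div_nonneg (hJ0 ω) hY0.le)
      (ptw hY hσ1 (f ω) (hfct ω) (hnn ω) (hJi ω)) hq0.le).trans ?_
    refine (add_pow_le hq0.le hq1 (Finset.sum_nonneg hnn2) (div_nonneg (hFfn ω) hY0.le)).trans ?_
    apply add_le_add _ le_rfl
    refine (sum_pow_le hq0 hq1 _ _ hnn2).trans (le_of_eq ?_)
    apply Finset.sum_congr rfl
    intro n _
    have := hInn n ω
    rw [Real.mul_rpow (by norm_num) (by positivity)]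
  have hi1 : ∀ n : ℕ, Integrable (fun ω => (Y * Real.exp (-2 * n) *
      ∫ t in Set.Icc (-(Real.exp (n + 1) / Y)) (Real.exp (n + 1) / Y), f ω t) ^ (p / 2)) P := by
    intro n
    have hmeas : Measurable (fun ω => (Y * Real.exp (-2 * n) *
        ∫ t in Set.Icc (-(Real.exp (n + 1) / Y)) (Real.exp (n + 1) / Y), f ω t) ^ (p / 2)) :=
      ((meas_int f hfc _).const_mul _).pow_const _
    apply Integrable.mono' (integrable_const ((Y * Real.exp (-2 * n) *
      (B0 * (2 * (Real.exp (n + 1) / Y)))) ^ (p / 2))) hmeas.aestronglyMeasurable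
    apply Filter.Eventually.of_forall
    intro ω
    have h0 := hInn n ω
    rw [Real.norm_of_nonneg (by positivity)]
    apply Real.rpow_le_rpow (by positivity) _ hq0.le
    exact mul_le_mul_of_nonneg_left (hInb n ω) (by positivity)
  have hi2 : Integrable (fun ω => ((∫ t in {t : ℝ | 1 < |t|}, f ω t / (σ ^ 2 + t ^ 2)) / Y) ^ (p / 2)) P := by
    have hmeas : Measurable (fun ω =>
        ((∫ t in {t : ℝ | 1 < |t|}, f ω t / (σ ^ 2 + t ^ 2)) / Y) ^ (p / 2)) :=
      (hFfm.div_const _).pow_const _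
    apply Integrable.mono' (integrable_const ((B / Y) ^ (p / 2))) hmeas.aestronglyMeasurable
    apply Filter.Eventually.of_forall
    intro ω
    have h0 := hFfn ω
    rw [Real.norm_of_nonneg (by positivity)]
    apply Real.rpow_le_rpow (by positivity) _ hq0.le
    exact div_le_div_of_nonneg_right (hFfb ω) hY0.le
  have hint1 : ∫ ω : Om, ((∫ t : ℝ, f ω t / (σ ^ 2 + t ^ 2)) / Y) ^ (p / 2) ∂P ≤
      ∫ ω : Om, ((∑ n ∈ Finset.range (⌊Real.log Y⌋₊ + 1), (16 : ℝ) ^ (p / 2) *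
        (Y * Real.exp (-2 * n) *
        ∫ t in Set.Icc (-(Real.exp (n + 1) / Y)) (Real.exp (n + 1) / Y), f ω t) ^ (p / 2)) +
      ((∫ t in {t : ℝ | 1 < |t|}, f ω t / (σ ^ 2 + t ^ 2)) / Y) ^ (p / 2)) ∂P := by
    apply integral_mono_of_nonneg
    · apply Filter.Eventually.of_forall
      intro ω
      exact Real.rpow_nonneg (div_nonneg (hJ0 ω) hY0.le) _
    · refine Integrable.add ?_ hi2
      apply integrable_finsetSum
      intro n _
      exact (hi1 n).const_mul _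
    · apply Filter.Eventually.of_forall
      intro ω
      exact hpw ω
  refine hint1.trans ?_
  rw [integral_add _ hi2, integral_finsetSum]
  · apply add_le_add _ h2
    rw [Finset.mul_sum]
    apply Finset.sum_le_sum
    intro n hn
    rw [integral_const_mul]
    exact mul_le_mul_of_nonneg_left (h1 n hn) (by positivity)
  · intro n _
    exact (hi1 n).const_mul _
  · apply integrable_finsetSum
    intro n _
    exact (hi1 n).const_mul _

/-- the moment of the mean square from the moments of its parts -/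
theorem jred (hJM : PM.S_JM) (hGC : PM.S_GC) {γ p : ℝ} {p0 : ℕ} (hp0 : 0 < p) (hp1 : p ≤ 1)
    (hgood : Good γ p0) {y σ : ℝ} (hy : (p0 : ℝ) + 1 ≤ y) (hσ1 : 1 ≤ 4 * |σ| * Real.log y)
    (hσ2 : |σ| * Real.log y ≤ 2) (a : ℕ → ℝ) (c : ℝ)
    (h1 : ∀ n : ℕ, (n : ℝ) ≤ Real.log (Real.log y) →
      ∫ ω : Om, (Real.log y * Real.exp (-2 * n) *
      ∫ t in Set.Icc (-(Real.exp (n + 1) / Real.log y)) (Real.exp (n + 1) / Real.log y),
        ‖F γ (PrS p0 y) σ t ω‖ ^ 2) ^ (p / 2) ∂P ≤ a n)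
    (h2 : ∫ ω : Om, ((∫ t in {t : ℝ | 1 < |t|}, ‖F γ (PrS p0 y) σ t ω‖ ^ 2 / (σ ^ 2 + t ^ 2)) /
      Real.log y) ^ (p / 2) ∂P ≤ c) :
    ∫ ω : Om, (JF γ (PrS p0 y) σ ω / Real.log y) ^ (p / 2) ∂P ≤
      (16 : ℝ) ^ (p / 2) * ∑ n ∈ Finset.range (⌊Real.log (Real.log y)⌋₊ + 1), a n + c := by
  have hp04 : 4 * Real.exp 16 ≤ (p0 : ℝ) := hgood.1
  have hye : Real.exp 16 ≤ y := by nlinarith [Real.exp_pos 16]
  have hy0 : 0 < y := lt_of_lt_of_le (Real.exp_pos _) hye
  have hY : 16 ≤ Real.log y := by rw [Real.le_log_iff_exp_le hy0]; exact hye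
  have hY0 : 0 < Real.log y := by linarith
  have hσne : σ ≠ 0 := by
    rintro rfl
    norm_num at hσ1
  have hAp : ∀ l ∈ PrS p0 y, l.Prime ∧ p0 < l ∧ (l : ℝ) ≤ y := by
    intro l hl
    rw [PrS, Finset.mem_filter, Finset.mem_range] at hl
    have h3 : l ≤ ⌊y⌋₊ := by omega
    exact ⟨hl.2.1, by exact_mod_cast hl.2.2, (Nat.le_floor_iff hy0.le).1 h3⟩
  have hLn : Ln (PrS p0 y) σ := by
    intro l hl
    obtain ⟨h1, _, h4⟩ := hAp l hl
    have h5 : Real.log l ≤ Real.log y := Real.log_le_log (by exact_mod_cast h1.pos) h4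
    have : |σ| * Real.log l ≤ |σ| * Real.log y := mul_le_mul_of_nonneg_left h5 (abs_nonneg _)
    linarith
  have hgc := hGC γ p0 hgood (PrS p0 y) (fun l hl => ⟨(hAp l hl).1, (hAp l hl).2.1⟩) σ hLn
  have hjm := hJM γ (PrS p0 y) σ (fun l hl => (hAp l hl).1) (by
    have h1 := neg_abs_le σ
    have h2 : |σ| * 16 ≤ |σ| * Real.log y := mul_le_mul_of_nonneg_left hY (abs_nonneg _)
    linarith) hσne
  generalize PrS p0 y = A at *
  obtain ⟨hcont, hFG, hGb⟩ := hgc
  obtain ⟨_, ⟨B, hB⟩, hJi, _⟩ := hjm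
  have hfc : Continuous (fun q : Om × ℝ => ‖F γ A σ q.2 q.1‖ ^ 2) := by
    have h3 : Continuous (fun q : Om × ℝ => ((q.2, q.1) : ℝ × Om)) :=
      continuous_snd.prodMk continuous_fst
    have h2 := hcont.comp h3
    simp only [Function.comp_def] at h2
    have h4 := (Real.continuous_exp.comp h2).pow 2
    simp only [Function.comp_def] at h4
    have h5 : (fun q : Om × ℝ => ‖F γ A σ q.2 q.1‖ ^ 2) =
        fun q : Om × ℝ => Real.exp (G γ A σ q.2 q.1) ^ 2 := by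
      funext q; rw [hFG]
    rw [h5]; exact h4
  have hfb : ∀ (ω : Om) (t : ℝ), ‖F γ A σ t ω‖ ^ 2 ≤ Real.exp A.card ^ 2 := by
    intro ω t
    rw [hFG]
    apply pow_le_pow_left₀ (Real.exp_pos _).le
    exact Real.exp_le_exp.2 (le_trans (le_abs_self _) (hGb t ω))
  refine core (fun ω t => ‖F γ A σ t ω‖ ^ 2) hfc (fun ω t => sq_nonneg _) _ hfb hY hσ1 hp0 hp1
    hJi B (fun ω => (hB ω).2) a c ?_ h2
  intro n hn
  have hLL0 : 0 ≤ Real.log (Real.log y) := Real.log_nonneg (by linarith)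
  have hnL : (n : ℝ) ≤ Real.log (Real.log y) := by
    rw [Finset.mem_range] at hn
    have : n ≤ ⌊Real.log (Real.log y)⌋₊ := by omega
    exact (Nat.le_floor_iff hLL0).1 this
  exact h1 n hnL

/-- weighted geometric sums -/
theorem geo_sum {δ e : ℝ} (hδ : 0 < δ) (he : 0 ≤ e) : ∃ C : ℝ, 0 < C ∧ ∀ L : ℝ, 1 ≤ L →
    ∑ n ∈ Finset.range (⌊L⌋₊ + 1), Real.exp (δ * n) * ((n : ℝ) + 1) ^ (-e) ≤
      C * (Real.exp (δ * L) * L ^ (-e)) := by
  -- (1 + x)^e exp (-δ x / 2) is bounded on x ≥ 0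
  obtain ⟨C1, hC1, hb⟩ : ∃ C1 : ℝ, 0 < C1 ∧ ∀ x : ℝ, 0 ≤ x →
      (1 + x) ^ e * Real.exp (-(δ / 2) * x) ≤ C1 := by
    have hd : 0 < δ / 2 := by linarith
    refine ⟨Real.exp (e * (e / (δ / 2)) + δ / 2), Real.exp_pos _, ?_⟩
    intro x hx
    have hx1 : 0 < 1 + x := by linarith
    rw [Real.rpow_def_of_pos hx1, ← Real.exp_add]
    apply Real.exp_le_exp.2
    by_cases he0 : e = 0
    · subst he0
      simp only [mul_zero, zero_mul, zero_div, zero_add]
      nlinarith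
    · have hepos : 0 < e := lt_of_le_of_ne he (Ne.symm he0)
      -- log (1+x) ≤ (δ/2)(1+x)/e + log (e/(δ/2))  ≤ (δ/2)(1+x)/e + e/(δ/2)
      have h1 : Real.log ((1 + x) * ((δ / 2) / e)) ≤ (1 + x) * ((δ / 2) / e) :=
        (Real.log_le_sub_one_of_pos (by positivity)).trans (by linarith)
      have h2 : Real.log ((1 + x) * ((δ / 2) / e)) = Real.log (1 + x) + Real.log ((δ / 2) / e) :=
        Real.log_mul hx1.ne' (by positivity)
      have h3 : -Real.log ((δ / 2) / e) ≤ e / (δ / 2) := by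
        rw [← Real.log_inv, inv_div]
        exact (Real.log_le_sub_one_of_pos (by positivity)).trans (by linarith)
      have h4 : Real.log (1 + x) ≤ (1 + x) * ((δ / 2) / e) + e / (δ / 2) := by linarith
      have h5 : Real.log (1 + x) * e ≤ ((1 + x) * ((δ / 2) / e) + e / (δ / 2)) * e :=
        mul_le_mul_of_nonneg_right h4 he
      have h6 : ((1 + x) * ((δ / 2) / e) + e / (δ / 2)) * e = (1 + x) * (δ / 2) + e * (e / (δ / 2)) := by
        field_simp
      linarith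
  have hr0 : 0 < Real.exp (-(δ / 2)) := Real.exp_pos _
  have hr1 : Real.exp (-(δ / 2)) < 1 := by
    rw [Real.exp_lt_one_iff]; linarith
  refine ⟨C1 * (1 - Real.exp (-(δ / 2)))⁻¹, by
    have : 0 < 1 - Real.exp (-(δ / 2)) := by linarith
    positivity, ?_⟩
  intro L hL
  have hL0 : 0 < L := by linarith
  have hterm : ∀ n ∈ Finset.range (⌊L⌋₊ + 1), Real.exp (δ * n) * ((n : ℝ) + 1) ^ (-e) ≤
      (Real.exp (δ * L) * L ^ (-e)) * (C1 * Real.exp (-(δ / 2)) ^ (⌊L⌋₊ - n)) := by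
    intro n hn
    rw [Finset.mem_range] at hn
    have hnL : n ≤ ⌊L⌋₊ := by omega
    have hnL' : (n : ℝ) ≤ L := (Nat.le_floor_iff hL0.le).1 hnL
    have hx : 0 ≤ L - n := by linarith
    have h1 := hb (L - n) hx
    have hn0 : (0 : ℝ) ≤ n := Nat.cast_nonneg n
    have h2 : ((n : ℝ) + 1) ^ (-e) ≤ L ^ (-e) * (1 + (L - n)) ^ e := by
      rw [Real.rpow_neg (by linarith), Real.rpow_neg hL0.le]
      rw [inv_mul_eq_div, le_div_iff₀ (by positivity), inv_mul_le_iff₀ (by positivity),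
        ← Real.mul_rpow (by linarith) (by linarith)]
      apply Real.rpow_le_rpow hL0.le _ he
      nlinarith
    have h3 : Real.exp (-(δ / 2) * (L - n)) ≤ Real.exp (-(δ / 2)) ^ (⌊L⌋₊ - n) := by
      rw [← Real.exp_nat_mul]
      apply Real.exp_le_exp.2
      have h4 : ((⌊L⌋₊ - n : ℕ) : ℝ) ≤ L - n := by
        rw [Nat.cast_sub hnL]
        linarith [Nat.floor_le hL0.le]
      nlinarith
    have h5 : Real.exp (δ * n) = Real.exp (δ * L) * (Real.exp (-(δ / 2) * (L - n)) *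
        Real.exp (-(δ / 2) * (L - n))) := by
      rw [← Real.exp_add, ← Real.exp_add]
      congr 1
      ring
    calc Real.exp (δ * n) * ((n : ℝ) + 1) ^ (-e) ≤
        Real.exp (δ * n) * (L ^ (-e) * (1 + (L - n)) ^ e) :=
          mul_le_mul_of_nonneg_left h2 (Real.exp_pos _).le
      _ = (Real.exp (δ * L) * L ^ (-e)) * (((1 + (L - n)) ^ e * Real.exp (-(δ / 2) * (L - n))) *
          Real.exp (-(δ / 2) * (L - n))) := by rw [h5]; ring
      _ ≤ _ := by
          apply mul_le_mul_of_nonneg_left _ (by positivity)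
          exact mul_le_mul h1 h3 (Real.exp_pos _).le hC1.le
  refine (Finset.sum_le_sum hterm).trans ?_
  rw [← Finset.mul_sum, ← Finset.mul_sum]
  have hgeom : ∑ n ∈ Finset.range (⌊L⌋₊ + 1), Real.exp (-(δ / 2)) ^ (⌊L⌋₊ - n) ≤
      (1 - Real.exp (-(δ / 2)))⁻¹ := by
    have hrefl := Finset.sum_range_reflect (fun n => Real.exp (-(δ / 2)) ^ n) (⌊L⌋₊ + 1)
    have : ∑ n ∈ Finset.range (⌊L⌋₊ + 1), Real.exp (-(δ / 2)) ^ (⌊L⌋₊ - n) =
        ∑ n ∈ Finset.range (⌊L⌋₊ + 1), Real.exp (-(δ / 2)) ^ n := by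
      rw [← hrefl]
      apply Finset.sum_congr rfl
      intro n hn
      rfl
    rw [this, ← tsum_geometric_of_lt_one hr0.le hr1]
    exact (summable_geometric_of_lt_one hr0.le hr1).sum_le_tsum _ (fun i _ => by positivity)
  have h7 : C1 * (1 - Real.exp (-(δ / 2)))⁻¹ * (Real.exp (δ * L) * L ^ (-e)) =
      Real.exp (δ * L) * L ^ (-e) * (C1 * (1 - Real.exp (-(δ / 2)))⁻¹) := by ring
  rw [h7]
  apply mul_le_mul_of_nonneg_left _ (by positivity)
  exact mul_le_mul_of_nonneg_left hgeom hC1.le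

end PN
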