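import Pool.Agent.H24.PN.JRed

/-! Upper bounds for the moments of the mean square in the open window. -/

namespace PN
open MeasureTheory Complex PM

/-- the bound of the part near height exp n / log y as a power of log y times exp (δ n) -/
theorem an_eq {α p Y e : ℝ} (hY : 0 < Y) (n : ℕ) (C : ℝ) :
    C * (Y * Real.exp (-n)) ^ (α ^ 2 * p ^ 2 / 4) * Real.exp (p * (α - 1) * n) *
      ((n : ℝ) + 1) ^ e =
    C * Y ^ (α ^ 2 * p ^ 2 / 4) * (Real.exp ((p * (α - 1) - α ^ 2 * p ^ 2 / 4) * n) *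
      ((n : ℝ) + 1) ^ e) := by
  rw [Real.mul_rpow hY.le (Real.exp_pos _).le, ← Real.exp_mul]
  have h6 : Real.exp (-(n : ℝ) * (α ^ 2 * p ^ 2 / 4)) * Real.exp (p * (α - 1) * n) =
      Real.exp ((p * (α - 1) - α ^ 2 * p ^ 2 / 4) * n) := by
    rw [← Real.exp_add]; congr 1; ring
  rw [← h6]; ring

theorem LL_ge {p0 : ℕ} {γ y : ℝ} (hgood : Good γ p0) (hy : (p0 : ℝ) + 1 ≤ y) :
    16 ≤ Real.log y ∧ 1 ≤ Real.log (Real.log y) := by
  have hp04 : 4 * Real.exp 16 ≤ (p0 : ℝ) := hgood.1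
  have hye : Real.exp 16 ≤ y := by nlinarith [Real.exp_pos 16]
  have hy0 : 0 < y := lt_of_lt_of_le (Real.exp_pos _) hye
  have hY : 16 ≤ Real.log y := by rw [Real.le_log_iff_exp_le hy0]; exact hye
  refine ⟨hY, ?_⟩
  rw [Real.le_log_iff_exp_le (by linarith)]
  have := Real.exp_one_lt_d9
  linarith

/-- the common part: the power of log y dominates -/
theorem jsub (hMNB : S_MNB) (hJM : PM.S_JM) (hGC : PM.S_GC) {γ p : ℝ} (hp0 : 0 < p) (hp1 : p ≤ 1)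
    (hα1 : 1 < al γ) (hαp : al γ * p < 2) (hδ : (al γ) ^ 2 * p / 4 < al γ - 1) {p0 : ℕ}
    (hgood : Good γ p0) (E : ℝ) (hE : E ≤ 3 * al γ * p / 4)
    (hF : ∃ C : ℝ, 0 < C ∧ ∀ (y σ : ℝ),
      (p0 : ℝ) + 1 ≤ y → 1 ≤ 4 * |σ| * Real.log y → |σ| * Real.log y ≤ 2 →
      ∫ ω : Om, ((∫ t in {t : ℝ | 1 < |t|}, ‖F γ (PrS p0 y) σ t ω‖ ^ 2 / (σ ^ 2 + t ^ 2)) /
        Real.log y) ^ (p / 2) ∂P ≤
      C * (Real.log y) ^ (p * (al γ - 1)) * (Real.log (Real.log y)) ^ (-E)) :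
    ∃ C : ℝ, 0 < C ∧ ∀ (y σ : ℝ),
      (p0 : ℝ) + 1 ≤ y → 1 ≤ 4 * |σ| * Real.log y → |σ| * Real.log y ≤ 2 →
      ∫ ω : Om, (JF γ (PrS p0 y) σ ω / Real.log y) ^ (p / 2) ∂P ≤
      C * (Real.log y) ^ (p * (al γ - 1)) * (Real.log (Real.log y)) ^ (-E) := by
  obtain ⟨C1, hC1, h1⟩ := hMNB γ p hp0 hp1 hα1 hαp.le p0 hgood
  obtain ⟨C2, hC2, h2⟩ := hF
  have hex : ex (al γ) p = -(3 * al γ * p / 4) := by
    unfold ex
    rw [if_neg hαp.ne, add_zero]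
  have hδ' : 0 < p * (al γ - 1) - (al γ) ^ 2 * p ^ 2 / 4 := by nlinarith
  obtain ⟨C3, hC3, h3⟩ := geo_sum (e := 3 * al γ * p / 4) hδ' (by nlinarith)
  refine ⟨16 ^ (p / 2) * C1 * C3 + C2, by positivity, ?_⟩
  intro y σ hy hσ1 hσ2
  obtain ⟨hY, hLL⟩ := LL_ge hgood hy
  have hY0 : 0 < Real.log y := by linarith
  have hL0 : 0 < Real.log (Real.log y) := by linarith
  refine (jred hJM hGC hp0 hp1 hgood hy hσ1 hσ2 _ _ (fun n hn => h1 y σ n hy hσ1 hσ2 hn)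
    (h2 y σ hy hσ1 hσ2)).trans ?_
  rw [hex]
  have h4 : ∑ n ∈ Finset.range (⌊Real.log (Real.log y)⌋₊ + 1),
      C1 * (Real.log y * Real.exp (-n)) ^ ((al γ) ^ 2 * p ^ 2 / 4) *
      Real.exp (p * (al γ - 1) * n) * ((n : ℝ) + 1) ^ (-(3 * al γ * p / 4)) =
      C1 * (Real.log y) ^ ((al γ) ^ 2 * p ^ 2 / 4) *
      ∑ n ∈ Finset.range (⌊Real.log (Real.log y)⌋₊ + 1),
        Real.exp ((p * (al γ - 1) - (al γ) ^ 2 * p ^ 2 / 4) * n) *
        ((n : ℝ) + 1) ^ (-(3 * al γ * p / 4)) := by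
    rw [Finset.mul_sum]
    exact Finset.sum_congr rfl fun n _ => an_eq hY0 n C1
  rw [h4]
  have h5 := h3 _ hLL
  have h6 : (Real.log y) ^ ((al γ) ^ 2 * p ^ 2 / 4) *
      Real.exp ((p * (al γ - 1) - (al γ) ^ 2 * p ^ 2 / 4) * Real.log (Real.log y)) =
      (Real.log y) ^ (p * (al γ - 1)) := by
    have : Real.exp ((p * (al γ - 1) - (al γ) ^ 2 * p ^ 2 / 4) * Real.log (Real.log y)) =
        (Real.log y) ^ (p * (al γ - 1) - (al γ) ^ 2 * p ^ 2 / 4) := by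
      rw [Real.rpow_def_of_pos hY0, mul_comm]
    rw [this, ← Real.rpow_add hY0]
    congr 1
    ring
  have h7 : (Real.log (Real.log y)) ^ (-(3 * al γ * p / 4)) ≤ (Real.log (Real.log y)) ^ (-E) :=
    Real.rpow_le_rpow_of_exponent_le hLL (by linarith)
  have h8 : 0 ≤ (16 : ℝ) ^ (p / 2) * (C1 * (Real.log y) ^ ((al γ) ^ 2 * p ^ 2 / 4)) := by positivity
  calc (16 : ℝ) ^ (p / 2) * (C1 * (Real.log y) ^ ((al γ) ^ 2 * p ^ 2 / 4) *
      ∑ n ∈ Finset.range (⌊Real.log (Real.log y)⌋₊ + 1),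
        Real.exp ((p * (al γ - 1) - (al γ) ^ 2 * p ^ 2 / 4) * n) *
        ((n : ℝ) + 1) ^ (-(3 * al γ * p / 4))) +
      C2 * (Real.log y) ^ (p * (al γ - 1)) * (Real.log (Real.log y)) ^ (-E)
      = (16 : ℝ) ^ (p / 2) * (C1 * (Real.log y) ^ ((al γ) ^ 2 * p ^ 2 / 4)) *
      (∑ n ∈ Finset.range (⌊Real.log (Real.log y)⌋₊ + 1),
        Real.exp ((p * (al γ - 1) - (al γ) ^ 2 * p ^ 2 / 4) * n) *
        ((n : ℝ) + 1) ^ (-(3 * al γ * p / 4))) +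
      C2 * (Real.log y) ^ (p * (al γ - 1)) * (Real.log (Real.log y)) ^ (-E) := by ring
    _ ≤ (16 : ℝ) ^ (p / 2) * (C1 * (Real.log y) ^ ((al γ) ^ 2 * p ^ 2 / 4)) *
      (C3 * (Real.exp ((p * (al γ - 1) - (al γ) ^ 2 * p ^ 2 / 4) * Real.log (Real.log y)) *
        (Real.log (Real.log y)) ^ (-(3 * al γ * p / 4)))) +
      C2 * (Real.log y) ^ (p * (al γ - 1)) * (Real.log (Real.log y)) ^ (-E) := by
        have := mul_le_mul_of_nonneg_left h5 h8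
        linarith
    _ = (16 : ℝ) ^ (p / 2) * C1 * C3 * ((Real.log y) ^ ((al γ) ^ 2 * p ^ 2 / 4) *
      Real.exp ((p * (al γ - 1) - (al γ) ^ 2 * p ^ 2 / 4) * Real.log (Real.log y))) *
        (Real.log (Real.log y)) ^ (-(3 * al γ * p / 4)) +
      C2 * (Real.log y) ^ (p * (al γ - 1)) * (Real.log (Real.log y)) ^ (-E) := by ring
    _ ≤ (16 : ℝ) ^ (p / 2) * C1 * C3 * ((Real.log y) ^ (p * (al γ - 1))) *
        (Real.log (Real.log y)) ^ (-E) +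
      C2 * (Real.log y) ^ (p * (al γ - 1)) * (Real.log (Real.log y)) ^ (-E) := by
        rw [h6]
        have h9 : 0 ≤ (16 : ℝ) ^ (p / 2) * C1 * C3 * ((Real.log y) ^ (p * (al γ - 1))) := by
          positivity
        have := mul_le_mul_of_nonneg_left h7 h9
        linarith
    _ = _ := by ring

theorem JUC (hMNB : S_MNB) (hOUA : S_OUA) (hJM : PM.S_JM) (hGC : PM.S_GC) : S_JUC := by
  intro γ p hp0 hp1 hα1 hα2 hδ p0 hgood
  have hαp : al γ * p < 2 := by nlinarith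
  exact jsub hMNB hJM hGC hp0 hp1 hα1 hαp hδ hgood (3 * al γ * p / 4) le_rfl
    (hOUA γ p hp0 hp1 hα1 hα2 p0 hgood)

theorem al_one : al 1 = 2 := by
  unfold al
  norm_num

end PN
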