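import Pool.Agent.H24.PN.Stmts

/-! Common part of LNC and LNG: second order expansion of the soft tail function. -/

namespace PN
open MeasureTheory Complex ProbabilityTheory PM

namespace AuxLN

/-- second order expansion of the soft tail function -/
theorem ft_exp {k h : ℝ} (hk : 0 < k) (h1 : -1 ≤ h) :
    |(1 + h) / (1 + h + k) - (1 / (1 + k) + k / (1 + k) ^ 2 * h - k / (1 + k) ^ 3 * h ^ 2)| ≤
      |h| ^ 3 / (1 + k) := by
  have hK : 0 < 1 + k := by linarith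
  have hh : 0 < 1 + h + k := by linarith
  have e1 : (1 + h) / (1 + h + k) - (1 / (1 + k) + k / (1 + k) ^ 2 * h - k / (1 + k) ^ 3 * h ^ 2) =
      h ^ 3 / (1 + k) * (k / (1 + h + k) * (1 / (1 + k) ^ 2)) := by
    field_simp
    ring
  rw [e1, abs_mul, abs_div, abs_pow, abs_of_pos hK]
  have h2 : |k / (1 + h + k) * (1 / (1 + k) ^ 2)| ≤ 1 := by
    rw [abs_of_nonneg (by positivity)]
    have h3 : k / (1 + h + k) ≤ 1 := by
      rw [div_le_one hh]; linarith
    have h4 : 1 / (1 + k) ^ 2 ≤ 1 := by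
      rw [div_le_one (by positivity)]
      nlinarith
    calc k / (1 + h + k) * (1 / (1 + k) ^ 2) ≤ 1 * 1 :=
          mul_le_mul h3 h4 (by positivity) (by norm_num)
      _ = 1 := by norm_num
  exact mul_le_of_le_one_right (by positivity) h2

theorem int3 {Ω : Type} [MeasurableSpace Ω] (μ : Measure Ω) [IsProbabilityMeasure μ]
    (a b c : ℝ) {h h2 : Ω → ℝ} (i1 : Integrable h μ) (i2 : Integrable h2 μ) :
    ∫ x, (a + b * h x - c * h2 x) ∂μ = a + b * (∫ x, h x ∂μ) - c * ∫ x, h2 x ∂μ := by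
  have j1 : Integrable (fun x => b * h x) μ := i1.const_mul _
  have j2 : Integrable (fun x => c * h2 x) μ := i2.const_mul _
  have j3 : Integrable (fun x => a + b * h x) μ := (integrable_const a).add j1
  rw [integral_sub j3 j2, integral_add (integrable_const a) j1, integral_const_mul,
    integral_const_mul, integral_const, probReal_univ, one_smul]

theorem int_lin {Ω : Type} [MeasurableSpace Ω] (μ : Measure Ω) {ι : Type} [Fintype ι]
    (c : ι → ℝ) {f : ι → Ω → ℝ} (hf : ∀ i, Integrable (f i) μ) :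
    ∫ x, ∑ i, c i * f i x ∂μ = ∑ i, c i * ∫ x, f i x ∂μ := by
  have h1 : ∀ i ∈ (Finset.univ : Finset ι), Integrable (fun x => c i * f i x) μ :=
    fun i _ => (hf i).const_mul _
  rw [integral_finsetSum _ h1]
  exact Finset.sum_congr rfl fun i _ => integral_const_mul _ _

theorem int_lin2 {Ω : Type} [MeasurableSpace Ω] (μ : Measure Ω) {ι : Type} [Fintype ι]
    (c : ι → ι → ℝ) {f : ι → ι → Ω → ℝ} (hf : ∀ i j, Integrable (f i j) μ) :
    ∫ x, ∑ i, ∑ j, c i j * f i j x ∂μ = ∑ i, ∑ j, c i j * ∫ x, f i j x ∂μ := by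
  have h1 : ∀ i ∈ (Finset.univ : Finset ι), Integrable (fun x => ∑ j, c i j * f i j x) μ :=
    fun i _ => integrable_finsetSum _ fun j _ => (hf i j).const_mul _
  rw [integral_finsetSum _ h1]
  exact Finset.sum_congr rfl fun i _ => int_lin μ (c i) (hf i)

theorem int_ss {Ω : Type} [MeasurableSpace Ω] (μ : Measure Ω) [IsProbabilityMeasure μ]
    (b c : ℝ) {h h2 : Ω → ℝ} (i1 : Integrable h μ) (i2 : Integrable h2 μ) :
    ∫ x, (h x - b * h2 x - c) ∂μ = (∫ x, h x ∂μ) - b * (∫ x, h2 x ∂μ) - c := by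
  have j1 : Integrable (fun x => b * h2 x) μ := i2.const_mul _
  have j3 : Integrable (fun x => h x - b * h2 x) μ := i1.sub j1
  rw [integral_sub j3 (integrable_const c), integral_sub i1 j1, integral_const_mul,
    integral_const, probReal_univ, one_smul]

theorem core {Ω : Type} [MeasurableSpace Ω] (μ : Measure Ω) [IsProbabilityMeasure μ] {ι : Type}
    [Fintype ι] (γ : ℝ) (m : ι → ℝ) (w : ι → ℂ) (lam ε : ℝ) (hM : 0 < ∑ i, m i) (hlam : 0 < lam)
    (Z h : Ω → ℝ) (hZ : ∀ x, 0 ≤ Z x) (hZm : AEStronglyMeasurable Z μ)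
    (hh : ∀ x, Z x = (∑ i, m i) * (1 + h x))
    (i1 : Integrable h μ) (i2 : Integrable (fun x => h x ^ 2) μ)
    (i3 : Integrable (fun x => |h x| ^ 3) μ)
    (e1 : |(∫ x, h x ∂μ) - (al γ) ^ 2 * ∑ i, m i / (∑ i, m i) * ‖w i‖ ^ 2| ≤ ε)
    (e2 : |(∫ x, h x ^ 2 ∂μ) - 2 * (al γ) ^ 2 * ∑ i, ∑ j, m i / (∑ i, m i) *
      (m j / (∑ i, m i)) * (w i * (starRingEnd ℂ) (w j)).re| ≤ ε)
    (e3 : ∫ x, |h x| ^ 3 ∂μ ≤ ε) :
    |(∫ x, ft lam (Z x) ∂μ) - apx γ m w lam| ≤ 3 * ε * ((∑ i, m i) / ((∑ i, m i) + lam)) := by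
  set M := ∑ i, m i with hMdef
  set k := lam / M with hk
  have hk0 : 0 < k := div_pos hlam hM
  have hK : 0 < 1 + k := by linarith
  have hlamk : lam = k * M := by rw [hk]; field_simp
  set A1 := (al γ) ^ 2 * ∑ i, m i / M * ‖w i‖ ^ 2 with hA1
  set A2 := 2 * (al γ) ^ 2 * ∑ i, ∑ j, m i / M * (m j / M) *
    (w i * (starRingEnd ℂ) (w j)).re with hA2
  have hMK : M / (M + lam) = 1 / (1 + k) := by
    rw [hlamk]; field_simp
  -- the approximation
  have hapx : apx γ m w lam = 1 / (1 + k) + k / (1 + k) ^ 2 * A1 - k / (1 + k) ^ 3 * A2 := by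
    unfold apx
    rw [← hMdef, hMK]
    have f1 : lam / (M + lam) ^ 2 * ((al γ) ^ 2 * ∑ i, m i * ‖w i‖ ^ 2) =
        k / (1 + k) ^ 2 * A1 := by
      have : ∑ i, m i / M * ‖w i‖ ^ 2 = (∑ i, m i * ‖w i‖ ^ 2) / M := by
        rw [Finset.sum_div]
        exact Finset.sum_congr rfl fun i _ => by ring
      rw [hA1, this, hlamk]
      field_simp
    have f2 : lam / (M + lam) ^ 3 * (2 * (al γ) ^ 2 * ∑ i, ∑ j, m i * m j *
        (w i * (starRingEnd ℂ) (w j)).re) = k / (1 + k) ^ 3 * A2 := by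
      have : ∑ i, ∑ j, m i / M * (m j / M) * (w i * (starRingEnd ℂ) (w j)).re =
          (∑ i, ∑ j, m i * m j * (w i * (starRingEnd ℂ) (w j)).re) / M ^ 2 := by
        rw [Finset.sum_div]
        refine Finset.sum_congr rfl fun i _ => ?_
        rw [Finset.sum_div]
        refine Finset.sum_congr rfl fun j _ => ?_
        field_simp
      rw [hA2, this, hlamk]
      field_simp
    rw [f1, f2]
  have hh1 : ∀ x, -1 ≤ h x := by
    intro x
    have h1 := hZ x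
    rw [hh] at h1
    have h2 := nonneg_of_mul_nonneg_right h1 hM
    linarith
  have hf : ∀ x, ft lam (Z x) = (1 + h x) / (1 + h x + k) := by
    intro x
    unfold ft
    rw [hh x, hlamk]
    have : 0 < 1 + h x + k := by linarith [hh1 x]
    have e : M * (1 + h x) + k * M = M * (1 + h x + k) := by ring
    rw [e, mul_div_mul_left _ _ hM.ne']
  have hfi : Integrable (fun x => ft lam (Z x)) μ := by
    refine Integrable.of_bound (C := 1) ?_ (Filter.Eventually.of_forall fun x => ?_)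
    · have h1 : AEMeasurable Z μ := hZm.aemeasurable
      have h2 : AEMeasurable (fun x => ft lam (Z x)) μ := by
        unfold ft
        exact h1.div (h1.add_const lam)
      exact h2.aestronglyMeasurable
    · have h1 := hZ x
      rw [Real.norm_eq_abs]
      unfold ft
      rw [abs_of_nonneg (by positivity), div_le_one (by positivity)]
      linarith
  have j1 : Integrable (fun x => 1 / (1 + k) + k / (1 + k) ^ 2 * h x -
      k / (1 + k) ^ 3 * h x ^ 2) μ :=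
    ((integrable_const _).add (i1.const_mul _)).sub (i2.const_mul _)
  have key : |(∫ x, ft lam (Z x) ∂μ) - (1 / (1 + k) + k / (1 + k) ^ 2 * (∫ x, h x ∂μ) -
      k / (1 + k) ^ 3 * (∫ x, h x ^ 2 ∂μ))| ≤ ε / (1 + k) := by
    have h1 : (1 / (1 + k) + k / (1 + k) ^ 2 * (∫ x, h x ∂μ) -
        k / (1 + k) ^ 3 * (∫ x, h x ^ 2 ∂μ)) = ∫ x, (1 / (1 + k) + k / (1 + k) ^ 2 * h x -
        k / (1 + k) ^ 3 * h x ^ 2) ∂μ := by
      exact (int3 μ _ _ _ i1 i2).symm
    rw [h1, ← integral_sub hfi j1]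
    refine (abs_integral_le_integral_abs).trans ?_
    calc ∫ x, |ft lam (Z x) - (1 / (1 + k) + k / (1 + k) ^ 2 * h x -
          k / (1 + k) ^ 3 * h x ^ 2)| ∂μ ≤ ∫ x, |h x| ^ 3 / (1 + k) ∂μ := by
          refine integral_mono (hfi.sub j1).abs (i3.div_const _) fun x => ?_
          simp only [hf x]
          exact ft_exp hk0 (hh1 x)
      _ ≤ ε / (1 + k) := by
          rw [integral_div]
          gcongr
  rw [hapx, hMK]
  have q1 : |k / (1 + k) ^ 2 * ((∫ x, h x ∂μ) - A1)| ≤ 1 / (1 + k) * ε := by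
    rw [abs_mul, abs_of_pos (by positivity : 0 < k / (1 + k) ^ 2)]
    refine mul_le_mul ?_ e1 (abs_nonneg _) (by positivity)
    rw [div_le_div_iff₀ (by positivity) hK]
    nlinarith
  have q2 : |k / (1 + k) ^ 3 * ((∫ x, h x ^ 2 ∂μ) - A2)| ≤ 1 / (1 + k) * ε := by
    rw [abs_mul, abs_of_pos (by positivity : 0 < k / (1 + k) ^ 3)]
    refine mul_le_mul ?_ e2 (abs_nonneg _) (by positivity)
    rw [div_le_div_iff₀ (by positivity) hK]
    have : (1 + k) ^ 3 = (1 + k) * (1 + 2 * k + k ^ 2) := by ring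
    rw [this]
    nlinarith [mul_pos hK hk0, mul_pos hK (mul_pos hk0 hk0)]
  have e : (∫ x, ft lam (Z x) ∂μ) - (1 / (1 + k) + k / (1 + k) ^ 2 * A1 - k / (1 + k) ^ 3 * A2) =
      ((∫ x, ft lam (Z x) ∂μ) - (1 / (1 + k) + k / (1 + k) ^ 2 * (∫ x, h x ∂μ) -
      k / (1 + k) ^ 3 * (∫ x, h x ^ 2 ∂μ))) + k / (1 + k) ^ 2 * ((∫ x, h x ∂μ) - A1) -
      k / (1 + k) ^ 3 * ((∫ x, h x ^ 2 ∂μ) - A2) := by ring
  rw [e]
  have s1 := abs_sub (((∫ x, ft lam (Z x) ∂μ) - (1 / (1 + k) + k / (1 + k) ^ 2 * (∫ x, h x ∂μ) -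
      k / (1 + k) ^ 3 * (∫ x, h x ^ 2 ∂μ))) + k / (1 + k) ^ 2 * ((∫ x, h x ∂μ) - A1))
      (k / (1 + k) ^ 3 * ((∫ x, h x ^ 2 ∂μ) - A2))
  have s2 := abs_add_le ((∫ x, ft lam (Z x) ∂μ) - (1 / (1 + k) + k / (1 + k) ^ 2 * (∫ x, h x ∂μ) -
      k / (1 + k) ^ 3 * (∫ x, h x ^ 2 ∂μ))) (k / (1 + k) ^ 2 * ((∫ x, h x ∂μ) - A1))
  have s3 : ε / (1 + k) = 1 / (1 + k) * ε := by ring
  rw [s3] at key
  linarith

/-- the case of vanishing weights -/
theorem zero_case {ι : Type} [Fintype ι] (γ : ℝ) (m : ι → ℝ) (w : ι → ℂ) (lam : ℝ)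
    (hm : ∀ i, m i = 0) : apx γ m w lam = 0 := by
  unfold apx
  simp [hm]

theorem good_r {γ : ℝ} {p0 l : ℕ} (hG : Good γ p0) (hl : p0 < l) :
    0 < Real.exp 8 / Real.sqrt l ∧ Real.exp 8 / Real.sqrt l ≤ 1 / 2 ∧
    Real.exp 8 / Real.sqrt l ≤ Real.exp 8 / Real.sqrt p0 ∧
    (Real.exp 8 / Real.sqrt l) ^ 3 = Real.exp 24 * (l : ℝ) ^ (-(3 / 2) : ℝ) := by
  obtain ⟨hp0, -⟩ := hG
  have he16 : (1 : ℝ) ≤ Real.exp 16 := Real.one_le_exp (by norm_num)
  have hp1 : (0 : ℝ) < p0 := by linarith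
  have hlp : (p0 : ℝ) < l := by exact_mod_cast hl
  have hl0 : (0 : ℝ) < l := by linarith
  have hr0 : Real.exp 8 / Real.sqrt p0 ≤ 1 / 2 := by
    rw [div_le_iff₀ (Real.sqrt_pos.mpr hp1)]
    have : Real.sqrt (4 * Real.exp 16) ≤ Real.sqrt p0 := Real.sqrt_le_sqrt hp0
    have h2 : 4 * Real.exp 16 = (2 * Real.exp 8) ^ 2 := by
      rw [mul_pow, ← Real.exp_nat_mul]
      norm_num
    rw [h2, Real.sqrt_sq (by positivity)] at this
    linarith
  have hrr0 : Real.exp 8 / Real.sqrt l ≤ Real.exp 8 / Real.sqrt p0 := by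
    have h3 : Real.sqrt p0 ≤ Real.sqrt l := Real.sqrt_le_sqrt hlp.le
    have h4 : 0 < Real.sqrt p0 := Real.sqrt_pos.mpr hp1
    gcongr
  refine ⟨div_pos (Real.exp_pos _) (Real.sqrt_pos.mpr hl0), hrr0.trans hr0, hrr0, ?_⟩
  rw [div_pow, ← Real.exp_nat_mul, div_eq_mul_inv]
  congr 1
  · norm_num
  · rw [Real.sqrt_eq_rpow, ← Real.rpow_natCast, ← Real.rpow_mul hl0.le, ← Real.rpow_neg hl0.le]
    norm_num

end AuxLN

end PN
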