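import Pool.Agent.H24.PN.ORT
import Pool.Agent.H8.PN.CVC
import Pool.Agent.H88.PN.Util

/-! Part 2 of project PM (MP_d91868_an): first three parts of module LPB (helper24). -/

set_option autoImplicit false

namespace PN
open MeasureTheory Complex ProbabilityTheory PM

/-- one row of the increment map -/
noncomputable def incRow (K B : ℕ) (i : Fin B × Fin (2 ^ K)) (r : Fin K)
    (k : Fin B × Fin K × Fin (2 ^ K + 1)) : ℝ :=
  if k.1 = i.1 ∧ k.2.1 = r then h8g (K - r) i.2 k.2.2 else 0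

theorem sum_block {B K N : ℕ} (b : Fin B) (r : Fin K) (f : Fin B × Fin K × Fin N → ℝ) :
    ∑ k, (if k.1 = b ∧ k.2.1 = r then f k else 0) = ∑ n, f (b, r, n) := by
  rw [Fintype.sum_prod_type, Finset.sum_eq_single b]
  · rw [Fintype.sum_prod_type, Finset.sum_eq_single r]
    · simp
    · intro r' _ h
      refine Finset.sum_eq_zero fun n _ => ?_
      rw [if_neg]
      rintro ⟨_, h2⟩
      exact h h2
    · intro h
      exact absurd (Finset.mem_univ _) h
  · intro b' _ h
    refine Finset.sum_eq_zero fun n _ => ?_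
    rw [if_neg]
    rintro ⟨h1, _⟩
    exact h h1
  · intro h
    exact absurd (Finset.mem_univ _) h

theorem inv_sv_mul : 1 / sv * sv = 1 := by
  have : sv ≠ 0 := by
    unfold sv
    exact (Real.sqrt_pos.2 (Real.log_pos (by norm_num))).ne'
  field_simp

theorem inc_eq (K B : ℕ) (i : Fin B × Fin (2 ^ K)) (g : Fin B × Fin K × Fin (2 ^ K + 1) → ℝ)
    (r : Fin K) : inc K B i g r = ∑ k, incRow K B i r k * g k := by
  have h := sum_block i.1 r (fun k : Fin B × Fin K × Fin (2 ^ K + 1) =>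
    h8g (K - r) i.2 k.2.2 * g k)
  have h2 : ∑ k, incRow K B i r k * g k = ∑ k : Fin B × Fin K × Fin (2 ^ K + 1),
      (if k.1 = i.1 ∧ k.2.1 = r then h8g (K - r) i.2 k.2.2 * g k else 0) := by
    refine Finset.sum_congr rfl fun k _ => ?_
    unfold incRow
    split_ifs <;> simp
  rw [h2, h]
  unfold inc
  refine Finset.sum_congr rfl fun k _ => ?_
  rw [h8_mCn _ _ _ _ _ r.2, inv_sv_mul, one_mul]

theorem leaf_lt (K : ℕ) (c : Fin (2 ^ K)) (m : ℕ) : (c : ℕ) / 2 ^ m + 1 < 2 ^ K + 1 := by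
  have h1 : (c : ℕ) / 2 ^ m ≤ c := Nat.div_le_self _ _
  have h2 := c.2
  omega

theorem incRow_ip (K B : ℕ) (i i' : Fin B × Fin (2 ^ K)) (r r' : Fin K) :
    ∑ k, incRow K B i r k * incRow K B i' r' k =
      if i.1 = i'.1 ∧ r = r' then
        ∑ j ∈ Finset.range (2 ^ K + 1), h8g (K - r) i.2 j * h8g (K - r') i'.2 j else 0 := by
  by_cases h : i.1 = i'.1 ∧ r = r'
  · rw [if_pos h]
    have h1 := sum_block i.1 r (fun k : Fin B × Fin K × Fin (2 ^ K + 1) =>
      h8g (K - r) i.2 k.2.2 * h8g (K - r') i'.2 k.2.2)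
    rw [← Fin.sum_univ_eq_sum_range
      (fun j => h8g (K - r) i.2 j * h8g (K - r') i'.2 j) (2 ^ K + 1)]
    refine Eq.trans ?_ h1
    refine Finset.sum_congr rfl fun k _ => ?_
    unfold incRow
    rw [← h.1, ← h.2]
    split_ifs <;> simp
  · rw [if_neg h]
    refine Finset.sum_eq_zero fun k _ => ?_
    unfold incRow
    by_cases h1 : k.1 = i.1 ∧ k.2.1 = r
    · rw [if_neg (c := k.1 = i'.1 ∧ k.2.1 = r'), mul_zero]
      rintro ⟨h2, h3⟩
      exact h ⟨h1.1.symm.trans h2, h1.2.symm.trans h3⟩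
    · rw [if_neg h1, zero_mul]

theorem LPB_one (K B : ℕ) (i : Fin B × Fin (2 ^ K)) :
    MeasurePreserving (inc K B i) (Ga _) (Ga (Fin K)) := by
  have h := ORT (Fin B × Fin K × Fin (2 ^ K + 1)) (Fin K) (incRow K B i) (by
    intro r r'
    rw [incRow_ip]
    by_cases h : r = r'
    · subst h
      rw [if_pos ⟨rfl, rfl⟩, if_pos rfl]
      exact h8g_sq (K - r) i.2 _ (leaf_lt K i.2 _)
    · rw [if_neg (fun h2 => h h2.2), if_neg h])
  have h2 : inc K B i = fun g r => ∑ k, incRow K B i r k * g k := by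
    funext g r
    exact inc_eq K B i g r
  rw [h2]
  exact h

theorem LPB_two (K B : ℕ) (be : ℝ) (i : Fin B × Fin (2 ^ K))
    (g : Fin B × Fin K × Fin (2 ^ K + 1) → ℝ) :
    ∑ k, mC be K B i k * g k = be * (sv * ps (inc K B i g) K) := by
  unfold ps
  rw [Finset.mul_sum, Finset.mul_sum, Fintype.sum_prod_type, Finset.sum_eq_single i.1]
  · rw [Fintype.sum_prod_type]
    refine Finset.sum_congr rfl fun r _ => ?_
    rw [if_pos r.2]
    unfold inc
    rw [Finset.mul_sum, Finset.mul_sum]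
    refine Finset.sum_congr rfl fun n _ => ?_
    unfold mC
    simp only
    rw [if_pos trivial, h8_mCn _ _ _ _ _ r.2, h8_mCn _ _ _ _ _ r.2]
    have := inv_sv_mul
    linear_combination (-(be * sv * h8g (K - r) i.2 n * g (i.1, r, n))) * this
  · intro b _ h
    refine Finset.sum_eq_zero fun k _ => ?_
    unfold mC
    simp only
    rw [if_neg h, zero_mul]
  · intro h
    exact absurd (Finset.mem_univ _) h

theorem measurableSet_Ek (K : ℕ) (x : ℝ) : MeasurableSet (Ek K x) := by
  have h : Ek K x = (⋂ j : ℕ, {g : Fin K → ℝ | 1 ≤ j → j ≤ K →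
      sv * ps g j ≤ Real.sqrt 2 * vv * j + x + 2 - (j : ℝ) / K * psi K K}) ∩
      ({g | Real.sqrt 2 * vv * K + x - psi K K ≤ sv * ps g K} ∩
      {g | sv * ps g K ≤ Real.sqrt 2 * vv * K + x - psi K K + 1}) := by
    ext g
    simp only [Ek, Set.mem_ofPred_eq, Set.mem_inter_iff, Set.mem_iInter]
  rw [h]
  refine MeasurableSet.inter (MeasurableSet.iInter fun j => ?_) (MeasurableSet.inter ?_ ?_)
  · by_cases h1 : 1 ≤ j
    · by_cases h2 : j ≤ K
      · simp only [h1, h2, true_imp_iff]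
        exact measurableSet_le ((measurable_ps j).const_mul sv) measurable_const
      · simp only [h2, false_imp_iff, imp_true_iff, Set.ofPred_true, MeasurableSet.univ]
    · simp only [h1, false_imp_iff, Set.ofPred_true, MeasurableSet.univ]
  · exact measurableSet_le measurable_const ((measurable_ps K).const_mul sv)
  · exact measurableSet_le ((measurable_ps K).const_mul sv) measurable_const

/-- increments on two different blocks, jointly -/
theorem inc_joint (K B : ℕ) (i i' : Fin B × Fin (2 ^ K)) (h : i.1 ≠ i'.1) :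
    MeasurePreserving (fun (g : Fin B × Fin K × Fin (2 ^ K + 1) → ℝ) (s : Fin K ⊕ Fin K) =>
      Sum.elim (inc K B i g) (inc K B i' g) s) (Ga _) (Ga (Fin K ⊕ Fin K)) := by
  have h1 := ORT (Fin B × Fin K × Fin (2 ^ K + 1)) (Fin K ⊕ Fin K)
    (fun s k => Sum.elim (fun r => incRow K B i r k) (fun r => incRow K B i' r k) s) (by
    intro s s'
    rcases s with r | r <;> rcases s' with r' | r'
    · simp only [Sum.elim_inl, Sum.inl.injEq]
      rw [incRow_ip]
      by_cases h2 : r = r'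
      · subst h2
        rw [if_pos ⟨rfl, rfl⟩, if_pos rfl]
        exact h8g_sq (K - r) i.2 _ (leaf_lt K i.2 _)
      · rw [if_neg (fun h3 => h2 h3.2), if_neg h2]
    · simp only [Sum.elim_inl, Sum.elim_inr]
      rw [incRow_ip, if_neg (fun h3 => h h3.1)]
      simp
    · simp only [Sum.elim_inl, Sum.elim_inr]
      rw [incRow_ip, if_neg (fun h3 => h h3.1.symm)]
      simp
    · simp only [Sum.elim_inr, Sum.inr.injEq]
      rw [incRow_ip]
      by_cases h2 : r = r'
      · subst h2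
        rw [if_pos ⟨rfl, rfl⟩, if_pos rfl]
        exact h8g_sq (K - r) i'.2 _ (leaf_lt K i'.2 _)
      · rw [if_neg (fun h3 => h2 h3.2), if_neg h2])
  have h2 : (fun (g : Fin B × Fin K × Fin (2 ^ K + 1) → ℝ) (s : Fin K ⊕ Fin K) =>
      Sum.elim (inc K B i g) (inc K B i' g) s) = fun g s => ∑ k,
      (Sum.elim (fun r => incRow K B i r k) (fun r => incRow K B i' r k) s) * g k := by
    funext g s
    rcases s with r | r
    · simp only [Sum.elim_inl]
      exact inc_eq K B i g r
    · simp only [Sum.elim_inr]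
      exact inc_eq K B i' g r
  rw [h2]
  exact h1

theorem LPB_three (K B : ℕ) (i i' : Fin B × Fin (2 ^ K)) (S S' : Set (Fin K → ℝ))
    (hS : MeasurableSet S) (hS' : MeasurableSet S') (h : i.1 ≠ i'.1) :
    (Ga _).real (inc K B i ⁻¹' S ∩ inc K B i' ⁻¹' S') =
      (Ga (Fin K)).real S * (Ga (Fin K)).real S' := by
  have hj := inc_joint K B i i' h
  have hs : MeasurePreserving (MeasurableEquiv.sumPiEquivProdPi (fun _ : Fin K ⊕ Fin K => ℝ))
      (Ga (Fin K ⊕ Fin K)) ((Ga (Fin K)).prod (Ga (Fin K))) := by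
    unfold Ga
    exact measurePreserving_sumPiEquivProdPi (fun _ : Fin K ⊕ Fin K => gaussianReal 0 1)
  have hc := hs.comp hj
  have h1 : inc K B i ⁻¹' S ∩ inc K B i' ⁻¹' S' =
      ((MeasurableEquiv.sumPiEquivProdPi (fun _ : Fin K ⊕ Fin K => ℝ)) ∘
      (fun (g : Fin B × Fin K × Fin (2 ^ K + 1) → ℝ) (s : Fin K ⊕ Fin K) =>
      Sum.elim (inc K B i g) (inc K B i' g) s)) ⁻¹' (S ×ˢ S') := by
    ext g
    simp [MeasurableEquiv.sumPiEquivProdPi, Equiv.sumPiEquivProdPi]
  rw [h1, hc.measureReal_preimage (hS.prod hS').nullMeasurableSet, measureReal_prod_prod]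

end PN
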