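import Pool.Agent.H33.PN.Tools

/-! Project PM part 2, module LSM: the pair functional summed over the branching level. -/

set_option autoImplicit false

namespace PN
open MeasureTheory Complex ProbabilityTheory PM

namespace LSMaux

lemma vv_pos : 0 < vv := Real.log_pos (by norm_num)

lemma sv_pos : 0 < sv := Real.sqrt_pos.2 (Real.log_pos (by norm_num))

lemma sv_sq : sv * sv = vv := Real.mul_self_sqrt (Real.log_pos (by norm_num)).le

lemma sv_le : sv ≤ 1 := by
  unfold sv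
  rw [Real.sqrt_le_left (by norm_num)]
  have := Real.log_two_lt_d9
  linarith

lemma one_le_sv : 1 ≤ Real.sqrt 2 * sv := by
  unfold sv
  rw [← Real.sqrt_mul (by norm_num), Real.one_le_sqrt]
  have := Real.log_two_gt_d9
  linarith

lemma half_le_sv : 1 / 2 ≤ sv := by
  have h1 := one_le_sv
  have h2 : Real.sqrt 2 ≤ 2 := by
    rw [Real.sqrt_le_left (by norm_num)]
    norm_num
  have h3 := sv_pos
  nlinarith

lemma psiKK (K : ℕ) : Real.sqrt 2 * psi K K = 3 / 2 * Real.log ((K : ℝ) + 1) := by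
  unfold psi c0
  have h : Real.sqrt 2 ≠ 0 := (Real.sqrt_pos.2 (by norm_num)).ne'
  rw [show (K : ℝ) - K + 1 = 1 by ring, div_one]
  field_simp

lemma psiKK_nonneg (K : ℕ) : 0 ≤ psi K K := by
  have h : 0 < Real.sqrt 2 := Real.sqrt_pos.2 (by norm_num)
  have h1 := psiKK K
  have h2 : 0 ≤ Real.log ((K : ℝ) + 1) := Real.log_nonneg (by linarith [Nat.cast_nonneg (α := ℝ) K])
  by_contra hcon
  nlinarith

/-- the density of a Gaussian is bounded -/
lemma gauss_le (n : ℕ) (hn : 1 ≤ n) (f : ℝ → ENNReal) :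
    ∫⁻ s, f s ∂(gaussianReal 0 n) ≤ ENNReal.ofReal (1 / Real.sqrt n) * ∫⁻ s, f s := by
  have hn0 : (0 : ℝ) < n := by exact_mod_cast hn
  have hne : (n : NNReal) ≠ 0 := by
    have : n ≠ 0 := by omega
    exact_mod_cast this
  rw [gaussianReal_of_var_ne_zero _ hne, ← lintegral_const_mul' _ _ ENNReal.ofReal_ne_top]
  refine (lintegral_withDensity_le_lintegral_mul _ (measurable_gaussianPDF 0 _) f).trans ?_
  refine lintegral_mono fun s => ?_
  rw [Pi.mul_apply]
  refine mul_le_mul_left ?_ _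
  unfold gaussianPDF gaussianPDFReal
  refine ENNReal.ofReal_le_ofReal ?_
  have h1 : Real.exp (-(s - 0) ^ 2 / (2 * ((n : NNReal) : ℝ))) ≤ 1 := by
    rw [Real.exp_le_one_iff]
    apply div_nonpos_of_nonpos_of_nonneg
    · nlinarith
    · positivity
  have h2 : (Real.sqrt (2 * Real.pi * ((n : NNReal) : ℝ)))⁻¹ ≤ 1 / Real.sqrt n := by
    rw [one_div]
    apply inv_anti₀ (Real.sqrt_pos.2 hn0)
    apply Real.sqrt_le_sqrt
    have := Real.pi_gt_three
    rw [NNReal.coe_natCast]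
    nlinarith
  calc (Real.sqrt (2 * Real.pi * ((n : NNReal) : ℝ)))⁻¹ *
        Real.exp (-(s - 0) ^ 2 / (2 * ((n : NNReal) : ℝ)))
      ≤ (Real.sqrt (2 * Real.pi * ((n : NNReal) : ℝ)))⁻¹ * 1 := by gcongr
    _ ≤ 1 / Real.sqrt n := by rw [mul_one]; exact h2

/-- the drift vector -/
lemma shift_ps {m : ℕ} (g : Fin m → ℝ) {j : ℕ} (hj : j ≤ m) :
    sv * ps (g + fun _ => Real.sqrt 2 * sv) j = sv * ps g j + Real.sqrt 2 * vv * j := by
  have := ps_add g (fun _ => Real.sqrt 2 * sv) j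
  rw [ps_const _ hj] at this
  rw [show (g + fun _ => Real.sqrt 2 * sv) = fun i => g i + Real.sqrt 2 * sv from rfl, this,
    ← sv_sq]
  ring

/-- Cameron-Martin for the drift -/
lemma cms (hCMS : S_CMS) (m : ℕ) (h : (Fin m → ℝ) → ENNReal) (hh : Measurable h) :
    ∫⁻ g, h g ∂Ga (Fin m) = ∫⁻ g, h (g + fun _ => Real.sqrt 2 * sv) *
      ENNReal.ofReal (Real.exp (-(Real.sqrt 2 * (sv * ps g m)) - m * vv)) ∂Ga (Fin m) := by
  rw [hCMS (Fin m) (fun _ => Real.sqrt 2 * sv) h hh]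
  refine lintegral_congr fun g => ?_
  congr 3
  have e1 : ∑ k : Fin m, Real.sqrt 2 * sv * g k = Real.sqrt 2 * (sv * ps g m) := by
    rw [ps_total g le_rfl, ← Finset.mul_sum]
    ring
  have e2 : (∑ _k : Fin m, (Real.sqrt 2 * sv) ^ 2) / 2 = m * vv := by
    rw [Finset.sum_const, Finset.card_univ, Fintype.card_fin, nsmul_eq_mul, mul_pow,
      Real.sq_sqrt (by norm_num), sq, sv_sq]
    ring
  rw [e1, e2]

lemma meas_stay (n m : ℕ) (b : ℕ → ℝ) :
    MeasurableSet {g : Fin n → ℝ | ∀ j : ℕ, 1 ≤ j → j ≤ m → sv * ps g j ≤ b j} := by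
  have h1 : {g : Fin n → ℝ | ∀ j : ℕ, 1 ≤ j → j ≤ m → sv * ps g j ≤ b j} =
      ⋂ j : ℕ, ⋂ _ : 1 ≤ j, ⋂ _ : j ≤ m, {g | sv * ps g j ≤ b j} := by
    ext g
    simp only [Set.mem_ofPred_eq, Set.mem_iInter]
  rw [h1]
  refine MeasurableSet.iInter fun j => MeasurableSet.iInter fun _ => MeasurableSet.iInter fun _ => ?_
  exact measurableSet_le ((measurable_ps j).const_mul _) measurable_const

/-- the continuation event after removal of the drift -/
def WA (m K : ℕ) (a ψ : ℝ) : Set (Fin m → ℝ) :=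
  {g | (∀ j : ℕ, 1 ≤ j → j ≤ m → sv * ps g j ≤ a - (j : ℝ) / K * ψ) ∧
    a - 2 - (m : ℝ) / K * ψ ≤ sv * ps g m ∧ sv * ps g m ≤ a - 1 - (m : ℝ) / K * ψ}

lemma meas_WA (m K : ℕ) (a ψ : ℝ) : MeasurableSet (WA m K a ψ) := by
  refine (meas_stay m m (fun j => a - (j : ℝ) / K * ψ)).inter (MeasurableSet.inter ?_ ?_)
  · exact measurableSet_le measurable_const ((measurable_ps m).const_mul _)
  · exact measurableSet_le ((measurable_ps m).const_mul _) measurable_const

lemma winA (hBRG : S_BRG) : ∃ C : ℝ, 0 < C ∧ ∀ (m K : ℕ) (a ψ : ℝ), 1 ≤ m → 0 ≤ a →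
    Ga (Fin m) (WA m K a ψ) ≤ ENNReal.ofReal (C * (1 + a) / (m * Real.sqrt m)) := by
  obtain ⟨C, hC, hB⟩ := hBRG 0 le_rfl
  refine ⟨20 * C, by positivity, ?_⟩
  intro m K a ψ hm ha
  have hm0 : (0 : ℝ) < m := by exact_mod_cast hm
  have hs := sv_pos
  have hs2 := half_le_sv
  have hinv : 1 / sv ≤ 2 := by
    rw [div_le_iff₀ hs]
    linarith
  set W : Set ℝ := Set.Icc ((a - 2 - (m : ℝ) / K * ψ) / sv) ((a - 1 - (m : ℝ) / K * ψ) / sv)
    with hW
  have hWm : MeasurableSet W := measurableSet_Icc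
  have h1 := hB m (a / sv) (fun j => (j : ℝ) / K * ψ / sv) hm (by positivity) (by
    intro j hj1 hj2
    rw [zero_mul, sub_zero]
    apply le_of_eq
    field_simp) (W.indicator (fun _ => 1)) (measurable_const.indicator hWm)
  have h2 : Ga (Fin m) (WA m K a ψ) ≤ ∫⁻ g : Fin m → ℝ,
      Set.indicator {g : Fin m → ℝ | ∀ j : ℕ, 1 ≤ j → j ≤ m →
        ps g j ≤ a / sv - (fun j : ℕ => (j : ℝ) / K * ψ / sv) j}
      (fun g => W.indicator (fun _ => (1 : ENNReal)) (ps g m)) g ∂Ga (Fin m) := by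
    have e : Ga (Fin m) (WA m K a ψ) = ∫⁻ g, (WA m K a ψ).indicator (fun _ => 1) g
        ∂Ga (Fin m) := by
      rw [lintegral_indicator_const (meas_WA m K a ψ), one_mul]
    rw [e]
    refine lintegral_mono fun g => ?_
    by_cases hg : g ∈ WA m K a ψ
    · obtain ⟨g1, g2, g3⟩ := hg
      rw [Set.indicator_of_mem (show g ∈ WA m K a ψ from ⟨g1, g2, g3⟩), Set.indicator_of_mem,
        Set.indicator_of_mem]
      · refine ⟨?_, ?_⟩
        · rw [div_le_iff₀ hs]
          linarith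
        · rw [le_div_iff₀ hs]
          linarith
      · intro j hj1 hj2
        have := g1 j hj1 hj2
        rw [← sub_div, le_div_iff₀ hs]
        linarith
    · rw [Set.indicator_of_notMem hg]
      exact zero_le
  refine h2.trans (h1.trans ?_)
  have h3 : ∀ s : ℝ, ENNReal.ofReal (C * (1 + a / sv) * (1 + (a / sv - (m : ℝ) / K * ψ / sv - s)) /
      m) * W.indicator (fun _ => (1 : ENNReal)) s ≤
      ENNReal.ofReal (C * (2 * (1 + a)) * 5 / m) * W.indicator (fun _ => (1 : ENNReal)) s := by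
    intro s
    by_cases hsW : s ∈ W
    · have h0 : a / sv ≤ 2 * a := by
        rw [div_le_iff₀ hs]
        nlinarith
      have h4 := hsW.1
      have h4' := hsW.2
      rw [div_le_iff₀ hs] at h4
      rw [le_div_iff₀ hs] at h4'
      have h5 : a / sv - (m : ℝ) / K * ψ / sv - s ≤ 2 / sv := by
        rw [← sub_div, sub_le_iff_le_add, ← sub_le_iff_le_add', ← sub_div, div_le_iff₀ hs]
        linarith
      have h5' : 0 ≤ a / sv - (m : ℝ) / K * ψ / sv - s := by
        rw [← sub_div, sub_nonneg, le_div_iff₀ hs]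
        linarith
      have h6 : 2 / sv ≤ 4 := by
        rw [div_le_iff₀ hs]
        linarith
      gcongr
      · linarith
      · linarith
    · rw [Set.indicator_of_notMem hsW, mul_zero, mul_zero]
  calc ∫⁻ s in Set.Iic (a / sv - (m : ℝ) / K * ψ / sv), ENNReal.ofReal (C * (1 + a / sv) *
        (1 + (a / sv - (m : ℝ) / K * ψ / sv - s)) / m) * W.indicator (fun _ => (1 : ENNReal)) s
        ∂gaussianReal 0 m
      ≤ ∫⁻ s, ENNReal.ofReal (C * (1 + a / sv) *
        (1 + (a / sv - (m : ℝ) / K * ψ / sv - s)) / m) * W.indicator (fun _ => (1 : ENNReal)) s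
        ∂gaussianReal 0 m := setLIntegral_le_lintegral _ _
    _ ≤ ∫⁻ s, ENNReal.ofReal (C * (2 * (1 + a)) * 5 / m) * W.indicator (fun _ => (1 : ENNReal)) s
        ∂gaussianReal 0 m := lintegral_mono h3
    _ = ENNReal.ofReal (C * (2 * (1 + a)) * 5 / m) *
        ∫⁻ s, W.indicator (fun _ => (1 : ENNReal)) s ∂gaussianReal 0 m :=
        lintegral_const_mul' _ _ ENNReal.ofReal_ne_top
    _ ≤ ENNReal.ofReal (C * (2 * (1 + a)) * 5 / m) * (ENNReal.ofReal (1 / Real.sqrt m) *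
        ∫⁻ s, W.indicator (fun _ => (1 : ENNReal)) s) := by
        gcongr
        exact gauss_le m hm _
    _ = ENNReal.ofReal (C * (2 * (1 + a)) * 5 / m) * (ENNReal.ofReal (1 / Real.sqrt m) *
        ENNReal.ofReal (1 / sv)) := by
        rw [lintegral_indicator_const hWm, one_mul, hW, Real.volume_Icc]
        congr 3
        rw [← sub_div]
        congr 1
        ring
    _ = ENNReal.ofReal (C * (2 * (1 + a)) * 5 / m * (1 / Real.sqrt m * (1 / sv))) := by
        rw [← ENNReal.ofReal_mul (by positivity), ← ENNReal.ofReal_mul (by positivity)]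
    _ ≤ ENNReal.ofReal (20 * C * (1 + a) / (m * Real.sqrt m)) := by
        refine ENNReal.ofReal_le_ofReal ?_
        have hsm : 0 < Real.sqrt m := Real.sqrt_pos.2 hm0
        calc C * (2 * (1 + a)) * 5 / m * (1 / Real.sqrt m * (1 / sv))
            ≤ C * (2 * (1 + a)) * 5 / m * (1 / Real.sqrt m * 2) := by gcongr
          _ = 20 * C * (1 + a) / (m * Real.sqrt m) := by
            field_simp
            ring

/-- the bound for the continuation probability -/
noncomputable def bq (K m : ℕ) (a : ℝ) : ℝ :=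
  (1 + a) * Real.exp (-(Real.sqrt 2 * a) + 3 / 2 * ((m : ℝ) / K) * Real.log ((K : ℝ) + 1) -
    m * vv) / (((m : ℝ) + 1) * Real.sqrt ((m : ℝ) + 1))

/-- the event of the definition of qk -/
def QE (m r K : ℕ) (x s : ℝ) : Set (Fin m → ℝ) :=
  {g | (∀ j : ℕ, 1 ≤ j → j ≤ m →
      s + sv * ps g j ≤ Real.sqrt 2 * vv * (r + j : ℝ) + x + 2 - ((r : ℝ) + j) / K * psi K K) ∧
    Real.sqrt 2 * vv * K + x - psi K K ≤ s + sv * ps g m ∧
    s + sv * ps g m ≤ Real.sqrt 2 * vv * K + x - psi K K + 1}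

lemma meas_QE (m r K : ℕ) (x s : ℝ) : MeasurableSet (QE m r K x s) := by
  have h : QE m r K x s = {g : Fin m → ℝ | ∀ j : ℕ, 1 ≤ j → j ≤ m → sv * ps g j ≤
      (fun j : ℕ => Real.sqrt 2 * vv * (r + j : ℝ) + x + 2 - ((r : ℝ) + j) / K * psi K K - s) j} ∩
      ({g | Real.sqrt 2 * vv * K + x - psi K K ≤ s + sv * ps g m} ∩
        {g | s + sv * ps g m ≤ Real.sqrt 2 * vv * K + x - psi K K + 1}) := by
    ext g
    simp only [QE, Set.mem_ofPred_eq, Set.mem_inter_iff]
    refine and_congr (forall_congr' fun j => forall_congr' fun _ => forall_congr' fun _ => ?_)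
      Iff.rfl
    constructor <;> intro h <;> linarith
  rw [h]
  refine (meas_stay m m _).inter (MeasurableSet.inter ?_ ?_)
  · exact measurableSet_le measurable_const (((measurable_ps m).const_mul _).const_add _)
  · exact measurableSet_le (((measurable_ps m).const_mul _).const_add _) measurable_const

lemma QE_iff (m r K : ℕ) (hK : 1 ≤ K) (hKr : (K : ℝ) = r + m) (x a : ℝ) (g : Fin m → ℝ) :
    (g + fun _ => Real.sqrt 2 * sv) ∈ QE m r K x (Real.sqrt 2 * vv * r + x + 2 -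
      (r : ℝ) / K * psi K K - a) ↔ g ∈ WA m K a (psi K K) := by
  have hK0 : (0 : ℝ) < K := by exact_mod_cast hK
  have hfr : (r : ℝ) / K + m / K = 1 := by
    rw [← add_div, ← hKr, div_self hK0.ne']
  have hend : (r : ℝ) / K * psi K K + m / K * psi K K = psi K K := by
    rw [← add_mul, hfr, one_mul]
  simp only [QE, WA, Set.mem_ofPred_eq]
  rw [shift_ps g le_rfl]
  have e1 : Real.sqrt 2 * vv * K = Real.sqrt 2 * vv * r + Real.sqrt 2 * vv * m := by
    rw [hKr]
    ring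
  rw [e1]
  refine and_congr (forall_congr' fun j => forall_congr' fun _ => forall_congr' fun hj => ?_)
    (and_congr ?_ ?_)
  · rw [shift_ps g hj, add_div, add_mul, mul_add]
    constructor <;> intro h <;> linarith
  · constructor <;> intro h <;> linarith
  · constructor <;> intro h <;> linarith

lemma qk_le (hBRG : S_BRG) (hCMS : S_CMS) : ∃ C : ℝ, 0 < C ∧ ∀ (K r : ℕ) (x a : ℝ), 1 ≤ K →
    r ≤ K → 0 ≤ a → qk K r x (Real.sqrt 2 * vv * r + x + 2 - (r : ℝ) / K * psi K K - a) ≤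
      C * bq K (K - r) a := by
  obtain ⟨C, hC, hA⟩ := winA hBRG
  refine ⟨Real.exp 3 * (4 * C + 1), by positivity, ?_⟩
  intro K r x a hK hr ha
  have hK0 : (0 : ℝ) < K := by exact_mod_cast hK
  have hq : qk K r x (Real.sqrt 2 * vv * r + x + 2 - (r : ℝ) / K * psi K K - a) =
      (Ga (Fin (K - r))).real (QE (K - r) r K x (Real.sqrt 2 * vv * r + x + 2 -
        (r : ℝ) / K * psi K K - a)) := rfl
  rw [hq]
  have hm' : (K : ℝ) = r + (K - r : ℕ) := by
    rw [Nat.cast_sub hr]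
    ring
  generalize K - r = m at hm' ⊢
  have hsqrt2 : Real.sqrt 2 ≤ 3 / 2 := by
    rw [Real.sqrt_le_left (by norm_num)]
    norm_num
  have hsqrt0 : 0 < Real.sqrt 2 := Real.sqrt_pos.2 (by norm_num)
  rcases Nat.eq_zero_or_pos m with rfl | hm
  · have hrK : (r : ℝ) = K := by
      rw [hm']
      simp
    by_cases h12 : 1 ≤ a ∧ a ≤ 2
    · refine (measureReal_le_one).trans ?_
      unfold bq
      simp only [Nat.cast_zero, zero_div, mul_zero, zero_mul, add_zero, sub_zero, zero_add,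
        Real.sqrt_one, mul_one, div_one]
      calc (1 : ℝ) = Real.exp 3 * (1 * (1 * Real.exp (-3))) := by
            rw [one_mul, one_mul, ← Real.exp_add]
            norm_num
        _ ≤ Real.exp 3 * ((4 * C + 1) * ((1 + a) * Real.exp (-(Real.sqrt 2 * a)))) := by
            gcongr
            · linarith
            · linarith
            · nlinarith [h12.1, h12.2]
        _ = _ := by ring
    · have hempty : QE 0 r K x (Real.sqrt 2 * vv * r + x + 2 - (r : ℝ) / K * psi K K - a) = ∅ := by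
        rw [Set.eq_empty_iff_forall_notMem]
        rintro g ⟨-, g2, g3⟩
        apply h12
        rw [ps_zero, mul_zero, add_zero, hrK, div_self hK0.ne'] at g2 g3
        constructor <;> linarith
      rw [hempty]
      simp only [measureReal_empty]
      unfold bq
      positivity
  · have hm0 : (0 : ℝ) < m := by exact_mod_cast hm
    have h1 : Ga (Fin m) (QE m r K x (Real.sqrt 2 * vv * r + x + 2 - (r : ℝ) / K * psi K K - a)) ≤
        ENNReal.ofReal (Real.exp 3 * (4 * C + 1) * bq K m a) := by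
      have e : ∀ E : Set (Fin m → ℝ), MeasurableSet E → Ga (Fin m) E =
          ∫⁻ g, E.indicator (fun _ => 1) g ∂Ga (Fin m) := by
        intro E hE
        rw [lintegral_indicator_const hE, one_mul]
      rw [e _ (meas_QE _ _ _ _ _), cms hCMS m _ (measurable_const.indicator (meas_QE _ _ _ _ _))]
      have h2 : ∀ g : Fin m → ℝ, (QE m r K x (Real.sqrt 2 * vv * r + x + 2 -
          (r : ℝ) / K * psi K K - a)).indicator (fun _ => (1 : ENNReal))
            (g + fun _ => Real.sqrt 2 * sv) *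
          ENNReal.ofReal (Real.exp (-(Real.sqrt 2 * (sv * ps g m)) - m * vv)) ≤
          ENNReal.ofReal (Real.exp (3 - Real.sqrt 2 * a +
            3 / 2 * ((m : ℝ) / K) * Real.log ((K : ℝ) + 1) - m * vv)) *
            (WA m K a (psi K K)).indicator (fun _ => 1) g := by
        intro g
        by_cases hg : g ∈ WA m K a (psi K K)
        · rw [Set.indicator_of_mem ((QE_iff m r K hK hm' x a g).2 hg), Set.indicator_of_mem hg,
            one_mul, mul_one]
          refine ENNReal.ofReal_le_ofReal (Real.exp_le_exp.2 ?_)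
          have g2 := hg.2.1
          have h3 := psiKK K
          have h4 : Real.sqrt 2 * (a - 2 - (m : ℝ) / K * psi K K) ≤
              Real.sqrt 2 * (sv * ps g m) := by gcongr
          have h5 : Real.sqrt 2 * (a - 2 - (m : ℝ) / K * psi K K) = Real.sqrt 2 * a -
              2 * Real.sqrt 2 - (m : ℝ) / K * (Real.sqrt 2 * psi K K) := by ring
          rw [h5, h3] at h4
          linarith
        · rw [Set.indicator_of_notMem (fun h => hg ((QE_iff m r K hK hm' x a g).1 h)), zero_mul]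
          exact zero_le
      refine (lintegral_mono h2).trans ?_
      rw [lintegral_const_mul' _ _ ENNReal.ofReal_ne_top, ← e _ (meas_WA _ _ _ _)]
      refine (mul_le_mul_right (hA m K a (psi K K) hm ha) _).trans ?_
      rw [← ENNReal.ofReal_mul (Real.exp_pos _).le]
      refine ENNReal.ofReal_le_ofReal ?_
      have h6 : ((m : ℝ) + 1) * Real.sqrt ((m : ℝ) + 1) ≤ 4 * (m * Real.sqrt m) := by
        have h7 : (m : ℝ) + 1 ≤ 2 * m := by
          have : (1 : ℝ) ≤ m := by exact_mod_cast hm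
          linarith
        have h8 : Real.sqrt ((m : ℝ) + 1) ≤ 2 * Real.sqrt m := by
          rw [show (2 : ℝ) * Real.sqrt m = Real.sqrt (4 * m) by
            rw [Real.sqrt_mul (by norm_num), show (4 : ℝ) = 2 ^ 2 by norm_num,
              Real.sqrt_sq (by norm_num)]]
          apply Real.sqrt_le_sqrt
          linarith
        calc ((m : ℝ) + 1) * Real.sqrt ((m : ℝ) + 1) ≤ (2 * m) * (2 * Real.sqrt m) := by gcongr
          _ = 4 * (m * Real.sqrt m) := by ring
      have hsm : 0 < Real.sqrt m := Real.sqrt_pos.2 hm0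
      have h9 : 1 / (m * Real.sqrt m) ≤ 4 / (((m : ℝ) + 1) * Real.sqrt ((m : ℝ) + 1)) := by
        rw [div_le_div_iff₀ (by positivity) (by positivity)]
        linarith
      have h10 : Real.exp (3 - Real.sqrt 2 * a + 3 / 2 * ((m : ℝ) / K) * Real.log ((K : ℝ) + 1) -
          m * vv) = Real.exp 3 * Real.exp (-(Real.sqrt 2 * a) + 3 / 2 * ((m : ℝ) / K) *
            Real.log ((K : ℝ) + 1) - m * vv) := by
        rw [← Real.exp_add]
        congr 1
        ring
      rw [h10]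
      unfold bq
      set E : ℝ := Real.exp (-(Real.sqrt 2 * a) + 3 / 2 * ((m : ℝ) / K) *
            Real.log ((K : ℝ) + 1) - m * vv)
      have hE : 0 < E := Real.exp_pos _
      calc Real.exp 3 * E * (C * (1 + a) / (m * Real.sqrt m))
          = Real.exp 3 * E * C * (1 + a) * (1 / (m * Real.sqrt m)) := by ring
        _ ≤ Real.exp 3 * E * C * (1 + a) * (4 / (((m : ℝ) + 1) * Real.sqrt ((m : ℝ) + 1))) := by
            gcongr
        _ = Real.exp 3 * (4 * C) * ((1 + a) * E / (((m : ℝ) + 1) * Real.sqrt ((m : ℝ) + 1))) := by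
            ring
        _ ≤ Real.exp 3 * (4 * C + 1) *
            ((1 + a) * E / (((m : ℝ) + 1) * Real.sqrt ((m : ℝ) + 1))) := by
            gcongr
            linarith
    have h2 := ENNReal.toReal_mono ENNReal.ofReal_ne_top h1
    rwa [ENNReal.toReal_ofReal (by unfold bq; positivity)] at h2

lemma cube_le {u : ℝ} (hu : 0 ≤ u) : (1 + u) * (1 + sv * u) ^ 2 *
    Real.exp (-(Real.sqrt 2 * (sv * u))) ≤ 216 * Real.exp (1 / 2 * (-u)) := by
  have h1 : (1 + u) * (1 + sv * u) ^ 2 ≤ (1 + u) ^ 3 := by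
    have h2 : 1 + sv * u ≤ 1 + u := by nlinarith [sv_le, sv_pos]
    have h3 : 0 ≤ 1 + sv * u := by nlinarith [sv_le, sv_pos]
    calc (1 + u) * (1 + sv * u) ^ 2 ≤ (1 + u) * (1 + u) ^ 2 := by gcongr
      _ = (1 + u) ^ 3 := by ring
  have h2 : Real.exp (-(Real.sqrt 2 * (sv * u))) ≤ Real.exp (-u) := by
    refine Real.exp_le_exp.2 ?_
    nlinarith [one_le_sv]
  have h3 : (1 + u) ^ 3 ≤ 216 * Real.exp (1 / 2 * u) := by
    have h4 : 1 + u ≤ 6 * Real.exp (u / 6) := by
      have := Real.add_one_le_exp (u / 6)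
      linarith
    calc (1 + u) ^ 3 ≤ (6 * Real.exp (u / 6)) ^ 3 := by gcongr
      _ = 216 * Real.exp (1 / 2 * u) := by
        rw [mul_pow, ← Real.exp_nat_mul]
        congr 2
        · norm_num
        · push_cast
          ring
  calc (1 + u) * (1 + sv * u) ^ 2 * Real.exp (-(Real.sqrt 2 * (sv * u)))
      ≤ (216 * Real.exp (1 / 2 * u)) * Real.exp (-u) :=
        mul_le_mul (h1.trans h3) h2 (Real.exp_pos _).le (by positivity)
    _ = 216 * Real.exp (1 / 2 * (-u)) := by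
        rw [mul_assoc, ← Real.exp_add]
        congr 2
        ring

lemma int_le (b : ℝ) : ∫⁻ s in Set.Iic b, ENNReal.ofReal ((1 + (b - s)) *
    (1 + sv * (b - s)) ^ 2 * Real.exp (-(Real.sqrt 2 * (sv * (b - s))))) ≤
    ENNReal.ofReal 432 := by
  have h1 : ∫⁻ s in Set.Iic b, ENNReal.ofReal ((1 + (b - s)) *
      (1 + sv * (b - s)) ^ 2 * Real.exp (-(Real.sqrt 2 * (sv * (b - s))))) ≤
      ∫⁻ s in Set.Iic b, ENNReal.ofReal ((216 * Real.exp (-(1 / 2 * b))) *
        Real.exp (1 / 2 * s)) := by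
    refine setLIntegral_mono' measurableSet_Iic fun s hs => ?_
    refine ENNReal.ofReal_le_ofReal ?_
    have hu : 0 ≤ b - s := sub_nonneg.2 hs
    refine (cube_le hu).trans (le_of_eq ?_)
    rw [mul_assoc, ← Real.exp_add]
    congr 2
    ring
  refine h1.trans ?_
  rw [← ofReal_integral_eq_lintegral_ofReal]
  · refine ENNReal.ofReal_le_ofReal ?_
    rw [integral_const_mul, integral_exp_mul_Iic (by norm_num : (0 : ℝ) < 1 / 2)]
    rw [mul_div_assoc', mul_assoc, ← Real.exp_add]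
    rw [show -(1 / 2 * b) + 1 / 2 * b = 0 by ring, Real.exp_zero]
    norm_num
  · exact (integrableOn_exp_mul_Iic (by norm_num : (0 : ℝ) < 1 / 2) b).const_mul _
  · exact Filter.Eventually.of_forall fun s => by positivity

/-- the barrier event of the pair functional -/
def AR (r K : ℕ) (x : ℝ) : Set (Fin r → ℝ) :=
  {g | ∀ j : ℕ, 1 ≤ j → j ≤ r →
      sv * ps g j ≤ Real.sqrt 2 * vv * j + x + 2 - (j : ℝ) / K * psi K K}

lemma meas_AR (r K : ℕ) (x : ℝ) : MeasurableSet (AR r K x) :=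
  meas_stay r r (fun j => Real.sqrt 2 * vv * j + x + 2 - (j : ℝ) / K * psi K K)

lemma Qk_le (hBRG : S_BRG) (hCMS : S_CMS) : ∃ C : ℝ, 0 < C ∧ ∀ (K r : ℕ) (x : ℝ), 1 ≤ K →
    1 ≤ r → r ≤ K → 0 ≤ x → Qk K r x ≤ C * (1 + x) / (r * Real.sqrt r) *
      (Real.exp (3 * ((K - r : ℕ) / (K : ℝ)) * Real.log ((K : ℝ) + 1) +
        3 / 2 * ((r : ℝ) / K) * Real.log ((K : ℝ) + 1) - 2 * (K - r : ℕ) * vv -
        Real.sqrt 2 * x - r * vv) / (((K - r : ℕ) : ℝ) + 1) ^ 3) := by
  obtain ⟨C, hC, hq⟩ := qk_le hBRG hCMS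
  obtain ⟨C', hC', hB⟩ := hBRG 0 le_rfl
  refine ⟨2160 * C' * C ^ 2, by positivity, ?_⟩
  intro K r x hK hr1 hr hx
  have hK0 : (0 : ℝ) < K := by exact_mod_cast hK
  have hr0 : (0 : ℝ) < r := by exact_mod_cast hr1
  have hs := sv_pos
  have hs2 := half_le_sv
  obtain ⟨m, hm⟩ : ∃ m : ℕ, m = K - r := ⟨_, rfl⟩
  have hq' : ∀ g ∈ AR r K x, qk K r x (sv * ps g r) ≤ C * bq K m
      (Real.sqrt 2 * vv * r + x + 2 - (r : ℝ) / K * psi K K - sv * ps g r) := by
    intro g hg
    have h1 := hg r hr1 le_rfl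
    have h2 := hq K r x (Real.sqrt 2 * vv * r + x + 2 - (r : ℝ) / K * psi K K - sv * ps g r)
      hK hr (by linarith)
    rw [sub_sub_cancel] at h2
    rw [hm]
    exact h2
  rw [← hm]
  have hbqm : Measurable (fun a : ℝ => bq K m a) := by
    unfold bq
    fun_prop
  -- the majorant
  set H : (Fin r → ℝ) → ENNReal := (AR r K x).indicator (fun g => ENNReal.ofReal ((C * bq K m
      (Real.sqrt 2 * vv * r + x + 2 - (r : ℝ) / K * psi K K - sv * ps g r)) ^ 2)) with hH
  have hHm : Measurable H := by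
    refine Measurable.indicator ?_ (meas_AR r K x)
    refine ENNReal.measurable_ofReal.comp (Measurable.pow_const (Measurable.const_mul
      (hbqm.comp ?_) _) _)
    exact ((measurable_ps r).const_mul _).const_sub _
  have hQ1 : ENNReal.ofReal (Qk K r x) ≤ ∫⁻ g, H g ∂Ga (Fin r) := by
    have h1 : ENNReal.ofReal (Qk K r x) ≤ ‖Qk K r x‖ₑ := Real.ofReal_le_enorm _
    refine h1.trans ?_
    unfold Qk
    refine (enorm_integral_le_lintegral_enorm _).trans ?_
    refine lintegral_mono fun g => ?_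
    by_cases hg : g ∈ AR r K x
    · have hg' : g ∈ {g : Fin r → ℝ | ∀ j : ℕ, 1 ≤ j → j ≤ r →
        sv * ps g j ≤ Real.sqrt 2 * vv * j + x + 2 - (j : ℝ) / K * psi K K} := hg
      rw [Set.indicator_of_mem hg', hH, Set.indicator_of_mem hg,
        Real.enorm_eq_ofReal (by positivity)]
      refine ENNReal.ofReal_le_ofReal ?_
      have h0 : 0 ≤ qk K r x (sv * ps g r) := measureReal_nonneg
      have := hq' g hg
      gcongr
    · have hg' : g ∉ {g : Fin r → ℝ | ∀ j : ℕ, 1 ≤ j → j ≤ r →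
        sv * ps g j ≤ Real.sqrt 2 * vv * j + x + 2 - (j : ℝ) / K * psi K K} := hg
      rw [Set.indicator_of_notMem hg', enorm_zero]
      exact zero_le
  rw [cms hCMS r H hHm] at hQ1
  -- the function of the end point
  set b' : ℝ := x + 2 - (r : ℝ) / K * psi K K with hb'
  set h : ℝ → ENNReal := fun s => ENNReal.ofReal ((C * bq K m (b' - sv * s)) ^ 2 *
    Real.exp (-(Real.sqrt 2 * (sv * s)) - r * vv)) with hh
  have hhm : Measurable h := by
    refine ENNReal.measurable_ofReal.comp (Measurable.mul (Measurable.pow_const (Measurable.const_mul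
      (hbqm.comp ?_) _) _) ?_)
    · fun_prop
    · fun_prop
  have hmem : ∀ g : Fin r → ℝ, (g + fun _ => Real.sqrt 2 * sv) ∈ AR r K x ↔
      g ∈ {g : Fin r → ℝ | ∀ j : ℕ, 1 ≤ j → j ≤ r →
        ps g j ≤ (x + 2) / sv - (fun j : ℕ => (j : ℝ) / K * psi K K / sv) j} := by
    intro g
    refine forall_congr' fun j => forall_congr' fun _ => forall_congr' fun hj => ?_
    rw [shift_ps g hj, ← sub_div, le_div_iff₀ hs]
    constructor <;> intro h <;> linarith
  have hstep : ∀ g : Fin r → ℝ, H (g + fun _ => Real.sqrt 2 * sv) *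
      ENNReal.ofReal (Real.exp (-(Real.sqrt 2 * (sv * ps g r)) - r * vv)) ≤
      Set.indicator {g : Fin r → ℝ | ∀ j : ℕ, 1 ≤ j → j ≤ r →
        ps g j ≤ (x + 2) / sv - (fun j : ℕ => (j : ℝ) / K * psi K K / sv) j}
        (fun g => h (ps g r)) g := by
    intro g
    by_cases hg : (g + fun _ => Real.sqrt 2 * sv) ∈ AR r K x
    · rw [hH, Set.indicator_of_mem hg, Set.indicator_of_mem ((hmem g).1 hg), hh]
      simp only
      rw [← ENNReal.ofReal_mul (by positivity), shift_ps g le_rfl]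
      refine le_of_eq ?_
      congr 5
      rw [hb']
      ring
    · rw [hH, Set.indicator_of_notMem hg, zero_mul]
      exact zero_le
  have h1 := hB r ((x + 2) / sv) (fun j => (j : ℝ) / K * psi K K / sv) hr1 (by positivity) (by
    intro j hj1 hj2
    rw [zero_mul, sub_zero]
    apply le_of_eq
    field_simp) h hhm
  have hQ2 := hQ1.trans ((lintegral_mono hstep).trans h1)
  set b : ℝ := (x + 2) / sv - (r : ℝ) / K * psi K K / sv with hb
  have hbb : sv * b = b' := by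
    rw [hb, hb', ← sub_div, mul_div_cancel₀ _ hs.ne']
  set lam : ℝ := Real.log ((K : ℝ) + 1) with hlam
  set E0 : ℝ := Real.exp (3 * (m / (K : ℝ)) * lam + 3 / 2 * ((r : ℝ) / K) * lam - 2 * m * vv -
        Real.sqrt 2 * x - r * vv) with hE0
  have hE0p : 0 < E0 := Real.exp_pos _
  set A0 : ℝ := C' * (5 * (1 + x)) / r * C ^ 2 * (E0 / ((m : ℝ) + 1) ^ 3) with hA0
  have hA0p : 0 ≤ A0 := by positivity
  have hpt : ∀ s ∈ Set.Iic b, ENNReal.ofReal (C' * (1 + (x + 2) / sv) * (1 + (b - s)) / r) * h s ≤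
      ENNReal.ofReal A0 * ENNReal.ofReal ((1 + (b - s)) *
        (1 + sv * (b - s)) ^ 2 * Real.exp (-(Real.sqrt 2 * (sv * (b - s))))) := by
    intro s hsb
    have hu : 0 ≤ b - s := sub_nonneg.2 hsb
    have hX : 1 + (x + 2) / sv ≤ 5 * (1 + x) := by
      have : (x + 2) / sv ≤ 2 * (x + 2) := by
        rw [div_le_iff₀ hs]
        nlinarith
      linarith
    rw [hh]
    simp only
    rw [← ENNReal.ofReal_mul (by positivity), ← ENNReal.ofReal_mul hA0p]
    refine ENNReal.ofReal_le_ofReal ?_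
    have ha : b' - sv * s = sv * (b - s) := by
      rw [← hbb]
      ring
    rw [ha]
    have hbq2 : (C * bq K m (sv * (b - s))) ^ 2 * Real.exp (-(Real.sqrt 2 * (sv * s)) - r * vv) ≤
        C ^ 2 * (E0 / ((m : ℝ) + 1) ^ 3) * ((1 + sv * (b - s)) ^ 2 *
          Real.exp (-(Real.sqrt 2 * (sv * (b - s))))) := by
      unfold bq
      set a : ℝ := sv * (b - s) with haa
      have hsq : Real.sqrt ((m : ℝ) + 1) ^ 2 = (m : ℝ) + 1 := Real.sq_sqrt (by positivity)
      have hexp : Real.exp (-(Real.sqrt 2 * a) + 3 / 2 * ((m : ℝ) / K) * lam - m * vv) ^ 2 *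
          Real.exp (-(Real.sqrt 2 * (sv * s)) - r * vv) ≤ E0 * Real.exp (-(Real.sqrt 2 * a)) := by
        rw [hE0, ← Real.exp_nat_mul, ← Real.exp_add, ← Real.exp_add]
        refine Real.exp_le_exp.2 ?_
        have e1 : sv * s = b' - a := by
          rw [haa, ← hbb]
          ring
        have e2 : Real.sqrt 2 * b' = Real.sqrt 2 * x + 2 * Real.sqrt 2 -
            (r : ℝ) / K * (3 / 2 * lam) := by
          rw [hb', hlam, ← psiKK K]
          ring
        have e3 : 0 ≤ Real.sqrt 2 := Real.sqrt_nonneg _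
        rw [e1]
        push_cast
        linarith
      calc (C * ((1 + a) * Real.exp (-(Real.sqrt 2 * a) + 3 / 2 * ((m : ℝ) / K) * lam - m * vv) /
            (((m : ℝ) + 1) * Real.sqrt ((m : ℝ) + 1)))) ^ 2 *
            Real.exp (-(Real.sqrt 2 * (sv * s)) - r * vv)
          = C ^ 2 * (1 + a) ^ 2 / (((m : ℝ) + 1) ^ 2 * Real.sqrt ((m : ℝ) + 1) ^ 2) *
            (Real.exp (-(Real.sqrt 2 * a) + 3 / 2 * ((m : ℝ) / K) * lam - m * vv) ^ 2 *
            Real.exp (-(Real.sqrt 2 * (sv * s)) - r * vv)) := by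
            rw [mul_pow, div_pow, mul_pow, mul_pow]
            ring
        _ ≤ C ^ 2 * (1 + a) ^ 2 / (((m : ℝ) + 1) ^ 2 * Real.sqrt ((m : ℝ) + 1) ^ 2) *
            (E0 * Real.exp (-(Real.sqrt 2 * a))) := by gcongr
        _ = C ^ 2 * (E0 / ((m : ℝ) + 1) ^ 3) * ((1 + a) ^ 2 *
            Real.exp (-(Real.sqrt 2 * a))) := by
            rw [hsq]
            field_simp
    calc C' * (1 + (x + 2) / sv) * (1 + (b - s)) / r *
          ((C * bq K m (sv * (b - s))) ^ 2 * Real.exp (-(Real.sqrt 2 * (sv * s)) - r * vv))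
        ≤ C' * (5 * (1 + x)) * (1 + (b - s)) / r *
          (C ^ 2 * (E0 / ((m : ℝ) + 1) ^ 3) * ((1 + sv * (b - s)) ^ 2 *
          Real.exp (-(Real.sqrt 2 * (sv * (b - s)))))) := by gcongr
      _ = A0 * ((1 + (b - s)) * (1 + sv * (b - s)) ^ 2 *
          Real.exp (-(Real.sqrt 2 * (sv * (b - s))))) := by
          rw [hA0]
          ring
  have hQ3 : ENNReal.ofReal (Qk K r x) ≤ ENNReal.ofReal (A0 * (1 / Real.sqrt r * 432)) := by
    refine hQ2.trans ?_
    calc ∫⁻ s in Set.Iic b, ENNReal.ofReal (C' * (1 + (x + 2) / sv) * (1 + (b - s)) / r) * h s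
          ∂gaussianReal 0 r
        ≤ ∫⁻ s in Set.Iic b, ENNReal.ofReal A0 * ENNReal.ofReal ((1 + (b - s)) *
          (1 + sv * (b - s)) ^ 2 * Real.exp (-(Real.sqrt 2 * (sv * (b - s)))))
          ∂gaussianReal 0 r := setLIntegral_mono' measurableSet_Iic hpt
      _ = ENNReal.ofReal A0 * ∫⁻ s in Set.Iic b, ENNReal.ofReal ((1 + (b - s)) *
          (1 + sv * (b - s)) ^ 2 * Real.exp (-(Real.sqrt 2 * (sv * (b - s)))))
          ∂gaussianReal 0 r := lintegral_const_mul' _ _ ENNReal.ofReal_ne_top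
      _ ≤ ENNReal.ofReal A0 * (ENNReal.ofReal (1 / Real.sqrt r) * ENNReal.ofReal 432) := by
          gcongr
          rw [← lintegral_indicator measurableSet_Iic]
          refine (gauss_le r hr1 _).trans ?_
          rw [lintegral_indicator measurableSet_Iic]
          gcongr
          exact int_le b
      _ = ENNReal.ofReal (A0 * (1 / Real.sqrt r * 432)) := by
          rw [← ENNReal.ofReal_mul (by positivity), ← ENNReal.ofReal_mul hA0p]
  have hQ4 := (ENNReal.ofReal_le_ofReal_iff (by positivity)).1 hQ3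
  refine hQ4.trans (le_of_eq ?_)
  rw [hA0]
  have hsr : 0 < Real.sqrt r := Real.sqrt_pos.2 hr0
  field_simp
  ring

lemma log_frac {K m : ℕ} (hK : 1 ≤ K) (hm : m ≤ K) :
    (m : ℝ) / K * Real.log ((K : ℝ) + 1) ≤ Real.log ((m : ℝ) + 1) := by
  have hK0 : (0 : ℝ) < K := by exact_mod_cast hK
  have h0 : 0 ≤ (m : ℝ) / K := by positivity
  have h1 : (m : ℝ) / K ≤ 1 := by
    rw [div_le_one hK0]
    exact_mod_cast hm
  have h := (strictConcaveOn_log_Ioi.concaveOn).2 (Set.mem_Ioi.2 (by positivity : (0 : ℝ) < K + 1))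
    (Set.mem_Ioi.2 one_pos) h0 (sub_nonneg.2 h1) (by ring)
  simp only [smul_eq_mul, Real.log_one, mul_zero, add_zero, mul_one] at h
  refine h.trans (le_of_eq ?_)
  congr 1
  field_simp
  ring

lemma exp_log32 {y : ℝ} (hy : 0 < y) : Real.exp (3 / 2 * Real.log y) = y * Real.sqrt y := by
  rw [show (3 : ℝ) / 2 * Real.log y = Real.log y + Real.log y / 2 by ring, Real.exp_add,
    Real.exp_log hy, Real.sqrt_eq_rpow, Real.rpow_def_of_pos hy]
  congr 2
  ring

lemma split32 {r m : ℝ} (hr : 1 ≤ r) (hm : 0 ≤ m) :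
    (r + m + 1) * Real.sqrt (r + m + 1) / (r * Real.sqrt r * ((m + 1) * Real.sqrt (m + 1))) ≤
      4 * (1 / (r * Real.sqrt r)) + 4 * (1 / ((m + 1) * Real.sqrt (m + 1))) := by
  have hr0 : 0 < r := by linarith
  have hm0 : 0 < m + 1 := by linarith
  have sr : 0 < Real.sqrt r := Real.sqrt_pos.2 hr0
  have sm : 0 < Real.sqrt (m + 1) := Real.sqrt_pos.2 hm0
  have key : ∀ y z : ℝ, 0 < y → z ≤ 2 * y → 0 < z → z * Real.sqrt z ≤ 4 * (y * Real.sqrt y) := by
    intro y z hy hz hz0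
    have h1 : Real.sqrt z ≤ 2 * Real.sqrt y := by
      rw [show (2 : ℝ) * Real.sqrt y = Real.sqrt (4 * y) by
        rw [Real.sqrt_mul (by norm_num), show (4 : ℝ) = 2 ^ 2 by norm_num,
          Real.sqrt_sq (by norm_num)]]
      apply Real.sqrt_le_sqrt
      linarith
    calc z * Real.sqrt z ≤ (2 * y) * (2 * Real.sqrt y) := by gcongr
      _ = 4 * (y * Real.sqrt y) := by ring
  rcases le_total (m + 1) r with h | h
  · have h1 := key r (r + m + 1) hr0 (by linarith) (by linarith)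
    have h2 : (r + m + 1) * Real.sqrt (r + m + 1) /
        (r * Real.sqrt r * ((m + 1) * Real.sqrt (m + 1))) ≤
        4 * (1 / ((m + 1) * Real.sqrt (m + 1))) := by
      rw [div_le_iff₀ (by positivity)]
      refine h1.trans (le_of_eq ?_)
      field_simp
    have h3 : 0 ≤ 4 * (1 / (r * Real.sqrt r)) := by positivity
    linarith
  · have h1 := key (m + 1) (r + m + 1) hm0 (by linarith) (by linarith)
    have h2 : (r + m + 1) * Real.sqrt (r + m + 1) /
        (r * Real.sqrt r * ((m + 1) * Real.sqrt (m + 1))) ≤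
        4 * (1 / (r * Real.sqrt r)) := by
      rw [div_le_iff₀ (by positivity)]
      refine h1.trans (le_of_eq ?_)
      field_simp
    have h3 : 0 ≤ 4 * (1 / ((m + 1) * Real.sqrt (m + 1))) := by positivity
    linarith

lemma sum32 (K : ℕ) (hK : 1 ≤ K) : ∑ i ∈ Finset.range K, 1 / (((i : ℝ) + 1) *
    Real.sqrt ((i : ℝ) + 1)) ≤ 3 - 2 / Real.sqrt K := by
  induction K, hK using Nat.le_induction with
  | base =>
    simp only [Finset.sum_range_one]
    norm_num
  | succ K hK ih =>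
    rw [Finset.sum_range_succ]
    have hK0 : (0 : ℝ) < K := by exact_mod_cast hK
    have ha : 0 < Real.sqrt K := Real.sqrt_pos.2 hK0
    have hb : 0 < Real.sqrt ((K : ℝ) + 1) := Real.sqrt_pos.2 (by linarith)
    have hab : Real.sqrt K ≤ Real.sqrt ((K : ℝ) + 1) := Real.sqrt_le_sqrt (by linarith)
    have ha2 : Real.sqrt K ^ 2 = K := Real.sq_sqrt hK0.le
    have hb2 : Real.sqrt ((K : ℝ) + 1) ^ 2 = (K : ℝ) + 1 := Real.sq_sqrt (by linarith)
    push_cast
    set a := Real.sqrt K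
    set b := Real.sqrt ((K : ℝ) + 1)
    have h1 : 1 / (((K : ℝ) + 1) * b) ≤ 2 / a - 2 / b := by
      rw [← hb2]
      rw [div_sub_div _ _ ha.ne' hb.ne', div_le_div_iff₀ (by positivity) (by positivity)]
      have h2 : (b - a) * (b + a) = 1 := by nlinarith
      have h3 : 1 ≤ (b - a) * (2 * b) := by nlinarith
      nlinarith [mul_pos ha hb, mul_pos hb hb, mul_le_mul_of_nonneg_left hab ha.le,
        mul_nonneg (mul_pos ha hb).le (sub_nonneg.2 h3), mul_nonneg (mul_pos hb hb).le (sub_nonneg.2 h3)]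
    linarith

lemma term_le {C : ℝ} (hC : 0 < C) {K r : ℕ} {x : ℝ} (hK : 1 ≤ K) (hr1 : 1 ≤ r) (hr : r ≤ K)
    (hx : 0 ≤ x) (hQ : Qk K r x ≤ C * (1 + x) / (r * Real.sqrt r) *
      (Real.exp (3 * ((K - r : ℕ) / (K : ℝ)) * Real.log ((K : ℝ) + 1) +
        3 / 2 * ((r : ℝ) / K) * Real.log ((K : ℝ) + 1) - 2 * (K - r : ℕ) * vv -
        Real.sqrt 2 * x - r * vv) / (((K - r : ℕ) : ℝ) + 1) ^ 3)) :
    (2 : ℝ) ^ (2 * K - r) * Qk K r x ≤ C * (1 + x) * Real.exp (-(Real.sqrt 2 * x)) *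
      (4 * (1 / (r * Real.sqrt r)) + 4 * (1 / ((((K - r : ℕ) : ℝ) + 1) *
        Real.sqrt (((K - r : ℕ) : ℝ) + 1)))) := by
  have hK0 : (0 : ℝ) < K := by exact_mod_cast hK
  have hr0 : (0 : ℝ) < r := by exact_mod_cast hr1
  have hsplit := split32 (r := (r : ℝ)) (m := ((K - r : ℕ) : ℝ)) (by exact_mod_cast hr1)
    (Nat.cast_nonneg _)
  have hcast : (r : ℝ) + ((K - r : ℕ) : ℝ) = K := by
    rw [Nat.cast_sub hr]
    ring
  rw [hcast] at hsplit
  have hlog := log_frac hK (Nat.sub_le K r)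
  have hpow : (2 : ℝ) ^ (2 * K - r) = Real.exp ((2 * ((K - r : ℕ) : ℝ) + r) * vv) := by
    have h1 : 2 * K - r = 2 * (K - r) + r := by omega
    have h2 : (2 * ((K - r : ℕ) : ℝ) + r) * vv = ((2 * (K - r) + r : ℕ) : ℝ) * Real.log 2 := by
      unfold vv
      rw [Nat.cast_add, Nat.cast_mul, Nat.cast_two]
    rw [h1, h2, Real.exp_nat_mul, Real.exp_log two_pos]
  generalize K - r = m at *
  have hsm : 0 < Real.sqrt ((m : ℝ) + 1) := Real.sqrt_pos.2 (by positivity)
  have hsr : 0 < Real.sqrt r := Real.sqrt_pos.2 hr0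
  have hsq : Real.sqrt ((m : ℝ) + 1) * Real.sqrt ((m : ℝ) + 1) = (m : ℝ) + 1 :=
    Real.mul_self_sqrt (by positivity)
  set lam : ℝ := Real.log ((K : ℝ) + 1) with hlam
  have hfr : (r : ℝ) / K + m / K = 1 := by
    rw [← add_div, hcast, div_self hK0.ne']
  have hE : Real.exp ((2 * (m : ℝ) + r) * vv) * Real.exp (3 * (m / (K : ℝ)) * lam +
      3 / 2 * ((r : ℝ) / K) * lam - 2 * m * vv - Real.sqrt 2 * x - r * vv) ≤
      Real.exp (-(Real.sqrt 2 * x)) * ((((K : ℝ) + 1) * Real.sqrt ((K : ℝ) + 1)) *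
        (((m : ℝ) + 1) * Real.sqrt ((m : ℝ) + 1))) := by
    rw [← exp_log32 (by positivity : (0 : ℝ) < (K : ℝ) + 1),
      ← exp_log32 (by positivity : (0 : ℝ) < (m : ℝ) + 1), ← Real.exp_add, ← Real.exp_add,
      ← Real.exp_add]
    refine Real.exp_le_exp.2 ?_
    have h3 : (r : ℝ) / K * lam = lam - (m : ℝ) / K * lam := by
      rw [eq_sub_iff_add_eq, ← add_mul, hfr, one_mul]
    have h4 : 3 / 2 * ((r : ℝ) / K) * lam = 3 / 2 * (lam - (m : ℝ) / K * lam) := by
      rw [← h3]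
      ring
    rw [h4]
    linarith
  calc (2 : ℝ) ^ (2 * K - r) * Qk K r x
      ≤ Real.exp ((2 * (m : ℝ) + r) * vv) * (C * (1 + x) / (r * Real.sqrt r) *
      (Real.exp (3 * (m / (K : ℝ)) * lam + 3 / 2 * ((r : ℝ) / K) * lam - 2 * m * vv -
        Real.sqrt 2 * x - r * vv) / ((m : ℝ) + 1) ^ 3)) := by
        rw [hpow]
        gcongr
    _ = C * (1 + x) / (r * Real.sqrt r) * ((Real.exp ((2 * (m : ℝ) + r) * vv) *
      Real.exp (3 * (m / (K : ℝ)) * lam + 3 / 2 * ((r : ℝ) / K) * lam - 2 * m * vv -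
        Real.sqrt 2 * x - r * vv)) / ((m : ℝ) + 1) ^ 3) := by ring
    _ ≤ C * (1 + x) / (r * Real.sqrt r) * ((Real.exp (-(Real.sqrt 2 * x)) *
        ((((K : ℝ) + 1) * Real.sqrt ((K : ℝ) + 1)) *
        (((m : ℝ) + 1) * Real.sqrt ((m : ℝ) + 1)))) / ((m : ℝ) + 1) ^ 3) := by gcongr
    _ = C * (1 + x) * Real.exp (-(Real.sqrt 2 * x)) * (((K : ℝ) + 1) * Real.sqrt ((K : ℝ) + 1) /
        (r * Real.sqrt r * (((m : ℝ) + 1) * Real.sqrt ((m : ℝ) + 1)))) := by
        have h5 : ((m : ℝ) + 1) ^ 3 = (((m : ℝ) + 1) * Real.sqrt ((m : ℝ) + 1)) *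
            (((m : ℝ) + 1) * Real.sqrt ((m : ℝ) + 1)) := by
          calc ((m : ℝ) + 1) ^ 3 = ((m : ℝ) + 1) ^ 2 * ((m : ℝ) + 1) := by ring
            _ = ((m : ℝ) + 1) ^ 2 * (Real.sqrt ((m : ℝ) + 1) * Real.sqrt ((m : ℝ) + 1)) := by
              rw [hsq]
            _ = _ := by ring
        rw [h5]
        have h6 : 0 < ((m : ℝ) + 1) * Real.sqrt ((m : ℝ) + 1) := by positivity
        set q : ℝ := ((m : ℝ) + 1) * Real.sqrt ((m : ℝ) + 1)
        field_simp
    _ ≤ _ := by gcongr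

end LSMaux

open LSMaux in
/-- the pair functional summed over the branching level -/
theorem LSM (hBRG : S_BRG) (hCMS : S_CMS) : S_LSM := by
  obtain ⟨C, hC, hQ⟩ := Qk_le hBRG hCMS
  refine ⟨24 * C, by positivity, ?_⟩
  intro K x hK hx
  have hP : 0 ≤ C * (1 + x) * Real.exp (-(Real.sqrt 2 * x)) := by positivity
  have h1 : ∑ r ∈ Finset.Icc 1 K, (2 : ℝ) ^ (2 * K - r) * Qk K r x ≤
      ∑ r ∈ Finset.Icc 1 K, C * (1 + x) * Real.exp (-(Real.sqrt 2 * x)) *
      (4 * (1 / (r * Real.sqrt r)) + 4 * (1 / ((((K - r : ℕ) : ℝ) + 1) *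
        Real.sqrt (((K - r : ℕ) : ℝ) + 1)))) := by
    refine Finset.sum_le_sum fun r hr => ?_
    rw [Finset.mem_Icc] at hr
    exact term_le hC hK hr.1 hr.2 hx (hQ K r x hK hr.1 hr.2 hx)
  have hIcc : ∀ f : ℕ → ℝ, ∑ r ∈ Finset.Icc 1 K, f r = ∑ i ∈ Finset.range K, f (i + 1) := by
    intro f
    rw [Finset.range_eq_Ico, Finset.sum_Ico_add' f 0 K 1]
    rfl
  have h2 : ∑ r ∈ Finset.Icc 1 K, 1 / ((r : ℝ) * Real.sqrt r) ≤ 3 := by
    rw [hIcc]
    have := sum32 K hK
    have h3 : 0 ≤ 2 / Real.sqrt K := by positivity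
    push_cast
    linarith
  have h3 : ∑ r ∈ Finset.Icc 1 K, 1 / ((((K - r : ℕ) : ℝ) + 1) *
        Real.sqrt (((K - r : ℕ) : ℝ) + 1)) ≤ 3 := by
    rw [hIcc]
    have h4 := sum32 K hK
    have h5 : 0 ≤ 2 / Real.sqrt K := by positivity
    have h6 := Finset.sum_range_reflect (fun i : ℕ => 1 / (((i : ℝ) + 1) *
      Real.sqrt ((i : ℝ) + 1))) K
    have h7 : ∑ i ∈ Finset.range K, 1 / ((((K - (i + 1) : ℕ) : ℝ) + 1) *
        Real.sqrt (((K - (i + 1) : ℕ) : ℝ) + 1)) =
        ∑ i ∈ Finset.range K, (fun i : ℕ => 1 / (((i : ℝ) + 1) *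
      Real.sqrt ((i : ℝ) + 1))) (K - 1 - i) := by
      refine Finset.sum_congr rfl fun i _ => ?_
      rw [show K - (i + 1) = K - 1 - i by omega]
    rw [h7, h6]
    linarith
  refine h1.trans ?_
  rw [← Finset.mul_sum, Finset.sum_add_distrib, ← Finset.mul_sum, ← Finset.mul_sum]
  calc C * (1 + x) * Real.exp (-(Real.sqrt 2 * x)) *
        (4 * ∑ r ∈ Finset.Icc 1 K, 1 / ((r : ℝ) * Real.sqrt r) +
        4 * ∑ r ∈ Finset.Icc 1 K, 1 / ((((K - r : ℕ) : ℝ) + 1) *
        Real.sqrt (((K - r : ℕ) : ℝ) + 1)))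
      ≤ C * (1 + x) * Real.exp (-(Real.sqrt 2 * x)) * (4 * 3 + 4 * 3) := by gcongr
    _ = 24 * C * (1 + x) * Real.exp (-(Real.sqrt 2 * x)) := by ring

end PN
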