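import Pool.Agent.H24.PN.RU2

/-! General reduction of the norms to the moments of the mean square, lower bound. -/

namespace PN
open MeasureTheory Complex PM

attribute [local irreducible] G PrS

lemma rpow_sub_bound {q a b s : ℝ} (hq : 0 < q) (hq1 : q ≤ 1) (hb : 0 ≤ b) (hs : 0 ≤ s)
    (ha : 0 ≤ a) (h : a ≤ s + b) : a ^ q - b ^ q ≤ s ^ q := by
  have h1 : a ^ q ≤ (s + b) ^ q := Real.rpow_le_rpow ha h hq.le
  have h2 : (s + b) ^ q ≤ s ^ q + b ^ q := Real.rpow_add_le_add_rpow hs hb hq.le hq1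
  linarith

theorem lower2 (hLRED : S_LRED) (hPLU : S_PLU) (hJM : S_JM) (hSML : S_SML)
    (γ p : ℝ) (hp : 0 < p) (hp1 : p ≤ 1) (p0 : ℕ) (hG : Good γ p0) (a : ℝ) (ha0 : 0 < a)
    (H : ℝ → ℝ) (hH : Slow H) (c1 y0 C1 : ℝ) (hc1 : 0 < c1) (hC1 : 0 ≤ C1)
    (hy0 : Real.exp 3 ≤ y0)
    (hl : ∀ y : ℝ, y0 ≤ y → c1 * ((Real.log y) ^ a * H (Real.log (Real.log y))) ≤
      ∫ ω : Om, (JF γ (PrS p0 y) (1 / Real.log y) ω / Real.log y) ^ (p / 2) ∂P)
    (hu : ∀ y : ℝ, (p0 : ℝ) + 1 ≤ y →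
      ∫ ω : Om, (JF γ (PrS p0 y) (1 / (2 * Real.log y)) ω / Real.log y) ^ (p / 2) ∂P ≤
        C1 * ((Real.log y) ^ a * H (Real.log (Real.log y)))) :
    ∃ c : ℝ, 0 < c ∧ ∀ N : ℕ, 16 ≤ N →
      c * ((Real.log N) ^ a * H (Real.log (Real.log N))) ≤ ∫ ω : Om, ‖D γ N ω‖ ^ p ∂P := by
  obtain ⟨hHpos, cH, kH, hcH, hHs⟩ := hH
  obtain ⟨K0, hK0, hLR⟩ := hLRED γ p0 hG p hp hp1
  have hpi := Real.pi_pos
  have hq : 0 < p / 2 := by linarith
  have hq1 : p / 2 ≤ 1 := by linarith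
  -- choice of K
  obtain ⟨K1, hK1⟩ : ∃ K1 : ℕ, ∀ K : ℕ, K1 ≤ K →
      Real.exp (-((K : ℝ) / 3 * (p / 2))) * C1 ≤ c1 / 2 := by
    have h1 : Filter.Tendsto (fun K : ℕ => Real.exp (-((K : ℝ) / 3 * (p / 2))) * C1) Filter.atTop
        (nhds (0 * C1)) := by
      apply Filter.Tendsto.mul_const
      apply Real.tendsto_exp_neg_atTop_nhds_zero.comp
      apply Filter.Tendsto.atTop_mul_const hq
      apply Filter.Tendsto.atTop_div_const (by norm_num)
      exact tendsto_natCast_atTop_atTop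
    rw [zero_mul] at h1
    exact Filter.eventually_atTop.1 (h1.eventually (ge_mem_nhds (by positivity)))
  set K := max K0 K1 with hK
  have hK1' : 1 ≤ K := hK0.trans (le_max_left _ _)
  obtain ⟨c, N0, hc, hN0, hLR⟩ := hLR K (le_max_left _ _)
  obtain ⟨N1, hN1⟩ := le_large hK1' (max y0 ((p0 : ℝ) + 1))
  have hKpos : (0 : ℝ) < K := by exact_mod_cast hK1'
  have hK1r : (1 : ℝ) ≤ K := by exact_mod_cast hK1'
  have hLK : 0 ≤ Real.log K := Real.log_nonneg hK1r
  -- comparison of H at LL N and LL N - log K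
  set cK : ℝ := cH * (1 + Real.log K) ^ kH with hcK
  have hcKp : 0 < cK := by rw [hcK]; positivity
  set cc : ℝ := c * ((1 / (2 * Real.pi)) ^ (p / 2) * (c1 / 2)) * ((1 / (K : ℝ)) ^ a / cK) with hcc
  have hccp : 0 < cc := by rw [hcc]; positivity
  have hlog16 : ∀ N : ℕ, 16 ≤ N → Real.exp 1 ≤ Real.log N := by
    intro N hN
    have hN' : (16 : ℝ) ≤ N := by exact_mod_cast hN
    have : Real.log 16 ≤ Real.log N := Real.log_le_log (by norm_num) hN'
    refine le_trans ?_ this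
    have h5 : Real.log 16 = 4 * Real.log 2 := by
      rw [show (16 : ℝ) = 2 ^ (4 : ℕ) by norm_num, Real.log_pow]; norm_num
    rw [h5]
    have := Real.log_two_gt_d9
    have := Real.exp_one_lt_d9
    linarith
  refine le_comb (f := fun N => (Real.log N) ^ a * H (Real.log (Real.log N)))
    (g := fun N => ∫ ω : Om, ‖D γ N ω‖ ^ p ∂P) (m := 16)
    (c := cc) (N1 := max N0 N1) ?_ hccp ?_
    (fun N hN => leb_small hSML γ p hp N (by omega))
  · intro N hN
    have h1 := hlog16 N hN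
    have h2 : 0 < Real.log N := lt_of_lt_of_le (Real.exp_pos 1) h1
    have h3 : 1 ≤ Real.log (Real.log N) := by rwa [Real.le_log_iff_exp_le h2]
    exact mul_nonneg (Real.rpow_nonneg h2.le _) (hHpos _ h3).le
  intro N hN hN3
  have hNN0 : N0 ≤ N := (le_max_left _ _).trans hN
  have hy' : max y0 ((p0 : ℝ) + 1) ≤ (N : ℝ) ^ (1 / (K : ℝ)) := hN1 N ((le_max_right _ _).trans hN)
  set y := (N : ℝ) ^ (1 / (K : ℝ)) with hyd
  have hy : y0 ≤ y := (le_max_left _ _).trans hy'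
  have hyp : (p0 : ℝ) + 1 ≤ y := (le_max_right _ _).trans hy'
  have hy00 : 0 < y := lt_of_lt_of_le (Real.exp_pos _) (hy0.trans hy)
  have h3 : 3 ≤ Real.log y := by
    rw [Real.le_log_iff_exp_le hy00]; exact hy0.trans hy
  set Y := Real.log y with hY
  have hY0 : 0 < Y := by linarith
  have hNpos : (0 : ℝ) < N := by exact_mod_cast (by omega : 0 < N)
  have hN1r : (1 : ℝ) ≤ N := by exact_mod_cast (by omega : 1 ≤ N)
  have hYN : Y = Real.log N * (1 / K) := by
    rw [hY, hyd, Real.log_rpow hNpos]; ring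
  have hred := hLR N hNN0
  rw [← hyd, ← hY] at hred
  set Z := (N : ℝ) ^ (1 / 3 : ℝ) with hZ
  have hZ1 : 1 ≤ Z := Real.one_le_rpow hN1r (by norm_num)
  have hZl : Real.log Z = (K : ℝ) / 3 * Y := by
    rw [hZ, Real.log_rpow (by linarith), hYN]; field_simp
  have hA : ∀ l ∈ PrS p0 y, l.Prime := fun l hl => (ewb_mem hl).1
  have hcmp := fun ω => leb_JD hJM γ (PrS p0 y) hA hY0 hZ1 hZl ω
  obtain ⟨B, hB⟩ := leb_S_bound γ (PrS p0 y) Z
  have hScont := leb_S_cont γ (PrS p0 y) Z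
  have hint : Integrable (fun ω => (leS γ (PrS p0 y) Z ω / Y) ^ (p / 2)) P := by
    refine Integrable.of_bound (C := (B / Y) ^ (p / 2)) ?_ (Filter.Eventually.of_forall fun ω => ?_)
    · exact ((hScont.div_const Y).measurable.pow_const (p / 2)).aestronglyMeasurable
    · rw [Real.norm_eq_abs, abs_of_nonneg (Real.rpow_nonneg
        (div_nonneg (leb_S_nonneg _ _ _ _) hY0.le) _)]
      refine Real.rpow_le_rpow (div_nonneg (leb_S_nonneg _ _ _ _) hY0.le) ?_ (by positivity)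
      gcongr
      exact hB ω
  -- integrability of the two moments of JF
  have hJint : ∀ s : ℝ, 0 < s → Integrable (fun ω => (JF γ (PrS p0 y) s ω / Y) ^ (p / 2)) P ∧
      ∀ ω, 0 ≤ JF γ (PrS p0 y) s ω := by
    intro s hs
    obtain ⟨hm, ⟨B', hB'⟩, -, -⟩ := hJM γ (PrS p0 y) s hA (by linarith) hs.ne'
    refine ⟨?_, fun ω => (hB' ω).1⟩
    refine Integrable.of_bound (C := (B' / Y) ^ (p / 2)) ?_ (Filter.Eventually.of_forall fun ω => ?_)
    · exact ((hm.div_const Y).pow_const (p / 2)).aestronglyMeasurable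
    · rw [Real.norm_eq_abs, abs_of_nonneg (Real.rpow_nonneg
        (div_nonneg (hB' ω).1 hY0.le) _)]
      refine Real.rpow_le_rpow (div_nonneg (hB' ω).1 hY0.le) ?_ (by positivity)
      gcongr
      exact (hB' ω).2
  obtain ⟨i1, n1⟩ := hJint (1 / Y) (by positivity)
  obtain ⟨i2, n2⟩ := hJint (1 / (2 * Y)) (by positivity)
  have hpt : ∀ ω, (1 / (2 * Real.pi)) ^ (p / 2) * ((JF γ (PrS p0 y) (1 / Y) ω / Y) ^ (p / 2)) -
      (1 / (2 * Real.pi)) ^ (p / 2) * (Real.exp (-((K : ℝ) / 3 * (p / 2))) *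
        ((JF γ (PrS p0 y) (1 / (2 * Y)) ω / Y) ^ (p / 2))) ≤
      (leS γ (PrS p0 y) Z ω / Y) ^ (p / 2) := by
    intro ω
    have h5 := hcmp ω
    rw [hPLU γ (PrS p0 y) (1 / Y) ω hA (by positivity),
      hPLU γ (PrS p0 y) (1 / (2 * Y)) ω hA (by positivity)] at h5
    have h6 : 1 / (2 * Real.pi) * (JF γ (PrS p0 y) (1 / Y) ω / Y) ≤
        leS γ (PrS p0 y) Z ω / Y + Real.exp (-((K : ℝ) / 3)) * (1 / (2 * Real.pi) *
          (JF γ (PrS p0 y) (1 / (2 * Y)) ω / Y)) := by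
      have h7 := div_le_div_of_nonneg_right h5 hY0.le
      calc _ = 1 / (2 * Real.pi) * JF γ (PrS p0 y) (1 / Y) ω / Y := by ring
        _ ≤ _ := h7
        _ = _ := by ring
    have m1 := n1 ω
    have m2 := n2 ω
    have h8 := rpow_sub_bound hq hq1 (b := Real.exp (-((K : ℝ) / 3)) * (1 / (2 * Real.pi) *
          (JF γ (PrS p0 y) (1 / (2 * Y)) ω / Y))) (by positivity)
      (div_nonneg (leb_S_nonneg γ (PrS p0 y) Z ω) hY0.le) (by positivity) h6
    rw [Real.mul_rpow (by positivity) (by positivity), Real.mul_rpow (by positivity) (by positivity),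
      Real.mul_rpow (by positivity) (by positivity), ← Real.exp_mul] at h8
    refine le_trans (le_of_eq ?_) h8
    rw [show -((K : ℝ) / 3) * (p / 2) = -((K : ℝ) / 3 * (p / 2)) by ring]
    ring
  have hmain : (1 / (2 * Real.pi)) ^ (p / 2) * (c1 / 2) * (Y ^ a * H (Real.log Y)) ≤
      ∫ ω, (leS γ (PrS p0 y) Z ω / Y) ^ (p / 2) ∂P := by
    have h9 : ∫ ω : Om, ((1 / (2 * Real.pi)) ^ (p / 2) *
        ((JF γ (PrS p0 y) (1 / Y) ω / Y) ^ (p / 2)) -
      (1 / (2 * Real.pi)) ^ (p / 2) * (Real.exp (-((K : ℝ) / 3 * (p / 2))) *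
        ((JF γ (PrS p0 y) (1 / (2 * Y)) ω / Y) ^ (p / 2)))) ∂P ≤
        ∫ ω : Om, (leS γ (PrS p0 y) Z ω / Y) ^ (p / 2) ∂P :=
      integral_mono ((i1.const_mul _).sub ((i2.const_mul _).const_mul _)) hint hpt
    rw [integral_sub (i1.const_mul _) ((i2.const_mul _).const_mul _), integral_const_mul,
      integral_const_mul, integral_const_mul] at h9
    refine le_trans ?_ h9
    have hl' := hl y hy
    have hu' := hu y hyp
    rw [← hY] at hl' hu'
    have hpos : 0 < H (Real.log Y) := by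
      apply hHpos
      rw [Real.le_log_iff_exp_le hY0]
      linarith [Real.exp_one_lt_d9]
    have hK1'' := hK1 K (le_max_right _ _)
    have hW : 0 < Y ^ a * H (Real.log Y) := by positivity
    have hpp : 0 < (1 / (2 * Real.pi)) ^ (p / 2) := by positivity
    have h10 : Real.exp (-((K : ℝ) / 3 * (p / 2))) *
        ∫ ω : Om, (JF γ (PrS p0 y) (1 / (2 * Y)) ω / Y) ^ (p / 2) ∂P ≤
        c1 / 2 * (Y ^ a * H (Real.log Y)) := by
      calc _ ≤ Real.exp (-((K : ℝ) / 3 * (p / 2))) * (C1 * (Y ^ a * H (Real.log Y))) :=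
            mul_le_mul_of_nonneg_left hu' (Real.exp_pos _).le
        _ = (Real.exp (-((K : ℝ) / 3 * (p / 2))) * C1) * (Y ^ a * H (Real.log Y)) := by ring
        _ ≤ _ := mul_le_mul_of_nonneg_right hK1'' hW.le
    have h11 := mul_le_mul_of_nonneg_left hl' hpp.le
    have h12 := mul_le_mul_of_nonneg_left h10 hpp.le
    linarith
  -- from Y to log N
  have hlN := hlog16 N hN3
  have hlN0 : 0 < Real.log N := lt_of_lt_of_le (Real.exp_pos 1) hlN
  have hLY : Real.log Y = Real.log (Real.log N) - Real.log K := by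
    rw [hYN, one_div, Real.log_mul hlN0.ne' (by positivity), Real.log_inv]; ring
  have hY1 : 1 ≤ Real.log Y := by
    rw [Real.le_log_iff_exp_le hY0]
    linarith [Real.exp_one_lt_d9]
  have hcompare := (hHs (Real.log (Real.log N)) (Real.log Y) hY1 (by linarith)).2
  rw [show Real.log (Real.log N) - Real.log Y = Real.log K by rw [hLY]; ring, ← hcK] at hcompare
  have hfin : (1 / (K : ℝ)) ^ a / cK * ((Real.log N) ^ a * H (Real.log (Real.log N))) ≤
      Y ^ a * H (Real.log Y) := by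
    rw [hYN, Real.mul_rpow hlN0.le (by positivity), ← hYN]
    rw [div_mul_eq_mul_div, div_le_iff₀ hcKp]
    calc _ = (Real.log N) ^ a * (1 / (K : ℝ)) ^ a * H (Real.log (Real.log N)) := by ring
      _ ≤ (Real.log N) ^ a * (1 / (K : ℝ)) ^ a * (cK * H (Real.log Y)) :=
          mul_le_mul_of_nonneg_left hcompare (by positivity)
      _ = _ := by ring
  calc cc * ((Real.log N) ^ a * H (Real.log (Real.log N)))
      = c * ((1 / (2 * Real.pi)) ^ (p / 2) * (c1 / 2)) * ((1 / (K : ℝ)) ^ a / cK *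
        ((Real.log N) ^ a * H (Real.log (Real.log N)))) := by rw [hcc]; ring
    _ ≤ c * ((1 / (2 * Real.pi)) ^ (p / 2) * (c1 / 2)) * (Y ^ a * H (Real.log Y)) :=
        mul_le_mul_of_nonneg_left hfin (by positivity)
    _ = c * ((1 / (2 * Real.pi)) ^ (p / 2) * (c1 / 2) * (Y ^ a * H (Real.log Y))) := by ring
    _ ≤ c * ∫ ω, (leS γ (PrS p0 y) Z ω / Y) ^ (p / 2) ∂P := by gcongr
    _ ≤ ∫ ω : Om, ‖DA γ (PrS p0 N) N ω‖ ^ p ∂P := hred
    _ ≤ _ := hSML γ p0 p hp N (by omega)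

end PN
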