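import Pool.Agent.H24.PM.Red
import Pool.Agent.H24.PM.LE
import Pool.Agent.H24.PN.Stmts

/-! General reduction of the norms to the moments of the mean square, upper bound. -/

namespace PN
open MeasureTheory Complex PM

/-- slowly varying positive function on [1,oo) -/
def Slow (H : ℝ → ℝ) : Prop := (∀ m : ℝ, 1 ≤ m → 0 < H m) ∧ ∃ (c : ℝ) (k : ℕ), 0 < c ∧
  ∀ m m' : ℝ, 1 ≤ m' → m' ≤ m → H m' ≤ c * (1 + (m - m')) ^ k * H m ∧
    H m ≤ c * (1 + (m - m')) ^ k * H m'

lemma poly_exp_bound (k : ℕ) {a : ℝ} (ha : 0 < a) : ∃ C : ℝ, 0 < C ∧ ∀ t : ℝ, 0 ≤ t →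
    (1 + t) ^ k * Real.exp (-(a * t)) ≤ C := by
  have h1 : Filter.Tendsto (fun t : ℝ => (1 + t) ^ k * Real.exp (-(a * t))) Filter.atTop
      (nhds 0) := by
    have h2 : Filter.Tendsto (fun x : ℝ => x ^ (k : ℝ) * Real.exp (-a * x)) Filter.atTop (nhds 0) :=
      tendsto_rpow_mul_exp_neg_mul_atTop_nhds_zero k a ha
    have h3 := (h2.comp (Filter.tendsto_atTop_add_const_left Filter.atTop (1 : ℝ)
      Filter.tendsto_id)).const_mul (Real.exp a)
    rw [mul_zero] at h3
    refine h3.congr fun t => ?_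
    simp only [Function.comp, id]
    rw [Real.rpow_natCast, mul_left_comm, ← Real.exp_add]
    congr 2
    ring
  have h4 : ContinuousOn (fun t : ℝ => (1 + t) ^ k * Real.exp (-(a * t))) (Set.Ici 0) := by
    fun_prop
  obtain ⟨T, hT⟩ := Filter.eventually_atTop.1 (h1.eventually (gt_mem_nhds (zero_lt_one' ℝ)))
  obtain ⟨C, hC⟩ := (isCompact_Icc (a := (0 : ℝ)) (b := max T 0)).exists_bound_of_continuousOn
    (h4.mono fun t ht => ht.1)
  refine ⟨max C 1, by positivity, fun t ht => ?_⟩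
  rcases le_or_gt t (max T 0) with h | h
  · exact ((le_abs_self _).trans (hC t ⟨ht, h⟩)).trans (le_max_left _ _)
  · exact (hT t ((le_max_left _ _).trans h.le)).le.trans (le_max_right _ _)

theorem upper2 (hR : S_URED) (hM1 : S_M1) (hSM : S_SMU) (γ p : ℝ) (hp : 0 < p) (hp1 : p ≤ 1)
    (p0 : ℕ) (hG : Good γ p0) (a : ℝ) (ha0 : 0 < a) (H : ℝ → ℝ) (hH : Slow H) (C2 : ℝ)
    (hF : ∀ y : ℝ, (p0 : ℝ) + 1 ≤ y → (Real.log y) ^ ((al γ) ^ 2 * p ^ 2 / 4) ≤
      C2 * ((Real.log y) ^ a * H (Real.log (Real.log y))))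
    (C1 : ℝ) (h : ∀ y : ℝ, (p0 : ℝ) + 1 ≤ y →
      ∫ ω : Om, (JF γ (PrS p0 y) (-(1 / Real.log y)) ω / Real.log y) ^ (p / 2) ∂P ≤
        C1 * ((Real.log y) ^ a * H (Real.log (Real.log y)))) :
    ∃ C : ℝ, 0 < C ∧ ∀ N : ℕ, 16 ≤ N →
      ∫ ω : Om, ‖D γ N ω‖ ^ p ∂P ≤ C * ((Real.log N) ^ a * H (Real.log (Real.log N))) := by
  obtain ⟨hHpos, cH, kH, hcH, hHs⟩ := hH
  obtain ⟨C, B, N0, hC, hB, hN0, hR'⟩ := hR γ p0 hG p hp hp1
  obtain ⟨c3, C3, hc3, hC3, hM⟩ := hM1 γ p0 hG 1
  obtain ⟨C4, hC4, hS⟩ := hSM γ p0 p hp hp1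
  obtain ⟨hp04, hlp0⟩ := good_p0 hG
  obtain ⟨E1, hE1, hE1'⟩ := poly_exp_bound kH (show 0 < a / 2 by linarith)
  have hlog16 : ∀ N : ℕ, 16 ≤ N → Real.exp 1 ≤ Real.log N := by
    intro N hN
    have hN' : (16 : ℝ) ≤ N := by exact_mod_cast hN
    have : Real.log 16 ≤ Real.log N := Real.log_le_log (by norm_num) hN'
    refine le_trans ?_ this
    have h5 : Real.log 16 = 4 * Real.log 2 := by
      rw [show (16 : ℝ) = 2 ^ (4 : ℕ) by norm_num, Real.log_pow]; norm_num
    rw [h5]
    have := Real.log_two_gt_d9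
    have := Real.exp_one_lt_d9
    linarith
  have hlogN : ∀ N : ℕ, 16 ≤ N → 1 ≤ Real.log N := fun N hN =>
    le_trans (Real.one_le_exp (by norm_num)) (hlog16 N hN)
  have hLL : ∀ N : ℕ, 16 ≤ N → 1 ≤ Real.log (Real.log N) := fun N hN => by
    rw [Real.le_log_iff_exp_le (by linarith [hlogN N hN])]
    exact hlog16 N hN
  -- the target function
  set W : ℝ → ℝ := fun L => L ^ a * H (Real.log L) with hW
  have hWpos : ∀ L : ℝ, Real.exp 1 ≤ L → 0 < W L := by
    intro L hL
    have hL0 : 0 < L := lt_of_lt_of_le (Real.exp_pos 1) hL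
    have : 1 ≤ Real.log L := by rwa [Real.le_log_iff_exp_le hL0]
    exact mul_pos (Real.rpow_pos_of_pos hL0 _) (hHpos _ this)
  -- comparison of W at two points
  have hWcmp : ∀ L L' : ℝ, Real.exp 1 ≤ L' → L' ≤ L →
      W L' ≤ (cH * E1) * (L' / L) ^ (a / 2) * W L := by
    intro L L' hL' hLL'
    have hL0' : 0 < L' := lt_of_lt_of_le (Real.exp_pos 1) hL'
    have hL0 : 0 < L := lt_of_lt_of_le hL0' hLL'
    have h1 : 1 ≤ Real.log L' := by rwa [Real.le_log_iff_exp_le hL0']
    have h2 : Real.log L' ≤ Real.log L := Real.log_le_log hL0' hLL'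
    have h3 := (hHs (Real.log L) (Real.log L') h1 h2).1
    have h4 := hE1' (Real.log L - Real.log L') (by linarith)
    have h5 : (L' / L) ^ (a / 2) = Real.exp (-(a / 2 * (Real.log L - Real.log L'))) := by
      rw [Real.rpow_def_of_pos (by positivity), Real.log_div hL0'.ne' hL0.ne']
      congr 1; ring
    have h6 : L' ^ a = L ^ a * ((L' / L) ^ (a / 2) * (L' / L) ^ (a / 2)) := by
      rw [← Real.rpow_add (by positivity), add_halves, Real.div_rpow hL0'.le hL0.le]
      field_simp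
    have hHL := hHpos (Real.log L) (h1.trans h2)
    simp only [hW]
    calc L' ^ a * H (Real.log L') ≤ L' ^ a * (cH * (1 + (Real.log L - Real.log L')) ^ kH *
          H (Real.log L)) := mul_le_mul_of_nonneg_left h3 (by positivity)
      _ = cH * ((1 + (Real.log L - Real.log L')) ^ kH * (L' / L) ^ (a / 2)) *
          (L' / L) ^ (a / 2) * (L ^ a * H (Real.log L)) := by rw [h6]; ring
      _ ≤ cH * E1 * (L' / L) ^ (a / 2) * (L ^ a * H (Real.log L)) := by
          apply mul_le_mul_of_nonneg_right _ (by positivity)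
          apply mul_le_mul_of_nonneg_right _ (by positivity)
          apply mul_le_mul_of_nonneg_left _ hcH.le
          rw [h5]; exact h4
  -- eventual conditions
  have ev1 : ∀ᶠ N : ℕ in Filter.atTop, (Real.log (Real.log N)) ^ B ≤
      (Real.log N) ^ (a / 2) := by
    have h1 : (fun x : ℝ => (Real.log x) ^ B) =o[Filter.atTop] (fun x : ℝ => x ^ (a / 2)) :=
      isLittleO_log_rpow_rpow_atTop B (by linarith)
    have h2 := (h1.bound (zero_lt_one)).and (Filter.eventually_ge_atTop (1 : ℝ))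
    have h3 : Filter.Tendsto (fun N : ℕ => Real.log (N : ℝ)) Filter.atTop Filter.atTop :=
      Real.tendsto_log_atTop.comp tendsto_natCast_atTop_atTop
    filter_upwards [h3.eventually h2] with N hN
    have h4 := hN.1
    rw [one_mul, Real.norm_of_nonneg (Real.rpow_nonneg (Real.log_nonneg hN.2) _),
      Real.norm_of_nonneg (Real.rpow_nonneg (by linarith [hN.2]) _)] at h4
    exact h4
  have ev2 : ∀ᶠ N : ℕ in Filter.atTop, max (Real.log (p0 + 1)) (Real.exp 1) ≤
      (Real.log (Real.log N)) ^ 2 := by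
    have h3 : Filter.Tendsto (fun N : ℕ => (Real.log (Real.log (N : ℝ))) ^ 2) Filter.atTop
        Filter.atTop :=
      (Filter.tendsto_pow_atTop (by norm_num)).comp (Real.tendsto_log_atTop.comp
        (Real.tendsto_log_atTop.comp tendsto_natCast_atTop_atTop))
    exact h3.eventually (Filter.eventually_ge_atTop _)
  obtain ⟨N1, hN1⟩ := Filter.eventually_atTop.1 (ev1.and (ev2.and (Filter.eventually_ge_atTop
    (max N0 16))))
  -- lower bound of W
  have hWlow : ∀ L : ℝ, Real.exp 1 ≤ L → L ^ (a / 2) * (W (Real.exp 1) /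
      ((cH * E1) * (Real.exp 1) ^ (a / 2))) ≤ W L := by
    intro L hL
    have hL0 : 0 < L := lt_of_lt_of_le (Real.exp_pos 1) hL
    have h1 := hWcmp L (Real.exp 1) le_rfl hL
    rw [Real.div_rpow (Real.exp_pos 1).le hL0.le] at h1
    have h2 : 0 < cH * E1 * (Real.exp 1) ^ (a / 2) := by positivity
    have h3 : 0 < L ^ (a / 2) := by positivity
    rw [mul_div_assoc', div_le_iff₀ h2]
    calc L ^ (a / 2) * W (Real.exp 1) ≤
          L ^ (a / 2) * (cH * E1 * ((Real.exp 1) ^ (a / 2) / L ^ (a / 2)) * W L) :=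
          mul_le_mul_of_nonneg_left h1 h3.le
      _ = _ := by field_simp
  set w0 : ℝ := W (Real.exp 1) / ((cH * E1) * (Real.exp 1) ^ (a / 2)) with hw0
  have hw0p : 0 < w0 := by
    rw [hw0]
    exact div_pos (hWpos _ le_rfl) (by positivity)
  have hr : Real.exp (-(a / 2)) < 1 := by rw [Real.exp_lt_one_iff]; linarith
  set R0 : ℝ := (1 - Real.exp (-(a / 2)))⁻¹ with hR0
  have hR0p : 0 < R0 := by rw [hR0]; exact inv_pos.2 (by linarith)
  have hC12 : (C3 * |C2| + |C1|) ≥ 0 := by positivity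
  set K : ℝ := C / w0 + C * ((C3 * |C2| + |C1|) * (cH * E1) * R0) with hK
  have hKpos : 0 < K := by
    have : 0 < C / w0 := by positivity
    have h2 : 0 ≤ C * ((C3 * |C2| + |C1|) * (cH * E1) * R0) := by positivity
    linarith
  have hlarge : ∀ M : ℕ, N1 ≤ M → ∫ ω : Om, ‖DA γ (PrS p0 M) M ω‖ ^ p ∂P ≤
      K * W (Real.log M) := by
    intro M hMN
    obtain ⟨e1, e2, e3⟩ := hN1 M hMN
    have hM16 : 16 ≤ M := le_trans (le_max_right _ _) e3
    have hlM := hlogN M hM16
    have hlM' := hlog16 M hM16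
    have hWM := hWpos _ hlM'
    have hmain := hR' M (le_trans (le_max_left _ _) e3)
    refine hmain.trans ?_
    have hk : ∀ k ∈ KU M, (∫ ω : Om, ‖F γ (PrS p0 (yk M k)) 0 0 ω‖ ^ p ∂P +
        ∫ ω : Om, (JF γ (PrS p0 (yk M k)) (-(1 / Real.log (yk M k))) ω / Real.log (yk M k)) ^
          (p / 2) ∂P) ≤ ((C3 * |C2| + |C1|) * (cH * E1) * W (Real.log M)) *
            (Real.exp (-(a / 2))) ^ k := by
      intro k hk
      unfold KU at hk
      rw [Finset.mem_filter] at hk
      have hlk : max (Real.log (p0 + 1)) (Real.exp 1) ≤ Real.log (yk M k) := e2.trans hk.2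
      have hykpos : 0 < yk M k := by unfold yk; positivity
      have hyk : (p0 : ℝ) + 1 ≤ yk M k := by
        have := (le_max_left _ _).trans hlk
        rwa [Real.log_le_log_iff (by positivity) hykpos] at this
      have hle1 : Real.exp 1 ≤ Real.log (yk M k) := (le_max_right _ _).trans hlk
      have f1 := (hM p0 (yk M k) 0 0 p le_rfl (by linarith) (by simp) hp.le hp1).2
      have hpos : 0 < Real.log (yk M k) := lt_of_lt_of_le (Real.exp_pos 1) hle1
      have f1' : ∫ ω : Om, ‖F γ (PrS p0 (yk M k)) 0 0 ω‖ ^ p ∂P ≤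
          C3 * (|C2| * W (Real.log (yk M k))) := by
        refine f1.trans (mul_le_mul_of_nonneg_left ?_ hC3.le)
        calc (Real.log (yk M k) / Real.log p0) ^ ((al γ) ^ 2 * p ^ 2 / 4)
            ≤ (Real.log (yk M k)) ^ ((al γ) ^ 2 * p ^ 2 / 4) := by
              apply Real.rpow_le_rpow (by positivity) (div_le_self hpos.le hlp0)
              positivity
          _ ≤ C2 * W (Real.log (yk M k)) := hF _ hyk
          _ ≤ _ := mul_le_mul_of_nonneg_right (le_abs_self _) (hWpos _ hle1).le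
      have f2 : ∫ ω : Om, (JF γ (PrS p0 (yk M k)) (-(1 / Real.log (yk M k))) ω /
          Real.log (yk M k)) ^ (p / 2) ∂P ≤ |C1| * W (Real.log (yk M k)) :=
        (h (yk M k) hyk).trans (mul_le_mul_of_nonneg_right (le_abs_self _) (hWpos _ hle1).le)
      have hle : Real.log (yk M k) ≤ Real.log M := by
        rw [log_yk]
        apply mul_le_of_le_one_right (by linarith)
        rw [Real.exp_le_one_iff]
        have : (0 : ℝ) ≤ k := Nat.cast_nonneg k
        linarith
      have f3 := hWcmp (Real.log M) (Real.log (yk M k)) hle1 hle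
      have f4 : (Real.log (yk M k) / Real.log M) ^ (a / 2) ≤ (Real.exp (-(a / 2))) ^ k := by
        rw [log_yk, mul_div_cancel_left₀ _ (by linarith : Real.log (M : ℝ) ≠ 0), ← Real.exp_mul,
          ← Real.exp_nat_mul]
        apply Real.exp_le_exp.2
        nlinarith
      have f5 : W (Real.log (yk M k)) ≤ (cH * E1) * (Real.exp (-(a / 2))) ^ k *
          W (Real.log M) := by
        refine f3.trans ?_
        apply mul_le_mul_of_nonneg_right _ hWM.le
        exact mul_le_mul_of_nonneg_left f4 (by positivity)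
      calc _ ≤ C3 * (|C2| * W (Real.log (yk M k))) + |C1| * W (Real.log (yk M k)) :=
            add_le_add f1' f2
        _ = (C3 * |C2| + |C1|) * W (Real.log (yk M k)) := by ring
        _ ≤ (C3 * |C2| + |C1|) * ((cH * E1) * (Real.exp (-(a / 2))) ^ k * W (Real.log M)) :=
            mul_le_mul_of_nonneg_left f5 hC12
        _ = _ := by ring
    have hsum : ∑ k ∈ KU M, (∫ ω : Om, ‖F γ (PrS p0 (yk M k)) 0 0 ω‖ ^ p ∂P +
        ∫ ω : Om, (JF γ (PrS p0 (yk M k)) (-(1 / Real.log (yk M k))) ω / Real.log (yk M k)) ^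
          (p / 2) ∂P) ≤ ((C3 * |C2| + |C1|) * (cH * E1) * R0) * W (Real.log M) := by
      calc _ ≤ ∑ k ∈ KU M, ((C3 * |C2| + |C1|) * (cH * E1) * W (Real.log M)) *
            (Real.exp (-(a / 2))) ^ k := Finset.sum_le_sum hk
        _ = ((C3 * |C2| + |C1|) * (cH * E1) * W (Real.log M)) *
            ∑ k ∈ KU M, (Real.exp (-(a / 2))) ^ k := by rw [Finset.mul_sum]
        _ ≤ ((C3 * |C2| + |C1|) * (cH * E1) * W (Real.log M)) * R0 := by
            apply mul_le_mul_of_nonneg_left _ (by positivity)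
            calc ∑ k ∈ KU M, (Real.exp (-(a / 2))) ^ k ≤ ∑' k : ℕ, (Real.exp (-(a / 2))) ^ k :=
                  (summable_geometric_of_lt_one (Real.exp_pos _).le hr).sum_le_tsum _
                    (fun k _ => by positivity)
              _ = _ := tsum_geometric_of_lt_one (Real.exp_pos _).le hr
        _ = _ := by ring
    have e1' : (Real.log (Real.log M)) ^ B ≤ W (Real.log M) / w0 := by
      rw [le_div_iff₀ hw0p]
      exact (mul_le_mul_of_nonneg_right e1 hw0p.le).trans (hWlow _ hlM')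
    calc _ ≤ C * (W (Real.log M) / w0) + C * (((C3 * |C2| + |C1|) * (cH * E1) * R0) *
          W (Real.log M)) :=
          add_le_add (mul_le_mul_of_nonneg_left e1' hC.le) (mul_le_mul_of_nonneg_left hsum hC.le)
      _ = _ := by rw [hK]; ring
  set K2 : ℝ := ∑ M ∈ Finset.range N1, ∫ ω : Om, ‖DA γ (PrS p0 M) M ω‖ ^ p ∂P with hK2
  have hnn : ∀ M : ℕ, 0 ≤ ∫ ω : Om, ‖DA γ (PrS p0 M) M ω‖ ^ p ∂P := fun M =>
    integral_nonneg (fun ω => by positivity)
  have hK2nn : 0 ≤ K2 := Finset.sum_nonneg (fun M _ => hnn M)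
  refine ⟨C4 * (K * (cH * E1) + K2 / w0), by positivity, ?_⟩
  intro N hN
  have hlN := hlogN N hN
  have hlN' := hlog16 N hN
  have hWN := hWpos _ hlN'
  have hone : 1 ≤ W (Real.log N) / w0 := by
    rw [le_div_iff₀ hw0p, one_mul]
    refine le_trans ?_ (hWlow _ hlN')
    exact le_mul_of_one_le_left hw0p.le (Real.one_le_rpow hlN (by linarith))
  have hkey := hS N ((K * (cH * E1) + K2 / w0) * W (Real.log N)) (by omega) ?_
  · refine hkey.trans (le_of_eq (by simp only [hW]; ring))
  · intro M hM1' hMN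
    rcases lt_or_ge M N1 with hlt | hge
    · have : ∫ ω : Om, ‖DA γ (PrS p0 M) M ω‖ ^ p ∂P ≤ K2 :=
        Finset.single_le_sum (f := fun M : ℕ => ∫ ω : Om, ‖DA γ (PrS p0 M) M ω‖ ^ p ∂P)
          (fun M _ => hnn M) (Finset.mem_range.2 hlt)
      calc _ ≤ K2 * 1 := by linarith
        _ ≤ K2 * (W (Real.log N) / w0) := mul_le_mul_of_nonneg_left hone hK2nn
        _ ≤ K * (cH * E1) * W (Real.log N) + K2 * (W (Real.log N) / w0) := by
            have : 0 ≤ K * (cH * E1) * W (Real.log N) := by positivity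
            linarith
        _ = _ := by ring
    · have hM16 : 16 ≤ M := le_trans (le_max_right _ _) (hN1 M hge).2.2
      have hlM' := hlog16 M hM16
      have hle : Real.log M ≤ Real.log N := Real.log_le_log (by positivity) (by exact_mod_cast hMN)
      have f3 := hWcmp (Real.log N) (Real.log M) hlM' hle
      have f4 : (Real.log M / Real.log N) ^ (a / 2) ≤ 1 := by
        apply Real.rpow_le_one
        · exact div_nonneg (by linarith [Real.exp_pos 1]) (by linarith)
        · exact div_le_one_of_le₀ hle (by linarith)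
        · linarith
      calc _ ≤ K * W (Real.log M) := hlarge M hge
        _ ≤ K * ((cH * E1) * 1 * W (Real.log N)) := by
            apply mul_le_mul_of_nonneg_left _ hKpos.le
            refine f3.trans (mul_le_mul_of_nonneg_right ?_ hWN.le)
            exact mul_le_mul_of_nonneg_left f4 (by positivity)
        _ ≤ _ := by
            have : 0 ≤ K2 / w0 * W (Real.log N) := by positivity
            nlinarith

end PN
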