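import Pool.Agent.H24.PN.Stmts

/-! Module STN: Gaussian integration by parts in one coordinate. -/

namespace PN
open MeasureTheory Complex ProbabilityTheory PM

theorem stn_int_iff (h : ℝ → ℝ) :
    Integrable h (gaussianReal 0 1) ↔ Integrable (fun s => gaussianPDFReal 0 1 s * h s) := by
  rw [gaussianReal_of_var_ne_zero 0 one_ne_zero]
  rw [integrable_withDensity_iff_integrable_smul' (measurable_gaussianPDF 0 1)
    (Filter.Eventually.of_forall fun s => gaussianPDF_lt_top)]
  simp only [toReal_gaussianPDF, smul_eq_mul]

theorem stn_deriv (s : ℝ) :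
    HasDerivAt (gaussianPDFReal 0 1) (-(s * gaussianPDFReal 0 1 s)) s := by
  unfold gaussianPDFReal
  have h1 : HasDerivAt (fun x : ℝ => -(x - 0) ^ 2 / (2 * ((1 : NNReal) : ℝ))) (-s) s := by
    have := ((((hasDerivAt_id s).sub_const (0 : ℝ)).pow 2).neg).div_const (2 * ((1 : NNReal) : ℝ))
    refine this.congr_deriv ?_
    simp
    ring
  have h2 := (h1.exp).const_mul ((Real.sqrt (2 * Real.pi * ((1 : NNReal) : ℝ)))⁻¹)
  refine h2.congr_deriv ?_
  ring

theorem stn_one (F F' : ℝ → ℝ) (hF : Continuous F) (hF' : Continuous F')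
    (B : ℝ) (hB : ∀ s, |F s| ≤ B) (B' : ℝ) (hB' : ∀ s, |F' s| ≤ B')
    (hd : ∀ s, HasDerivAt F (F' s) s) :
    ∫ s, s * F s ∂gaussianReal 0 1 = ∫ s, F' s ∂gaussianReal 0 1 := by
  have hs : Integrable (fun s : ℝ => s) (gaussianReal 0 1) :=
    (memLp_id_gaussianReal' 1 (by simp)).integrable le_rfl
  have hsF : Integrable (fun s : ℝ => s * F s) (gaussianReal 0 1) := by
    refine hs.mul_bdd (c := B) hF.aestronglyMeasurable (Filter.Eventually.of_forall fun s => ?_)
    simpa using hB s
  have hFi : Integrable F (gaussianReal 0 1) :=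
    Integrable.of_bound hF.aestronglyMeasurable B (Filter.Eventually.of_forall fun s => by
      simpa using hB s)
  have hFi' : Integrable F' (gaussianReal 0 1) :=
    Integrable.of_bound hF'.aestronglyMeasurable B' (Filter.Eventually.of_forall fun s => by
      simpa using hB' s)
  rw [integral_gaussianReal_eq_integral_smul one_ne_zero,
    integral_gaussianReal_eq_integral_smul one_ne_zero]
  have key := integral_mul_deriv_eq_deriv_mul_of_integrable (u := F) (u' := F')
    (v := gaussianPDFReal 0 1) (v' := fun s => -(s * gaussianPDFReal 0 1 s))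
    (fun s _ => hd s) (fun s _ => stn_deriv s) ?_ ?_ ?_
  · simp only [smul_eq_mul]
    have e1 : ∫ s, gaussianPDFReal 0 1 s * (s * F s) = -∫ s, F s * -(s * gaussianPDFReal 0 1 s) := by
      rw [← integral_neg]
      exact integral_congr_ae (Filter.Eventually.of_forall fun s => by simp only; ring)
    rw [e1, key, neg_neg]
    exact integral_congr_ae (Filter.Eventually.of_forall fun s => by simp only; ring)
  · refine (((stn_int_iff _).1 hsF).neg).congr (Filter.Eventually.of_forall fun s => ?_)
    simp only [Pi.neg_apply, Pi.mul_apply]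
    ring
  · refine (((stn_int_iff _).1 hFi')).congr (Filter.Eventually.of_forall fun s => ?_)
    simp only [Pi.mul_apply]
    ring
  · refine (((stn_int_iff _).1 hFi)).congr (Filter.Eventually.of_forall fun s => ?_)
    simp only [Pi.mul_apply]
    ring

theorem stn_mp (κ : Type) [Fintype κ] [DecidableEq κ] (k : κ) :
    MeasurePreserving (fun q : (κ → ℝ) × ℝ => Function.update q.1 k q.2)
      ((Ga κ).prod (gaussianReal 0 1)) (Ga κ) := by
  have hm : Measurable (fun q : (κ → ℝ) × ℝ => Function.update q.1 k q.2) := by
    rw [measurable_pi_iff]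
    intro i
    by_cases hi : i = k
    · subst hi
      simpa using measurable_snd
    · simp only [Function.update_of_ne hi]
      exact (measurable_pi_apply i).comp measurable_fst
  refine ⟨hm, ?_⟩
  unfold Ga
  symm
  refine Measure.pi_eq fun t ht => ?_
  rw [Measure.map_apply hm (MeasurableSet.univ_pi ht)]
  have hpre : (fun q : (κ → ℝ) × ℝ => Function.update q.1 k q.2) ⁻¹' Set.univ.pi t =
      (Set.univ.pi (Function.update t k Set.univ)) ×ˢ (t k) := by
    ext q
    simp only [Set.mem_preimage, Set.mem_pi, Set.mem_univ, true_implies, Set.mem_prod]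
    constructor
    · intro h
      refine ⟨fun i => ?_, by simpa using h k⟩
      by_cases hi : i = k
      · subst hi; simp
      · simpa [Function.update_of_ne hi] using h i
    · rintro ⟨h1, h2⟩ i
      by_cases hi : i = k
      · subst hi; simpa using h2
      · simpa [Function.update_of_ne hi] using h1 i
  rw [hpre, Measure.prod_prod, Measure.pi_pi]
  rw [← Finset.mul_prod_erase Finset.univ _ (Finset.mem_univ k)]
  rw [← Finset.mul_prod_erase Finset.univ (fun i => gaussianReal 0 1 (t i)) (Finset.mem_univ k)]
  simp only [Function.update_self, measure_univ, one_mul]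
  rw [mul_comm]
  congr 1
  refine Finset.prod_congr rfl fun i hi => ?_
  rw [Function.update_of_ne (Finset.ne_of_mem_erase hi)]

theorem STN : S_STN := by
  intro κ _ _ k f f' hf hf' hB hB' hd
  obtain ⟨B, hB⟩ := hB
  obtain ⟨B', hB'⟩ := hB'
  have hmp := stn_mp κ k
  have hup : Continuous (fun q : (κ → ℝ) × ℝ => Function.update q.1 k q.2) :=
    continuous_fst.update k continuous_snd
  have hm1 : AEStronglyMeasurable (fun g : κ → ℝ => g k * f g) (Ga κ) :=
    ((continuous_apply k).mul hf).aestronglyMeasurable
  have hm2 : AEStronglyMeasurable (fun g : κ → ℝ => f' g) (Ga κ) := hf'.aestronglyMeasurable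
  have hs : Integrable (fun s : ℝ => s) (gaussianReal 0 1) :=
    (memLp_id_gaussianReal' 1 (by simp)).integrable le_rfl
  have hI1 : Integrable (fun q : (κ → ℝ) × ℝ => q.2 * f (Function.update q.1 k q.2))
      ((Ga κ).prod (gaussianReal 0 1)) := by
    refine (hs.comp_snd (Ga κ)).mul_bdd (c := B) (hf.comp hup).aestronglyMeasurable
      (Filter.Eventually.of_forall fun q => ?_)
    simpa using hB _
  have hI2 : Integrable (fun q : (κ → ℝ) × ℝ => f' (Function.update q.1 k q.2))
      ((Ga κ).prod (gaussianReal 0 1)) :=
    Integrable.of_bound (hf'.comp hup).aestronglyMeasurable B'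
      (Filter.Eventually.of_forall fun q => by simpa using hB' _)
  have e1 : ∫ g : κ → ℝ, g k * f g ∂Ga κ =
      ∫ q : (κ → ℝ) × ℝ, q.2 * f (Function.update q.1 k q.2)
        ∂((Ga κ).prod (gaussianReal 0 1)) := by
    have := integral_map (μ := (Ga κ).prod (gaussianReal 0 1)) hmp.measurable.aemeasurable
      (f := fun g : κ → ℝ => g k * f g) (by rw [hmp.map_eq]; exact hm1)
    rw [hmp.map_eq] at this
    rw [this]
    simp
  have e2 : ∫ g : κ → ℝ, f' g ∂Ga κ =
      ∫ q : (κ → ℝ) × ℝ, f' (Function.update q.1 k q.2)
        ∂((Ga κ).prod (gaussianReal 0 1)) := by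
    have := integral_map (μ := (Ga κ).prod (gaussianReal 0 1)) hmp.measurable.aemeasurable
      (f := fun g : κ → ℝ => f' g) (by rw [hmp.map_eq]; exact hm2)
    rw [hmp.map_eq] at this
    rw [this]
  rw [e1, e2, integral_prod _ hI1, integral_prod _ hI2]
  refine integral_congr_ae (Filter.Eventually.of_forall fun g => ?_)
  simp only
  have hug : Continuous (fun s : ℝ => Function.update g k s) := continuous_const.update k continuous_id
  refine stn_one (fun s => f (Function.update g k s)) (fun s => f' (Function.update g k s))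
    (hf.comp hug) (hf'.comp hug) B (fun s => hB _) B' (fun s => hB' _) fun s => ?_
  have := hd (Function.update g k s)
  simpa [Function.update_idem] using this

end PN
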